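import Mathlib

/-!
# Part BHa1 (of BHa1, BHa2, BHa3); GT-50 Theorem B (abstract), first part

`Γ` finite, `T ≤ M ≤ B`, `X ≤ B` of prime order `p`, `NX` = normaliser of `X`.

* `BH_card`: `NX = X (NX ∩ M)` (`nX`), `X ∩ M = 1` (`X` has order `p`; `|M| = |T| 2^k`: `M / T` is an
  elementary abelian 2-group by `sq`), so `|NX| = p |NX ∩ M|`, and `|B| = k |NX|`, `k = 1` or `p + 1`,
  `|T| ∣ |NX ∩ M| ≤ 2 |T|`.  So `p` divides `|B|` exactly once, and the `r`-part of `|B|` is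
  `r^2` (`(p, r) = (7, 3), (11, 5)`, `k = 1, 8, 12`).  `T_r = {t ∈ T | t^r = 1}` has order `r^2` (`T` abelian of
  order `4 r^2`, exponent `2 r`) and is a Sylow `r`-subgroup of `B`; `X` is a Sylow `p`-subgroup of `B`.
* `BH_M`: `n ∈ M`, `n ^ r = 1` implies `n ∈ T` (`n^2 ∈ T`, `r` odd).
* `BH_conj`: `g T g⁻¹ ≤ B` implies `g ∈ B`: `g T_r g⁻¹` and `T_r` are Sylow `r`-subgroups of `B`, so there is
  `b ∈ B` with `b g T_r g⁻¹ b⁻¹ = T_r`; for `t ∈ T`, `(b g) t (b g)⁻¹` commutes with `T_r`, so it is in `M`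
  (`centr`); `cj` gives `b g ∈ M`.
* `BH_TI`: `t ∈ T`, `t ≠ 1`, `x t x⁻¹ ∈ T` implies `x ∈ B`: `x T x⁻¹` commutes with `x t x⁻¹`, so it is in
  `B` (`cent`); `BH_conj`.
* `BH_r`: `u ∈ B`, `u ≠ 1`, `u ^ r = 1`, `x u x⁻¹ ∈ B`: then `x ∈ B`: by Sylow `u = b t b⁻¹`,
  `x u x⁻¹ = b' t' b'⁻¹` with `b, b' ∈ B`, `t, t' ∈ T`; `BH_TI` for `b'⁻¹ x b`.
* `BH_p`: the same for `u ^ p = 1`: `u` generates a Sylow `p`-subgroup of `B`, conjugate to `X` in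
  `B`, and so does `x u x⁻¹`: `b'⁻¹ x b` normalises `X`; `nX`.
-/

namespace Pool.Agent.H40.GT

/-- the hypotheses of Theorem B -/
structure BH (Γ : Type) [Group Γ] (T M B X NX : Subgroup Γ) (p r k : ℕ) (e0 : Γ) : Prop where
  fin : Finite Γ
  hpr : (p = 7 ∧ r = 3) ∨ (p = 11 ∧ r = 5)
  TM : T ≤ M
  MB : M ≤ B
  comm : ∀ s ∈ T, ∀ t ∈ T, s * t = t * s
  cardT : Nat.card T = 4 * r ^ 2
  exp : ∀ t ∈ T, t ^ (2 * r) = 1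
  nrm : ∀ x ∈ M, ∀ t ∈ T, x * t * x⁻¹ ∈ T
  cj : ∀ x, (∀ t ∈ T, x * t * x⁻¹ ∈ M) → x ∈ M
  cent : ∀ t ∈ T, t ≠ 1 → ∀ x, x * t = t * x → x ∈ B
  centr : ∀ x, (∀ t ∈ T, t ^ r = 1 → x * t = t * x) → x ∈ M
  sq : ∀ n ∈ M, n ^ 2 ∈ T
  XB : X ≤ B
  cardX : Nat.card X = p
  memNX : ∀ x, x ∈ NX ↔ ∀ u ∈ X, x * u * x⁻¹ ∈ X
  NXB : NX ≤ B
  nX : ∀ x ∈ NX, ∃ u ∈ X, ∃ n ∈ M, x = u * n
  TNX : T ≤ NX
  M0 : Nat.card (NX ⊓ M : Subgroup Γ) ≤ 2 * Nat.card T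
  idx : Nat.card B = k * Nat.card NX
  hk : k = 1 ∨ k = p + 1
  e0T : e0 ∈ T
  e0n : e0 ≠ 1
  e02 : e0 ^ 2 = 1
  ce : ∀ e ∈ T, e ≠ 1 → e ≠ e0 → e ^ 2 = 1 → ∀ x, x * e = e * x → x ∈ M
  small : ∀ e ∈ T, e ≠ 1 → e ≠ e0 → e ^ 2 = 1 →
    Nat.card (M ⊓ Subgroup.centralizer {e} : Subgroup Γ) ≤ Nat.card (NX ⊓ M : Subgroup Γ)
  H : ∀ i ∈ B, i ^ 2 = 1 → i ≠ 1 →
    (∃ b ∈ B, ∃ v ∈ T, v ≠ 1 ∧ v ^ r = 1 ∧ i * (b * v * b⁻¹) = b * v * b⁻¹ * i) ∨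
      ∃ v, v ^ 2 = e0 ∧ v * i = i * v

variable {Γ : Type} [Group Γ] {T M B X NX : Subgroup Γ} {p r k : ℕ} {e0 : Γ}

theorem BHa1_XM (h : BH Γ T M B X NX p r k e0) {u : Γ} (hu : u ∈ X) (hM : u ∈ M) : u = 1 := by
  have := h.fin
  have h1 : u ^ (4 * r) = 1 := by
    have := h.exp _ (h.sq u hM)
    rw [← pow_mul] at this
    rw [← this]
    congr 1
    ring
  have h2 : u ^ p = 1 := by
    rw [← h.cardX]
    have := congrArg Subtype.val (pow_card_eq_one' (x := (⟨u, hu⟩ : X)))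
    exact this
  have h3 : Nat.Coprime (4 * r) p := by
    rcases h.hpr with ⟨rfl, rfl⟩ | ⟨rfl, rfl⟩ <;> decide
  have h4 : orderOf u ∣ Nat.gcd (4 * r) p :=
    Nat.dvd_gcd (orderOf_dvd_of_pow_eq_one h1) (orderOf_dvd_of_pow_eq_one h2)
  rw [h3] at h4
  exact orderOf_eq_one_iff.1 (Nat.dvd_one.1 h4)

theorem BHa1_XNX (h : BH Γ T M B X NX p r k e0) : X ≤ NX := by
  intro u hu
  rw [h.memNX]
  intro v hv
  exact X.mul_mem (X.mul_mem hu hv) (X.inv_mem hu)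

theorem BH_cardNX (h : BH Γ T M B X NX p r k e0) :
    Nat.card NX = p * Nat.card (NX ⊓ M : Subgroup Γ) := by
  have := h.fin
  rw [← h.cardX, ← Nat.card_prod]
  symm
  refine Nat.card_congr (Equiv.ofBijective
    (fun q : X × (NX ⊓ M : Subgroup Γ) => (⟨(q.1 : Γ) * (q.2 : Γ),
      NX.mul_mem (BHa1_XNX h q.1.2) q.2.2.1⟩ : NX)) ⟨?_, ?_⟩)
  · rintro ⟨⟨u, hu⟩, ⟨n, hn⟩⟩ ⟨⟨v, hv⟩, ⟨m, hm⟩⟩ hq
    have hq' : u * n = v * m := congrArg Subtype.val hq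
    have h1 : v⁻¹ * u = m * n⁻¹ := by
      rw [inv_mul_eq_iff_eq_mul, ← mul_assoc, ← hq', mul_inv_cancel_right]
    have h2 : v⁻¹ * u = 1 := BHa1_XM h (X.mul_mem (X.inv_mem hv) hu)
      (by rw [h1]; exact M.mul_mem hm.2 (M.inv_mem hn.2))
    have h3 : u = v := by
      rw [inv_mul_eq_one] at h2
      exact h2.symm
    subst h3
    have h4 : n = m := mul_left_cancel hq'
    subst h4
    rfl
  · rintro ⟨x, hx⟩
    obtain ⟨u, hu, n, hn, rfl⟩ := h.nX x hx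
    have hn' : n ∈ NX := by
      have := NX.mul_mem (NX.inv_mem (BHa1_XNX h hu)) hx
      rwa [inv_mul_cancel_left] at this
    exact ⟨⟨⟨u, hu⟩, ⟨n, hn', hn⟩⟩, rfl⟩

theorem BH_card (h : BH Γ T M B X NX p r k e0) : ∃ a, (a = 1 ∨ a = 2) ∧
    Nat.card B = k * (p * (a * (4 * r ^ 2))) := by
  have := h.fin
  have h1 : T ≤ NX ⊓ M := le_inf h.TNX h.TM
  obtain ⟨a, ha⟩ := Subgroup.card_dvd_of_le h1
  have hT : 0 < Nat.card T := Nat.card_pos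
  have hN : 0 < Nat.card (NX ⊓ M : Subgroup Γ) := Nat.card_pos
  have h0 := h.M0
  have ha2 : a ≤ 2 := by
    rw [ha, mul_comm] at h0
    exact Nat.le_of_mul_le_mul_right h0 hT
  have ha1 : a ≠ 0 := by
    rintro rfl
    rw [ha] at hN
    simp at hN
  refine ⟨a, by omega, ?_⟩
  rw [h.idx, BH_cardNX h, ha, h.cardT, mul_comm a]

end Pool.Agent.H40.GT
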