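import Pool.Agent.H40.GT.BHa1

/-!
# Part BHa2 (of BHa1, BHa2, BHa3); GT-50 Theorem B (abstract), first part

`Γ` finite, `T ≤ M ≤ B`, `X ≤ B` of prime order `p`, `NX` = normaliser of `X`.

* `BH_card`: `NX = X (NX ∩ M)` (`nX`), `X ∩ M = 1` (`X` has order `p`; `|M| = |T| 2^k`: `M / T` is an
  elementary abelian 2-group by `sq`), so `|NX| = p |NX ∩ M|`, and `|B| = k |NX|`, `k = 1` or `p + 1`,
  `|T| ∣ |NX ∩ M| ≤ 2 |T|`.  So `p` divides `|B|` exactly once, and the `r`-part of `|B|` is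
  `r^2` (`(p, r) = (7, 3), (11, 5)`, `k = 1, 8, 12`).  `T_r = {t ∈ T | t^r = 1}` has order `r^2` (`T` abelian of
  order `4 r^2`, exponent `2 r`) and is a Sylow `r`-subgroup of `B`; `X` is a Sylow `p`-subgroup of `B`.
* `BH_M`: `n ∈ M`, `n ^ r = 1` implies `n ∈ T` (`n^2 ∈ T`, `r` odd).
* `BH_conj`: `g T g⁻¹ ≤ B` implies `g ∈ B`: `g T_r g⁻¹` and `T_r` are Sylow `r`-subgroups of `B`, so there is
  `b ∈ B` with `b g T_r g⁻¹ b⁻¹ = T_r`; for `t ∈ T`, `(b g) t (b g)⁻¹` commutes with `T_r`, so it is in `M`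
  (`centr`); `cj` gives `b g ∈ M`.
* `BH_TI`: `t ∈ T`, `t ≠ 1`, `x t x⁻¹ ∈ T` implies `x ∈ B`: `x T x⁻¹` commutes with `x t x⁻¹`, so it is in
  `B` (`cent`); `BH_conj`.
* `BH_r`: `u ∈ B`, `u ≠ 1`, `u ^ r = 1`, `x u x⁻¹ ∈ B`: then `x ∈ B`: by Sylow `u = b t b⁻¹`,
  `x u x⁻¹ = b' t' b'⁻¹` with `b, b' ∈ B`, `t, t' ∈ T`; `BH_TI` for `b'⁻¹ x b`.
* `BH_p`: the same for `u ^ p = 1`: `u` generates a Sylow `p`-subgroup of `B`, conjugate to `X` in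
  `B`, and so does `x u x⁻¹`: `b'⁻¹ x b` normalises `X`; `nX`.
-/

namespace Pool.Agent.H40.GT

variable {Γ : Type} [Group Γ] {T M B X NX : Subgroup Γ} {p r k : ℕ} {e0 : Γ}

theorem BH_M (h : BH Γ T M B X NX p r k e0) {n : Γ} (hn : n ∈ M) (hr : n ^ r = 1) : n ∈ T := by
  have h2 := h.sq n hn
  rcases h.hpr with ⟨-, rfl⟩ | ⟨-, rfl⟩
  · have h3 : (n ^ 2) ^ 2 = n := by
      rw [← pow_mul]
      calc n ^ (2 * 2) = n ^ 3 * n := by rw [← pow_succ]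
        _ = n := by rw [hr, one_mul]
    rw [← h3]
    exact T.pow_mem h2 2
  · have h3 : (n ^ 2) ^ 3 = n := by
      rw [← pow_mul]
      calc n ^ (2 * 3) = n ^ 5 * n := by rw [← pow_succ]
        _ = n := by rw [hr, one_mul]
    rw [← h3]
    exact T.pow_mem h2 3

theorem BHa2_prime (h : BH Γ T M B X NX p r k e0) : r.Prime := by
  rcases h.hpr with ⟨-, rfl⟩ | ⟨-, rfl⟩ <;> norm_num

/-- the `r`-torsion of `T` -/
def BHa2_Tr (h : BH Γ T M B X NX p r k e0) : Subgroup Γ where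
  carrier := {t | t ∈ T ∧ t ^ r = 1}
  one_mem' := ⟨T.one_mem, one_pow _⟩
  mul_mem' := by
    rintro a b ⟨ha, ha'⟩ ⟨hb, hb'⟩
    refine ⟨T.mul_mem ha hb, ?_⟩
    have hc : Commute a b := h.comm a ha b hb
    rw [hc.mul_pow, ha', hb', one_mul]
  inv_mem' := by
    rintro a ⟨ha, ha'⟩
    exact ⟨T.inv_mem ha, by rw [inv_pow, ha', inv_one]⟩

theorem BHa2_mem (h : BH Γ T M B X NX p r k e0) {t : Γ} :
    t ∈ BHa2_Tr h ↔ t ∈ T ∧ t ^ r = 1 := Iff.rfl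

theorem BHa2_card (h : BH Γ T M B X NX p r k e0) : Nat.card (BHa2_Tr h) = r ^ 2 := by
  have hf := h.fin
  have hp : Fact r.Prime := ⟨BHa2_prime h⟩
  -- the power map on T
  let φ : T →* T :=
    { toFun := fun t => t ^ r
      map_one' := one_pow _
      map_mul' := fun a b => by
        have hc : Commute a b := Subtype.ext (h.comm a a.2 b b.2)
        exact hc.mul_pow r }
  have hk : Nat.card φ.ker * Nat.card φ.range = 4 * r ^ 2 := by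
    have h1 := Subgroup.card_mul_index φ.ker
    rw [Subgroup.index_ker] at h1
    rw [h1]
    exact h.cardT
  have hker : Nat.card φ.ker = Nat.card (BHa2_Tr h) := by
    refine Nat.card_congr ⟨fun t => ⟨t.1.1, t.1.2, ?_⟩, fun t => ⟨⟨t.1, t.2.1⟩, ?_⟩, ?_, ?_⟩
    · have := t.2
      rw [MonoidHom.mem_ker] at this
      exact congrArg Subtype.val this
    · rw [MonoidHom.mem_ker]
      exact Subtype.ext t.2.2
    · intro t
      rfl
    · intro t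
      rfl
  have h1 : IsPGroup r φ.ker := by
    intro t
    refine ⟨1, ?_⟩
    have := t.2
    rw [MonoidHom.mem_ker] at this
    rw [pow_one]
    exact Subtype.ext this
  have h2 : IsPGroup 2 φ.range := by
    rintro ⟨s, t, rfl⟩
    refine ⟨1, ?_⟩
    rw [pow_one]
    refine Subtype.ext (Subtype.ext ?_)
    show ((t : Γ) ^ r) ^ 2 = 1
    rw [← pow_mul, mul_comm r 2]
    exact h.exp _ t.2
  obtain ⟨a, ha⟩ := IsPGroup.iff_card.1 h1
  have h2f : Fact (Nat.Prime 2) := ⟨Nat.prime_two⟩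
  obtain ⟨b, hb⟩ := IsPGroup.iff_card.1 h2
  rw [← hker, ha]
  rw [ha, hb] at hk
  have hr2 : Nat.Coprime r 2 := by
    rcases h.hpr with ⟨-, rfl⟩ | ⟨-, rfl⟩ <;> norm_num
  have h3 : r ^ a ∣ r ^ 2 := by
    have : r ^ a ∣ 4 * r ^ 2 := ⟨2 ^ b, hk.symm⟩
    refine Nat.Coprime.dvd_of_dvd_mul_left ?_ this
    have : (4 : ℕ) = 2 ^ 2 := by norm_num
    rw [this]
    exact Nat.Coprime.pow a 2 hr2
  have h4 : r ^ 2 ∣ r ^ a := by
    have : r ^ 2 ∣ r ^ a * 2 ^ b := ⟨4, by rw [hk, mul_comm]⟩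
    exact Nat.Coprime.dvd_of_dvd_mul_right (Nat.Coprime.pow 2 b hr2) this
  exact Nat.dvd_antisymm h3 h4

theorem BHa2_fac (h : BH Γ T M B X NX p r k e0) : (Nat.card B).factorization r = 2 := by
  have hp : r.Prime := BHa2_prime h
  obtain ⟨a, ha, hB⟩ := BH_card h
  rw [hB]
  have h1 : k * (p * (a * (4 * r ^ 2))) = r ^ 2 * (k * (p * (a * 4))) := by ring
  rw [h1]
  have h2 : ¬ r ∣ k * (p * (a * 4)) := by
    rcases h.hpr with ⟨rfl, rfl⟩ | ⟨rfl, rfl⟩ <;> rcases h.hk with rfl | rfl <;>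
      rcases ha with rfl | rfl <;> decide
  have h3 : k * (p * (a * 4)) ≠ 0 := by
    intro h0
    rw [h0] at h2
    exact h2 (dvd_zero _)
  rw [Nat.factorization_mul (pow_ne_zero 2 hp.ne_zero) h3, Finsupp.add_apply,
    hp.factorization_pow, Finsupp.single_eq_same, Nat.factorization_eq_zero_of_not_dvd h2]

/-- a conjugate of `T_r` in `B` -/
theorem BHa2_syl (h : BH Γ T M B X NX p r k e0) {g : Γ} (hg : ∀ t ∈ T, g * t * g⁻¹ ∈ B) :
    ∃ P : Sylow r B, ∀ x : B, x ∈ P ↔ g⁻¹ * (x : Γ) * g ∈ BHa2_Tr h := by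
  have hf := h.fin
  have hp : Fact r.Prime := ⟨BHa2_prime h⟩
  let H : Subgroup B := ((BHa2_Tr h).comap (MulAut.conj g⁻¹).toMonoidHom).subgroupOf B
  have hmem : ∀ x : B, x ∈ H ↔ g⁻¹ * (x : Γ) * g ∈ BHa2_Tr h := by
    intro x
    show (MulAut.conj g⁻¹) (x : Γ) ∈ BHa2_Tr h ↔ _
    rw [MulAut.conj_apply, inv_inv]
  have hcard : Nat.card H = r ^ (Nat.card B).factorization r := by
    rw [BHa2_fac h, ← BHa2_card h]
    refine Nat.card_congr ⟨fun x => ⟨g⁻¹ * (x.1 : Γ) * g, (hmem x.1).1 x.2⟩,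
      fun t => ⟨⟨g * t.1 * g⁻¹, hg _ t.2.1⟩, ?_⟩, ?_, ?_⟩
    · rw [hmem]
      have : g⁻¹ * (g * (t : Γ) * g⁻¹) * g = t := by group
      show g⁻¹ * (g * (t : Γ) * g⁻¹) * g ∈ _
      rw [this]
      exact t.2
    · intro x
      refine Subtype.ext (Subtype.ext ?_)
      show g * (g⁻¹ * ((x.1 : B) : Γ) * g) * g⁻¹ = _
      group
    · intro t
      refine Subtype.ext ?_
      show g⁻¹ * (g * (t : Γ) * g⁻¹) * g = t
      group
  refine ⟨Sylow.ofCard H hcard, fun x => ?_⟩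
  rw [← hmem]
  exact Iff.rfl

theorem BHa2_TB (h : BH Γ T M B X NX p r k e0) {t : Γ} (ht : t ∈ T) : t ∈ B := h.MB (h.TM ht)

theorem BHa2_smul {G : Type} [Group G] {r : ℕ} [Fact r.Prime] (P Q : Sylow r G) {g : G}
    (hg : g • P = Q) {x : G} : x ∈ Q ↔ g⁻¹ * x * g ∈ P := by
  subst hg
  have : x ∈ (g • P : Sylow r G) ↔ x ∈ ((g • P : Sylow r G) : Subgroup G) := Iff.rfl
  rw [this, Sylow.coe_subgroup_smul, Subgroup.mem_pointwise_smul_iff_inv_smul_mem,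
    MulAut.smul_def, MulAut.conj_inv_apply]
  exact Iff.rfl

theorem BH_sylr (h : BH Γ T M B X NX p r k e0) {u : Γ} (hu : u ∈ B) (hr : u ^ r = 1) :
    ∃ b ∈ B, ∃ t ∈ T, t ^ r = 1 ∧ u = b * t * b⁻¹ := by
  have hf := h.fin
  have hp : Fact r.Prime := ⟨BHa2_prime h⟩
  obtain ⟨P, hP⟩ := BHa2_syl h (g := 1) (fun t ht => by simpa using BHa2_TB h ht)
  have hpg : IsPGroup r (Subgroup.zpowers (⟨u, hu⟩ : B)) := by
    rintro ⟨x, m, rfl⟩
    refine ⟨1, Subtype.ext ?_⟩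
    show ((⟨u, hu⟩ : B) ^ m) ^ (r ^ 1) = 1
    rw [pow_one, ← zpow_natCast, ← zpow_mul, mul_comm, zpow_mul, zpow_natCast]
    have : (⟨u, hu⟩ : B) ^ r = 1 := Subtype.ext hr
    rw [this, one_zpow]
  obtain ⟨Q, hQ⟩ := hpg.exists_le_sylow
  obtain ⟨g, hg⟩ := MulAction.exists_smul_eq B P Q
  have h1 : (⟨u, hu⟩ : B) ∈ Q := hQ (Subgroup.mem_zpowers _)
  rw [BHa2_smul P Q hg, hP, BHa2_mem] at h1
  simp only [inv_one, one_mul, mul_one, Subgroup.coe_mul, Subgroup.coe_inv] at h1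
  refine ⟨g, g.2, _, h1.1, h1.2, ?_⟩
  group

theorem BH_conj (h : BH Γ T M B X NX p r k e0) {g : Γ} (hg : ∀ t ∈ T, g * t * g⁻¹ ∈ B) :
    g ∈ B := by
  have hf := h.fin
  have hp : Fact r.Prime := ⟨BHa2_prime h⟩
  obtain ⟨P, hP⟩ := BHa2_syl h (g := 1) (fun t ht => by simpa using BHa2_TB h ht)
  obtain ⟨Q, hQ⟩ := BHa2_syl h hg
  obtain ⟨b, hb⟩ := MulAction.exists_smul_eq B Q P
  -- x in P iff b⁻¹ x b in Q
  have h1 : ∀ t ∈ T, t ^ r = 1 → (g⁻¹ * ((b : Γ)⁻¹ * t * b) * g) ∈ BHa2_Tr h := by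
    intro t ht htr
    have h2 : (⟨t, BHa2_TB h ht⟩ : B) ∈ P := by
      rw [hP, BHa2_mem]
      simpa using ⟨ht, htr⟩
    rw [BHa2_smul Q P hb, hQ] at h2
    simpa using h2
  have h3 : ∀ t ∈ T, ((b : Γ) * g) * t * ((b : Γ) * g)⁻¹ ∈ M := by
    intro t ht
    apply h.centr
    intro s hs hsr
    have h4 := h1 s hs hsr
    have h5 := h.comm t ht _ h4.1
    have h6 : s = ((b : Γ) * g) * (g⁻¹ * ((b : Γ)⁻¹ * s * b) * g) * ((b : Γ) * g)⁻¹ := by group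
    have h7 : ((b : Γ) * g) * t * ((b : Γ) * g)⁻¹ * (((b : Γ) * g) * (g⁻¹ * ((b : Γ)⁻¹ * s * b) * g) * ((b : Γ) * g)⁻¹)
        = ((b : Γ) * g) * (t * (g⁻¹ * ((b : Γ)⁻¹ * s * b) * g)) * ((b : Γ) * g)⁻¹ := by group
    have h8 : (((b : Γ) * g) * (g⁻¹ * ((b : Γ)⁻¹ * s * b) * g) * ((b : Γ) * g)⁻¹) * (((b : Γ) * g) * t * ((b : Γ) * g)⁻¹)
        = ((b : Γ) * g) * ((g⁻¹ * ((b : Γ)⁻¹ * s * b) * g) * t) * ((b : Γ) * g)⁻¹ := by group
    rw [← h6] at h7 h8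
    rw [h7, h8, h5]
  have h4 := h.MB (h.cj _ h3)
  have h5 := B.mul_mem (B.inv_mem b.2) h4
  rwa [inv_mul_cancel_left] at h5

theorem BH_TI (h : BH Γ T M B X NX p r k e0) {t x : Γ} (ht : t ∈ T) (h1 : t ≠ 1)
    (hx : x * t * x⁻¹ ∈ T) : x ∈ B := by
  apply BH_conj h
  intro s hs
  apply h.cent _ hx
  · intro h2
    apply h1
    have : t = x⁻¹ * (x * t * x⁻¹) * x := by group
    rw [this, h2]
    group
  · have h3 := h.comm s hs t ht
    calc x * s * x⁻¹ * (x * t * x⁻¹) = x * (s * t) * x⁻¹ := by group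
      _ = x * (t * s) * x⁻¹ := by rw [h3]
      _ = x * t * x⁻¹ * (x * s * x⁻¹) := by group

end Pool.Agent.H40.GT
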