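import Pool.Agent.H40.GT.BHa2

/-!
# Part BHa3 (of BHa1, BHa2, BHa3); GT-50 Theorem B (abstract), first part

`Γ` finite, `T ≤ M ≤ B`, `X ≤ B` of prime order `p`, `NX` = normaliser of `X`.

* `BH_card`: `NX = X (NX ∩ M)` (`nX`), `X ∩ M = 1` (`X` has order `p`; `|M| = |T| 2^k`: `M / T` is an
  elementary abelian 2-group by `sq`), so `|NX| = p |NX ∩ M|`, and `|B| = k |NX|`, `k = 1` or `p + 1`,
  `|T| ∣ |NX ∩ M| ≤ 2 |T|`.  So `p` divides `|B|` exactly once, and the `r`-part of `|B|` is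
  `r^2` (`(p, r) = (7, 3), (11, 5)`, `k = 1, 8, 12`).  `T_r = {t ∈ T | t^r = 1}` has order `r^2` (`T` abelian of
  order `4 r^2`, exponent `2 r`) and is a Sylow `r`-subgroup of `B`; `X` is a Sylow `p`-subgroup of `B`.
* `BH_M`: `n ∈ M`, `n ^ r = 1` implies `n ∈ T` (`n^2 ∈ T`, `r` odd).
* `BH_conj`: `g T g⁻¹ ≤ B` implies `g ∈ B`: `g T_r g⁻¹` and `T_r` are Sylow `r`-subgroups of `B`, so there is
  `b ∈ B` with `b g T_r g⁻¹ b⁻¹ = T_r`; for `t ∈ T`, `(b g) t (b g)⁻¹` commutes with `T_r`, so it is in `M`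
  (`centr`); `cj` gives `b g ∈ M`.
* `BH_TI`: `t ∈ T`, `t ≠ 1`, `x t x⁻¹ ∈ T` implies `x ∈ B`: `x T x⁻¹` commutes with `x t x⁻¹`, so it is in
  `B` (`cent`); `BH_conj`.
* `BH_r`: `u ∈ B`, `u ≠ 1`, `u ^ r = 1`, `x u x⁻¹ ∈ B`: then `x ∈ B`: by Sylow `u = b t b⁻¹`,
  `x u x⁻¹ = b' t' b'⁻¹` with `b, b' ∈ B`, `t, t' ∈ T`; `BH_TI` for `b'⁻¹ x b`.
* `BH_p`: the same for `u ^ p = 1`: `u` generates a Sylow `p`-subgroup of `B`, conjugate to `X` in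
  `B`, and so does `x u x⁻¹`: `b'⁻¹ x b` normalises `X`; `nX`.
-/

namespace Pool.Agent.H40.GT

variable {Γ : Type} [Group Γ] {T M B X NX : Subgroup Γ} {p r k : ℕ} {e0 : Γ}

theorem BH_r (h : BH Γ T M B X NX p r k e0) {u x : Γ} (hu : u ∈ B) (h1 : u ≠ 1)
    (hr : u ^ r = 1) (hx : x * u * x⁻¹ ∈ B) : x ∈ B := by
  obtain ⟨b, hb, t, ht, htr, hu'⟩ := BH_sylr h hu hr
  have hxr : (x * u * x⁻¹) ^ r = 1 := by rw [conj_pow, hr]; group
  obtain ⟨b', hb', t', ht', htr', hx'⟩ := BH_sylr h hx hxr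
  have ht1 : t ≠ 1 := by
    rintro rfl
    apply h1
    rw [hu']
    group
  have hy : (b'⁻¹ * x * b) * t * (b'⁻¹ * x * b)⁻¹ = t' := by
    calc (b'⁻¹ * x * b) * t * (b'⁻¹ * x * b)⁻¹ = b'⁻¹ * (x * (b * t * b⁻¹) * x⁻¹) * b' := by group
      _ = b'⁻¹ * (b' * t' * b'⁻¹) * b' := by rw [← hu', hx']
      _ = t' := by group
  have h2 : b'⁻¹ * x * b ∈ B := BH_TI h ht ht1 (by rw [hy]; exact ht')
  have h3 := B.mul_mem (B.mul_mem hb' h2) (B.inv_mem hb)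
  have h4 : b' * (b'⁻¹ * x * b) * b⁻¹ = x := by group
  rwa [h4] at h3

theorem BHa3_prime (h : BH Γ T M B X NX p r k e0) : p.Prime := by
  rcases h.hpr with ⟨rfl, -⟩ | ⟨rfl, -⟩ <;> norm_num

theorem BHa3_fac (h : BH Γ T M B X NX p r k e0) : (Nat.card B).factorization p = 1 := by
  have hp : p.Prime := BHa3_prime h
  obtain ⟨a, ha, hB⟩ := BH_card h
  rw [hB]
  have h1 : k * (p * (a * (4 * r ^ 2))) = p * (k * (a * (4 * r ^ 2))) := by ring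
  rw [h1]
  have h2 : ¬ p ∣ k * (a * (4 * r ^ 2)) := by
    rcases h.hpr with ⟨rfl, rfl⟩ | ⟨rfl, rfl⟩ <;> rcases h.hk with rfl | rfl <;>
      rcases ha with rfl | rfl <;> decide
  have h3 : k * (a * (4 * r ^ 2)) ≠ 0 := by
    intro h0
    rw [h0] at h2
    exact h2 (dvd_zero _)
  rw [Nat.factorization_mul hp.ne_zero h3, Finsupp.add_apply, hp.factorization,
    Finsupp.single_eq_same, Nat.factorization_eq_zero_of_not_dvd h2]

theorem BHa3_syl (h : BH Γ T M B X NX p r k e0) {u : Γ} (hu : u ∈ B) (hr : u ^ p = 1) :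
    ∃ b ∈ B, ∃ t ∈ X, u = b * t * b⁻¹ := by
  have hf := h.fin
  have hp : Fact p.Prime := ⟨BHa3_prime h⟩
  have hcard : Nat.card (X.subgroupOf B) = p ^ (Nat.card B).factorization p := by
    rw [BHa3_fac h, pow_one, ← h.cardX]
    exact Nat.card_congr (Subgroup.subgroupOfEquivOfLe h.XB).toEquiv
  let P : Sylow p B := Sylow.ofCard (X.subgroupOf B) hcard
  have hP : ∀ x : B, x ∈ P ↔ (x : Γ) ∈ X := fun x => Subgroup.mem_subgroupOf
  have hpg : IsPGroup p (Subgroup.zpowers (⟨u, hu⟩ : B)) := by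
    rintro ⟨x, m, rfl⟩
    refine ⟨1, Subtype.ext ?_⟩
    show ((⟨u, hu⟩ : B) ^ m) ^ (p ^ 1) = 1
    rw [pow_one, ← zpow_natCast, ← zpow_mul, mul_comm, zpow_mul, zpow_natCast]
    have : (⟨u, hu⟩ : B) ^ p = 1 := Subtype.ext hr
    rw [this, one_zpow]
  obtain ⟨Q, hQ⟩ := hpg.exists_le_sylow
  obtain ⟨g, hg⟩ := MulAction.exists_smul_eq B P Q
  have h1 : (⟨u, hu⟩ : B) ∈ Q := hQ (Subgroup.mem_zpowers _)
  rw [BHa2_smul P Q hg, hP] at h1
  simp only [Subgroup.coe_mul, Subgroup.coe_inv] at h1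
  refine ⟨g, g.2, _, h1, ?_⟩
  group

theorem BH_p (h : BH Γ T M B X NX p r k e0) {u x : Γ} (hu : u ∈ B) (h1 : u ≠ 1)
    (hp : u ^ p = 1) (hx : x * u * x⁻¹ ∈ B) : x ∈ B := by
  have hf := h.fin
  have hpp : Fact p.Prime := ⟨BHa3_prime h⟩
  obtain ⟨b, hb, t, ht, hu'⟩ := BHa3_syl h hu hp
  have hxr : (x * u * x⁻¹) ^ p = 1 := by rw [conj_pow, hp]; group
  obtain ⟨b', hb', t', ht', hx'⟩ := BHa3_syl h hx hxr
  have ht1 : t ≠ 1 := by
    rintro rfl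
    apply h1
    rw [hu']
    group
  have hy : (b'⁻¹ * x * b) * t * (b'⁻¹ * x * b)⁻¹ = t' := by
    calc (b'⁻¹ * x * b) * t * (b'⁻¹ * x * b)⁻¹ = b'⁻¹ * (x * (b * t * b⁻¹) * x⁻¹) * b' := by group
      _ = b'⁻¹ * (b' * t' * b'⁻¹) * b' := by rw [← hu', hx']
      _ = t' := by group
  have h2 : b'⁻¹ * x * b ∈ NX := by
    rw [h.memNX]
    intro w hw
    have h5 : (⟨w, hw⟩ : X) ∈ Subgroup.zpowers (⟨t, ht⟩ : X) := by
      apply mem_zpowers_of_prime_card h.cardX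
      intro h6
      exact ht1 (congrArg Subtype.val h6)
    obtain ⟨m, hm⟩ := Subgroup.mem_zpowers_iff.1 h5
    have hm' : t ^ m = w := by
      have := congrArg Subtype.val hm
      simpa using this
    rw [← hm', ← conj_zpow, hy]
    exact X.zpow_mem ht' m
  have h3 := B.mul_mem (B.mul_mem hb' (h.NXB h2)) (B.inv_mem hb)
  have h4 : b' * (b'⁻¹ * x * b) * b⁻¹ = x := by group
  rwa [h4] at h3

end Pool.Agent.H40.GT
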