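import Pool.Agent.H40.GT.BHa
import Pool.Agent.H33.EL.GrpZ

/-!
# Part BHb1 (of BHb1, BHb2, BHb3, BHb4); GT-51 Theorem B (abstract), second part

* `BH_F`: `e ∈ T` an involution different from `e0`, `x e x⁻¹ ∈ B` implies `x ∈ B`.  Let `i = x e x⁻¹`;
  apply `H`.  (1) `v' = b v b⁻¹` commutes with `i`: `x⁻¹ v' x` commutes with `e`, so it is in `M` (`ce`), so in
  `T` (`BH_M`); so `(x⁻¹ b) v (x⁻¹ b)⁻¹ ∈ T` and `BH_TI` gives `x⁻¹ b ∈ B`.  (2) `v ^ 2 = e0`, `v` commutes with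
  `i`: `x⁻¹ v x ∈ M` (`ce`), its square `x⁻¹ e0 x` is in `T` (`sq`); `BH_TI` gives `x⁻¹ ∈ B`.
* `BH_T`: `x ∉ B`, `b ∈ B`, `t ∈ T`, `b t b⁻¹ ∈ x B x⁻¹`: then `t = 1` or `t = e0`: if `t^2 ≠ 1` then
  `u = b t^2 b⁻¹ ∈ B`, `u ^ r = 1`, `x⁻¹ u x ∈ B`, and `BH_r` gives `x⁻¹ ∈ B`.  So `t^2 = 1`; if `t ≠ 1, e0` then
  `BH_F` for `x⁻¹ b`.
* `BH_D`: `x ∉ B`: `|B ∩ x B x⁻¹| ≤ 4 k`.  `D = B ∩ x B x⁻¹` has no element of order `p` (`BH_p`).  `D` acts by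
  conjugation on the conjugates `b X b⁻¹`, `b ∈ B`; there are `k` of them (`idx`).  Let `D'` be the
  stabiliser of `Q = b X b⁻¹` in `D`: `D' ≤ b NX b⁻¹ = Q (b (NX ∩ M) b⁻¹)`.  Apply `sz_conj` with `Q`,
  `A = D'`, `B = (Q D') ∩ b (NX ∩ M) b⁻¹`: there is `u ∈ Q` with `u D' u⁻¹ ≤ b (NX ∩ M) b⁻¹`.  The
  elements of `u D' u⁻¹ ∩ b T b⁻¹` are `1` or `b e0 b⁻¹` (`BH_T` for `u⁻¹ b`), and `T` has index at most
  `2` in `NX ∩ M`: `|D'| ≤ 4`.  So `|D| ≤ k * 4`.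
* `thmB`: suppose `y ∉ B`.  Let `e ∈ T` be an involution `≠ e0` (`T` has order `4 r^2`, exponent `2 r`,
  so it has three involutions).  `J` = the conjugates of `e`.  `C(e) ≤ M ≤ B` (`ce`), `J ∩ B` = the
  `B`-conjugates of `e` (`BH_F`); so with `n = [Γ : B]`, `j = |J ∩ B| = |B| / |C(e)|`: `|J| = n j`.
  `|C(e)| = |C_M(e)| ≤ |NX ∩ M|` (`small`), so `j ≥ |B| / |NX ∩ M| = k p`.  For a coset `B y ≠ B`
  containing `i ∈ J`: the other elements of `J` in it are `b i`, `b ∈ B`, `(b i)^2 = 1`, so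
  `i b i = b⁻¹ ∈ B`, `b ∈ B ∩ i B i`, `i ∉ B`: at most `4 k` elements (`BH_D`).  So
  `n j ≤ j + 4 k (n - 1)`, `(n - 1) j ≤ 4 k (n - 1)`, and `j ≥ k p > 4 k` gives `n = 1`.
-/

namespace Pool.Agent.H40.GT

variable {Γ : Type} [Group Γ] {T M B X NX : Subgroup Γ} {p r k : ℕ} {e0 : Γ}

theorem BHb1_comm {x a e : Γ} (hc : (x * e * x⁻¹) * a = a * (x * e * x⁻¹)) :
    (x⁻¹ * a * x) * e = e * (x⁻¹ * a * x) := by
  have h1 : (x⁻¹ * a * x) * e = x⁻¹ * (a * (x * e * x⁻¹)) * x := by group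
  have h2 : e * (x⁻¹ * a * x) = x⁻¹ * ((x * e * x⁻¹) * a) * x := by group
  rw [h1, h2, hc]

theorem BH_F (h : BH Γ T M B X NX p r k e0) {e x : Γ} (he : e ∈ T) (h1 : e ≠ 1) (h0 : e ≠ e0)
    (h2 : e ^ 2 = 1) (hx : x * e * x⁻¹ ∈ B) : x ∈ B := by
  have hi2 : (x * e * x⁻¹) ^ 2 = 1 := by rw [conj_pow, h2]; group
  have hi1 : x * e * x⁻¹ ≠ 1 := by
    intro h3
    apply h1
    have : e = x⁻¹ * (x * e * x⁻¹) * x := by group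
    rw [this, h3]
    group
  rcases h.H _ hx hi2 hi1 with ⟨b, hb, v, hv, hv1, hvr, hc⟩ | ⟨v, hv, hc⟩
  · have h3 := h.ce e he h1 h0 h2 _ (BHb1_comm hc)
    have h4 : x⁻¹ * (b * v * b⁻¹) * x ∈ T := by
      apply BH_M h h3
      have h5 : x⁻¹ * (b * v * b⁻¹) * x = (x⁻¹ * b) * v * (x⁻¹ * b)⁻¹ := by group
      rw [h5, conj_pow, hvr]
      group
    have h5 : x⁻¹ * b ∈ B := by
      apply BH_TI h hv hv1
      have h5 : x⁻¹ * (b * v * b⁻¹) * x = (x⁻¹ * b) * v * (x⁻¹ * b)⁻¹ := by group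
      rwa [← h5]
    have h6 := B.mul_mem h5 (B.inv_mem hb)
    rw [mul_inv_cancel_right] at h6
    exact (B.inv_mem_iff).1 h6
  · have h3 := h.ce e he h1 h0 h2 _ (BHb1_comm hc.symm)
    have h4 := h.sq _ h3
    have h5 : (x⁻¹ * v * x) ^ 2 = x⁻¹ * e0 * x⁻¹⁻¹ := by
      rw [← hv, pow_two, pow_two]
      group
    rw [h5] at h4
    exact (B.inv_mem_iff).1 (BH_TI h h.e0T h.e0n h4)

theorem BH_T (h : BH Γ T M B X NX p r k e0) {x b t : Γ} (hx : x ∉ B) (hb : b ∈ B)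
    (ht : t ∈ T) (hbt : x⁻¹ * (b * t * b⁻¹) * x ∈ B) : t = 1 ∨ t = e0 := by
  by_contra hcon
  push Not at hcon
  obtain ⟨h1, h0⟩ := hcon
  by_cases h2 : t ^ 2 = 1
  · have h3 : x⁻¹ * b ∈ B := by
      apply BH_F h ht h1 h0 h2
      have h5 : x⁻¹ * (b * t * b⁻¹) * x = (x⁻¹ * b) * t * (x⁻¹ * b)⁻¹ := by group
      rwa [← h5]
    have h6 := B.mul_mem h3 (B.inv_mem hb)
    rw [mul_inv_cancel_right] at h6
    exact hx ((B.inv_mem_iff).1 h6)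
  · have hu : b * t ^ 2 * b⁻¹ ∈ B :=
      B.mul_mem (B.mul_mem hb (h.MB (h.TM (T.pow_mem ht 2)))) (B.inv_mem hb)
    have hu1 : b * t ^ 2 * b⁻¹ ≠ 1 := by
      intro h3
      apply h2
      have : t ^ 2 = b⁻¹ * (b * t ^ 2 * b⁻¹) * b := by group
      rw [this, h3]
      group
    have hur : (b * t ^ 2 * b⁻¹) ^ r = 1 := by
      rw [conj_pow, ← pow_mul, h.exp t ht]
      group
    have hxu : x⁻¹ * (b * t ^ 2 * b⁻¹) * x⁻¹⁻¹ ∈ B := by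
      have h3 : x⁻¹ * (b * t ^ 2 * b⁻¹) * x⁻¹⁻¹ = (x⁻¹ * (b * t * b⁻¹) * x) ^ 2 := by
        rw [pow_two, pow_two]
        group
      rw [h3]
      exact B.pow_mem hbt 2
    exact hx ((B.inv_mem_iff).1 (BH_r h hu hu1 hur hxu))

end Pool.Agent.H40.GT
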