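import Pool.Agent.H40.GT.BHb1

/-!
# Part BHb2 (of BHb1, BHb2, BHb3, BHb4); GT-51 Theorem B (abstract), second part

* `BH_F`: `e ∈ T` an involution different from `e0`, `x e x⁻¹ ∈ B` implies `x ∈ B`.  Let `i = x e x⁻¹`;
  apply `H`.  (1) `v' = b v b⁻¹` commutes with `i`: `x⁻¹ v' x` commutes with `e`, so it is in `M` (`ce`), so in
  `T` (`BH_M`); so `(x⁻¹ b) v (x⁻¹ b)⁻¹ ∈ T` and `BH_TI` gives `x⁻¹ b ∈ B`.  (2) `v ^ 2 = e0`, `v` commutes with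
  `i`: `x⁻¹ v x ∈ M` (`ce`), its square `x⁻¹ e0 x` is in `T` (`sq`); `BH_TI` gives `x⁻¹ ∈ B`.
* `BH_T`: `x ∉ B`, `b ∈ B`, `t ∈ T`, `b t b⁻¹ ∈ x B x⁻¹`: then `t = 1` or `t = e0`: if `t^2 ≠ 1` then
  `u = b t^2 b⁻¹ ∈ B`, `u ^ r = 1`, `x⁻¹ u x ∈ B`, and `BH_r` gives `x⁻¹ ∈ B`.  So `t^2 = 1`; if `t ≠ 1, e0` then
  `BH_F` for `x⁻¹ b`.
* `BH_D`: `x ∉ B`: `|B ∩ x B x⁻¹| ≤ 4 k`.  `D = B ∩ x B x⁻¹` has no element of order `p` (`BH_p`).  `D` acts by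
  conjugation on the conjugates `b X b⁻¹`, `b ∈ B`; there are `k` of them (`idx`).  Let `D'` be the
  stabiliser of `Q = b X b⁻¹` in `D`: `D' ≤ b NX b⁻¹ = Q (b (NX ∩ M) b⁻¹)`.  Apply `sz_conj` with `Q`,
  `A = D'`, `B = (Q D') ∩ b (NX ∩ M) b⁻¹`: there is `u ∈ Q` with `u D' u⁻¹ ≤ b (NX ∩ M) b⁻¹`.  The
  elements of `u D' u⁻¹ ∩ b T b⁻¹` are `1` or `b e0 b⁻¹` (`BH_T` for `u⁻¹ b`), and `T` has index at most
  `2` in `NX ∩ M`: `|D'| ≤ 4`.  So `|D| ≤ k * 4`.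
* `thmB`: suppose `y ∉ B`.  Let `e ∈ T` be an involution `≠ e0` (`T` has order `4 r^2`, exponent `2 r`,
  so it has three involutions).  `J` = the conjugates of `e`.  `C(e) ≤ M ≤ B` (`ce`), `J ∩ B` = the
  `B`-conjugates of `e` (`BH_F`); so with `n = [Γ : B]`, `j = |J ∩ B| = |B| / |C(e)|`: `|J| = n j`.
  `|C(e)| = |C_M(e)| ≤ |NX ∩ M|` (`small`), so `j ≥ |B| / |NX ∩ M| = k p`.  For a coset `B y ≠ B`
  containing `i ∈ J`: the other elements of `J` in it are `b i`, `b ∈ B`, `(b i)^2 = 1`, so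
  `i b i = b⁻¹ ∈ B`, `b ∈ B ∩ i B i`, `i ∉ B`: at most `4 k` elements (`BH_D`).  So
  `n j ≤ j + 4 k (n - 1)`, `(n - 1) j ≤ 4 k (n - 1)`, and `j ≥ k p > 4 k` gives `n = 1`.
-/

namespace Pool.Agent.H40.GT

variable {Γ : Type} [Group Γ] {T M B X NX : Subgroup Γ} {p r k : ℕ} {e0 : Γ}

/-- `B ∩ x B x⁻¹` -/
def BHb2_D (B : Subgroup Γ) (x : Γ) : Subgroup Γ := B ⊓ B.comap (MulAut.conj x⁻¹).toMonoidHom

theorem BHb2_mem (B : Subgroup Γ) (x b : Γ) : b ∈ BHb2_D B x ↔ b ∈ B ∧ x⁻¹ * b * x ∈ B := by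
  unfold BHb2_D
  rw [Subgroup.mem_inf, Subgroup.mem_comap]
  show b ∈ B ∧ (MulAut.conj x⁻¹) b ∈ B ↔ _
  rw [MulAut.conj_apply, inv_inv]

theorem BHb2_card_le [Finite Γ] (H D C : Subgroup Γ) (hDC : D ≤ C) (hHC : H ≤ C) {k m : ℕ}
    (h1 : Nat.card C ≤ k * Nat.card H) (h2 : Nat.card (H ⊓ D : Subgroup Γ) ≤ m) :
    Nat.card D ≤ k * m := by
  have hH : 0 < Nat.card H := Nat.card_pos
  have e1 : Nat.card (H ⊓ D : Subgroup Γ) * H.relIndex D = Nat.card D := by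
    have := Subgroup.card_mul_index (H.subgroupOf D)
    rw [← this]
    congr 1
    rw [← Subgroup.inf_subgroupOf_right]
    exact (Nat.card_congr (Subgroup.subgroupOfEquivOfLe inf_le_right).toEquiv).symm
  have e2 : Nat.card H * H.relIndex C = Nat.card C := by
    have := Subgroup.card_mul_index (H.subgroupOf C)
    rw [← this]
    congr 1
    exact (Nat.card_congr (Subgroup.subgroupOfEquivOfLe hHC).toEquiv).symm
  have e3 : H.relIndex D ≤ H.relIndex C := by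
    apply Subgroup.relIndex_le_of_le_right hDC
    intro h0
    rw [h0, mul_zero] at e2
    have : 0 < Nat.card C := Nat.card_pos
    omega
  have e4 : H.relIndex C ≤ k := by
    rw [← e2, mul_comm] at h1
    exact Nat.le_of_mul_le_mul_right h1 hH
  calc Nat.card D = Nat.card (H ⊓ D : Subgroup Γ) * H.relIndex D := e1.symm
    _ ≤ m * k := Nat.mul_le_mul h2 (e3.trans e4)
    _ = k * m := mul_comm _ _

theorem BHb2_card4 (h : BH Γ T M B X NX p r k e0) {x : Γ} (hx : x ∉ B) :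
    Nat.card (NX ⊓ BHb2_D B x : Subgroup Γ) ≤ 4 := by
  have hf := h.fin
  have hp : Fact p.Prime := ⟨by rcases h.hpr with ⟨rfl, -⟩ | ⟨rfl, -⟩ <;> norm_num⟩
  have hxi : x⁻¹ ∉ B := fun h1 => hx (by simpa using B.inv_mem h1)
  -- no elements of order p
  have hno : ¬ p ∣ Nat.card (NX ⊓ BHb2_D B x : Subgroup Γ) := by
    intro hd
    obtain ⟨⟨u, hu⟩, hou⟩ := exists_prime_orderOf_dvd_card' p hd
    rw [Subgroup.orderOf_mk] at hou
    rw [Subgroup.mem_inf, BHb2_mem] at hu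
    apply hxi
    refine BH_p h (u := u) hu.2.1 ?_ ?_ ?_
    · rintro rfl
      rw [orderOf_one] at hou
      exact hp.out.ne_one hou.symm
    · rw [← hou]
      exact pow_orderOf_eq_one u
    · rw [inv_inv]
      exact hu.2.2
  have hT : 0 < Nat.card T := Nat.card_pos
  have hTN : T ≤ NX ⊓ M := le_inf h.TNX h.TM
  have hno2 : ¬ p ∣ Nat.card (NX ⊓ M : Subgroup Γ) := by
    obtain ⟨a, ha⟩ := Subgroup.card_dvd_of_le hTN
    have hN : 0 < Nat.card (NX ⊓ M : Subgroup Γ) := Nat.card_pos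
    have h0 := h.M0
    have ha2 : a ≤ 2 := by
      rw [ha, mul_comm] at h0
      exact Nat.le_of_mul_le_mul_right h0 hT
    have ha1 : a ≠ 0 := by
      rintro rfl
      rw [ha] at hN
      simp at hN
    rw [ha, h.cardT]
    have ha3 : a = 1 ∨ a = 2 := by omega
    rcases h.hpr with ⟨rfl, rfl⟩ | ⟨rfl, rfl⟩ <;> rcases ha3 with rfl | rfl <;> decide
  have hXN := BHa1_XNX h
  have hXp : IsPGroup p X := by
    apply IsPGroup.of_card (n := 1)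
    rw [h.cardX, pow_one]
  haveI : (X.subgroupOf NX).Normal := by
    constructor
    intro u hu g
    rw [Subgroup.mem_subgroupOf] at hu ⊢
    exact (h.memNX g).1 g.2 _ hu
  have hDN : NX ⊓ BHb2_D B x ≤ NX := inf_le_left
  have hMN : NX ⊓ M ≤ NX := inf_le_left
  obtain ⟨u, hu, huA⟩ := Pool.Agent.H33.EL.sz_normal (p := p) (Nat.card (X.subgroupOf NX)) NX
    (X.subgroupOf NX) ((NX ⊓ BHb2_D B x).subgroupOf NX) ((NX ⊓ M).subgroupOf NX) le_rfl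
    (hXp.of_equiv (Subgroup.subgroupOfEquivOfLe hXN).symm)
    (by rw [Nat.card_congr (Subgroup.subgroupOfEquivOfLe hDN).toEquiv]; exact hno)
    (by rw [Nat.card_congr (Subgroup.subgroupOfEquivOfLe hMN).toEquiv]; exact hno2)
    (by
      intro a _
      obtain ⟨v, hv, n, hn, hab⟩ := h.nX a a.2
      have hn' : n ∈ NX := by
        have := NX.mul_mem (NX.inv_mem (hXN hv)) a.2
        rw [hab, inv_mul_cancel_left] at this
        exact this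
      exact ⟨⟨v, hXN hv⟩, hv, ⟨n, hn'⟩, ⟨hn', hn⟩, Subtype.ext hab⟩)
  have huX : (u : Γ) ∈ X := hu
  have huB : (u : Γ) ∈ B := h.XB huX
  have huA' : ∀ a ∈ NX ⊓ BHb2_D B x, (u : Γ) * a * (u : Γ)⁻¹ ∈ NX ⊓ M := by
    intro a ha
    exact huA ⟨a, ha.1⟩ ha
  -- the conjugate
  let A : Subgroup Γ := (NX ⊓ BHb2_D B x).map (MulAut.conj (u : Γ)).toMonoidHom
  have hcA : Nat.card A = Nat.card (NX ⊓ BHb2_D B x : Subgroup Γ) :=
    Subgroup.card_map_of_injective (MulAut.conj (u : Γ)).injective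
  have hAM : A ≤ NX ⊓ M := by
    rintro _ ⟨a, ha, rfl⟩
    exact huA' a ha
  have h2 : Nat.card (T ⊓ A : Subgroup Γ) ≤ 2 := by
    have hs : ((T ⊓ A : Subgroup Γ) : Set Γ) ⊆ {1, e0} := by
      rintro t ⟨ht, a, ha, hta⟩
      have hta' : (u : Γ) * a * (u : Γ)⁻¹ = t := hta
      have ha2 := (BHb2_mem B x a).1 ha.2
      have h3 : a = (u : Γ)⁻¹ * t * ((u : Γ)⁻¹)⁻¹ := by
        rw [← hta']
        group
      rcases BH_T h hx (B.inv_mem huB) ht (by rw [← h3]; exact ha2.2) with h4 | h4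
      · exact Or.inl h4
      · exact Or.inr h4
    calc Nat.card (T ⊓ A : Subgroup Γ) = ((T ⊓ A : Subgroup Γ) : Set Γ).ncard := rfl
      _ ≤ ({1, e0} : Set Γ).ncard := Set.ncard_le_ncard hs
      _ ≤ 2 := (Set.ncard_insert_le _ _).trans (by rw [Set.ncard_singleton])
  rw [← hcA]
  exact BHb2_card_le T A (NX ⊓ M) hAM hTN h.M0 h2

theorem BH_D (h : BH Γ T M B X NX p r k e0) {x : Γ} (hx : x ∉ B) :
    {b : Γ | b ∈ B ∧ x⁻¹ * b * x ∈ B}.ncard ≤ 4 * k := by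
  have hf := h.fin
  have h1 : {b : Γ | b ∈ B ∧ x⁻¹ * b * x ∈ B}.ncard = Nat.card (BHb2_D B x) := by
    have : {b : Γ | b ∈ B ∧ x⁻¹ * b * x ∈ B} = (BHb2_D B x : Set Γ) := by
      ext b
      exact (BHb2_mem B x b).symm
    rw [this]
    rfl
  rw [h1, mul_comm]
  exact BHb2_card_le NX (BHb2_D B x) B (fun b hb => ((BHb2_mem B x b).1 hb).1) h.NXB h.idx.le
    (BHb2_card4 h hx)

end Pool.Agent.H40.GT
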