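import Pool.Agent.H40.GT.BHb2

/-!
# Part BHb3 (of BHb1, BHb2, BHb3, BHb4); GT-51 Theorem B (abstract), second part

* `BH_F`: `e ∈ T` an involution different from `e0`, `x e x⁻¹ ∈ B` implies `x ∈ B`.  Let `i = x e x⁻¹`;
  apply `H`.  (1) `v' = b v b⁻¹` commutes with `i`: `x⁻¹ v' x` commutes with `e`, so it is in `M` (`ce`), so in
  `T` (`BH_M`); so `(x⁻¹ b) v (x⁻¹ b)⁻¹ ∈ T` and `BH_TI` gives `x⁻¹ b ∈ B`.  (2) `v ^ 2 = e0`, `v` commutes with
  `i`: `x⁻¹ v x ∈ M` (`ce`), its square `x⁻¹ e0 x` is in `T` (`sq`); `BH_TI` gives `x⁻¹ ∈ B`.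
* `BH_T`: `x ∉ B`, `b ∈ B`, `t ∈ T`, `b t b⁻¹ ∈ x B x⁻¹`: then `t = 1` or `t = e0`: if `t^2 ≠ 1` then
  `u = b t^2 b⁻¹ ∈ B`, `u ^ r = 1`, `x⁻¹ u x ∈ B`, and `BH_r` gives `x⁻¹ ∈ B`.  So `t^2 = 1`; if `t ≠ 1, e0` then
  `BH_F` for `x⁻¹ b`.
* `BH_D`: `x ∉ B`: `|B ∩ x B x⁻¹| ≤ 4 k`.  `D = B ∩ x B x⁻¹` has no element of order `p` (`BH_p`).  `D` acts by
  conjugation on the conjugates `b X b⁻¹`, `b ∈ B`; there are `k` of them (`idx`).  Let `D'` be the
  stabiliser of `Q = b X b⁻¹` in `D`: `D' ≤ b NX b⁻¹ = Q (b (NX ∩ M) b⁻¹)`.  Apply `sz_conj` with `Q`,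
  `A = D'`, `B = (Q D') ∩ b (NX ∩ M) b⁻¹`: there is `u ∈ Q` with `u D' u⁻¹ ≤ b (NX ∩ M) b⁻¹`.  The
  elements of `u D' u⁻¹ ∩ b T b⁻¹` are `1` or `b e0 b⁻¹` (`BH_T` for `u⁻¹ b`), and `T` has index at most
  `2` in `NX ∩ M`: `|D'| ≤ 4`.  So `|D| ≤ k * 4`.
* `thmB`: suppose `y ∉ B`.  Let `e ∈ T` be an involution `≠ e0` (`T` has order `4 r^2`, exponent `2 r`,
  so it has three involutions).  `J` = the conjugates of `e`.  `C(e) ≤ M ≤ B` (`ce`), `J ∩ B` = the
  `B`-conjugates of `e` (`BH_F`); so with `n = [Γ : B]`, `j = |J ∩ B| = |B| / |C(e)|`: `|J| = n j`.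
  `|C(e)| = |C_M(e)| ≤ |NX ∩ M|` (`small`), so `j ≥ |B| / |NX ∩ M| = k p`.  For a coset `B y ≠ B`
  containing `i ∈ J`: the other elements of `J` in it are `b i`, `b ∈ B`, `(b i)^2 = 1`, so
  `i b i = b⁻¹ ∈ B`, `b ∈ B ∩ i B i`, `i ∉ B`: at most `4 k` elements (`BH_D`).  So
  `n j ≤ j + 4 k (n - 1)`, `(n - 1) j ≤ 4 k (n - 1)`, and `j ≥ k p > 4 k` gives `n = 1`.
-/

namespace Pool.Agent.H40.GT

variable {Γ : Type} [Group Γ] {T M B X NX : Subgroup Γ} {p r k : ℕ} {e0 : Γ}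

/-- counting lemma: `e` an involution, all conjugates of `e` in `B` are conjugate in `B`,
few elements of `B ∩ i B i` -/
theorem cnt (hfin : Finite Γ) (B : Subgroup Γ) (e : Γ) (he : e ∈ B) (h2 : e ^ 2 = 1) (c : ℕ)
    (hF : ∀ x, x * e * x⁻¹ ∈ B → x ∈ B)
    (hD : ∀ x, x ∉ B → {b : Γ | b ∈ B ∧ x⁻¹ * b * x ∈ B}.ncard ≤ c)
    (hc : c * Nat.card (Subgroup.centralizer {e} : Subgroup Γ) < Nat.card B) : ∀ x, x ∈ B := by
  classical
  have ft : Fintype Γ := Fintype.ofFinite Γ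
  by_contra hcon
  push Not at hcon
  obtain ⟨y, hy⟩ := hcon
  -- the involutions outside `B`
  have hi2 : ∀ x : Γ, (x * e * x⁻¹) * (x * e * x⁻¹) = 1 := by
    intro x
    have : e * e = 1 := by rw [← pow_two]; exact h2
    calc (x * e * x⁻¹) * (x * e * x⁻¹) = x * (e * e) * x⁻¹ := by group
      _ = 1 := by rw [this]; group
  have hinv : ∀ x : Γ, (x * e * x⁻¹)⁻¹ = x * e * x⁻¹ := fun x =>
    inv_eq_of_mul_eq_one_left (hi2 x)
  set C := Nat.card (Subgroup.centralizer {e} : Subgroup Γ) with hC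
  let S : Finset Γ := Finset.univ.filter (fun x => x ∉ B)
  let φ : Γ → Γ ⧸ B := fun x => (QuotientGroup.mk (x * e * x⁻¹) : Γ ⧸ B)
  -- conjugation has fibres of size `C`
  have hfib : ∀ (i : Γ) (A : Finset Γ), (A.filter (fun x => x * e * x⁻¹ = i)).card ≤ C := by
    intro i A
    by_cases hA : (A.filter (fun x => x * e * x⁻¹ = i)).Nonempty
    · obtain ⟨x0, hx0⟩ := hA
      rw [Finset.mem_filter] at hx0
      have hCc : C = (Finset.univ.filter
          (fun x : Γ => x ∈ (Subgroup.centralizer {e} : Subgroup Γ))).card := by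
        rw [hC, Nat.card_eq_fintype_card, Fintype.card_subtype]
      rw [hCc, ← Finset.card_image_of_injective (Finset.univ.filter
          (fun x : Γ => x ∈ (Subgroup.centralizer {e} : Subgroup Γ))) (mul_right_injective x0)]
      apply Finset.card_le_card
      intro x hx
      rw [Finset.mem_filter] at hx
      rw [Finset.mem_image]
      refine ⟨x0⁻¹ * x, ?_, by group⟩
      rw [Finset.mem_filter, Subgroup.mem_centralizer_singleton_iff]
      refine ⟨Finset.mem_univ _, ?_⟩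
      have h : x * e * x⁻¹ = x0 * e * x0⁻¹ := by rw [hx.2, hx0.2]
      have h3 : x * e = x0 * e * x0⁻¹ * x := by rw [← h]; group
      calc x0⁻¹ * x * e = x0⁻¹ * (x * e) := by group
        _ = x0⁻¹ * (x0 * e * x0⁻¹ * x) := by rw [h3]
        _ = e * (x0⁻¹ * x) := by group
    · rw [Finset.not_nonempty_iff_eq_empty] at hA
      rw [hA]
      simp
  -- fibres of `φ` on `S`
  have hφ : ∀ a ∈ S.image φ, (S.filter (fun x => φ x = a)).card ≤ c * C := by
    intro a ha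
    rw [Finset.mem_image] at ha
    obtain ⟨x0, hx0, rfl⟩ := ha
    have hx0B : x0 ∉ B := (Finset.mem_filter.mp hx0).2
    set i0 := x0 * e * x0⁻¹ with hi0
    have hi0B : i0 ∉ B := fun h => hx0B (hF x0 h)
    have hi0' : i0⁻¹ = i0 := hinv x0
    have h1 := Finset.card_le_mul_card_image (f := fun x : Γ => i0⁻¹ * (x * e * x⁻¹))
      (S.filter (fun x => φ x = φ x0)) C (by
        intro b hb
        refine (Finset.card_le_card ?_).trans (hfib (i0 * b) (S.filter (fun x => φ x = φ x0)))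
        intro x hx
        rw [Finset.mem_filter] at hx ⊢
        refine ⟨hx.1, ?_⟩
        rw [← hx.2]
        group)
    refine h1.trans ?_
    rw [mul_comm]
    apply Nat.mul_le_mul_right
    refine le_trans ?_ (hD i0 hi0B)
    rw [← Set.ncard_coe_finset]
    apply Set.ncard_le_ncard _ (Set.toFinite _)
    intro b hb
    rw [Finset.mem_coe, Finset.mem_image] at hb
    obtain ⟨x, hx, rfl⟩ := hb
    rw [Finset.mem_filter] at hx
    have h3 : i0⁻¹ * (x * e * x⁻¹) ∈ B := by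
      have := hx.2
      rw [eq_comm] at this
      exact QuotientGroup.eq.mp this
    refine ⟨h3, ?_⟩
    have h4 : i0⁻¹ * (i0⁻¹ * (x * e * x⁻¹)) * i0 = (i0⁻¹ * (x * e * x⁻¹))⁻¹ := by
      have h5 : i0 * i0 = 1 := hi2 x0
      have h6 := hinv x
      generalize x * e * x⁻¹ = j at h6 ⊢
      clear_value i0
      rw [mul_inv_rev, inv_inv, h6, hi0', ← mul_assoc i0 i0, h5, one_mul]
    rw [h4]
    exact inv_mem h3
  have hcard := Finset.card_le_mul_card_image S (c * C) hφ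
  have himg : (S.image φ).card ≤ Nat.card (Γ ⧸ B) - 1 := by
    have : S.image φ ⊆ Finset.univ.erase (QuotientGroup.mk 1 : Γ ⧸ B) := by
      intro a ha
      rw [Finset.mem_image] at ha
      obtain ⟨x, hx, rfl⟩ := ha
      rw [Finset.mem_erase]
      refine ⟨?_, Finset.mem_univ _⟩
      intro h
      have h3 : (1 : Γ)⁻¹ * (x * e * x⁻¹) ∈ B := QuotientGroup.eq.mp h.symm
      rw [inv_one, one_mul] at h3
      exact (Finset.mem_filter.mp hx).2 (hF x h3)
    refine (Finset.card_le_card this).trans ?_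
    rw [Finset.card_erase_of_mem (Finset.mem_univ _), Finset.card_univ, Nat.card_eq_fintype_card]
  have hS : S.card + Nat.card B = Nat.card Γ := by
    have h3 : Nat.card B = (Finset.univ.filter (fun x => x ∈ B)).card := by
      rw [Nat.card_eq_fintype_card, Fintype.card_subtype]
    rw [h3, Nat.card_eq_fintype_card, ← Finset.card_univ, add_comm]
    exact Finset.card_filter_add_card_filter_not _
  have hL := Subgroup.card_eq_card_quotient_mul_card_subgroup B
  have hn2 : 1 < Nat.card (Γ ⧸ B) := by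
    rw [Finite.one_lt_card_iff_nontrivial]
    refine ⟨⟨QuotientGroup.mk y, QuotientGroup.mk 1, ?_⟩⟩
    intro h
    have h3 : (1 : Γ)⁻¹ * y ∈ B := QuotientGroup.eq.mp h.symm
    rw [inv_one, one_mul] at h3
    exact hy h3
  obtain ⟨n, hn⟩ : ∃ n, Nat.card (Γ ⧸ B) = n + 2 := ⟨Nat.card (Γ ⧸ B) - 2, by omega⟩
  rw [hn] at himg hL
  have h6 : S.card ≤ (c * C) * (n + 1) := hcard.trans (Nat.mul_le_mul_left _ (by omega))
  have h7 : (c * C) * (n + 1) < Nat.card B * (n + 1) := Nat.mul_lt_mul_of_pos_right hc (by omega)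
  have h8 : S.card = Nat.card B * (n + 1) := by
    rw [hL] at hS
    have : (n + 2) * Nat.card B = Nat.card B * (n + 1) + Nat.card B := by ring
    rw [this] at hS
    omega
  omega

end Pool.Agent.H40.GT
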