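import Pool.Agent.H40.GT.BHb3

/-!
# Part BHb4 (of BHb1, BHb2, BHb3, BHb4); GT-51 Theorem B (abstract), second part

* `BH_F`: `e ∈ T` an involution different from `e0`, `x e x⁻¹ ∈ B` implies `x ∈ B`.  Let `i = x e x⁻¹`;
  apply `H`.  (1) `v' = b v b⁻¹` commutes with `i`: `x⁻¹ v' x` commutes with `e`, so it is in `M` (`ce`), so in
  `T` (`BH_M`); so `(x⁻¹ b) v (x⁻¹ b)⁻¹ ∈ T` and `BH_TI` gives `x⁻¹ b ∈ B`.  (2) `v ^ 2 = e0`, `v` commutes with
  `i`: `x⁻¹ v x ∈ M` (`ce`), its square `x⁻¹ e0 x` is in `T` (`sq`); `BH_TI` gives `x⁻¹ ∈ B`.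
* `BH_T`: `x ∉ B`, `b ∈ B`, `t ∈ T`, `b t b⁻¹ ∈ x B x⁻¹`: then `t = 1` or `t = e0`: if `t^2 ≠ 1` then
  `u = b t^2 b⁻¹ ∈ B`, `u ^ r = 1`, `x⁻¹ u x ∈ B`, and `BH_r` gives `x⁻¹ ∈ B`.  So `t^2 = 1`; if `t ≠ 1, e0` then
  `BH_F` for `x⁻¹ b`.
* `BH_D`: `x ∉ B`: `|B ∩ x B x⁻¹| ≤ 4 k`.  `D = B ∩ x B x⁻¹` has no element of order `p` (`BH_p`).  `D` acts by
  conjugation on the conjugates `b X b⁻¹`, `b ∈ B`; there are `k` of them (`idx`).  Let `D'` be the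
  stabiliser of `Q = b X b⁻¹` in `D`: `D' ≤ b NX b⁻¹ = Q (b (NX ∩ M) b⁻¹)`.  Apply `sz_conj` with `Q`,
  `A = D'`, `B = (Q D') ∩ b (NX ∩ M) b⁻¹`: there is `u ∈ Q` with `u D' u⁻¹ ≤ b (NX ∩ M) b⁻¹`.  The
  elements of `u D' u⁻¹ ∩ b T b⁻¹` are `1` or `b e0 b⁻¹` (`BH_T` for `u⁻¹ b`), and `T` has index at most
  `2` in `NX ∩ M`: `|D'| ≤ 4`.  So `|D| ≤ k * 4`.
* `thmB`: suppose `y ∉ B`.  Let `e ∈ T` be an involution `≠ e0` (`T` has order `4 r^2`, exponent `2 r`,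
  so it has three involutions).  `J` = the conjugates of `e`.  `C(e) ≤ M ≤ B` (`ce`), `J ∩ B` = the
  `B`-conjugates of `e` (`BH_F`); so with `n = [Γ : B]`, `j = |J ∩ B| = |B| / |C(e)|`: `|J| = n j`.
  `|C(e)| = |C_M(e)| ≤ |NX ∩ M|` (`small`), so `j ≥ |B| / |NX ∩ M| = k p`.  For a coset `B y ≠ B`
  containing `i ∈ J`: the other elements of `J` in it are `b i`, `b ∈ B`, `(b i)^2 = 1`, so
  `i b i = b⁻¹ ∈ B`, `b ∈ B ∩ i B i`, `i ∉ B`: at most `4 k` elements (`BH_D`).  So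
  `n j ≤ j + 4 k (n - 1)`, `(n - 1) j ≤ 4 k (n - 1)`, and `j ≥ k p > 4 k` gives `n = 1`.
-/

namespace Pool.Agent.H40.GT

variable {Γ : Type} [Group Γ] {T M B X NX : Subgroup Γ} {p r k : ℕ} {e0 : Γ}

theorem BHb4_inv (h : BH Γ T M B X NX p r k e0) : ∃ e ∈ T, e ≠ 1 ∧ e ≠ e0 ∧ e ^ 2 = 1 := by
  have := h.fin
  have : Fact (Nat.Prime 2) := ⟨Nat.prime_two⟩
  obtain ⟨P, hP⟩ := Sylow.exists_subgroup_card_pow_prime (G := T) 2 (n := 2)
    (by rw [h.cardT]; exact ⟨r ^ 2, by norm_num⟩)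
  have hex : ∀ x : T, x ∈ P → x ^ 2 = 1 := by
    intro x hx
    have h4 : x ^ 4 = 1 := by
      have h5 : (⟨x, hx⟩ : P) ^ Nat.card P = 1 := pow_card_eq_one'
      rw [hP] at h5
      have h6 := congrArg (Subgroup.subtype P) h5
      simpa using h6
    have h2r : x ^ (2 * r) = 1 := by
      apply Subtype.ext
      rw [Subgroup.coe_pow, Subgroup.coe_one]
      exact h.exp x x.2
    have hd1 := orderOf_dvd_of_pow_eq_one h4
    have hd2 := orderOf_dvd_of_pow_eq_one h2r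
    have hd : orderOf x ∣ 2 := by
      have := Nat.dvd_gcd hd1 hd2
      rcases h.hpr with ⟨-, hr⟩ | ⟨-, hr⟩ <;> rw [hr] at this <;> simpa using this
    exact orderOf_dvd_iff_pow_eq_one.mp hd
  by_contra hcon
  push Not at hcon
  have hsub : (P : Set T) ⊆ {1, ⟨e0, h.e0T⟩} := by
    intro x hx
    by_cases h1 : (x : Γ) = 1
    · left
      exact Subtype.ext h1
    · right
      rw [Set.mem_singleton_iff]
      apply Subtype.ext
      by_contra h0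
      apply hcon x x.2 h1 h0
      have := congrArg Subtype.val (hex x hx)
      simpa using this
  have hc1 : (P : Set T).ncard ≤ 2 :=
    (Set.ncard_le_ncard hsub (Set.toFinite _)).trans
      ((Set.ncard_insert_le _ _).trans (by rw [Set.ncard_singleton]))
  have hc2 : (P : Set T).ncard = 4 := by
    rw [← Nat.card_coe_set_eq]
    exact hP
  omega

theorem thmB (h : BH Γ T M B X NX p r k e0) (x : Γ) : x ∈ B := by
  have := h.fin
  obtain ⟨e, heT, h1, h0, h2⟩ := BHb4_inv h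
  refine cnt h.fin B e (h.MB (h.TM heT)) h2 (4 * k) (fun x hx => BH_F h heT h1 h0 h2 hx)
    (fun x hx => BH_D h hx) ?_ x
  have hCM : (Subgroup.centralizer {e} : Subgroup Γ) = M ⊓ Subgroup.centralizer {e} := by
    apply le_antisymm
    · refine le_inf ?_ le_rfl
      intro y hy
      rw [Subgroup.mem_centralizer_singleton_iff] at hy
      exact h.ce e heT h1 h0 h2 y hy
    · exact inf_le_right
  have hsm := h.small e heT h1 h0 h2
  rw [← hCM] at hsm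
  rw [h.idx, BH_cardNX h]
  have hpos : 0 < Nat.card (NX ⊓ M : Subgroup Γ) := Nat.card_pos
  have hk : 0 < k := by
    rcases h.hk with hk | hk <;> omega
  have hp : 4 < p := by
    rcases h.hpr with ⟨hp, -⟩ | ⟨hp, -⟩ <;> omega
  calc 4 * k * Nat.card (Subgroup.centralizer {e} : Subgroup Γ)
      ≤ 4 * k * Nat.card (NX ⊓ M : Subgroup Γ) := Nat.mul_le_mul_left _ hsm
    _ = k * (4 * Nat.card (NX ⊓ M : Subgroup Γ)) := by ring
    _ < k * (p * Nat.card (NX ⊓ M : Subgroup Γ)) :=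
        Nat.mul_lt_mul_of_pos_left (Nat.mul_lt_mul_of_pos_right hp hpos) hk

end Pool.Agent.H40.GT
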