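import Pool.Agent.H40.GT.Defs

/-!
# Part BasA (of BasA, BasB, BasC); GT-01 basic facts on root elements, torus, monomial elements

All elementary.
* `X_mem_GG`: polynomial identities over the integers.  `fin_cases r` gives 12 cases; in each case
  `Nl r` is a derivation of `br` and skew for `bf`; either expand everything
  (`ext i; fin_cases i; simp [br, X_apply, cc, sc, qc, qs]; ring`, one root at a time, perhaps
  `set_option maxHeartbeats` via separate lemmas), or prove on the tables.
* `Nl_ev`: `Nl r (ev j)` is supported at the coordinates of weight `wt j + rt r`: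
  a finite check (`decide` on the tables) plus `Pi.single`.
* `tor_X`: compare coordinates; `cc r i ≠ 0` implies `wt i = wt (sc r i) + rt r`, `qc r i ≠ 0` implies
  `wt i = wt (qs r i) + rt r + rt r` (both by `decide`), then `ch_add`.
* `GS_SF_le`: closure of a subset of `F`.
* `X_comm_tor`: `X r s` (s ≠ 0) commutes with `tor t` iff `ch (rt r) t = 1`.
-/

namespace Pool.Agent.H40.GT

variable {K : Type} [Field K]

theorem ev_same (j : Fin 7) : (ev j : V K) j = 1 := by
  show (Pi.single j 1 : V K) j = 1
  rw [Pi.single_eq_same]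

theorem ev_ne {i j : Fin 7} (h : i ≠ j) : (ev j : V K) i = 0 := by
  show (Pi.single j 1 : V K) i = 0
  rw [Pi.single_eq_of_ne h]

/-- every vector is the sum of its coordinates -/
theorem V_sum (x : V K) : x = ∑ j, x j • ev j := by
  ext i
  rw [Finset.sum_apply, Finset.sum_eq_single i]
  · rw [Pi.smul_apply, ev_same, smul_eq_mul, mul_one]
  · intro j _ hj
    rw [Pi.smul_apply, ev_ne hj.symm, smul_zero]
  · intro hi
    exact absurd (Finset.mem_univ i) hi

/-- linear automorphisms agreeing on the coordinate vectors are equal -/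
theorem EE_ext {g h : EE K} (H : ∀ j, g (ev j) = h (ev j)) : g = h := by
  apply LinearEquiv.ext
  intro x
  rw [V_sum x, map_sum, map_sum]
  apply Finset.sum_congr rfl
  intro j _
  rw [map_smul, map_smul, H j]

theorem tor_ev (t : Kˣ × Kˣ) (j : Fin 7) : tor t (ev j) = (ch (wt j) t : K) • ev j := by
  ext i
  rw [tor_apply, Pi.smul_apply, smul_eq_mul]
  by_cases h : i = j
  · rw [h]
  · rw [ev_ne h, mul_zero, mul_zero]

theorem rt_ng (r : Rt) : rt (ng r) = -rt r := by
  revert r
  decide

theorem rt_inj {r s : Rt} (h : rt r = rt s) : r = s := by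
  revert r s
  decide

theorem wt_inj {i j : Fin 7} (h : wt i = wt j) : i = j := by
  revert i j
  decide

theorem BasA_tab1 : ∀ r : Rt, ∀ i : Fin 7, cc r i = 0 ∨ wt i = wt (sc r i) + rt r := by
  decide

theorem BasA_tab2 : ∀ r : Rt, ∀ i : Fin 7, qc r i = 0 ∨ wt i = wt (qs r i) + rt r + rt r := by
  decide

/-- support of the root vectors -/
theorem Nl_ev (r : Rt) (j i : Fin 7) (h : wt i ≠ wt j + rt r) : Nl r (ev j : V K) i = 0 := by
  rw [Nl_apply]
  by_cases h1 : sc r i = j
  · rcases BasA_tab1 r i with h2 | h2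
    · rw [h2, Int.cast_zero, zero_mul]
    · rw [h1] at h2
      exact absurd h2 h
  · rw [ev_ne h1, mul_zero]

theorem Ql_ev (r : Rt) (j i : Fin 7) (h : wt i ≠ wt j + rt r + rt r) :
    Ql r (ev j : V K) i = 0 := by
  rw [Ql_apply]
  by_cases h1 : qs r i = j
  · rcases BasA_tab2 r i with h2 | h2
    · rw [h2, Int.cast_zero, zero_mul]
    · rw [h1] at h2
      exact absurd h2 h
  · rw [ev_ne h1, mul_zero]

end Pool.Agent.H40.GT
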