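import Pool.Agent.H40.GT.BasA

/-!
# Part BasB (of BasA, BasB, BasC); GT-01 basic facts on root elements, torus, monomial elements

All elementary.
* `X_mem_GG`: polynomial identities over the integers.  `fin_cases r` gives 12 cases; in each case
  `Nl r` is a derivation of `br` and skew for `bf`; either expand everything
  (`ext i; fin_cases i; simp [br, X_apply, cc, sc, qc, qs]; ring`, one root at a time, perhaps
  `set_option maxHeartbeats` via separate lemmas), or prove on the tables.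
* `Nl_ev`: `Nl r (ev j)` is supported at the coordinates of weight `wt j + rt r`:
  a finite check (`decide` on the tables) plus `Pi.single`.
* `tor_X`: compare coordinates; `cc r i ≠ 0` implies `wt i = wt (sc r i) + rt r`, `qc r i ≠ 0` implies
  `wt i = wt (qs r i) + rt r + rt r` (both by `decide`), then `ch_add`.
* `GS_SF_le`: closure of a subset of `F`.
* `X_comm_tor`: `X r s` (s ≠ 0) commutes with `tor t` iff `ch (rt r) t = 1`.
-/

namespace Pool.Agent.H40.GT

variable {K : Type} [Field K]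

theorem BasB_bf (r : Rt) (s : K) (x y : V K) : bf (X r s x) (X r s y) = bf x y := by
  fin_cases r <;> simp [bf, X_apply, cc, sc, qc, qs] <;> ring

theorem BasB_br0 (s : K) (x y : V K) : X 0 s (br x y) = br (X 0 s x) (X 0 s y) := by
  funext i
  fin_cases i <;> simp [-mul_eq_mul_left_iff, X_apply, br, cc, sc, qc, qs] <;> ring

theorem BasB_br1 (s : K) (x y : V K) : X 1 s (br x y) = br (X 1 s x) (X 1 s y) := by
  funext i
  fin_cases i <;> simp [-mul_eq_mul_left_iff, X_apply, br, cc, sc, qc, qs] <;> ring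

theorem BasB_br2 (s : K) (x y : V K) : X 2 s (br x y) = br (X 2 s x) (X 2 s y) := by
  funext i
  fin_cases i <;> simp [-mul_eq_mul_left_iff, X_apply, br, cc, sc, qc, qs] <;> ring

theorem BasB_br3 (s : K) (x y : V K) : X 3 s (br x y) = br (X 3 s x) (X 3 s y) := by
  funext i
  fin_cases i <;> simp [-mul_eq_mul_left_iff, X_apply, br, cc, sc, qc, qs] <;> ring

theorem BasB_br4 (s : K) (x y : V K) : X 4 s (br x y) = br (X 4 s x) (X 4 s y) := by
  funext i
  fin_cases i <;> simp [-mul_eq_mul_left_iff, X_apply, br, cc, sc, qc, qs] <;> ring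

theorem BasB_br5 (s : K) (x y : V K) : X 5 s (br x y) = br (X 5 s x) (X 5 s y) := by
  funext i
  fin_cases i <;> simp [-mul_eq_mul_left_iff, X_apply, br, cc, sc, qc, qs] <;> ring

theorem BasB_br6 (s : K) (x y : V K) : X 6 s (br x y) = br (X 6 s x) (X 6 s y) := by
  funext i
  fin_cases i <;> simp [-mul_eq_mul_left_iff, X_apply, br, cc, sc, qc, qs] <;> ring

theorem BasB_br7 (s : K) (x y : V K) : X 7 s (br x y) = br (X 7 s x) (X 7 s y) := by
  funext i
  fin_cases i <;> simp [-mul_eq_mul_left_iff, X_apply, br, cc, sc, qc, qs] <;> ring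

theorem BasB_br8 (s : K) (x y : V K) : X 8 s (br x y) = br (X 8 s x) (X 8 s y) := by
  funext i
  fin_cases i <;> simp [-mul_eq_mul_left_iff, X_apply, br, cc, sc, qc, qs] <;> ring

theorem BasB_br9 (s : K) (x y : V K) : X 9 s (br x y) = br (X 9 s x) (X 9 s y) := by
  funext i
  fin_cases i <;> simp [-mul_eq_mul_left_iff, X_apply, br, cc, sc, qc, qs] <;> ring

theorem BasB_br10 (s : K) (x y : V K) : X 10 s (br x y) = br (X 10 s x) (X 10 s y) := by
  funext i
  fin_cases i <;> simp [-mul_eq_mul_left_iff, X_apply, br, cc, sc, qc, qs] <;> ring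

theorem BasB_br11 (s : K) (x y : V K) : X 11 s (br x y) = br (X 11 s x) (X 11 s y) := by
  funext i
  fin_cases i <;> simp [-mul_eq_mul_left_iff, X_apply, br, cc, sc, qc, qs] <;> ring

theorem X_mem_GG (r : Rt) (s : K) : X r s ∈ GG K := by
  refine ⟨fun x y => ?_, fun x y => BasB_bf r s x y⟩
  fin_cases r
  · exact BasB_br0 s x y
  · exact BasB_br1 s x y
  · exact BasB_br2 s x y
  · exact BasB_br3 s x y
  · exact BasB_br4 s x y
  · exact BasB_br5 s x y
  · exact BasB_br6 s x y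
  · exact BasB_br7 s x y
  · exact BasB_br8 s x y
  · exact BasB_br9 s x y
  · exact BasB_br10 s x y
  · exact BasB_br11 s x y

theorem tor_mem_GG (t : Kˣ × Kˣ) : tor t ∈ GG K := by
  obtain ⟨a, b⟩ := t
  have ha : (a : K) ≠ 0 := a.ne_zero
  have hb : (b : K) ≠ 0 := b.ne_zero
  refine ⟨fun x y => ?_, fun x y => ?_⟩
  · funext i
    fin_cases i <;> simp [-mul_eq_mul_left_iff, tor_apply, br, ch, wt] <;> field_simp
  · simp [-mul_eq_mul_left_iff, tor_apply, bf, ch, wt]
    field_simp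

theorem tor_mem_TT (t : Kˣ × Kˣ) : tor t ∈ TT K := ⟨t, rfl⟩

theorem TT_le_GG : TT K ≤ GG K := by
  rintro _ ⟨t, rfl⟩
  exact tor_mem_GG t

theorem TT_le_NN : TT K ≤ NN K := by
  rintro _ ⟨t, rfl⟩
  refine ⟨tor_mem_GG t, fun j => ⟨j, _, tor_ev t j⟩, fun j => ⟨j, (ch (wt j) t⁻¹ : K), ?_⟩⟩
  rw [← map_inv]
  exact tor_ev t⁻¹ j

theorem NN_le_GG : NN K ≤ GG K := fun _ h => h.1

theorem TT_comm (a b : EE K) (ha : a ∈ TT K) (hb : b ∈ TT K) : a * b = b * a := by
  obtain ⟨s, rfl⟩ := ha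
  obtain ⟨t, rfl⟩ := hb
  rw [← map_mul, ← map_mul, mul_comm]

theorem BasB_tab : ∀ r : Rt, ∀ i : Fin 7, (cc r i = 0 ∨ wt i = wt (sc r i) + rt r) ∧
    (qc r i = 0 ∨ wt i = wt (qs r i) + rt r + rt r) := by
  decide

theorem tor_X (t : Kˣ × Kˣ) (r : Rt) (s : K) :
    tor t * X r s * (tor t)⁻¹ = X r ((ch (rt r) t : K) * s) := by
  rw [mul_inv_eq_iff_eq_mul]
  apply LinearEquiv.ext
  intro x
  funext i
  rw [LinearEquiv.mul_apply, LinearEquiv.mul_apply, tor_apply, X_apply, X_apply, tor_apply,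
    tor_apply, tor_apply]
  obtain ⟨h1, h2⟩ := BasB_tab r i
  have e1 : (ch (wt i) t : K) * (s * ((cc r i : K) * x (sc r i))) =
      (ch (rt r) t : K) * s * ((cc r i : K) * ((ch (wt (sc r i)) t : K) * x (sc r i))) := by
    rcases h1 with h1 | h1
    · rw [h1]
      simp
    · rw [h1, ch_add, Units.val_mul]
      ring
  have e2 : (ch (wt i) t : K) * (s ^ 2 * ((qc r i : K) * x (qs r i))) =
      ((ch (rt r) t : K) * s) ^ 2 * ((qc r i : K) * ((ch (wt (qs r i)) t : K) * x (qs r i))) := by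
    rcases h2 with h2 | h2
    · rw [h2]
      simp
    · rw [h2, ch_add, ch_add, Units.val_mul, Units.val_mul]
      ring
  rw [mul_add, mul_add, e1, e2]

theorem BasB_tab2 : ∀ r : Rt, ∃ i : Fin 7, (cc r i = 1 ∨ cc r i = -1) ∧ qc r i = 0 := by
  decide

theorem X_inj (r : Rt) (s t : K) (h : X r s = X r t) : s = t := by
  obtain ⟨i, h1, h2⟩ := BasB_tab2 r
  have h3 : X r s (ev (sc r i)) i = X r t (ev (sc r i)) i := by rw [h]
  rw [X_apply, X_apply, ev_same, h2] at h3
  rcases h1 with h1 | h1 <;> rw [h1] at h3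
  · simpa using h3
  · simpa using h3

theorem BasB_tab3 : ∀ r r' : Rt, r ≠ r' → ∃ i : Fin 7, (cc r i = 1 ∨ cc r i = -1) ∧ qc r i = 0 ∧
    i ≠ sc r i ∧ (cc r' i = 0 ∨ sc r' i ≠ sc r i) ∧ (qc r' i = 0 ∨ qs r' i ≠ sc r i) := by
  decide

/-- root elements of different root groups are different -/
theorem X_eq_X {r r' : Rt} {s s' : K} (hs : s ≠ 0) (h : X r s = X r' s') : r = r' ∧ s = s' := by
  have h0 : r = r' := by
    by_contra hr
    obtain ⟨i, h1, h2, h3, h4, h5⟩ := BasB_tab3 r r' hr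
    have h6 : X r s (ev (sc r i)) i = X r' s' (ev (sc r i)) i := by rw [h]
    have e4 : (cc r' i : K) * (ev (sc r i) : V K) (sc r' i) = 0 := by
      rcases h4 with h4 | h4
      · rw [h4]
        simp
      · rw [ev_ne h4, mul_zero]
    have e5 : (qc r' i : K) * (ev (sc r i) : V K) (qs r' i) = 0 := by
      rcases h5 with h5 | h5
      · rw [h5]
        simp
      · rw [ev_ne h5, mul_zero]
    rw [X_apply, X_apply, ev_same, h2, e4, e5, ev_ne h3] at h6
    rcases h1 with h1 | h1 <;> rw [h1] at h6 <;> apply hs <;> simpa using h6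
  subst h0
  exact ⟨rfl, X_inj r s s' h⟩

theorem X_comm_tor (t : Kˣ × Kˣ) (r : Rt) (s : K) (hs : s ≠ 0) :
    X r s * tor t = tor t * X r s ↔ ch (rt r) t = 1 := by
  constructor
  · intro h
    have h1 := tor_X t r s
    rw [← h, mul_inv_cancel_right] at h1
    have h2 := X_inj r _ _ h1
    have h3 : (ch (rt r) t : K) = 1 := by
      have h4 : ((ch (rt r) t : K) - 1) * s = 0 := by rw [sub_mul, one_mul, ← h2, sub_self]
      exact sub_eq_zero.1 ((mul_eq_zero.1 h4).resolve_right hs)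
    exact Units.ext h3
  · intro h
    have h1 := tor_X t r s
    rw [h, Units.val_one, one_mul] at h1
    exact (mul_inv_eq_iff_eq_mul.1 h1).symm

theorem GS_le_GG (S : Set Rt) : GS K S ≤ GG K := by
  unfold GS
  rw [Subgroup.closure_le]
  rintro g (hg | ⟨r, -, s, rfl⟩)
  · exact TT_le_GG hg
  · exact X_mem_GG r s

theorem TT_le_GS (S : Set Rt) : TT K ≤ GS K S := fun _ hg => Subgroup.subset_closure (Or.inl hg)

theorem X_mem_GS {S : Set Rt} {r : Rt} (hr : r ∈ S) (s : K) : X r s ∈ GS K S :=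
  Subgroup.subset_closure (Or.inr ⟨r, hr, s, rfl⟩)

theorem GS_mono {S S' : Set Rt} (h : S ⊆ S') : GS K S ≤ GS K S' := by
  apply Subgroup.closure_mono
  rintro g (hg | ⟨r, hr, s, rfl⟩)
  · exact Or.inl hg
  · exact Or.inr ⟨r, h hr, s, rfl⟩

theorem GS_SF_le {F : Subgroup (EE K)} (hF : Ov F) : GS K (SF F) ≤ F := by
  unfold GS
  rw [Subgroup.closure_le]
  rintro g (hg | ⟨r, hr, s, rfl⟩)
  · exact hF.1 hg
  · exact hr s

theorem GS_empty : GS K (∅ : Set Rt) = TT K := by
  apply le_antisymm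
  · unfold GS
    rw [Subgroup.closure_le]
    rintro g (hg | ⟨r, hr, s, rfl⟩)
    · exact hg
    · exact absurd hr (Set.notMem_empty r)
  · exact TT_le_GS _

end Pool.Agent.H40.GT
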