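import Pool.Agent.H40.GT.BasB

/-!
# Part BasC (of BasA, BasB, BasC); GT-01 basic facts on root elements, torus, monomial elements

All elementary.
* `X_mem_GG`: polynomial identities over the integers.  `fin_cases r` gives 12 cases; in each case
  `Nl r` is a derivation of `br` and skew for `bf`; either expand everything
  (`ext i; fin_cases i; simp [br, X_apply, cc, sc, qc, qs]; ring`, one root at a time, perhaps
  `set_option maxHeartbeats` via separate lemmas), or prove on the tables.
* `Nl_ev`: `Nl r (ev j)` is supported at the coordinates of weight `wt j + rt r`: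
  a finite check (`decide` on the tables) plus `Pi.single`.
* `tor_X`: compare coordinates; `cc r i ≠ 0` implies `wt i = wt (sc r i) + rt r`, `qc r i ≠ 0` implies
  `wt i = wt (qs r i) + rt r + rt r` (both by `decide`), then `ch_add`.
* `GS_SF_le`: closure of a subset of `F`.
* `X_comm_tor`: `X r s` (s ≠ 0) commutes with `tor t` iff `ch (rt r) t = 1`.
-/

namespace Pool.Agent.H40.GT

variable {K : Type} [Field K]

theorem BasC_br14 : br (ev 1 : V K) (ev 4) = ev 0 := by
  ext i
  fin_cases i <;> simp [br, ev]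

theorem BasC_br12 : br (ev 1 : V K) (ev 2) = (2 : K) • ev 6 := by
  ext i
  fin_cases i <;> simp [br, ev]

theorem BasC_bf14 : bf (ev 1 : V K) (ev 4) = 1 := by
  simp [bf, ev]

theorem BasC_bf25 : bf (ev 2 : V K) (ev 5) = 1 := by
  simp [bf, ev]

theorem BasC_bf36 : bf (ev 3 : V K) (ev 6) = 1 := by
  simp [bf, ev]

theorem BasC_bf_smul (a b : K) (x y : V K) : bf (a • x) (b • y) = a * b * bf x y := by
  simp [bf]
  ring

theorem BasC_br_smul (a b : K) (x y : V K) : br (a • x) (b • y) = (a * b) • br x y := by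
  ext i
  fin_cases i <;> simp [br] <;> ring

/-- elements of `GG` fixing all coordinate lines are in the torus (no hypothesis on `K`
except `2 ≠ 0`): `g e_j = c_j e_j`; from `bf`: `c_{-j} = c_j⁻¹`, `c_0^2 = 1`; from
`br e_1 e_-1 = e_0`: `c_0 = 1`; from `br e_1 e_2 = 2 e_-3`: `c_1 c_2 = c_3⁻¹`. -/
theorem diag_mem_TT (h2 : (2 : K) ≠ 0) {g : EE K} (hg : g ∈ GG K)
    (h : ∀ j, ∃ c : K, g (ev j) = c • ev j) : g ∈ TT K := by
  choose c hc using h
  obtain ⟨h1, h3⟩ := hg
  have hv : ∀ j, (ev j : V K) j = 1 := by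
    intro j
    simp [ev]
  have e14 : c 1 * c 4 = 1 := by
    have := h3 (ev 1) (ev 4)
    rw [hc, hc, BasC_bf_smul, BasC_bf14] at this
    simpa using this
  have e25 : c 2 * c 5 = 1 := by
    have := h3 (ev 2) (ev 5)
    rw [hc, hc, BasC_bf_smul, BasC_bf25] at this
    simpa using this
  have e36 : c 3 * c 6 = 1 := by
    have := h3 (ev 3) (ev 6)
    rw [hc, hc, BasC_bf_smul, BasC_bf36] at this
    simpa using this
  have e0 : c 0 = 1 := by
    have := h1 (ev 1) (ev 4)
    rw [BasC_br14, hc, hc, hc, BasC_br_smul, BasC_br14, e14] at this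
    have h5 := congrFun this 0
    simpa [ev] using h5
  have e6 : c 6 = c 1 * c 2 := by
    have := h1 (ev 1) (ev 2)
    rw [BasC_br12, map_smul, hc, hc, hc, BasC_br_smul, BasC_br12] at this
    have h5 := congrFun this 6
    simp [ev] at h5
    have h6 : 2 * (c 6 - c 1 * c 2) = 0 := by
      linear_combination h5
    rcases mul_eq_zero.mp h6 with h7 | h7
    · exact absurd h7 h2
    · exact sub_eq_zero.mp h7
  have n1 : c 1 ≠ 0 := left_ne_zero_of_mul_eq_one e14
  have n2 : c 2 ≠ 0 := left_ne_zero_of_mul_eq_one e25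
  refine ⟨(Units.mk0 (c 1) n1, Units.mk0 (c 2) n2), ?_⟩
  apply LinearEquiv.toLinearMap_injective
  apply (Pi.basisFun K (Fin 7)).ext
  intro j
  have hb : (Pi.basisFun K (Fin 7)) j = ev j := by
    simp [ev]
  rw [hb]
  show tor _ (ev j) = g (ev j)
  rw [hc]
  have key : ((ch (wt j) (Units.mk0 (c 1) n1, Units.mk0 (c 2) n2) : Kˣ) : K) = c j := by
    have i4 : (c 1)⁻¹ = c 4 := by
      rw [inv_eq_iff_eq_inv, eq_comm, inv_eq_of_mul_eq_one_left]
      exact e14
    have i5 : (c 2)⁻¹ = c 5 := by
      rw [inv_eq_iff_eq_inv, eq_comm, inv_eq_of_mul_eq_one_left]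
      exact e25
    have i3 : c 4 * c 5 = c 3 := by
      rw [← i4, ← i5, ← mul_inv, ← e6, inv_eq_iff_eq_inv, eq_comm, inv_eq_of_mul_eq_one_left]
      rw [mul_comm]
      rw [mul_comm] at e36
      rw [mul_comm]
      exact e36
    fin_cases j <;> simp [ch, wt, e0, i4, i5, i3, e6]
  ext i
  rw [tor_apply]
  by_cases hij : i = j
  · subst hij
    rw [key]
    rfl
  · simp [ev, hij]

end Pool.Agent.H40.GT
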