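import Pool.Agent.H40.GT.Nrm

/-!
# GT-07 centralisers of torus elements

Let `t = tor (a, b) ≠ 1`, `c = (a b)⁻¹`, so `a b c = 1`, the eigenvalues of `t` on
`e_0, e_1, e_2, e_3, e_-1, e_-2, e_-3` are `1, a, b, c, a⁻¹, b⁻¹, c⁻¹`.
Let `f` commute with `t` (`f ∈ GG`).
* If an eigenvalue of a coordinate vector `e_j` (`j ≠ 0`) occurs only once, `f` fixes the line
  of `e_j`.
* If one of `a, b, c` is `1`, say `a = 1`, `b ≠ 1`: the eigenspace of `t` for the value `1` is
  `⟨e_0, e_1, e_-1⟩` (`b⁻¹ = c ≠ 1`), `f` preserves it and its orthogonal space for `bf`, which is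
  `⟨e_2, e_3, e_-2, e_-3⟩`.  So `f` commutes with `tor (1, -1)`.  The same for `b = 1`
  (`tor (-1, 1)`) and `c = 1` (`tor (-1, -1)`).
* Otherwise `a, b, c ≠ 1`.  If `a = -1`: `b ≠ 1, -1` (`b = -1` gives `c = 1`), `c = -b⁻¹`; the
  value `b` occurs only at `e_2`: `b = c` means `b^2 = -1`, impossible in a field with `7` or `11`
  elements; `b = b⁻¹` no; `b = c⁻¹ = -b` no; `b = ±1` no.  The same for `b = -1`, `c = -1`.
  If none of `a, b, c` is `±1`: if `a = b ≠ c` then `c` occurs only at `e_3`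
  (`c = a⁻¹` would give `b = 1`); similarly for the other two; if `a, b, c` are pairwise
  different then `a` occurs only at `e_1` (`a = b⁻¹` gives `c = 1`).  If `a = b = c` then
  `a ^ 3 = 1`.
-/

namespace Pool.Agent.H40.GT

variable {K : Type} [Field K]

theorem Cen_card_zero {n : ℕ} [NeZero n] (h : Nat.card K = n) : (n : K) = 0 := by
  have hf : Finite K := Nat.finite_of_card_ne_zero (by rw [h]; exact NeZero.ne n)
  have := Fintype.ofFinite K
  rw [← h, Nat.card_eq_fintype_card]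
  exact Nat.cast_card_eq_zero K

theorem Cen_two (hK : Ok K) : (2 : K) ≠ 0 := by
  intro h2
  rcases hK with h | h
  · have h1 : ((7 : ℕ) : K) = 0 := Cen_card_zero h
    push_cast at h1
    exact one_ne_zero (α := K) (by linear_combination h1 - 3 * h2)
  · have h1 : ((11 : ℕ) : K) = 0 := Cen_card_zero h
    push_cast at h1
    exact one_ne_zero (α := K) (by linear_combination h1 - 5 * h2)

theorem Cen_pow (hK : Ok K) (u : Kˣ) : u ^ 6 = 1 ∨ u ^ 10 = 1 := by
  rcases hK with h | h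
  · left
    have hf : Finite K := Nat.finite_of_card_ne_zero (by rw [h]; norm_num)
    have h1 : Nat.card Kˣ = 6 := by rw [Nat.card_units, h]
    rw [← h1]
    exact pow_card_eq_one'
  · right
    have hf : Finite K := Nat.finite_of_card_ne_zero (by rw [h]; norm_num)
    have h1 : Nat.card Kˣ = 10 := by rw [Nat.card_units, h]
    rw [← h1]
    exact pow_card_eq_one'

theorem Cen_nsq (hK : Ok K) (u : K) (hu : u ≠ 0) (h : u * u = -1) : False := by
  have h2 := Cen_two hK
  apply h2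
  have h3 : (Units.mk0 u hu) ^ 6 = 1 ∨ (Units.mk0 u hu) ^ 10 = 1 := Cen_pow hK _
  rcases h3 with h3 | h3
  · have h4 := congrArg (Units.val) h3
    rw [Units.val_pow_eq_pow_val, Units.val_mk0, Units.val_one] at h4
    have h5 : u ^ 6 = (u * u) ^ 3 := by ring
    rw [h5, h] at h4
    linear_combination -h4
  · have h4 := congrArg (Units.val) h3
    rw [Units.val_pow_eq_pow_val, Units.val_mk0, Units.val_one] at h4
    have h5 : u ^ 10 = (u * u) ^ 5 := by ring
    rw [h5, h] at h4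
    linear_combination -h4

theorem Cen_eig {t : Kˣ × Kˣ} {f : EE K} (h : f * tor t = tor t * f) {i j : Fin 7}
    (hij : ch (wt i) t ≠ ch (wt j) t) : f (ev j) i = 0 := by
  have h1 : f (tor t (ev j)) = tor t (f (ev j)) := LinearEquiv.congr_fun h (ev j)
  have h2 := congrFun h1 i
  rw [tor_ev, map_smul, tor_apply, Pi.smul_apply, smul_eq_mul] at h2
  have h3 : ((ch (wt j) t : K) - ch (wt i) t) * f (ev j) i = 0 := by rw [sub_mul, h2, sub_self]
  refine (mul_eq_zero.1 h3).resolve_left fun h4 => hij ?_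
  exact (Units.ext (sub_eq_zero.1 h4)).symm

theorem Cen_one {t : Kˣ × Kˣ} {j : Fin 7} (hj : ∀ i, i ≠ j → ch (wt i) t ≠ ch (wt j) t)
    {f : EE K} (h : f * tor t = tor t * f) : ∃ c : K, f (ev j) = c • ev j := by
  refine ⟨f (ev j) j, ?_⟩
  funext i
  rw [Pi.smul_apply, smul_eq_mul]
  by_cases hi : i = j
  · rw [hi, ev_same, mul_one]
  · rw [Cen_eig h (hj i hi), ev_ne hi, mul_zero]

theorem Cen_comm {t e : Kˣ × Kˣ}
    (he : ∀ i j, ch (wt i) t = ch (wt j) t → ch (wt i) e = ch (wt j) e) {f : EE K}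
    (h : f * tor t = tor t * f) : f * tor e = tor e * f := by
  apply EE_ext
  intro j
  rw [LinearEquiv.mul_apply, LinearEquiv.mul_apply, tor_ev, map_smul]
  funext i
  rw [Pi.smul_apply, smul_eq_mul, tor_apply]
  by_cases hij : ch (wt i) t = ch (wt j) t
  · rw [he i j hij]
  · rw [Cen_eig h hij, mul_zero, mul_zero]

theorem Cen_e1 {b : Kˣ} (hb : b ≠ 1) (i j : Fin 7)
    (h : ch (wt i) ((1 : Kˣ), b) = ch (wt j) ((1 : Kˣ), b)) :
    ch (wt i) ((1 : Kˣ), (-1 : Kˣ)) = ch (wt j) ((1 : Kˣ), (-1 : Kˣ)) := by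
  have hb' : (1 : Kˣ) ≠ b := hb.symm
  revert h
  fin_cases i <;> fin_cases j <;> simp [ch, wt, hb, hb']

theorem Cen_e2 {a : Kˣ} (ha : a ≠ 1) (i j : Fin 7)
    (h : ch (wt i) (a, (1 : Kˣ)) = ch (wt j) (a, (1 : Kˣ))) :
    ch (wt i) ((-1 : Kˣ), (1 : Kˣ)) = ch (wt j) ((-1 : Kˣ), (1 : Kˣ)) := by
  have ha' : (1 : Kˣ) ≠ a := ha.symm
  revert h
  fin_cases i <;> fin_cases j <;> simp [ch, wt, ha, ha']

theorem Cen_e3 {a : Kˣ} (ha : a ≠ 1) (i j : Fin 7)
    (h : ch (wt i) (a, a⁻¹) = ch (wt j) (a, a⁻¹)) :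
    ch (wt i) ((-1 : Kˣ), (-1 : Kˣ)) = ch (wt j) ((-1 : Kˣ), (-1 : Kˣ)) := by
  have ha' : (1 : Kˣ) ≠ a := ha.symm
  revert h
  fin_cases i <;> fin_cases j <;> simp [ch, wt, ha, ha']

theorem Cen_i1 {a b : Kˣ} (h1 : (a : K) ≠ 1) (h2 : (b : K) ≠ 1) (h3 : (a : K) * b ≠ 1)
    (h4 : (a : K) ≠ b) (h5 : (a : K) * a * b ≠ 1) (h6 : (a : K) * a ≠ 1) (i : Fin 7)
    (hi : i ≠ 1) : ch (wt i) (a, b) ≠ ch (wt 1) (a, b) := by
  intro h
  have h' := congrArg Units.val h
  have ha : (a : K) ≠ 0 := a.ne_zero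
  have hb : (b : K) ≠ 0 := b.ne_zero
  fin_cases i
  · simp [ch, wt] at h'
    exact h1 h'.symm
  · exact hi rfl
  · simp [ch, wt] at h'
    exact h4 h'.symm
  · simp [ch, wt] at h'
    field_simp at h'
    exact h5 (by linear_combination -h')
  · simp [ch, wt] at h'
    field_simp at h'
    exact h6 (by linear_combination -h')
  · simp [ch, wt] at h'
    field_simp at h'
    exact h3 (by linear_combination -h')
  · simp [ch, wt] at h'
    exact h2 (by simpa using h')

theorem Cen_i2 {a b : Kˣ} (h1 : (a : K) ≠ 1) (h2 : (b : K) ≠ 1) (h3 : (a : K) * b ≠ 1)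
    (h4 : (a : K) ≠ b) (h5 : (a : K) * b * b ≠ 1) (h6 : (b : K) * b ≠ 1) (i : Fin 7)
    (hi : i ≠ 2) : ch (wt i) (a, b) ≠ ch (wt 2) (a, b) := by
  intro h
  have h' := congrArg Units.val h
  have ha : (a : K) ≠ 0 := a.ne_zero
  have hb : (b : K) ≠ 0 := b.ne_zero
  fin_cases i
  · simp [ch, wt] at h'
    exact h2 h'.symm
  · simp [ch, wt] at h'
    exact h4 h'
  · exact hi rfl
  · simp [ch, wt] at h'
    field_simp at h'
    exact h5 (by linear_combination -h')
  · simp [ch, wt] at h'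
    field_simp at h'
    exact h3 (by linear_combination -h')
  · simp [ch, wt] at h'
    field_simp at h'
    exact h6 (by linear_combination -h')
  · simp [ch, wt] at h'
    exact h1 (by simpa using h')

theorem Cen_i3 {a b : Kˣ} (h1 : (a : K) ≠ 1) (h2 : (b : K) ≠ 1) (h3 : (a : K) * b ≠ 1)
    (h4 : (a : K) * a * b ≠ 1) (h5 : (a : K) * b * b ≠ 1) (h6 : (a : K) * b * (a * b) ≠ 1)
    (i : Fin 7) (hi : i ≠ 3) : ch (wt i) (a, b) ≠ ch (wt 3) (a, b) := by
  intro h
  have h' := congrArg Units.val h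
  have ha : (a : K) ≠ 0 := a.ne_zero
  have hb : (b : K) ≠ 0 := b.ne_zero
  have e3 : ((ch (wt 3) (a, b) : Kˣ) : K) = ((a : K) * b)⁻¹ := by
    simp [ch, wt, mul_comm]
  rw [e3] at h'
  have hab : (a : K) * b ≠ 0 := mul_ne_zero ha hb
  rw [← mul_eq_one_iff_eq_inv₀ hab] at h'
  fin_cases i
  · simp [ch, wt] at h'
    exact h3 h'
  · simp [ch, wt] at h'
    exact h4 (by linear_combination h')
  · simp [ch, wt] at h'
    exact h5 (by linear_combination h')
  · exact hi rfl
  · simp [ch, wt] at h'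
    exact h2 (by rw [h', Units.val_one])
  · simp [ch, wt] at h'
    field_simp at h'
    exact h1 (by linear_combination h')
  · simp [ch, wt] at h'
    exact h6 (by linear_combination h')

/-- the cases of an element `t ≠ 1` of the torus -/
theorem cen_cases (hK : Ok K) {t : Kˣ × Kˣ} (ht : t ≠ 1) :
    (∃ j : Fin 7, j ≠ 0 ∧ ∀ f ∈ GG K, f * tor t = tor t * f → ∃ c : K, f (ev j) = c • ev j) ∨
    (∃ e : Kˣ × Kˣ, e ≠ 1 ∧ e ^ 2 = 1 ∧ ∀ f ∈ GG K, f * tor t = tor t * f →
      f * tor e = tor e * f) ∨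
    (∃ ω : Kˣ, ω ^ 3 = 1 ∧ ω ≠ 1 ∧ t = (ω, ω)) := by
  obtain ⟨a, b⟩ := t
  have h2 := Cen_two hK
  have hm1 : (-1 : Kˣ) ≠ 1 := by
    intro h
    have h3 := congrArg Units.val h
    rw [Units.val_neg, Units.val_one] at h3
    exact h2 (by linear_combination -h3)
  have ha0 : (a : K) ≠ 0 := a.ne_zero
  have hb0 : (b : K) ≠ 0 := b.ne_zero
  by_cases ha : a = 1
  · subst ha
    have hb : b ≠ 1 := by
      rintro rfl
      exact ht rfl
    refine Or.inr (Or.inl ⟨(1, -1), ?_, ?_, fun f _ h => Cen_comm (Cen_e1 hb) h⟩)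
    · intro h
      exact hm1 (congrArg Prod.snd h)
    · ext <;> simp
  by_cases hb : b = 1
  · subst hb
    refine Or.inr (Or.inl ⟨(-1, 1), ?_, ?_, fun f _ h => Cen_comm (Cen_e2 ha) h⟩)
    · intro h
      exact hm1 (congrArg Prod.fst h)
    · ext <;> simp
  by_cases hc : a * b = 1
  · have hb' : b = a⁻¹ := eq_inv_of_mul_eq_one_right hc
    subst hb'
    refine Or.inr (Or.inl ⟨(-1, -1), ?_, ?_, fun f _ h => Cen_comm (Cen_e3 ha) h⟩)
    · intro h
      exact hm1 (congrArg Prod.fst h)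
    · ext <;> simp
  have ha' : (a : K) ≠ 1 := fun h => ha (Units.ext h)
  have hb' : (b : K) ≠ 1 := fun h => hb (Units.ext h)
  have hc' : (a : K) * b ≠ 1 := fun h => hc (Units.ext h)
  -- squares
  have sq : ∀ x : K, x ≠ 1 → x * x = 1 → x = -1 := by
    intro x hx h
    have h3 : (x - 1) * (x + 1) = 0 := by linear_combination h
    rcases mul_eq_zero.1 h3 with h4 | h4
    · exact absurd (sub_eq_zero.1 h4) hx
    · linear_combination h4
  by_cases hab : (a : K) = b
  · by_cases hac : (a : K) * a * b = 1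
    · refine Or.inr (Or.inr ⟨a, ?_, ha, ?_⟩)
      · apply Units.ext
        rw [Units.val_pow_eq_pow_val, Units.val_one]
        rw [← hab] at hac
        linear_combination hac
      · exact Prod.ext rfl (Units.ext hab.symm)
    · refine Or.inl ⟨3, by decide, fun f _ h => Cen_one (Cen_i3 ha' hb' hc' hac ?_ ?_) h⟩
      · rw [← hab]
        rw [← hab] at hac
        exact hac
      · intro h6
        have h7 := sq _ hc' h6
        rw [← hab] at h7
        exact Cen_nsq hK a ha0 h7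
  · by_cases hac : (a : K) * a * b = 1
    · -- a = c ≠ b
      refine Or.inl ⟨2, by decide, fun f _ h => Cen_one (Cen_i2 ha' hb' hc' hab ?_ ?_) h⟩
      · intro h5
        apply hab
        have h6 : ((a : K) - b) * (a * b) = 0 := by linear_combination hac - h5
        exact sub_eq_zero.1 ((mul_eq_zero.1 h6).resolve_right (mul_ne_zero ha0 hb0))
      · intro h6
        have h7 := sq _ hb' h6
        rw [h7] at hac
        exact Cen_nsq hK a ha0 (by linear_combination -hac)
    · by_cases hbc : (a : K) * b * b = 1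
      · -- b = c ≠ a
        refine Or.inl ⟨1, by decide, fun f _ h => Cen_one (Cen_i1 ha' hb' hc' hab hac ?_) h⟩
        intro h6
        have h7 := sq _ ha' h6
        rw [h7] at hbc
        exact Cen_nsq hK b hb0 (by linear_combination -hbc)
      · by_cases haa : (a : K) * a = 1
        · refine Or.inl ⟨2, by decide, fun f _ h => Cen_one (Cen_i2 ha' hb' hc' hab hbc ?_) h⟩
          intro h6
          apply hab
          rw [sq _ hb' h6, sq _ ha' haa]
        · exact Or.inl ⟨1, by decide, fun f _ h =>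
            Cen_one (Cen_i1 ha' hb' hc' hab hac haa) h⟩

/-- the involutions of the torus -/
theorem inv_cases (hK : Ok K) {e : Kˣ × Kˣ} (he : e ≠ 1) (h : e ^ 2 = 1) :
    e = (1, -1) ∨ e = (-1, 1) ∨ e = (-1, -1) := by
  obtain ⟨a, b⟩ := e
  have sq : ∀ x : Kˣ, x ^ 2 = 1 → x = 1 ∨ x = -1 := by
    intro x hx
    have h1 := congrArg Units.val hx
    rw [Units.val_pow_eq_pow_val, Units.val_one] at h1
    have h3 : ((x : K) - 1) * (x + 1) = 0 := by linear_combination h1
    rcases mul_eq_zero.1 h3 with h4 | h4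
    · exact Or.inl (Units.ext (sub_eq_zero.1 h4))
    · refine Or.inr (Units.ext ?_)
      rw [Units.val_neg, Units.val_one]
      linear_combination h4
  have h1 : a ^ 2 = 1 := congrArg Prod.fst h
  have h2 : b ^ 2 = 1 := congrArg Prod.snd h
  rcases sq a h1 with rfl | rfl <;> rcases sq b h2 with rfl | rfl
  · exact absurd rfl he
  · exact Or.inl rfl
  · exact Or.inr (Or.inl rfl)
  · exact Or.inr (Or.inr rfl)

end Pool.Agent.H40.GT
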