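import Pool.Agent.H40.GT.Nrm

/-!
# Part CjA (of CjA, CjB); GT-04 conjugation of overgroups by elements of `NN`

`cj g F = g F g⁻¹`.  If `Mon n w σ τ` then `SF (cj n F) = τ '' SF F`,
`GS K (τ '' S) = cj n (GS K S)`, so `Std (cj n F)` implies `Std F`: for `f ∈ F`,
`n f n⁻¹ = c * m` with `c ∈ GS K (SF (cj n F))`, `m ∈ NN`, hence
`f = (n⁻¹ c n) * (n⁻¹ m n)`.
`GSn_perm`: elements of `F ∩ NN` permute `SF F`, hence normalise `GS K (SF F)`.
`BF F = GS K (SF F) * (F ∩ NN)` is a subgroup (the second factor normalises the first).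
-/

namespace Pool.Agent.H40.GT

variable {K : Type} [Field K]

/-- the conjugate `g F g⁻¹` -/
def cj (g : EE K) (F : Subgroup (EE K)) : Subgroup (EE K) := F.map (MulAut.conj g).toMonoidHom

theorem mem_cj {g x : EE K} {F : Subgroup (EE K)} : x ∈ cj g F ↔ g⁻¹ * x * g ∈ F := by
  unfold cj
  rw [Subgroup.mem_map]
  constructor
  · rintro ⟨y, hy, rfl⟩
    have : g⁻¹ * ((MulAut.conj g).toMonoidHom y) * g = y := by
      show g⁻¹ * (g * y * g⁻¹) * g = y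
      group
    rw [this]
    exact hy
  · intro h
    refine ⟨g⁻¹ * x * g, h, ?_⟩
    show g * (g⁻¹ * x * g) * g⁻¹ = x
    group

theorem CjA_tor {n : EE K} {w : (ℤ × ℤ) ≃+ (ℤ × ℤ)} {σ : Equiv.Perm (Fin 7)}
    {τ : Equiv.Perm Rt} (h : Mon n w σ τ) {x : EE K} (hx : x ∈ TT K) : n * x * n⁻¹ ∈ TT K := by
  obtain ⟨t, rfl⟩ := hx
  obtain ⟨t', h1, -⟩ := h.mtor t
  rw [h1]
  exact ⟨t', rfl⟩

theorem Ov_cj (h2 : (2 : K) ≠ 0) {n : EE K} (hn : n ∈ NN K) {F : Subgroup (EE K)} (hF : Ov F) :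
    Ov (cj n F) := by
  obtain ⟨w, σ, τ, hM⟩ := NN_mon h2 hn
  constructor
  · intro x hx
    rw [mem_cj]
    have h1 := CjA_tor (Mon_inv hM) hx
    rw [inv_inv] at h1
    exact hF.1 h1
  · intro x hx
    rw [mem_cj] at hx
    have h1 : x = n * (n⁻¹ * x * n) * n⁻¹ := by group
    rw [h1]
    exact mul_mem (mul_mem hn.1 (hF.2 hx)) (inv_mem hn.1)

theorem SF_cj {n : EE K} {w : (ℤ × ℤ) ≃+ (ℤ × ℤ)} {σ : Equiv.Perm (Fin 7)}
    {τ : Equiv.Perm Rt} (h : Mon n w σ τ) (F : Subgroup (EE K)) : SF (cj n F) = τ '' SF F := by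
  ext r
  obtain ⟨d, hd, h1⟩ := (Mon_inv h).mX r
  have h3 : r ∈ SF (cj n F) ↔ τ.symm r ∈ SF F := by
    constructor
    · intro hr s
      have h4 := hr (d⁻¹ * s)
      rw [mem_cj] at h4
      have h5 := h1 (d⁻¹ * s)
      rw [inv_inv, mul_inv_cancel_left₀ hd] at h5
      rw [← h5]
      exact h4
    · intro hr s
      rw [mem_cj]
      have h5 := h1 s
      rw [inv_inv] at h5
      rw [h5]
      exact hr (d * s)
  rw [h3]
  constructor
  · intro hr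
    exact ⟨τ.symm r, hr, τ.apply_symm_apply r⟩
  · rintro ⟨r', hr', rfl⟩
    rw [Equiv.symm_apply_apply]
    exact hr'

theorem CjA_le {n : EE K} {w : (ℤ × ℤ) ≃+ (ℤ × ℤ)} {σ : Equiv.Perm (Fin 7)}
    {τ : Equiv.Perm Rt} (h : Mon n w σ τ) (S : Set Rt) {c : EE K} (hc : c ∈ GS K S) :
    n * c * n⁻¹ ∈ GS K (τ '' S) := by
  unfold GS at hc
  induction hc using Subgroup.closure_induction with
  | mem x hx =>
    rcases hx with hx | ⟨r, hr, s, rfl⟩
    · exact Subgroup.subset_closure (Or.inl (CjA_tor h hx))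
    · obtain ⟨d, hd, h1⟩ := h.mX r
      rw [h1 s]
      exact Subgroup.subset_closure (Or.inr ⟨τ r, ⟨r, hr, rfl⟩, d * s, rfl⟩)
  | one =>
    rw [mul_one, mul_inv_cancel]
    exact one_mem _
  | mul x y _ _ hx hy =>
    have h1 : n * (x * y) * n⁻¹ = (n * x * n⁻¹) * (n * y * n⁻¹) := by group
    rw [h1]
    exact mul_mem hx hy
  | inv x _ hx =>
    have h1 : n * x⁻¹ * n⁻¹ = (n * x * n⁻¹)⁻¹ := by group
    rw [h1]
    exact inv_mem hx

theorem GS_cj {n : EE K} {w : (ℤ × ℤ) ≃+ (ℤ × ℤ)} {σ : Equiv.Perm (Fin 7)}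
    {τ : Equiv.Perm Rt} (h : Mon n w σ τ) (S : Set Rt) : GS K (τ '' S) = cj n (GS K S) := by
  apply le_antisymm
  · intro c hc
    rw [mem_cj]
    have h1 := CjA_le (Mon_inv h) (τ '' S) hc
    rw [inv_inv] at h1
    have h3 : τ.symm '' (τ '' S) = S := by
      rw [← Set.image_comp]
      simp
    rw [h3] at h1
    exact h1
  · intro c hc
    rw [mem_cj] at hc
    have h1 := CjA_le h S hc
    have h3 : n * (n⁻¹ * c * n) * n⁻¹ = c := by group
    rw [h3] at h1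
    exact h1

theorem Std_cj (h2 : (2 : K) ≠ 0) {n : EE K} (hn : n ∈ NN K) {F : Subgroup (EE K)} (hF : Ov F)
    (h : Std (cj n F)) : Std F := by
  obtain ⟨w, σ, τ, hM⟩ := NN_mon h2 hn
  intro f hf
  have h1 : n * f * n⁻¹ ∈ cj n F := by
    rw [mem_cj]
    have h3 : n⁻¹ * (n * f * n⁻¹) * n = f := by group
    rw [h3]
    exact hf
  obtain ⟨c, hc, hm⟩ := h _ h1
  rw [SF_cj hM, GS_cj hM, mem_cj] at hc
  refine ⟨n⁻¹ * c * n, hc, ?_⟩
  have h3 : (n⁻¹ * c * n)⁻¹ * f = n⁻¹ * (c⁻¹ * (n * f * n⁻¹)) * n := by group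
  rw [h3]
  exact mul_mem (mul_mem (inv_mem hn) hm) hn

theorem GSn_perm (h2 : (2 : K) ≠ 0) {F : Subgroup (EE K)} {n : EE K} (hn : n ∈ NN K)
    (hnF : n ∈ F) {c : EE K} (hc : c ∈ GS K (SF F)) : n * c * n⁻¹ ∈ GS K (SF F) := by
  obtain ⟨w, σ, τ, hM⟩ := NN_mon h2 hn
  have h1 : cj n F = F := by
    ext x
    rw [mem_cj]
    constructor
    · intro hx
      have h3 : x = n * (n⁻¹ * x * n) * n⁻¹ := by group
      rw [h3]
      exact mul_mem (mul_mem hnF hx) (inv_mem hnF)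
    · intro hx
      exact mul_mem (mul_mem (inv_mem hnF) hx) hnF
  have h3 := SF_cj hM F
  rw [h1] at h3
  have h4 := CjA_le hM (SF F) hc
  rw [← h3] at h4
  exact h4

end Pool.Agent.H40.GT
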