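import Pool.Agent.H40.GT.CjA

/-!
# Part CjB (of CjA, CjB); GT-04 conjugation of overgroups by elements of `NN`

`cj g F = g F g⁻¹`.  If `Mon n w σ τ` then `SF (cj n F) = τ '' SF F`,
`GS K (τ '' S) = cj n (GS K S)`, so `Std (cj n F)` implies `Std F`: for `f ∈ F`,
`n f n⁻¹ = c * m` with `c ∈ GS K (SF (cj n F))`, `m ∈ NN`, hence
`f = (n⁻¹ c n) * (n⁻¹ m n)`.
`GSn_perm`: elements of `F ∩ NN` permute `SF F`, hence normalise `GS K (SF F)`.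
`BF F = GS K (SF F) * (F ∩ NN)` is a subgroup (the second factor normalises the first).
-/

namespace Pool.Agent.H40.GT

variable {K : Type} [Field K]

/-- the standard part of `F` -/
def BF (h2 : (2 : K) ≠ 0) (F : Subgroup (EE K)) : Subgroup (EE K) where
  carrier := {f | f ∈ F ∧ ∃ c ∈ GS K (SF F), c⁻¹ * f ∈ NN K ∧ c ∈ F}
  one_mem' := ⟨one_mem _, 1, one_mem _, by simp, one_mem _⟩
  mul_mem' := by
    rintro f f' ⟨hf, c, hc, hm, hcF⟩ ⟨hf', c', hc', hm', hcF'⟩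
    have hmF : c⁻¹ * f ∈ F := mul_mem (inv_mem hcF) hf
    refine ⟨mul_mem hf hf', c * ((c⁻¹ * f) * c' * (c⁻¹ * f)⁻¹),
      mul_mem hc (GSn_perm h2 hm hmF hc'), ?_,
      mul_mem hcF (mul_mem (mul_mem hmF hcF') (inv_mem hmF))⟩
    have h : (c * ((c⁻¹ * f) * c' * (c⁻¹ * f)⁻¹))⁻¹ * (f * f') = (c⁻¹ * f) * (c'⁻¹ * f') := by
      group
    rw [h]
    exact mul_mem hm hm'
  inv_mem' := by
    rintro f ⟨hf, c, hc, hm, hcF⟩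
    have hmF : c⁻¹ * f ∈ F := mul_mem (inv_mem hcF) hf
    refine ⟨inv_mem hf, (c⁻¹ * f)⁻¹ * c⁻¹ * ((c⁻¹ * f)⁻¹)⁻¹,
      GSn_perm h2 (inv_mem hm) (inv_mem hmF) (inv_mem hc), ?_,
      mul_mem (mul_mem (inv_mem hmF) (inv_mem hcF)) (inv_mem (inv_mem hmF))⟩
    have h : ((c⁻¹ * f)⁻¹ * c⁻¹ * ((c⁻¹ * f)⁻¹)⁻¹)⁻¹ * f⁻¹ = (c⁻¹ * f)⁻¹ := by
      group
    rw [h]
    exact inv_mem hm

theorem mem_BF (h2 : (2 : K) ≠ 0) {F : Subgroup (EE K)} {f : EE K} :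
    f ∈ BF h2 F ↔ f ∈ F ∧ ∃ c ∈ GS K (SF F), c⁻¹ * f ∈ NN K ∧ c ∈ F := Iff.rfl

theorem BF_le (h2 : (2 : K) ≠ 0) {F : Subgroup (EE K)} : BF h2 F ≤ F := fun _ h => h.1

theorem GS_le_BF (h2 : (2 : K) ≠ 0) {F : Subgroup (EE K)} (hF : Ov F) : GS K (SF F) ≤ BF h2 F := by
  intro c hc
  rw [mem_BF]
  refine ⟨GS_SF_le hF hc, c, hc, ?_, GS_SF_le hF hc⟩
  rw [inv_mul_cancel]
  exact one_mem _

theorem NN_le_BF (h2 : (2 : K) ≠ 0) {F : Subgroup (EE K)} (hF : Ov F) : NN K ⊓ F ≤ BF h2 F := by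
  intro f hf
  obtain ⟨h3, h4⟩ := Subgroup.mem_inf.1 hf
  rw [mem_BF]
  refine ⟨h4, 1, one_mem _, ?_, one_mem _⟩
  rw [inv_one, one_mul]
  exact h3

theorem Std_iff_BF (h2 : (2 : K) ≠ 0) {F : Subgroup (EE K)} (hF : Ov F) :
    Std F ↔ ∀ f ∈ F, f ∈ BF h2 F := by
  constructor
  · intro h f hf
    obtain ⟨c, hc, hm⟩ := h f hf
    rw [mem_BF]
    exact ⟨hf, c, hc, hm, GS_SF_le hF hc⟩
  · intro h f hf
    obtain ⟨-, c, hc, hm, -⟩ := (mem_BF h2).1 (h f hf)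
    exact ⟨c, hc, hm⟩

/-- standard subgroups of `F` are in `BF F` -/
theorem Std_le_BF (h2 : (2 : K) ≠ 0) {F F' : Subgroup (EE K)} (hF : Ov F) (hF' : Ov F')
    (hle : F' ≤ F) (h : Std F') : F' ≤ BF h2 F := by
  intro f hf
  obtain ⟨c, hc, hm⟩ := h f hf
  have hsub : SF F' ⊆ SF F := fun r hr s => hle (hr s)
  have hc' : c ∈ GS K (SF F) := GS_mono hsub hc
  rw [mem_BF]
  exact ⟨hle hf, c, hc', hm, GS_SF_le hF hc'⟩

end Pool.Agent.H40.GT
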