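import Pool.Agent.H40.GT.PG

/-!
# GT-16 the set `SF F` is closed

Let `a, b ∈ SF F`, `rt a + rt b = rt c`.  `rt a`, `rt b` are linearly independent (a sum of two
roots that is a root; finite check), so with `δ = det (rt a, rt b) ≠ 0` and
`d = ± ((rt b).2 - (rt a).2, (rt a).1 - (rt b).1)` one has `dr d a = dr d b = |δ| =: n > 0`,
`dr d c = 2 n`.
`g = X a 1 * X b 1 * (X a 1)⁻¹ * (X b 1)⁻¹ ∈ F` satisfies: `g - 1` raises degrees by at least
`2 n`, and `ld d (2 n) g = Nl a ∘ Nl b - Nl b ∘ Nl a`, because with `x = X a 1 - 1`, `y = X b 1 - 1`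
(degree at least `n`, leading parts `Nl a`, `Nl b`) `g - 1 = (x y - y x) (X a 1)⁻¹ (X b 1)⁻¹`.
By a finite check `Nl a ∘ Nl b - Nl b ∘ Nl a = κ • Nl c`, with `κ = ±1, ±2, ±3` (nonzero
in `K`).
`R` = elements `u ∈ F ⊓ QD d` such that `u - 1` raises degrees by at least `2 n`: a subgroup
(`ld_mul`) normalised by `TT K`.  By `PG` it is generated by root elements `X r s ∈ R`; for these
`r ∈ SF F` or `s = 0` (`ok_mem_SF`), and `dr d r ≥ 2 n`.
On `R` the map `ld d (2 n)` is additive (`ld_mul`), with `ld d (2n) (X r s) = s • Nl r` if `dr d r = 2 n`,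
and `0` if `dr d r > 2 n`.  So its component of weight `rt c` (`wc (rt c)`) vanishes on `R` if
`c ∉ SF F`; but it is `κ • Nl c ≠ 0` on `g`.
-/

namespace Pool.Agent.H40.GT

variable {K : Type} [Field K]

theorem Clo_tab : ∀ a b c : Rt, rt a + rt b = rt c → ∃ k ∈ ([1, -1, 2, -2, 3, -3] : List ℤ),
    ∀ i j : Fin 7, cc a i * (cc b (sc a i) * (if sc b (sc a i) = j then 1 else 0)) -
      cc b i * (cc a (sc b i) * (if sc a (sc b i) = j then 1 else 0)) =
      k * (cc c i * (if sc c i = j then 1 else 0)) := by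
  decide +kernel

theorem Clo_ev (i j : Fin 7) : (ev j : V K) i = ((if i = j then 1 else 0 : ℤ) : K) := by
  by_cases h : i = j
  · rw [if_pos h, h, ev_same, Int.cast_one]
  · rw [if_neg h, ev_ne h, Int.cast_zero]

theorem Nl_comm (a b c : Rt) (h : rt a + rt b = rt c) : ∃ k : ℤ, k ≠ 0 ∧ |k| ≤ 3 ∧
    ∀ x : V K, Nl a (Nl b x) - Nl b (Nl a x) = (k : K) • Nl c x := by
  obtain ⟨k, hk, h1⟩ := Clo_tab a b c h
  have hk' : k ≠ 0 ∧ |k| ≤ 3 := by
    simp only [List.mem_cons, List.not_mem_nil, or_false] at hk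
    rcases hk with rfl | rfl | rfl | rfl | rfl | rfl <;> decide
  refine ⟨k, hk'.1, hk'.2, ?_⟩
  have h2 : (Nl a ∘ₗ Nl b - Nl b ∘ₗ Nl a : V K →ₗ[K] V K) = (k : K) • Nl c := by
    have h3 : ∀ j : Fin 7, (Nl a ∘ₗ Nl b - Nl b ∘ₗ Nl a : V K →ₗ[K] V K) (ev j) =
        ((k : K) • Nl c : V K →ₗ[K] V K) (ev j) := by
      intro j
      funext i
      show Nl a (Nl b (ev j)) i - Nl b (Nl a (ev j)) i = (k : K) * Nl c (ev j) i
      rw [Nl_apply, Nl_apply, Nl_apply, Nl_apply, Nl_apply, Clo_ev, Clo_ev, Clo_ev]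
      exact_mod_cast congrArg (Int.cast : ℤ → K) (h1 i j)
    apply LinearMap.ext
    intro x
    rw [V_sum x, map_sum, map_sum]
    refine Finset.sum_congr rfl fun j _ => ?_
    rw [map_smul, map_smul, h3]
  intro x
  exact LinearMap.congr_fun h2 x

/-- the grading -/
def CloD (a b : Rt) : ℤ × ℤ :=
  (((rt a).1 * (rt b).2 - (rt a).2 * (rt b).1).sign * ((rt b).2 - (rt a).2),
    ((rt a).1 * (rt b).2 - (rt a).2 * (rt b).1).sign * ((rt a).1 - (rt b).1))

theorem CloD_deg : ∀ a b c : Rt, rt a + rt b = rt c → 0 < dr (CloD a b) a ∧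
    dr (CloD a b) b = dr (CloD a b) a ∧ dr (CloD a b) c = dr (CloD a b) a + dr (CloD a b) a := by
  decide +kernel

theorem Clo_two : ∀ c r : Rt, rt c ≠ rt r + rt r := by
  decide +kernel

/-- an endomorphism which raises degrees by at least `k` -/
def CloE (d : ℤ × ℤ) (k : ℤ) (D : V K →ₗ[K] V K) : Prop :=
  ∀ i j, dg d i < dg d j + k → D (ev j) i = 0

theorem CloE_comp {d : ℤ × ℤ} {k l : ℤ} {D D' : V K →ₗ[K] V K} (h : CloE d k D)
    (h' : CloE d l D') : CloE d (k + l) (D ∘ₗ D') := by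
  intro i j hij
  rw [LinearMap.comp_apply, V_sum (D' (ev j)), map_sum, Finset.sum_apply]
  apply Finset.sum_eq_zero
  intro m _
  rw [map_smul, Pi.smul_apply, smul_eq_mul]
  by_cases hm : dg d m < dg d j + l
  · rw [h' m j hm, zero_mul]
  · rw [h i m (by omega), mul_zero]

theorem CloE_add {d : ℤ × ℤ} {k : ℤ} {D D' : V K →ₗ[K] V K} (h : CloE d k D)
    (h' : CloE d k D') : CloE d k (D + D') := by
  intro i j hij
  rw [LinearMap.add_apply, Pi.add_apply, h i j hij, h' i j hij, add_zero]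

theorem CloE_sub {d : ℤ × ℤ} {k : ℤ} {D D' : V K →ₗ[K] V K} (h : CloE d k D)
    (h' : CloE d k D') : CloE d k (D - D') := by
  intro i j hij
  rw [LinearMap.sub_apply, Pi.sub_apply, h i j hij, h' i j hij, sub_zero]

theorem CloE_neg {d : ℤ × ℤ} {k : ℤ} {D : V K →ₗ[K] V K} (h : CloE d k D) : CloE d k (-D) := by
  intro i j hij
  rw [LinearMap.neg_apply, Pi.neg_apply, h i j hij, neg_zero]

theorem CloE_mono {d : ℤ × ℤ} {k l : ℤ} (hkl : l ≤ k) {D : V K →ₗ[K] V K} (h : CloE d k D) :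
    CloE d l D := fun i j hij => h i j (by omega)

theorem CloE_PD {d : ℤ × ℤ} {u : EE K} (hu : u ∈ PD K d) : CloE d 0 (u : V K →ₗ[K] V K) :=
  fun i j hij => hu.2.1 i j (by omega)

theorem CloE_QD {d : ℤ × ℤ} {u : EE K} (hu : u ∈ QD K d) :
    CloE d 1 ((u : V K →ₗ[K] V K) - LinearMap.id) := by
  intro i j hij
  show u (ev j) i - (ev j : V K) i = 0
  rw [hu.2.1 i j (by omega), sub_self]

theorem CloE_Nl (d : ℤ × ℤ) (r : Rt) : CloE d (dr d r) (Nl r : V K →ₗ[K] V K) := by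
  intro i j hij
  apply Nl_ev
  intro h
  have h1 := FiC_dg1 (d := d) h
  omega

theorem CloE_Ql (d : ℤ × ℤ) (r : Rt) : CloE d (dr d r + dr d r) (Ql r : V K →ₗ[K] V K) := by
  intro i j hij
  apply Ql_ev
  intro h
  have h1 := FiC_dg2 (d := d) h
  omega

theorem Clo_X1 (r : Rt) : (X r (1 : K) : V K →ₗ[K] V K) - LinearMap.id = Nl r + Ql r := by
  refine LinearMap.ext fun x => funext fun i => ?_
  show X r 1 x i - x i = Nl r x i + Ql r x i
  rw [X_apply, Nl_apply, Ql_apply]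
  ring

theorem CloE_NQ {d : ℤ × ℤ} {r : Rt} (h : 0 < dr d r) :
    CloE d (dr d r) (Nl r + Ql r : V K →ₗ[K] V K) :=
  CloE_add (CloE_Nl d r) (CloE_mono (by omega) (CloE_Ql d r))

/-- elements of `F ⊓ QD d` which raise degrees by at least `k` -/
def CloR (F : Subgroup (EE K)) (d : ℤ × ℤ) (k : ℤ) : Subgroup (EE K) where
  carrier := {u | u ∈ F ∧ u ∈ QD K d ∧ CloE d k ((u : V K →ₗ[K] V K) - LinearMap.id)}
  one_mem' := ⟨one_mem _, one_mem _, fun i j _ => by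
    show (1 : EE K) (ev j) i - (ev j : V K) i = 0
    exact sub_self _⟩
  mul_mem' := by
    rintro a b ⟨h1, h2, h3⟩ ⟨h4, h5, h6⟩
    refine ⟨mul_mem h1 h4, mul_mem h2 h5, ?_⟩
    have h7 := CloE_comp h3 (CloE_PD (QD_le_PD d h5))
    rw [add_zero] at h7
    have h8 := CloE_add h7 h6
    have h9 : ((a * b : EE K) : V K →ₗ[K] V K) - LinearMap.id =
        ((a : V K →ₗ[K] V K) - LinearMap.id) ∘ₗ (b : V K →ₗ[K] V K) +
          ((b : V K →ₗ[K] V K) - LinearMap.id) := by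
      refine LinearMap.ext fun x => ?_
      show a (b x) - x = (a (b x) - b x) + (b x - x)
      abel
    rw [h9]
    exact h8
  inv_mem' := by
    rintro a ⟨h1, h2, h3⟩
    refine ⟨inv_mem h1, inv_mem h2, ?_⟩
    have h7 := CloE_comp (CloE_PD (QD_le_PD d (inv_mem h2))) h3
    rw [zero_add] at h7
    have h8 := CloE_neg h7
    have h9 : ((a⁻¹ : EE K) : V K →ₗ[K] V K) - LinearMap.id =
        -(((a⁻¹ : EE K) : V K →ₗ[K] V K) ∘ₗ ((a : V K →ₗ[K] V K) - LinearMap.id)) := by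
      refine LinearMap.ext fun x => ?_
      show a⁻¹ x - x = -(a⁻¹ (a x - x))
      have h10 : a⁻¹ (a x) = x := a.symm_apply_apply x
      rw [map_sub, h10, neg_sub]
    rw [h9]
    exact h8

theorem CloR_add {F : Subgroup (EE K)} {d : ℤ × ℤ} {k : ℤ} (hk : 0 < k) {u u' : EE K}
    (hu : u ∈ CloR F d k) (hu' : u' ∈ CloR F d k) {i j : Fin 7} (hij : dg d i = dg d j + k) :
    (u * u') (ev j) i - (ev j : V K) i =
      (u (ev j) i - (ev j : V K) i) + (u' (ev j) i - (ev j : V K) i) := by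
  have h1 := CloE_comp hu.2.2 hu'.2.2 i j (by omega)
  have h2 : (u * u') (ev j) i - (ev j : V K) i =
      (u (ev j) i - (ev j : V K) i) + (u' (ev j) i - (ev j : V K) i) +
      (((u : V K →ₗ[K] V K) - LinearMap.id) ∘ₗ ((u' : V K →ₗ[K] V K) - LinearMap.id) :
        V K →ₗ[K] V K) (ev j) i := by
    show u (u' (ev j)) i - (ev j : V K) i = _ +
      (u (u' (ev j) - ev j) i - (u' (ev j) - ev j : V K) i)
    rw [map_sub, Pi.sub_apply, Pi.sub_apply]
    ring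
  rw [h2, h1, add_zero]

theorem CloR_tor {F : Subgroup (EE K)} (hF : TT K ≤ F) {d : ℤ × ℤ} {k : ℤ} {t u : EE K}
    (ht : t ∈ TT K) (hu : u ∈ CloR F d k) : t * u * t⁻¹ ∈ CloR F d k := by
  have hP : t ∈ PD K d := Dg_le_PD d (TT_le_Dg d ht)
  refine ⟨mul_mem (mul_mem (hF ht) hu.1) (inv_mem (hF ht)), QD_normal hP hu.2.1, ?_⟩
  have h1 := CloE_comp (CloE_comp (CloE_PD hP) hu.2.2) (CloE_PD (inv_mem hP))
  rw [zero_add, add_zero] at h1
  have h2 : ((t * u * t⁻¹ : EE K) : V K →ₗ[K] V K) - LinearMap.id =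
      ((t : V K →ₗ[K] V K) ∘ₗ ((u : V K →ₗ[K] V K) - LinearMap.id)) ∘ₗ
        ((t⁻¹ : EE K) : V K →ₗ[K] V K) := by
    refine LinearMap.ext fun x => ?_
    show t (u (t⁻¹ x)) - x = t (u (t⁻¹ x) - t⁻¹ x)
    have h10 : t (t⁻¹ x) = x := t.apply_symm_apply x
    rw [map_sub, h10]
  rw [h2]
  exact h1

/-- the commutator of two root elements minus one -/
theorem Clo_comm (a b : Rt) : ((X a 1 * X b 1 * (X a 1)⁻¹ * (X b 1)⁻¹ : EE K) : V K →ₗ[K] V K) -
    LinearMap.id = ((Nl a + Ql a) ∘ₗ (Nl b + Ql b) - (Nl b + Ql b) ∘ₗ (Nl a + Ql a)) ∘ₗ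
      (((X a 1)⁻¹ * (X b 1)⁻¹ : EE K) : V K →ₗ[K] V K) := by
  rw [← Clo_X1, ← Clo_X1]
  refine LinearMap.ext fun x => ?_
  have h1 : ∀ y : V K, X a 1 (X b 1 y) - X b 1 (X a 1 y) =
      (X a 1 (X b 1 y - y) - (X b 1 y - y)) - (X b 1 (X a 1 y - y) - (X a 1 y - y)) := by
    intro y
    rw [map_sub, map_sub]
    abel
  have h2 : X b 1 (X a 1 ((X a 1)⁻¹ ((X b 1)⁻¹ x))) = x := by
    have h3 : X a 1 ((X a 1)⁻¹ ((X b 1)⁻¹ x)) = (X b 1)⁻¹ x :=
      LinearEquiv.apply_symm_apply (X a 1) ((X b 1)⁻¹ x)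
    rw [h3]
    exact LinearEquiv.apply_symm_apply (X b 1) x
  have h4 := h1 ((X a 1)⁻¹ ((X b 1)⁻¹ x))
  rw [h2] at h4
  exact h4

theorem CloE_C {d : ℤ × ℤ} {a b : Rt} (ha : 0 < dr d a) (hb : dr d b = dr d a) :
    CloE d (dr d a + dr d a) ((Nl a + Ql a) ∘ₗ (Nl b + Ql b) -
      (Nl b + Ql b) ∘ₗ (Nl a + Ql a) : V K →ₗ[K] V K) := by
  have h1 := CloE_NQ (K := K) (d := d) (r := a) ha
  have h2 := CloE_NQ (K := K) (d := d) (r := b) (by omega)
  rw [hb] at h2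
  exact CloE_sub (CloE_comp h1 h2) (CloE_comp h2 h1)

/-- the leading part of the commutator -/
theorem Clo_C_ev {d : ℤ × ℤ} {a b c : Rt} (ha : 0 < dr d a) (hb : dr d b = dr d a)
    {k : K} (hk : ∀ x : V K, Nl a (Nl b x) - Nl b (Nl a x) = k • Nl c x) {i j : Fin 7}
    (hij : dg d i = dg d j + (dr d a + dr d a)) :
    ((Nl a + Ql a) ∘ₗ (Nl b + Ql b) - (Nl b + Ql b) ∘ₗ (Nl a + Ql a) : V K →ₗ[K] V K) (ev j) i =
      k * Nl c (ev j : V K) i := by
  have h1 := CloE_NQ (K := K) (d := d) (r := a) ha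
  have h2 := CloE_NQ (K := K) (d := d) (r := b) (by omega)
  have n1 := CloE_Nl (K := K) d a
  have n2 := CloE_Nl (K := K) d b
  have q1 := CloE_Ql (K := K) d a
  have q2 := CloE_Ql (K := K) d b
  rw [hb] at h2 n2 q2
  have e1 := CloE_comp n1 q2 i j (by omega)
  have e2 := CloE_comp q1 h2 i j (by omega)
  have e3 := CloE_comp n2 q1 i j (by omega)
  have e4 := CloE_comp q2 h1 i j (by omega)
  have e5 := congrFun (hk (ev j)) i
  rw [Pi.sub_apply, Pi.smul_apply, smul_eq_mul] at e5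
  rw [← e5]
  have e6 : ((Nl a + Ql a) ∘ₗ (Nl b + Ql b) - (Nl b + Ql b) ∘ₗ (Nl a + Ql a) :
      V K →ₗ[K] V K) (ev j) i = Nl a (Nl b (ev j)) i - Nl b (Nl a (ev j)) i +
      ((Nl a ∘ₗ Ql b : V K →ₗ[K] V K) (ev j) i +
        (Ql a ∘ₗ (Nl b + Ql b) : V K →ₗ[K] V K) (ev j) i) -
      ((Nl b ∘ₗ Ql a : V K →ₗ[K] V K) (ev j) i +
        (Ql b ∘ₗ (Nl a + Ql a) : V K →ₗ[K] V K) (ev j) i) := by
    show (Nl a (Nl b (ev j) + Ql b (ev j)) + Ql a (Nl b (ev j) + Ql b (ev j)) : V K) i -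
      (Nl b (Nl a (ev j) + Ql a (ev j)) + Ql b (Nl a (ev j) + Ql a (ev j)) : V K) i =
      Nl a (Nl b (ev j)) i - Nl b (Nl a (ev j)) i +
      (Nl a (Ql b (ev j)) i + Ql a (Nl b (ev j) + Ql b (ev j)) i) -
      (Nl b (Ql a (ev j)) i + Ql b (Nl a (ev j) + Ql a (ev j)) i)
    rw [map_add (Nl a), map_add (Nl b), Pi.add_apply, Pi.add_apply, Pi.add_apply, Pi.add_apply]
    ring
  rw [e6, e1, e2, e3, e4]
  ring

theorem Clo (hK : Ok K) {F : Subgroup (EE K)} (hF : Ov F) : Cl (SF F) := by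
  intro a ha b hb c hc
  by_contra hcS
  obtain ⟨hn, hnb, hnc⟩ := CloD_deg a b c hc
  obtain ⟨k, hk0, hk3, hk⟩ := Nl_comm (K := K) a b c hc
  obtain ⟨i, h1, h2, h3, h4⟩ := FiC_tab c
  generalize CloD a b = d at *
  have hij : dg d i = dg d (sc c i) + dr d c := FiC_dg1 h4
  have hcp : 0 < dr d c := by omega
  have hRQ : CloR F d (dr d c) ≤ QD K d := fun u hu => hu.2.1
  have hPG := PG hK hRQ (fun t ht u hu => CloR_tor hF.1 ht hu)
  have key : ∀ u ∈ Subgroup.closure {u | (∃ r s, u = X r s) ∧ u ∈ CloR F d (dr d c)},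
      u ∈ CloR F d (dr d c) ∧ u (ev (sc c i)) i - (ev (sc c i) : V K) i = 0 := by
    intro u hu
    induction hu using Subgroup.closure_induction with
    | mem u hu =>
      obtain ⟨⟨r, s, rfl⟩, hu⟩ := hu
      refine ⟨hu, ?_⟩
      by_cases hs : s = 0
      · rw [hs, X_zero]
        exact sub_self _
      · by_cases hr : r = c
        · exfalso
          apply hcS
          rw [← hr]
          exact ok_mem_SF hK hs hu.1
        · rw [FiC_X, sub_self]
          · intro h7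
            rw [h4] at h7
            exact hr (rt_inj (add_left_cancel h7)).symm
          · intro h7
            rw [h4, add_assoc] at h7
            exact Clo_two c r (add_left_cancel h7)
    | one => exact ⟨one_mem _, sub_self _⟩
    | mul u v _ _ hu hv =>
      refine ⟨mul_mem hu.1 hv.1, ?_⟩
      rw [CloR_add hcp hu.1 hv.1 hij, hu.2, hv.2, add_zero]
    | inv u _ hu =>
      refine ⟨inv_mem hu.1, ?_⟩
      have h5 := CloR_add hcp hu.1 (inv_mem hu.1) hij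
      rw [mul_inv_cancel, hu.2, zero_add] at h5
      rw [← h5]
      exact sub_self _
  have qa : X a (1 : K) ∈ QD K d := X_mem_QD hn 1
  have qb : X b (1 : K) ∈ QD K d := X_mem_QD (by omega) 1
  have hg : X a 1 * X b 1 * (X a 1)⁻¹ * (X b 1)⁻¹ ∈ CloR F d (dr d c) := by
    refine ⟨mul_mem (mul_mem (mul_mem (ha 1) (hb 1)) (inv_mem (ha 1))) (inv_mem (hb 1)),
      mul_mem (mul_mem (mul_mem qa qb) (inv_mem qa)) (inv_mem qb), ?_⟩
    rw [Clo_comm]
    have h5 := CloE_comp (CloE_C (K := K) hn hnb)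
      (CloE_PD (QD_le_PD d (mul_mem (inv_mem qa) (inv_mem qb))))
    rw [add_zero, ← hnc] at h5
    exact h5
  have h6 := (key _ (hPG hg)).2
  have h7 : (((X a 1 * X b 1 * (X a 1)⁻¹ * (X b 1)⁻¹ : EE K) : V K →ₗ[K] V K) -
    LinearMap.id : V K →ₗ[K] V K) (ev (sc c i)) i = 0 := h6
  rw [Clo_comm] at h7
  have hCE := CloE_C (K := K) hn hnb
  have hCl := Clo_C_ev (K := K) (i := i) (j := sc c i) hn hnb hk (by omega)
  generalize ((Nl a + Ql a) ∘ₗ (Nl b + Ql b) - (Nl b + Ql b) ∘ₗ (Nl a + Ql a) :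
    V K →ₗ[K] V K) = C at hCE hCl h7
  have h7' : C (((X a 1)⁻¹ * (X b 1)⁻¹ : EE K) (ev (sc c i))) i = 0 := h7
  have h8 : C (((X a 1)⁻¹ * (X b 1)⁻¹ : EE K) (ev (sc c i)) - ev (sc c i)) i = 0 :=
    CloE_comp hCE (CloE_QD (mul_mem (inv_mem qa) (inv_mem qb))) i (sc c i) (by omega)
  rw [map_sub, Pi.sub_apply, h7', zero_sub, neg_eq_zero, hCl, Nl_apply, ev_same, mul_one] at h8
  have h9 : (k : K) ≠ 0 := by
    have e1 : k = 1 ∨ k = -1 ∨ k = 2 ∨ k = -2 ∨ k = 3 ∨ k = -3 := by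
      have := abs_le.1 hk3
      omega
    rcases e1 with rfl | rfl | rfl | rfl | rfl | rfl
    · rw [Int.cast_one]
      exact one_ne_zero
    · rw [Int.cast_neg, Int.cast_one]
      exact neg_ne_zero.2 one_ne_zero
    · exact_mod_cast ok_two hK
    · rw [Int.cast_neg]
      exact neg_ne_zero.2 (by exact_mod_cast ok_two hK)
    · exact_mod_cast ok_three hK
    · rw [Int.cast_neg]
      exact neg_ne_zero.2 (by exact_mod_cast ok_three hK)
  rcases mul_eq_zero.1 h8 with h10 | h10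
  · exact h9 h10
  · rcases h1 with h1 | h1
    · rw [h1, Int.cast_one] at h10
      exact one_ne_zero h10
    · rw [h1, Int.cast_neg, Int.cast_one] at h10
      exact neg_ne_zero.2 one_ne_zero h10

end Pool.Agent.H40.GT
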