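import Pool.Agent.H40.GT.Nrm
import Pool.Agent.H40.GT.Fil

/-!
# Part DeA (of DeA, DeB, DeC); GT-14 derivations and their weight components

`IsD D`: `D` is a derivation of `br`, skew for `bf`.
`wc v D` = the component of weight `v`: `(wc v D x) i = ∑ j, if wt i = wt j + v then D (ev j) i * x j`.
Every `D` is the sum of the `wc (wt i - wt j) D`.

* `wc_IsD`: `br` and `bf` are homogeneous for the weights (`br (ev i) (ev j)` is a multiple of an
  `ev k` with `wt k = wt i + wt j`, or zero; `bf (ev i) (ev j) = 0` unless `wt i + wt j = 0`), so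
  the weight components of a derivation are derivations (compare the components of weight
  `v + wt i + wt j` in `D (br e_i e_j) = br (D e_i) e_j + br e_i (D e_j)`).
* `IsD_weight`: let `D` be a derivation of weight `v ≠ 0`.  Then `v = rt r` and `D` is a multiple of
  `Nl r` (`der_weight`), or `D = 0`: `v` must be a difference of two weights, so (finite check)
  it is a root or `2 * ` a short root or the map is zero; in the last case only `D e_-i = c e_i` is
  possible (`v = 2 wt i`), and `bf (D e_-i) e_-i + bf e_-i (D e_-i) = 2 c = 0`.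
* `IsD_comp`: `D` commutes with `tor t` for all `t ∈ B` iff all components do; the component
  `wc v D` satisfies `tor t * (wc v D) * (tor t)⁻¹ = ch v t • wc v D`.  So if `D` commutes with
  `tor t`, then `wc v D = 0` or `ch v t = 1`.
* `lead_IsD`: let `u ∈ GG`, `k > 0`, and suppose that `u - 1` raises the degrees by at least `k`
  (`u (ev j) i = ev j i` whenever `dg d i < dg d j + k`).  The map
  `ld d k u x i = ∑ j, if dg d i = dg d j + k then u (ev j) i * x j else 0` is a derivation: compare the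
  components of degree `dg i + dg j + k` in `u (br e_i e_j) = br (u e_i) (u e_j)`, `bf` alike
  (`2 k > k`).
* `ld_mul`: for two such elements `ld (u u') = ld u + ld u'`.
-/

namespace Pool.Agent.H40.GT

variable {K : Type} [Field K]

/-- derivations -/
def IsD (D : V K →ₗ[K] V K) : Prop :=
  (∀ x y, D (br x y) = br (D x) y + br x (D y)) ∧ ∀ x y, bf (D x) y + bf x (D y) = 0

/-- the component of weight `v` of an endomorphism -/
def wc (v : ℤ × ℤ) (D : V K →ₗ[K] V K) : V K →ₗ[K] V K where
  toFun x := fun i => ∑ j, if wt i = wt j + v then D (ev j) i * x j else 0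
  map_add' := by
    intro x y
    funext i
    rw [Pi.add_apply, ← Finset.sum_add_distrib]
    refine Finset.sum_congr rfl fun j _ => ?_
    split_ifs
    · rw [Pi.add_apply, mul_add]
    · rw [add_zero]
  map_smul' := by
    intro c x
    funext i
    rw [Pi.smul_apply, smul_eq_mul, Finset.mul_sum]
    refine Finset.sum_congr rfl fun j _ => ?_
    split_ifs
    · rw [Pi.smul_apply, smul_eq_mul, RingHom.id_apply]
      ring
    · rw [mul_zero]

theorem wc_apply (v : ℤ × ℤ) (D : V K →ₗ[K] V K) (x : V K) (i : Fin 7) :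
    wc v D x i = ∑ j, if wt i = wt j + v then D (ev j) i * x j else 0 := rfl

theorem wc_ev (v : ℤ × ℤ) (D : V K →ₗ[K] V K) (i j : Fin 7) :
    wc v D (ev j) i = if wt i = wt j + v then D (ev j) i else 0 := by
  rw [wc_apply, Finset.sum_eq_single j]
  · rw [ev_same, mul_one]
  · intro k _ hk
    rw [ev_ne hk, mul_zero, ite_self]
  · intro h
    exact absurd (Finset.mem_univ _) h

theorem DeA_ext {M : Type*} [AddCommGroup M] [Module K M] {f g : V K →ₗ[K] M}
    (h : ∀ j, f (ev j) = g (ev j)) : f = g := by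
  refine LinearMap.ext fun x => ?_
  rw [V_sum x, map_sum, map_sum]
  refine Finset.sum_congr rfl fun j _ => ?_
  rw [map_smul, map_smul, h]

theorem wc_zero {D : V K →ₗ[K] V K} (h : ∀ v, wc v D = 0) : D = 0 := by
  refine DeA_ext fun j => funext fun i => ?_
  have h1 : wc (wt i - wt j) D (ev j) i = D (ev j) i := by
    rw [wc_ev, if_pos (by rw [add_sub_cancel])]
  rw [← h1, h]

theorem wc_smul (v : ℤ × ℤ) (c : K) (D : V K →ₗ[K] V K) : wc v (c • D) = c • wc v D := by
  refine DeA_ext fun j => funext fun i => ?_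
  rw [wc_ev, LinearMap.smul_apply, LinearMap.smul_apply, Pi.smul_apply, Pi.smul_apply, wc_ev]
  split_ifs
  · rfl
  · rw [smul_zero]

theorem wc_add (v : ℤ × ℤ) (D D' : V K →ₗ[K] V K) : wc v (D + D') = wc v D + wc v D' := by
  refine DeA_ext fun j => funext fun i => ?_
  rw [wc_ev, LinearMap.add_apply, LinearMap.add_apply, Pi.add_apply, Pi.add_apply, wc_ev, wc_ev]
  split_ifs
  · rfl
  · rw [add_zero]

theorem wc_Nl (v : ℤ × ℤ) (r : Rt) : wc v (Nl r : V K →ₗ[K] V K) = if v = rt r then Nl r else 0 := by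
  refine DeA_ext fun j => funext fun i => ?_
  rw [wc_ev]
  by_cases h : v = rt r
  · rw [if_pos h, h]
    split_ifs with h1
    · rfl
    · exact (Nl_ev r j i h1).symm
  · rw [if_neg h]
    split_ifs with h1
    · rw [Nl_ev r j i]
      · rfl
      · intro h2
        rw [h1] at h2
        exact h (add_left_cancel h2)
    · rfl

/-- `br` as a bilinear map -/
def DeA_brL : V K →ₗ[K] V K →ₗ[K] V K :=
  LinearMap.mk₂ K br
    (by
      intro x y z
      funext i
      fin_cases i <;> simp [br] <;> ring)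
    (by
      intro c x z
      funext i
      fin_cases i <;> simp [-mul_eq_mul_left_iff, br] <;> ring)
    (by
      intro x y z
      funext i
      fin_cases i <;> simp [br] <;> ring)
    (by
      intro c x z
      funext i
      fin_cases i <;> simp [-mul_eq_mul_left_iff, br] <;> ring)

theorem DeA_brL_apply (x y : V K) : DeA_brL x y = br x y := rfl

/-- `bf` as a bilinear map -/
def DeA_bfL : V K →ₗ[K] V K →ₗ[K] K :=
  LinearMap.mk₂ K bf
    (by
      intro x y z
      simp [bf]
      ring)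
    (by
      intro c x z
      simp [-mul_eq_mul_left_iff, bf]
      ring)
    (by
      intro x y z
      simp [bf]
      ring)
    (by
      intro c x z
      simp [-mul_eq_mul_left_iff, bf]
      ring)

theorem DeA_bfL_apply (x y : V K) : DeA_bfL x y = bf x y := rfl

theorem DeA_br_left (x y : V K) (i : Fin 7) : br x y i = ∑ k, x k * br (ev k) y i := by
  conv_lhs => rw [← DeA_brL_apply, V_sum x, map_sum, LinearMap.sum_apply, Finset.sum_apply]
  refine Finset.sum_congr rfl fun k _ => ?_
  rw [map_smul, LinearMap.smul_apply, Pi.smul_apply, smul_eq_mul, DeA_brL_apply]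

theorem DeA_br_right (x y : V K) (i : Fin 7) : br x y i = ∑ k, y k * br x (ev k) i := by
  conv_lhs => rw [← DeA_brL_apply, V_sum y, map_sum, Finset.sum_apply]
  refine Finset.sum_congr rfl fun k _ => ?_
  rw [map_smul, Pi.smul_apply, smul_eq_mul, DeA_brL_apply]

theorem DeA_bf_left (x y : V K) : bf x y = ∑ k, x k * bf (ev k) y := by
  conv_lhs => rw [← DeA_bfL_apply, V_sum x, map_sum, LinearMap.sum_apply]
  refine Finset.sum_congr rfl fun k _ => ?_
  rw [map_smul, LinearMap.smul_apply, smul_eq_mul, DeA_bfL_apply]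

theorem DeA_bf_right (x y : V K) : bf x y = ∑ k, y k * bf x (ev k) := by
  conv_lhs => rw [← DeA_bfL_apply, V_sum y, map_sum]
  refine Finset.sum_congr rfl fun k _ => ?_
  rw [map_smul, smul_eq_mul, DeA_bfL_apply]

theorem DeA_prod {a b p q : Fin 7} (h : wt p + wt q ≠ wt a + wt b) :
    (ev a : V K) p * (ev b : V K) q = 0 := by
  by_cases h1 : p = a
  · by_cases h2 : q = b
    · exact absurd (by rw [h1, h2]) h
    · rw [ev_ne h2, mul_zero]
  · rw [ev_ne h1, zero_mul]

theorem DeA_tab : wt 1 + wt 4 = wt 0 ∧ wt 2 + wt 5 = wt 0 ∧ wt 3 + wt 6 = wt 0 ∧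
    wt 4 + wt 1 = wt 0 ∧ wt 5 + wt 2 = wt 0 ∧ wt 6 + wt 3 = wt 0 := by
  decide

/-- `br` is homogeneous -/
theorem DeA_br_hom (a b i : Fin 7) (h : wt i ≠ wt a + wt b) : br (ev a : V K) (ev b) i = 0 := by
  have t : ∀ p q : Fin 7, wt p + wt q = wt i → (ev a : V K) p * (ev b : V K) q = 0 :=
    fun p q hpq => DeA_prod (by rw [hpq]; exact h)
  have t' : ∀ p q : Fin 7, wt p + wt q = wt i → (ev b : V K) q * (ev a : V K) p = 0 :=
    fun p q hpq => by rw [mul_comm]; exact t p q hpq
  clear h
  fin_cases i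
  · show (ev a : V K) 1 * (ev b : V K) 4 + (ev a : V K) 2 * (ev b : V K) 5 +
      (ev a : V K) 3 * (ev b : V K) 6 - (ev a : V K) 4 * (ev b : V K) 1 -
      (ev a : V K) 5 * (ev b : V K) 2 - (ev a : V K) 6 * (ev b : V K) 3 = 0
    rw [t 1 4 (by decide), t 2 5 (by decide), t 3 6 (by decide), t 4 1 (by decide),
      t 5 2 (by decide), t 6 3 (by decide)]
    ring
  · show 2 * ((ev a : V K) 0 * (ev b : V K) 1 - (ev b : V K) 0 * (ev a : V K) 1 -
      ((ev a : V K) 5 * (ev b : V K) 6 - (ev a : V K) 6 * (ev b : V K) 5)) = 0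
    rw [t 0 1 (by decide), t' 1 0 (by decide), t 5 6 (by decide), t 6 5 (by decide)]
    ring
  · show 2 * ((ev a : V K) 0 * (ev b : V K) 2 - (ev b : V K) 0 * (ev a : V K) 2 -
      ((ev a : V K) 6 * (ev b : V K) 4 - (ev a : V K) 4 * (ev b : V K) 6)) = 0
    rw [t 0 2 (by decide), t' 2 0 (by decide), t 6 4 (by decide), t 4 6 (by decide)]
    ring
  · show 2 * ((ev a : V K) 0 * (ev b : V K) 3 - (ev b : V K) 0 * (ev a : V K) 3 -
      ((ev a : V K) 4 * (ev b : V K) 5 - (ev a : V K) 5 * (ev b : V K) 4)) = 0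
    rw [t 0 3 (by decide), t' 3 0 (by decide), t 4 5 (by decide), t 5 4 (by decide)]
    ring
  · show 2 * ((ev b : V K) 0 * (ev a : V K) 4 - (ev a : V K) 0 * (ev b : V K) 4 +
      ((ev a : V K) 2 * (ev b : V K) 3 - (ev a : V K) 3 * (ev b : V K) 2)) = 0
    rw [t 0 4 (by decide), t' 4 0 (by decide), t 2 3 (by decide), t 3 2 (by decide)]
    ring
  · show 2 * ((ev b : V K) 0 * (ev a : V K) 5 - (ev a : V K) 0 * (ev b : V K) 5 +
      ((ev a : V K) 3 * (ev b : V K) 1 - (ev a : V K) 1 * (ev b : V K) 3)) = 0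
    rw [t 0 5 (by decide), t' 5 0 (by decide), t 3 1 (by decide), t 1 3 (by decide)]
    ring
  · show 2 * ((ev b : V K) 0 * (ev a : V K) 6 - (ev a : V K) 0 * (ev b : V K) 6 +
      ((ev a : V K) 1 * (ev b : V K) 2 - (ev a : V K) 2 * (ev b : V K) 1)) = 0
    rw [t 0 6 (by decide), t' 6 0 (by decide), t 1 2 (by decide), t 2 1 (by decide)]
    ring

/-- `bf` is homogeneous -/
theorem DeA_bf_hom (a b : Fin 7) (h : wt a + wt b ≠ 0) : bf (ev a : V K) (ev b) = 0 := by
  have t : ∀ p q : Fin 7, wt p + wt q = 0 → (ev a : V K) p * (ev b : V K) q = 0 :=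
    fun p q hpq => DeA_prod (by rw [hpq]; exact h.symm)
  show 2 * (ev a : V K) 0 * (ev b : V K) 0 +
    ((ev a : V K) 1 * (ev b : V K) 4 + (ev a : V K) 4 * (ev b : V K) 1) +
    ((ev a : V K) 2 * (ev b : V K) 5 + (ev a : V K) 5 * (ev b : V K) 2) +
    ((ev a : V K) 3 * (ev b : V K) 6 + (ev a : V K) 6 * (ev b : V K) 3) = 0
  rw [mul_assoc, t 0 0 (by decide), t 1 4 (by decide), t 4 1 (by decide), t 2 5 (by decide),
    t 5 2 (by decide), t 3 6 (by decide), t 6 3 (by decide)]
  ring

theorem DeA_wc_br (v : ℤ × ℤ) (D : V K →ₗ[K] V K) (a b i : Fin 7) :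
    wc v D (br (ev a) (ev b)) i =
      if wt i = wt a + wt b + v then D (br (ev a) (ev b)) i else 0 := by
  have h1 : D (br (ev a) (ev b)) i = ∑ j, br (ev a : V K) (ev b) j * D (ev j) i := by
    conv_lhs => rw [V_sum (br (ev a) (ev b)), map_sum, Finset.sum_apply]
    refine Finset.sum_congr rfl fun k _ => ?_
    rw [map_smul, Pi.smul_apply, smul_eq_mul]
  rw [wc_apply, h1]
  split_ifs with h
  · refine Finset.sum_congr rfl fun j _ => ?_
    by_cases h2 : wt j = wt a + wt b
    · rw [if_pos (by rw [h, h2]), mul_comm]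
    · rw [DeA_br_hom a b j h2, mul_zero, zero_mul, ite_self]
  · refine Finset.sum_eq_zero fun j _ => ?_
    by_cases h2 : wt j = wt a + wt b
    · rw [if_neg (by rw [h2]; exact h)]
    · rw [DeA_br_hom a b j h2, mul_zero, ite_self]

theorem DeA_br_wc_left (v : ℤ × ℤ) (D : V K →ₗ[K] V K) (a b i : Fin 7) :
    br (wc v D (ev a)) (ev b) i =
      if wt i = wt a + wt b + v then br (D (ev a)) (ev b) i else 0 := by
  rw [DeA_br_left, DeA_br_left (D (ev a))]
  split_ifs with h
  · refine Finset.sum_congr rfl fun j _ => ?_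
    by_cases h2 : wt i = wt j + wt b
    · rw [wc_ev, if_pos]
      rw [h] at h2
      have h3 : wt a + v + wt b = wt j + wt b := by rw [← h2]; abel
      exact (add_right_cancel h3).symm
    · rw [DeA_br_hom j b i h2, mul_zero, mul_zero]
  · refine Finset.sum_eq_zero fun j _ => ?_
    by_cases h2 : wt i = wt j + wt b
    · rw [wc_ev, if_neg, zero_mul]
      intro h3
      exact h (by rw [h2, h3]; abel)
    · rw [DeA_br_hom j b i h2, mul_zero]

theorem DeA_br_wc_right (v : ℤ × ℤ) (D : V K →ₗ[K] V K) (a b i : Fin 7) :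
    br (ev a) (wc v D (ev b)) i =
      if wt i = wt a + wt b + v then br (ev a) (D (ev b)) i else 0 := by
  rw [DeA_br_right, DeA_br_right _ (D (ev b))]
  split_ifs with h
  · refine Finset.sum_congr rfl fun j _ => ?_
    by_cases h2 : wt i = wt a + wt j
    · rw [wc_ev, if_pos]
      rw [h] at h2
      have h3 : wt a + (wt b + v) = wt a + wt j := by rw [← h2]; abel
      exact (add_left_cancel h3).symm
    · rw [DeA_br_hom a j i h2, mul_zero, mul_zero]
  · refine Finset.sum_eq_zero fun j _ => ?_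
    by_cases h2 : wt i = wt a + wt j
    · rw [wc_ev, if_neg, zero_mul]
      intro h3
      exact h (by rw [h2, h3]; abel)
    · rw [DeA_br_hom a j i h2, mul_zero]

theorem DeA_bf_wc_left (v : ℤ × ℤ) (D : V K →ₗ[K] V K) (a b : Fin 7) :
    bf (wc v D (ev a)) (ev b) = if wt a + wt b + v = 0 then bf (D (ev a)) (ev b) else 0 := by
  rw [DeA_bf_left, DeA_bf_left (D (ev a))]
  split_ifs with h
  · refine Finset.sum_congr rfl fun j _ => ?_
    by_cases h2 : wt j + wt b = 0
    · rw [wc_ev, if_pos]
      have h3 : wt j + wt b = wt a + v + wt b := by rw [h2, ← h]; abel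
      exact add_right_cancel h3
    · rw [DeA_bf_hom j b h2, mul_zero, mul_zero]
  · refine Finset.sum_eq_zero fun j _ => ?_
    by_cases h2 : wt j + wt b = 0
    · rw [wc_ev, if_neg, zero_mul]
      intro h3
      exact h (by rw [← h2, h3]; abel)
    · rw [DeA_bf_hom j b h2, mul_zero]

theorem DeA_bf_wc_right (v : ℤ × ℤ) (D : V K →ₗ[K] V K) (a b : Fin 7) :
    bf (ev a) (wc v D (ev b)) = if wt a + wt b + v = 0 then bf (ev a) (D (ev b)) else 0 := by
  rw [DeA_bf_right, DeA_bf_right _ (D (ev b))]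
  split_ifs with h
  · refine Finset.sum_congr rfl fun j _ => ?_
    by_cases h2 : wt a + wt j = 0
    · rw [wc_ev, if_pos]
      have h3 : wt a + wt j = wt a + (wt b + v) := by rw [h2, ← h]; abel
      exact add_left_cancel h3
    · rw [DeA_bf_hom a j h2, mul_zero, mul_zero]
  · refine Finset.sum_eq_zero fun j _ => ?_
    by_cases h2 : wt a + wt j = 0
    · rw [wc_ev, if_neg, zero_mul]
      intro h3
      exact h (by rw [← h2, h3]; abel)
    · rw [DeA_bf_hom a j h2, mul_zero]

theorem wc_IsD {D : V K →ₗ[K] V K} (hD : IsD D) (v : ℤ × ℤ) : IsD (wc v D) := by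
  constructor
  · have key : DeA_brL.compr₂ (wc v D) =
        DeA_brL.comp (wc v D) + DeA_brL.compl₂ (wc v D) := by
      refine DeA_ext fun a => DeA_ext fun b => funext fun i => ?_
      show wc v D (br (ev a) (ev b)) i =
        br (wc v D (ev a)) (ev b) i + br (ev a) (wc v D (ev b)) i
      rw [DeA_wc_br, DeA_br_wc_left, DeA_br_wc_right, hD.1]
      split_ifs
      · rfl
      · rw [add_zero]
    intro x y
    exact congrArg (fun f : V K →ₗ[K] V K →ₗ[K] V K => f x y) key
  · have key : DeA_bfL.comp (wc v D) + DeA_bfL.compl₂ (wc v D) = 0 := by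
      refine DeA_ext fun a => DeA_ext fun b => ?_
      show bf (wc v D (ev a)) (ev b) + bf (ev a) (wc v D (ev b)) = 0
      rw [DeA_bf_wc_left, DeA_bf_wc_right]
      split_ifs
      · exact hD.2 _ _
      · rw [add_zero]
    intro x y
    exact congrArg (fun f : V K →ₗ[K] V K →ₗ[K] K => f x y) key

end Pool.Agent.H40.GT
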