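import Pool.Agent.H40.GT.DeA

/-!
# Part DeB (of DeA, DeB, DeC); GT-14 derivations and their weight components

`IsD D`: `D` is a derivation of `br`, skew for `bf`.
`wc v D` = the component of weight `v`: `(wc v D x) i = ∑ j, if wt i = wt j + v then D (ev j) i * x j`.
Every `D` is the sum of the `wc (wt i - wt j) D`.

* `wc_IsD`: `br` and `bf` are homogeneous for the weights (`br (ev i) (ev j)` is a multiple of an
  `ev k` with `wt k = wt i + wt j`, or zero; `bf (ev i) (ev j) = 0` unless `wt i + wt j = 0`), so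
  the weight components of a derivation are derivations (compare the components of weight
  `v + wt i + wt j` in `D (br e_i e_j) = br (D e_i) e_j + br e_i (D e_j)`).
* `IsD_weight`: let `D` be a derivation of weight `v ≠ 0`.  Then `v = rt r` and `D` is a multiple of
  `Nl r` (`der_weight`), or `D = 0`: `v` must be a difference of two weights, so (finite check)
  it is a root or `2 * ` a short root or the map is zero; in the last case only `D e_-i = c e_i` is
  possible (`v = 2 wt i`), and `bf (D e_-i) e_-i + bf e_-i (D e_-i) = 2 c = 0`.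
* `IsD_comp`: `D` commutes with `tor t` for all `t ∈ B` iff all components do; the component
  `wc v D` satisfies `tor t * (wc v D) * (tor t)⁻¹ = ch v t • wc v D`.  So if `D` commutes with
  `tor t`, then `wc v D = 0` or `ch v t = 1`.
* `lead_IsD`: let `u ∈ GG`, `k > 0`, and suppose that `u - 1` raises the degrees by at least `k`
  (`u (ev j) i = ev j i` whenever `dg d i < dg d j + k`).  The map
  `ld d k u x i = ∑ j, if dg d i = dg d j + k then u (ev j) i * x j else 0` is a derivation: compare the
  components of degree `dg i + dg j + k` in `u (br e_i e_j) = br (u e_i) (u e_j)`, `bf` alike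
  (`2 k > k`).
* `ld_mul`: for two such elements `ld (u u') = ld u + ld u'`.
-/

namespace Pool.Agent.H40.GT

variable {K : Type} [Field K]

theorem Nl_IsD (r : Rt) : IsD (Nl r : V K →ₗ[K] V K) := ⟨Nl_br r, Nl_bf r⟩

/-- the negative of a coordinate -/
def DeB_ng : Fin 7 → Fin 7 := ![0, 4, 5, 6, 1, 2, 3]

theorem DeB_tab : ∀ i j : Fin 7, wt i - wt j ≠ 0 → (∃ r : Rt, rt r = wt i - wt j) ∨
    (j ≠ 0 ∧ i = DeB_ng j) := by
  decide +kernel

theorem DeB_bf_right (x : V K) (j : Fin 7) (hj : j ≠ 0) : bf x (ev j) = x (DeB_ng j) := by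
  fin_cases j
  · exact absurd rfl hj
  all_goals simp [bf, ev, DeB_ng]

theorem DeB_bf_left (x : V K) (j : Fin 7) (hj : j ≠ 0) : bf (ev j) x = x (DeB_ng j) := by
  fin_cases j
  · exact absurd rfl hj
  all_goals simp [bf, ev, DeB_ng]

theorem DeB_sum (x : V K) : x = ∑ i : Fin 7, x i • ev i := by
  ext k
  rw [Finset.sum_apply, Finset.sum_eq_single k]
  · simp [ev]
  · intro b _ hb
    simp [ev, Ne.symm hb]
  · intro h
    exact absurd (Finset.mem_univ k) h

theorem DeB_zero {f : V K →ₗ[K] V K} (h : ∀ j i, f (ev j) i = 0) : f = 0 := by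
  apply LinearMap.ext
  intro x
  rw [DeB_sum x, map_sum, map_sum]
  apply Finset.sum_congr rfl
  intro j _
  rw [map_smul, LinearMap.map_smul, LinearMap.zero_apply]
  congr 1
  ext i
  rw [h, Pi.zero_apply]

theorem DeB_neg (h2 : (2 : K) ≠ 0) {D : V K →ₗ[K] V K} (hD : IsD D) {j : Fin 7} (hj : j ≠ 0) :
    D (ev j) (DeB_ng j) = 0 := by
  have h1 := hD.2 (ev j) (ev j)
  rw [DeB_bf_right _ _ hj, DeB_bf_left _ _ hj, ← two_mul] at h1
  exact (mul_eq_zero.mp h1).resolve_left h2

/-- derivations of nonzero weight -/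
theorem IsD_weight (h2 : (2 : K) ≠ 0) {D : V K →ₗ[K] V K} (hD : IsD D) {v : ℤ × ℤ} (hv : v ≠ 0) :
    wc v D = 0 ∨ ∃ r, rt r = v ∧ ∃ c : K, wc v D = c • Nl r := by
  by_cases hr : ∃ r, rt r = v
  · right
    obtain ⟨r, hr⟩ := hr
    refine ⟨r, hr, ?_⟩
    have h3 := wc_IsD hD v
    apply der_weight h2 r (wc v D) h3.1 h3.2
    intro j i hij
    rw [wc_ev, if_neg]
    rw [← hr]
    exact hij
  · left
    apply DeB_zero
    intro j i
    by_cases hij : wt i = wt j + v
    · have h4 : wt i - wt j = v := by
        rw [hij]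
        exact add_sub_cancel_left _ _
      rcases DeB_tab i j (by rw [h4]; exact hv) with h5 | h5
      · rw [h4] at h5
        exact absurd h5 hr
      · rw [h5.2]
        exact DeB_neg h2 (wc_IsD hD v) h5.1
    · rw [wc_ev, if_neg hij]

theorem wc_tor {D : V K →ₗ[K] V K} {t : Kˣ × Kˣ} (h : ∀ x, D (tor t x) = tor t (D x))
    (v : ℤ × ℤ) : wc v D = 0 ∨ ch v t = 1 := by
  by_cases hv : ch v t = 1
  · right
    exact hv
  · left
    apply DeB_zero
    intro j i
    rw [wc_ev]
    by_cases hij : wt i = wt j + v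
    · rw [if_pos hij]
      have h1 := congrFun (h (ev j)) i
      have h3 : tor t (ev j : V K) = (ch (wt j) t : K) • ev j := by
        ext k
        rw [tor_apply, Pi.smul_apply, smul_eq_mul]
        by_cases hk : k = j
        · rw [hk]
        · simp [ev, hk]
      rw [h3, map_smul, Pi.smul_apply, smul_eq_mul, tor_apply, hij, ch_add, Units.val_mul,
        mul_assoc] at h1
      have h4 := mul_left_cancel₀ (Units.ne_zero _) h1
      by_contra h5
      apply hv
      have h6 : (ch v t : K) = 1 := by
        apply mul_right_cancel₀ h5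
        rw [one_mul]
        exact h4.symm
      exact Units.ext h6
    · rw [if_neg hij]

end Pool.Agent.H40.GT
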