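import Pool.Agent.H40.GT.DeB

/-!
# Part DeC (of DeA, DeB, DeC); GT-14 derivations and their weight components

`IsD D`: `D` is a derivation of `br`, skew for `bf`.
`wc v D` = the component of weight `v`: `(wc v D x) i = ∑ j, if wt i = wt j + v then D (ev j) i * x j`.
Every `D` is the sum of the `wc (wt i - wt j) D`.

* `wc_IsD`: `br` and `bf` are homogeneous for the weights (`br (ev i) (ev j)` is a multiple of an
  `ev k` with `wt k = wt i + wt j`, or zero; `bf (ev i) (ev j) = 0` unless `wt i + wt j = 0`), so
  the weight components of a derivation are derivations (compare the components of weight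
  `v + wt i + wt j` in `D (br e_i e_j) = br (D e_i) e_j + br e_i (D e_j)`).
* `IsD_weight`: let `D` be a derivation of weight `v ≠ 0`.  Then `v = rt r` and `D` is a multiple of
  `Nl r` (`der_weight`), or `D = 0`: `v` must be a difference of two weights, so (finite check)
  it is a root or `2 * ` a short root or the map is zero; in the last case only `D e_-i = c e_i` is
  possible (`v = 2 wt i`), and `bf (D e_-i) e_-i + bf e_-i (D e_-i) = 2 c = 0`.
* `IsD_comp`: `D` commutes with `tor t` for all `t ∈ B` iff all components do; the component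
  `wc v D` satisfies `tor t * (wc v D) * (tor t)⁻¹ = ch v t • wc v D`.  So if `D` commutes with
  `tor t`, then `wc v D = 0` or `ch v t = 1`.
* `lead_IsD`: let `u ∈ GG`, `k > 0`, and suppose that `u - 1` raises the degrees by at least `k`
  (`u (ev j) i = ev j i` whenever `dg d i < dg d j + k`).  The map
  `ld d k u x i = ∑ j, if dg d i = dg d j + k then u (ev j) i * x j else 0` is a derivation: compare the
  components of degree `dg i + dg j + k` in `u (br e_i e_j) = br (u e_i) (u e_j)`, `bf` alike
  (`2 k > k`).
* `ld_mul`: for two such elements `ld (u u') = ld u + ld u'`.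
-/

namespace Pool.Agent.H40.GT

variable {K : Type} [Field K]

theorem DeC_br_zero {x y : V K} {m : Fin 7} (T : ∀ a b, wt a + wt b = wt m → x a * y b = 0) :
    br x y m = 0 := by
  fin_cases m
  · show x 1 * y 4 + x 2 * y 5 + x 3 * y 6 - x 4 * y 1 - x 5 * y 2 - x 6 * y 3 = 0
    linear_combination T 1 4 (by decide) + T 2 5 (by decide) + T 3 6 (by decide)
      - T 4 1 (by decide) - T 5 2 (by decide) - T 6 3 (by decide)
  · show 2 * (x 0 * y 1 - y 0 * x 1 - (x 5 * y 6 - x 6 * y 5)) = 0
    linear_combination 2 * T 0 1 (by decide) - 2 * T 1 0 (by decide) - 2 * T 5 6 (by decide)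
      + 2 * T 6 5 (by decide)
  · show 2 * (x 0 * y 2 - y 0 * x 2 - (x 6 * y 4 - x 4 * y 6)) = 0
    linear_combination 2 * T 0 2 (by decide) - 2 * T 2 0 (by decide) - 2 * T 6 4 (by decide)
      + 2 * T 4 6 (by decide)
  · show 2 * (x 0 * y 3 - y 0 * x 3 - (x 4 * y 5 - x 5 * y 4)) = 0
    linear_combination 2 * T 0 3 (by decide) - 2 * T 3 0 (by decide) - 2 * T 4 5 (by decide)
      + 2 * T 5 4 (by decide)
  · show 2 * (y 0 * x 4 - x 0 * y 4 + (x 2 * y 3 - x 3 * y 2)) = 0
    linear_combination 2 * T 4 0 (by decide) - 2 * T 0 4 (by decide) + 2 * T 2 3 (by decide)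
      - 2 * T 3 2 (by decide)
  · show 2 * (y 0 * x 5 - x 0 * y 5 + (x 3 * y 1 - x 1 * y 3)) = 0
    linear_combination 2 * T 5 0 (by decide) - 2 * T 0 5 (by decide) + 2 * T 3 1 (by decide)
      - 2 * T 1 3 (by decide)
  · show 2 * (y 0 * x 6 - x 0 * y 6 + (x 1 * y 2 - x 2 * y 1)) = 0
    linear_combination 2 * T 6 0 (by decide) - 2 * T 0 6 (by decide) + 2 * T 1 2 (by decide)
      - 2 * T 2 1 (by decide)

theorem DeC_bf_zero {x y : V K} (T : ∀ a b, wt a + wt b = 0 → x a * y b = 0) :
    bf x y = 0 := by
  show 2 * x 0 * y 0 + (x 1 * y 4 + x 4 * y 1) + (x 2 * y 5 + x 5 * y 2)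
    + (x 3 * y 6 + x 6 * y 3) = 0
  linear_combination 2 * T 0 0 (by decide) + T 1 4 (by decide) + T 4 1 (by decide)
    + T 2 5 (by decide) + T 5 2 (by decide) + T 3 6 (by decide) + T 6 3 (by decide)

theorem DeC_dg {d : ℤ × ℤ} {a b m : Fin 7} (h : wt a + wt b = wt m) :
    dg d a + dg d b = dg d m := by
  have h1 : (wt a).1 + (wt b).1 = (wt m).1 := congrArg Prod.fst h
  have h2 : (wt a).2 + (wt b).2 = (wt m).2 := congrArg Prod.snd h
  unfold dg
  rw [← h1, ← h2]
  ring

theorem DeC_dg0 {d : ℤ × ℤ} {a b : Fin 7} (h : wt a + wt b = 0) :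
    dg d a + dg d b = 0 := by
  have h1 : (wt a).1 + (wt b).1 = 0 := congrArg Prod.fst h
  have h2 : (wt a).2 + (wt b).2 = 0 := congrArg Prod.snd h
  unfold dg
  linear_combination d.1 * h1 + d.2 * h2

theorem DeC_br_add (x x' y : V K) : br (x + x') y = br x y + br x' y := by
  ext i
  fin_cases i <;> simp [br] <;> ring

theorem DeC_br_add' (x y y' : V K) : br x (y + y') = br x y + br x y' := by
  ext i
  fin_cases i <;> simp [br] <;> ring

theorem DeC_br_smul (c : K) (x y : V K) : br (c • x) y = c • br x y := by
  ext i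
  fin_cases i <;> simp [-mul_eq_mul_left_iff, br] <;> ring

theorem DeC_br_smul' (c : K) (x y : V K) : br x (c • y) = c • br x y := by
  ext i
  fin_cases i <;> simp [-mul_eq_mul_left_iff, br] <;> ring

theorem DeC_bf_add (x x' y : V K) : bf (x + x') y = bf x y + bf x' y := by
  simp [bf]
  ring

theorem DeC_bf_add' (x y y' : V K) : bf x (y + y') = bf x y + bf x y' := by
  simp [bf]
  ring

theorem DeC_bf_smul (c : K) (x y : V K) : bf (c • x) y = c • bf x y := by
  simp [-mul_eq_mul_left_iff, bf]
  ring

theorem DeC_bf_smul' (c : K) (x y : V K) : bf x (c • y) = c • bf x y := by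
  simp [-mul_eq_mul_left_iff, bf]
  ring

/-- a linear map with the two identities on the coordinate vectors is a derivation -/
theorem DeC_IsD {D : V K →ₗ[K] V K}
    (h1 : ∀ i j, D (br (ev i) (ev j)) = br (D (ev i)) (ev j) + br (ev i) (D (ev j)))
    (h2 : ∀ i j, bf (D (ev i)) (ev j) + bf (ev i) (D (ev j)) = 0) : IsD D := by
  let b : V K →ₗ[K] V K →ₗ[K] V K :=
    LinearMap.mk₂ K br DeC_br_add DeC_br_smul DeC_br_add' DeC_br_smul'
  let f : V K →ₗ[K] V K →ₗ[K] K :=
    LinearMap.mk₂ K bf DeC_bf_add DeC_bf_smul DeC_bf_add' DeC_bf_smul'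
  have hb : ∀ x y, b x y = br x y := fun x y => rfl
  have hf : ∀ x y, f x y = bf x y := fun x y => rfl
  have he : ∀ j, (Pi.basisFun K (Fin 7)) j = ev j := by
    intro j
    simp [ev]
  constructor
  · have h3 : (b.compr₂ D) = b.comp D + b.compl₂ D := by
      refine (Pi.basisFun K (Fin 7)).ext fun i => (Pi.basisFun K (Fin 7)).ext fun j => ?_
      rw [he, he]
      exact h1 i j
    intro x y
    exact congrArg (fun g : V K →ₗ[K] V K →ₗ[K] V K => g x y) h3
  · have h3 : f.comp D + f.compl₂ D = 0 := by
      refine (Pi.basisFun K (Fin 7)).ext fun i => (Pi.basisFun K (Fin 7)).ext fun j => ?_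
      rw [he, he]
      exact h2 i j
    intro x y
    exact congrArg (fun g : V K →ₗ[K] V K →ₗ[K] K => g x y) h3

theorem DeC_lin (U : V K →ₗ[K] V K) (x : V K) (m : Fin 7) :
    U x m = ∑ a, x a * U (ev a) m := by
  conv_lhs => rw [V_sum x, map_sum]
  rw [Finset.sum_apply]
  refine Finset.sum_congr rfl fun a _ => ?_
  rw [map_smul, Pi.smul_apply, smul_eq_mul]

/-- the part of degree `k` of an endomorphism -/
def ld (d : ℤ × ℤ) (k : ℤ) (D : V K →ₗ[K] V K) : V K →ₗ[K] V K where
  toFun x := fun i => ∑ j, if dg d i = dg d j + k then D (ev j) i * x j else 0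
  map_add' := by
    intro x y
    funext i
    rw [Pi.add_apply, ← Finset.sum_add_distrib]
    refine Finset.sum_congr rfl fun j _ => ?_
    rw [Pi.add_apply]
    split_ifs
    · ring
    · rw [add_zero]
  map_smul' := by
    intro c x
    funext i
    rw [Pi.smul_apply, smul_eq_mul, Finset.mul_sum]
    refine Finset.sum_congr rfl fun j _ => ?_
    rw [Pi.smul_apply, smul_eq_mul, RingHom.id_apply]
    split_ifs
    · ring
    · rw [mul_zero]

theorem DeC_ld_apply (d : ℤ × ℤ) (k : ℤ) (D : V K →ₗ[K] V K) (x : V K) (i : Fin 7) :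
    ld d k D x i = ∑ j, if dg d i = dg d j + k then D (ev j) i * x j else 0 := rfl

theorem ld_ev (d : ℤ × ℤ) (k : ℤ) (D : V K →ₗ[K] V K) (i j : Fin 7) :
    ld d k D (ev j) i = if dg d i = dg d j + k then D (ev j) i else 0 := by
  rw [DeC_ld_apply, Finset.sum_eq_single j]
  · rw [ev_same, mul_one]
  · intro a _ ha
    rw [ev_ne ha, mul_zero, ite_self]
  · intro h
    exact absurd (Finset.mem_univ j) h

theorem ld_tor {d : ℤ × ℤ} {k : ℤ} {D : V K →ₗ[K] V K} {t : Kˣ × Kˣ}
    (h : ∀ x, D (tor t x) = tor t (D x)) (x : V K) : ld d k D (tor t x) = tor t (ld d k D x) := by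
  funext i
  rw [tor_apply, DeC_ld_apply, DeC_ld_apply, Finset.mul_sum]
  refine Finset.sum_congr rfl fun j _ => ?_
  split_ifs
  · have h1 := congrFun (h (ev j)) i
    rw [tor_ev, map_smul, Pi.smul_apply, smul_eq_mul, tor_apply] at h1
    rw [tor_apply]
    linear_combination (x j) * h1
  · rw [mul_zero]

/-- the leading part of a unipotent element is a derivation -/
theorem lead_IsD {d : ℤ × ℤ} {k : ℤ} (hk : 0 < k) {u : EE K} (hu : u ∈ GG K)
    (h : ∀ i j, dg d i < dg d j + k → u (ev j) i = (ev j : V K) i) :
    IsD (ld d k (u : V K →ₗ[K] V K)) := by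
  obtain ⟨hbr, hbf⟩ := hu
  set D : V K →ₗ[K] V K := ld d k (u : V K →ₗ[K] V K) with hDdef
  have hDe : ∀ j a, D (ev j) a = if dg d a = dg d j + k then u (ev j) a else 0 :=
    fun j a => ld_ev d k _ a j
  have hD : ∀ j a, dg d a ≠ dg d j + k → D (ev j) a = 0 := by
    intro j a ha
    rw [hDe, if_neg ha]
  have hDu : ∀ j a, dg d a = dg d j + k → D (ev j) a = u (ev j) a := by
    intro j a ha
    rw [hDe, if_pos ha]
  obtain ⟨w, hw⟩ : ∃ w : Fin 7 → V K, ∀ j, w j = u (ev j) - ev j := ⟨_, fun j => rfl⟩
  obtain ⟨R, hR⟩ : ∃ R : Fin 7 → V K, ∀ j, R j = w j - D (ev j) := ⟨_, fun j => rfl⟩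
  have hw0 : ∀ j a, dg d a < dg d j + k → w j a = 0 := by
    intro j a ha
    rw [hw, Pi.sub_apply, h a j ha, sub_self]
  have hR0 : ∀ j a, dg d a ≤ dg d j + k → R j a = 0 := by
    intro j a ha
    rw [hR, Pi.sub_apply]
    rcases lt_or_eq_of_le ha with h1 | h1
    · rw [hw0 j a h1, hD j a h1.ne, sub_self]
    · have h2 : a ≠ j := by
        rintro rfl
        omega
      rw [hDu j a h1, hw, Pi.sub_apply, ev_ne h2, sub_zero, sub_self]
  have hu1 : ∀ j, u (ev j) = ev j + w j := by
    intro j
    rw [hw]
    abel
  have hw1 : ∀ j, w j = D (ev j) + R j := by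
    intro j
    rw [hR]
    abel
  have hev : ∀ i a : Fin 7, a = i ∨ (ev i : V K) a = 0 := by
    intro i a
    by_cases hi : a = i
    · exact Or.inl hi
    · exact Or.inr (ev_ne hi)
  apply DeC_IsD
  · intro i j
    funext m
    rw [Pi.add_apply]
    by_cases hm : dg d m = dg d i + dg d j + k
    · have h1 := congrFun (hbr (ev i) (ev j)) m
      have h2 : u (br (ev i) (ev j)) m = D (br (ev i) (ev j)) m := by
        have e1 : u (br (ev i) (ev j)) m = ∑ a, br (ev i) (ev j) a * u (ev a) m :=
          DeC_lin (u : V K →ₗ[K] V K) _ m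
        rw [e1, DeC_lin D]
        refine Finset.sum_congr rfl fun a _ => ?_
        by_cases ha : dg d m = dg d a + k
        · rw [hDu a m ha]
        · have h3 : br (ev i : V K) (ev j) a = 0 := by
            apply DeC_br_zero
            intro b c hbc
            rcases hev i b with h4 | h4
            · rcases hev j c with h5 | h5
              · exfalso
                have h6 := DeC_dg (d := d) hbc
                rw [h4, h5] at h6
                omega
              · rw [h5, mul_zero]
            · rw [h4, zero_mul]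
          rw [h3, zero_mul, zero_mul]
      rw [h2, hu1 i, hu1 j, DeC_br_add, DeC_br_add', DeC_br_add'] at h1
      have t1 : br (ev i : V K) (ev j) m = 0 := by
        apply DeC_br_zero
        intro b c hbc
        rcases hev i b with h4 | h4
        · rcases hev j c with h5 | h5
          · exfalso
            have h6 := DeC_dg (d := d) hbc
            rw [h4, h5] at h6
            omega
          · rw [h5, mul_zero]
        · rw [h4, zero_mul]
      have t2 : br (w i) (w j) m = 0 := by
        apply DeC_br_zero
        intro b c hbc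
        have h6 := DeC_dg (d := d) hbc
        by_cases h7 : dg d b < dg d i + k
        · rw [hw0 i b h7, zero_mul]
        · rw [hw0 j c (by omega), mul_zero]
      have t3 : br (ev i) (R j) m = 0 := by
        apply DeC_br_zero
        intro b c hbc
        have h6 := DeC_dg (d := d) hbc
        rcases hev i b with h4 | h4
        · rw [h4] at h6
          rw [hR0 j c (by omega), mul_zero]
        · rw [h4, zero_mul]
      have t4 : br (R i) (ev j) m = 0 := by
        apply DeC_br_zero
        intro b c hbc
        have h6 := DeC_dg (d := d) hbc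
        rcases hev j c with h4 | h4
        · rw [h4] at h6
          rw [hR0 i b (by omega), zero_mul]
        · rw [h4, mul_zero]
      have t5 : br (ev i) (w j) m = br (ev i) (D (ev j)) m := by
        rw [hw1 j, DeC_br_add', Pi.add_apply, t3, add_zero]
      have t6 : br (w i) (ev j) m = br (D (ev i)) (ev j) m := by
        rw [hw1 i, DeC_br_add, Pi.add_apply, t4, add_zero]
      rw [Pi.add_apply, Pi.add_apply, Pi.add_apply, t1, t2, t5, t6] at h1
      rw [h1]
      ring
    · have t1 : D (br (ev i) (ev j)) m = 0 := by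
        rw [DeC_lin D]
        refine Finset.sum_eq_zero fun a _ => ?_
        by_cases ha : dg d m = dg d a + k
        · have h3 : br (ev i : V K) (ev j) a = 0 := by
            apply DeC_br_zero
            intro b c hbc
            rcases hev i b with h4 | h4
            · rcases hev j c with h5 | h5
              · exfalso
                have h6 := DeC_dg (d := d) hbc
                rw [h4, h5] at h6
                omega
              · rw [h5, mul_zero]
            · rw [h4, zero_mul]
          rw [h3, zero_mul]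
        · rw [hD a m ha, mul_zero]
      have t2 : br (D (ev i)) (ev j) m = 0 := by
        apply DeC_br_zero
        intro b c hbc
        have h6 := DeC_dg (d := d) hbc
        rcases hev j c with h4 | h4
        · rw [h4] at h6
          rw [hD i b (by omega), zero_mul]
        · rw [h4, mul_zero]
      have t3 : br (ev i) (D (ev j)) m = 0 := by
        apply DeC_br_zero
        intro b c hbc
        have h6 := DeC_dg (d := d) hbc
        rcases hev i b with h4 | h4
        · rw [h4] at h6
          rw [hD j c (by omega), mul_zero]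
        · rw [h4, zero_mul]
      rw [t1, t2, t3, add_zero]
  · intro i j
    by_cases hm : dg d i + dg d j + k = 0
    · have h1 := hbf (ev i) (ev j)
      rw [hu1 i, hu1 j, DeC_bf_add, DeC_bf_add', DeC_bf_add'] at h1
      have t2 : bf (w i) (w j) = 0 := by
        apply DeC_bf_zero
        intro b c hbc
        have h6 := DeC_dg0 (d := d) hbc
        by_cases h7 : dg d b < dg d i + k
        · rw [hw0 i b h7, zero_mul]
        · rw [hw0 j c (by omega), mul_zero]
      have t3 : bf (ev i) (R j) = 0 := by
        apply DeC_bf_zero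
        intro b c hbc
        have h6 := DeC_dg0 (d := d) hbc
        rcases hev i b with h4 | h4
        · rw [h4] at h6
          rw [hR0 j c (by omega), mul_zero]
        · rw [h4, zero_mul]
      have t4 : bf (R i) (ev j) = 0 := by
        apply DeC_bf_zero
        intro b c hbc
        have h6 := DeC_dg0 (d := d) hbc
        rcases hev j c with h4 | h4
        · rw [h4] at h6
          rw [hR0 i b (by omega), zero_mul]
        · rw [h4, mul_zero]
      have t5 : bf (ev i) (w j) = bf (ev i) (D (ev j)) := by
        rw [hw1 j, DeC_bf_add', t3, add_zero]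
      have t6 : bf (w i) (ev j) = bf (D (ev i)) (ev j) := by
        rw [hw1 i, DeC_bf_add, t4, add_zero]
      rw [t2, t5, t6] at h1
      linear_combination h1
    · have t2 : bf (D (ev i)) (ev j) = 0 := by
        apply DeC_bf_zero
        intro b c hbc
        have h6 := DeC_dg0 (d := d) hbc
        rcases hev j c with h4 | h4
        · rw [h4] at h6
          rw [hD i b (by omega), zero_mul]
        · rw [h4, mul_zero]
      have t3 : bf (ev i) (D (ev j)) = 0 := by
        apply DeC_bf_zero
        intro b c hbc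
        have h6 := DeC_dg0 (d := d) hbc
        rcases hev i b with h4 | h4
        · rw [h4] at h6
          rw [hD j c (by omega), mul_zero]
        · rw [h4, zero_mul]
      rw [t2, t3, add_zero]

theorem ld_mul {d : ℤ × ℤ} {k : ℤ} (hk : 0 < k) {u u' : EE K}
    (h : ∀ i j, dg d i < dg d j + k → u (ev j) i = (ev j : V K) i)
    (h' : ∀ i j, dg d i < dg d j + k → u' (ev j) i = (ev j : V K) i) :
    (∀ i j, dg d i < dg d j + k → (u * u') (ev j) i = (ev j : V K) i) ∧
    ld d k ((u * u' : EE K) : V K →ₗ[K] V K) = ld d k (u : V K →ₗ[K] V K) +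
      ld d k (u' : V K →ₗ[K] V K) := by
  have hone : ∀ j : Fin 7, u (ev j) j = 1 := by
    intro j
    rw [h j j (by omega), ev_same]
  have hone' : ∀ j : Fin 7, u' (ev j) j = 1 := by
    intro j
    rw [h' j j (by omega), ev_same]
  constructor
  · intro i j hij
    rw [FiA_mul, Finset.sum_eq_single j]
    · rw [hone', one_mul, h i j hij]
    · intro a _ ha
      by_cases h1 : dg d a < dg d j + k
      · rw [h' a j h1, ev_ne ha, zero_mul]
      · rw [h i a (by omega)]
        have h2 : i ≠ a := by
          rintro rfl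
          omega
        rw [ev_ne h2, mul_zero]
    · intro h1
      exact absurd (Finset.mem_univ j) h1
  · apply (Pi.basisFun K (Fin 7)).ext
    intro j
    have he : (Pi.basisFun K (Fin 7)) j = ev j := by
      simp [ev]
    rw [he]
    funext i
    rw [LinearMap.add_apply, Pi.add_apply, ld_ev, ld_ev, ld_ev]
    split_ifs with hij
    · show (u * u') (ev j) i = u (ev j) i + u' (ev j) i
      have hji : j ≠ i := by
        rintro rfl
        omega
      rw [FiA_mul, Fintype.sum_eq_add j i hji]
      · rw [hone', hone, one_mul, mul_one]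
      · rintro a ⟨ha, ha'⟩
        by_cases h1 : dg d a < dg d j + k
        · rw [h' a j h1, ev_ne ha, zero_mul]
        · rw [h i a (by omega), ev_ne (Ne.symm ha'), mul_zero]
    · rw [add_zero]

theorem ld_X (d : ℤ × ℤ) (r : Rt) (s : K) (hr : 0 < dr d r) :
    ld d (dr d r) (X r s : V K →ₗ[K] V K) = s • Nl r := by
  apply (Pi.basisFun K (Fin 7)).ext
  intro j
  have he : (Pi.basisFun K (Fin 7)) j = ev j := by
    simp [ev]
  rw [he]
  funext i
  rw [ld_ev, LinearMap.smul_apply, Pi.smul_apply, smul_eq_mul]
  split_ifs with hij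
  · show X r s (ev j) i = s * Nl r (ev j) i
    have hji : i ≠ j := by
      rintro rfl
      omega
    have e1 : X r s (ev j) i = (ev j : V K) i + s * Nl r (ev j) i + s ^ 2 * Ql r (ev j) i := rfl
    have e2 : Ql r (ev j : V K) i = 0 := by
      apply Ql_ev
      intro h1
      have h2 : (wt i).1 = (wt j).1 + (rt r).1 + (rt r).1 := congrArg Prod.fst h1
      have h3 : (wt i).2 = (wt j).2 + (rt r).2 + (rt r).2 := congrArg Prod.snd h1
      have h4 : dg d i = dg d j + dr d r + dr d r := by
        unfold dg dr
        rw [h2, h3]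
        ring
      omega
    rw [e1, e2, ev_ne hji]
    ring
  · rw [Nl_ev, mul_zero]
    intro h1
    apply hij
    have h2 : (wt i).1 = (wt j).1 + (rt r).1 := congrArg Prod.fst h1
    have h3 : (wt i).2 = (wt j).2 + (rt r).2 := congrArg Prod.snd h1
    unfold dg dr
    rw [h2, h3]
    ring

end Pool.Agent.H40.GT
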