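import Mathlib

/-!
# Project GT: overgroups of the split torus in G_2(q), q = 7, 11

`V K = K^7` with coordinates `0,1,2,3,4,5,6` for the basis vectors
`e_0, e_1, e_2, e_3, e_-1, e_-2, e_-3` of the trace zero part of the Zorn algebra.
`br` is the commutator, `bf` the polar form of (minus) the norm.
`GG` = linear automorphisms of `V K` preserving `br` and `bf` (this is `G_2(K)`).
`wt` = weights (basis of the lattice `ℤ × ℤ` = weights of `e_1`, `e_2`), `rt` = the 12 roots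
(`0..5` long, `6..11` short, `2k` and `2k+1` opposite), `X r s` = root elements,
`tor` = the split torus, `TT` its image, `NN` = elements of `GG` permuting the seven coordinate
lines.
-/

namespace Pool.Agent.H40.GT

/-- the seven dimensional module -/
abbrev V (K : Type) : Type := Fin 7 → K

variable {K : Type} [Field K]

/-- the commutator on trace zero octonions -/
def br (x y : V K) : V K :=
  ![x 1 * y 4 + x 2 * y 5 + x 3 * y 6 - x 4 * y 1 - x 5 * y 2 - x 6 * y 3,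
    2 * (x 0 * y 1 - y 0 * x 1 - (x 5 * y 6 - x 6 * y 5)),
    2 * (x 0 * y 2 - y 0 * x 2 - (x 6 * y 4 - x 4 * y 6)),
    2 * (x 0 * y 3 - y 0 * x 3 - (x 4 * y 5 - x 5 * y 4)),
    2 * (y 0 * x 4 - x 0 * y 4 + (x 2 * y 3 - x 3 * y 2)),
    2 * (y 0 * x 5 - x 0 * y 5 + (x 3 * y 1 - x 1 * y 3)),
    2 * (y 0 * x 6 - x 0 * y 6 + (x 1 * y 2 - x 2 * y 1))]

/-- the symmetric bilinear form -/
def bf (x y : V K) : K :=
  2 * x 0 * y 0 + (x 1 * y 4 + x 4 * y 1) + (x 2 * y 5 + x 5 * y 2) + (x 3 * y 6 + x 6 * y 3)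

/-- linear automorphisms of the module -/
abbrev EE (K : Type) [Field K] : Type := V K ≃ₗ[K] V K

/-- the group `G_2(K)` -/
def GG (K : Type) [Field K] : Subgroup (EE K) where
  carrier := {g | (∀ x y, g (br x y) = br (g x) (g y)) ∧ ∀ x y, bf (g x) (g y) = bf x y}
  one_mem' := ⟨fun _ _ => rfl, fun _ _ => rfl⟩
  mul_mem' := by
    rintro a b ⟨h1, h2⟩ ⟨h3, h4⟩
    refine ⟨fun x y => ?_, fun x y => ?_⟩
    · rw [LinearEquiv.mul_apply, LinearEquiv.mul_apply, LinearEquiv.mul_apply, h3, h1]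
    · rw [LinearEquiv.mul_apply, LinearEquiv.mul_apply, h2, h4]
  inv_mem' := by
    rintro a ⟨h1, h2⟩
    have e1 : ∀ x, a (a⁻¹ x) = x := fun x => a.apply_symm_apply x
    refine ⟨fun x y => ?_, fun x y => ?_⟩
    · apply a.injective
      rw [e1, h1, e1, e1]
    · rw [← h2, e1, e1]

/-- the weights of the coordinate vectors -/
def wt : Fin 7 → ℤ × ℤ := ![(0, 0), (1, 0), (0, 1), (-1, -1), (-1, 0), (0, -1), (1, 1)]

/-- names of the roots: `0..5` long, `6..11` short -/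
abbrev Rt : Type := Fin 12

/-- the roots -/
def rt : Rt → ℤ × ℤ :=
  ![(1, -1), (-1, 1), (2, 1), (-2, -1), (1, 2), (-1, -2),
    (1, 0), (-1, 0), (0, 1), (0, -1), (-1, -1), (1, 1)]

/-- the negative of a root -/
def ng : Rt → Rt := ![1, 0, 3, 2, 5, 4, 7, 6, 9, 8, 11, 10]

/-- sources of the root vectors -/
def sc : Rt → Fin 7 → Fin 7 :=
  ![![0, 2, 2, 3, 4, 4, 6],
    ![0, 1, 1, 3, 5, 5, 6],
    ![0, 3, 2, 3, 4, 5, 4],
    ![0, 1, 2, 1, 6, 5, 6],
    ![0, 1, 3, 3, 4, 5, 5],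
    ![0, 1, 2, 2, 4, 6, 6],
    ![4, 0, 2, 3, 4, 3, 2],
    ![1, 1, 6, 5, 0, 5, 6],
    ![5, 1, 0, 3, 3, 5, 1],
    ![2, 6, 2, 4, 4, 0, 6],
    ![6, 1, 2, 0, 2, 1, 6],
    ![3, 5, 4, 3, 4, 5, 0]]

/-- coefficients of the root vectors -/
def cc : Rt → Fin 7 → ℤ :=
  ![![0, 1, 0, 0, 0, -1, 0],
    ![0, 0, 1, 0, -1, 0, 0],
    ![0, 1, 0, 0, 0, 0, -1],
    ![0, 0, 0, 1, -1, 0, 0],
    ![0, 0, 1, 0, 0, 0, -1],
    ![0, 0, 0, 1, 0, -1, 0],
    ![1, -2, 0, 0, 0, 1, -1],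
    ![1, 0, 1, -1, -2, 0, 0],
    ![1, 0, -2, 0, -1, 0, 1],
    ![1, -1, 0, 1, 0, -2, 0],
    ![1, 0, 0, -2, 1, -1, 0],
    ![1, 1, -1, 0, 0, 0, -2]]

/-- sources of half the squares of the root vectors -/
def qs : Rt → Fin 7 → Fin 7 :=
  ![![0, 1, 2, 3, 4, 5, 6],
    ![0, 1, 2, 3, 4, 5, 6],
    ![0, 1, 2, 3, 4, 5, 6],
    ![0, 1, 2, 3, 4, 5, 6],
    ![0, 1, 2, 3, 4, 5, 6],
    ![0, 1, 2, 3, 4, 5, 6],
    ![0, 4, 2, 3, 4, 5, 6],
    ![0, 1, 2, 3, 1, 5, 6],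
    ![0, 1, 5, 3, 4, 5, 6],
    ![0, 1, 2, 3, 4, 2, 6],
    ![0, 1, 2, 6, 4, 5, 6],
    ![0, 1, 2, 3, 4, 5, 3]]

/-- coefficients of half the squares of the root vectors -/
def qc : Rt → Fin 7 → ℤ :=
  ![![0, 0, 0, 0, 0, 0, 0],
    ![0, 0, 0, 0, 0, 0, 0],
    ![0, 0, 0, 0, 0, 0, 0],
    ![0, 0, 0, 0, 0, 0, 0],
    ![0, 0, 0, 0, 0, 0, 0],
    ![0, 0, 0, 0, 0, 0, 0],
    ![0, -1, 0, 0, 0, 0, 0],
    ![0, 0, 0, 0, -1, 0, 0],
    ![0, 0, -1, 0, 0, 0, 0],
    ![0, 0, 0, 0, 0, -1, 0],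
    ![0, 0, 0, -1, 0, 0, 0],
    ![0, 0, 0, 0, 0, 0, -1]]

/-- the root vector (a derivation of weight `rt r`) as a linear map -/
def Nl (r : Rt) : V K →ₗ[K] V K where
  toFun x := fun i => (cc r i : K) * x (sc r i)
  map_add' := by
    intro a b
    ext i
    simp [mul_add]
  map_smul' := by
    intro a b
    ext i
    simp
    ring

/-- half the square of the root vector -/
def Ql (r : Rt) : V K →ₗ[K] V K where
  toFun x := fun i => (qc r i : K) * x (qs r i)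
  map_add' := by
    intro a b
    ext i
    simp [mul_add]
  map_smul' := by
    intro a b
    ext i
    simp
    ring

theorem Nl_apply (r : Rt) (x : V K) (i : Fin 7) : Nl r x i = (cc r i : K) * x (sc r i) := rfl

theorem Ql_apply (r : Rt) (x : V K) (i : Fin 7) : Ql r x i = (qc r i : K) * x (qs r i) := rfl

/-- root elements as linear maps -/
def Xl (r : Rt) (s : K) : V K →ₗ[K] V K := LinearMap.id + s • Nl r + s ^ 2 • Ql r

theorem Xl_apply (r : Rt) (s : K) (x : V K) (i : Fin 7) :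
    Xl r s x i = x i + s * ((cc r i : K) * x (sc r i)) + s ^ 2 * ((qc r i : K) * x (qs r i)) := rfl

theorem tab_sq : ∀ r : Rt, ∀ i : Fin 7, cc r i * cc r (sc r i) = 2 * qc r i ∧
    (qc r i = 0 ∨ sc r (sc r i) = qs r i) ∧ cc r i * qc r (sc r i) = 0 ∧
    qc r i * cc r (qs r i) = 0 ∧ qc r i * qc r (qs r i) = 0 := by
  decide

theorem Nl_Nl (r : Rt) (x : V K) : Nl r (Nl r x) = (2 : K) • Ql r x := by
  ext i
  rw [Nl_apply, Nl_apply, Pi.smul_apply, Ql_apply, smul_eq_mul]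
  obtain ⟨h1, h2, -, -, -⟩ := tab_sq r i
  have h3 : (cc r i : K) * (cc r (sc r i) : K) = 2 * (qc r i : K) := by exact_mod_cast congrArg (Int.cast : ℤ → K) h1
  rw [← mul_assoc, h3, mul_assoc]
  rcases h2 with h2 | h2
  · rw [h2]
    simp
  · rw [h2]

theorem Nl_Ql (r : Rt) (x : V K) : Nl r (Ql r x) = 0 := by
  ext i
  rw [Nl_apply, Ql_apply, Pi.zero_apply]
  obtain ⟨-, -, h1, -, -⟩ := tab_sq r i
  have h3 : (cc r i : K) * (qc r (sc r i) : K) = 0 := by exact_mod_cast congrArg (Int.cast : ℤ → K) h1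
  rw [← mul_assoc, h3, zero_mul]

theorem Ql_Nl (r : Rt) (x : V K) : Ql r (Nl r x) = 0 := by
  ext i
  rw [Ql_apply, Nl_apply, Pi.zero_apply]
  obtain ⟨-, -, -, h1, -⟩ := tab_sq r i
  have h3 : (qc r i : K) * (cc r (qs r i) : K) = 0 := by exact_mod_cast congrArg (Int.cast : ℤ → K) h1
  rw [← mul_assoc, h3, zero_mul]

theorem Ql_Ql (r : Rt) (x : V K) : Ql r (Ql r x) = 0 := by
  ext i
  rw [Ql_apply, Ql_apply, Pi.zero_apply]
  obtain ⟨-, -, -, -, h1⟩ := tab_sq r i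
  have h3 : (qc r i : K) * (qc r (qs r i) : K) = 0 := by exact_mod_cast congrArg (Int.cast : ℤ → K) h1
  rw [← mul_assoc, h3, zero_mul]

theorem Xl_eq (r : Rt) (s : K) (x : V K) : Xl r s x = x + s • Nl r x + s ^ 2 • Ql r x := rfl

theorem Xl_comp (r : Rt) (s t : K) (x : V K) : Xl r s (Xl r t x) = Xl r (s + t) x := by
  rw [Xl_eq, Xl_eq, Xl_eq]
  simp only [map_add, map_smul, Nl_Nl, Nl_Ql, Ql_Nl, Ql_Ql, smul_zero, add_zero]
  module

theorem Xl_zero (r : Rt) (x : V K) : Xl r 0 x = x := by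
  ext i
  rw [Xl_apply]
  simp

/-- root elements -/
def X (r : Rt) (s : K) : EE K :=
  LinearEquiv.ofLinearMap (Xl r s) (Xl r (-s))
    (by apply LinearMap.ext; intro c; simp [Xl_comp, Xl_zero])
    (by apply LinearMap.ext; intro c; simp [Xl_comp, Xl_zero])

theorem X_apply (r : Rt) (s : K) (x : V K) (i : Fin 7) :
    X r s x i = x i + s * ((cc r i : K) * x (sc r i)) + s ^ 2 * ((qc r i : K) * x (qs r i)) := rfl

theorem X_mul (r : Rt) (s t : K) : X r s * X r t = X r (s + t) := by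
  apply LinearEquiv.ext
  intro x
  exact Xl_comp r s t x

theorem X_zero (r : Rt) : X r (0 : K) = 1 := by
  apply LinearEquiv.ext
  intro x
  exact Xl_zero r x

theorem X_inv (r : Rt) (s : K) : (X r s)⁻¹ = X r (-s) := by
  rw [inv_eq_iff_mul_eq_one, X_mul, add_neg_cancel, X_zero]

/-- the characters of the torus `Kˣ × Kˣ` -/
def ch (w : ℤ × ℤ) (t : Kˣ × Kˣ) : Kˣ := t.1 ^ w.1 * t.2 ^ w.2

theorem ch_mul (w : ℤ × ℤ) (s t : Kˣ × Kˣ) : ch w (s * t) = ch w s * ch w t := by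
  unfold ch
  rw [Prod.fst_mul, Prod.snd_mul, mul_zpow, mul_zpow]
  exact mul_mul_mul_comm _ _ _ _

theorem ch_add (v w : ℤ × ℤ) (t : Kˣ × Kˣ) : ch (v + w) t = ch v t * ch w t := by
  unfold ch
  rw [Prod.fst_add, Prod.snd_add, zpow_add, zpow_add]
  exact mul_mul_mul_comm _ _ _ _

theorem ch_neg (w : ℤ × ℤ) (t : Kˣ × Kˣ) : ch (-w) t = (ch w t)⁻¹ := by
  unfold ch
  rw [Prod.fst_neg, Prod.snd_neg, zpow_neg, zpow_neg, mul_inv]

theorem ch_zero (t : Kˣ × Kˣ) : ch 0 t = 1 := by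
  simp [ch]

theorem ch_one (w : ℤ × ℤ) : ch w (1 : Kˣ × Kˣ) = 1 := by
  simp [ch]

/-- torus elements as linear maps -/
def torl (t : Kˣ × Kˣ) : V K →ₗ[K] V K where
  toFun x := fun j => (ch (wt j) t : K) * x j
  map_add' := by
    intro a b
    ext i
    simp [mul_add]
  map_smul' := by
    intro a b
    ext i
    simp
    ring

/-- torus elements -/
def tor : Kˣ × Kˣ →* EE K where
  toFun t := LinearEquiv.ofLinearMap (torl t) (torl t⁻¹)
    (by
      apply LinearMap.ext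
      intro x
      ext j
      show (ch (wt j) t : K) * ((ch (wt j) t⁻¹ : K) * x j) = x j
      rw [← mul_assoc, ← Units.val_mul, ← ch_mul, mul_inv_cancel, ch_one, Units.val_one, one_mul])
    (by
      apply LinearMap.ext
      intro x
      ext j
      show (ch (wt j) t⁻¹ : K) * ((ch (wt j) t : K) * x j) = x j
      rw [← mul_assoc, ← Units.val_mul, ← ch_mul, inv_mul_cancel, ch_one, Units.val_one, one_mul])
  map_one' := by
    apply LinearEquiv.ext
    intro x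
    ext j
    show (ch (wt j) (1 : Kˣ × Kˣ) : K) * x j = x j
    rw [ch_one, Units.val_one, one_mul]
  map_mul' := by
    intro s t
    apply LinearEquiv.ext
    intro x
    ext j
    show (ch (wt j) (s * t) : K) * x j = (ch (wt j) s : K) * ((ch (wt j) t : K) * x j)
    rw [ch_mul, Units.val_mul, mul_assoc]

theorem tor_apply (t : Kˣ × Kˣ) (x : V K) (j : Fin 7) :
    tor t x j = (ch (wt j) t : K) * x j := rfl

/-- the split torus -/
def TT (K : Type) [Field K] : Subgroup (EE K) := (tor (K := K)).range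

/-- coordinate vectors -/
def ev (j : Fin 7) : V K := Pi.single j 1

/-- elements permuting the coordinate lines -/
def NN (K : Type) [Field K] : Subgroup (EE K) where
  carrier := {g | g ∈ GG K ∧ (∀ j, ∃ i, ∃ c : K, g (ev j) = c • ev i) ∧
    ∀ j, ∃ i, ∃ c : K, g⁻¹ (ev j) = c • ev i}
  one_mem' := ⟨one_mem _, fun j => ⟨j, 1, by simp⟩, fun j => ⟨j, 1, by simp⟩⟩
  mul_mem' := by
    rintro a b ⟨h1, h2, h3⟩ ⟨h4, h5, h6⟩
    refine ⟨mul_mem h1 h4, fun j => ?_, fun j => ?_⟩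
    · obtain ⟨i, c, hi⟩ := h5 j
      obtain ⟨k, d, hk⟩ := h2 i
      exact ⟨k, c * d, by rw [LinearEquiv.mul_apply, hi, map_smul, hk, smul_smul]⟩
    · obtain ⟨i, c, hi⟩ := h3 j
      obtain ⟨k, d, hk⟩ := h6 i
      exact ⟨k, c * d, by rw [mul_inv_rev, LinearEquiv.mul_apply, hi, map_smul, hk, smul_smul]⟩
  inv_mem' := by
    rintro a ⟨h1, h2, h3⟩
    exact ⟨inv_mem h1, h3, by rw [inv_inv]; exact h2⟩

/-- roots whose root group lies in `F` -/
def SF (F : Subgroup (EE K)) : Set Rt := {r | ∀ s : K, X r s ∈ F}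

/-- the group generated by the torus and the root groups of `S` -/
def GS (K : Type) [Field K] (S : Set Rt) : Subgroup (EE K) :=
  Subgroup.closure ((TT K : Set (EE K)) ∪ {g | ∃ r ∈ S, ∃ s : K, g = X r s})

/-- `F = GS (SF F) * (F ∩ NN)` -/
def Std (F : Subgroup (EE K)) : Prop := ∀ f ∈ F, ∃ c ∈ GS K (SF F), c⁻¹ * f ∈ NN K

/-- closed sets of roots -/
def Cl (S : Set Rt) : Prop := ∀ a ∈ S, ∀ b ∈ S, ∀ c : Rt, rt a + rt b = rt c → c ∈ S

/-- the admissible fields -/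
def Ok (K : Type) : Prop := Nat.card K = 7 ∨ Nat.card K = 11

/-- groups between the torus and `G_2` -/
def Ov (F : Subgroup (EE K)) : Prop := TT K ≤ F ∧ F ≤ GG K

end Pool.Agent.H40.GT
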