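import Mathlib

/-!
# GT-35 a divisibility lemma

`C` finite group acting on a finite set `X`, the order of every stabiliser divides `k`; then `|C|`
divides `k * |X|`: sum over the orbits, `k * |orbit of x| = k * |C| / |stabiliser of x|` is a
multiple of `|C|`.
-/

namespace Pool.Agent.H40.GT

theorem div_orb {C X : Type} [Group C] [Finite C] [MulAction C X] [Finite X] (k : ℕ)
    (h : ∀ x : X, Nat.card (MulAction.stabilizer C x) ∣ k) : Nat.card C ∣ k * Nat.card X := by
  classical
  have := Fintype.ofFinite (Quotient (MulAction.orbitRel C X))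
  rw [Nat.card_congr (MulAction.selfEquivSigmaOrbitsQuotientStabilizer C X), Nat.card_sigma,
    Finset.mul_sum]
  refine Finset.dvd_sum fun ω _ => ?_
  rw [Subgroup.card_eq_card_quotient_mul_card_subgroup (MulAction.stabilizer C ω.out), mul_comm k]
  exact mul_dvd_mul_left _ (h _)

/-- version with subgroups and conjugation: `C` acts on `S` by conjugation -/
theorem div_conj {G : Type} [Group G] [Finite G] (C : Subgroup G) (S : Set G)
    (hS : ∀ c ∈ C, ∀ s ∈ S, c * s * c⁻¹ ∈ S) (k : ℕ)
    (h : ∀ s ∈ S, Nat.card (C ⊓ Subgroup.centralizer {s} : Subgroup G) ∣ k) :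
    Nat.card C ∣ k * S.ncard := by
  let _ : MulAction C S :=
    { smul := fun c s => ⟨(c : G) * s * (c : G)⁻¹, hS c c.2 s s.2⟩
      one_smul := fun s => Subtype.ext (by
        show (1 : G) * s * (1 : G)⁻¹ = s
        group)
      mul_smul := fun c d s => Subtype.ext (by
        show ((c : G) * (d : G)) * s * ((c : G) * (d : G))⁻¹ =
          (c : G) * ((d : G) * s * (d : G)⁻¹) * (c : G)⁻¹
        group) }
  rw [← Nat.card_coe_set_eq]
  refine div_orb k fun s => ?_
  refine (dvd_of_eq (Nat.card_congr ?_)).trans (h s s.2)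
  have hiff : ∀ c : C, c ∈ MulAction.stabilizer C s ↔
      (c : G) ∈ (C ⊓ Subgroup.centralizer {(s : G)} : Subgroup G) := by
    intro c
    rw [MulAction.mem_stabilizer_iff, Subtype.ext_iff, Subgroup.mem_inf,
      Subgroup.mem_centralizer_singleton_iff]
    show (c : G) * s * (c : G)⁻¹ = s ↔ _
    rw [mul_inv_eq_iff_eq_mul]
    constructor
    · intro hh; exact ⟨c.2, by first | exact hh | exact hh.symm⟩
    · rintro ⟨-, hh⟩; first | exact hh | exact hh.symm
  exact
    { toFun := fun c => ⟨(c : C), (hiff c).1 c.2⟩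
      invFun := fun g => ⟨⟨g, g.2.1⟩, (hiff ⟨g, g.2.1⟩).2 g.2⟩
      left_inv := fun c => rfl
      right_inv := fun g => rfl }

end Pool.Agent.H40.GT
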