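import Pool.Agent.H40.GT.EHb

/-!
# GT-31 Theorem E, step 1

`t ∈ T`, `t ≠ 1`, `x t x⁻¹ ∈ M` implies `x ∈ M`.  Suppose `x ∉ M`; replace `t` by a power of prime
order (the order divides `m = 6` or `10`, so it is `2`, `3` or `5`).  Let `y = x t x⁻¹ ∈ M`; `y ∉ T` by
`EH_TI`.
(A) `t` of order 5: `π y ^ 5 = 1`, `ε y ^ 5 = 1`, so `π y = 1`, `ε y = 1`, `y ∈ T`, contradiction.
(B) `t` of order 3 (`m = 6`): `EH_ord3`: `π y` of order 3, `ε y = 1`.  `z ∈ T` with `c z = (2,2,2)`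
commutes with `y` (`act`, `cinj`), so `x⁻¹ z x` commutes with `t` and is in `M` (`cent`);
by `zz` `x⁻¹ z x ∈ T`, and `EH_TI` gives `x⁻¹ ∈ M`.
(C) `t` of order 2: `π y ^ 2 = 1`.
(C1) `π y ≠ 1`: `EH_refl` gives `u ∈ T` of order `m / 2` (3 or 5) commuting with `y`; `x⁻¹ u x` commutes
with `t`, so it is in `M` (`cent`); cases (A), (B) for `x⁻¹`, `u` give `x⁻¹ ∈ M`.
(C2) `π y = 1`, `ε y = -1` (else `y ∈ T`): `y` inverts `T` (`EH_neg`), so it commutes with the three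
involutions `e1, e2, e3 = e1 e2` of `T`; so `v_i = x⁻¹ e_i x ∈ M` (`cent` for `t`).  `v_i ∉ T` (`EH_TI`);
if some `π v_i ≠ 1` then (C1) for `x⁻¹`, `e_i` gives a contradiction; so `π v_i = 1` and
`ε v_i = -1` for all `i`, but `v_3 = v_1 v_2` has `ε v_3 = 1`.
-/

namespace Pool.Agent.H40.GT

variable {Γ : Type} [Group Γ] {T M : Subgroup Γ} {m : ℕ} {c : Γ → Fin 3 → ZMod m}
  {π : Γ → Equiv.Perm (Fin 3)} {ε : Γ → ℤˣ}

theorem EH1_c_one (h : EH Γ T M m c π ε) (i : Fin 3) : c 1 i = 0 := by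
  have h1 := h.cmul 1 (one_mem T) 1 (one_mem T) i
  rw [mul_one] at h1
  have h2 : c 1 i + 0 = c 1 i + c 1 i := by rw [add_zero]; exact h1
  exact (add_left_cancel h2).symm

theorem EH1_ext (h : EH Γ T M m c π ε) {s t : Γ} (hs : s ∈ T) (ht : t ∈ T)
    (h0 : c s 0 = c t 0) (h1 : c s 1 = c t 1) : s = t := by
  refine h.cinj s hs t ht (funext fun i => ?_)
  have e1 := h.csum s hs
  have e2 := h.csum t ht
  have h2 : c s 2 = c t 2 := by
    rw [h0, h1] at e1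
    exact add_left_cancel (e1.trans e2.symm)
  fin_cases i
  · exact h0
  · exact h1
  · exact h2

theorem EH1_c_pow (h : EH Γ T M m c π ε) {t : Γ} (ht : t ∈ T) (i : Fin 3) (k : ℕ) :
    c (t ^ k) i = (k : ZMod m) * c t i := by
  induction k with
  | zero => rw [pow_zero, EH1_c_one h, Nat.cast_zero, zero_mul]
  | succ k ih =>
    rw [pow_succ, h.cmul _ (pow_mem ht k) t ht, ih, Nat.cast_succ, add_mul, one_mul]

theorem EH1_ppow (h : EH Γ T M m c π ε) {b : Γ} (hb : b ∈ M) (n : ℕ) :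
    π (b ^ n) = π b ^ n ∧ ε (b ^ n) = ε b ^ n := by
  induction n with
  | zero => simpa using h.tri 1 (one_mem T)
  | succ n ih =>
    have := h.pmul (b ^ n) (M.pow_mem hb n) b hb
    rw [ih.1, ih.2] at this
    rw [pow_succ, pow_succ, pow_succ]
    exact this

/-- the transfer of commuting elements -/
theorem EH1_tr (h : EH Γ T M m c π ε) {t x u : Γ} (ht : t ∈ T) (h1 : t ≠ 1)
    (hu : x * t * x⁻¹ * u = u * (x * t * x⁻¹)) : x⁻¹ * u * x⁻¹⁻¹ ∈ M := by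
  rw [inv_inv]
  refine h.cent t ht h1 _ ?_
  calc x⁻¹ * u * x * t = x⁻¹ * (u * (x * t * x⁻¹)) * x := by group
    _ = x⁻¹ * (x * t * x⁻¹ * u) * x := by rw [hu]
    _ = t * (x⁻¹ * u * x) := by group

set_option maxRecDepth 100000 in
theorem EH1_perm : ∀ p : Equiv.Perm (Fin 3), 1 = p ^ 5 → p = 1 := by decide

theorem EH1_five (h : EH Γ T M m c π ε) {t x : Γ} (ht : t ∈ T) (h1 : t ≠ 1) (h5 : t ^ 5 = 1)
    (hx : x * t * x⁻¹ ∈ M) : x ∈ M := by
  refine EH_TI h ht h1 ?_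
  have h2 : (x * t * x⁻¹) ^ 5 = 1 := by
    rw [conj_pow, h5]; group
  have h3 := EH1_ppow h hx 5
  rw [h2] at h3
  have h4 := h.tri 1 (one_mem T)
  rw [h4.1, h4.2] at h3
  have a2 : ∀ p : ℤˣ, 1 = p ^ 5 → p = 1 := by decide
  exact h.ker _ hx (EH1_perm _ h3.1) (a2 _ h3.2)

theorem EH1_three (h : EH Γ T M m c π ε) {t x : Γ} (ht : t ∈ T) (h1 : t ≠ 1) (h3 : t ^ 3 = 1)
    (hx : x * t * x⁻¹ ∈ M) : x ∈ M := by
  by_cases hy : x * t * x⁻¹ ∈ T
  · exact EH_TI h ht h1 hy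
  rcases h.hm with rfl | rfl
  swap
  · exfalso
    apply h1
    have h10 := EH_pow h t ht
    calc t = t ^ 10 * ((t ^ 3) ^ 3)⁻¹ := by group
      _ = 1 := by rw [h10, h3]; group
  have h2 : (x * t * x⁻¹) ^ 3 = 1 := by
    rw [conj_pow, h3]; group
  obtain ⟨p1, p2, p3⟩ := EH_ord3 h hx h2 hy
  obtain ⟨z, hz, z0, z1⟩ := h.csur 2 2
  have z2 : c z 2 = 2 := by
    have := h.csum z hz
    rw [z0, z1] at this
    have h4 : ∀ w : ZMod 6, 2 + 2 + w = 0 → w = 2 := by decide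
    exact h4 _ this
  have zall : ∀ i, c z i = 2 := by
    intro i
    fin_cases i
    · exact z0
    · exact z1
    · exact z2
  have zne : z ≠ 1 := by
    rintro rfl
    rw [EH1_c_one h] at z0
    exact absurd z0 (by decide)
  have z3 : z ^ 3 = 1 := by
    refine EH1_ext h (pow_mem hz 3) (one_mem T) ?_ ?_
    · rw [EH1_c_pow h hz, EH1_c_one h, z0]; decide
    · rw [EH1_c_pow h hz, EH1_c_one h, z1]; decide
  have hyz : x * t * x⁻¹ * z = z * (x * t * x⁻¹) := by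
    obtain ⟨a1, a2⟩ := h.act _ hx z hz
    have a3 : x * t * x⁻¹ * z * (x * t * x⁻¹)⁻¹ = z := by
      refine h.cinj _ a1 _ hz (funext fun i => ?_)
      have a4 := a2 ((π (x * t * x⁻¹)).symm i)
      rw [Equiv.apply_symm_apply, zall, p3] at a4
      rw [a4, zall]
      simp
    rwa [mul_inv_eq_iff_eq_mul] at a3
  have hz1 := EH1_tr h ht h1 hyz
  have hz2 := h.zz z hz z3 (z0.trans z1.symm) (z1.trans z2.symm) _ hz1
  have hz3 := EH_TI h hz zne hz2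
  exact M.inv_mem_iff.1 hz3

theorem EH1_twoA (h : EH Γ T M m c π ε) {t x : Γ} (ht : t ∈ T) (h1 : t ≠ 1) (h2 : t ^ 2 = 1)
    (hx : x * t * x⁻¹ ∈ M) (hp : π (x * t * x⁻¹) ≠ 1) : x ∈ M := by
  have h3 : (x * t * x⁻¹) ^ 2 = 1 := by
    rw [conj_pow, h2]; group
  have h4 := EH1_ppow h hx 2
  rw [h3] at h4
  have h5 := h.tri 1 (one_mem T)
  rw [h5.1, h5.2] at h4
  obtain ⟨u, hu, hu1, hu2, hyu⟩ := EH_refl h hx hp h4.1.symm
  have h6 := EH1_tr h ht h1 hyu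
  rw [← M.inv_mem_iff]
  rcases h.hm with rfl | rfl
  · exact EH1_three h hu hu1 hu2 h6
  · exact EH1_five h hu hu1 hu2 h6

theorem EH1_twoB (h : EH Γ T M m c π ε) {t x : Γ} (ht : t ∈ T) (h1 : t ≠ 1) (h2 : t ^ 2 = 1)
    (hx : x * t * x⁻¹ ∈ M) : x ∈ M := by
  by_contra hxM
  have hxM' : x⁻¹ ∉ M := fun hh => hxM (M.inv_mem_iff.1 hh)
  have hp : π (x * t * x⁻¹) = 1 := by
    by_contra hp
    exact hxM (EH1_twoA h ht h1 h2 hx hp)
  have he : ε (x * t * x⁻¹) = -1 := by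
    rcases Int.units_eq_one_or (ε (x * t * x⁻¹)) with he | he
    · exact absurd (EH_TI h ht h1 (h.ker _ hx hp he)) hxM
    · exact he
  have key : ∀ e ∈ T, e ≠ 1 → e ^ 2 = 1 →
      x⁻¹ * e * x⁻¹⁻¹ ∈ M ∧ π (x⁻¹ * e * x⁻¹⁻¹) = 1 ∧ ε (x⁻¹ * e * x⁻¹⁻¹) = -1 := by
    intro e heT he1 he2
    have hinv : e⁻¹ = e := inv_eq_of_mul_eq_one_left (by rw [← sq]; exact he2)
    have h3 : x * t * x⁻¹ * e = e * (x * t * x⁻¹) := by
      have := EH_neg h hx hp he heT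
      rw [hinv] at this
      rwa [mul_inv_eq_iff_eq_mul] at this
    have h4 := EH1_tr h ht h1 h3
    have h5 : π (x⁻¹ * e * x⁻¹⁻¹) = 1 := by
      by_contra hp'
      exact hxM' (EH1_twoA h heT he1 he2 h4 hp')
    refine ⟨h4, h5, ?_⟩
    rcases Int.units_eq_one_or (ε (x⁻¹ * e * x⁻¹⁻¹)) with he' | he'
    · exact absurd (EH_TI h heT he1 (h.ker _ h4 h5 he')) hxM'
    · exact he'
  have hex : ∃ e ∈ T, ∃ f ∈ T, e ≠ 1 ∧ e ^ 2 = 1 ∧ f ≠ 1 ∧ f ^ 2 = 1 ∧ e * f ≠ 1 := by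
    rcases h.hm with rfl | rfl
    · obtain ⟨e, heT, e0, e1⟩ := h.csur 3 0
      obtain ⟨f, hfT, f0, f1⟩ := h.csur 0 3
      refine ⟨e, heT, f, hfT, ?_, ?_, ?_, ?_, ?_⟩
      · rintro rfl
        rw [EH1_c_one h] at e0
        exact absurd e0 (by decide)
      · refine EH1_ext h (pow_mem heT 2) (one_mem T) ?_ ?_
        · rw [EH1_c_pow h heT, EH1_c_one h, e0]; decide
        · rw [EH1_c_pow h heT, EH1_c_one h, e1]; decide
      · rintro rfl
        rw [EH1_c_one h] at f1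
        exact absurd f1 (by decide)
      · refine EH1_ext h (pow_mem hfT 2) (one_mem T) ?_ ?_
        · rw [EH1_c_pow h hfT, EH1_c_one h, f0]; decide
        · rw [EH1_c_pow h hfT, EH1_c_one h, f1]; decide
      · intro hef
        have := h.cmul e heT f hfT 0
        rw [hef, EH1_c_one h, e0, f0] at this
        exact absurd this (by decide)
    · obtain ⟨e, heT, e0, e1⟩ := h.csur 5 0
      obtain ⟨f, hfT, f0, f1⟩ := h.csur 0 5
      refine ⟨e, heT, f, hfT, ?_, ?_, ?_, ?_, ?_⟩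
      · rintro rfl
        rw [EH1_c_one h] at e0
        exact absurd e0 (by decide)
      · refine EH1_ext h (pow_mem heT 2) (one_mem T) ?_ ?_
        · rw [EH1_c_pow h heT, EH1_c_one h, e0]; decide
        · rw [EH1_c_pow h heT, EH1_c_one h, e1]; decide
      · rintro rfl
        rw [EH1_c_one h] at f1
        exact absurd f1 (by decide)
      · refine EH1_ext h (pow_mem hfT 2) (one_mem T) ?_ ?_
        · rw [EH1_c_pow h hfT, EH1_c_one h, f0]; decide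
        · rw [EH1_c_pow h hfT, EH1_c_one h, f1]; decide
      · intro hef
        have := h.cmul e heT f hfT 0
        rw [hef, EH1_c_one h, e0, f0] at this
        exact absurd this (by decide)
  obtain ⟨e, heT, f, hfT, e1, e2, f1, f2, hef⟩ := hex
  obtain ⟨a1, a2, a3⟩ := key e heT e1 e2
  obtain ⟨b1, b2, b3⟩ := key f hfT f1 f2
  have h7 := h.pmul _ a1 _ b1
  rw [a2, a3, b2, b3] at h7
  have h8 : x⁻¹ * e * x⁻¹⁻¹ * (x⁻¹ * f * x⁻¹⁻¹) = x⁻¹ * (e * f) * x⁻¹⁻¹ := by group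
  have h9 : x⁻¹ * (e * f) * x⁻¹⁻¹ ∈ T := by
    rw [← h8]
    refine h.ker _ (M.mul_mem a1 b1) ?_ ?_
    · rw [h7.1, mul_one]
    · rw [h7.2]; decide
  exact hxM' (EH_TI h (T.mul_mem heT hfT) hef h9)

theorem EH1 (h : EH Γ T M m c π ε) {t x : Γ} (ht : t ∈ T) (h1 : t ≠ 1)
    (hx : x * t * x⁻¹ ∈ M) : x ∈ M := by
  by_cases h2 : t ^ 2 = 1
  · exact EH1_twoB h ht h1 h2 hx
  · have h3 : x * t ^ 2 * x⁻¹ ∈ M := by
      rw [← conj_pow]
      exact M.pow_mem hx 2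
    have h4 := EH_pow h t ht
    rcases h.hm with rfl | rfl
    · refine EH1_three h (T.pow_mem ht 2) h2 ?_ h3
      rw [← pow_mul]; exact h4
    · refine EH1_five h (T.pow_mem ht 2) h2 ?_ h3
      rw [← pow_mul]; exact h4

end Pool.Agent.H40.GT
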