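import Pool.Agent.H40.GT.EH1

/-!
# Part EH2a (of EH2a, EH2b, EH2c); GT-32 Theorem E, step 2: the involutions in a coset of `M`

`II T` = all conjugates of the involutions of `T`.
* `I_M`: `i ∈ II`, `i ∈ M` implies `i ∈ T` (`i = x e x⁻¹`, `EH1` gives `x ∈ M`).
* `I_cent`: `i = x e x⁻¹`; everything commuting with `i` is in `x M x⁻¹` (`cent`).
* `I_pair`: `i ∈ II`, `i ∉ M`, `b ∈ M`, `b ≠ 1`, `b i ∈ II`.  Then `i b i = b⁻¹` (squares are 1).  No power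
  `b^k ≠ 1` is in `T` (`i b^k i = b^-k ∈ T` would give `i ∈ M` by `EH_TI`), so the order of `b` is the
  order of `(π b, ε b)`: it is `2, 3` or `6`.  It is not even: let `b0 = b^k`, `k` odd, be the
  involution in `⟨b⟩`; it commutes with `i`; `b0 i = b^j (b i) b^-j` with `1 + 2 j = k`, so
  `b0 i ∈ II`; let `i = x e x⁻¹`; `b0 i` commutes with `i`, so `x⁻¹ (b0 i) x ∈ M ∩ II`, so it is in `T`, so
  `x⁻¹ b0 x ∈ T`, `≠ 1`; but `b0 ∈ M`, so `EH1` (for `x` and `x⁻¹ b0 x`) gives `x ∈ M`, `i ∈ M`: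
  contradiction.  So `b ^ 3 = 1`.
* `I_uniq`: `i ∈ II`, `i ∉ M`, `b, b' ∈ M` of order 3 with `i b i, i b' i ∈ M` and `b, b' ∉ T`: then
  `b' = b` or `b' = b⁻¹`: `(π b', ε b') = (π b, ε b)^(±1)`, so `b' b^(∓1) ∈ T` (`ker`); if it is not 1
  then `EH1` (`x = i`) gives `i ∈ M`.  (Here `i` can be any `x ∉ M` with `x b x⁻¹, x b' x⁻¹ ∈ M`.)
-/

namespace Pool.Agent.H40.GT

variable {Γ : Type} [Group Γ] {T M : Subgroup Γ} {m : ℕ} {c : Γ → Fin 3 → ZMod m}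
  {π : Γ → Equiv.Perm (Fin 3)} {ε : Γ → ℤˣ}

/-- the conjugates of the involutions of `T` -/
def II (T : Subgroup Γ) : Set Γ := {i | ∃ x, ∃ e ∈ T, e ≠ 1 ∧ e ^ 2 = 1 ∧ i = x * e * x⁻¹}

theorem II_sq {i : Γ} (hi : i ∈ II T) : i * i = 1 := by
  obtain ⟨x, e, -, -, he2, rfl⟩ := hi
  calc x * e * x⁻¹ * (x * e * x⁻¹) = x * e ^ 2 * x⁻¹ := by rw [sq]; group
    _ = 1 := by rw [he2]; group

theorem II_conj {i : Γ} (hi : i ∈ II T) (x : Γ) : x * i * x⁻¹ ∈ II T := by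
  obtain ⟨y, e, he, he1, he2, rfl⟩ := hi
  exact ⟨x * y, e, he, he1, he2, by group⟩

theorem I_M (h : EH Γ T M m c π ε) {i : Γ} (hi : i ∈ II T) (hM : i ∈ M) : i ∈ T := by
  obtain ⟨x, e, he, he1, he2, rfl⟩ := hi
  exact (h.act x (EH1 h he he1 hM) e he).1

end Pool.Agent.H40.GT
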