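import Pool.Agent.H40.GT.EH2a

/-!
# Part EH2b (of EH2a, EH2b, EH2c); GT-32 Theorem E, step 2: the involutions in a coset of `M`

`II T` = all conjugates of the involutions of `T`.
* `I_M`: `i ∈ II`, `i ∈ M` implies `i ∈ T` (`i = x e x⁻¹`, `EH1` gives `x ∈ M`).
* `I_cent`: `i = x e x⁻¹`; everything commuting with `i` is in `x M x⁻¹` (`cent`).
* `I_pair`: `i ∈ II`, `i ∉ M`, `b ∈ M`, `b ≠ 1`, `b i ∈ II`.  Then `i b i = b⁻¹` (squares are 1).  No power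
  `b^k ≠ 1` is in `T` (`i b^k i = b^-k ∈ T` would give `i ∈ M` by `EH_TI`), so the order of `b` is the
  order of `(π b, ε b)`: it is `2, 3` or `6`.  It is not even: let `b0 = b^k`, `k` odd, be the
  involution in `⟨b⟩`; it commutes with `i`; `b0 i = b^j (b i) b^-j` with `1 + 2 j = k`, so
  `b0 i ∈ II`; let `i = x e x⁻¹`; `b0 i` commutes with `i`, so `x⁻¹ (b0 i) x ∈ M ∩ II`, so it is in `T`, so
  `x⁻¹ b0 x ∈ T`, `≠ 1`; but `b0 ∈ M`, so `EH1` (for `x` and `x⁻¹ b0 x`) gives `x ∈ M`, `i ∈ M`: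
  contradiction.  So `b ^ 3 = 1`.
* `I_uniq`: `i ∈ II`, `i ∉ M`, `b, b' ∈ M` of order 3 with `i b i, i b' i ∈ M` and `b, b' ∉ T`: then
  `b' = b` or `b' = b⁻¹`: `(π b', ε b') = (π b, ε b)^(±1)`, so `b' b^(∓1) ∈ T` (`ker`); if it is not 1
  then `EH1` (`x = i`) gives `i ∈ M`.  (Here `i` can be any `x ∉ M` with `x b x⁻¹, x b' x⁻¹ ∈ M`.)
-/

namespace Pool.Agent.H40.GT

variable {Γ : Type} [Group Γ] {T M : Subgroup Γ} {m : ℕ} {c : Γ → Fin 3 → ZMod m}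
  {π : Γ → Equiv.Perm (Fin 3)} {ε : Γ → ℤˣ}

set_option maxRecDepth 100000 in
theorem EH2b_perm : ∀ p : Equiv.Perm (Fin 3), p ^ 6 = 1 := by decide

theorem EH2b_six (h : EH Γ T M m c π ε) {b : Γ} (hb : b ∈ M) : b ^ 6 ∈ T := by
  have hp : ∀ n : ℕ, π (b ^ n) = π b ^ n ∧ ε (b ^ n) = ε b ^ n := by
    intro n
    induction n with
    | zero => simpa using h.tri 1 (one_mem T)
    | succ n ih =>
      have := h.pmul (b ^ n) (M.pow_mem hb n) b hb
      rw [ih.1, ih.2] at this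
      rw [pow_succ, pow_succ, pow_succ]
      exact this
  have h2 : ∀ e : ℤˣ, e ^ 6 = 1 := by decide
  refine h.ker _ (M.pow_mem hb 6) ?_ ?_
  · rw [(hp 6).1, EH2b_perm]
  · rw [(hp 6).2, h2]

theorem I_pair (h : EH Γ T M m c π ε) {i b : Γ} (hi : i ∈ II T) (hiM : i ∉ M) (hb : b ∈ M)
    (hb1 : b ≠ 1) (hbi : b * i ∈ II T) : i * b * i = b⁻¹ ∧ b ∉ T ∧ b ^ 3 = 1 := by
  have hii : i * i = 1 := II_sq hi
  have hinv : i⁻¹ = i := inv_eq_of_mul_eq_one_left hii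
  have hib : i * b * i = b⁻¹ := by
    have h1 := II_sq hbi
    rw [mul_assoc b i, ← mul_assoc i b i] at h1
    exact (inv_eq_of_mul_eq_one_right h1).symm
  have hpow : ∀ k : ℕ, i * b ^ k * i = (b ^ k)⁻¹ := by
    intro k
    have h1 : i * b ^ k * i⁻¹ = (i * b * i⁻¹) ^ k := conj_pow.symm
    rw [hinv] at h1
    rw [h1, hib, inv_pow]
  have hT : ∀ k : ℕ, b ^ k ≠ 1 → b ^ k ∉ T := by
    intro k hk hkT
    apply hiM
    refine EH_TI h hkT hk ?_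
    rw [hinv, hpow]
    exact T.inv_mem hkT
  have h6 : b ^ 6 = 1 := by
    by_contra hne
    exact hT 6 hne (EH2b_six h hb)
  refine ⟨hib, by simpa using hT 1 (by simpa using hb1), ?_⟩
  by_contra h3
  have hb0 : b ^ 3 * b ^ 3 = 1 := by rw [← pow_add]; exact h6
  have hb0' : (b ^ 3)⁻¹ = b ^ 3 := inv_eq_of_mul_eq_one_left hb0
  have hcomm : i * b ^ 3 = b ^ 3 * i := by
    have h1 := hpow 3
    rw [hb0'] at h1
    calc i * b ^ 3 = i * b ^ 3 * (i * i) := by rw [hii, mul_one]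
      _ = (i * b ^ 3 * i) * i := by rw [← mul_assoc]
      _ = b ^ 3 * i := by rw [h1]
  have hbi2 : b * i = i * b⁻¹ := by
    rw [← hib, ← mul_assoc, ← mul_assoc, hii, one_mul]
  have h3i : b ^ 3 * i = b * (b * i) * b⁻¹ := by
    have : b ^ 3 * i = b * b * (b * i) := by
      rw [pow_succ, pow_succ, pow_one, mul_assoc]
    rw [this, hbi2]
    have h5 : i * b⁻¹ = b * i := hbi2.symm
    rw [mul_assoc b b, h5]
    rw [mul_assoc b (b * i) b⁻¹, mul_assoc b i b⁻¹, h5]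
  have hII : b ^ 3 * i ∈ II T := by
    rw [h3i]
    exact II_conj hbi b
  obtain ⟨x, e, he, he1, he2, hxe⟩ := hi
  have hxi : x⁻¹ * i * x = e := by rw [hxe]; group
  have h7 : x⁻¹ * (b ^ 3 * i) * x ∈ M := by
    refine h.cent e he he1 _ ?_
    rw [← hxi]
    calc x⁻¹ * (b ^ 3 * i) * x * (x⁻¹ * i * x) = x⁻¹ * (b ^ 3 * i * i) * x := by group
      _ = x⁻¹ * (i * (b ^ 3 * i)) * x := by rw [← mul_assoc i, hcomm]
      _ = x⁻¹ * i * x * (x⁻¹ * (b ^ 3 * i) * x) := by group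
  have h8 : x⁻¹ * (b ^ 3 * i) * x ∈ T := by
    refine I_M h ?_ h7
    have := II_conj hII x⁻¹
    rwa [inv_inv] at this
  have h9 : x⁻¹ * b ^ 3 * x ∈ T := by
    have h10 : x⁻¹ * b ^ 3 * x = x⁻¹ * (b ^ 3 * i) * x * (x⁻¹ * i * x)⁻¹ := by group
    rw [h10, hxi]
    exact T.mul_mem h8 (T.inv_mem he)
  have h10 : x ∈ M := by
    refine EH1 h h9 ?_ ?_
    · intro hh
      apply h3
      have : b ^ 3 = x * (x⁻¹ * b ^ 3 * x) * x⁻¹ := by group
      rw [this, hh]; group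
    · have : x * (x⁻¹ * b ^ 3 * x) * x⁻¹ = b ^ 3 := by group
      rw [this]
      exact M.pow_mem hb 3
  apply hiM
  rw [hxe]
  exact M.mul_mem (M.mul_mem h10 (h.TM he)) (M.inv_mem h10)

end Pool.Agent.H40.GT
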