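import Pool.Agent.H40.GT.EH2b

/-!
# Part EH2c (of EH2a, EH2b, EH2c); GT-32 Theorem E, step 2: the involutions in a coset of `M`

`II T` = all conjugates of the involutions of `T`.
* `I_M`: `i ∈ II`, `i ∈ M` implies `i ∈ T` (`i = x e x⁻¹`, `EH1` gives `x ∈ M`).
* `I_cent`: `i = x e x⁻¹`; everything commuting with `i` is in `x M x⁻¹` (`cent`).
* `I_pair`: `i ∈ II`, `i ∉ M`, `b ∈ M`, `b ≠ 1`, `b i ∈ II`.  Then `i b i = b⁻¹` (squares are 1).  No power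
  `b^k ≠ 1` is in `T` (`i b^k i = b^-k ∈ T` would give `i ∈ M` by `EH_TI`), so the order of `b` is the
  order of `(π b, ε b)`: it is `2, 3` or `6`.  It is not even: let `b0 = b^k`, `k` odd, be the
  involution in `⟨b⟩`; it commutes with `i`; `b0 i = b^j (b i) b^-j` with `1 + 2 j = k`, so
  `b0 i ∈ II`; let `i = x e x⁻¹`; `b0 i` commutes with `i`, so `x⁻¹ (b0 i) x ∈ M ∩ II`, so it is in `T`, so
  `x⁻¹ b0 x ∈ T`, `≠ 1`; but `b0 ∈ M`, so `EH1` (for `x` and `x⁻¹ b0 x`) gives `x ∈ M`, `i ∈ M`: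
  contradiction.  So `b ^ 3 = 1`.
* `I_uniq`: `i ∈ II`, `i ∉ M`, `b, b' ∈ M` of order 3 with `i b i, i b' i ∈ M` and `b, b' ∉ T`: then
  `b' = b` or `b' = b⁻¹`: `(π b', ε b') = (π b, ε b)^(±1)`, so `b' b^(∓1) ∈ T` (`ker`); if it is not 1
  then `EH1` (`x = i`) gives `i ∈ M`.  (Here `i` can be any `x ∉ M` with `x b x⁻¹, x b' x⁻¹ ∈ M`.)
-/

namespace Pool.Agent.H40.GT

variable {Γ : Type} [Group Γ] {T M : Subgroup Γ} {m : ℕ} {c : Γ → Fin 3 → ZMod m}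
  {π : Γ → Equiv.Perm (Fin 3)} {ε : Γ → ℤˣ}

theorem EH2c_inv (h : EH Γ T M m c π ε) {b : Γ} (hb : b ∈ M) :
    π b⁻¹ = (π b)⁻¹ ∧ ε b⁻¹ = (ε b)⁻¹ := by
  have h1 := h.pmul b hb b⁻¹ (M.inv_mem hb)
  rw [mul_inv_cancel] at h1
  have h2 := h.tri 1 (one_mem T)
  rw [h2.1, h2.2] at h1
  exact ⟨(inv_eq_of_mul_eq_one_right h1.1.symm).symm, (inv_eq_of_mul_eq_one_right h1.2.symm).symm⟩

theorem EH2c_perm : ∀ p q : Equiv.Perm (Fin 3), p ≠ 1 → p ^ 3 = 1 → q ≠ 1 → q ^ 3 = 1 →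
    q = p ∨ q = p⁻¹ := by
  decide

theorem I_uniq (h : EH Γ T M m c π ε) {x b b' : Γ} (hx : x ∉ M) (hb : b ∈ M) (hb' : b' ∈ M)
    (h3 : b ^ 3 = 1) (h3' : b' ^ 3 = 1) (hT : b ∉ T) (hT' : b' ∉ T) (hxb : x * b * x⁻¹ ∈ M)
    (hxb' : x * b' * x⁻¹ ∈ M) : b' = b ∨ b' = b⁻¹ := by
  obtain ⟨p1, p2, p3⟩ := EH_ord3 h hb h3 hT
  obtain ⟨q1, q2, q3⟩ := EH_ord3 h hb' h3' hT'
  have hinv := EH2c_inv h hb
  rcases EH2c_perm _ _ p1 p2 q1 q2 with hh | hh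
  · left
    have h4 := h.pmul b' hb' b⁻¹ (M.inv_mem hb)
    rw [hinv.1, hinv.2, hh, p3, q3, mul_inv_cancel, mul_inv_cancel] at h4
    have h5 : b' * b⁻¹ ∈ T := h.ker _ (M.mul_mem hb' (M.inv_mem hb)) h4.1 h4.2
    by_contra hne
    apply hx
    refine EH1 h h5 (fun h6 => hne (mul_inv_eq_one.1 h6)) ?_
    have h7 : x * (b' * b⁻¹) * x⁻¹ = (x * b' * x⁻¹) * (x * b * x⁻¹)⁻¹ := by group
    rw [h7]
    exact M.mul_mem hxb' (M.inv_mem hxb)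
  · right
    have h4 := h.pmul b' hb' b hb
    rw [hh, p3, q3, inv_mul_cancel, mul_one] at h4
    have h5 : b' * b ∈ T := h.ker _ (M.mul_mem hb' hb) h4.1 h4.2
    by_contra hne
    apply hx
    refine EH1 h h5 (fun h6 => hne (mul_eq_one_iff_eq_inv.1 h6)) ?_
    have h7 : x * (b' * b) * x⁻¹ = (x * b' * x⁻¹) * (x * b * x⁻¹) := by group
    rw [h7]
    exact M.mul_mem hxb' hxb

end Pool.Agent.H40.GT
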