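import Pool.Agent.H40.GT.EH2

/-!
# GT-33 Theorem E, step 3: counting the involutions

`|II T| = 3 n`, `n = [Γ : M]`: the conjugate `x e x⁻¹` (`e` one of the three involutions of `T`,
`EH_inv`) determines the coset `x M` (`x e x⁻¹ = x' e' x'⁻¹` gives `(x'⁻¹ x) e (x'⁻¹ x)⁻¹ = e' ∈ M`,
`EH1`), and for a fixed coset one obtains the three elements `x E# x⁻¹` (`M` permutes the
involutions of `T`).  Every right coset `M x` different from `M` contains at most three elements of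
`II T`: if it contains `i`, the others are `b i` with `b` as in `I_pair`, and `b` is one of two
elements by `I_uniq` (`x = i`).  The coset `M` contains exactly 3 (`I_M`).  There are `n - 1` other
cosets and `3 n = 3 + ∑ (≤ 3)`; so each contains exactly three.  Taking `b = d` for one of them:
the three elements are `i, d i, d^2 i`, `d ^ 3 = 1`, `d ≠ 1`, `d ∈ M - T`, `i d i = d⁻¹`.
-/

namespace Pool.Agent.H40.GT

variable {Γ : Type} [Group Γ] {T M : Subgroup Γ} {m : ℕ} {c : Γ → Fin 3 → ZMod m}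
  {π : Γ → Equiv.Perm (Fin 3)} {ε : Γ → ℤˣ}

theorem EH3_sub (h : EH Γ T M m c π ε) {x i j : Γ} (hx : x ∉ M) (hi : i ∈ II T)
    (hix : i * x⁻¹ ∈ M) (hj : j ∈ II T) (hjx : j * x⁻¹ ∈ M) (hij : j ≠ i) :
    ∃ d ∈ M, d ∉ T ∧ d ^ 3 = 1 ∧ i * d * i = d⁻¹ ∧
      {j : Γ | j ∈ II T ∧ j * x⁻¹ ∈ M} ⊆ {i, d * i, d ^ 2 * i} := by
  have hii : i * i = 1 := II_sq hi
  have hinv : i⁻¹ = i := inv_eq_of_mul_eq_one_left hii
  have hiM : i ∉ M := by
    intro hh
    apply hx
    have := M.mul_mem (M.inv_mem hix) hh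
    rwa [mul_inv_rev, inv_inv, inv_mul_cancel_right] at this
  have key : ∀ k ∈ II T, k * x⁻¹ ∈ M → k ≠ i → k * i⁻¹ ∈ M ∧ i * (k * i⁻¹) * i = (k * i⁻¹)⁻¹ ∧
      k * i⁻¹ ∉ T ∧ (k * i⁻¹) ^ 3 = 1 := by
    intro k hk hkx hki
    have h1 : k * i⁻¹ ∈ M := by
      have := M.mul_mem hkx (M.inv_mem hix)
      rwa [mul_inv_rev, inv_inv, ← mul_assoc, inv_mul_cancel_right] at this
    have h2 : k * i⁻¹ ≠ 1 := by
      intro hh
      exact hki (mul_inv_eq_one.1 hh)
    have h3 : (k * i⁻¹) * i ∈ II T := by rwa [inv_mul_cancel_right]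
    exact ⟨h1, I_pair h hi hiM h1 h2 h3⟩
  obtain ⟨a1, a2, a3, a4⟩ := key j hj hjx hij
  refine ⟨j * i⁻¹, a1, a3, a4, a2, ?_⟩
  rintro k ⟨hk, hkx⟩
  by_cases hki : k = i
  · left; exact hki
  · obtain ⟨b1, b2, b3, b4⟩ := key k hk hkx hki
    right
    have e1 : i * (j * i⁻¹) * i⁻¹ ∈ M := by
      rw [hinv]; rw [hinv] at a2 a1
      rw [a2]; exact M.inv_mem a1
    have e2 : i * (k * i⁻¹) * i⁻¹ ∈ M := by
      rw [hinv]; rw [hinv] at b2 b1
      rw [b2]; exact M.inv_mem b1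
    rcases I_uniq h hiM a1 b1 a4 b4 a3 b3 e1 e2 with hh | hh
    · left
      rw [← hh, inv_mul_cancel_right]
    · right
      have h5 : (j * i⁻¹) ^ 2 = (j * i⁻¹)⁻¹ := by
        rw [eq_inv_iff_mul_eq_one, ← pow_succ]
        exact a4
      show k = (j * i⁻¹) ^ 2 * i
      rw [h5, ← hh, inv_mul_cancel_right]

theorem EH3_le (h : EH Γ T M m c π ε) (x : Γ) :
    {j : Γ | j ∈ II T ∧ j * x⁻¹ ∈ M}.ncard ≤ 3 := by
  have := h.fin
  by_cases hx : x ∈ M
  · rw [← EH_inv h]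
    refine Set.ncard_le_ncard ?_ (Set.toFinite _)
    rintro j ⟨hj, hjx⟩
    have hjM : j ∈ M := by
      have := M.mul_mem hjx hx
      rwa [inv_mul_cancel_right] at this
    refine ⟨I_M h hj hjM, ?_, ?_⟩
    · rintro rfl
      obtain ⟨y, e, he, he1, he2, hy⟩ := hj
      apply he1
      have h2 : y * e * y⁻¹ = 1 := hy.symm
      rwa [mul_inv_eq_one, mul_eq_left] at h2
    · rw [sq]; exact II_sq hj
  · by_cases h0 : ∃ i, i ∈ II T ∧ i * x⁻¹ ∈ M
    · obtain ⟨i, hi, hix⟩ := h0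
      by_cases h1 : ∃ j, (j ∈ II T ∧ j * x⁻¹ ∈ M) ∧ j ≠ i
      · obtain ⟨j, ⟨hj, hjx⟩, hij⟩ := h1
        obtain ⟨d, -, -, -, -, hd⟩ := EH3_sub h hx hi hix hj hjx hij
        refine (Set.ncard_le_ncard hd (Set.toFinite _)).trans ?_
        exact (Set.ncard_insert_le _ _).trans
          (Nat.succ_le_succ ((Set.ncard_insert_le _ _).trans (by rw [Set.ncard_singleton])))
      · push_neg at h1
        have : {j : Γ | j ∈ II T ∧ j * x⁻¹ ∈ M} ⊆ {i} := fun j hj => h1 j hj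
        refine (Set.ncard_le_ncard this (Set.toFinite _)).trans ?_
        rw [Set.ncard_singleton]; omega
    · push_neg at h0
      have : {j : Γ | j ∈ II T ∧ j * x⁻¹ ∈ M} = ∅ := by
        ext j
        simp only [Set.mem_setOf_eq, Set.mem_empty_iff_false, iff_false, not_and]
        exact h0 j
      rw [this, Set.ncard_empty]; omega

theorem EH3_card (h : EH Γ T M m c π ε) : (II T).ncard = M.index * 3 := by
  have := h.fin
  rw [← EH_inv h, Subgroup.index, ← Nat.card_coe_set_eq, ← Nat.card_coe_set_eq, ← Nat.card_prod]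
  symm
  have hII : ∀ (y : Γ) (e : {e : Γ | e ∈ T ∧ e ≠ 1 ∧ e ^ 2 = 1}), y * (e : Γ) * y⁻¹ ∈ II T :=
    fun y e => ⟨y, e, e.2.1, e.2.2.1, e.2.2.2, rfl⟩
  refine Nat.card_congr (Equiv.ofBijective
    (fun q : (Γ ⧸ M) × {e : Γ | e ∈ T ∧ e ≠ 1 ∧ e ^ 2 = 1} =>
      (⟨q.1.out * (q.2 : Γ) * q.1.out⁻¹, hII _ _⟩ : II T)) ⟨?_, ?_⟩)
  · rintro ⟨q, ⟨e, he, he1, he2⟩⟩ ⟨q', ⟨e', he', he1', he2'⟩⟩ hq
    have hq' : q.out * e * q.out⁻¹ = q'.out * e' * q'.out⁻¹ := congrArg Subtype.val hq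
    have h1 : (q'.out⁻¹ * q.out) * e * (q'.out⁻¹ * q.out)⁻¹ = e' := by
      have : (q'.out⁻¹ * q.out) * e * (q'.out⁻¹ * q.out)⁻¹ =
          q'.out⁻¹ * (q.out * e * q.out⁻¹) * q'.out := by group
      rw [this, hq']; group
    have h2 : q'.out⁻¹ * q.out ∈ M := EH1 h he he1 (by rw [h1]; exact h.TM he')
    have h3 : q' = q := by
      rw [← QuotientGroup.out_eq' q', ← QuotientGroup.out_eq' q]
      exact QuotientGroup.eq.2 h2
    subst h3
    have h4 : e = e' := by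
      rw [← h1]; group
    subst h4
    rfl
  · rintro ⟨i, z, e, he, he1, he2, rfl⟩
    obtain ⟨n, hn⟩ := QuotientGroup.mk_out_eq_mul M z
    have hout : (QuotientGroup.mk z : Γ ⧸ M).out = z * n := hn
    refine ⟨⟨QuotientGroup.mk z, ⟨(n : Γ)⁻¹ * e * n, ?_, ?_, ?_⟩⟩, ?_⟩
    · have := (h.act _ (M.inv_mem n.2) e he).1
      rwa [inv_inv] at this
    · intro hh
      apply he1
      have : e = n * ((n : Γ)⁻¹ * e * n) * (n : Γ)⁻¹ := by group
      rw [this, hh]; group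
    · have : ((n : Γ)⁻¹ * e * n) ^ 2 = (n : Γ)⁻¹ * e ^ 2 * n := by
        rw [sq, sq]; group
      rw [this, he2]; group
    · apply Subtype.ext
      show (QuotientGroup.mk z : Γ ⧸ M).out * ((n : Γ)⁻¹ * e * n) *
        (QuotientGroup.mk z : Γ ⧸ M).out⁻¹ = z * e * z⁻¹
      rw [hout]; group

theorem EH3_eq (h : EH Γ T M m c π ε) (x : Γ) :
    {j : Γ | j ∈ II T ∧ j * x⁻¹ ∈ M}.ncard = 3 := by
  classical
  have := h.fin
  have := Fintype.ofFinite Γ
  have := Fintype.ofFinite (Quotient (QuotientGroup.rightRel M))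
  let g : Γ → Quotient (QuotientGroup.rightRel M) := fun y => Quotient.mk _ y
  let F : Finset Γ := (II T).toFinset
  have hF : F.card = M.index * 3 := by
    rw [← EH3_card h, Set.ncard_eq_toFinset_card']
  have hQ : Fintype.card (Quotient (QuotientGroup.rightRel M)) = M.index := by
    rw [Subgroup.index, ← Nat.card_eq_fintype_card]
    exact Nat.card_congr (QuotientGroup.quotientRightRelEquivQuotientLeftRel M)
  have hfib : ∀ y : Γ, (F.filter fun j => g j = g y).card =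
      {j : Γ | j ∈ II T ∧ j * y⁻¹ ∈ M}.ncard := by
    intro y
    rw [Set.ncard_eq_toFinset_card']
    congr 1
    ext j
    simp only [Finset.mem_filter, Set.mem_toFinset, Set.mem_setOf_eq, F, g]
    refine and_congr_right fun _ => ?_
    rw [Quotient.eq, QuotientGroup.rightRel_apply]
    constructor
    · intro hh
      have := M.inv_mem hh
      rwa [mul_inv_rev, inv_inv] at this
    · intro hh
      have := M.inv_mem hh
      rwa [mul_inv_rev, inv_inv] at this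
  have hsum : F.card = ∑ q : Quotient (QuotientGroup.rightRel M),
      (F.filter fun j => g j = q).card :=
    Finset.card_eq_sum_card_fiberwise fun y _ => Finset.mem_coe.2 (Finset.mem_univ (g y))
  have hle : ∀ q ∈ (Finset.univ : Finset (Quotient (QuotientGroup.rightRel M))),
      (F.filter fun j => g j = q).card ≤ 3 := by
    intro q _
    induction q using Quotient.inductionOn with
    | h y => exact (hfib y).trans_le (EH3_le h y)
  have hs2 : ∑ q : Quotient (QuotientGroup.rightRel M), (F.filter fun j => g j = q).card =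
      ∑ _q : Quotient (QuotientGroup.rightRel M), 3 := by
    rw [← hsum, hF, Finset.sum_const, Finset.card_univ, hQ, smul_eq_mul]
  have := (Finset.sum_eq_sum_iff_of_le hle).1 hs2 (g x) (Finset.mem_univ _)
  rw [hfib] at this
  exact this

theorem EH3 (h : EH Γ T M m c π ε) {x : Γ} (hx : x ∉ M) :
    ∃ i ∈ II T, i * x⁻¹ ∈ M ∧ ∃ d ∈ M, d ∉ T ∧ d ^ 3 = 1 ∧ i * d * i = d⁻¹ ∧
      {j : Γ | j ∈ II T ∧ j * x⁻¹ ∈ M} = {i, d * i, d ^ 2 * i} := by
  have := h.fin
  have h3 := EH3_eq h x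
  obtain ⟨i, ⟨hi, hix⟩, j, ⟨hj, hjx⟩, hij⟩ := (Set.one_lt_ncard (Set.toFinite _)).1
    (show 1 < {j : Γ | j ∈ II T ∧ j * x⁻¹ ∈ M}.ncard by omega)
  obtain ⟨d, hd, d1, d2, d3, d4⟩ := EH3_sub h hx hi hix hj hjx hij.symm
  refine ⟨i, hi, hix, d, hd, d1, d2, d3, Set.eq_of_subset_of_ncard_le d4 ?_ (Set.toFinite _)⟩
  rw [h3]
  exact (Set.ncard_insert_le _ _).trans
    (Nat.succ_le_succ ((Set.ncard_insert_le _ _).trans (by rw [Set.ncard_singleton])))

end Pool.Agent.H40.GT
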