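import Pool.Agent.H40.GT.EH3

/-!
# Part EH4a (of EH4a, EH4b, EH4c); GT-34 Theorem E, step 4: the elements of order 3

Fix `d ∈ M`, `d ∉ T`, `d ^ 3 = 1`.  `Fx M d` = the left cosets `α = x M` fixed by `d`
(`x⁻¹ d x ∈ M`), `f` its number of elements, `Iv` = the elements of `II T` with `i d i = d⁻¹`.
`N = {x | x d x⁻¹ = d ∨ x d x⁻¹ = d⁻¹}` (normaliser of `⟨d⟩`), `C` = centraliser of `d`.
* `Iv_notM`: `i ∈ Iv` is not in `M`: else `i ∈ T` (`I_M`) and `d⁻¹ = i d i ∈ d T`..., `π d⁻¹ = π d`,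
  `d^2 ∈ T`, `d ∈ T`.
* `Iv_card`: `|Iv| = 3 (f - 1)`: `i ↦ i M` maps `Iv` into `Fx - {M}` (`d i M = i d⁻¹ M = i M`), and every
  fibre has three elements: let `α = x M ∈ Fx`, `x ∉ M`; apply `EH3` to `x⁻¹`: the elements of `II T` in
  `M x⁻¹` are `j, d' j, d'^2 j`, their inverses (= themselves) are the elements of `II T` in `x M`.
  `d' ∈ M`, `j d' j = d'⁻¹ ∈ M`, and `j d j ∈ M` because `d` fixes `x M = j M`; by `I_uniq`
  (`x = j`) `d' = d^(±1)`; so all three are in `Iv`.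
* `N_card`: if `f ≥ 2`: `|N| = f * |N ∩ M|` (the group `N` acts transitively on `Fx`: `i ∈ Iv ⊆ N` maps
  `M` to any `α ∈ Fx - {M}`), and `|N| = 2 |C|` (`i ∈ N - C`).  So `2 |C| = f |N ∩ M|`.
* `C_div`: for `i ∈ Iv`, `i = x e x⁻¹`, `e ∈ T`: let `D` = the elements of `C` commuting with `i`.
  `x⁻¹ D x ≤ M` (`cent`), it commutes with `e`, and `x⁻¹ D x ∩ T = 1`: let `v ∈ D`, `t = x⁻¹ v x ∈ T`,
  `t ≠ 1`; `d` commutes with `v`, so `x⁻¹ d x` commutes with `t`, so it is in `M`; `e` inverts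
  `x⁻¹ d x ∈ M`, so `x⁻¹ d x ∈ T` (`π`, `ε`: `e ∈ T`), `EH1` gives `x ∈ M`, `i ∈ M`, contradiction to
  `Iv_notM`.  The centraliser of `e` in `M` has index 3 in `M` (`d` moves the three involutions
  cyclically, `EH_rot`), it contains `T` (normal) and `x⁻¹ D x`, so `|T| |D|` divides `|M| / 3`.
-/

namespace Pool.Agent.H40.GT

variable {Γ : Type} [Group Γ] {T M : Subgroup Γ} {m : ℕ} {c : Γ → Fin 3 → ZMod m}
  {π : Γ → Equiv.Perm (Fin 3)} {ε : Γ → ℤˣ}

/-- fixed cosets -/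
def Fx (M : Subgroup Γ) (d : Γ) : Set (Γ ⧸ M) := {α | d • α = α}

/-- involutions inverting `d` -/
def Iv (T : Subgroup Γ) (d : Γ) : Set Γ := {i | i ∈ II T ∧ i * d * i = d⁻¹}

/-- the normaliser of the group generated by `d` (for `d ^ 3 = 1`) -/
def Nd (d : Γ) (hd : d ^ 3 = 1) : Subgroup Γ where
  carrier := {x | x * d * x⁻¹ = d ∨ x * d * x⁻¹ = d⁻¹}
  one_mem' := by simp
  mul_mem' := by
    intro x y hx hy
    have e1 : x * y * d * (x * y)⁻¹ = x * (y * d * y⁻¹) * x⁻¹ := by group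
    have e2 : x * d⁻¹ * x⁻¹ = (x * d * x⁻¹)⁻¹ := by group
    show x * y * d * (x * y)⁻¹ = d ∨ x * y * d * (x * y)⁻¹ = d⁻¹
    rcases hy with hy | hy
    · rw [e1, hy]
      exact hx
    · rw [e1, hy, e2]
      rcases hx with hx | hx
      · right
        rw [hx]
      · left
        rw [hx, inv_inv]
  inv_mem' := by
    intro x hx
    show x⁻¹ * d * x⁻¹⁻¹ = d ∨ x⁻¹ * d * x⁻¹⁻¹ = d⁻¹
    rw [inv_inv]
    rcases hx with hx | hx
    · left
      nth_rewrite 1 [← hx]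
      group
    · right
      have e3 : x⁻¹ * (x * d * x⁻¹)⁻¹ * x = d⁻¹ := by group
      rw [hx, inv_inv] at e3
      exact e3

/-- the centraliser of `d` -/
def Cd (d : Γ) : Subgroup Γ := Subgroup.centralizer {d}

theorem EH4a_perm : ∀ b : Equiv.Perm (Fin 3), b ≠ 1 → b ^ 3 = 1 → b ≠ b⁻¹ := by
  decide

theorem EH4a_inv (h : EH Γ T M m c π ε) {x : Γ} (hx : x ∈ M) : π x⁻¹ = (π x)⁻¹ := by
  have h1 := h.tri 1 (one_mem T)
  have h2 := h.pmul x hx x⁻¹ (inv_mem hx)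
  rw [mul_inv_cancel, h1.1] at h2
  exact (inv_eq_of_mul_eq_one_right h2.1.symm).symm

theorem Iv_notM (h : EH Γ T M m c π ε) {d : Γ} (hd : d ∈ M) (hT : d ∉ T) (h3 : d ^ 3 = 1)
    {i : Γ} (hi : i ∈ Iv T d) : i ∉ M := by
  intro hM
  obtain ⟨hd1, hd2, hd3⟩ := EH_ord3 h hd h3 hT
  have iT := I_M h hi.1 hM
  have e1 := congrArg π hi.2
  rw [(h.pmul _ (mul_mem hM hd) _ hM).1, (h.pmul _ hM _ hd).1, (h.tri i iT).1, one_mul, mul_one,
    EH4a_inv h hd] at e1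
  exact EH4a_perm _ hd1 hd2 e1

theorem EH4a_fx {d x : Γ} : (x : Γ ⧸ M) ∈ Fx M d ↔ x⁻¹ * d * x ∈ M := by
  show d • (x : Γ ⧸ M) = (x : Γ ⧸ M) ↔ _
  rw [MulAction.Quotient.smul_coe, smul_eq_mul, eq_comm, QuotientGroup.eq, mul_assoc]

theorem EH4a_di {d i : Γ} (hi : i ∈ Iv T d) : i⁻¹ = i ∧ i * d * i⁻¹ = d⁻¹ := by
  have e0 : i⁻¹ = i := inv_eq_of_mul_eq_one_left (II_sq hi.1)
  exact ⟨e0, by rw [e0]; exact hi.2⟩

theorem EH4a_fix {d : Γ} (hd : d ∈ M) {i : Γ} (hi : i ∈ Iv T d) :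
    (i : Γ ⧸ M) ∈ Fx M d := by
  rw [EH4a_fx, (EH4a_di hi).1, hi.2]
  exact inv_mem hd

theorem EH4a_fib (h : EH Γ T M m c π ε) {d : Γ} (hd : d ∈ M) (hT : d ∉ T) (h3 : d ^ 3 = 1)
    {x : Γ} (hx : x ∉ M) (hf : (x : Γ ⧸ M) ∈ Fx M d) :
    {j : Γ | j ∈ Iv T d ∧ (j : Γ ⧸ M) = (x : Γ ⧸ M)}.ncard = 3 := by
  rw [EH4a_fx] at hf
  have hx' : x⁻¹ ∉ M := fun q => hx ((inv_mem_iff).1 q)
  obtain ⟨i, hi, hix, d', hd', hT', h3', hid, hset⟩ := EH3 h hx'
  rw [inv_inv] at hix hset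
  have i0 : i⁻¹ = i := inv_eq_of_mul_eq_one_left (II_sq hi)
  have ii : i * i = 1 := II_sq hi
  have hiM : i ∉ M := by
    intro q
    apply hx
    have := mul_mem (inv_mem q) hix
    rwa [inv_mul_cancel_left] at this
  have hidi : i * d * i⁻¹ ∈ M := by
    have e : i * d * i⁻¹ = (i * x) * (x⁻¹ * d * x) * (i * x)⁻¹ := by group
    rw [e]
    exact mul_mem (mul_mem hix hf) (inv_mem hix)
  have hidi' : i * d' * i⁻¹ ∈ M := by
    rw [i0, hid]
    exact inv_mem hd'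
  have hdd := I_uniq h hiM hd' hd h3' h3 hT' hT hidi' hidi
  have hid2 : i * d * i = d⁻¹ := by
    rcases hdd with e | e
    · rw [e, hid]
    · have e1 : i * d'⁻¹ * i = (i * d' * i)⁻¹ := by
        rw [mul_inv_rev, mul_inv_rev, i0, ← mul_assoc]
      rw [e, e1, hid]
  have hcom : d' * d = d * d' := by
    rcases hdd with e | e
    · rw [e]
    · rw [e, mul_inv_cancel, inv_mul_cancel]
  have hd'1 : d' ≠ 1 := by
    rintro rfl
    exact hT' (one_mem T)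
  have hd'2 : d' ^ 2 ≠ 1 := by
    intro q
    rw [pow_succ, q, one_mul] at h3'
    exact hd'1 h3'
  have key : ∀ k : ℕ, d' ^ k * i ∈ II T → d' ^ k * i ∈ Iv T d := by
    intro k hk
    refine ⟨hk, ?_⟩
    have c1 : Commute (d' ^ k) d := Commute.pow_left hcom k
    have c2 : i * d' ^ k * i = (d' ^ k)⁻¹ := by
      have : i * d' ^ k * i⁻¹ = (i * d' * i⁻¹) ^ k := (conj_pow).symm
      rw [i0, hid] at this
      rw [this, inv_pow]
    calc d' ^ k * i * d * (d' ^ k * i) = d' ^ k * i * (d * d' ^ k) * i := by group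
      _ = d' ^ k * i * (d' ^ k * d) * i := by rw [c1.eq]
      _ = d' ^ k * (i * d' ^ k * i) * (i⁻¹ * d * i⁻¹⁻¹) := by group
      _ = d⁻¹ := by rw [c2, i0, i0, hid2, mul_inv_cancel, one_mul]
  have hset2 : {j : Γ | j ∈ Iv T d ∧ (j : Γ ⧸ M) = (x : Γ ⧸ M)} = {i, d' * i, d' ^ 2 * i} := by
    rw [← hset]
    ext j
    constructor
    · rintro ⟨j1, j2⟩
      rw [QuotientGroup.eq, (EH4a_di j1).1] at j2
      exact ⟨j1.1, j2⟩
    · rintro ⟨j1, j2⟩
      have jj : j⁻¹ = j := inv_eq_of_mul_eq_one_left (II_sq j1)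
      refine ⟨?_, ?_⟩
      · have hm : j ∈ ({i, d' * i, d' ^ 2 * i} : Set Γ) := by
          rw [← hset]
          exact ⟨j1, j2⟩
        rcases hm with hm | hm | hm
        · rw [hm]
          exact ⟨hi, hid2⟩
        · have := key 1 (by rw [pow_one, ← hm]; exact j1)
          rw [pow_one, ← hm] at this
          exact this
        · have hm' : j = d' ^ 2 * i := hm
          have := key 2 (by rw [← hm']; exact j1)
          rw [← hm'] at this
          exact this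
      · rw [QuotientGroup.eq, jj]
        exact j2
  rw [hset2, Set.ncard_eq_three]
  refine ⟨i, d' * i, d' ^ 2 * i, ?_, ?_, ?_, rfl⟩
  · intro q
    exact hd'1 (mul_eq_right.1 q.symm)
  · intro q
    exact hd'2 (mul_eq_right.1 q.symm)
  · intro q
    have := mul_right_cancel q
    rw [pow_two] at this
    exact hd'1 (mul_eq_left.1 this.symm)

theorem Iv_card (h : EH Γ T M m c π ε) {d : Γ} (hd : d ∈ M) (hT : d ∉ T) (h3 : d ^ 3 = 1) :
    (Iv T d).ncard + 3 = 3 * (Fx M d).ncard := by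
  classical
  have hfin := h.fin
  have hone : ((1 : Γ) : Γ ⧸ M) ∈ Fx M d := by
    rw [EH4a_fx]
    simpa using hd
  have e1 : (Fx M d).ncard = (Fx M d \ {((1 : Γ) : Γ ⧸ M)}).ncard + 1 :=
    (Set.ncard_diff_singleton_add_one hone (Set.toFinite _)).symm
  have e2 : (Iv T d).ncard = 3 * (Fx M d \ {((1 : Γ) : Γ ⧸ M)}).ncard := by
    rw [Set.ncard_eq_toFinset_card (Iv T d) (Set.toFinite _),
      Set.ncard_eq_toFinset_card (Fx M d \ {((1 : Γ) : Γ ⧸ M)}) (Set.toFinite _)]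
    rw [Finset.card_eq_sum_card_fiberwise (f := fun j : Γ => (j : Γ ⧸ M))
      (t := (Set.toFinite (Fx M d \ {((1 : Γ) : Γ ⧸ M)})).toFinset)]
    · rw [Finset.sum_congr rfl (g := fun _ => 3), Finset.sum_const, smul_eq_mul, mul_comm]
      intro α hα
      rw [Set.Finite.mem_toFinset] at hα
      obtain ⟨x, rfl⟩ := QuotientGroup.mk_surjective α
      have hx : x ∉ M := by
        intro q
        apply hα.2
        show (x : Γ ⧸ M) = ((1 : Γ) : Γ ⧸ M)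
        rw [eq_comm, QuotientGroup.eq, inv_one, one_mul]
        exact q
      rw [← EH4a_fib h hd hT h3 hx hα.1, Set.ncard_eq_toFinset_card _ (Set.toFinite _)]
      congr 1
      ext j
      rw [Finset.mem_filter, Set.Finite.mem_toFinset, Set.Finite.mem_toFinset]
      rfl
    · intro j hj
      rw [Finset.mem_coe, Set.Finite.mem_toFinset] at hj
      rw [Finset.mem_coe, Set.Finite.mem_toFinset]
      refine ⟨EH4a_fix hd hj, ?_⟩
      intro q
      have q' : (j : Γ ⧸ M) = ((1 : Γ) : Γ ⧸ M) := q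
      rw [eq_comm, QuotientGroup.eq, inv_one, one_mul] at q'
      exact Iv_notM h hd hT h3 hj q'
  rw [e2, e1]
  ring

end Pool.Agent.H40.GT
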