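import Pool.Agent.H40.GT.EH4a

/-!
# Part EH4b (of EH4a, EH4b, EH4c); GT-34 Theorem E, step 4: the elements of order 3

Fix `d ∈ M`, `d ∉ T`, `d ^ 3 = 1`.  `Fx M d` = the left cosets `α = x M` fixed by `d`
(`x⁻¹ d x ∈ M`), `f` its number of elements, `Iv` = the elements of `II T` with `i d i = d⁻¹`.
`N = {x | x d x⁻¹ = d ∨ x d x⁻¹ = d⁻¹}` (normaliser of `⟨d⟩`), `C` = centraliser of `d`.
* `Iv_notM`: `i ∈ Iv` is not in `M`: else `i ∈ T` (`I_M`) and `d⁻¹ = i d i ∈ d T`..., `π d⁻¹ = π d`,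
  `d^2 ∈ T`, `d ∈ T`.
* `Iv_card`: `|Iv| = 3 (f - 1)`: `i ↦ i M` maps `Iv` into `Fx - {M}` (`d i M = i d⁻¹ M = i M`), and every
  fibre has three elements: let `α = x M ∈ Fx`, `x ∉ M`; apply `EH3` to `x⁻¹`: the elements of `II T` in
  `M x⁻¹` are `j, d' j, d'^2 j`, their inverses (= themselves) are the elements of `II T` in `x M`.
  `d' ∈ M`, `j d' j = d'⁻¹ ∈ M`, and `j d j ∈ M` because `d` fixes `x M = j M`; by `I_uniq`
  (`x = j`) `d' = d^(±1)`; so all three are in `Iv`.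
* `N_card`: if `f ≥ 2`: `|N| = f * |N ∩ M|` (the group `N` acts transitively on `Fx`: `i ∈ Iv ⊆ N` maps
  `M` to any `α ∈ Fx - {M}`), and `|N| = 2 |C|` (`i ∈ N - C`).  So `2 |C| = f |N ∩ M|`.
* `C_div`: for `i ∈ Iv`, `i = x e x⁻¹`, `e ∈ T`: let `D` = the elements of `C` commuting with `i`.
  `x⁻¹ D x ≤ M` (`cent`), it commutes with `e`, and `x⁻¹ D x ∩ T = 1`: let `v ∈ D`, `t = x⁻¹ v x ∈ T`,
  `t ≠ 1`; `d` commutes with `v`, so `x⁻¹ d x` commutes with `t`, so it is in `M`; `e` inverts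
  `x⁻¹ d x ∈ M`, so `x⁻¹ d x ∈ T` (`π`, `ε`: `e ∈ T`), `EH1` gives `x ∈ M`, `i ∈ M`, contradiction to
  `Iv_notM`.  The centraliser of `e` in `M` has index 3 in `M` (`d` moves the three involutions
  cyclically, `EH_rot`), it contains `T` (normal) and `x⁻¹ D x`, so `|T| |D|` divides `|M| / 3`.
-/

namespace Pool.Agent.H40.GT

variable {Γ : Type} [Group Γ] {T M : Subgroup Γ} {m : ℕ} {c : Γ → Fin 3 → ZMod m}
  {π : Γ → Equiv.Perm (Fin 3)} {ε : Γ → ℤˣ}

theorem EH4b_half {G : Type} [Group G] (A B : Subgroup G) (hAB : A ≤ B) {i : G} (hi : i ∈ B)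
    (hx : ∀ b ∈ B, Xor (b * i ∈ A) (b ∈ A)) : Nat.card B = 2 * Nat.card A := by
  have e1 : (A.subgroupOf B).index = 2 := by
    rw [Subgroup.index_eq_two_iff]
    refine ⟨⟨i, hi⟩, fun b => ?_⟩
    exact hx b b.2
  have e2 := Subgroup.card_mul_index (A.subgroupOf B)
  rw [e1, Nat.card_congr (Subgroup.subgroupOfEquivOfLe hAB).toEquiv] at e2
  rw [← e2, mul_comm]

theorem EH4b_mem {d : Γ} (h3 : d ^ 3 = 1) {i : Γ} (hi : i ∈ Iv T d) : i ∈ Nd d h3 :=
  Or.inr (EH4a_di hi).2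

theorem EH4b_orb (h : EH Γ T M m c π ε) {d : Γ} (hd : d ∈ M) (hT : d ∉ T) (h3 : d ^ 3 = 1) :
    MulAction.orbit (Nd d h3) ((1 : Γ) : Γ ⧸ M) = Fx M d := by
  ext α
  constructor
  · rintro ⟨⟨n, hn⟩, rfl⟩
    show (n • ((1 : Γ) : Γ ⧸ M)) ∈ Fx M d
    rw [MulAction.Quotient.smul_coe, smul_eq_mul, mul_one, EH4a_fx]
    have hn' := inv_mem hn
    rcases hn' with q | q
    · rw [inv_inv] at q
      rw [q]
      exact hd
    · rw [inv_inv] at q
      rw [q]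
      exact inv_mem hd
  · intro hα
    obtain ⟨x, rfl⟩ := QuotientGroup.mk_surjective α
    by_cases hx : x ∈ M
    · refine ⟨1, ?_⟩
      show (1 : Γ) • ((1 : Γ) : Γ ⧸ M) = (x : Γ ⧸ M)
      rw [one_smul, QuotientGroup.eq, inv_one, one_mul]
      exact hx
    · have e := EH4a_fib h hd hT h3 hx hα
      have hne : {j : Γ | j ∈ Iv T d ∧ (j : Γ ⧸ M) = (x : Γ ⧸ M)}.Nonempty := by
        rw [Set.nonempty_iff_ne_empty]
        intro q
        rw [q, Set.ncard_empty] at e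
        omega
      obtain ⟨j, hj1, hj2⟩ := hne
      refine ⟨⟨j, EH4b_mem h3 hj1⟩, ?_⟩
      show j • ((1 : Γ) : Γ ⧸ M) = (x : Γ ⧸ M)
      rw [MulAction.Quotient.smul_coe, smul_eq_mul, mul_one]
      exact hj2

theorem EH4b_stab {d : Γ} (h3 : d ^ 3 = 1) :
    MulAction.stabilizer (Nd d h3) ((1 : Γ) : Γ ⧸ M) = M.subgroupOf (Nd d h3) := by
  ext n
  rw [MulAction.mem_stabilizer_iff, Subgroup.mem_subgroupOf]
  show (n : Γ) • ((1 : Γ) : Γ ⧸ M) = ((1 : Γ) : Γ ⧸ M) ↔ _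
  rw [MulAction.Quotient.smul_coe, smul_eq_mul, mul_one, eq_comm, QuotientGroup.eq, inv_one,
    one_mul]

theorem N_card (h : EH Γ T M m c π ε) {d : Γ} (hd : d ∈ M) (hT : d ∉ T) (h3 : d ^ 3 = 1)
    (h2 : 2 ≤ (Fx M d).ncard) : 2 * Nat.card (Cd d) =
      (Fx M d).ncard * Nat.card (Nd d h3 ⊓ M : Subgroup Γ) := by
  have hfin := h.fin
  have e1 : Nat.card (Nd d h3) = (Fx M d).ncard * Nat.card (Nd d h3 ⊓ M : Subgroup Γ) := by
    have a1 := MulAction.index_stabilizer (Nd d h3) ((1 : Γ) : Γ ⧸ M)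
    rw [EH4b_orb h hd hT h3, EH4b_stab h3] at a1
    have a2 := Subgroup.card_mul_index (M.subgroupOf (Nd d h3))
    rw [a1] at a2
    have a3 : Nat.card (M.subgroupOf (Nd d h3)) = Nat.card (Nd d h3 ⊓ M : Subgroup Γ) := by
      rw [← Subgroup.inf_subgroupOf_left]
      exact Nat.card_congr (Subgroup.subgroupOfEquivOfLe inf_le_left).toEquiv
    rw [← a2, a3, mul_comm]
  rw [← e1]
  have hne : (Iv T d).Nonempty := by
    have e := Iv_card h hd hT h3
    rw [Set.nonempty_iff_ne_empty]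
    intro q
    rw [q, Set.ncard_empty] at e
    omega
  obtain ⟨i, hi⟩ := hne
  have d1 : d ≠ 1 := by
    rintro rfl
    exact hT (one_mem T)
  have dd : d ≠ d⁻¹ := by
    intro q
    apply d1
    have : d * d = 1 := by
      nth_rewrite 2 [q]
      exact mul_inv_cancel d
    rw [pow_succ, pow_two, this, one_mul] at h3
    exact h3
  symm
  have hC : ∀ x : Γ, x ∈ Cd d ↔ x * d * x⁻¹ = d := by
    intro x
    unfold Cd
    rw [Subgroup.mem_centralizer_singleton_iff, mul_inv_eq_iff_eq_mul, eq_comm]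
  apply EH4b_half (Cd d) (Nd d h3) _ (EH4b_mem h3 hi)
  · intro b hb
    have f1 : b * i * d * (b * i)⁻¹ = (b * d * b⁻¹)⁻¹ := by
      have : b * i * d * (b * i)⁻¹ = b * (i * d * i⁻¹) * b⁻¹ := by group
      rw [this, (EH4a_di hi).2]
      group
    rw [hC, hC, f1]
    rcases hb with q | q
    · right
      rw [q]
      exact ⟨rfl, fun w => dd w.symm⟩
    · left
      rw [q, inv_inv]
      exact ⟨rfl, fun w => dd w.symm⟩
  · intro x hx
    left
    exact (hC x).1 hx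

end Pool.Agent.H40.GT
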