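import Pool.Agent.H40.GT.EH4b

/-!
# Part EH4c (of EH4a, EH4b, EH4c); GT-34 Theorem E, step 4: the elements of order 3

Fix `d ∈ M`, `d ∉ T`, `d ^ 3 = 1`.  `Fx M d` = the left cosets `α = x M` fixed by `d`
(`x⁻¹ d x ∈ M`), `f` its number of elements, `Iv` = the elements of `II T` with `i d i = d⁻¹`.
`N = {x | x d x⁻¹ = d ∨ x d x⁻¹ = d⁻¹}` (normaliser of `⟨d⟩`), `C` = centraliser of `d`.
* `Iv_notM`: `i ∈ Iv` is not in `M`: else `i ∈ T` (`I_M`) and `d⁻¹ = i d i ∈ d T`..., `π d⁻¹ = π d`,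
  `d^2 ∈ T`, `d ∈ T`.
* `Iv_card`: `|Iv| = 3 (f - 1)`: `i ↦ i M` maps `Iv` into `Fx - {M}` (`d i M = i d⁻¹ M = i M`), and every
  fibre has three elements: let `α = x M ∈ Fx`, `x ∉ M`; apply `EH3` to `x⁻¹`: the elements of `II T` in
  `M x⁻¹` are `j, d' j, d'^2 j`, their inverses (= themselves) are the elements of `II T` in `x M`.
  `d' ∈ M`, `j d' j = d'⁻¹ ∈ M`, and `j d j ∈ M` because `d` fixes `x M = j M`; by `I_uniq`
  (`x = j`) `d' = d^(±1)`; so all three are in `Iv`.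
* `N_card`: if `f ≥ 2`: `|N| = f * |N ∩ M|` (the group `N` acts transitively on `Fx`: `i ∈ Iv ⊆ N` maps
  `M` to any `α ∈ Fx - {M}`), and `|N| = 2 |C|` (`i ∈ N - C`).  So `2 |C| = f |N ∩ M|`.
* `C_div`: for `i ∈ Iv`, `i = x e x⁻¹`, `e ∈ T`: let `D` = the elements of `C` commuting with `i`.
  `x⁻¹ D x ≤ M` (`cent`), it commutes with `e`, and `x⁻¹ D x ∩ T = 1`: let `v ∈ D`, `t = x⁻¹ v x ∈ T`,
  `t ≠ 1`; `d` commutes with `v`, so `x⁻¹ d x` commutes with `t`, so it is in `M`; `e` inverts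
  `x⁻¹ d x ∈ M`, so `x⁻¹ d x ∈ T` (`π`, `ε`: `e ∈ T`), `EH1` gives `x ∈ M`, `i ∈ M`, contradiction to
  `Iv_notM`.  The centraliser of `e` in `M` has index 3 in `M` (`d` moves the three involutions
  cyclically, `EH_rot`), it contains `T` (normal) and `x⁻¹ D x`, so `|T| |D|` divides `|M| / 3`.
-/

namespace Pool.Agent.H40.GT

variable {Γ : Type} [Group Γ] {T M : Subgroup Γ} {m : ℕ} {c : Γ → Fin 3 → ZMod m}
  {π : Γ → Equiv.Perm (Fin 3)} {ε : Γ → ℤˣ}

theorem EH4c_three (h : EH Γ T M m c π ε) {d : Γ} (hd : d ∈ M) (hT : d ∉ T) (h3 : d ^ 3 = 1)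
    {e : Γ} (he : e ∈ T) (he1 : e ≠ 1) (he2 : e ^ 2 = 1) :
    ∀ e' ∈ T, e' ≠ 1 → e' ^ 2 = 1 → ∃ x ∈ M, x * e * x⁻¹ = e' := by
  intro e' h1 h2 h4
  obtain ⟨hd1, hd2, hd3⟩ := EH_ord3 h hd h3 hT
  have r1 := (EH_rot h hd hd1 hd2 he he1 he2).1
  have r2 : d⁻¹ * e * d ≠ e := by
    intro q
    apply r1
    nth_rewrite 1 [← q]
    group
  have r3 : d * e * d⁻¹ ≠ d⁻¹ * e * d := by
    intro q
    apply r2
    have e1 : d⁻¹ * (d * e * d⁻¹) * d = d⁻¹ * (d⁻¹ * e * d) * d := by rw [q]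
    have e2 : d⁻¹ * (d * e * d⁻¹) * d = e := by group
    have e3 : d⁻¹ * (d⁻¹ * e * d) * d = d ^ 3 * (d⁻¹ * (d⁻¹ * e * d) * d) * (d ^ 3)⁻¹ := by
      rw [h3, inv_one, one_mul, mul_one]
    have e4 : d ^ 3 * (d⁻¹ * (d⁻¹ * e * d) * d) * (d ^ 3)⁻¹ = d * e * d⁻¹ := by group
    rw [e2, e3, e4] at e1
    rw [← q]
    exact e1.symm
  have hs : ∀ x ∈ M, x * e * x⁻¹ ∈ {e : Γ | e ∈ T ∧ e ≠ 1 ∧ e ^ 2 = 1} := by
    intro x hx
    refine ⟨(h.act x hx e he).1, ?_, ?_⟩
    · intro q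
      apply he1
      have : e = x⁻¹ * (x * e * x⁻¹) * x := by group
      rw [this, q]
      group
    · rw [conj_pow, he2]
      group
  have hsub : ({e, d * e * d⁻¹, d⁻¹ * e * d} : Set Γ) ⊆ {e : Γ | e ∈ T ∧ e ≠ 1 ∧ e ^ 2 = 1} := by
    intro y hy
    rcases hy with rfl | rfl | hy
    · exact ⟨he, he1, he2⟩
    · exact hs d hd
    · have hy' : y = d⁻¹ * e * d := hy
      have := hs d⁻¹ (inv_mem hd)
      rw [inv_inv] at this
      rw [hy']
      exact this
  have hfin := h.fin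
  have heq := Set.eq_of_subset_of_ncard_le hsub (by
    rw [EH_inv h, Set.ncard_eq_three.2 ⟨e, d * e * d⁻¹, d⁻¹ * e * d, r1.symm, r2.symm, r3, rfl⟩])
    (Set.toFinite _)
  have hm : e' ∈ ({e, d * e * d⁻¹, d⁻¹ * e * d} : Set Γ) := by
    rw [heq]
    exact ⟨h1, h2, h4⟩
  rcases hm with hm | hm | hm
  · exact ⟨1, one_mem M, by rw [hm]; group⟩
  · exact ⟨d, hd, by rw [hm]⟩
  · have hm' : e' = d⁻¹ * e * d := hm
    exact ⟨d⁻¹, inv_mem hd, by rw [hm', inv_inv]⟩

theorem EH4c_index (h : EH Γ T M m c π ε) {d : Γ} (hd : d ∈ M) (hT : d ∉ T) (h3 : d ^ 3 = 1)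
    {e : Γ} (he : e ∈ T) (he1 : e ≠ 1) (he2 : e ^ 2 = 1) :
    Nat.card M = 3 * Nat.card (M ⊓ Subgroup.centralizer {e} : Subgroup Γ) := by
  have hfin := h.fin
  have c1 : Nat.card (M ⊓ Subgroup.centralizer {e} : Subgroup Γ) =
      Nat.card ((Subgroup.centralizer {e}).subgroupOf M) := by
    rw [← Subgroup.inf_subgroupOf_left]
    exact (Nat.card_congr (Subgroup.subgroupOfEquivOfLe inf_le_left).toEquiv).symm
  have hmem : ∀ x : M, (x : Γ) * e * (x : Γ)⁻¹ ∈ {e : Γ | e ∈ T ∧ e ≠ 1 ∧ e ^ 2 = 1} := by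
    intro x
    refine ⟨(h.act x x.2 e he).1, ?_, ?_⟩
    · intro q
      apply he1
      have : e = (x : Γ)⁻¹ * ((x : Γ) * e * (x : Γ)⁻¹) * x := by group
      rw [this, q]
      group
    · rw [conj_pow, he2]
      group
  have hiff : ∀ x y : M, (x : Γ) * e * (x : Γ)⁻¹ = (y : Γ) * e * (y : Γ)⁻¹ ↔
      x⁻¹ * y ∈ (Subgroup.centralizer {e}).subgroupOf M := by
    intro x y
    rw [Subgroup.mem_subgroupOf, Subgroup.mem_centralizer_singleton_iff]
    show _ ↔ (x : Γ)⁻¹ * y * e = e * ((x : Γ)⁻¹ * y)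
    constructor
    · intro q
      have : (x : Γ)⁻¹ * y * e = (x : Γ)⁻¹ * ((y : Γ) * e * (y : Γ)⁻¹) * y := by group
      rw [this, ← q]
      group
    · intro q
      have : (y : Γ) * e * (y : Γ)⁻¹ = x * ((x : Γ)⁻¹ * y * e) * (y : Γ)⁻¹ := by group
      rw [this, q]
      group
  have c2 : Nat.card (M ⧸ (Subgroup.centralizer {e}).subgroupOf M) = 3 := by
    rw [← EH_inv h]
    refine Nat.card_congr (Equiv.ofBijective
      (Quotient.lift (fun x : M => (⟨(x : Γ) * e * (x : Γ)⁻¹, hmem x⟩ :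
        {e : Γ | e ∈ T ∧ e ≠ 1 ∧ e ^ 2 = 1})) ?_) ⟨?_, ?_⟩)
    · intro x y hxy
      apply Subtype.ext
      have q : x⁻¹ * y ∈ (Subgroup.centralizer {e}).subgroupOf M :=
        QuotientGroup.leftRel_apply.1 hxy
      exact (hiff x y).2 q
    · intro a b
      induction a using Quotient.inductionOn with
      | h a =>
      induction b using Quotient.inductionOn with
      | h b =>
      intro hab
      apply Quotient.sound
      apply QuotientGroup.leftRel_apply.2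
      exact (hiff a b).1 (congrArg Subtype.val hab)
    · rintro ⟨y, hy1, hy2, hy3⟩
      obtain ⟨x, hx, rfl⟩ := EH4c_three h hd hT h3 he he1 he2 y hy1 hy2 hy3
      exact ⟨Quotient.mk _ ⟨x, hx⟩, rfl⟩
  rw [c1, ← c2]
  exact Subgroup.card_eq_card_quotient_mul_card_subgroup _

theorem C_div (h : EH Γ T M m c π ε) {d : Γ} (hd : d ∈ M) (hT : d ∉ T) (h3 : d ^ 3 = 1)
    {i : Γ} (hi : i ∈ Iv T d) :
    3 * (Nat.card T * Nat.card (Cd d ⊓ Subgroup.centralizer {i} : Subgroup Γ)) ∣ Nat.card M := by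
  have hfin := h.fin
  have hnM := Iv_notM h hd hT h3 hi
  obtain ⟨x, e, he, he1, he2, hie⟩ := hi.1
  have hxM : x ∉ M := by
    intro q
    apply hnM
    rw [hie]
    exact mul_mem (mul_mem q (h.TM he)) (inv_mem q)
  rw [EH4c_index h hd hT h3 he he1 he2]
  apply Nat.mul_dvd_mul_left
  have d1 : d ≠ 1 := by
    rintro rfl
    exact hT (one_mem T)
  -- the conjugation into the centraliser of `e` in `M`
  have hcom : ∀ v ∈ (Cd d ⊓ Subgroup.centralizer {i} : Subgroup Γ),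
      (x⁻¹ * v * x) * e = e * (x⁻¹ * v * x) := by
    intro v hv
    have hv2 := (Subgroup.mem_centralizer_singleton_iff).1 hv.2
    have e1 : (x⁻¹ * v * x) * e = x⁻¹ * (v * i) * x := by
      rw [hie]
      group
    rw [e1, hv2, hie]
    group
  have hmemM : ∀ v ∈ (Cd d ⊓ Subgroup.centralizer {i} : Subgroup Γ),
      x⁻¹ * v * x ∈ (M ⊓ Subgroup.centralizer {e} : Subgroup Γ) := by
    intro v hv
    exact ⟨h.cent e he he1 _ (hcom v hv), (Subgroup.mem_centralizer_singleton_iff).2 (hcom v hv)⟩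
  have htriv : ∀ v ∈ (Cd d ⊓ Subgroup.centralizer {i} : Subgroup Γ), x⁻¹ * v * x ∈ T →
      v = 1 := by
    intro v hv hvT
    by_contra hv1
    have t1 : x⁻¹ * v * x ≠ 1 := by
      intro q
      apply hv1
      have : v = x * (x⁻¹ * v * x) * x⁻¹ := by group
      rw [this, q]
      group
    have hvd := (Subgroup.mem_centralizer_singleton_iff).1 hv.1
    have u1 : x⁻¹ * d * x ∈ M := by
      apply h.cent _ hvT t1
      have : x⁻¹ * d * x * (x⁻¹ * v * x) = x⁻¹ * (d * v) * x := by group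
      rw [this, ← hvd]
      group
    have u3 : (x⁻¹ * d * x) ^ 3 = 1 := by
      have : (x⁻¹ * d * x⁻¹⁻¹) ^ 3 = x⁻¹ * d ^ 3 * x⁻¹⁻¹ := conj_pow
      rw [inv_inv] at this
      rw [this, h3]
      group
    have u4 : e * (x⁻¹ * d * x) * e = (x⁻¹ * d * x)⁻¹ := by
      have e1 : e = x⁻¹ * i * x := by
        rw [hie]
        group
      have e2 : (x⁻¹ * d * x)⁻¹ = x⁻¹ * (i * d * i) * x := by
        rw [hi.2]
        group
      rw [e2]
      rw [e1]
      group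
    have u5 : x⁻¹ * d * x ∈ T := by
      by_contra hu
      obtain ⟨w1, w2, w3⟩ := EH_ord3 h u1 u3 hu
      have e1 := congrArg π u4
      have heM := h.TM he
      rw [(h.pmul _ (mul_mem heM u1) _ heM).1, (h.pmul _ heM _ u1).1, (h.tri e he).1, one_mul,
        mul_one, EH4a_inv h u1] at e1
      exact EH4a_perm _ w1 w2 e1
    apply hxM
    apply EH1 h u5
    · intro q
      apply d1
      have : d = x * (x⁻¹ * d * x) * x⁻¹ := by group
      rw [this, q]
      group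
    · have : x * (x⁻¹ * d * x) * x⁻¹ = d := by group
      rw [this]
      exact hd
  have hTE : T ≤ M ⊓ Subgroup.centralizer {e} := by
    intro t ht
    exact ⟨h.TM ht, (Subgroup.mem_centralizer_singleton_iff).2 (EH_comm h t ht e he)⟩
  have hnorm : (T.subgroupOf (M ⊓ Subgroup.centralizer {e})).Normal := by
    constructor
    intro t ht y
    rw [Subgroup.mem_subgroupOf] at ht ⊢
    exact (h.act y y.2.1 t ht).1
  let f : (Cd d ⊓ Subgroup.centralizer {i} : Subgroup Γ) →*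
      (M ⊓ Subgroup.centralizer {e} : Subgroup Γ) :=
    { toFun := fun v => ⟨x⁻¹ * v * x, hmemM v v.2⟩
      map_one' := by
        apply Subtype.ext
        show x⁻¹ * (1 : Γ) * x = 1
        group
      map_mul' := by
        intro v w
        apply Subtype.ext
        show x⁻¹ * ((v : Γ) * w) * x = x⁻¹ * v * x * (x⁻¹ * w * x)
        group }
  have hinj : Function.Injective
      ((QuotientGroup.mk' (T.subgroupOf (M ⊓ Subgroup.centralizer {e}))).comp f) := by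
    rw [injective_iff_map_eq_one]
    intro v hv
    rw [MonoidHom.comp_apply, QuotientGroup.mk'_apply, QuotientGroup.eq_one_iff,
      Subgroup.mem_subgroupOf] at hv
    apply Subtype.ext
    exact htriv v v.2 hv
  have hdvd := Subgroup.card_dvd_of_injective _ hinj
  have e1 := Subgroup.card_eq_card_quotient_mul_card_subgroup
    (T.subgroupOf (M ⊓ Subgroup.centralizer {e}))
  rw [Nat.card_congr (Subgroup.subgroupOfEquivOfLe hTE).toEquiv] at e1
  rw [e1, mul_comm]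
  exact Nat.mul_dvd_mul_right hdvd _

end Pool.Agent.H40.GT
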