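import Pool.Agent.H40.GT.EH4
import Pool.Agent.H40.GT.Dv

/-!
# Part EH5a (of EH5a, EH5b); GT-36 Theorem E, step 5: classes of elements of order 3

`Dd M π ε ρ` = the `d ∈ M` with `π d = ρ`, `ε d = 1` (`ρ` a fixed permutation of order 3).  If it is not empty
it is a coset of `T` (`ker`), so has `m^2` elements, all of order 3 (`ord`), none in `T`.
`Ob M d` = the `d' ∈ M` such that `d'` or its inverse is conjugate to `d` under `M`, and
`π d' = π d`.
* `Ob_card`: `|Ob| * |Nd ∩ M| = |M|`: `M` acts on the subgroups of order 3; the elements of the orbit of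
  `⟨d⟩` correspond to `Ob` (each of these subgroups contains exactly one element with
  `π` equal to `π d`, as `π (x d x⁻¹) = π d` or its inverse: the two elements of order 3 of the
  symmetric group).
* `Ob_ten` (`m = 10`): `T` acts on `Dd` by conjugation, `t d t⁻¹ = (t (d t d⁻¹)⁻¹) d`; `t ↦ t (d t d⁻¹)⁻¹`
  is injective as `C_T(d) = 1` (entries of `c t` all equal to `a` with `3 a = 0`, so `a = 0` mod 10);
  so `T` is transitive on `Dd`: `Ob = Dd`.
* `Ob_six` (`m = 6`): `C_T(d)` has order 3 (all entries equal to `0, 2` or `4`), `T` acts on `Ob` with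
  stabilisers of order 3 (for `d' ∈ Ob` too), so `12 ∣ |Ob| ≤ 36`.  `Nd ∩ M` contains the abelian group
  generated by `d` and `C_T(d)`, of order 9.  `|M| = 36 w`, `w ∣ 12`, and `3 ∣ w` as `d ∈ M` has order 3
  modulo `T`.  So `|Ob| = |M| / |Nd ∩ M|` divides `4 w` (`w = 3, 6, 12`), which excludes `36`.
-/

namespace Pool.Agent.H40.GT

variable {Γ : Type} [Group Γ] {T M : Subgroup Γ} {m : ℕ} {c : Γ → Fin 3 → ZMod m}
  {π : Γ → Equiv.Perm (Fin 3)} {ε : Γ → ℤˣ}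

/-- elements with given rotation part -/
def Dd (M : Subgroup Γ) (π : Γ → Equiv.Perm (Fin 3)) (ε : Γ → ℤˣ) (ρ : Equiv.Perm (Fin 3)) :
    Set Γ := {d | d ∈ M ∧ π d = ρ ∧ ε d = 1}

/-- the class of `d` -/
def Ob (M : Subgroup Γ) (π : Γ → Equiv.Perm (Fin 3)) (d : Γ) : Set Γ :=
  {d' | π d' = π d ∧ ∃ x ∈ M, d' = x * d * x⁻¹ ∨ d' = x * d⁻¹ * x⁻¹}

theorem EH5a_perm : ∀ a b : Equiv.Perm (Fin 3), b ≠ 1 → b ^ 3 = 1 →
    (a * b * a⁻¹ = b ∨ a * b * a⁻¹ = b⁻¹) ∧ b ≠ b⁻¹ := by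
  decide

theorem EH5a_inv (h : EH Γ T M m c π ε) {x : Γ} (hx : x ∈ M) :
    π x⁻¹ = (π x)⁻¹ ∧ ε x⁻¹ = (ε x)⁻¹ := by
  have h1 := h.tri 1 (one_mem T)
  have h2 := h.pmul x hx x⁻¹ (inv_mem hx)
  rw [mul_inv_cancel, h1.1, h1.2] at h2
  exact ⟨(inv_eq_of_mul_eq_one_right h2.1.symm).symm, (inv_eq_of_mul_eq_one_right h2.2.symm).symm⟩

theorem EH5a_conj (h : EH Γ T M m c π ε) {x y : Γ} (hx : x ∈ M) (hy : y ∈ M) :
    π (x * y * x⁻¹) = π x * π y * (π x)⁻¹ ∧ ε (x * y * x⁻¹) = ε y := by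
  have h1 := h.pmul (x * y) (mul_mem hx hy) x⁻¹ (inv_mem hx)
  have h2 := h.pmul x hx y hy
  have h3 := EH5a_inv h hx
  rw [h1.1, h1.2, h2.1, h2.2, h3.1, h3.2]
  exact ⟨rfl, mul_inv_cancel_comm _ _⟩

theorem Dd_card (h : EH Γ T M m c π ε) {d : Γ} (hd : d ∈ M) (hT : d ∉ T) (h3 : d ^ 3 = 1) :
    (Dd M π ε (π d)).ncard = m ^ 2 := by
  obtain ⟨hd1, hd2, hd3⟩ := EH_ord3 h hd h3 hT
  have e : Dd M π ε (π d) = (fun t => t * d) '' (T : Set Γ) := by
    ext y
    constructor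
    · rintro ⟨y1, y2, y3⟩
      refine ⟨y * d⁻¹, ?_, by group⟩
      have i1 := EH5a_inv h hd
      have i2 := h.pmul y y1 d⁻¹ (inv_mem hd)
      apply h.ker _ (mul_mem y1 (inv_mem hd))
      · rw [i2.1, i1.1, y2, mul_inv_cancel]
      · rw [i2.2, i1.2, y3, hd3, inv_one, mul_one]
    · rintro ⟨t, ht, rfl⟩
      have i1 := h.pmul t (h.TM ht) d hd
      have i2 := h.tri t ht
      refine ⟨mul_mem (h.TM ht) hd, ?_, ?_⟩
      · show π (t * d) = π d
        rw [i1.1, i2.1, one_mul]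
      · show ε (t * d) = 1
        rw [i1.2, i2.2, hd3, one_mul]
  rw [e, Set.ncard_image_of_injective _ (mul_left_injective d), ← EH_card h]
  rfl

theorem Dd_ord (h : EH Γ T M m c π ε) {d : Γ} (hd : d ∈ M) (hT : d ∉ T) (h3 : d ^ 3 = 1)
    {d' : Γ} (h' : d' ∈ Dd M π ε (π d)) : d' ∈ M ∧ d' ∉ T ∧ d' ^ 3 = 1 := by
  obtain ⟨hd1, hd2, hd3⟩ := EH_ord3 h hd h3 hT
  obtain ⟨y1, y2, y3⟩ := h'
  refine ⟨y1, fun ht => ?_, h.ord d' y1 (by rw [y2]; exact hd1) (by rw [y2]; exact hd2) y3⟩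
  have := (h.tri d' ht).1
  rw [y2] at this
  exact hd1 this

theorem Ob_sub (h : EH Γ T M m c π ε) {d : Γ} (hd : d ∈ M) (hT : d ∉ T) (h3 : d ^ 3 = 1) :
    Ob M π d ⊆ Dd M π ε (π d) := by
  obtain ⟨hd1, hd2, hd3⟩ := EH_ord3 h hd h3 hT
  rintro y ⟨y1, x, hx, hy⟩
  rcases hy with rfl | rfl
  · exact ⟨mul_mem (mul_mem hx hd) (inv_mem hx), y1, by rw [(EH5a_conj h hx hd).2, hd3]⟩
  · refine ⟨mul_mem (mul_mem hx (inv_mem hd)) (inv_mem hx), y1, ?_⟩
    rw [(EH5a_conj h hx (inv_mem hd)).2, (EH5a_inv h hd).2, hd3, inv_one]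

open Classical in
/-- the element of the conjugate of the group generated by `d` with the same rotation part -/
noncomputable def EH5a_f (π : Γ → Equiv.Perm (Fin 3)) (d x : Γ) : Γ :=
  if π (x * d * x⁻¹) = π d then x * d * x⁻¹ else x * d⁻¹ * x⁻¹

theorem EH5a_iff (h : EH Γ T M m c π ε) {d : Γ} (hd : d ∈ M) (hT : d ∉ T) (h3 : d ^ 3 = 1)
    {x : Γ} (hx : x ∈ M) : π (x * d⁻¹ * x⁻¹) = π d ↔ ¬ π (x * d * x⁻¹) = π d := by
  obtain ⟨hd1, hd2, hd3⟩ := EH_ord3 h hd h3 hT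
  obtain ⟨p1, p2⟩ := EH5a_perm (π x) (π d) hd1 hd2
  have e1 := (EH5a_conj h hx hd).1
  have e2 := (EH5a_conj h hx (inv_mem hd)).1
  rw [(EH5a_inv h hd).1] at e2
  have e3 : π x * (π d)⁻¹ * (π x)⁻¹ = (π x * π d * (π x)⁻¹)⁻¹ := by group
  rw [e1, e2, e3]
  rcases p1 with p1 | p1
  · rw [p1]
    constructor
    · intro q
      exact absurd q.symm p2
    · intro q
      exact absurd rfl q
  · rw [p1, inv_inv]
    constructor
    · intro _ q
      exact p2 q.symm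
    · intro _
      rfl

theorem EH5a_mem (h : EH Γ T M m c π ε) {d : Γ} (hd : d ∈ M) (hT : d ∉ T) (h3 : d ^ 3 = 1)
    {x : Γ} (hx : x ∈ M) : EH5a_f π d x ∈ Ob M π d := by
  unfold EH5a_f
  split_ifs with h1
  · exact ⟨h1, x, hx, Or.inl rfl⟩
  · exact ⟨(EH5a_iff h hd hT h3 hx).2 h1, x, hx, Or.inr rfl⟩

theorem EH5a_surj (h : EH Γ T M m c π ε) {d : Γ} (hd : d ∈ M) (hT : d ∉ T) (h3 : d ^ 3 = 1)
    {y : Γ} (hy : y ∈ Ob M π d) : ∃ x ∈ M, EH5a_f π d x = y := by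
  obtain ⟨y1, x, hx, hy⟩ := hy
  refine ⟨x, hx, ?_⟩
  unfold EH5a_f
  rcases hy with rfl | rfl
  · rw [if_pos y1]
  · rw [if_neg ((EH5a_iff h hd hT h3 hx).1 y1)]

theorem EH5a_eq (h : EH Γ T M m c π ε) {d : Γ} (hd : d ∈ M) (hT : d ∉ T) (h3 : d ^ 3 = 1)
    {x y : Γ} (hx : x ∈ M) (hy : y ∈ M) :
    EH5a_f π d x = EH5a_f π d y ↔ x⁻¹ * y ∈ Nd d h3 := by
  have hN : x⁻¹ * y ∈ Nd d h3 ↔ (y * d * y⁻¹ = x * d * x⁻¹ ∨ y * d * y⁻¹ = x * d⁻¹ * x⁻¹) := by
    show (x⁻¹ * y * d * (x⁻¹ * y)⁻¹ = d ∨ x⁻¹ * y * d * (x⁻¹ * y)⁻¹ = d⁻¹) ↔ _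
    apply or_congr
    · constructor
      · intro e
        have : y * d * y⁻¹ = x * (x⁻¹ * y * d * (x⁻¹ * y)⁻¹) * x⁻¹ := by group
        rw [this, e]
      · intro e
        have : x⁻¹ * y * d * (x⁻¹ * y)⁻¹ = x⁻¹ * (y * d * y⁻¹) * x := by group
        rw [this, e]
        group
    · constructor
      · intro e
        have : y * d * y⁻¹ = x * (x⁻¹ * y * d * (x⁻¹ * y)⁻¹) * x⁻¹ := by group
        rw [this, e]
      · intro e
        have : x⁻¹ * y * d * (x⁻¹ * y)⁻¹ = x⁻¹ * (y * d * y⁻¹) * x := by group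
        rw [this, e]
        group
  have ey : y * d⁻¹ * y⁻¹ = (y * d * y⁻¹)⁻¹ := by group
  have ex : x * d⁻¹ * x⁻¹ = (x * d * x⁻¹)⁻¹ := by group
  have ix := EH5a_iff h hd hT h3 hx
  have iy := EH5a_iff h hd hT h3 hy
  rw [hN]
  unfold EH5a_f
  by_cases h1 : π (x * d * x⁻¹) = π d
  · by_cases h2 : π (y * d * y⁻¹) = π d
    · rw [if_pos h1, if_pos h2]
      constructor
      · intro e
        exact Or.inl e.symm
      · rintro (e | e)
        · exact e.symm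
        · rw [e] at h2
          exact absurd h1 (ix.1 h2)
    · rw [if_pos h1, if_neg h2]
      constructor
      · intro e
        right
        rw [ex, e, ey, inv_inv]
      · rintro (e | e)
        · rw [e] at h2
          exact absurd h1 h2
        · rw [ey, e, ex, inv_inv]
  · by_cases h2 : π (y * d * y⁻¹) = π d
    · rw [if_neg h1, if_pos h2]
      constructor
      · intro e
        exact Or.inr e.symm
      · rintro (e | e)
        · rw [e] at h2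
          exact absurd h2 h1
        · exact e.symm
    · rw [if_neg h1, if_neg h2]
      constructor
      · intro e
        left
        rw [ex, ey] at e
        exact (inv_injective e).symm
      · rintro (e | e)
        · rw [ex, ey, e]
        · rw [e] at h2
          exact absurd (ix.2 h1) h2

theorem Ob_card (h : EH Γ T M m c π ε) {d : Γ} (hd : d ∈ M) (hT : d ∉ T) (h3 : d ^ 3 = 1) :
    (Ob M π d).ncard * Nat.card (Nd d h3 ⊓ M : Subgroup Γ) = Nat.card M := by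
  have c1 : Nat.card (Nd d h3 ⊓ M : Subgroup Γ) = Nat.card ((Nd d h3).subgroupOf M) := by
    rw [← Subgroup.inf_subgroupOf_right]
    exact (Nat.card_congr (Subgroup.subgroupOfEquivOfLe inf_le_right).toEquiv).symm
  have c2 : Nat.card (Ob M π d) = Nat.card (M ⧸ (Nd d h3).subgroupOf M) := by
    symm
    refine Nat.card_congr (Equiv.ofBijective
      (Quotient.lift (fun x : M => (⟨EH5a_f π d x, EH5a_mem h hd hT h3 x.2⟩ : Ob M π d)) ?_) ⟨?_, ?_⟩)
    · intro x y hxy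
      apply Subtype.ext
      apply (EH5a_eq h hd hT h3 x.2 y.2).2
      have q : x⁻¹ * y ∈ (Nd d h3).subgroupOf M := QuotientGroup.leftRel_apply.1 hxy
      exact q
    · intro a b
      induction a using Quotient.inductionOn with
      | h a =>
      induction b using Quotient.inductionOn with
      | h b =>
      intro hab
      apply Quotient.sound
      apply QuotientGroup.leftRel_apply.2
      exact (EH5a_eq h hd hT h3 a.2 b.2).1 (congrArg Subtype.val hab)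
    · rintro ⟨y, hy⟩
      obtain ⟨x, hx, rfl⟩ := EH5a_surj h hd hT h3 hy
      exact ⟨Quotient.mk _ ⟨x, hx⟩, rfl⟩
  have c3 : (Ob M π d).ncard = Nat.card (Ob M π d) := rfl
  rw [c1, c3, c2]
  exact (Subgroup.card_eq_card_quotient_mul_card_subgroup _).symm

end Pool.Agent.H40.GT
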