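import Pool.Agent.H40.GT.EH5a

/-!
# Part EH5b (of EH5a, EH5b); GT-36 Theorem E, step 5: classes of elements of order 3

`Dd M π ε ρ` = the `d ∈ M` with `π d = ρ`, `ε d = 1` (`ρ` a fixed permutation of order 3).  If it is not empty
it is a coset of `T` (`ker`), so has `m^2` elements, all of order 3 (`ord`), none in `T`.
`Ob M d` = the `d' ∈ M` such that `d'` or its inverse is conjugate to `d` under `M`, and
`π d' = π d`.
* `Ob_card`: `|Ob| * |Nd ∩ M| = |M|`: `M` acts on the subgroups of order 3; the elements of the orbit of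
  `⟨d⟩` correspond to `Ob` (each of these subgroups contains exactly one element with
  `π` equal to `π d`, as `π (x d x⁻¹) = π d` or its inverse: the two elements of order 3 of the
  symmetric group).
* `Ob_ten` (`m = 10`): `T` acts on `Dd` by conjugation, `t d t⁻¹ = (t (d t d⁻¹)⁻¹) d`; `t ↦ t (d t d⁻¹)⁻¹`
  is injective as `C_T(d) = 1` (entries of `c t` all equal to `a` with `3 a = 0`, so `a = 0` mod 10);
  so `T` is transitive on `Dd`: `Ob = Dd`.
* `Ob_six` (`m = 6`): `C_T(d)` has order 3 (all entries equal to `0, 2` or `4`), `T` acts on `Ob` with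
  stabilisers of order 3 (for `d' ∈ Ob` too), so `12 ∣ |Ob| ≤ 36`.  `Nd ∩ M` contains the abelian group
  generated by `d` and `C_T(d)`, of order 9.  `|M| = 36 w`, `w ∣ 12`, and `3 ∣ w` as `d ∈ M` has order 3
  modulo `T`.  So `|Ob| = |M| / |Nd ∩ M|` divides `4 w` (`w = 3, 6, 12`), which excludes `36`.
-/

namespace Pool.Agent.H40.GT

variable {Γ : Type} [Group Γ] {T M : Subgroup Γ} {m : ℕ} {c : Γ → Fin 3 → ZMod m}
  {π : Γ → Equiv.Perm (Fin 3)} {ε : Γ → ℤˣ}

theorem EH5b_one (h : EH Γ T M m c π ε) (i : Fin 3) : c 1 i = 0 := by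
  have h1 := h.cmul 1 (one_mem _) 1 (one_mem _) i
  rw [one_mul] at h1
  have h2 : c 1 i + 0 = c 1 i + c 1 i := by rw [add_zero]; exact h1
  exact (add_left_cancel h2).symm

theorem EH5b_inv (h : EH Γ T M m c π ε) {x : Γ} (hx : x ∈ M) :
    π x⁻¹ = (π x)⁻¹ ∧ ε x⁻¹ = (ε x)⁻¹ := by
  have h1 := h.pmul x hx x⁻¹ (inv_mem hx)
  have h2 := h.tri 1 (one_mem _)
  rw [mul_inv_cancel] at h1
  refine ⟨?_, ?_⟩
  · exact eq_inv_of_mul_eq_one_right (h1.1.symm.trans h2.1)
  · exact eq_inv_of_mul_eq_one_right (h1.2.symm.trans h2.2)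

/-- a rotation of order 3 is transitive -/
theorem EH5b_const {A : Type} {ρ : Equiv.Perm (Fin 3)} (h1 : ρ ≠ 1) (h3 : ρ ^ 3 = 1)
    (f : Fin 3 → A) (hf : ∀ i, f (ρ i) = f i) : f 0 = f 1 ∧ f 1 = f 2 := by
  have key : ∀ ρ : Equiv.Perm (Fin 3), ρ ≠ 1 → ρ ^ 3 = 1 →
      (ρ 0 = 1 ∧ ρ 1 = 2) ∨ (ρ 0 = 2 ∧ ρ 1 = 0) := by decide
  have a0 := hf 0
  have a1 := hf 1
  rcases key ρ h1 h3 with ⟨e0, e1⟩ | ⟨e0, e1⟩
  · rw [e0] at a0
    rw [e1] at a1
    exact ⟨a0.symm, a1.symm⟩
  · rw [e0] at a0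
    rw [e1] at a1
    exact ⟨a1, a1.symm.trans a0.symm⟩

/-- elements of `T` commuting with `d` -/
theorem EH5b_comm (h : EH Γ T M m c π ε) {d : Γ} (hd : d ∈ M) (hT : d ∉ T) (h3 : d ^ 3 = 1)
    {t : Γ} (ht : t ∈ T) :
    d * t * d⁻¹ = t ↔ c t 0 = c t 1 ∧ c t 1 = c t 2 := by
  obtain ⟨p1, p3, e1⟩ := EH_ord3 h hd h3 hT
  obtain ⟨a1, a2⟩ := h.act d hd t ht
  rw [e1] at a2
  constructor
  · intro he
    rw [he] at a2
    apply EH5b_const p1 p3 (c t)
    intro i
    rw [a2 i]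
    simp
  · rintro ⟨b1, b2⟩
    apply h.cinj _ a1 _ ht
    have hc : ∀ i, c t i = c t 0 := by
      intro i
      fin_cases i
      · rfl
      · exact b1.symm
      · exact b2.symm.trans b1.symm
    funext i
    have h4 := a2 ((π d)⁻¹ i)
    have h5 : (π d) ((π d)⁻¹ i) = i := (π d).apply_symm_apply i
    rw [h5] at h4
    rw [h4, hc i, hc ((π d)⁻¹ i)]
    simp

theorem EH5b_three (h : EH Γ T M m c π ε) {t : Γ} (ht : t ∈ T) (b1 : c t 0 = c t 1)
    (b2 : c t 1 = c t 2) : 3 * c t 0 = 0 := by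
  have h1 := h.csum t ht
  rw [← b2, ← b1] at h1
  rw [← h1]
  ring

theorem EH5b_conjD (h : EH Γ T M m c π ε) {d t : Γ} (hd : d ∈ M) (ht : t ∈ T) :
    π (t * d * t⁻¹) = π d := by
  have ht' := h.TM ht
  have h1 := (h.pmul (t * d) (mul_mem ht' hd) t⁻¹ (inv_mem ht')).1
  have h2 := (h.pmul t ht' d hd).1
  rw [h1, h2, (h.tri t ht).1, (h.tri t⁻¹ (inv_mem ht)).1, one_mul, mul_one]

theorem Ob_ten (h : EH Γ T M m c π ε) (hm : m = 10) {d : Γ} (hd : d ∈ M) (hT : d ∉ T)
    (h3 : d ^ 3 = 1) : Ob M π d = Dd M π ε (π d) := by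
  haveI := h.fin
  apply Set.Subset.antisymm (Ob_sub h hd hT h3)
  rintro d' ⟨hd', hp, he⟩
  obtain ⟨p1, p3, e1⟩ := EH_ord3 h hd h3 hT
  have hcomm := EH_comm h
  have hs : d' * d⁻¹ ∈ T := by
    apply h.ker _ (mul_mem hd' (inv_mem hd))
    · rw [(h.pmul d' hd' d⁻¹ (inv_mem hd)).1, (EH5b_inv h hd).1, hp, mul_inv_cancel]
    · rw [(h.pmul d' hd' d⁻¹ (inv_mem hd)).2, (EH5b_inv h hd).2, he, e1, inv_one, one_mul]
  have hcl : ∀ t ∈ T, t * (d * t⁻¹ * d⁻¹) ∈ T := fun t ht =>
    mul_mem ht (h.act d hd t⁻¹ (inv_mem ht)).1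
  let f : T → T := fun t => ⟨(t : Γ) * (d * (t : Γ)⁻¹ * d⁻¹), hcl t t.2⟩
  have hinj : Function.Injective f := by
    rintro ⟨t, ht⟩ ⟨t', ht'⟩ htt
    have h4 : t * (d * t⁻¹ * d⁻¹) = t' * (d * t'⁻¹ * d⁻¹) := congrArg Subtype.val htt
    have hu : t'⁻¹ * t ∈ T := mul_mem (inv_mem ht') ht
    have h5 : d * (t'⁻¹ * t) * d⁻¹ = t'⁻¹ * t := by
      have h6 := (h.act d hd t⁻¹ (inv_mem ht)).1
      have h7 := (h.act d hd t'⁻¹ (inv_mem ht')).1
      have h8 : t'⁻¹ * t = (d * t'⁻¹ * d⁻¹) * (d * t⁻¹ * d⁻¹)⁻¹ := by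
        rw [eq_mul_inv_iff_mul_eq, mul_assoc, h4]
        group
      rw [h8]
      have h9 : d * (d * t'⁻¹ * d⁻¹ * (d * t⁻¹ * d⁻¹)⁻¹) * d⁻¹ =
        d * (t'⁻¹ * t) * d⁻¹ := by rw [← h8]
      rw [h9]
      group
    have h10 := (EH5b_comm h hd hT h3 hu).1 h5
    have h11 := EH5b_three h hu h10.1 h10.2
    subst hm
    have h12 : ∀ a : ZMod 10, 3 * a = 0 → a = 0 := by decide
    have h13 := h12 _ h11
    have h14 : t'⁻¹ * t = 1 := by
      apply h.cinj _ hu _ (one_mem _)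
      funext i
      rw [EH5b_one h]
      fin_cases i
      · exact h13
      · exact h10.1.symm.trans h13
      · exact h10.2.symm.trans (h10.1.symm.trans h13)
    have h15 : t = t' := by
      rw [inv_mul_eq_one] at h14
      exact h14.symm
    exact Subtype.ext h15
  obtain ⟨⟨t, ht⟩, htt⟩ := (Finite.injective_iff_surjective.1 hinj) ⟨d' * d⁻¹, hs⟩
  have h4 : t * (d * t⁻¹ * d⁻¹) = d' * d⁻¹ := congrArg Subtype.val htt
  refine ⟨hp, t, h.TM ht, Or.inl ?_⟩
  have h5 : d' = (d' * d⁻¹) * d := by group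
  rw [h5, ← h4]
  group

/-- the centraliser of `d` in `T` for `m = 6` -/
theorem EH5b_cen (h : EH Γ T M m c π ε) (hm : m = 6) {d : Γ} (hd : d ∈ M) (hT : d ∉ T)
    (h3 : d ^ 3 = 1) : Nat.card (T ⊓ Cd d : Subgroup Γ) = 3 := by
  subst hm
  have hmem : ∀ t : Γ, t ∈ (T ⊓ Cd d : Subgroup Γ) ↔ t ∈ T ∧ c t 0 = c t 1 ∧ c t 1 = c t 2 := by
    intro t
    rw [Subgroup.mem_inf]
    constructor
    · rintro ⟨h1, h2⟩
      refine ⟨h1, (EH5b_comm h hd hT h3 h1).1 ?_⟩
      have h4 : d * t = t * d := (Subgroup.mem_centralizer_iff.1 h2) d rfl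
      rw [h4]
      group
    · rintro ⟨h1, h2⟩
      refine ⟨h1, ?_⟩
      have h4 := (EH5b_comm h hd hT h3 h1).2 h2
      unfold Cd
      rw [Subgroup.mem_centralizer_iff]
      rintro y hy
      rw [Set.mem_singleton_iff] at hy
      rw [hy]
      exact mul_inv_eq_iff_eq_mul.1 h4
  have hlin : ∀ a : ZMod 6, 3 * a = 0 → a + a + a = 0 := by decide
  have e : (T ⊓ Cd d : Subgroup Γ) ≃ {a : ZMod 6 // 3 * a = 0} := by
    apply Equiv.ofBijective (fun t => ⟨c t 0, by
      obtain ⟨h1, h2, h4⟩ := (hmem t).1 t.2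
      exact EH5b_three h h1 h2 h4⟩)
    constructor
    · rintro ⟨t, ht⟩ ⟨t', ht'⟩ htt
      have h5 : c t 0 = c t' 0 := congrArg Subtype.val htt
      obtain ⟨h1, h2, h4⟩ := (hmem t).1 ht
      obtain ⟨h1', h2', h4'⟩ := (hmem t').1 ht'
      apply Subtype.ext
      apply h.cinj t h1 t' h1'
      funext i
      fin_cases i
      · exact h5
      · exact h2.symm.trans (h5.trans h2')
      · exact h4.symm.trans (h2.symm.trans (h5.trans (h2'.trans h4')))
    · rintro ⟨a, ha⟩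
      obtain ⟨t, ht, h1, h2⟩ := h.csur a a
      have h4 := h.csum t ht
      rw [h1, h2] at h4
      have h5 : c t 2 = a := by
        have h6 := hlin a ha
        have h7 : a + a + c t 2 = a + a + a := h4.trans h6.symm
        exact add_left_cancel h7
      refine ⟨⟨t, (hmem t).2 ⟨ht, h1.trans h2.symm, h2.trans h5.symm⟩⟩, ?_⟩
      exact Subtype.ext h1
  rw [Nat.card_congr e, Nat.card_eq_fintype_card]
  decide

theorem Ob_six (h : EH Γ T M m c π ε) (hm : m = 6) {d : Γ} (hd : d ∈ M) (hT : d ∉ T)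
    (h3 : d ^ 3 = 1) : (Ob M π d).ncard = 12 ∨ (Ob M π d).ncard = 24 := by
  haveI := h.fin
  have hsub := Ob_sub h hd hT h3
  have hDc := Dd_card h hd hT h3
  have hTc := EH_card h
  have hle : (Ob M π d).ncard ≤ 36 := by
    have h1 := Set.ncard_le_ncard hsub (Set.toFinite _)
    rw [hDc, hm] at h1
    exact h1
  have hpos : 0 < (Ob M π d).ncard := by
    rw [Set.ncard_pos (Set.toFinite _)]
    exact ⟨d, rfl, 1, one_mem _, Or.inl (by group)⟩
  -- the action of `T`
  have hst : ∀ t : T, ∀ x : Ob M π d, (t : Γ) * (x : Γ) * (t : Γ)⁻¹ ∈ Ob M π d := by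
    rintro ⟨t, ht⟩ ⟨x, hx⟩
    have hxM := (Dd_ord h hd hT h3 (hsub hx)).1
    obtain ⟨hx1, y, hy, hx2⟩ := hx
    refine ⟨(EH5b_conjD h hxM ht).trans hx1, t * y, mul_mem (h.TM ht) hy, ?_⟩
    rcases hx2 with hx2 | hx2
    · left
      show t * x * t⁻¹ = _
      rw [hx2]
      group
    · right
      show t * x * t⁻¹ = _
      rw [hx2]
      group
  letI act : MulAction T (Ob M π d) :=
    { smul := fun t x => ⟨(t : Γ) * (x : Γ) * (t : Γ)⁻¹, hst t x⟩
      one_smul := by
        intro x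
        apply Subtype.ext
        show (1 : Γ) * (x : Γ) * (1 : Γ)⁻¹ = x
        group
      mul_smul := by
        intro s t x
        apply Subtype.ext
        show ((s : Γ) * (t : Γ)) * (x : Γ) * ((s : Γ) * (t : Γ))⁻¹ =
          (s : Γ) * ((t : Γ) * (x : Γ) * (t : Γ)⁻¹) * (s : Γ)⁻¹
        group }
  have hstab : ∀ x : Ob M π d, Nat.card (T ⧸ MulAction.stabilizer T x) = 12 := by
    rintro x
    obtain ⟨g1, g2, g3⟩ := Dd_ord h hd hT h3 (hsub x.2)
    have h1 := EH5b_cen h hm g1 g2 g3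
    have h2 : Nat.card (MulAction.stabilizer T x) = 3 := by
      rw [← h1]
      apply Nat.card_congr
      refine ⟨fun t => ⟨(t : T), ?_⟩, fun t => ⟨⟨t, t.2.1⟩, ?_⟩, ?_, ?_⟩
      · refine ⟨(t : T).2, ?_⟩
        have h4 := MulAction.mem_stabilizer_iff.1 t.2
        have h5 : ((t : T) : Γ) * (x : Γ) * ((t : T) : Γ)⁻¹ = x := congrArg Subtype.val h4
        unfold Cd
        show _ ∈ Subgroup.centralizer _
        rw [Subgroup.mem_centralizer_iff]
        rintro y hy
        rw [Set.mem_singleton_iff] at hy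
        rw [hy]
        exact (mul_inv_eq_iff_eq_mul.1 h5).symm
      · rw [MulAction.mem_stabilizer_iff]
        apply Subtype.ext
        show (t : Γ) * (x : Γ) * (t : Γ)⁻¹ = x
        have h4 : (x : Γ) * t = t * x := (Subgroup.mem_centralizer_iff.1 t.2.2) x rfl
        rw [← h4]
        group
      · intro t
        rfl
      · intro t
        rfl
    have h4 := (MulAction.stabilizer T x).card_mul_index
    rw [h2, hTc, hm] at h4
    have h5 : Nat.card (T ⧸ MulAction.stabilizer T x) = (MulAction.stabilizer T x).index := rfl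
    rw [h5]
    omega
  have h12 : 12 ∣ (Ob M π d).ncard := by
    have h1 : Nat.card (Ob M π d) = (Ob M π d).ncard := rfl
    rw [← h1, Nat.card_congr (MulAction.selfEquivSigmaOrbitsQuotientStabilizer T (Ob M π d))]
    haveI : Fintype (Quotient (MulAction.orbitRel T (Ob M π d))) := Fintype.ofFinite _
    rw [Nat.card_sigma]
    apply Finset.dvd_sum
    intro ω _
    rw [hstab]
  have hne : (Ob M π d).ncard ≠ 36 := by
    intro h36
    obtain ⟨w, hw, hw12⟩ := EH_mod h
    have h1 := Ob_card h hd hT h3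
    rw [h36, hw, hm] at h1
    have h2 : Nat.card (Nd d h3 ⊓ M : Subgroup Γ) = w := by
      have h4 : 36 * Nat.card (Nd d h3 ⊓ M : Subgroup Γ) = 36 * w := by
        rw [h1]
        norm_num
      exact Nat.eq_of_mul_eq_mul_left (by norm_num) h4
    have h9 : 9 ∣ Nat.card (Nd d h3 ⊓ M : Subgroup Γ) := by
      have hcm : ∀ (a : (T ⊓ Cd d : Subgroup Γ)) (b : Subgroup.zpowers d),
          Commute ((T ⊓ Cd d : Subgroup Γ).subtype a) ((Subgroup.zpowers d).subtype b) := by
        rintro ⟨a, ha⟩ ⟨b, hb⟩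
        obtain ⟨k, rfl⟩ := Subgroup.mem_zpowers_iff.1 hb
        have h4 : d * a = a * d := (Subgroup.mem_centralizer_iff.1 ha.2) d rfl
        show Commute a (d ^ k)
        exact (show Commute a d from h4.symm).zpow_right k
      have hd1 : d ≠ 1 := by
        intro h4
        apply hT
        rw [h4]
        exact one_mem _
      have hzc : Nat.card (Subgroup.zpowers d) = 3 := by
        rw [Nat.card_zpowers]
        exact orderOf_eq_prime h3 hd1
      have hdisj : Disjoint (T ⊓ Cd d : Subgroup Γ) (Subgroup.zpowers d) := by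
        rw [Subgroup.disjoint_def]
        intro x hx hx2
        by_contra hx1
        apply hT
        have h5 : Subgroup.zpowers x = Subgroup.zpowers d := by
          have h6 : Subgroup.zpowers x ≤ Subgroup.zpowers d := by
            rw [Subgroup.zpowers_le]
            exact hx2
          apply Subgroup.eq_of_le_of_card_ge h6
          rw [hzc, Nat.card_zpowers]
          have h7 : orderOf x ∣ 3 := by
            rw [← hzc, ← Nat.card_zpowers]
            exact Subgroup.card_dvd_of_le h6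
          rcases (Nat.dvd_prime Nat.prime_three).1 h7 with h8 | h8
          · exact absurd (orderOf_eq_one_iff.1 h8) hx1
          · rw [h8]
        have h6 : d ∈ Subgroup.zpowers x := by
          rw [h5]
          exact Subgroup.mem_zpowers d
        obtain ⟨k, hk⟩ := Subgroup.mem_zpowers_iff.1 h6
        rw [← hk]
        exact T.zpow_mem hx.1 k
      have hinj : Function.Injective (MonoidHom.noncommCoprod
          (T ⊓ Cd d : Subgroup Γ).subtype (Subgroup.zpowers d).subtype hcm) := by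
        rw [MonoidHom.noncommCoprod_injective]
        refine ⟨Subtype.val_injective, Subtype.val_injective, ?_⟩
        rw [Subgroup.range_subtype, Subgroup.range_subtype]
        exact hdisj
      have hrc : Nat.card (MonoidHom.noncommCoprod
          (T ⊓ Cd d : Subgroup Γ).subtype (Subgroup.zpowers d).subtype hcm).range = 9 := by
        rw [← Nat.card_congr (MonoidHom.ofInjective hinj).toEquiv, Nat.card_prod,
          EH5b_cen h hm hd hT h3, hzc]
      rw [← hrc]
      apply Subgroup.card_dvd_of_le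
      rintro x ⟨⟨⟨a, ha⟩, ⟨b, hb⟩⟩, rfl⟩
      show a * b ∈ (Nd d h3 ⊓ M : Subgroup Γ)
      obtain ⟨k, rfl⟩ := Subgroup.mem_zpowers_iff.1 hb
      have h4 : d * a = a * d := (Subgroup.mem_centralizer_iff.1 ha.2) d rfl
      have hA : a ∈ (Nd d h3 ⊓ M : Subgroup Γ) := by
        refine ⟨Or.inl ?_, h.TM ha.1⟩
        show a * d * a⁻¹ = d
        rw [← h4]
        group
      have hD : d ∈ (Nd d h3 ⊓ M : Subgroup Γ) := by
        refine ⟨Or.inl ?_, hd⟩
        show d * d * d⁻¹ = d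
        group
      exact (Nd d h3 ⊓ M : Subgroup Γ).mul_mem hA ((Nd d h3 ⊓ M : Subgroup Γ).zpow_mem hD k)
    rw [h2] at h9
    have h10 : 9 ∣ 12 := h9.trans hw12
    revert h10
    decide
  obtain ⟨k, hk⟩ := h12
  have hk3 : k ≤ 3 := by omega
  interval_cases k
  · omega
  · left
    omega
  · right
    omega
  · omega

end Pool.Agent.H40.GT
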