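import Pool.Agent.H40.GT.EH5

/-!
# GT-37 Theorem E, step 6: the number of fixed points

`d ∈ M`, `d ∉ T`, `d ^ 3 = 1`, `f = |Fx M d| ≥ 2`, `a = |Ob|`, `N = |Nd ∩ M|`, `C = |Cd d|`.
`3 |T|` divides `|M|` (`C_div`; there is some `i ∈ Iv` because `3 (f - 1) > 0`); write
`|M| = 3 |T| κ`; `κ ≥ 1`.  `C_div`: `|C ∩ C(i)|` divides `κ` for `i ∈ Iv`.  `div_conj` (`C` acts on `Iv` by conjugation):
`C ∣ κ |Iv| = 3 κ (f - 1)` (`Iv_card`).  `2 C = f N` (`N_card`), `a N = |M| = 3 m^2 κ` (`Ob_card`, `EH_card`).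
* `m = 10`: `a = 100`, `N = 3 κ`, `2 C = 3 κ f` divides `6 κ (f - 1)`, so `f ∣ 2 (f - 1)`, `f ∣ 2`, `f = 2`.
* `m = 6`, `a = 12`: `N = 9 κ`, `2 C = 9 κ f` divides `6 κ (f - 1)`: impossible
  (`0 < 6 (f - 1) < 9 f`).
* `m = 6`, `a = 24`: `2 N = 9 κ`, `4 C = 9 κ f` divides `12 κ (f - 1)`: `3 f ∣ 4 (f - 1)`; `f ∣ 4`, `f = 2` is
  impossible (`6 ∤ 4`), so `f = 4`.
-/

namespace Pool.Agent.H40.GT

variable {Γ : Type} [Group Γ] {T M : Subgroup Γ} {m : ℕ} {c : Γ → Fin 3 → ZMod m}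
  {π : Γ → Equiv.Perm (Fin 3)} {ε : Γ → ℤˣ}

theorem EH6_arith (f g N C κ a q : ℕ) (hf : f = g + 1) (hg : 1 ≤ g) (hκ : 0 < κ)
    (h1 : 2 * C = f * N) (h2 : a * N = 3 * (q * κ)) (h3 : C ∣ κ * (3 * g)) :
    (q = 100 → a = 100 → f = 2) ∧ (q = 36 → a = 12 → False) ∧ (q = 36 → a = 24 → f = 4) := by
  obtain ⟨t, ht⟩ := h3
  refine ⟨?_, ?_, ?_⟩
  · rintro rfl rfl
    have hN : N = 3 * κ := by omega
    subst hN
    -- 2 C = 3 κ f, κ 3 g = C t
    have h4 : κ * (6 * g) = κ * (3 * f * t) := by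
      calc κ * (6 * g) = 2 * (κ * (3 * g)) := by ring
        _ = 2 * C * t := by rw [ht]; ring
        _ = κ * (3 * f * t) := by rw [h1]; ring
    have h5 : 6 * g = 3 * f * t := Nat.eq_of_mul_eq_mul_left hκ h4
    have h6 : 2 * g = f * t := by
      have : 3 * (2 * g) = 3 * (f * t) := by rw [← mul_assoc 3 f t, ← h5]; ring
      omega
    subst hf
    have h7 : t < 2 := by
      by_contra h
      have : 2 * (g + 1) ≤ (g + 1) * t := by nlinarith
      omega
    interval_cases t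
    · omega
    · omega
  · rintro rfl rfl
    have hN : N = 9 * κ := by omega
    subst hN
    have h4 : κ * (6 * g) = κ * (9 * f * t) := by
      calc κ * (6 * g) = 2 * (κ * (3 * g)) := by ring
        _ = 2 * C * t := by rw [ht]; ring
        _ = κ * (9 * f * t) := by rw [h1]; ring
    have h5 : 6 * g = 9 * f * t := Nat.eq_of_mul_eq_mul_left hκ h4
    subst hf
    rcases Nat.eq_zero_or_pos t with h | h
    · subst h
      omega
    · have : 9 * (g + 1) ≤ 9 * (g + 1) * t := Nat.le_mul_of_pos_right _ h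
      omega
  · rintro rfl rfl
    have hN : 2 * N = 9 * κ := by omega
    have h4 : κ * (12 * g) = κ * (9 * f * t) := by
      calc κ * (12 * g) = 4 * (κ * (3 * g)) := by ring
        _ = 2 * (2 * C) * t := by rw [ht]; ring
        _ = f * (2 * N) * t := by rw [h1]; ring
        _ = κ * (9 * f * t) := by rw [hN]; ring
    have h5 : 12 * g = 9 * f * t := Nat.eq_of_mul_eq_mul_left hκ h4
    have h6 : 4 * g = 3 * (f * t) := by
      have : 3 * (4 * g) = 3 * (3 * (f * t)) := by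
        calc 3 * (4 * g) = 12 * g := by ring
          _ = 9 * f * t := h5
          _ = _ := by ring
      omega
    subst hf
    have h7 : t < 2 := by
      by_contra h
      have : 2 * (g + 1) ≤ (g + 1) * t := by nlinarith
      omega
    interval_cases t
    · omega
    · omega

theorem EH6 (h : EH Γ T M m c π ε) {d : Γ} (hd : d ∈ M) (hT : d ∉ T) (h3 : d ^ 3 = 1)
    (h2 : 2 ≤ (Fx M d).ncard) :
    (m = 10 ∧ (Fx M d).ncard = 2) ∨
      (m = 6 ∧ (Fx M d).ncard = 4 ∧ (Ob M π d).ncard = 24) := by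
  have := h.fin
  have hiv := Iv_card h hd hT h3
  obtain ⟨g, hg⟩ : ∃ g, (Fx M d).ncard = g + 1 := ⟨(Fx M d).ncard - 1, by omega⟩
  have hg1 : 1 ≤ g := by omega
  have hiv2 : (Iv T d).ncard = 3 * g := by omega
  have hne : (Iv T d).Nonempty := by
    rw [← Set.ncard_pos]
    omega
  obtain ⟨i0, hi0⟩ := hne
  have hMpos : 0 < Nat.card M := Nat.card_pos
  have hTpos : 0 < Nat.card T := Nat.card_pos
  obtain ⟨κ, hκ⟩ : ∃ κ, Nat.card M = 3 * (Nat.card T * κ) := by
    obtain ⟨k, hk⟩ := C_div h hd hT h3 hi0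
    exact ⟨Nat.card (Cd d ⊓ Subgroup.centralizer {i0} : Subgroup Γ) * k, by rw [hk]; ring⟩
  have hκpos : 0 < κ := by
    rcases Nat.eq_zero_or_pos κ with h0 | h0
    · rw [h0, mul_zero, mul_zero] at hκ
      omega
    · exact h0
  have hdiv : Nat.card (Cd d) ∣ κ * (Iv T d).ncard := by
    apply div_conj
    · intro x hx i hi
      refine ⟨II_conj hi.1 x, ?_⟩
      have hxd : x * d = d * x := (Subgroup.mem_centralizer_singleton_iff.mp hx)
      have e1 : x⁻¹ * d = d * x⁻¹ := by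
        have : x * (x⁻¹ * d) * x = x * (d * x⁻¹) * x := by
          rw [mul_inv_cancel_left, ← mul_assoc, hxd, mul_assoc, mul_assoc, inv_mul_cancel, mul_one]
        exact mul_left_cancel (mul_right_cancel this)
      have e2 : x * i * x⁻¹ * d * (x * i * x⁻¹) = x * (i * d * i) * x⁻¹ := by
        calc x * i * x⁻¹ * d * (x * i * x⁻¹) = x * i * (x⁻¹ * d) * (x * i * x⁻¹) := by group
          _ = x * i * (d * x⁻¹) * (x * i * x⁻¹) := by rw [e1]
          _ = x * (i * d * i) * x⁻¹ := by group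
      rw [e2, hi.2]
      have e3 : x * d⁻¹ * x⁻¹ = (x * d * x⁻¹)⁻¹ := by group
      rw [e3, hxd, mul_inv_cancel_right]
    · intro i hi
      have h5 := C_div h hd hT h3 hi
      rw [hκ] at h5
      exact Nat.dvd_of_mul_dvd_mul_left hTpos (Nat.dvd_of_mul_dvd_mul_left (by norm_num) h5)
  rw [hiv2] at hdiv
  have hN := N_card h hd hT h3 h2
  have hO := Ob_card h hd hT h3
  rw [hκ] at hO
  have hTc := EH_card h
  rcases h.hm with hm | hm
  · right
    rw [hTc, hm] at hO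
    obtain ⟨-, a2, a3⟩ := EH6_arith _ g _ _ κ (Ob M π d).ncard 36 hg hg1 hκpos hN
      (by rw [hO]; norm_num) hdiv
    rcases Ob_six h hm hd hT h3 with h6 | h6
    · exact absurd (a2 rfl h6) not_false
    · exact ⟨hm, a3 rfl h6, h6⟩
  · left
    have h100 : (Ob M π d).ncard = 100 := by
      rw [Ob_ten h hm hd hT h3, Dd_card h hd hT h3, hm]
      norm_num
    rw [hTc, hm] at hO
    obtain ⟨a1, -, -⟩ := EH6_arith _ g _ _ κ (Ob M π d).ncard 100 hg hg1 hκpos hN
      (by rw [hO]; norm_num) hdiv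
    exact ⟨hm, a1 rfl h100⟩

end Pool.Agent.H40.GT
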