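import Pool.Agent.H40.GT.EH6

/-!
# GT-38 Theorem E, step 7: the index of `M`

Suppose `x0 ∉ M`.  `EH3` (for `x0⁻¹`) gives `d0 ∈ M`, `d0 ∉ T`, of order 3 fixing the coset `x0 M ≠ M`
(`i d0 i = d0⁻¹`, `i M = x0 M`), so `f(d0) = |Fx M d0| ≥ 2`.  Let `D = Dd M π ε (π d0)`.
Every coset `α ≠ M` is fixed by exactly one `d ∈ D`: existence by `EH3` (`d` or `d⁻¹` is in `D`, the two
elements of order 3 of the symmetric group), uniqueness by `I_uniq` (`π d = π d'` excludes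
`d' = d⁻¹`).  So `n - 1 = ∑_(d ∈ D) (f(d) - 1)`, `n = [Γ : M]` (`M` itself is fixed by all `d`).
`f` is constant on `Ob M π d` (conjugation by `x ∈ M`, and inverses).
`m = 10`: `D = Ob M π d0` (`Ob_ten`) has 100 elements, all with `f = 2` (`EH6`): `n = 101`.
`m = 6`: `Ob M π d0` has 24 elements with `f = 4`; a `d ∈ D` outside of it with `f(d) ≥ 2` would have
`|Ob M π d| = 24`, disjoint from `Ob M π d0` (being in the same class is an equivalence relation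
on `D`), but `|D| = 36`.  So `n = 1 + 24 * 3 = 73`.
-/

namespace Pool.Agent.H40.GT

variable {Γ : Type} [Group Γ] {T M : Subgroup Γ} {m : ℕ} {c : Γ → Fin 3 → ZMod m}
  {π : Γ → Equiv.Perm (Fin 3)} {ε : Γ → ℤˣ}

theorem EH7_perm : ∀ σ τ : Equiv.Perm (Fin 3), σ ≠ 1 → σ ^ 3 = 1 → τ ≠ 1 → τ ^ 3 = 1 →
    σ = τ ∨ σ = τ⁻¹ := by
  decide

theorem EH7_inv (h : EH Γ T M m c π ε) {d : Γ} (hd : d ∈ M) :
    π d⁻¹ = (π d)⁻¹ ∧ ε d⁻¹ = (ε d)⁻¹ := by
  have h1 := h.pmul d hd d⁻¹ (M.inv_mem hd)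
  rw [mul_inv_cancel, (h.tri 1 T.one_mem).1, (h.tri 1 T.one_mem).2] at h1
  exact ⟨eq_inv_of_mul_eq_one_right h1.1.symm, eq_inv_of_mul_eq_one_right h1.2.symm⟩

theorem EH7_mem {x d : Γ} : d • (x : Γ ⧸ M) = (x : Γ ⧸ M) ↔ x⁻¹ * d * x ∈ M := by
  have h1 : d • (x : Γ ⧸ M) = ((d * x : Γ) : Γ ⧸ M) := rfl
  rw [h1, eq_comm, QuotientGroup.eq, mul_assoc]

theorem EH7_ex (h : EH Γ T M m c π ε) {x : Γ} (hx : x ∉ M) :
    ∃ d ∈ M, d ∉ T ∧ d ^ 3 = 1 ∧ x⁻¹ * d * x ∈ M := by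
  have hx' : x⁻¹ ∉ M := fun h' => hx (by simpa using M.inv_mem h')
  obtain ⟨i, hi, hix, d, hd, hT, h3, hid, -⟩ := EH3 h hx'
  refine ⟨d, hd, hT, h3, ?_⟩
  have hii := II_sq hi
  have hinv : i⁻¹ = i := inv_eq_of_mul_eq_one_left hii
  rw [inv_inv] at hix
  -- x⁻¹ d x = (i x)⁻¹ (i d i⁻¹) (i x)
  have e : x⁻¹ * d * x = (i * x)⁻¹ * (i * d * i) * (i * x) := by
    calc x⁻¹ * d * x = (i * x)⁻¹ * (i * d * i⁻¹) * (i * x) := by group
      _ = _ := by rw [hinv]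
  rw [e, hid]
  exact M.mul_mem (M.mul_mem (M.inv_mem hix) (M.inv_mem hd)) hix

theorem EH7_exD (h : EH Γ T M m c π ε) {d0 : Γ} (hd0 : d0 ∈ M) (hT0 : d0 ∉ T)
    (h30 : d0 ^ 3 = 1) {x : Γ} (hx : x ∉ M) :
    ∃ d ∈ Dd M π ε (π d0), x⁻¹ * d * x ∈ M := by
  obtain ⟨d, hd, hT, h3, hxd⟩ := EH7_ex h hx
  obtain ⟨a1, a2, a3⟩ := EH_ord3 h hd h3 hT
  obtain ⟨b1, b2, -⟩ := EH_ord3 h hd0 h30 hT0
  rcases EH7_perm _ _ a1 a2 b1 b2 with h4 | h4
  · exact ⟨d, ⟨hd, h4, a3⟩, hxd⟩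
  · refine ⟨d⁻¹, ⟨M.inv_mem hd, ?_, ?_⟩, ?_⟩
    · rw [(EH7_inv h hd).1, h4, inv_inv]
    · rw [(EH7_inv h hd).2, a3, inv_one]
    · have e : x⁻¹ * d⁻¹ * x = (x⁻¹ * d * x)⁻¹ := by group
      rw [e]
      exact M.inv_mem hxd

theorem EH7_uniD (h : EH Γ T M m c π ε) {d0 : Γ} (hd0 : d0 ∈ M) (hT0 : d0 ∉ T)
    (h30 : d0 ^ 3 = 1) {x d d' : Γ} (hx : x ∉ M) (hd : d ∈ Dd M π ε (π d0))
    (hd' : d' ∈ Dd M π ε (π d0)) (h1 : x⁻¹ * d * x ∈ M) (h2 : x⁻¹ * d' * x ∈ M) : d' = d := by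
  obtain ⟨a1, a2, a3⟩ := Dd_ord h hd0 hT0 h30 hd
  obtain ⟨b1, b2, b3⟩ := Dd_ord h hd0 hT0 h30 hd'
  have hx' : x⁻¹ ∉ M := fun h' => hx (by simpa using M.inv_mem h')
  rcases I_uniq h hx' a1 b1 a3 b3 a2 b2 (by rwa [inv_inv]) (by rwa [inv_inv]) with h4 | h4
  · exact h4
  · exfalso
    have h5 := (EH7_inv h a1).1
    rw [← h4, hd'.2.1, hd.2.1] at h5
    obtain ⟨c1, c2, -⟩ := EH_ord3 h hd0 h30 hT0
    have h6 : ∀ σ : Equiv.Perm (Fin 3), σ ≠ 1 → σ ^ 3 = 1 → σ ≠ σ⁻¹ := by decide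
    exact h6 _ c1 c2 h5

theorem EH7_Fx_one {d : Γ} (hd : d ∈ M) : ((1 : Γ) : Γ ⧸ M) ∈ Fx M d := by
  show d • ((1 : Γ) : Γ ⧸ M) = ((1 : Γ) : Γ ⧸ M)
  rw [EH7_mem]
  simpa using hd

theorem EH7_Fx_inv (d : Γ) : Fx M d⁻¹ = Fx M d := by
  ext α
  show d⁻¹ • α = α ↔ d • α = α
  rw [inv_smul_eq_iff, eq_comm]

theorem EH7_Fx_conj (d x : Γ) : (Fx M (x * d * x⁻¹)).ncard = (Fx M d).ncard := by
  have e : Fx M (x * d * x⁻¹) = (fun α => x • α) '' Fx M d := by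
    ext α
    constructor
    · intro hα
      refine ⟨x⁻¹ • α, ?_, smul_inv_smul x α⟩
      show d • x⁻¹ • α = x⁻¹ • α
      have h1 : (x * d * x⁻¹) • α = α := hα
      rw [mul_smul, mul_smul] at h1
      rw [eq_inv_smul_iff]
      exact h1
    · rintro ⟨β, hβ, rfl⟩
      show (x * d * x⁻¹) • x • β = x • β
      rw [mul_smul, mul_smul, inv_smul_smul]
      congr 1
  rw [e]
  exact Set.ncard_image_of_injective _ (MulAction.injective x)

theorem EH7_Fx_Ob {d d' : Γ} (h' : d' ∈ Ob M π d) : (Fx M d').ncard = (Fx M d).ncard := by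
  obtain ⟨-, x, -, h1 | h1⟩ := h'
  · rw [h1, EH7_Fx_conj]
  · rw [h1, EH7_Fx_conj, EH7_Fx_inv]

theorem EH7_Ob_meet {d d' e : Γ} (hπ : π d = π d') (h1 : e ∈ Ob M π d) (h2 : e ∈ Ob M π d') :
    d ∈ Ob M π d' := by
  obtain ⟨-, x, hx, h3⟩ := h1
  obtain ⟨-, y, hy, h4⟩ := h2
  refine ⟨hπ, x⁻¹ * y, M.mul_mem (M.inv_mem hx) hy, ?_⟩
  rcases h3 with h3 | h3 <;> rcases h4 with h4 | h4
  · left
    have : d = x⁻¹ * e * x := by rw [h3]; group
    rw [this, h4]; group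
  · right
    have : d = x⁻¹ * e * x := by rw [h3]; group
    rw [this, h4]; group
  · right
    have : d = (x⁻¹ * e * x)⁻¹ := by rw [h3]; group
    rw [this, h4]; group
  · left
    have : d = (x⁻¹ * e * x)⁻¹ := by rw [h3]; group
    rw [this, h4]; group

theorem EH7_sum (h : EH Γ T M m c π ε) {d0 : Γ} (hd0 : d0 ∈ M) (hT0 : d0 ∉ T)
    (h30 : d0 ^ 3 = 1) (D : Finset Γ) (hD : ∀ d, d ∈ D ↔ d ∈ Dd M π ε (π d0)) :
    Nat.card (Γ ⧸ M) = 1 + ∑ d ∈ D, ((Fx M d).ncard - 1) := by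
  classical
  have := h.fin
  have : Fintype (Γ ⧸ M) := Fintype.ofFinite _
  set o : Γ ⧸ M := ((1 : Γ) : Γ ⧸ M) with ho
  have h1 : ∀ α : Γ ⧸ M, ∃ d, α ≠ o → d ∈ D ∧ d • α = α := by
    intro α
    by_cases hα : α = o
    · exact ⟨1, fun h' => absurd hα h'⟩
    · obtain ⟨x, rfl⟩ := QuotientGroup.mk_surjective α
      have hx : x ∉ M := by
        intro hx
        apply hα
        rw [ho, QuotientGroup.eq]
        simpa using hx
      obtain ⟨d, hd, hxd⟩ := EH7_exD h hd0 hT0 h30 hx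
      exact ⟨d, fun _ => ⟨(hD d).2 hd, EH7_mem.2 hxd⟩⟩
  choose δ hδ using h1
  have h2 : (Finset.univ.erase o).card = ∑ d ∈ D, ((Finset.univ.erase o).filter
      (fun α => δ α = d)).card := by
    apply Finset.card_eq_sum_card_fiberwise
    intro α hα
    exact (hδ α (Finset.ne_of_mem_erase hα)).1
  have h3 : ∀ d ∈ D, ((Finset.univ.erase o).filter (fun α => δ α = d)).card =
      (Fx M d).ncard - 1 := by
    intro d hd
    have hdD := (hD d).1 hd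
    have h4 : (Fx M d).toFinset.erase o = (Finset.univ.erase o).filter (fun α => δ α = d) := by
      ext α
      rw [Finset.mem_erase, Set.mem_toFinset, Finset.mem_filter, Finset.mem_erase]
      constructor
      · rintro ⟨hα, hαd⟩
        refine ⟨⟨hα, Finset.mem_univ _⟩, ?_⟩
        obtain ⟨x, rfl⟩ := QuotientGroup.mk_surjective α
        have hx : x ∉ M := by
          intro hx
          apply hα
          rw [ho, QuotientGroup.eq]
          simpa using hx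
        have h5 := hδ _ hα
        exact EH7_uniD h hd0 hT0 h30 hx hdD ((hD _).1 h5.1) (EH7_mem.1 hαd) (EH7_mem.1 h5.2)
      · rintro ⟨⟨hα, -⟩, hαd⟩
        refine ⟨hα, ?_⟩
        rw [← hαd]
        exact (hδ _ hα).2
    rw [← h4, Finset.card_erase_of_mem, Set.ncard_eq_toFinset_card']
    rw [Set.mem_toFinset]
    exact EH7_Fx_one hdD.1
  rw [Finset.sum_congr rfl h3, Finset.card_erase_of_mem (Finset.mem_univ _), Finset.card_univ] at h2
  have h4 : 0 < Fintype.card (Γ ⧸ M) := Fintype.card_pos_iff.2 ⟨o⟩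
  rw [Nat.card_eq_fintype_card, ← h2]
  omega

theorem EH7 (h : EH Γ T M m c π ε) {x : Γ} (hx : x ∉ M) :
    (m = 10 ∧ Nat.card Γ = 101 * Nat.card M) ∨ (m = 6 ∧ Nat.card Γ = 73 * Nat.card M) := by
  classical
  have hfin := h.fin
  obtain ⟨d0, hd0, hT0, h30, hxd0⟩ := EH7_ex h hx
  have hDfin : (Dd M π ε (π d0)).Finite := Set.toFinite _
  set D : Finset Γ := hDfin.toFinset with hDdef
  have hD : ∀ d, d ∈ D ↔ d ∈ Dd M π ε (π d0) := fun d => Set.Finite.mem_toFinset _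
  have hsum := EH7_sum h hd0 hT0 h30 D hD
  have hDcard : D.card = m ^ 2 := by
    rw [← Dd_card h hd0 hT0 h30, Set.ncard_eq_toFinset_card _ hDfin]
  have hcard : Nat.card Γ = Nat.card (Γ ⧸ M) * Nat.card M :=
    Subgroup.card_eq_card_quotient_mul_card_subgroup M
  have hf0 : 2 ≤ (Fx M d0).ncard := by
    have h1 : ({((1 : Γ) : Γ ⧸ M), (x : Γ ⧸ M)} : Set (Γ ⧸ M)) ⊆ Fx M d0 := by
      intro α hα
      rcases hα with rfl | hα
      · exact EH7_Fx_one hd0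
      · rw [Set.mem_singleton_iff] at hα
        rw [hα]
        exact EH7_mem.2 hxd0
    have h2 : ({((1 : Γ) : Γ ⧸ M), (x : Γ ⧸ M)} : Set (Γ ⧸ M)).ncard = 2 := by
      apply Set.ncard_pair
      intro h3
      rw [QuotientGroup.eq] at h3
      exact hx (by simpa using h3)
    rw [← h2]
    exact Set.ncard_le_ncard h1 (Set.toFinite _)
  have hpos : ∀ d ∈ D, 1 ≤ (Fx M d).ncard := by
    intro d hd
    rw [Nat.succ_le_iff, Set.ncard_pos]
    exact ⟨_, EH7_Fx_one ((hD d).1 hd).1⟩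
  rcases EH6 h hd0 hT0 h30 hf0 with ⟨hm, hf⟩ | ⟨hm, hf, hO⟩
  · left
    refine ⟨hm, ?_⟩
    have h1 : ∀ d ∈ D, (Fx M d).ncard - 1 = 1 := by
      intro d hd
      have h2 := (hD d).1 hd
      rw [← Ob_ten h hm hd0 hT0 h30] at h2
      rw [EH7_Fx_Ob h2, hf]
    rw [Finset.sum_congr rfl h1, Finset.sum_const, hDcard, hm] at hsum
    rw [hcard, hsum]
    norm_num
  · right
    refine ⟨hm, ?_⟩
    have hOD : Ob M π d0 ⊆ Dd M π ε (π d0) := Ob_sub h hd0 hT0 h30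
    have hOfin : (Ob M π d0).Finite := hDfin.subset hOD
    have h1 : ∀ d ∈ D, (Fx M d).ncard - 1 = if d ∈ hOfin.toFinset then 3 else 0 := by
      intro d hd
      have hdD := (hD d).1 hd
      by_cases h2 : d ∈ Ob M π d0
      · rw [if_pos (hOfin.mem_toFinset.2 h2), EH7_Fx_Ob h2, hf]
      · rw [if_neg (fun h3 => h2 (hOfin.mem_toFinset.1 h3))]
        by_contra h3
        have h4 : 2 ≤ (Fx M d).ncard := by omega
        obtain ⟨a1, a2, a3⟩ := Dd_ord h hd0 hT0 h30 hdD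
        rcases EH6 h a1 a2 a3 h4 with ⟨h5, -⟩ | ⟨-, -, h5⟩
        · omega
        · have h6 : Ob M π d ⊆ Dd M π ε (π d0) := by
            have := Ob_sub h a1 a2 a3
            rwa [hdD.2.1] at this
          have h7 : Disjoint (Ob M π d) (Ob M π d0) := by
            rw [Set.disjoint_left]
            intro e he he'
            exact h2 (EH7_Ob_meet hdD.2.1 he he')
          have h8 : (Ob M π d ∪ Ob M π d0).ncard = 48 := by
            rw [Set.ncard_union_eq h7 (hDfin.subset h6) hOfin, h5, hO]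
          have h9 := Set.ncard_le_ncard (Set.union_subset h6 hOD) hDfin
          rw [h8, Dd_card h hd0 hT0 h30, hm] at h9
          norm_num at h9
    have h2 : ∑ d ∈ D, (if d ∈ hOfin.toFinset then 3 else 0) = 24 * 3 := by
      rw [← Finset.sum_filter, Finset.sum_const, smul_eq_mul]
      congr 1
      have h3 : D.filter (fun d => d ∈ hOfin.toFinset) = hOfin.toFinset := by
        ext d
        rw [Finset.mem_filter]
        constructor
        · exact fun h4 => h4.2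
        · exact fun h4 => ⟨(hD d).2 (hOD (hOfin.mem_toFinset.1 h4)), h4⟩
      rw [h3, ← hO, Set.ncard_eq_toFinset_card _ hOfin]
    rw [Finset.sum_congr rfl h1, h2] at hsum
    rw [hcard, hsum]

end Pool.Agent.H40.GT
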