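import Pool.Agent.H40.GT.EH7

/-!
# Part EH8a (of EH8a, EH8b); GT-39 Theorem E

Suppose `x ∉ M`.  By `EH7` `|Γ| = P |M|`, `P = 101` (`m = 10`) or `P = 73` (`m = 6`), and
`|M| = m^2 w`, `w ∣ 12` (`EH_mod`), so `|M|` divides `1200` or `432` and is prime to `P`.
The number of Sylow `P`-subgroups divides `|M|` and is `1` modulo `P`: it is `1` (check the
divisors: no divisor `> 1` of `1200` is `1` modulo `101`, no divisor `> 1` of `432` is `1` modulo
`73`).  So the Sylow `P`-subgroup `R` is normal, cyclic of prime order `P`.  The involutions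
`e1 ≠ e2` of `T` act on `R` by conjugation as `r ↦ r` or `r ↦ r⁻¹`, so one of `e1, e2, e1 e2`
commutes with `R`; by `cent` `R ≤ M`, contradiction (`P ∤ |M|`).
-/

namespace Pool.Agent.H40.GT

variable {Γ : Type} [Group Γ] {T M : Subgroup Γ} {m : ℕ} {c : Γ → Fin 3 → ZMod m}
  {π : Γ → Equiv.Perm (Fin 3)} {ε : Γ → ℤˣ}

/-- a normal subgroup of prime order, with a group `E` containing two involutions `e1, e2` whose
product is an involution -/
theorem inv_cent {Γ : Type} [Group Γ] [Finite Γ] (R : Subgroup Γ) [R.Normal] {P : ℕ}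
    (hP : P.Prime) (hR : Nat.card R = P) {e1 e2 : Γ} (h1 : e1 ^ 2 = 1) (h2 : e2 ^ 2 = 1)
    (h12 : e1 * e2 = e2 * e1) : (∀ r ∈ R, r * e1 = e1 * r) ∨ (∀ r ∈ R, r * e2 = e2 * r) ∨
      ∀ r ∈ R, r * (e1 * e2) = e1 * e2 * r := by
  have hfact : Fact P.Prime := ⟨hP⟩
  have hRP : Nat.card R = P := hR
  have hne : ∃ r0 ∈ R, r0 ≠ 1 := by
    by_contra hh
    push Not at hh
    have h3 : R = ⊥ := (Subgroup.eq_bot_iff_forall R).2 hh
    rw [h3, Subgroup.card_bot] at hR
    exact hP.one_lt.ne hR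
  obtain ⟨r0, hr0, hr01⟩ := hne
  have hgen : ∀ r ∈ R, ∃ k : ℤ, r0 ^ k = r := by
    intro r hr
    have h3 : (⟨r, hr⟩ : R) ∈ Subgroup.zpowers (⟨r0, hr0⟩ : R) :=
      mem_zpowers_of_prime_card hRP (by
        intro h4
        exact hr01 (congrArg Subtype.val h4))
    obtain ⟨k, hk⟩ := h3
    exact ⟨k, congrArg Subtype.val hk⟩
  have hord : orderOf r0 = P := by
    have h3 : r0 ^ P = 1 := by
      rw [← hRP]
      exact congrArg Subtype.val (pow_card_eq_one' (x := (⟨r0, hr0⟩ : R)))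
    exact orderOf_eq_prime h3 hr01
  have hsign : ∀ e : Γ, e ^ 2 = 1 → e * r0 * e⁻¹ = r0 ∨ e * r0 * e⁻¹ = r0⁻¹ := by
    intro e he
    obtain ⟨k, hk⟩ := hgen _ (Subgroup.Normal.conj_mem inferInstance r0 hr0 e)
    have h4 : r0 ^ (k * k) = r0 := by
      rw [zpow_mul, hk, conj_zpow, hk]
      calc e * (e * r0 * e⁻¹) * e⁻¹ = e ^ 2 * r0 * (e ^ 2)⁻¹ := by rw [sq]; group
        _ = r0 := by rw [he]; group
    have h5 : r0 ^ ((k - 1) * (k + 1)) = 1 := by
      have : (k - 1) * (k + 1) = k * k - 1 := by ring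
      rw [this, zpow_sub, h4, zpow_one, mul_inv_cancel]
    have h6 : (P : ℤ) ∣ (k - 1) * (k + 1) := by
      rw [← hord]
      exact orderOf_dvd_iff_zpow_eq_one.2 h5
    rcases (Nat.prime_iff_prime_int.1 hP).dvd_or_dvd h6 with h7 | h7
    · left
      rw [← hk]
      have h8 : r0 ^ (k - 1) = 1 := by
        apply orderOf_dvd_iff_zpow_eq_one.1
        rw [hord]; exact h7
      rw [zpow_sub, zpow_one, mul_inv_eq_one] at h8
      exact h8
    · right
      rw [← hk]
      have h8 : r0 ^ (k + 1) = 1 := by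
        apply orderOf_dvd_iff_zpow_eq_one.1
        rw [hord]; exact h7
      rw [zpow_add, zpow_one, mul_eq_one_iff_eq_inv] at h8
      exact h8
  have hfin : ∀ e : Γ, e * r0 * e⁻¹ = r0 → ∀ r ∈ R, r * e = e * r := by
    intro e he r hr
    obtain ⟨k, rfl⟩ := hgen r hr
    have h3 : e * r0 ^ k * e⁻¹ = r0 ^ k := by
      rw [← conj_zpow, he]
    exact (mul_inv_eq_iff_eq_mul.1 h3).symm
  rcases hsign e1 h1 with h3 | h3
  · exact Or.inl (hfin e1 h3)
  rcases hsign e2 h2 with h4 | h4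
  · exact Or.inr (Or.inl (hfin e2 h4))
  refine Or.inr (Or.inr (hfin _ ?_))
  calc e1 * e2 * r0 * (e1 * e2)⁻¹ = e1 * (e2 * r0 * e2⁻¹) * e1⁻¹ := by group
    _ = (e1 * r0 * e1⁻¹)⁻¹ := by rw [h4]; group
    _ = r0 := by rw [h3, inv_inv]

/-- a Sylow subgroup of prime order which is normal -/
theorem syl_normal {Γ : Type} [Group Γ] [Finite Γ] {P k : ℕ} (hP : P.Prime)
    (hc : Nat.card Γ = P * k) (hk : ¬ P ∣ k) (hd : ∀ a, a ∣ k → a % P = 1 → a = 1) :
    ∃ R : Subgroup Γ, R.Normal ∧ Nat.card R = P := by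
  have hfact : Fact P.Prime := ⟨hP⟩
  obtain ⟨R⟩ : Nonempty (Sylow P Γ) := inferInstance
  have hk0 : k ≠ 0 := by
    rintro rfl
    exact hk (dvd_zero _)
  have hcR : Nat.card R = P := by
    rw [Sylow.card_eq_multiplicity, hc, Nat.factorization_mul hP.ne_zero hk0,
      Finsupp.add_apply, hP.factorization_self, Nat.factorization_eq_zero_of_not_dvd hk, pow_one]
  have hidx : (R : Subgroup Γ).index = k := by
    have h1 := Subgroup.card_mul_index (R : Subgroup Γ)
    rw [hc] at h1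
    have h2 : Nat.card (R : Subgroup Γ) = P := hcR
    rw [h2] at h1
    exact Nat.eq_of_mul_eq_mul_left hP.pos h1
  have h1 : Nat.card (Sylow P Γ) ∣ k := hidx ▸ R.card_dvd_index
  have h2 : Nat.card (Sylow P Γ) % P = 1 := by
    have := card_sylow_modEq_one P Γ
    rw [Nat.ModEq, Nat.mod_eq_of_lt hP.one_lt] at this
    exact this
  have h3 := hd _ h1 h2
  have h4 : Subsingleton (Sylow P Γ) := (Nat.card_eq_one_iff_unique.1 h3).1
  exact ⟨R, Sylow.normal_of_subsingleton R, hcR⟩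

end Pool.Agent.H40.GT
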