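import Pool.Agent.H40.GT.EH8a

/-!
# Part EH8b (of EH8a, EH8b); GT-39 Theorem E

Suppose `x ∉ M`.  By `EH7` `|Γ| = P |M|`, `P = 101` (`m = 10`) or `P = 73` (`m = 6`), and
`|M| = m^2 w`, `w ∣ 12` (`EH_mod`), so `|M|` divides `1200` or `432` and is prime to `P`.
The number of Sylow `P`-subgroups divides `|M|` and is `1` modulo `P`: it is `1` (check the
divisors: no divisor `> 1` of `1200` is `1` modulo `101`, no divisor `> 1` of `432` is `1` modulo
`73`).  So the Sylow `P`-subgroup `R` is normal, cyclic of prime order `P`.  The involutions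
`e1 ≠ e2` of `T` act on `R` by conjugation as `r ↦ r` or `r ↦ r⁻¹`, so one of `e1, e2, e1 e2`
commutes with `R`; by `cent` `R ≤ M`, contradiction (`P ∤ |M|`).
-/

namespace Pool.Agent.H40.GT

variable {Γ : Type} [Group Γ] {T M : Subgroup Γ} {m : ℕ} {c : Γ → Fin 3 → ZMod m}
  {π : Γ → Equiv.Perm (Fin 3)} {ε : Γ → ℤˣ}

private theorem EH8b_c_one (h : EH Γ T M m c π ε) (i : Fin 3) : c 1 i = 0 := by
  have h1 := h.cmul 1 (one_mem T) 1 (one_mem T) i
  rw [mul_one] at h1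
  have h2 : c 1 i + 0 = c 1 i + c 1 i := by rw [add_zero]; exact h1
  exact (add_left_cancel h2).symm

private theorem EH8b_ext (h : EH Γ T M m c π ε) {s t : Γ} (hs : s ∈ T) (ht : t ∈ T)
    (h0 : c s 0 = c t 0) (h1 : c s 1 = c t 1) : s = t := by
  refine h.cinj s hs t ht (funext fun i => ?_)
  have e1 := h.csum s hs
  have e2 := h.csum t ht
  have h2 : c s 2 = c t 2 := by
    rw [h0, h1] at e1
    exact add_left_cancel (e1.trans e2.symm)
  fin_cases i
  · exact h0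
  · exact h1
  · exact h2

private theorem EH8b_inv (h : EH Γ T M m c π ε) : ∃ e1 ∈ T, ∃ e2 ∈ T, e1 ^ 2 = 1 ∧ e2 ^ 2 = 1 ∧
    e1 ≠ 1 ∧ e2 ≠ 1 ∧ e1 * e2 ≠ 1 := by
  obtain ⟨z, hz, hz0⟩ : ∃ z : ZMod m, z + z = 0 ∧ z ≠ 0 := by
    rcases h.hm with hm | hm
    · subst hm
      exact ⟨3, by decide, by decide⟩
    · subst hm
      exact ⟨5, by decide, by decide⟩
  obtain ⟨e1, he1, h10, h11⟩ := h.csur z 0
  obtain ⟨e2, he2, h20, h21⟩ := h.csur 0 z
  refine ⟨e1, he1, e2, he2, ?_, ?_, ?_, ?_, ?_⟩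
  · refine EH8b_ext h (pow_mem he1 2) (one_mem T) ?_ ?_
    · rw [sq, h.cmul e1 he1 e1 he1, h10, hz, EH8b_c_one h]
    · rw [sq, h.cmul e1 he1 e1 he1, h11, add_zero, EH8b_c_one h]
  · refine EH8b_ext h (pow_mem he2 2) (one_mem T) ?_ ?_
    · rw [sq, h.cmul e2 he2 e2 he2, h20, add_zero, EH8b_c_one h]
    · rw [sq, h.cmul e2 he2 e2 he2, h21, hz, EH8b_c_one h]
  · intro h1
    rw [h1, EH8b_c_one h] at h10
    exact hz0 h10.symm
  · intro h1
    rw [h1, EH8b_c_one h] at h21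
    exact hz0 h21.symm
  · intro h1
    have h2 := h.cmul e1 he1 e2 he2 0
    rw [h1, EH8b_c_one h, h10, h20, add_zero] at h2
    exact hz0 h2.symm

private theorem EH8b_main (h : EH Γ T M m c π ε) {P : ℕ} (hP : P.Prime)
    (hc : Nat.card Γ = P * Nat.card M) (hk : ¬ P ∣ Nat.card M)
    (hd : ∀ a, a ∣ Nat.card M → a % P = 1 → a = 1) : False := by
  have := h.fin
  obtain ⟨R, hRn, hRc⟩ := syl_normal hP hc hk hd
  obtain ⟨e1, he1, e2, he2, h1, h2, n1, n2, n12⟩ := EH8b_inv h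
  have hRM : ∀ e ∈ T, e ≠ 1 → (∀ r ∈ R, r * e = e * r) → False := by
    intro e he hne hr
    apply hk
    rw [← hRc]
    exact Subgroup.card_dvd_of_le fun r hrR => h.cent e he hne r (hr r hrR)
  rcases inv_cent R hP hRc h1 h2 (EH_comm h e1 he1 e2 he2) with h3 | h3 | h3
  · exact hRM e1 he1 n1 h3
  · exact hRM e2 he2 n2 h3
  · exact hRM (e1 * e2) (mul_mem he1 he2) n12 h3

theorem thmE (h : EH Γ T M m c π ε) (x : Γ) : x ∈ M := by
  by_contra hx
  obtain ⟨w, hw, hw12⟩ := EH_mod h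
  have hdvd : Nat.card M ∣ m ^ 2 * 12 := by
    rw [hw]
    exact Nat.mul_dvd_mul_left _ hw12
  rcases EH7 h hx with ⟨hm, hc⟩ | ⟨hm, hc⟩
  · subst hm
    have hdvd' : Nat.card M ∣ 1200 := hdvd
    refine EH8b_main h (P := 101) (by norm_num) hc (fun h1 => ?_) fun a ha h1 => ?_
    · exact absurd (h1.trans hdvd') (by norm_num)
    · have h2 : a ∣ 1200 := ha.trans hdvd'
      have h3 : a ≤ 1200 := Nat.le_of_dvd (by norm_num) h2
      obtain ⟨q, hq⟩ : ∃ q, a = 101 * q + 1 := ⟨a / 101, by omega⟩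
      have h4 : q ≤ 11 := by omega
      subst hq
      interval_cases q <;> first | rfl | (exfalso; revert h2; decide)
  · subst hm
    have hdvd' : Nat.card M ∣ 432 := hdvd
    refine EH8b_main h (P := 73) (by norm_num) hc (fun h1 => ?_) fun a ha h1 => ?_
    · exact absurd (h1.trans hdvd') (by norm_num)
    · have h2 : a ∣ 432 := ha.trans hdvd'
      have h3 : a ≤ 432 := Nat.le_of_dvd (by norm_num) h2
      obtain ⟨q, hq⟩ : ∃ q, a = 73 * q + 1 := ⟨a / 73, by omega⟩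
      have h4 : q ≤ 5 := by omega
      subst hq
      interval_cases q <;> first | rfl | (exfalso; revert h2; decide)

end Pool.Agent.H40.GT
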