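import Mathlib

/-!
# Part EHa (of EHa, EHc, EHd); GT-30 Theorem E (abstract): the hypotheses and first consequences

`Γ` a finite group, `T ≤ M` subgroups, `m = 6` or `10`, `T ≅ {v ∈ (ℤ/m)^3 : sum zero}` through `c`,
`M = N(T)`, `M / T` embeds in `S_3 × {±1}` through `(π, ε)`, acting on `T` through `c`.
`C(t) ≤ M` for `1 ≠ t ∈ T`.  Goal of the project part: `M = Γ` (file EHt).

First consequences:
* `EH_card`: `|T| = m^2`; `T` abelian; `t ^ m = 1`.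
* `EH_inv`: `T` has exactly three involutions (the vectors with entries `m/2, m/2, 0`).
* `EH_TI`: `t ∈ T`, `t ≠ 1`, `x t x⁻¹ ∈ T` implies `x ∈ M`: for `s ∈ T`, `x s x⁻¹` commutes with
  `x t x⁻¹ ≠ 1`, so is in `M` (`cent`), and `cj` applies.
* `EH_refl`: `x ∈ M` with `π x` a transposition of `i, j` commutes with some `u ∈ T`, `u ≠ 1`, `u ^ (m/2) = 1`:
  `ε x = 1`: `c u` has entries `2, 2, -4` at `i, j, k`; `ε x = -1`: entries `2, -2, 0`.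
* `EH_rot`: `x ∈ M`, `π x` of order 3: `x` commutes with no involution of `T`, and permutes the three
  involutions cyclically.
* `EH_neg`: `x ∈ M`, `π x = 1`, `ε x = -1`: `x t x⁻¹ = t⁻¹`.
* `EH_ord3`: `x ∈ M`, `x ^ 3 = 1`, `x ∉ T`: `π x` has order 3 and `ε x = 1`.
* `EH_mod`: the order of `M` is `m^2 * w`, `w ∣ 12`.
-/

namespace Pool.Agent.H40.GT

/-- the hypotheses of Theorem E -/
structure EH (Γ : Type) [Group Γ] (T M : Subgroup Γ) (m : ℕ) (c : Γ → Fin 3 → ZMod m)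
    (π : Γ → Equiv.Perm (Fin 3)) (ε : Γ → ℤˣ) : Prop where
  fin : Finite Γ
  hm : m = 6 ∨ m = 10
  TM : T ≤ M
  cmul : ∀ s ∈ T, ∀ t ∈ T, ∀ i, c (s * t) i = c s i + c t i
  cinj : ∀ s ∈ T, ∀ t ∈ T, c s = c t → s = t
  csum : ∀ t ∈ T, c t 0 + c t 1 + c t 2 = 0
  csur : ∀ a b : ZMod m, ∃ t ∈ T, c t 0 = a ∧ c t 1 = b
  nor : ∀ x, (∀ t ∈ T, x * t * x⁻¹ ∈ T) → x ∈ M
  act : ∀ x ∈ M, ∀ t ∈ T, x * t * x⁻¹ ∈ T ∧ ∀ i, c (x * t * x⁻¹) (π x i) = ((ε x : ℤˣ) : ℤ) • c t i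
  tri : ∀ t ∈ T, π t = 1 ∧ ε t = 1
  pmul : ∀ x ∈ M, ∀ y ∈ M, π (x * y) = π x * π y ∧ ε (x * y) = ε x * ε y
  ker : ∀ x ∈ M, π x = 1 → ε x = 1 → x ∈ T
  cent : ∀ t ∈ T, t ≠ 1 → ∀ x, x * t = t * x → x ∈ M
  cj : ∀ x, (∀ t ∈ T, x * t * x⁻¹ ∈ M) → x ∈ M
  ord : ∀ x ∈ M, π x ≠ 1 → π x ^ 3 = 1 → ε x = 1 → x ^ 3 = 1
  zz : ∀ t ∈ T, t ^ 3 = 1 → c t 0 = c t 1 → c t 1 = c t 2 → ∀ x, x * t * x⁻¹ ∈ M →
    x * t * x⁻¹ ∈ T

variable {Γ : Type} [Group Γ] {T M : Subgroup Γ} {m : ℕ} {c : Γ → Fin 3 → ZMod m}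
  {π : Γ → Equiv.Perm (Fin 3)} {ε : Γ → ℤˣ}

private theorem EHa_c_one (h : EH Γ T M m c π ε) (i : Fin 3) : c 1 i = 0 := by
  have h1 := h.cmul 1 (one_mem T) 1 (one_mem T) i
  rw [mul_one] at h1
  have h2 : c 1 i + 0 = c 1 i + c 1 i := by rw [add_zero]; exact h1
  exact (add_left_cancel h2).symm

private theorem EHa_ext (h : EH Γ T M m c π ε) {s t : Γ} (hs : s ∈ T) (ht : t ∈ T)
    (h0 : c s 0 = c t 0) (h1 : c s 1 = c t 1) : s = t := by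
  refine h.cinj s hs t ht (funext fun i => ?_)
  have e1 := h.csum s hs
  have e2 := h.csum t ht
  have h2 : c s 2 = c t 2 := by
    rw [h0, h1] at e1
    exact add_left_cancel (e1.trans e2.symm)
  fin_cases i
  · exact h0
  · exact h1
  · exact h2

theorem EH_card (h : EH Γ T M m c π ε) : Nat.card T = m ^ 2 := by
  let f : T → ZMod m × ZMod m := fun t => (c t.1 0, c t.1 1)
  have hf : Function.Bijective f := by
    refine ⟨fun s t hst => ?_, fun y => ?_⟩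
    · have h0 : c s.1 0 = c t.1 0 := congrArg Prod.fst hst
      have h1 : c s.1 1 = c t.1 1 := congrArg Prod.snd hst
      exact Subtype.ext (EHa_ext h s.2 t.2 h0 h1)
    · obtain ⟨t, ht, h0, h1⟩ := h.csur y.1 y.2
      exact ⟨⟨t, ht⟩, Prod.ext h0 h1⟩
  rw [Nat.card_congr (Equiv.ofBijective f hf), Nat.card_prod, Nat.card_zmod, sq]

theorem EH_comm (h : EH Γ T M m c π ε) : ∀ s ∈ T, ∀ t ∈ T, s * t = t * s := by
  intro s hs t ht
  refine EHa_ext h (mul_mem hs ht) (mul_mem ht hs) ?_ ?_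
  · rw [h.cmul s hs t ht, h.cmul t ht s hs, add_comm]
  · rw [h.cmul s hs t ht, h.cmul t ht s hs, add_comm]

private theorem EHa_c_pow (h : EH Γ T M m c π ε) {t : Γ} (ht : t ∈ T) (i : Fin 3) (k : ℕ) :
    c (t ^ k) i = (k : ZMod m) * c t i := by
  induction k with
  | zero => rw [pow_zero, EHa_c_one h, Nat.cast_zero, zero_mul]
  | succ k ih =>
    rw [pow_succ, h.cmul _ (pow_mem ht k) t ht, ih, Nat.cast_succ, add_mul, one_mul]

theorem EH_pow (h : EH Γ T M m c π ε) : ∀ t ∈ T, t ^ m = 1 := by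
  intro t ht
  refine EHa_ext h (pow_mem ht m) (one_mem T) ?_ ?_
  · rw [EHa_c_pow h ht, EHa_c_one h, ZMod.natCast_self, zero_mul]
  · rw [EHa_c_pow h ht, EHa_c_one h, ZMod.natCast_self, zero_mul]

end Pool.Agent.H40.GT
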