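import Pool.Agent.H40.GT.EHa

/-!
# Part EHc (of EHa, EHc, EHd); GT-30 Theorem E (abstract): the hypotheses and first consequences

`Γ` a finite group, `T ≤ M` subgroups, `m = 6` or `10`, `T ≅ {v ∈ (ℤ/m)^3 : sum zero}` through `c`,
`M = N(T)`, `M / T` embeds in `S_3 × {±1}` through `(π, ε)`, acting on `T` through `c`.
`C(t) ≤ M` for `1 ≠ t ∈ T`.  Goal of the project part: `M = Γ` (file EHt).

First consequences:
* `EH_card`: `|T| = m^2`; `T` abelian; `t ^ m = 1`.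
* `EH_inv`: `T` has exactly three involutions (the vectors with entries `m/2, m/2, 0`).
* `EH_TI`: `t ∈ T`, `t ≠ 1`, `x t x⁻¹ ∈ T` implies `x ∈ M`: for `s ∈ T`, `x s x⁻¹` commutes with
  `x t x⁻¹ ≠ 1`, so is in `M` (`cent`), and `cj` applies.
* `EH_refl`: `x ∈ M` with `π x` a transposition of `i, j` commutes with some `u ∈ T`, `u ≠ 1`, `u ^ (m/2) = 1`:
  `ε x = 1`: `c u` has entries `2, 2, -4` at `i, j, k`; `ε x = -1`: entries `2, -2, 0`.
* `EH_rot`: `x ∈ M`, `π x` of order 3: `x` commutes with no involution of `T`, and permutes the three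
  involutions cyclically.
* `EH_neg`: `x ∈ M`, `π x = 1`, `ε x = -1`: `x t x⁻¹ = t⁻¹`.
* `EH_ord3`: `x ∈ M`, `x ^ 3 = 1`, `x ∉ T`: `π x` has order 3 and `ε x = 1`.
* `EH_mod`: the order of `M` is `m^2 * w`, `w ∣ 12`.
-/

namespace Pool.Agent.H40.GT

variable {Γ : Type} [Group Γ] {T M : Subgroup Γ} {m : ℕ} {c : Γ → Fin 3 → ZMod m}
  {π : Γ → Equiv.Perm (Fin 3)} {ε : Γ → ℤˣ}

theorem EHc_c_one (h : EH Γ T M m c π ε) (i : Fin 3) : c 1 i = 0 := by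
  have h1 := h.cmul 1 (one_mem T) 1 (one_mem T) i
  rw [mul_one] at h1
  have h2 : c 1 i + 0 = c 1 i + c 1 i := by rw [add_zero]; exact h1
  exact (add_left_cancel h2).symm

theorem EHc_ext (h : EH Γ T M m c π ε) {s t : Γ} (hs : s ∈ T) (ht : t ∈ T)
    (h0 : c s 0 = c t 0) (h1 : c s 1 = c t 1) : s = t := by
  refine h.cinj s hs t ht (funext fun i => ?_)
  have e1 := h.csum s hs
  have e2 := h.csum t ht
  have h2 : c s 2 = c t 2 := by
    rw [h0, h1] at e1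
    exact add_left_cancel (e1.trans e2.symm)
  fin_cases i
  · exact h0
  · exact h1
  · exact h2

theorem EHc_c_pow (h : EH Γ T M m c π ε) {t : Γ} (ht : t ∈ T) (i : Fin 3) (k : ℕ) :
    c (t ^ k) i = (k : ZMod m) * c t i := by
  induction k with
  | zero => rw [pow_zero, EHc_c_one h, Nat.cast_zero, zero_mul]
  | succ k ih =>
    rw [pow_succ, h.cmul _ (pow_mem ht k) t ht, ih, Nat.cast_succ, add_mul, one_mul]

theorem EHc_sur (h : EH Γ T M m c π ε) (v : Fin 3 → ZMod m) (hv : v 0 + v 1 + v 2 = 0) :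
    ∃ t ∈ T, c t = v := by
  obtain ⟨t, ht, h0, h1⟩ := h.csur (v 0) (v 1)
  refine ⟨t, ht, funext fun i => ?_⟩
  have e1 := h.csum t ht
  have h2 : c t 2 = v 2 := by
    rw [h0, h1] at e1
    exact add_left_cancel (e1.trans hv.symm)
  fin_cases i
  · exact h0
  · exact h1
  · exact h2

theorem EH_inv (h : EH Γ T M m c π ε) : {e : Γ | e ∈ T ∧ e ≠ 1 ∧ e ^ 2 = 1}.ncard = 3 := by
  have himg : (fun e => (c e 0, c e 1)) '' {e : Γ | e ∈ T ∧ e ≠ 1 ∧ e ^ 2 = 1} =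
      {p : ZMod m × ZMod m | p ≠ 0 ∧ 2 * p.1 = 0 ∧ 2 * p.2 = 0} := by
    ext ⟨a, b⟩
    constructor
    · rintro ⟨e, ⟨he, he1, he2⟩, hab⟩
      have h0 : c e 0 = a := congrArg Prod.fst hab
      have h1 : c e 1 = b := congrArg Prod.snd hab
      have e0 := EHc_c_pow h he 0 2
      have e1 := EHc_c_pow h he 1 2
      rw [he2, EHc_c_one h, h0] at e0
      rw [he2, EHc_c_one h, h1] at e1
      refine ⟨?_, by rw [e0]; norm_num, by rw [e1]; norm_num⟩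
      intro hz
      apply he1
      refine EHc_ext h he (one_mem T) ?_ ?_
      · rw [h0, EHc_c_one h]; exact congrArg Prod.fst hz
      · rw [h1, EHc_c_one h]; exact congrArg Prod.snd hz
    · rintro ⟨hz, ha, hb⟩
      obtain ⟨e, he, h0, h1⟩ := h.csur a b
      refine ⟨e, ⟨he, ?_, ?_⟩, ?_⟩
      · rintro rfl
        apply hz
        rw [EHc_c_one h] at h0 h1
        exact Prod.ext h0.symm h1.symm
      · refine EHc_ext h (pow_mem he 2) (one_mem T) ?_ ?_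
        · rw [EHc_c_pow h he, EHc_c_one h, h0]; exact_mod_cast ha
        · rw [EHc_c_pow h he, EHc_c_one h, h1]; exact_mod_cast hb
      · exact Prod.ext h0 h1
  have hinj : Set.InjOn (fun e => (c e 0, c e 1)) {e : Γ | e ∈ T ∧ e ≠ 1 ∧ e ^ 2 = 1} := by
    intro e he f hf hef
    exact EHc_ext h he.1 hf.1 (congrArg Prod.fst hef) (congrArg Prod.snd hef)
  rw [← Set.ncard_image_of_injOn hinj, himg]
  rcases h.hm with rfl | rfl
  · have : {p : ZMod 6 × ZMod 6 | p ≠ 0 ∧ 2 * p.1 = 0 ∧ 2 * p.2 = 0} =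
        ({(0, 3), (3, 0), (3, 3)} : Finset (ZMod 6 × ZMod 6)) := by
      ext p
      revert p
      simp only [Set.mem_ofPred_eq, Finset.mem_coe]
      decide
    rw [this, Set.ncard_coe_finset]
    rfl
  · have : {p : ZMod 10 × ZMod 10 | p ≠ 0 ∧ 2 * p.1 = 0 ∧ 2 * p.2 = 0} =
        ({(0, 5), (5, 0), (5, 5)} : Finset (ZMod 10 × ZMod 10)) := by
      ext p
      revert p
      simp only [Set.mem_ofPred_eq, Finset.mem_coe]
      decide
    rw [this, Set.ncard_coe_finset]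
    rfl

theorem EH_TI (h : EH Γ T M m c π ε) {t x : Γ} (ht : t ∈ T) (h1 : t ≠ 1)
    (hx : x * t * x⁻¹ ∈ T) : x ∈ M := by
  refine h.cj x fun s hs => ?_
  refine h.cent _ hx ?_ _ ?_
  · intro hh
    apply h1
    have : t = x⁻¹ * (x * t * x⁻¹) * x := by group
    rw [this, hh]; group
  · calc x * s * x⁻¹ * (x * t * x⁻¹) = x * (s * t) * x⁻¹ := by group
      _ = x * (t * s) * x⁻¹ := by rw [EH_comm h s hs t ht]
      _ = x * t * x⁻¹ * (x * s * x⁻¹) := by group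

/-- the vector for `EH_refl` -/
def EHc_v (m : ℕ) (σ : Equiv.Perm (Fin 3)) (e : ℤˣ) (l : Fin 3) : ZMod m :=
  if e = 1 then (if σ l = l then -4 else 2) else (if σ l = l then 0 else if l < σ l then 2 else -2)

theorem EHc_v6 : ∀ σ : Equiv.Perm (Fin 3), σ ≠ 1 → σ ^ 2 = 1 → ∀ e : ℤˣ,
    EHc_v 6 σ e 0 + EHc_v 6 σ e 1 + EHc_v 6 σ e 2 = 0 ∧ EHc_v 6 σ e ≠ 0 ∧
    (∀ l, 3 * EHc_v 6 σ e l = 0) ∧ ∀ l, EHc_v 6 σ e (σ l) = (e : ℤ) • EHc_v 6 σ e l := by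
  decide

theorem EHc_v10 : ∀ σ : Equiv.Perm (Fin 3), σ ≠ 1 → σ ^ 2 = 1 → ∀ e : ℤˣ,
    EHc_v 10 σ e 0 + EHc_v 10 σ e 1 + EHc_v 10 σ e 2 = 0 ∧ EHc_v 10 σ e ≠ 0 ∧
    (∀ l, 5 * EHc_v 10 σ e l = 0) ∧ ∀ l, EHc_v 10 σ e (σ l) = (e : ℤ) • EHc_v 10 σ e l := by
  decide

theorem EH_refl (h : EH Γ T M m c π ε) {x : Γ} (hx : x ∈ M) (h1 : π x ≠ 1)
    (h2 : π x ^ 2 = 1) : ∃ u ∈ T, u ≠ 1 ∧ u ^ (m / 2) = 1 ∧ x * u = u * x := by
  have key : ∃ v : Fin 3 → ZMod m, v 0 + v 1 + v 2 = 0 ∧ v ≠ 0 ∧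
      (∀ l, ((m / 2 : ℕ) : ZMod m) * v l = 0) ∧ ∀ l, v (π x l) = ((ε x : ℤˣ) : ℤ) • v l := by
    rcases h.hm with rfl | rfl
    · exact ⟨_, EHc_v6 _ h1 h2 (ε x)⟩
    · exact ⟨_, EHc_v10 _ h1 h2 (ε x)⟩
  obtain ⟨v, v1, v2, v3, v4⟩ := key
  obtain ⟨u, hu, hcu⟩ := EHc_sur h v v1
  refine ⟨u, hu, ?_, ?_, ?_⟩
  · rintro rfl
    apply v2
    rw [← hcu]
    funext l
    exact EHc_c_one h l
  · refine h.cinj _ (pow_mem hu _) _ (one_mem T) (funext fun l => ?_)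
    rw [EHc_c_pow h hu, EHc_c_one h, hcu, v3]
  · obtain ⟨a1, a2⟩ := h.act _ hx u hu
    have a3 : x * u * x⁻¹ = u := by
      refine h.cinj _ a1 _ hu (funext fun i => ?_)
      have a4 := a2 ((π x).symm i)
      have a5 := v4 ((π x).symm i)
      rw [Equiv.apply_symm_apply] at a4 a5
      rw [a4, hcu, a5]
    rwa [mul_inv_eq_iff_eq_mul] at a3

end Pool.Agent.H40.GT
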