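import Pool.Agent.H40.GT.EHc

/-!
# Part EHd (of EHa, EHc, EHd); GT-30 Theorem E (abstract): the hypotheses and first consequences

`Γ` a finite group, `T ≤ M` subgroups, `m = 6` or `10`, `T ≅ {v ∈ (ℤ/m)^3 : sum zero}` through `c`,
`M = N(T)`, `M / T` embeds in `S_3 × {±1}` through `(π, ε)`, acting on `T` through `c`.
`C(t) ≤ M` for `1 ≠ t ∈ T`.  Goal of the project part: `M = Γ` (file EHt).

First consequences:
* `EH_card`: `|T| = m^2`; `T` abelian; `t ^ m = 1`.
* `EH_inv`: `T` has exactly three involutions (the vectors with entries `m/2, m/2, 0`).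
* `EH_TI`: `t ∈ T`, `t ≠ 1`, `x t x⁻¹ ∈ T` implies `x ∈ M`: for `s ∈ T`, `x s x⁻¹` commutes with
  `x t x⁻¹ ≠ 1`, so is in `M` (`cent`), and `cj` applies.
* `EH_refl`: `x ∈ M` with `π x` a transposition of `i, j` commutes with some `u ∈ T`, `u ≠ 1`, `u ^ (m/2) = 1`:
  `ε x = 1`: `c u` has entries `2, 2, -4` at `i, j, k`; `ε x = -1`: entries `2, -2, 0`.
* `EH_rot`: `x ∈ M`, `π x` of order 3: `x` commutes with no involution of `T`, and permutes the three
  involutions cyclically.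
* `EH_neg`: `x ∈ M`, `π x = 1`, `ε x = -1`: `x t x⁻¹ = t⁻¹`.
* `EH_ord3`: `x ∈ M`, `x ^ 3 = 1`, `x ∉ T`: `π x` has order 3 and `ε x = 1`.
* `EH_mod`: the order of `M` is `m^2 * w`, `w ∣ 12`.
-/

namespace Pool.Agent.H40.GT

variable {Γ : Type} [Group Γ] {T M : Subgroup Γ} {m : ℕ} {c : Γ → Fin 3 → ZMod m}
  {π : Γ → Equiv.Perm (Fin 3)} {ε : Γ → ℤˣ}

theorem EHd_one (h : EH Γ T M m c π ε) (i : Fin 3) : c 1 i = 0 := by
  have := h.cmul 1 (one_mem T) 1 (one_mem T) i
  rw [mul_one] at this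
  exact left_eq_add.1 this

theorem EHd_cinv (h : EH Γ T M m c π ε) {t : Γ} (ht : t ∈ T) (i : Fin 3) : c t⁻¹ i = - c t i := by
  have := h.cmul t⁻¹ (inv_mem ht) t ht i
  rw [inv_mul_cancel, EHd_one h] at this
  exact eq_neg_of_add_eq_zero_left this.symm

theorem EHd_inv (h : EH Γ T M m c π ε) {x : Γ} (hx : x ∈ M) :
    π x⁻¹ = (π x)⁻¹ ∧ ε x⁻¹ = (ε x)⁻¹ := by
  have h1 := h.tri 1 (one_mem T)
  have h2 := h.pmul x hx x⁻¹ (inv_mem hx)
  rw [mul_inv_cancel, h1.1, h1.2] at h2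
  exact ⟨(inv_eq_of_mul_eq_one_right h2.1.symm).symm, (inv_eq_of_mul_eq_one_right h2.2.symm).symm⟩

theorem EHd_pow (h : EH Γ T M m c π ε) {x : Γ} (hx : x ∈ M) (n : ℕ) :
    π (x ^ n) = π x ^ n ∧ ε (x ^ n) = ε x ^ n := by
  induction n with
  | zero =>
    rw [pow_zero, pow_zero, pow_zero]
    exact h.tri 1 (one_mem T)
  | succ n ih =>
    have := h.pmul (x ^ n) (pow_mem hx n) x hx
    rw [pow_succ, pow_succ, pow_succ, this.1, this.2, ih.1, ih.2]
    exact ⟨rfl, rfl⟩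

theorem EHd_cyc : ∀ b : Equiv.Perm (Fin 3), b ≠ 1 → b ^ 3 = 1 → ∀ i : Fin 3,
    i ≠ b i ∧ i ≠ b⁻¹ i ∧ b i ≠ b⁻¹ i := by
  decide

theorem EHd_sum {A : Type} [AddCommMonoid A] (f : Fin 3 → A) : ∀ i j k : Fin 3, i ≠ j → i ≠ k →
    j ≠ k → f i + f j + f k = f 0 + f 1 + f 2 := by
  intro i j k h1 h2 h3
  have e1 : ∑ l ∈ ({i, j, k} : Finset (Fin 3)), f l = f i + f j + f k := by
    rw [Finset.sum_insert, Finset.sum_insert, Finset.sum_singleton, add_assoc]
    · simpa using h3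
    · simp [h1, h2]
  have e2 : ({i, j, k} : Finset (Fin 3)) = Finset.univ := by
    apply Finset.eq_univ_of_card
    rw [Finset.card_insert_of_notMem, Finset.card_insert_of_notMem, Finset.card_singleton]
    · rfl
    · simpa using h3
    · simp [h1, h2]
  rw [← e1, e2, Fin.sum_univ_three]

theorem EHd_two (h : EH Γ T M m c π ε) {e : Γ} (he : e ∈ T) (he2 : e ^ 2 = 1) (i : Fin 3) :
    c e i + c e i = 0 := by
  rw [← h.cmul e he e he i, ← pow_two, he2, EHd_one h]

theorem EHd_act (h : EH Γ T M m c π ε) {e x : Γ} (he : e ∈ T) (he2 : e ^ 2 = 1) (hx : x ∈ M)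
    (i : Fin 3) : c (x * e * x⁻¹) i = c e ((π x)⁻¹ i) := by
  have e1 := (h.act x hx e he).2 ((π x)⁻¹ i)
  have q0 : (π x) ((π x)⁻¹ i) = i := (π x).apply_symm_apply i
  rw [q0] at e1
  rw [e1]
  rcases Int.units_eq_one_or (ε x) with q | q
  · rw [q, Units.val_one, one_smul]
  · rw [q, Units.val_neg, Units.val_one, neg_smul, one_smul]
    exact neg_eq_of_add_eq_zero_left (EHd_two h he he2 _)

theorem EH_rot (h : EH Γ T M m c π ε) {x : Γ} (hx : x ∈ M) (h1 : π x ≠ 1) (h3 : π x ^ 3 = 1)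
    {e : Γ} (he : e ∈ T) (he1 : e ≠ 1) (he2 : e ^ 2 = 1) :
    x * e * x⁻¹ ≠ e ∧ x * e * x⁻¹ * e = x⁻¹ * e * x := by
  have hsum : ∀ i, c e i + c e (π x i) + c e ((π x)⁻¹ i) = 0 := by
    intro i
    obtain ⟨q1, q2, q3⟩ := EHd_cyc (π x) h1 h3 i
    rw [EHd_sum (c e) i _ _ q1 q2 q3]
    exact h.csum e he
  have ha := fun i => EHd_act h he he2 hx i
  have hb : ∀ i, c (x⁻¹ * e * x) i = c e (π x i) := by
    intro i
    have := EHd_act h he he2 (inv_mem hx) i
    rw [inv_inv, (EHd_inv h hx).1, inv_inv] at this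
    exact this
  have hT1 := (h.act x hx e he).1
  have hT2 : x⁻¹ * e * x ∈ T := by
    have := (h.act x⁻¹ (inv_mem hx) e he).1
    rwa [inv_inv] at this
  constructor
  · intro q
    apply he1
    apply h.cinj e he 1 (one_mem T)
    funext i
    rw [EHd_one h]
    have g1 : ∀ i, c e i = c e ((π x)⁻¹ i) := by
      intro i
      rw [← ha i, q]
    have g2 : c e (π x i) = c e i := by
      have q0 : (π x)⁻¹ (π x i) = i := (π x).symm_apply_apply i
      rw [g1 (π x i), q0]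
    have g3 := hsum i
    rw [g2, ← g1 i, EHd_two h he he2, zero_add] at g3
    exact g3
  · apply h.cinj _ (mul_mem hT1 he) _ hT2
    funext i
    rw [h.cmul _ hT1 _ he, ha, hb]
    have g1 := hsum i
    have g2 := EHd_two h he he2 (π x i)
    have g3 : c e ((π x)⁻¹ i) + c e i = c e i + c e (π x i) + c e ((π x)⁻¹ i) - c e (π x i) := by
      abel
    rw [g3, g1, zero_sub]
    exact neg_eq_of_add_eq_zero_left g2

theorem EH_neg (h : EH Γ T M m c π ε) {x : Γ} (hx : x ∈ M) (h1 : π x = 1) (h2 : ε x = -1)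
    {t : Γ} (ht : t ∈ T) : x * t * x⁻¹ = t⁻¹ := by
  have ha := h.act x hx t ht
  apply h.cinj _ ha.1 _ (inv_mem ht)
  funext i
  have := ha.2 i
  rw [h1, h2, Equiv.Perm.one_apply, Units.val_neg, Units.val_one, neg_smul, one_smul] at this
  rw [this, EHd_cinv h ht]

theorem EH_ord3 (h : EH Γ T M m c π ε) {x : Γ} (hx : x ∈ M) (h3 : x ^ 3 = 1) (hT : x ∉ T) :
    π x ≠ 1 ∧ π x ^ 3 = 1 ∧ ε x = 1 := by
  have h0 := h.tri 1 (one_mem T)
  have hp := EHd_pow h hx 3
  rw [h3, h0.1, h0.2] at hp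
  have he : ε x = 1 := by
    rcases Int.units_eq_one_or (ε x) with q | q
    · exact q
    · exfalso
      have q2 := hp.2
      rw [q] at q2
      revert q2
      decide
  refine ⟨?_, hp.1.symm, he⟩
  intro q
  exact hT (h.ker x hx q he)

theorem EH_mod (h : EH Γ T M m c π ε) : ∃ w, Nat.card M = m ^ 2 * w ∧ w ∣ 12 := by
  let f : M →* Equiv.Perm (Fin 3) × ℤˣ :=
    { toFun := fun x => (π x, ε x)
      map_one' := by
        have h0 := h.tri 1 (one_mem T)
        show (π (1 : Γ), ε (1 : Γ)) = 1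
        rw [h0.1, h0.2]
        rfl
      map_mul' := by
        intro x y
        have h1 := h.pmul x x.2 y y.2
        show (π ((x : Γ) * y), ε ((x : Γ) * y)) = _
        rw [h1.1, h1.2]
        rfl }
  have hker : f.ker = T.subgroupOf M := by
    ext x
    rw [MonoidHom.mem_ker, Subgroup.mem_subgroupOf]
    constructor
    · intro q
      have q1 : (π (x : Γ), ε (x : Γ)) = ((1 : Equiv.Perm (Fin 3)), (1 : ℤˣ)) := q
      rw [Prod.mk.injEq] at q1
      exact h.ker x x.2 q1.1 q1.2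
    · intro q
      have h0 := h.tri x q
      show (π (x : Γ), ε (x : Γ)) = 1
      rw [h0.1, h0.2]
      rfl
  refine ⟨Nat.card f.range, ?_, ?_⟩
  · have e1 := Subgroup.card_eq_card_quotient_mul_card_subgroup f.ker
    rw [Nat.card_congr (QuotientGroup.quotientKerEquivRange f).toEquiv] at e1
    rw [e1, hker, Nat.card_congr (Subgroup.subgroupOfEquivOfLe h.TM).toEquiv, EH_card h, mul_comm]
  · have e2 := Subgroup.card_subgroup_dvd_card f.range
    have e3 : Nat.card (Equiv.Perm (Fin 3) × ℤˣ) = 12 := by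
      rw [Nat.card_prod, Nat.card_eq_fintype_card, Nat.card_eq_fintype_card, Fintype.card_perm,
        Fintype.card_units_int, Fintype.card_fin]
      rfl
    rw [e3] at e2
    exact e2

end Pool.Agent.H40.GT
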