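import Pool.Agent.H40.GT.Prm

/-!
# Part FiA (of FiA, FiB, FiC); GT-09 gradings, parabolic subgroups, Levi decomposition

`dg d j = d.1 * (wt j).1 + d.2 * (wt j).2` is the degree of the coordinate `j`.
`PD d` = elements of `GG` which do not lower degrees (with their inverses), `QD d` = those which
are the identity modulo higher degrees, `Dg d` = those which preserve degrees.

`Fil_dec`: for `g ∈ PD d` let `l` be the degree preserving part:
`(l x) i = ∑ j, if dg d i = dg d j then g (ev j) i * x j else 0`.  Since `g` and `g⁻¹` do not lower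
degrees, the degree preserving part is multiplicative on `PD d`, so `l` is invertible (inverse =
the degree preserving part of `g⁻¹`).  `l ∈ GG`: `br` and `bf` are homogeneous
(`br (ev i) (ev j)` is supported at coordinates of weight `wt i + wt j`, `bf (ev i) (ev j) = 0` unless
`wt i + wt j = 0`): compare the components of degree `dg i + dg j` of
`g (br e_i e_j) = br (g e_i) (g e_j)` (all terms have degree at least that), and use
bilinearity; same for `bf`.  `u = g * l⁻¹ ∈ QD d`.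

`Fil_hd`: `tor (c ^ d.1, c ^ d.2)` acts on `ev j` as `c ^ dg d j`.
`Fil_cent`: if `g ∈ GG` commutes with `hd d c` for a `c` such that `c ^ (dg d i - dg d j) = 1` only
if `dg d i = dg d j`, then `g ∈ Dg d`.
`QD_p`: an element `u` of `QD d` has `(u - 1)^7 = 0`, so `u ^ (p^k) = 1 + (u-1)^(p^k) = 1` for
`p ^ k ≥ 7` in characteristic `p` (`p = 7` or `11`: `u ^ p = 1`).
-/

namespace Pool.Agent.H40.GT

variable {K : Type} [Field K]

/-- the degree of a coordinate -/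
def dg (d : ℤ × ℤ) (j : Fin 7) : ℤ := d.1 * (wt j).1 + d.2 * (wt j).2

/-- the degree of a root -/
def dr (d : ℤ × ℤ) (r : Rt) : ℤ := d.1 * (rt r).1 + d.2 * (rt r).2

theorem FiA_mul (g h : EE K) (i j : Fin 7) :
    (g * h) (ev j) i = ∑ k, h (ev j) k * g (ev k) i := by
  rw [LinearEquiv.mul_apply]
  conv_lhs => rw [V_sum (h (ev j)), map_sum]
  rw [Finset.sum_apply]
  refine Finset.sum_congr rfl fun k _ => ?_
  rw [map_smul, Pi.smul_apply, smul_eq_mul]

theorem FiA_one (i j : Fin 7) : (1 : EE K) (ev j) i = (ev j : V K) i := rfl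

theorem FiA_PD {d : ℤ × ℤ} {g h : EE K} (hg : ∀ i j, dg d i < dg d j → g (ev j) i = 0)
    (hh : ∀ i j, dg d i < dg d j → h (ev j) i = 0) (i j : Fin 7) (hij : dg d i < dg d j) :
    (g * h) (ev j) i = 0 := by
  rw [FiA_mul]
  refine Finset.sum_eq_zero fun k _ => ?_
  by_cases hk : dg d k < dg d j
  · rw [hh k j hk, zero_mul]
  · rw [hg i k (lt_of_lt_of_le hij (not_lt.1 hk)), mul_zero]

theorem FiA_Dg {d : ℤ × ℤ} {g h : EE K} (hg : ∀ i j, dg d i ≠ dg d j → g (ev j) i = 0)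
    (hh : ∀ i j, dg d i ≠ dg d j → h (ev j) i = 0) (i j : Fin 7) (hij : dg d i ≠ dg d j) :
    (g * h) (ev j) i = 0 := by
  rw [FiA_mul]
  refine Finset.sum_eq_zero fun k _ => ?_
  by_cases hk : dg d k = dg d j
  · rw [hg i k (by rw [hk]; exact hij), mul_zero]
  · rw [hh k j hk, zero_mul]

theorem FiA_QD {d : ℤ × ℤ} {g h : EE K}
    (hg : ∀ i j, dg d i ≤ dg d j → g (ev j) i = (ev j : V K) i)
    (hh : ∀ i j, dg d i ≤ dg d j → h (ev j) i = (ev j : V K) i) (i j : Fin 7)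
    (hij : dg d i ≤ dg d j) : (g * h) (ev j) i = (ev j : V K) i := by
  rw [FiA_mul, Finset.sum_eq_single j]
  · rw [hh j j le_rfl, ev_same, one_mul, hg i j hij]
  · intro k _ hk
    by_cases hkj : dg d k ≤ dg d j
    · rw [hh k j hkj, ev_ne hk, zero_mul]
    · have h1 : dg d i < dg d k := lt_of_le_of_lt hij (not_le.1 hkj)
      rw [hg i k h1.le, ev_ne (fun h2 => h1.ne (by rw [h2])), mul_zero]
  · intro h1
    exact absurd (Finset.mem_univ j) h1

/-- the parabolic subgroup of a grading -/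
def PD (K : Type) [Field K] (d : ℤ × ℤ) : Subgroup (EE K) where
  carrier := {g | g ∈ GG K ∧ (∀ i j, dg d i < dg d j → g (ev j) i = 0) ∧
    ∀ i j, dg d i < dg d j → g⁻¹ (ev j) i = 0}
  one_mem' := by
    refine ⟨one_mem _, fun i j h => ?_, fun i j h => ?_⟩
    · rw [FiA_one]
      exact ev_ne fun h2 => h.ne (by rw [h2])
    · rw [inv_one, FiA_one]
      exact ev_ne fun h2 => h.ne (by rw [h2])
  mul_mem' := by
    rintro a b ⟨h1, h2, h3⟩ ⟨h4, h5, h6⟩
    refine ⟨mul_mem h1 h4, FiA_PD h2 h5, ?_⟩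
    rw [mul_inv_rev]
    exact FiA_PD h6 h3
  inv_mem' := by
    rintro a ⟨h1, h2, h3⟩
    exact ⟨inv_mem h1, h3, by rw [inv_inv]; exact h2⟩

/-- the Levi subgroup -/
def Dg (K : Type) [Field K] (d : ℤ × ℤ) : Subgroup (EE K) where
  carrier := {g | g ∈ GG K ∧ (∀ i j, dg d i ≠ dg d j → g (ev j) i = 0) ∧
    ∀ i j, dg d i ≠ dg d j → g⁻¹ (ev j) i = 0}
  one_mem' := by
    refine ⟨one_mem _, fun i j h => ?_, fun i j h => ?_⟩
    · rw [FiA_one]
      exact ev_ne fun h2 => h (by rw [h2])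
    · rw [inv_one, FiA_one]
      exact ev_ne fun h2 => h (by rw [h2])
  mul_mem' := by
    rintro a b ⟨h1, h2, h3⟩ ⟨h4, h5, h6⟩
    refine ⟨mul_mem h1 h4, FiA_Dg h2 h5, ?_⟩
    rw [mul_inv_rev]
    exact FiA_Dg h6 h3
  inv_mem' := by
    rintro a ⟨h1, h2, h3⟩
    exact ⟨inv_mem h1, h3, by rw [inv_inv]; exact h2⟩

/-- the unipotent radical -/
def QD (K : Type) [Field K] (d : ℤ × ℤ) : Subgroup (EE K) where
  carrier := {g | g ∈ PD K d ∧ (∀ i j, dg d i ≤ dg d j → g (ev j) i = (ev j : V K) i) ∧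
    ∀ i j, dg d i ≤ dg d j → g⁻¹ (ev j) i = (ev j : V K) i}
  one_mem' := by
    refine ⟨one_mem _, fun i j _ => FiA_one i j, fun i j _ => ?_⟩
    rw [inv_one, FiA_one]
  mul_mem' := by
    rintro a b ⟨h1, h2, h3⟩ ⟨h4, h5, h6⟩
    refine ⟨mul_mem h1 h4, FiA_QD h2 h5, ?_⟩
    rw [mul_inv_rev]
    exact FiA_QD h6 h3
  inv_mem' := by
    rintro a ⟨h1, h2, h3⟩
    exact ⟨inv_mem h1, h3, by rw [inv_inv]; exact h2⟩

theorem mem_PD {d : ℤ × ℤ} {g : EE K} : g ∈ PD K d ↔ g ∈ GG K ∧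
    (∀ i j, dg d i < dg d j → g (ev j) i = 0) ∧
    ∀ i j, dg d i < dg d j → g⁻¹ (ev j) i = 0 := Iff.rfl

theorem mem_Dg {d : ℤ × ℤ} {g : EE K} : g ∈ Dg K d ↔ g ∈ GG K ∧
    (∀ i j, dg d i ≠ dg d j → g (ev j) i = 0) ∧
    ∀ i j, dg d i ≠ dg d j → g⁻¹ (ev j) i = 0 := Iff.rfl

theorem mem_QD {d : ℤ × ℤ} {g : EE K} : g ∈ QD K d ↔ g ∈ PD K d ∧
    (∀ i j, dg d i ≤ dg d j → g (ev j) i = (ev j : V K) i) ∧
    ∀ i j, dg d i ≤ dg d j → g⁻¹ (ev j) i = (ev j : V K) i := Iff.rfl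

theorem Dg_le_PD (d : ℤ × ℤ) : Dg K d ≤ PD K d :=
  fun _ h => ⟨h.1, fun i j hij => h.2.1 i j hij.ne, fun i j hij => h.2.2 i j hij.ne⟩

theorem QD_le_PD (d : ℤ × ℤ) : QD K d ≤ PD K d := fun _ h => h.1

theorem TT_le_Dg (d : ℤ × ℤ) : TT K ≤ Dg K d := by
  rintro g ⟨t, rfl⟩
  have key : ∀ (t : Kˣ × Kˣ) (i j : Fin 7), dg d i ≠ dg d j → tor t (ev j : V K) i = 0 := by
    intro t i j h
    rw [tor_apply, ev_ne (fun h2 => h (by rw [h2])), mul_zero]
  refine ⟨tor_mem_GG t, key t, ?_⟩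
  have h1 : (tor t : EE K)⁻¹ = tor t⁻¹ := (map_inv tor t).symm
  rw [h1]
  exact key t⁻¹

end Pool.Agent.H40.GT
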