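import Pool.Agent.H40.GT.FiA

/-!
# Part FiB (of FiA, FiB, FiC); GT-09 gradings, parabolic subgroups, Levi decomposition

`dg d j = d.1 * (wt j).1 + d.2 * (wt j).2` is the degree of the coordinate `j`.
`PD d` = elements of `GG` which do not lower degrees (with their inverses), `QD d` = those which
are the identity modulo higher degrees, `Dg d` = those which preserve degrees.

`Fil_dec`: for `g ∈ PD d` let `l` be the degree preserving part:
`(l x) i = ∑ j, if dg d i = dg d j then g (ev j) i * x j else 0`.  Since `g` and `g⁻¹` do not lower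
degrees, the degree preserving part is multiplicative on `PD d`, so `l` is invertible (inverse =
the degree preserving part of `g⁻¹`).  `l ∈ GG`: `br` and `bf` are homogeneous
(`br (ev i) (ev j)` is supported at coordinates of weight `wt i + wt j`, `bf (ev i) (ev j) = 0` unless
`wt i + wt j = 0`): compare the components of degree `dg i + dg j` of
`g (br e_i e_j) = br (g e_i) (g e_j)` (all terms have degree at least that), and use
bilinearity; same for `bf`.  `u = g * l⁻¹ ∈ QD d`.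

`Fil_hd`: `tor (c ^ d.1, c ^ d.2)` acts on `ev j` as `c ^ dg d j`.
`Fil_cent`: if `g ∈ GG` commutes with `hd d c` for a `c` such that `c ^ (dg d i - dg d j) = 1` only
if `dg d i = dg d j`, then `g ∈ Dg d`.
`QD_p`: an element `u` of `QD d` has `(u - 1)^7 = 0`, so `u ^ (p^k) = 1 + (u-1)^(p^k) = 1` for
`p ^ k ≥ 7` in characteristic `p` (`p = 7` or `11`: `u ^ p = 1`).
-/

namespace Pool.Agent.H40.GT

variable {K : Type} [Field K]

/-- coordinates of an image -/
theorem FiB_apply (g : V K →ₗ[K] V K) (x : V K) (i : Fin 7) : g x i = ∑ j, x j * g (ev j) i := by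
  have h : g x = ∑ j, x j • g (ev j) := by
    conv_lhs => rw [V_sum x]
    rw [map_sum]
    exact Finset.sum_congr rfl fun j _ => map_smul _ _ _
  rw [h, Finset.sum_apply]
  rfl

theorem FiB_apply' (g : EE K) (x : V K) (i : Fin 7) : g x i = ∑ j, x j * g (ev j) i :=
  FiB_apply (g : V K →ₗ[K] V K) x i

/-- the filtration -/
def FiB_F (K : Type) [Field K] (d : ℤ × ℤ) (k : ℤ) : Submodule K (V K) where
  carrier := {x | ∀ i, dg d i < k → x i = 0}
  zero_mem' := fun i _ => rfl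
  add_mem' := by
    intro a b ha hb i hi
    rw [Pi.add_apply, ha i hi, hb i hi, add_zero]
  smul_mem' := by
    intro c a ha i hi
    rw [Pi.smul_apply, ha i hi, smul_zero]

/-- the homogeneous components -/
def FiB_W (K : Type) [Field K] (d : ℤ × ℤ) (k : ℤ) : Submodule K (V K) where
  carrier := {x | ∀ i, dg d i ≠ k → x i = 0}
  zero_mem' := fun i _ => rfl
  add_mem' := by
    intro a b ha hb i hi
    rw [Pi.add_apply, ha i hi, hb i hi, add_zero]
  smul_mem' := by
    intro c a ha i hi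
    rw [Pi.smul_apply, ha i hi, smul_zero]

theorem FiB_ev_W (d : ℤ × ℤ) (j : Fin 7) : (ev j : V K) ∈ FiB_W K d (dg d j) := by
  intro i hi
  apply ev_ne
  intro h
  exact hi (by rw [h])

theorem FiB_W_le (d : ℤ × ℤ) (k : ℤ) {x : V K} (hx : x ∈ FiB_W K d k) : x ∈ FiB_F K d k :=
  fun i hi => hx i (ne_of_lt hi)

theorem FiB_ev_F (d : ℤ × ℤ) (j : Fin 7) : (ev j : V K) ∈ FiB_F K d (dg d j) :=
  FiB_W_le d _ (FiB_ev_W d j)

theorem FiB_stab {g : EE K} {W : Submodule K (V K)} (h : ∀ x ∈ W, g x ∈ W) {x : V K}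
    (hx : x ∈ W) : g⁻¹ x ∈ W := by
  have h1 : W.map (g : V K →ₗ[K] V K) ≤ W := by
    rintro _ ⟨y, hy, rfl⟩
    exact h y hy
  have h2 : W.map (g : V K →ₗ[K] V K) = W :=
    Submodule.eq_of_le_of_finrank_eq h1 (LinearEquiv.finrank_map_eq g W)
  rw [← h2] at hx
  obtain ⟨y, hy, rfl⟩ := hx
  have h3 : g⁻¹ ((g : V K →ₗ[K] V K) y) = y := g.symm_apply_apply y
  rw [h3]
  exact hy

theorem FiB_F_stab {d : ℤ × ℤ} {g : EE K} (h : ∀ i j, dg d i < dg d j → g (ev j) i = 0) {k : ℤ}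
    {x : V K} (hx : x ∈ FiB_F K d k) : g x ∈ FiB_F K d k := by
  intro i hi
  rw [FiB_apply']
  refine Finset.sum_eq_zero fun j _ => ?_
  rcases lt_or_ge (dg d j) k with h1 | h1
  · rw [hx j h1, zero_mul]
  · rw [h i j (lt_of_lt_of_le hi h1), mul_zero]

theorem FiB_W_stab {d : ℤ × ℤ} {g : EE K} (h : ∀ i j, dg d i ≠ dg d j → g (ev j) i = 0) {k : ℤ}
    {x : V K} (hx : x ∈ FiB_W K d k) : g x ∈ FiB_W K d k := by
  intro i hi
  rw [FiB_apply']
  refine Finset.sum_eq_zero fun j _ => ?_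
  by_cases h1 : dg d j = k
  · rw [h i j (by rw [h1]; exact hi), mul_zero]
  · rw [hx j h1, zero_mul]

/-- only the one-sided condition is needed (the group `GG` is not used finite here: an invertible
block triangular matrix has a block triangular inverse) -/
theorem PD_of {d : ℤ × ℤ} {g : EE K} (hg : g ∈ GG K)
    (h : ∀ i j, dg d i < dg d j → g (ev j) i = 0) : g ∈ PD K d := by
  rw [mem_PD]
  refine ⟨hg, h, fun i j hij => ?_⟩
  exact FiB_stab (fun x hx => FiB_F_stab h hx) (FiB_ev_F d j) i hij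

theorem Dg_of {d : ℤ × ℤ} {g : EE K} (hg : g ∈ GG K)
    (h : ∀ i j, dg d i ≠ dg d j → g (ev j) i = 0) : g ∈ Dg K d := by
  rw [mem_Dg]
  refine ⟨hg, h, fun i j hij => ?_⟩
  exact FiB_stab (fun x hx => FiB_W_stab h hx) (FiB_ev_W d j) i hij

/-- `g - 1` raises the degree -/
theorem FiB_sub {d : ℤ × ℤ} {g : EE K}
    (h : ∀ i j, dg d i ≤ dg d j → g (ev j) i = (ev j : V K) i) {k : ℤ} {x : V K}
    (hx : x ∈ FiB_F K d k) : g x - x ∈ FiB_F K d (k + 1) := by
  intro i hi
  rw [Pi.sub_apply, sub_eq_zero, FiB_apply']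
  have h2 : x i = ∑ j, x j * (ev j : V K) i := by
    have := FiB_apply (LinearMap.id : V K →ₗ[K] V K) x i
    simpa using this
  rw [h2]
  refine Finset.sum_congr rfl fun j _ => ?_
  rcases lt_or_ge (dg d j) k with h1 | h1
  · rw [hx j h1, zero_mul, zero_mul]
  · rw [h i j (by omega)]

theorem FiB_lt {d : ℤ × ℤ} {g : EE K}
    (h : ∀ i j, dg d i ≤ dg d j → g (ev j) i = (ev j : V K) i) :
    ∀ i j, dg d i < dg d j → g (ev j) i = 0 := by
  intro i j hij
  rw [h i j hij.le]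
  apply ev_ne
  intro h1
  rw [h1] at hij
  exact lt_irrefl _ hij

theorem QD_of {d : ℤ × ℤ} {g : EE K} (hg : g ∈ GG K)
    (h : ∀ i j, dg d i ≤ dg d j → g (ev j) i = (ev j : V K) i) : g ∈ QD K d := by
  rw [mem_QD]
  refine ⟨PD_of hg (FiB_lt h), h, fun i j hij => ?_⟩
  have h1 := FiB_sub h (FiB_ev_F (K := K) d j)
  have h2 := FiB_stab (g := g) (fun x hx => FiB_F_stab (FiB_lt h) hx) h1
  have h3 : g⁻¹ (g (ev j) - ev j) = ev j - g⁻¹ (ev j) := by
    have h4 : g⁻¹ (g (ev j)) = ev j := g.symm_apply_apply _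
    rw [map_sub, h4]
  rw [h3] at h2
  have h5 := h2 i (by omega)
  rw [Pi.sub_apply, sub_eq_zero] at h5
  exact h5.symm

/-- support of the bracket -/
theorem FiB_br {x y : V K} {i : Fin 7} (h : ∀ a b, wt a + wt b = wt i → x a = 0 ∨ y b = 0) :
    br x y i = 0 := by
  have h1 : ∀ a b, wt a + wt b = wt i → x a * y b = 0 := fun a b hab => mul_eq_zero.2 (h a b hab)
  fin_cases i
  · show x 1 * y 4 + x 2 * y 5 + x 3 * y 6 - x 4 * y 1 - x 5 * y 2 - x 6 * y 3 = 0
    rw [h1 1 4 rfl, h1 2 5 rfl, h1 3 6 rfl, h1 4 1 rfl, h1 5 2 rfl, h1 6 3 rfl]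
    ring
  · show 2 * (x 0 * y 1 - y 0 * x 1 - (x 5 * y 6 - x 6 * y 5)) = 0
    rw [mul_comm (y 0), h1 0 1 rfl, h1 1 0 rfl, h1 5 6 rfl, h1 6 5 rfl]
    ring
  · show 2 * (x 0 * y 2 - y 0 * x 2 - (x 6 * y 4 - x 4 * y 6)) = 0
    rw [mul_comm (y 0), h1 0 2 rfl, h1 2 0 rfl, h1 6 4 rfl, h1 4 6 rfl]
    ring
  · show 2 * (x 0 * y 3 - y 0 * x 3 - (x 4 * y 5 - x 5 * y 4)) = 0
    rw [mul_comm (y 0), h1 0 3 rfl, h1 3 0 rfl, h1 4 5 rfl, h1 5 4 rfl]
    ring
  · show 2 * (y 0 * x 4 - x 0 * y 4 + (x 2 * y 3 - x 3 * y 2)) = 0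
    rw [mul_comm (y 0), h1 0 4 rfl, h1 4 0 rfl, h1 2 3 rfl, h1 3 2 rfl]
    ring
  · show 2 * (y 0 * x 5 - x 0 * y 5 + (x 3 * y 1 - x 1 * y 3)) = 0
    rw [mul_comm (y 0), h1 0 5 rfl, h1 5 0 rfl, h1 3 1 rfl, h1 1 3 rfl]
    ring
  · show 2 * (y 0 * x 6 - x 0 * y 6 + (x 1 * y 2 - x 2 * y 1)) = 0
    rw [mul_comm (y 0), h1 0 6 rfl, h1 6 0 rfl, h1 1 2 rfl, h1 2 1 rfl]
    ring

theorem FiB_bf {x y : V K} (h : ∀ a b, wt a + wt b = 0 → x a = 0 ∨ y b = 0) :
    bf x y = 0 := by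
  have h1 : ∀ a b, wt a + wt b = 0 → x a * y b = 0 := fun a b hab => mul_eq_zero.2 (h a b hab)
  unfold bf
  rw [mul_assoc, h1 0 0 rfl, h1 1 4 rfl, h1 4 1 rfl, h1 2 5 rfl, h1 5 2 rfl, h1 3 6 rfl,
    h1 6 3 rfl]
  ring

theorem FiB_br_add_left (x y z : V K) : br (x + y) z = br x z + br y z := by
  ext i
  fin_cases i <;> simp [br] <;> ring

theorem FiB_br_add_right (x y z : V K) : br x (y + z) = br x y + br x z := by
  ext i
  fin_cases i <;> simp [br] <;> ring

theorem FiB_br_smul_left (c : K) (x y : V K) : br (c • x) y = c • br x y := by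
  ext i
  fin_cases i <;> simp [br] <;> ring

theorem FiB_br_smul_right (c : K) (x y : V K) : br x (c • y) = c • br x y := by
  ext i
  fin_cases i <;> simp [br] <;> ring

theorem FiB_bf_add_left (x y z : V K) : bf (x + y) z = bf x z + bf y z := by
  simp only [bf, Pi.add_apply]
  ring

theorem FiB_bf_add_right (x y z : V K) : bf x (y + z) = bf x y + bf x z := by
  simp only [bf, Pi.add_apply]
  ring

theorem FiB_bf_smul_left (c : K) (x y : V K) : bf (c • x) y = c * bf x y := by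
  simp only [bf, Pi.smul_apply, smul_eq_mul]
  ring

theorem FiB_bf_smul_right (c : K) (x y : V K) : bf x (c • y) = c * bf x y := by
  simp only [bf, Pi.smul_apply, smul_eq_mul]
  ring

/-- the bracket as a bilinear map -/
def FiB_brL (K : Type) [Field K] : V K →ₗ[K] V K →ₗ[K] V K :=
  LinearMap.mk₂ K br FiB_br_add_left FiB_br_smul_left FiB_br_add_right FiB_br_smul_right

/-- the form as a bilinear map -/
def FiB_bfL (K : Type) [Field K] : V K →ₗ[K] V K →ₗ[K] K :=
  LinearMap.mk₂ K bf FiB_bf_add_left FiB_bf_smul_left FiB_bf_add_right FiB_bf_smul_right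

theorem FiB_ext {M : Type} [AddCommGroup M] [Module K M] {f g : V K →ₗ[K] M}
    (h : ∀ j, f (ev j) = g (ev j)) : f = g := by
  apply LinearMap.ext
  intro x
  rw [V_sum x, map_sum, map_sum]
  refine Finset.sum_congr rfl fun j _ => ?_
  rw [map_smul, map_smul, h]

theorem FiB_dg {d : ℤ × ℤ} {a b i : Fin 7} (h : wt a + wt b = wt i) :
    dg d a + dg d b = dg d i := by
  unfold dg
  rw [← h, Prod.fst_add, Prod.snd_add]
  ring

theorem FiB_dg0 {d : ℤ × ℤ} {a b : Fin 7} (h : wt a + wt b = 0) : dg d a + dg d b = 0 := by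
  unfold dg
  have h1 : (wt a).1 + (wt b).1 = 0 := by
    rw [← Prod.fst_add, h]
    rfl
  have h2 : (wt a).2 + (wt b).2 = 0 := by
    rw [← Prod.snd_add, h]
    rfl
  linear_combination d.1 * h1 + d.2 * h2

theorem FiB_br_F {d : ℤ × ℤ} {p q : ℤ} {x y : V K} (hx : x ∈ FiB_F K d p)
    (hy : y ∈ FiB_F K d q) : br x y ∈ FiB_F K d (p + q) := by
  intro i hi
  apply FiB_br
  intro a b hab
  have h1 := FiB_dg (d := d) hab
  rcases lt_or_ge (dg d a) p with h2 | h2
  · exact Or.inl (hx a h2)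
  · exact Or.inr (hy b (by omega))

theorem FiB_br_W {d : ℤ × ℤ} {p q : ℤ} {x y : V K} (hx : x ∈ FiB_W K d p)
    (hy : y ∈ FiB_W K d q) : br x y ∈ FiB_W K d (p + q) := by
  intro i hi
  apply FiB_br
  intro a b hab
  have h1 := FiB_dg (d := d) hab
  by_cases h2 : dg d a = p
  · exact Or.inr (hy b (by omega))
  · exact Or.inl (hx a h2)

theorem FiB_bf_F {d : ℤ × ℤ} {p q : ℤ} {x y : V K} (hx : x ∈ FiB_F K d p)
    (hy : y ∈ FiB_F K d q) (h : 0 < p + q) : bf x y = 0 := by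
  apply FiB_bf
  intro a b hab
  have h1 := FiB_dg0 (d := d) hab
  rcases lt_or_ge (dg d a) p with h2 | h2
  · exact Or.inl (hx a h2)
  · exact Or.inr (hy b (by omega))

theorem FiB_bf_W {d : ℤ × ℤ} {p q : ℤ} {x y : V K} (hx : x ∈ FiB_W K d p)
    (hy : y ∈ FiB_W K d q) (h : p + q ≠ 0) : bf x y = 0 := by
  apply FiB_bf
  intro a b hab
  have h1 := FiB_dg0 (d := d) hab
  by_cases h2 : dg d a = p
  · exact Or.inr (hy b (by omega))
  · exact Or.inl (hx a h2)

/-- the degree preserving part -/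
def FiB_P (d : ℤ × ℤ) (g : EE K) : V K →ₗ[K] V K where
  toFun x := fun i => ∑ j, if dg d i = dg d j then x j * g (ev j) i else 0
  map_add' := by
    intro a b
    ext i
    rw [Pi.add_apply, ← Finset.sum_add_distrib]
    refine Finset.sum_congr rfl fun j _ => ?_
    split_ifs
    · rw [Pi.add_apply, add_mul]
    · rw [add_zero]
  map_smul' := by
    intro c a
    ext i
    rw [Pi.smul_apply, smul_eq_mul, Finset.mul_sum]
    refine Finset.sum_congr rfl fun j _ => ?_
    split_ifs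
    · rw [Pi.smul_apply, smul_eq_mul, RingHom.id_apply, mul_assoc]
    · rw [mul_zero]

theorem FiB_P_apply (d : ℤ × ℤ) (g : EE K) (x : V K) (i : Fin 7) :
    FiB_P d g x i = ∑ j, if dg d i = dg d j then x j * g (ev j) i else 0 := rfl

theorem FiB_P_ev (d : ℤ × ℤ) (g : EE K) (i j : Fin 7) :
    FiB_P d g (ev j) i = if dg d i = dg d j then g (ev j) i else 0 := by
  rw [FiB_P_apply, Finset.sum_eq_single j]
  · rw [ev_same, one_mul]
  · intro k _ hk
    rw [ev_ne hk, zero_mul, ite_self]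
  · intro h
    exact absurd (Finset.mem_univ j) h

theorem FiB_P_one (d : ℤ × ℤ) : FiB_P d (1 : EE K) = LinearMap.id := by
  apply FiB_ext
  intro j
  ext i
  rw [FiB_P_ev]
  split_ifs with h
  · rfl
  · show 0 = (ev j : V K) i
    rw [ev_ne]
    intro h1
    exact h (by rw [h1])

theorem FiB_P_mul {d : ℤ × ℤ} {g h : EE K} (hg : g ∈ PD K d) (hh : h ∈ PD K d) :
    (FiB_P d g).comp (FiB_P d h) = FiB_P d (g * h) := by
  apply FiB_ext
  intro j
  ext i
  rw [LinearMap.comp_apply, FiB_P_apply, FiB_P_ev, LinearEquiv.mul_apply, FiB_apply']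
  split_ifs with h1
  · refine Finset.sum_congr rfl fun k _ => ?_
    rw [FiB_P_ev]
    split_ifs with h2 h3
    · rfl
    · exact absurd (h2.symm.trans h1) h3
    · rcases lt_trichotomy (dg d k) (dg d j) with h4 | h4 | h4
      · rw [hh.2.1 k j h4, zero_mul]
      · exact absurd (h1.trans h4.symm) h2
      · rw [hg.2.1 i k (by omega), mul_zero]
  · refine Finset.sum_eq_zero fun k _ => ?_
    rw [FiB_P_ev]
    split_ifs with h2 h3
    · exact absurd (h2.trans h3) h1
    · rw [zero_mul]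
    · rfl

theorem FiB_P_W {d : ℤ × ℤ} {g : EE K} {p : ℤ} {x : V K} (hx : x ∈ FiB_W K d p) :
    FiB_P d g x ∈ FiB_W K d p := by
  intro i hi
  rw [FiB_P_apply]
  refine Finset.sum_eq_zero fun j _ => ?_
  split_ifs with h1
  · rw [hx j (by rw [← h1]; exact hi), zero_mul]
  · rfl

theorem FiB_P_sub {d : ℤ × ℤ} {g : EE K} (hg : g ∈ PD K d) {p : ℤ} {x : V K}
    (hx : x ∈ FiB_W K d p) : g x - FiB_P d g x ∈ FiB_F K d (p + 1) := by
  intro i hi
  rw [Pi.sub_apply, sub_eq_zero, FiB_apply', FiB_P_apply]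
  refine Finset.sum_congr rfl fun j _ => ?_
  by_cases h1 : dg d j = p
  · split_ifs with h2
    · rfl
    · rw [hg.2.1 i j (by omega), mul_zero]
  · rw [hx j h1, zero_mul, ite_self]

theorem FiB_P_br {d : ℤ × ℤ} {g : EE K} (hg : g ∈ PD K d) {p q : ℤ} {x y : V K}
    (hx : x ∈ FiB_W K d p) (hy : y ∈ FiB_W K d q) :
    FiB_P d g (br x y) = br (FiB_P d g x) (FiB_P d g y) := by
  have hz := FiB_br_W hx hy
  have hlx := FiB_P_W (g := g) hx
  have hly := FiB_P_W (g := g) hy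
  have hlz := FiB_P_W (g := g) hz
  have hb := FiB_br_W hlx hly
  have hx' := FiB_P_sub hg hx
  have hy' := FiB_P_sub hg hy
  have hz' := FiB_P_sub hg hz
  ext i
  by_cases hi : dg d i = p + q
  · have h1 : g x = FiB_P d g x + (g x - FiB_P d g x) := by abel
    have h2 : g y = FiB_P d g y + (g y - FiB_P d g y) := by abel
    have h3 : br (g x) (g y) i = br (FiB_P d g x) (FiB_P d g y) i := by
      rw [h1, h2, FiB_br_add_left, FiB_br_add_right, FiB_br_add_right]
      have e1 := FiB_br_F (FiB_W_le d p hlx) hy' i (by omega)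
      have e2 := FiB_br_F hx' (FiB_W_le d q hly) i (by omega)
      have e3 := FiB_br_F hx' hy' i (by omega)
      rw [Pi.add_apply, Pi.add_apply, Pi.add_apply, e1, e2, e3]
      ring
    have h4 := hz' i (by omega)
    rw [Pi.sub_apply, sub_eq_zero] at h4
    rw [← h4, ← h3, hg.1.1]
  · rw [hlz i hi, hb i hi]

theorem FiB_P_bf {d : ℤ × ℤ} {g : EE K} (hg : g ∈ PD K d) {p q : ℤ} {x y : V K}
    (hx : x ∈ FiB_W K d p) (hy : y ∈ FiB_W K d q) :
    bf (FiB_P d g x) (FiB_P d g y) = bf x y := by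
  have hlx := FiB_P_W (g := g) hx
  have hly := FiB_P_W (g := g) hy
  have hx' := FiB_P_sub hg hx
  have hy' := FiB_P_sub hg hy
  by_cases hi : p + q = 0
  · have h1 : g x = FiB_P d g x + (g x - FiB_P d g x) := by abel
    have h2 : g y = FiB_P d g y + (g y - FiB_P d g y) := by abel
    rw [← hg.1.2 x y, h1, h2, FiB_bf_add_left, FiB_bf_add_right, FiB_bf_add_right]
    have e1 := FiB_bf_F (FiB_W_le d p hlx) hy' (by omega)
    have e2 := FiB_bf_F hx' (FiB_W_le d q hly) (by omega)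
    have e3 := FiB_bf_F hx' hy' (by omega)
    rw [e1, e2, e3]
    ring
  · rw [FiB_bf_W hlx hly hi, FiB_bf_W hx hy hi]

/-- the Levi component -/
theorem FiB_lev {d : ℤ × ℤ} {g : EE K} (hg : g ∈ PD K d) :
    ∃ l : EE K, ∀ x, l x = FiB_P d g x := by
  refine ⟨LinearEquiv.ofLinearMap (FiB_P d g) (FiB_P d g⁻¹) ?_ ?_, fun x => rfl⟩
  · rw [FiB_P_mul hg (inv_mem hg), mul_inv_cancel, FiB_P_one]
  · rw [FiB_P_mul (inv_mem hg) hg, inv_mul_cancel, FiB_P_one]

/-- Levi decomposition -/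
theorem Fil_dec {d : ℤ × ℤ} {g : EE K} (hg : g ∈ PD K d) :
    ∃ u ∈ QD K d, ∃ l ∈ Dg K d, g = u * l ∧
      ∀ i j, dg d i = dg d j → l (ev j) i = g (ev j) i := by
  obtain ⟨l, hl⟩ := FiB_lev hg
  have hlG : l ∈ GG K := by
    have e1 : (FiB_brL K).compr₂ (l : V K →ₗ[K] V K) =
        (FiB_brL K).compl₁₂ (l : V K →ₗ[K] V K) (l : V K →ₗ[K] V K) := by
      apply FiB_ext
      intro a
      apply FiB_ext
      intro b
      show l (br (ev a) (ev b)) = br (l (ev a)) (l (ev b))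
      rw [hl, hl, hl]
      exact FiB_P_br hg (FiB_ev_W d a) (FiB_ev_W d b)
    have e2 : (FiB_bfL K).compl₁₂ (l : V K →ₗ[K] V K) (l : V K →ₗ[K] V K) = FiB_bfL K := by
      apply FiB_ext
      intro a
      apply FiB_ext
      intro b
      show bf (l (ev a)) (l (ev b)) = bf (ev a) (ev b)
      rw [hl, hl]
      exact FiB_P_bf hg (FiB_ev_W d a) (FiB_ev_W d b)
    exact ⟨fun x y => LinearMap.congr_fun (LinearMap.congr_fun e1 x) y,
      fun x y => LinearMap.congr_fun (LinearMap.congr_fun e2 x) y⟩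
  have hlD : l ∈ Dg K d := by
    apply Dg_of hlG
    intro i j hij
    rw [hl, FiB_P_ev, if_neg hij]
  refine ⟨g * l⁻¹, ?_, l, hlD, by group, ?_⟩
  · apply QD_of (mul_mem hg.1 (inv_mem hlG))
    intro i j hij
    have hy : l⁻¹ (ev j) ∈ FiB_W K d (dg d j) :=
      FiB_W_stab hlD.2.2 (FiB_ev_W d j)
    have h1 := FiB_P_sub hg hy i (by omega)
    have h2 : l (l⁻¹ (ev j)) = ev j := l.apply_symm_apply _
    rw [← hl, h2, Pi.sub_apply, sub_eq_zero] at h1
    exact h1
  · intro i j hij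
    rw [hl, FiB_P_ev, if_pos hij]

theorem QD_inf_Dg {d : ℤ × ℤ} {g : EE K} (h : g ∈ QD K d) (h' : g ∈ Dg K d) : g = 1 := by
  apply EE_ext
  intro j
  ext i
  show g (ev j) i = (ev j : V K) i
  rcases le_or_gt (dg d i) (dg d j) with h1 | h1
  · exact h.2.1 i j h1
  · rw [h'.2.1 i j (ne_of_gt h1), ev_ne]
    intro h2
    rw [h2] at h1
    exact lt_irrefl _ h1

theorem QD_normal {d : ℤ × ℤ} {g u : EE K} (hg : g ∈ PD K d) (hu : u ∈ QD K d) :
    g * u * g⁻¹ ∈ QD K d := by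
  apply QD_of (mul_mem (mul_mem hg.1 hu.1.1) (inv_mem hg.1))
  intro i j hij
  have h1 : g⁻¹ (ev j) ∈ FiB_F K d (dg d j) := FiB_F_stab hg.2.2 (FiB_ev_F d j)
  have h2 := FiB_sub hu.2.1 h1
  have h3 := FiB_F_stab hg.2.1 h2
  have h4 := h3 i (by omega)
  have h5 : g (g⁻¹ (ev j)) = ev j := g.apply_symm_apply _
  rw [map_sub, h5, Pi.sub_apply, sub_eq_zero] at h4
  exact h4

/-- rank of a degree -/
def FiB_rk (d : ℤ × ℤ) (j : Fin 7) : ℕ := (Finset.univ.filter fun k => dg d k < dg d j).card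

theorem FiB_rk_lt {d : ℤ × ℤ} {i j : Fin 7} (h : dg d j < dg d i) : FiB_rk d j < FiB_rk d i := by
  unfold FiB_rk
  apply Finset.card_lt_card
  rw [Finset.ssubset_iff_of_subset]
  · exact ⟨j, by simpa using h, by simp⟩
  · intro k hk
    rw [Finset.mem_filter] at hk ⊢
    exact ⟨hk.1, hk.2.trans h⟩

theorem FiB_rk_7 (d : ℤ × ℤ) (j : Fin 7) : FiB_rk d j < 7 := by
  unfold FiB_rk
  have h : (Finset.univ.filter fun k => dg d k < dg d j) ⊂ Finset.univ := by
    rw [Finset.ssubset_iff_of_subset (Finset.subset_univ _)]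
    exact ⟨j, Finset.mem_univ _, by simp⟩
  have := Finset.card_lt_card h
  simpa using this

theorem FiB_nil {d : ℤ × ℤ} {u : EE K} (hu : u ∈ QD K d) (m : ℕ) (x : V K) :
    ∀ i, FiB_rk d i < m → ((((u : V K →ₗ[K] V K) : Module.End K (V K)) - 1) ^ m) x i = 0 := by
  induction m with
  | zero =>
    intro i hi
    exact absurd hi (Nat.not_lt_zero _)
  | succ m ih =>
    intro i hi
    rw [pow_succ', Module.End.mul_apply]
    set y := ((((u : V K →ₗ[K] V K) : Module.End K (V K)) - 1) ^ m) x with hy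
    have h1 : ((((u : V K →ₗ[K] V K) : Module.End K (V K)) - 1)) y = u y - y := rfl
    rw [h1, Pi.sub_apply, sub_eq_zero, FiB_apply']
    have h2 : y i = ∑ j, y j * (ev j : V K) i := by
      have := FiB_apply (LinearMap.id : V K →ₗ[K] V K) y i
      simpa using this
    rw [h2]
    refine Finset.sum_congr rfl fun j _ => ?_
    rcases le_or_gt (dg d i) (dg d j) with h3 | h3
    · rw [hu.2.1 i j h3]
    · have h4 := FiB_rk_lt h3
      rw [ih j (by omega), zero_mul, zero_mul]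

theorem FiB_pow (u : EE K) (n : ℕ) (x : V K) :
    (u ^ n) x = (((u : V K →ₗ[K] V K) : Module.End K (V K)) ^ n) x := by
  induction n with
  | zero => rfl
  | succ n ih =>
    rw [pow_succ', pow_succ', LinearEquiv.mul_apply, Module.End.mul_apply, ih]
    rfl

theorem QD_p (hK : Ok K) {d : ℤ × ℤ} {u : EE K} (hu : u ∈ QD K d) : u ^ Nat.card K = 1 := by
  have hp : Fact (Nat.card K).Prime := ⟨ok_prime hK⟩
  have hcp : CharP K (Nat.card K) := by
    obtain ⟨q, hq⟩ := CharP.exists K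
    have h1 : q ∣ Nat.card K := (CharP.cast_eq_zero_iff K q _).1 (ok_card_zero hK)
    rcases (Nat.dvd_prime (ok_prime hK)).1 h1 with h | h
    · exact absurd h (CharP.char_ne_one K q)
    · rwa [← h]
  have hce : CharP (Module.End K (V K)) (Nat.card K) :=
    charP_of_injective_algebraMap (algebraMap K (Module.End K (V K))).injective _
  set N : Module.End K (V K) := ((u : V K →ₗ[K] V K) : Module.End K (V K)) - 1 with hN
  have h7 : 7 ≤ Nat.card K := by
    rcases hK with h | h <;> omega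
  have h1 : N ^ Nat.card K = 0 := by
    apply LinearMap.ext
    intro x
    ext i
    exact FiB_nil hu _ x i (lt_of_lt_of_le (FiB_rk_7 d i) h7)
  have h2 : ((u : V K →ₗ[K] V K) : Module.End K (V K)) ^ Nat.card K = 1 := by
    have h3 : ((u : V K →ₗ[K] V K) : Module.End K (V K)) = N + 1 := by
      rw [hN, sub_add_cancel]
    rw [h3, add_pow_char_of_commute _ (Commute.one_right N), h1, one_pow, zero_add]
  apply LinearEquiv.ext
  intro x
  rw [FiB_pow, h2]
  rfl

end Pool.Agent.H40.GT
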