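import Pool.Agent.H40.GT.FiB

/-!
# Part FiC (of FiA, FiB, FiC); GT-09 gradings, parabolic subgroups, Levi decomposition

`dg d j = d.1 * (wt j).1 + d.2 * (wt j).2` is the degree of the coordinate `j`.
`PD d` = elements of `GG` which do not lower degrees (with their inverses), `QD d` = those which
are the identity modulo higher degrees, `Dg d` = those which preserve degrees.

`Fil_dec`: for `g ∈ PD d` let `l` be the degree preserving part:
`(l x) i = ∑ j, if dg d i = dg d j then g (ev j) i * x j else 0`.  Since `g` and `g⁻¹` do not lower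
degrees, the degree preserving part is multiplicative on `PD d`, so `l` is invertible (inverse =
the degree preserving part of `g⁻¹`).  `l ∈ GG`: `br` and `bf` are homogeneous
(`br (ev i) (ev j)` is supported at coordinates of weight `wt i + wt j`, `bf (ev i) (ev j) = 0` unless
`wt i + wt j = 0`): compare the components of degree `dg i + dg j` of
`g (br e_i e_j) = br (g e_i) (g e_j)` (all terms have degree at least that), and use
bilinearity; same for `bf`.  `u = g * l⁻¹ ∈ QD d`.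

`Fil_hd`: `tor (c ^ d.1, c ^ d.2)` acts on `ev j` as `c ^ dg d j`.
`Fil_cent`: if `g ∈ GG` commutes with `hd d c` for a `c` such that `c ^ (dg d i - dg d j) = 1` only
if `dg d i = dg d j`, then `g ∈ Dg d`.
`QD_p`: an element `u` of `QD d` has `(u - 1)^7 = 0`, so `u ^ (p^k) = 1 + (u-1)^(p^k) = 1` for
`p ^ k ≥ 7` in characteristic `p` (`p = 7` or `11`: `u ^ p = 1`).
-/

namespace Pool.Agent.H40.GT

variable {K : Type} [Field K]

/-- the one parameter subgroup of a grading -/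
def hd (d : ℤ × ℤ) (c : Kˣ) : EE K := tor (c ^ d.1, c ^ d.2)

theorem FiC_ch (d w : ℤ × ℤ) (c : Kˣ) :
    ch w (c ^ d.1, c ^ d.2) = c ^ (d.1 * w.1 + d.2 * w.2) := by
  unfold ch
  rw [zpow_add, zpow_mul, zpow_mul]

theorem FiC_hd_apply (d : ℤ × ℤ) (c : Kˣ) (x : V K) (i : Fin 7) :
    hd d c x i = ((c ^ dg d i : Kˣ) : K) * x i := by
  unfold hd
  rw [tor_apply, FiC_ch]
  rfl

theorem hd_ev (d : ℤ × ℤ) (c : Kˣ) (j : Fin 7) : hd d c (ev j) = ((c ^ dg d j : Kˣ) : K) • ev j := by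
  unfold hd
  rw [tor_ev, FiC_ch]
  rfl

theorem hd_mul (d : ℤ × ℤ) (a b : Kˣ) : hd d (a * b) = hd d a * hd d b := by
  unfold hd
  rw [← map_mul, Prod.mk_mul_mk, mul_zpow, mul_zpow]

theorem Dg_comm_hd {d : ℤ × ℤ} {g : EE K} (hg : g ∈ Dg K d) (c : Kˣ) :
    g * hd d c = hd d c * g := by
  apply EE_ext
  intro j
  rw [LinearEquiv.mul_apply, LinearEquiv.mul_apply, hd_ev, map_smul]
  funext i
  rw [Pi.smul_apply, FiC_hd_apply, smul_eq_mul]
  by_cases h : dg d i = dg d j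
  · rw [h]
  · rw [hg.2.1 i j h, mul_zero, mul_zero]

/-- elements commuting with the one parameter subgroup preserve the degrees -/
theorem Fil_cent (hK : Ok K) {d : ℤ × ℤ} (hd6 : ∀ i j, |dg d i - dg d j| < 6) {g : EE K}
    (hg : g ∈ GG K) (h : ∀ c : Kˣ, g * hd d c = hd d c * g) : g ∈ Dg K d := by
  obtain ⟨z, hz, -⟩ := ok_gen hK
  apply Dg_of hg
  intro i j hij
  by_contra hne
  have h1 := congrArg (fun f : EE K => f (ev j) i) (h z)
  have h2 : ((z ^ dg d j : Kˣ) : K) * g (ev j) i = ((z ^ dg d i : Kˣ) : K) * g (ev j) i := by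
    have h3 : (g * hd d z) (ev j) i = (hd d z * g) (ev j) i := h1
    rw [LinearEquiv.mul_apply, LinearEquiv.mul_apply, hd_ev, map_smul, Pi.smul_apply,
      smul_eq_mul, FiC_hd_apply] at h3
    exact h3
  have h4 := mul_right_cancel₀ hne h2
  have h5 : z ^ dg d j = z ^ dg d i := Units.ext h4
  have h6 : z ^ (dg d i - dg d j) = 1 := by rw [zpow_sub, h5, mul_inv_cancel]
  have h7 := orderOf_dvd_iff_zpow_eq_one.2 h6
  rw [hz] at h7
  have h8 : (6 : ℤ) ≤ ((Nat.card K - 1 : ℕ) : ℤ) := by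
    rcases hK with h | h <;> rw [h] <;> norm_num
  have h9 := Int.eq_zero_of_abs_lt_dvd h7 (lt_of_lt_of_le (hd6 i j) h8)
  exact hij (sub_eq_zero.1 h9)

theorem FiC_dg1 {d : ℤ × ℤ} {r : Rt} {i j : Fin 7} (h : wt i = wt j + rt r) :
    dg d i = dg d j + dr d r := by
  unfold dg dr
  rw [h, Prod.fst_add, Prod.snd_add]
  ring

theorem FiC_dg2 {d : ℤ × ℤ} {r : Rt} {i j : Fin 7} (h : wt i = wt j + rt r + rt r) :
    dg d i = dg d j + dr d r + dr d r := by
  unfold dg dr
  rw [h, Prod.fst_add, Prod.snd_add, Prod.fst_add, Prod.snd_add]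
  ring

theorem FiC_X {r : Rt} {s : K} {i j : Fin 7} (h1 : wt i ≠ wt j + rt r)
    (h2 : wt i ≠ wt j + rt r + rt r) : X r s (ev j) i = (ev j : V K) i := by
  have e1 := Nl_ev (K := K) r j i h1
  have e2 := Ql_ev (K := K) r j i h2
  rw [Nl_apply] at e1
  rw [Ql_apply] at e2
  rw [X_apply, e1, e2, mul_zero, mul_zero, add_zero, add_zero]

theorem FiC_tab : ∀ r : Rt, ∃ i : Fin 7, (cc r i = 1 ∨ cc r i = -1) ∧ qc r i = 0 ∧
    i ≠ sc r i ∧ wt i = wt (sc r i) + rt r := by
  decide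

/-- a non zero coordinate of a root element -/
theorem FiC_ne (r : Rt) {s : K} (hs : s ≠ 0) : ∃ i j : Fin 7, i ≠ j ∧ wt i = wt j + rt r ∧
    X r s (ev j) i ≠ 0 := by
  obtain ⟨i, h1, h2, h3, h4⟩ := FiC_tab r
  refine ⟨i, sc r i, h3, h4, ?_⟩
  rw [X_apply, ev_same, ev_ne h3, h2, Int.cast_zero, zero_mul, mul_zero, add_zero, zero_add,
    mul_one]
  rcases h1 with h1 | h1 <;> rw [h1]
  · rw [Int.cast_one, mul_one]
    exact hs
  · rw [Int.cast_neg, Int.cast_one, mul_neg, mul_one]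
    exact neg_ne_zero.2 hs

/-- root elements of positive degree are in `QD d` -/
theorem X_mem_QD {d : ℤ × ℤ} {r : Rt} (h : 0 < dr d r) (s : K) : X r s ∈ QD K d := by
  apply QD_of (X_mem_GG r s)
  intro i j hij
  apply FiC_X
  · intro h1
    have h2 := FiC_dg1 (d := d) h1
    omega
  · intro h1
    have h2 := FiC_dg2 (d := d) h1
    omega

theorem X_mem_Dg {d : ℤ × ℤ} {r : Rt} (h : dr d r = 0) (s : K) : X r s ∈ Dg K d := by
  apply Dg_of (X_mem_GG r s)
  intro i j hij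
  rw [FiC_X]
  · apply ev_ne
    rintro rfl
    exact hij rfl
  · intro h1
    have h2 := FiC_dg1 (d := d) h1
    omega
  · intro h1
    have h2 := FiC_dg2 (d := d) h1
    omega

/-- a nontrivial root element in `PD d` has degree at least zero -/
theorem X_in_PD {d : ℤ × ℤ} {r : Rt} {s : K} (h2 : (2 : K) ≠ 0) (hs : s ≠ 0)
    (h : X r s ∈ PD K d) : 0 ≤ dr d r := by
  by_contra hc
  obtain ⟨i, j, h3, h4, h5⟩ := FiC_ne r hs
  have h6 := FiC_dg1 (d := d) h4
  exact h5 (h.2.1 i j (by omega))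

theorem X_in_QD {d : ℤ × ℤ} {r : Rt} {s : K} (h2 : (2 : K) ≠ 0) (hs : s ≠ 0)
    (h : X r s ∈ QD K d) : 0 < dr d r := by
  by_contra hc
  obtain ⟨i, j, h3, h4, h5⟩ := FiC_ne r hs
  have h6 := FiC_dg1 (d := d) h4
  have h7 := h.2.1 i j (by omega)
  rw [ev_ne h3] at h7
  exact h5 h7

end Pool.Agent.H40.GT
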