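import Mathlib

/-!
# GT-24 abstract counting of frames

`G` finite acts on `Y` through `φ`, `V ⊆ Y` has three points, `I` (disjoint from `V`) has 36 points,
`T ≤ M`, `T` abelian of order 36 fixes the points of `V`, `M` preserves `V`, every `x ∉ M` maps all
points of `V` into `I`; `T` preserves `I`, and the stabiliser in `T` of a point of `I` is `Z`, `|Z| = 3`.

Frames: the sets `φ x '' V`, `x ∈ G`.  `φ x '' V = φ x' '' V` iff `x⁻¹ x' ∈ M`, and different
frames are disjoint (if `φ x v = φ x' v'` then `φ (x'⁻¹ x) v = v' ∈ V`, so `x'⁻¹ x ∈ M`).  So there are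
`n = [G : M]` frames; those different from `V` are in `I`, so `3 (n - 1) ≤ 36`, `n ≤ 13`.
`T` acts on the `n - 1` frames different from `V`.  The stabiliser `S` in `T` of such a frame
contains `Z` and `S / Z` acts freely on its three points, so `|S| = 3` or `9`; the `T`-orbits of frames
have size `12` or `4`.  So `4 ∣ n - 1`: `n = 1, 5, 9, 13`.  If `n = 5` or `9`, all orbits have size `4`,
so the stabiliser in `T` of each frame `φ x '' V`, `x ∉ M`, has order `9` and it is the set of all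
`t ∈ T` with `t ^ 9 = 1` (`T` abelian of order 36), so it contains all `t ∈ T` with `t ^ 3 = 1`:
`x⁻¹ t x ∈ M`.
-/

namespace Pool.Agent.H40.GT

/-- if all orbits have size divisible by `d`, so has the set -/
private theorem Fr_dvd {S Ω : Type} [Group S] [Finite S] [Finite Ω] [MulAction S Ω] (d : ℕ)
    (h : ∀ ω : Ω, d * Nat.card (MulAction.stabilizer S ω) ∣ Nat.card S) : d ∣ Nat.card Ω := by
  classical
  have key : ∀ ω : Ω, d ∣ Nat.card (MulAction.orbit S ω) := by
    intro ω
    have h1 : Nat.card (MulAction.orbit S ω) * Nat.card (MulAction.stabilizer S ω) = Nat.card S := by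
      rw [← Nat.card_prod]
      exact Nat.card_congr (MulAction.orbitProdStabilizerEquivGroup S ω)
    have h2 := h ω
    rw [← h1] at h2
    exact Nat.dvd_of_mul_dvd_mul_right Nat.card_pos h2
  haveI := Fintype.ofFinite Ω
  haveI := Fintype.ofFinite (Quotient (MulAction.orbitRel S Ω))
  rw [Nat.card_congr (MulAction.selfEquivSigmaOrbits S Ω), Nat.card_sigma]
  exact Finset.dvd_sum fun ω _ => key _

private theorem Fr_orbit {S Ω : Type} [Group S] [Finite S] [Finite Ω] [MulAction S Ω] (ω : Ω) :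
    (MulAction.stabilizer S ω).index ≤ Nat.card Ω ∧
      (MulAction.stabilizer S ω).index * Nat.card (MulAction.stabilizer S ω) = Nat.card S := by
  refine ⟨?_, Subgroup.index_mul_card _⟩
  rw [MulAction.index_stabilizer]
  exact Set.ncard_le_card _

theorem frames {G Y : Type} [Group G] [Finite G] (φ : G →* Equiv.Perm Y) (T M Z : Subgroup G)
    (V I : Set Y) (hV : V.ncard = 3) (hI : I.ncard = 36) (hVI : ∀ y ∈ V, y ∉ I) (hTM : T ≤ M)
    (hTc : ∀ s ∈ T, ∀ t ∈ T, s * t = t * s) (hT : Nat.card T = 36) (hZc : Nat.card Z = 3)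
    (hZ : Z ≤ T) (hTV : ∀ t ∈ T, ∀ y ∈ V, φ t y = y) (hMV : ∀ x ∈ M, ∀ y ∈ V, φ x y ∈ V)
    (hout : ∀ x, x ∉ M → ∀ y ∈ V, φ x y ∈ I) (hTI : ∀ t ∈ T, ∀ y ∈ I, φ t y ∈ I)
    (hfree : ∀ t ∈ T, ∀ y ∈ I, φ t y = y ↔ t ∈ Z) :
    ∃ n, Nat.card G = n * Nat.card M ∧ (n = 1 ∨ n = 5 ∨ n = 9 ∨ n = 13) ∧
      ((n = 5 ∨ n = 9) → ∀ x, x ∉ M → ∀ t ∈ T, t ^ 3 = 1 → x⁻¹ * t * x ∈ M) := by
  have hmulφ : ∀ (a b : G) (y : Y), φ (a * b) y = φ a (φ b y) := fun a b y => by
    rw [map_mul, Equiv.Perm.mul_apply]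
  obtain ⟨v0, hv0⟩ : V.Nonempty := Set.nonempty_of_ncard_ne_zero (by rw [hV]; norm_num)
  have hIfin : I.Finite := Set.finite_of_ncard_ne_zero (by rw [hI]; norm_num)
  have hVfin : V.Finite := Set.finite_of_ncard_ne_zero (by rw [hV]; norm_num)
  have hMem : ∀ (x : G) (y : Y), y ∈ V → φ x y ∈ V → x ∈ M := by
    intro x y hy hxy
    by_contra hx
    exact hVI _ hxy (hout x hx y hy)
  -- the frames different from `V`
  let Q : Type := {q : G ⧸ M // q ≠ ((1 : G) : G ⧸ M)}
  have hQm : ∀ x : G, x ∉ M → ((x : G) : G ⧸ M) ≠ ((1 : G) : G ⧸ M) := by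
    intro x hx h1
    apply hx
    have h2 := QuotientGroup.eq.1 h1.symm
    rwa [inv_one, one_mul] at h2
  have hone : ∀ t : T, (t : G) • ((1 : G) : G ⧸ M) = ((1 : G) : G ⧸ M) := by
    intro t
    have h1 : (t : G) • ((1 : G) : G ⧸ M) = (((t : G) * 1 : G) : G ⧸ M) := rfl
    rw [h1]
    refine (QuotientGroup.eq.2 ?_).symm
    rw [inv_one, one_mul, mul_one]
    exact hTM t.2
  letI actQ : MulAction T Q :=
    { smul := fun t q => ⟨(t : G) • q.1, fun h1 => q.2 (by
        have h2 : (t : G)⁻¹ • ((t : G) • q.1) = (t : G)⁻¹ • ((1 : G) : G ⧸ M) := by rw [h1]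
        rw [inv_smul_smul] at h2
        rw [h2]
        exact hone (t⁻¹))⟩
      one_smul := fun q => Subtype.ext (one_smul G q.1)
      mul_smul := fun s t q => Subtype.ext (mul_smul (s : G) (t : G) q.1) }
  have hsm : ∀ (t : T) (q : Q), (t • q).1 = (t : G) • q.1 := fun _ _ => rfl
  haveI : Finite Q := Subtype.finite
  have hstab : ∀ (x : G) (hx : x ∉ M) (t : T),
      t ∈ MulAction.stabilizer T (⟨(x : G ⧸ M), hQm x hx⟩ : Q) ↔ x⁻¹ * t * x ∈ M := by
    intro x hx t
    rw [MulAction.mem_stabilizer_iff, Subtype.ext_iff, hsm]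
    show (((t : G) * x : G) : G ⧸ M) = (x : G ⧸ M) ↔ _
    rw [eq_comm, QuotientGroup.eq, ← mul_assoc]
  have hrep : ∀ q : Q, ∃ (x : G) (hx : x ∉ M), q = ⟨(x : G ⧸ M), hQm x hx⟩ := by
    rintro ⟨q, hq⟩
    obtain ⟨x, rfl⟩ := QuotientGroup.mk_surjective q
    refine ⟨x, fun hx => hq ?_, rfl⟩
    refine (QuotientGroup.eq.2 ?_).symm
    rw [inv_one, one_mul]
    exact hx
  have hcardT : Nat.card T = 36 := hT
  -- stabilisers have order 3 or 9
  have hS : ∀ q : Q, Nat.card (MulAction.stabilizer T q) = 3 ∨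
      Nat.card (MulAction.stabilizer T q) = 9 := by
    intro q
    obtain ⟨x, hx, rfl⟩ := hrep q
    set S : Subgroup T := MulAction.stabilizer T (⟨(x : G ⧸ M), hQm x hx⟩ : Q) with hSdef
    let F : Set Y := φ x '' V
    have hFI : ∀ y ∈ F, y ∈ I := by
      rintro y ⟨v, hv, rfl⟩
      exact hout x hx v hv
    have hSF : ∀ (s : S) (y : Y), y ∈ F → φ ((s : T) : G) y ∈ F := by
      rintro s y ⟨v, hv, rfl⟩
      have h1 := (hstab x hx s.1).1 s.2
      refine ⟨φ (x⁻¹ * (s : T) * x) v, hMV _ h1 v hv, ?_⟩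
      rw [← hmulφ, ← hmulφ]
      congr 2
      group
    letI actF : MulAction S F :=
      { smul := fun s y => ⟨φ ((s : T) : G) y.1, hSF s y.1 y.2⟩
        one_smul := fun y => Subtype.ext (by
          show φ 1 y.1 = y.1
          rw [map_one]
          rfl)
        mul_smul := fun s t y => Subtype.ext (hmulφ _ _ _) }
    have hFfin : Finite F := (hVfin.image _).to_subtype
    have hst : ∀ y : F, Nat.card (MulAction.stabilizer S y) = 3 := by
      intro y
      rw [← hZc]
      have hyI := hFI y.1 y.2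
      have hiff : ∀ s : S, s ∈ MulAction.stabilizer S y ↔ ((s : T) : G) ∈ Z := by
        intro s
        rw [MulAction.mem_stabilizer_iff, Subtype.ext_iff]
        exact hfree _ s.1.2 _ hyI
      have hZS : ∀ z ∈ Z, ∃ s : S, ((s : T) : G) = z := by
        intro z hz
        refine ⟨⟨⟨z, hZ hz⟩, ?_⟩, rfl⟩
        rw [hSdef, hstab x hx]
        refine hMem _ v0 hv0 ?_
        show φ (x⁻¹ * z * x) v0 ∈ V
        rw [hmulφ, hmulφ, (hfree z (hZ hz) (φ x v0) (hout x hx v0 hv0)).2 hz, ← hmulφ,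
          inv_mul_cancel, map_one]
        exact hv0
      refine Nat.card_eq_of_bijective
        (fun s : MulAction.stabilizer S y => (⟨((s.1 : T) : G), (hiff s.1).1 s.2⟩ : Z)) ⟨?_, ?_⟩
      · intro s t hst
        have h1 : ((s.1 : T) : G) = ((t.1 : T) : G) := Subtype.mk.inj hst
        exact Subtype.ext (Subtype.ext (Subtype.ext h1))
      · rintro ⟨z, hz⟩
        obtain ⟨s, hs⟩ := hZS z hz
        refine ⟨⟨s, (hiff s).2 (by rw [hs]; exact hz)⟩, Subtype.ext hs⟩
    have hF3 : Nat.card F = 3 := by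
      rw [Nat.card_coe_set_eq, Set.ncard_image_of_injective _ (φ x).injective, hV]
    have hy0 : φ x v0 ∈ F := ⟨v0, hv0, rfl⟩
    have h3 : 3 ∣ Nat.card S := by
      have h1 := Subgroup.card_subgroup_dvd_card (MulAction.stabilizer S (⟨φ x v0, hy0⟩ : F))
      rwa [hst] at h1
    obtain ⟨d, hd⟩ := h3
    have h4 : d ∣ Nat.card F := by
      refine Fr_dvd (S := S) d fun y => ?_
      rw [hst, hd, mul_comm]
    rw [hF3] at h4
    rcases (Nat.dvd_prime Nat.prime_three).1 h4 with h5 | h5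
    · left
      rw [hd, h5]
    · right
      rw [hd, h5]
  have h4 : 4 ∣ Nat.card Q := by
    refine Fr_dvd (S := T) 4 fun q => ?_
    rcases hS q with h | h
    · rw [h, hcardT]
      norm_num
    · rw [h, hcardT]
  have hQI : Nat.card Q * 3 ≤ 36 := by
    have hinj : Function.Injective (fun p : Q × V =>
        (⟨φ (Quotient.out p.1.1) p.2.1, by
          refine hout _ (fun h1 => p.1.2 ?_) _ p.2.2
          have h2 : ((Quotient.out p.1.1 : G) : G ⧸ M) = p.1.1 := QuotientGroup.out_eq' _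
          rw [← h2]
          refine (QuotientGroup.eq.2 ?_).symm
          rw [inv_one, one_mul]
          exact h1⟩ : I)) := by
      rintro ⟨⟨q, hq⟩, ⟨v, hv⟩⟩ ⟨⟨q', hq'⟩, ⟨v', hv'⟩⟩ h1
      have h2 : φ (Quotient.out q) v = φ (Quotient.out q') v' := congrArg Subtype.val h1
      have h3 : (Quotient.out q')⁻¹ * Quotient.out q ∈ M := by
        refine hMem _ v hv ?_
        rw [hmulφ, h2, ← hmulφ, inv_mul_cancel, map_one]
        exact hv'
      have h4 : q' = q := by
        rw [← QuotientGroup.out_eq' q, ← QuotientGroup.out_eq' q']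
        exact QuotientGroup.eq.2 h3
      subst h4
      have h5 : v = v' := (φ (Quotient.out q')).injective h2
      subst h5
      rfl
    haveI : Finite I := hIfin.to_subtype
    haveI : Finite V := hVfin.to_subtype
    have h1 := Nat.card_le_card_of_injective _ hinj
    rwa [Nat.card_prod, Nat.card_coe_set_eq, Nat.card_coe_set_eq, hV, hI] at h1
  have hn : M.index = Nat.card Q + 1 := by
    classical
    haveI := Fintype.ofFinite (G ⧸ M)
    have h1 : Nat.card Q = Fintype.card (G ⧸ M) - 1 := by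
      rw [Nat.card_eq_fintype_card]
      exact Set.card_ne_eq _
    have h2 : M.index = Fintype.card (G ⧸ M) := by
      rw [Subgroup.index, Nat.card_eq_fintype_card]
    have h3 : 0 < Fintype.card (G ⧸ M) := Fintype.card_pos_iff.2 ⟨((1 : G) : G ⧸ M)⟩
    omega
  refine ⟨M.index, (Subgroup.index_mul_card M).symm, ?_, ?_⟩
  · obtain ⟨k, hk⟩ := h4
    omega
  · intro hn2 x hx t ht ht3
    obtain ⟨h0, h1⟩ := Fr_orbit (S := T) (⟨(x : G ⧸ M), hQm x hx⟩ : Q)
    have h0' : (MulAction.stabilizer T (⟨(x : G ⧸ M), hQm x hx⟩ : Q)).index ≤ Nat.card Q := h0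
    have h2 : (MulAction.stabilizer T (⟨(x : G ⧸ M), hQm x hx⟩ : Q)).index = 4 := by
      rcases hS (⟨(x : G ⧸ M), hQm x hx⟩ : Q) with h | h
      · rw [h, hcardT] at h1
        omega
      · rw [h, hcardT] at h1
        omega
    have hnorm : (MulAction.stabilizer T (⟨(x : G ⧸ M), hQm x hx⟩ : Q)).Normal := by
      refine ⟨fun n hn g => ?_⟩
      have h3 : g * n * g⁻¹ = n := by
        have h4 : g * n = n * g := Subtype.ext (hTc _ g.2 _ n.2)
        rw [h4, mul_inv_cancel_right]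
      rw [h3]
      exact hn
    have h3 := Subgroup.pow_index_mem (MulAction.stabilizer T (⟨(x : G ⧸ M), hQm x hx⟩ : Q))
      (⟨t, ht⟩ : T)
    rw [h2, hstab x hx] at h3
    have h4 : (((⟨t, ht⟩ : T) ^ 4 : T) : G) = t := by
      show t ^ 4 = t
      rw [pow_succ, ht3, one_mul]
    rwa [h4] at h3

end Pool.Agent.H40.GT
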