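import Pool.Agent.H40.GT.Nrm

/-!
# GT-06 the element `z = tor (ω, ω)`, `ω ^ 3 = 1`

`z` acts as `ω` on `e_1, e_2, e_3`, as `ω⁻¹` on `e_-1, e_-2, e_-3` and as `1` on `e_0`
(`ch (-1,-1) (ω,ω) = ω^-2 = ω`).  Trace of `z`: `1 + 3 ω + 3 ω⁻¹ = -2` (as `1 + ω + ω⁻¹ = 0`).
If `y = x z x⁻¹ ∈ NN` is not in `TT` then `y ^ 3 = 1`, its linear part `w` has order 3
(`Mon_one`, `Mon_perm`), i.e. it is a 3-cycle of the weights `wt 1, wt 2, wt 3` with sign `1`; so `y`
fixes no coordinate line except that of `e_0`, `y e_0 = c e_0` with `c ^ 2 = 1` (`bf`) and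
`c ^ 3 = 1`, so `c = 1` and the trace of `y` (`LinearMap.trace`, or the sum of the entries
`y (ev j) j`, invariant under conjugation) is `1`.  So `-2 = 1`, `3 = 0`, contradiction.
-/

namespace Pool.Agent.H40.GT

variable {K : Type} [Field K]

/-- the sum of the diagonal entries -/
private def HzTr (g : EE K) : K := ∑ j : Fin 7, g (ev j) j

private theorem HzTr_eq (g : EE K) : HzTr g = LinearMap.trace K (V K) g.toLinearMap := by
  rw [LinearMap.trace_eq_matrix_trace K (Pi.basisFun K (Fin 7))]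
  unfold HzTr Matrix.trace
  refine Finset.sum_congr rfl fun j _ => ?_
  rw [Matrix.diag_apply, LinearMap.toMatrix_apply, Pi.basisFun_apply, Pi.basisFun_repr]
  rfl

private theorem HzTr_conj (x z : EE K) : HzTr (x * z * x⁻¹) = HzTr z := by
  rw [HzTr_eq, HzTr_eq]
  have h : (x * z * x⁻¹ : EE K).toLinearMap = x.conj z.toLinearMap := by
    apply LinearMap.ext
    intro v
    rfl
  rw [h, LinearMap.trace_conj']

private theorem Hz_perm : ∀ π : Equiv.Perm (Fin 3), (∀ i, π (π (π i)) = i) →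
    π = 1 ∨ ∀ i, π i ≠ i := by
  decide

private theorem Hz_wt1 : ∀ i k : Fin 3, -wt (![1, 2, 3] k) ≠ wt (![1, 2, 3] i) := by
  decide

private theorem Hz_wt2 : ∀ i k : Fin 3, wt (![1, 2, 3] k) = wt (![1, 2, 3] i) → k = i := by
  decide

private theorem Hz_wt3 : ∀ j : Fin 7, j = 0 ∨ (∃ i : Fin 3, wt j = wt (![1, 2, 3] i)) ∨
    ∃ i : Fin 3, wt j = -wt (![1, 2, 3] i) := by
  decide

private theorem Hz_trz {ω : Kˣ} (h3 : ω ^ 3 = 1) (h1 : ω ≠ 1) : HzTr (tor (ω, ω)) = -2 := by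
  have h3' : (ω : K) ^ 3 = 1 := by
    rw [← Units.val_pow_eq_pow_val, h3, Units.val_one]
  have h1' : (ω : K) - 1 ≠ 0 := by
    rw [sub_ne_zero]
    intro h
    exact h1 (Units.ext h)
  have h4 : (ω : K) ^ 2 + ω + 1 = 0 := by
    have h5 : ((ω : K) - 1) * ((ω : K) ^ 2 + ω + 1) = 0 := by
      linear_combination h3'
    exact (mul_eq_zero.1 h5).resolve_left h1'
  have hinv : (ω⁻¹ : Kˣ) = ω ^ 2 := by
    rw [inv_eq_iff_mul_eq_one]
    calc ω * ω ^ 2 = ω ^ 3 := by rw [pow_succ ω 2, mul_comm]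
      _ = 1 := h3
  have hz : ∀ (j : Fin 7) (u : Kˣ), ch (wt j) (ω, ω) = u → tor (ω, ω) (ev j : V K) j = (u : K) := by
    intro j u hu
    rw [tor_apply, ev_same, mul_one, hu]
  have e0 : ch (wt 0) (ω, ω) = (1 : Kˣ) := by
    show ω ^ (0 : ℤ) * ω ^ (0 : ℤ) = 1
    simp
  have e1 : ch (wt 1) (ω, ω) = ω := by
    show ω ^ (1 : ℤ) * ω ^ (0 : ℤ) = ω
    simp
  have e2 : ch (wt 2) (ω, ω) = ω := by
    show ω ^ (0 : ℤ) * ω ^ (1 : ℤ) = ω
    simp
  have e3 : ch (wt 3) (ω, ω) = ω ^ 4 := by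
    show ω ^ (-1 : ℤ) * ω ^ (-1 : ℤ) = ω ^ 4
    rw [zpow_neg_one, hinv, ← pow_add]
  have e4 : ch (wt 4) (ω, ω) = ω ^ 2 := by
    show ω ^ (-1 : ℤ) * ω ^ (0 : ℤ) = ω ^ 2
    rw [zpow_neg_one, hinv, zpow_zero, mul_one]
  have e5 : ch (wt 5) (ω, ω) = ω ^ 2 := by
    show ω ^ (0 : ℤ) * ω ^ (-1 : ℤ) = ω ^ 2
    rw [zpow_neg_one, hinv, zpow_zero, one_mul]
  have e6 : ch (wt 6) (ω, ω) = ω ^ 2 := by
    show ω ^ (1 : ℤ) * ω ^ (1 : ℤ) = ω ^ 2
    rw [zpow_one, sq]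
  unfold HzTr
  rw [Fin.sum_univ_seven, hz 0 _ e0, hz 1 _ e1, hz 2 _ e2, hz 3 _ e3, hz 4 _ e4, hz 5 _ e5,
    hz 6 _ e6]
  simp only [Units.val_one, Units.val_pow_eq_pow_val]
  linear_combination (ω : K) * h3' + 3 * h4

theorem Hz (hK : Ok K) {ω : Kˣ} (h3 : ω ^ 3 = 1) (h1 : ω ≠ 1) {x : EE K} (hx : x ∈ GG K)
    (h : x * tor (ω, ω) * x⁻¹ ∈ NN K) : x * tor (ω, ω) * x⁻¹ ∈ TT K := by
  set y : EE K := x * tor (ω, ω) * x⁻¹ with hy
  have hy3 : y * y * y = 1 := by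
    have h4 : tor (ω, ω) * tor (ω, ω) * tor (ω, ω) = (1 : EE K) := by
      rw [← map_mul, ← map_mul]
      have h5 : ((ω, ω) : Kˣ × Kˣ) * (ω, ω) * (ω, ω) = 1 := by
        have h6 : ω * ω * ω = 1 := by
          rw [← h3, pow_succ, sq]
        exact Prod.ext h6 h6
      rw [h5, map_one]
    calc y * y * y = x * (tor (ω, ω) * tor (ω, ω) * tor (ω, ω)) * x⁻¹ := by
          rw [hy]
          group
      _ = 1 := by rw [h4]; group
  have h2 := ok_two hK
  obtain ⟨w, σ, τ, hM⟩ := NN_mon h2 h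
  have hyy : ∀ v : V K, y (y (y v)) = v := by
    intro v
    have h4 : (y * y * y) v = v := by rw [hy3]; rfl
    exact h4
  have hσ : ∀ j, σ (σ (σ j)) = j := by
    intro j
    obtain ⟨c, hc, e1⟩ := hM.mev j
    obtain ⟨d, hd, e2⟩ := hM.mev (σ j)
    obtain ⟨f, hf, e3⟩ := hM.mev (σ (σ j))
    have h4 := hyy (ev j)
    rw [e1, map_smul, e2, map_smul, map_smul, e3] at h4
    by_contra hne
    have h5 := congrFun h4 j
    rw [Pi.smul_apply, Pi.smul_apply, Pi.smul_apply, ev_ne (Ne.symm hne), ev_same, smul_zero,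
      smul_zero, smul_zero] at h5
    exact zero_ne_one h5
  have hw : ∀ j, w (w (w (wt j))) = wt j := by
    intro j
    rw [← hM.mwt, ← hM.mwt, ← hM.mwt, hσ]
  obtain ⟨π, ε, hε, hπ⟩ := Mon_perm h2 h hM
  have hε1 : ε = 1 := by
    rcases hε with h4 | h4
    · exact h4
    · exfalso
      rw [h4] at hπ
      have h5 := hw (![1, 2, 3] 0)
      rw [hπ, map_zsmul, hπ, map_zsmul, map_zsmul, hπ] at h5
      simp only [neg_smul, one_smul, neg_neg] at h5
      exact Hz_wt1 _ _ h5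
  rw [hε1] at hπ
  simp only [one_smul] at hπ
  have hπ3 : ∀ i, π (π (π i)) = i := by
    intro i
    have h5 := hw (![1, 2, 3] i)
    rw [hπ, hπ, hπ] at h5
    exact Hz_wt2 _ _ h5
  rcases Hz_perm π hπ3 with h4 | h4
  · refine Mon_one h2 h hM ?_ ?_
    · have h5 := hπ 0
      rw [h4] at h5
      exact h5
    · have h5 := hπ 1
      rw [h4] at h5
      exact h5
  · exfalso
    have hw0 : wt 0 = 0 := rfl
    have hσ0 : σ 0 = 0 := by
      apply wt_inj
      rw [hM.mwt, hw0, map_zero]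
    have hσne : ∀ j, j ≠ 0 → σ j ≠ j := by
      intro j hj hc
      have h5 := hM.mwt j
      rw [hc] at h5
      rcases Hz_wt3 j with h6 | ⟨i, h6⟩ | ⟨i, h6⟩
      · exact hj h6
      · rw [h6, hπ] at h5
        exact h4 i (Hz_wt2 _ _ h5.symm)
      · rw [h6, map_neg, hπ, neg_inj] at h5
        exact h4 i (Hz_wt2 _ _ h5.symm)
    obtain ⟨c, hc, hc0⟩ := hM.mev 0
    rw [hσ0] at hc0
    have htr : HzTr y = c := by
      unfold HzTr
      rw [Finset.sum_eq_single 0]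
      · rw [hc0, Pi.smul_apply, ev_same, smul_eq_mul, mul_one]
      · intro j _ hj
        obtain ⟨d, hd, hd0⟩ := hM.mev j
        rw [hd0, Pi.smul_apply, ev_ne (Ne.symm (hσne j hj)), smul_zero]
      · intro h5
        exact absurd (Finset.mem_univ _) h5
    have hc2 : c ^ 2 = 1 := by
      have h5 : bf (y (ev 0)) (y (ev 0)) = bf (ev 0) (ev 0 : V K) :=
        (NN_le_GG h).2 _ _
      rw [hc0] at h5
      have h6 : bf (c • ev 0) (c • ev 0 : V K) = c ^ 2 * bf (ev 0) (ev 0 : V K) := by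
        unfold bf
        simp only [Pi.smul_apply, smul_eq_mul]
        ring
      have h7 : bf (ev 0) (ev 0 : V K) = 2 := by
        unfold bf
        rw [ev_same, ev_ne (by decide : (1 : Fin 7) ≠ 0), ev_ne (by decide : (2 : Fin 7) ≠ 0),
          ev_ne (by decide : (3 : Fin 7) ≠ 0)]
        ring
      rw [h6, h7] at h5
      exact mul_right_cancel₀ h2 (h5.trans (one_mul _).symm)
    have hc3 : c ^ 3 = 1 := by
      have h5 := hyy (ev 0)
      rw [hc0, map_smul, hc0, map_smul, map_smul, hc0] at h5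
      have h6 := congrFun h5 0
      rw [Pi.smul_apply, Pi.smul_apply, Pi.smul_apply, ev_same, smul_eq_mul, smul_eq_mul,
        smul_eq_mul] at h6
      linear_combination h6
    have hc1 : c = 1 := by
      linear_combination hc3 - c * hc2
    have h5 : HzTr y = HzTr (tor (ω, ω)) := HzTr_conj x _
    rw [htr, Hz_trz h3 h1, hc1] at h5
    apply ok_three hK
    linear_combination h5

end Pool.Agent.H40.GT
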