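import Pool.Agent.H40.GT.Nrm

/-!
# Part LC1 (of LC1, LC2); GT-05 Lemma C': `g T g⁻¹ ≤ N(T)` implies `g ∈ N(T)`

`p = 11` (`m = 10`): for `a = g t g⁻¹` with `t ^ 5 = 1`: `a ∈ NN`, `a = a ^ 6`, and the image of `a`
in the group of the linear parts `w` (order divides 12, `Mon_perm`: a permutation of three points
and a sign) satisfies `w ^ 5 = 1`, `w ^ 12 = 1`, so `w = 1`, `a ∈ TT` (`Mon_one`).  By counting
(`25` elements with fifth power `1` on both sides; `t ↦ g t g⁻¹` is injective) every `t' ∈ TT` with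
`t' ^ 5 = 1` is `g t g⁻¹` for such a `t`.  `TT` is abelian, so `g TT g⁻¹` commutes with all these
`t'` and is in `TT` by `ok_centr` (the seven weights are distinct modulo 5).  So `g t g⁻¹ ∈ TT` for
all `t ∈ TT`, and `ok_norm` gives `g ∈ NN`.

`p = 7` (`m = 6`): the same with `3` in place of `5` if all `a = g t g⁻¹`, `t ^ 3 = 1`, are in
`TT`.  Suppose some `a = g t g⁻¹` with `t ^ 3 = 1` is not in `TT`.  Its linear part `w` satisfies
`w ^ 3 = 1`, `w ≠ 1`, so it permutes the three weights `wt 1, wt 2, wt 3` cyclically (sign `1`),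
so it permutes the three involutions `tor (1,-1), tor (-1,1), tor (-1,-1)` of `TT` cyclically
and fixes none of them.  For each of the three involutions `i = g e g⁻¹` (`e ∈ TT` an
involution), `i ∈ NN` commutes with `a`; so its linear part commutes with the 3-cycle and has
square one: it is `1` or `-1`.  If it is `1` then `i ∈ TT` is an involution commuting with `a`:
contradiction.  So the linear part is `-1` for all three, but the product of two of them is
the third: contradiction.

`ok_centr`: `g ∈ GG` commuting with all `t ∈ TT`, `t ^ r = 1`, where `r = 3` (`p = 7`),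
`r = 5` (`p = 11`): if `g (ev j)` has a nonzero coordinate `i ≠ j` then `wt i` and `wt j` agree on
all `tor (z^a, z^b)`, `z` of order `r`; so `wt i = wt j` mod `r`, impossible by a finite check.
So `g` fixes the coordinate lines: `diag_mem_TT`.
-/

namespace Pool.Agent.H40.GT

variable {K : Type} [Field K]

/-- the odd prime divisor of `|K| - 1` -/
noncomputable def rr (K : Type) : ℕ := (Nat.card K - 1) / 2

theorem rr_eq (hK : Ok K) : (Nat.card K = 7 ∧ rr K = 3) ∨ (Nat.card K = 11 ∧ rr K = 5) := by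
  rcases hK with h | h
  · left
    exact ⟨h, by rw [rr, h]⟩
  · right
    exact ⟨h, by rw [rr, h]⟩

theorem LC1_two_rr (hK : Ok K) : Nat.card K - 1 = 2 * rr K := by
  rcases rr_eq hK with ⟨h1, h2⟩ | ⟨h1, h2⟩
  · rw [h1, h2]
  · rw [h1, h2]

theorem LC1_rr_ge (hK : Ok K) : 3 ≤ rr K := by
  rcases rr_eq hK with ⟨h1, h2⟩ | ⟨h1, h2⟩ <;> omega

/-- small differences of exponents -/
theorem LC1_zpow (hK : Ok K) {z : Kˣ} (hz : orderOf z = Nat.card K - 1) {a b : ℤ}
    (ha : a - b ≤ 2) (hb : b - a ≤ 2) (h : (z ^ 2) ^ a = (z ^ 2) ^ b) : a = b := by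
  have h1 : z ^ (2 * (a - b)) = 1 := by
    rw [zpow_mul, zpow_sub, ← zpow_natCast] at *
    rw [show ((2 : ℤ)) = ((2 : ℕ) : ℤ) from rfl]
    rw [h, mul_inv_cancel]
  have h2 := orderOf_dvd_iff_zpow_eq_one.mpr h1
  rw [hz, LC1_two_rr hK] at h2
  have h3 := LC1_rr_ge hK
  obtain ⟨c, hc⟩ := h2
  push_cast at hc
  have h4 : a - b = rr K * c := by linarith
  rcases lt_trichotomy c 0 with hc0 | hc0 | hc0
  · have h5 : (rr K : ℤ) * c ≤ rr K * (-1) := by
      apply mul_le_mul_of_nonneg_left (by omega) (by positivity)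
    have h6 : (3 : ℤ) ≤ rr K := by exact_mod_cast h3
    linarith
  · rw [hc0, mul_zero] at h4
    linarith
  · have h5 : (rr K : ℤ) * 1 ≤ rr K * c := by
      apply mul_le_mul_of_nonneg_left (by omega) (by positivity)
    have h6 : (3 : ℤ) ≤ rr K := by exact_mod_cast h3
    linarith

theorem LC1_tab : ∀ i j : Fin 7, (wt i).1 - (wt j).1 ≤ 2 ∧ (wt i).2 - (wt j).2 ≤ 2 := by
  decide

theorem LC1_pow (hK : Ok K) {z : Kˣ} (hz : orderOf z = Nat.card K - 1) :
    (z ^ 2) ^ rr K = 1 := by
  rw [← pow_mul, ← LC1_two_rr hK, ← hz, pow_orderOf_eq_one]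

theorem ok_centr (hK : Ok K) {g : EE K} (hg : g ∈ GG K)
    (h : ∀ t ∈ TT K, t ^ rr K = 1 → g * t = t * g) : g ∈ TT K := by
  obtain ⟨z, hz, -⟩ := ok_gen hK
  have hp := LC1_pow hK hz
  have key : ∀ t : Kˣ × Kˣ, t ^ rr K = 1 → ∀ i j : Fin 7, g (ev j) i ≠ 0 →
      ch (wt i) t = ch (wt j) t := by
    intro t ht i j hij
    have h1 := h (tor t) (tor_mem_TT t) (by rw [← map_pow, ht, map_one])
    have h2 := congrArg (fun f : EE K => f (ev j) i) h1
    simp only [LinearEquiv.mul_apply] at h2
    rw [tor_ev, map_smul, tor_apply, Pi.smul_apply, smul_eq_mul] at h2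
    exact Units.val_injective (mul_right_cancel₀ hij h2).symm
  apply diag_mem_TT (ok_two hK) hg
  intro j
  refine ⟨g (ev j) j, ?_⟩
  ext i
  rw [Pi.smul_apply, smul_eq_mul]
  by_cases hij : i = j
  · rw [hij, ev_same, mul_one]
  · rw [ev_ne hij, mul_zero]
    by_contra h0
    apply hij
    apply wt_inj
    apply Prod.ext
    · have h3 := key (z ^ 2, 1) (by
        apply Prod.ext
        · exact hp
        · exact one_pow _) i j h0
      rw [ch, ch, one_zpow, one_zpow, mul_one, mul_one] at h3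
      exact LC1_zpow hK hz (LC1_tab i j).1 (LC1_tab j i).1 h3
    · have h3 := key (1, z ^ 2) (by
        apply Prod.ext
        · exact one_pow _
        · exact hp) i j h0
      rw [ch, ch, one_zpow, one_zpow, one_mul, one_mul] at h3
      exact LC1_zpow hK hz (LC1_tab i j).2 (LC1_tab j i).2 h3

/-- the number of roots of unity -/
theorem LC1_card (hK : Ok K) : Nat.card {u : Kˣ // u ^ rr K = 1} = rr K := by
  obtain ⟨z, hz, hz2⟩ := ok_gen hK
  have hp := LC1_pow hK hz
  have h3 := LC1_rr_ge hK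
  have e : Fin (rr K) ≃ {u : Kˣ // u ^ rr K = 1} := by
    apply Equiv.ofBijective (fun k : Fin (rr K) => (⟨(z ^ 2) ^ (k : ℕ), by
      rw [← pow_mul, mul_comm, pow_mul, hp, one_pow]⟩ : {u : Kˣ // u ^ rr K = 1}))
    constructor
    · intro a b hab
      have h1 := congrArg Subtype.val hab
      simp only at h1
      rw [← pow_mul, ← pow_mul] at h1
      have ha : 2 * (a : ℕ) < orderOf z := by
        rw [hz, LC1_two_rr hK]
        have := a.2
        omega
      have hb : 2 * (b : ℕ) < orderOf z := by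
        rw [hz, LC1_two_rr hK]
        have := b.2
        omega
      have h2 := pow_injOn_Iio_orderOf ha hb h1
      apply Fin.ext
      omega
    · rintro ⟨u, hu⟩
      obtain ⟨k, hk, rfl⟩ := hz2 u
      rw [← pow_mul] at hu
      have h4 := orderOf_dvd_of_pow_eq_one hu
      rw [hz, LC1_two_rr hK] at h4
      have h5 : 2 ∣ k := Nat.dvd_of_mul_dvd_mul_right (by omega) h4
      obtain ⟨l, rfl⟩ := h5
      rw [LC1_two_rr hK] at hk
      refine ⟨⟨l, by omega⟩, ?_⟩
      apply Subtype.ext
      exact (pow_mul z 2 l).symm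
  rw [← Nat.card_congr e, Nat.card_fin]

/-- the number of elements of order dividing `r` in the torus -/
theorem ok_card_r (hK : Ok K) : Nat.card {t : TT K // (t : EE K) ^ rr K = 1} = rr K ^ 2 := by
  have e : {u : Kˣ // u ^ rr K = 1} × {u : Kˣ // u ^ rr K = 1} ≃
      {t : TT K // (t : EE K) ^ rr K = 1} := by
    apply Equiv.ofBijective (fun p => (⟨⟨tor (p.1.1, p.2.1), tor_mem_TT _⟩, by
      show tor (p.1.1, p.2.1) ^ rr K = 1
      rw [← map_pow, Prod.pow_mk, p.1.2, p.2.2]
      exact map_one _⟩ : {t : TT K // (t : EE K) ^ rr K = 1}))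
    constructor
    · rintro ⟨⟨a, ha⟩, ⟨b, hb⟩⟩ ⟨⟨c, hc⟩, ⟨d, hd⟩⟩ hab
      have h1 := congrArg (fun t : {t : TT K // (t : EE K) ^ rr K = 1} => (t.1 : EE K)) hab
      simp only at h1
      have h2 := tor_inj h1
      have h3 := congrArg Prod.fst h2
      have h4 := congrArg Prod.snd h2
      simp only at h3 h4
      subst h3
      subst h4
      rfl
    · rintro ⟨⟨t, ht⟩, h1⟩
      obtain ⟨s, hs⟩ := ht
      have h2 : s ^ rr K = 1 := by
        apply tor_inj
        rw [map_pow, hs, map_one]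
        exact h1
      refine ⟨(⟨s.1, congrArg Prod.fst h2⟩, ⟨s.2, congrArg Prod.snd h2⟩), ?_⟩
      apply Subtype.ext
      apply Subtype.ext
      exact hs
  rw [← Nat.card_congr e, Nat.card_prod, LC1_card hK, sq]

end Pool.Agent.H40.GT
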