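import Pool.Agent.H40.GT.LC1

/-!
# Part LC2 (of LC1, LC2); GT-05 Lemma C': `g T g⁻¹ ≤ N(T)` implies `g ∈ N(T)`

`p = 11` (`m = 10`): for `a = g t g⁻¹` with `t ^ 5 = 1`: `a ∈ NN`, `a = a ^ 6`, and the image of `a`
in the group of the linear parts `w` (order divides 12, `Mon_perm`: a permutation of three points
and a sign) satisfies `w ^ 5 = 1`, `w ^ 12 = 1`, so `w = 1`, `a ∈ TT` (`Mon_one`).  By counting
(`25` elements with fifth power `1` on both sides; `t ↦ g t g⁻¹` is injective) every `t' ∈ TT` with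
`t' ^ 5 = 1` is `g t g⁻¹` for such a `t`.  `TT` is abelian, so `g TT g⁻¹` commutes with all these
`t'` and is in `TT` by `ok_centr` (the seven weights are distinct modulo 5).  So `g t g⁻¹ ∈ TT` for
all `t ∈ TT`, and `ok_norm` gives `g ∈ NN`.

`p = 7` (`m = 6`): the same with `3` in place of `5` if all `a = g t g⁻¹`, `t ^ 3 = 1`, are in
`TT`.  Suppose some `a = g t g⁻¹` with `t ^ 3 = 1` is not in `TT`.  Its linear part `w` satisfies
`w ^ 3 = 1`, `w ≠ 1`, so it permutes the three weights `wt 1, wt 2, wt 3` cyclically (sign `1`),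
so it permutes the three involutions `tor (1,-1), tor (-1,1), tor (-1,-1)` of `TT` cyclically
and fixes none of them.  For each of the three involutions `i = g e g⁻¹` (`e ∈ TT` an
involution), `i ∈ NN` commutes with `a`; so its linear part commutes with the 3-cycle and has
square one: it is `1` or `-1`.  If it is `1` then `i ∈ TT` is an involution commuting with `a`:
contradiction.  So the linear part is `-1` for all three, but the product of two of them is
the third: contradiction.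

`ok_centr`: `g ∈ GG` commuting with all `t ∈ TT`, `t ^ r = 1`, where `r = 3` (`p = 7`),
`r = 5` (`p = 11`): if `g (ev j)` has a nonzero coordinate `i ≠ j` then `wt i` and `wt j` agree on
all `tor (z^a, z^b)`, `z` of order `r`; so `wt i = wt j` mod `r`, impossible by a finite check.
So `g` fixes the coordinate lines: `diag_mem_TT`.
-/

namespace Pool.Agent.H40.GT

variable {K : Type} [Field K]

/-- the permutation of the seven coordinate lines belonging to a permutation of three points and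
a sign -/
def LC2_Sg (q : Equiv.Perm (Fin 3) × ℤˣ) : Fin 7 → Fin 7 :=
  ![0, if q.2 = 1 then ![1, 2, 3] (q.1 0) else ![4, 5, 6] (q.1 0),
    if q.2 = 1 then ![1, 2, 3] (q.1 1) else ![4, 5, 6] (q.1 1),
    if q.2 = 1 then ![1, 2, 3] (q.1 2) else ![4, 5, 6] (q.1 2),
    if q.2 = 1 then ![4, 5, 6] (q.1 0) else ![1, 2, 3] (q.1 0),
    if q.2 = 1 then ![4, 5, 6] (q.1 1) else ![1, 2, 3] (q.1 1),
    if q.2 = 1 then ![4, 5, 6] (q.1 2) else ![1, 2, 3] (q.1 2)]

theorem LC2_Sg_mul : ∀ q q' : Equiv.Perm (Fin 3) × ℤˣ, ∀ j,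
    LC2_Sg (q * q') j = LC2_Sg q (LC2_Sg q' j) := by
  decide

theorem LC2_Sg_one : ∀ j, LC2_Sg 1 j = j := by
  decide

theorem LC2_Sg_inj : ∀ q q' : Equiv.Perm (Fin 3) × ℤˣ, (∀ j, LC2_Sg q j = LC2_Sg q' j) →
    q = q' := by
  decide

set_option maxRecDepth 10000 in
theorem LC2_f5 : ∀ π : Equiv.Perm (Fin 3), π * π * (π * π) * π = 1 → π = 1 := by
  decide

theorem LC2_f3' : ∀ π π' : Equiv.Perm (Fin 3),
    π * π * π ≠ 1 ∨ π = 1 ∨ π' * π' ≠ 1 ∨ π * π' ≠ π' * π ∨ π' = 1 := by
  intro π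
  fin_cases π <;> decide

theorem LC2_f3 (π π' : Equiv.Perm (Fin 3)) (h1 : π * π * π = 1) (h2 : π ≠ 1) (h3 : π' * π' = 1)
    (h4 : π * π' = π' * π) : π' = 1 := by
  rcases LC2_f3' π π' with h | h | h | h | h
  · exact absurd h1 h
  · exact absurd h h2
  · exact absurd h3 h
  · exact absurd h4 h
  · exact h

theorem LC2_five (q : Equiv.Perm (Fin 3) × ℤˣ) (h : q ^ 5 = 1) : q = 1 := by
  obtain ⟨π, ε⟩ := q
  have h1 : π ^ 5 = 1 := congrArg Prod.fst h
  have h2 : ε ^ 5 = 1 := congrArg Prod.snd h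
  have h3 : π = 1 := by
    apply LC2_f5
    rw [← h1]
    simp only [pow_succ, pow_zero, one_mul, mul_assoc]
  have h4 : ε = 1 := by
    rcases Int.units_eq_one_or ε with h | h
    · exact h
    · rw [h] at h2
      exact absurd h2 (by decide)
  rw [h3, h4]
  rfl

theorem LC2_eps (q : Equiv.Perm (Fin 3) × ℤˣ) (h3 : q ^ 3 = 1) (h1 : q ≠ 1) :
    ∃ π : Equiv.Perm (Fin 3), q = (π, 1) ∧ π * π * π = 1 ∧ π ≠ 1 := by
  obtain ⟨π, ε⟩ := q
  have e1 : π ^ 3 = 1 := congrArg Prod.fst h3
  have e2 : ε ^ 3 = 1 := congrArg Prod.snd h3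
  have e4 : ε = 1 := by
    rcases Int.units_eq_one_or ε with h | h
    · exact h
    · rw [h] at e2
      exact absurd e2 (by decide)
  refine ⟨π, by rw [e4], ?_, ?_⟩
  · rw [← e1]
    simp only [pow_succ, pow_zero, one_mul]
  · intro h
    apply h1
    rw [h, e4]
    rfl

theorem LC2_g3 : ∀ π : Equiv.Perm (Fin 3), π * π * π = 1 → π ≠ 1 →
    (LC2_Sg (π, 1) 1 = 2 ∧ LC2_Sg (π, 1) 2 = 3) ∨ (LC2_Sg (π, 1) 1 = 3 ∧ LC2_Sg (π, 1) 3 = 2) := by
  decide

theorem LC2_three (q : Equiv.Perm (Fin 3) × ℤˣ) (h3 : q ^ 3 = 1) (h1 : q ≠ 1) :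
    (LC2_Sg q 1 = 2 ∧ LC2_Sg q 2 = 3) ∨ (LC2_Sg q 1 = 3 ∧ LC2_Sg q 3 = 2) := by
  obtain ⟨π, rfl, e1, e2⟩ := LC2_eps q h3 h1
  exact LC2_g3 π e1 e2

theorem LC2_comm (q : Equiv.Perm (Fin 3) × ℤˣ) (h3 : q ^ 3 = 1) (h1 : q ≠ 1)
    (q' : Equiv.Perm (Fin 3) × ℤˣ) (h2 : q' * q' = 1) (h4 : q * q' = q' * q) :
    q' = 1 ∨ q' = (1, -1) := by
  obtain ⟨π, rfl, e1, e2⟩ := LC2_eps q h3 h1
  obtain ⟨π', ε'⟩ := q'
  have f1 : π' * π' = 1 := congrArg Prod.fst h2
  have f2 : π * π' = π' * π := congrArg Prod.fst h4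
  have f3 := LC2_f3 π π' e1 e2 f1 f2
  rcases Int.units_eq_one_or ε' with h | h
  · left
    rw [f3, h]
    rfl
  · right
    rw [f3, h]

/-- `b` permutes the coordinate lines by `q` -/
def LC2_P (b : EE K) (q : Equiv.Perm (Fin 3) × ℤˣ) : Prop :=
  ∀ j, ∃ c : K, c ≠ 0 ∧ b (ev j) = c • ev (LC2_Sg q j)

theorem LC2_ev_inj {c d : K} {i j : Fin 7} (hc : c ≠ 0) (h : c • (ev i : V K) = d • ev j) :
    i = j := by
  by_contra hij
  have h1 := congrFun h i
  rw [Pi.smul_apply, Pi.smul_apply, ev_same, ev_ne hij, smul_zero, smul_eq_mul, mul_one] at h1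
  exact hc h1

theorem LC2_P_mul {a b : EE K} {q q' : Equiv.Perm (Fin 3) × ℤˣ} (ha : LC2_P a q)
    (hb : LC2_P b q') : LC2_P (a * b) (q * q') := by
  intro j
  obtain ⟨c, hc, h1⟩ := hb j
  obtain ⟨d, hd, h2⟩ := ha (LC2_Sg q' j)
  refine ⟨c * d, mul_ne_zero hc hd, ?_⟩
  rw [LinearEquiv.mul_apply, h1, map_smul, h2, smul_smul, LC2_Sg_mul]

theorem LC2_P_one : LC2_P (1 : EE K) 1 := by
  intro j
  refine ⟨1, one_ne_zero, ?_⟩
  rw [LC2_Sg_one, one_smul]
  rfl

theorem LC2_P_unique {a : EE K} {q q' : Equiv.Perm (Fin 3) × ℤˣ} (ha : LC2_P a q)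
    (hb : LC2_P a q') : q = q' := by
  apply LC2_Sg_inj
  intro j
  obtain ⟨c, hc, h1⟩ := ha j
  obtain ⟨d, hd, h2⟩ := hb j
  exact LC2_ev_inj hc (h1.symm.trans h2)

theorem LC2_P_pow {a : EE K} {q : Equiv.Perm (Fin 3) × ℤˣ} (ha : LC2_P a q) (n : ℕ) :
    LC2_P (a ^ n) (q ^ n) := by
  induction n with
  | zero => rw [pow_zero, pow_zero]; exact LC2_P_one
  | succ n ih => rw [pow_succ, pow_succ]; exact LC2_P_mul ih ha

theorem LC2_ex (h2 : (2 : K) ≠ 0) {b : EE K} (hb : b ∈ NN K) : ∃ q, LC2_P b q := by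
  obtain ⟨w, σ, τ, h⟩ := NN_mon h2 hb
  obtain ⟨π, ε, hε, hw⟩ := Mon_perm h2 hb h
  have hwt : ∀ i : Fin 3, wt (![4, 5, 6] i) = -wt (![1, 2, 3] i) := by decide
  have hw' : ∀ i : Fin 3, w (wt (![4, 5, 6] i)) = -(ε • wt (![1, 2, 3] (π i))) := by
    intro i
    rw [hwt, map_neg, hw]
  have h0 : σ 0 = 0 := by
    apply wt_inj
    rw [h.mwt]
    have : wt 0 = 0 := rfl
    rw [this, map_zero]
  have key : ∀ q : Equiv.Perm (Fin 3) × ℤˣ, (∀ i : Fin 3,
      σ (![1, 2, 3] i) = (if q.2 = 1 then ![1, 2, 3] (q.1 i) else ![4, 5, 6] (q.1 i)) ∧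
      σ (![4, 5, 6] i) = (if q.2 = 1 then ![4, 5, 6] (q.1 i) else ![1, 2, 3] (q.1 i))) →
      LC2_P b q := by
    intro q hq j
    obtain ⟨c, hc, hj⟩ := h.mev j
    refine ⟨c, hc, ?_⟩
    rw [hj]
    congr 2
    have e0 := hq 0
    have e1 := hq 1
    have e2 := hq 2
    fin_cases j
    · exact h0
    · exact e0.1
    · exact e1.1
    · exact e2.1
    · exact e0.2
    · exact e1.2
    · exact e2.2
  rcases hε with hε | hε
  · refine ⟨(π, 1), key _ fun i => ?_⟩
    rw [if_pos rfl, if_pos rfl]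
    constructor
    · apply wt_inj
      rw [h.mwt, hw, hε, one_smul]
    · apply wt_inj
      rw [h.mwt, hw', hε, one_smul, hwt]
  · refine ⟨(π, -1), key _ fun i => ?_⟩
    have hm : ¬ ((-1 : ℤˣ) = 1) := by decide
    rw [if_neg hm, if_neg hm]
    constructor
    · apply wt_inj
      rw [h.mwt, hw, hε, hwt, neg_smul, one_smul]
    · apply wt_inj
      rw [h.mwt, hw', hε, neg_smul, one_smul, neg_neg]

/-- a commuting pair: a 3-cycle and a torus involution -/
theorem LC2_inv {a : EE K} {q : Equiv.Perm (Fin 3) × ℤˣ} (ha : LC2_P a q)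
    (h3 : q ^ 3 = 1) (h1 : q ≠ 1) {b : EE K} (hb : b ∈ TT K) (hab : a * b = b * a)
    (hbb : b * b = 1) : b = 1 := by
  obtain ⟨t, rfl⟩ := hb
  have hc : ∀ j, (ch (wt j) t : K) = (ch (wt (LC2_Sg q j)) t : K) := by
    intro j
    obtain ⟨c, hc, hj⟩ := ha j
    have e := congrArg (fun f : EE K => f (ev j)) hab
    simp only [LinearEquiv.mul_apply] at e
    rw [tor_ev, map_smul, hj, map_smul, tor_ev, smul_smul, smul_smul] at e
    have e2 := congrFun e (LC2_Sg q j)
    rw [Pi.smul_apply, Pi.smul_apply, ev_same, smul_eq_mul, smul_eq_mul, mul_one, mul_one,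
      mul_comm] at e2
    exact mul_left_cancel₀ hc e2
  have h12 : ch (wt 1) t = ch (wt 2) t ∧ ch (wt 2) t = ch (wt 3) t := by
    rcases LC2_three q h3 h1 with h | h
    · have e1 := hc 1
      have e2 := hc 2
      rw [h.1] at e1
      rw [h.2] at e2
      exact ⟨Units.ext e1, Units.ext e2⟩
    · have e1 := hc 1
      have e2 := hc 3
      rw [h.1] at e1
      rw [h.2] at e2
      exact ⟨Units.ext (e1.trans e2), Units.ext e2.symm⟩
  have ht2 : t * t = 1 := by
    apply tor_inj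
    rw [map_mul, map_one]
    exact hbb
  have c1 : ch (wt 1) t = t.1 := by
    show t.1 ^ (1 : ℤ) * t.2 ^ (0 : ℤ) = t.1
    simp
  have c2 : ch (wt 2) t = t.2 := by
    show t.1 ^ (0 : ℤ) * t.2 ^ (1 : ℤ) = t.2
    simp
  have c3 : ch (wt 3) t = t.1⁻¹ * t.2⁻¹ := by
    show t.1 ^ (-1 : ℤ) * t.2 ^ (-1 : ℤ) = t.1⁻¹ * t.2⁻¹
    simp
  rw [c1, c2, c3] at h12
  obtain ⟨e1, e2⟩ := h12
  have f1 : t.1 * t.1 = 1 := congrArg Prod.fst ht2
  have f2 : t.1 = 1 := by
    rw [← e1] at e2
    have : t.1 * (t.1 * t.1) = 1 := by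
      nth_rewrite 1 [e2]
      group
    rwa [f1, mul_one] at this
  have f3 : t = 1 := by
    apply Prod.ext
    · exact f2
    · rw [← e1]; exact f2
  rw [f3, map_one]

theorem lemC (hK : Ok K) {g : EE K} (hg : g ∈ GG K) (h : ∀ t ∈ TT K, g * t * g⁻¹ ∈ NN K) :
    g ∈ NN K := by
  have h2 := ok_two hK
  have hfin := ok_EE_finite hK
  -- the elements of order dividing `r`
  have hA : ∀ t ∈ TT K, t ^ rr K = 1 → g * t * g⁻¹ ∈ TT K := by
    intro t ht htr
    obtain ⟨q, hq⟩ := LC2_ex h2 (h t ht)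
    have hqr : q ^ rr K = 1 := by
      apply LC2_P_unique (LC2_P_pow hq (rr K))
      rw [conj_pow, htr, mul_one, mul_inv_cancel]
      exact LC2_P_one
    have hq1 : q = 1 := by
      rcases rr_eq hK with ⟨-, hr⟩ | ⟨-, hr⟩
      · rw [hr] at hqr
        by_contra hne
        -- all involutions have linear part -1
        have hinv : ∀ e ∈ TT K, e * e = 1 → e ≠ 1 → LC2_P (g * e * g⁻¹) (1, -1) := by
          intro e he hee hne1
          obtain ⟨q', hq'⟩ := LC2_ex h2 (h e he)
          have s1 : q' * q' = 1 := by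
            apply LC2_P_unique (LC2_P_mul hq' hq')
            have : g * e * g⁻¹ * (g * e * g⁻¹) = 1 := by
              calc g * e * g⁻¹ * (g * e * g⁻¹) = g * (e * e) * g⁻¹ := by group
                _ = 1 := by rw [hee]; group
            rw [this]
            exact LC2_P_one
          have hcomm : g * t * g⁻¹ * (g * e * g⁻¹) = g * e * g⁻¹ * (g * t * g⁻¹) := by
            calc g * t * g⁻¹ * (g * e * g⁻¹) = g * (t * e) * g⁻¹ := by group
              _ = g * (e * t) * g⁻¹ := by rw [TT_comm t e ht he]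
              _ = g * e * g⁻¹ * (g * t * g⁻¹) := by group
          have s2 : q * q' = q' * q := by
            apply LC2_P_unique (LC2_P_mul hq hq')
            rw [hcomm]
            exact LC2_P_mul hq' hq
          rcases LC2_comm q hqr hne q' s1 s2 with s3 | s3
          · exfalso
            apply hne1
            have hT : g * e * g⁻¹ ∈ TT K := by
              apply diag_mem_TT h2 (NN_le_GG (h e he))
              intro j
              obtain ⟨c, -, hj⟩ := hq' j
              refine ⟨c, ?_⟩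
              rw [hj, s3, LC2_Sg_one]
            have := LC2_inv hq hqr hne hT hcomm (by
              calc g * e * g⁻¹ * (g * e * g⁻¹) = g * (e * e) * g⁻¹ := by group
                _ = 1 := by rw [hee]; group)
            calc e = g⁻¹ * (g * e * g⁻¹) * g := by group
              _ = 1 := by rw [this]; group
          · rw [s3] at hq'
            exact hq'
        -- three involutions
        have hm1 : (-1 : Kˣ) ≠ 1 := by
          intro h0
          apply h2
          have : (-1 : K) = 1 := by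
            have := congrArg (fun u : Kˣ => (u : K)) h0
            simpa using this
          linear_combination -this
        have hne : ∀ s : Kˣ × Kˣ, s ≠ 1 → tor s ≠ (1 : EE K) := by
          intro s hs h0
          apply hs
          apply tor_inj
          rw [h0, map_one]
        have hI : ∀ s : Kˣ × Kˣ, s * s = 1 → s ≠ 1 → LC2_P (g * tor s * g⁻¹) (1, -1) := by
          intro s hs hs1
          apply hinv _ (tor_mem_TT s)
          · rw [← map_mul, hs, map_one]
          · exact hne s hs1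
        have i1 := hI (-1, 1) (by ext <;> simp) (by
          intro h0
          exact hm1 (congrArg Prod.fst h0))
        have i2 := hI (1, -1) (by ext <;> simp) (by
          intro h0
          exact hm1 (congrArg Prod.snd h0))
        have i3 := hI (-1, -1) (by ext <;> simp) (by
          intro h0
          exact hm1 (congrArg Prod.fst h0))
        have i4 := LC2_P_mul i1 i2
        have i5 : g * tor (-1, 1) * g⁻¹ * (g * tor (1, -1) * g⁻¹) = g * tor (-1, -1) * g⁻¹ := by
          have : (tor (-1, -1) : EE K) = tor (-1, 1) * tor (1, -1) := by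
            rw [← map_mul]
            congr 1
            ext <;> simp
          rw [this]
          group
        rw [i5] at i4
        have i6 := LC2_P_unique i3 i4
        revert i6
        decide
      · rw [hr] at hqr
        exact LC2_five q hqr
    apply diag_mem_TT h2 (NN_le_GG (h t ht))
    intro j
    obtain ⟨c, -, hj⟩ := hq j
    refine ⟨c, ?_⟩
    rw [hj, hq1, LC2_Sg_one]
  -- counting: conjugation by `g` is onto the elements of order dividing `r`
  have hsurj : ∀ s ∈ TT K, s ^ rr K = 1 → ∃ t ∈ TT K, g * t * g⁻¹ = s := by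
    let f : {t : TT K // (t : EE K) ^ rr K = 1} → {t : TT K // (t : EE K) ^ rr K = 1} :=
      fun t => ⟨⟨g * t.1.1 * g⁻¹, hA _ t.1.2 t.2⟩, by
        show (g * t.1.1 * g⁻¹) ^ rr K = 1
        rw [conj_pow, t.2, mul_one, mul_inv_cancel]⟩
    have hf : Function.Injective f := by
      intro a b hab
      have e : g * a.1.1 * g⁻¹ = g * b.1.1 * g⁻¹ :=
        congrArg (fun x : {t : TT K // (t : EE K) ^ rr K = 1} => (x.1.1 : EE K)) hab
      apply Subtype.ext
      apply Subtype.ext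
      exact mul_left_cancel (mul_right_cancel e)
    have hfs : Function.Surjective f := Finite.surjective_of_injective hf
    intro s hs hsr
    obtain ⟨t, ht⟩ := hfs ⟨⟨s, hs⟩, hsr⟩
    refine ⟨t.1.1, t.1.2, ?_⟩
    exact congrArg (fun x : {t : TT K // (t : EE K) ^ rr K = 1} => (x.1.1 : EE K)) ht
  apply ok_norm hK hg
  intro t ht
  apply ok_centr hK (NN_le_GG (h t ht))
  intro s hs hsr
  obtain ⟨t', ht', rfl⟩ := hsurj s hs hsr
  calc g * t * g⁻¹ * (g * t' * g⁻¹) = g * (t * t') * g⁻¹ := by group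
    _ = g * (t' * t) * g⁻¹ := by rw [TT_comm t t' ht ht']
    _ = g * t' * g⁻¹ * (g * t * g⁻¹) := by group

end Pool.Agent.H40.GT
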