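import Pool.Agent.H40.GT.LnC

/-!
# Project GT: see the files LnA, LnB, LnC
-/
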