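import Pool.Agent.H40.GT.Fil
import Pool.Agent.H33.EL.GrpZ

/-!
# GT-10 the Levi part of an element of `F` is in `F`

Let `T ≤ F ≤ GG`, `f = u * l ∈ F`, `u ∈ QD d`, `l ∈ Dg d`.  `H = {hd d c}` is a subgroup of `TT`
of order dividing `(p-1)^2`, prime to `p`.  `l` commutes with `H`, so
`f h f⁻¹ = u h u⁻¹ ∈ F` for `h ∈ H`.  `Q = F ⊓ QD d` is a `p`-group (`QD_p`), normalised by `H`.
`u h u⁻¹ h⁻¹ ∈ F ⊓ QD d = Q`.  Apply `sz_conj` (file GrpZ) with `A = H`, `B = u H u⁻¹`: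
there is `v ∈ Q` with `v h v⁻¹ ∈ u H u⁻¹` for all `h ∈ H`.  `v h v⁻¹ = u h' u⁻¹`; modulo
`QD d` this gives `h = h'` (`QD_inf_Dg`).  So `v⁻¹ u` commutes with `H` and is in
`QD d`; by `Fil_cent` it is in `Dg d`, so it is `1` by `QD_inf_Dg`.  So `u = v ∈ F`.
-/

namespace Pool.Agent.H40.GT

variable {K : Type} [Field K]

theorem Lev_fin [Finite K] : Finite (EE K) := by
  have : Function.Injective (fun g : EE K => (g : V K → V K)) := DFunLike.coe_injective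
  exact Finite.of_injective _ this

theorem Lev_u (hK : Ok K) {d : ℤ × ℤ} (hd6 : ∀ i j, |dg d i - dg d j| < 6)
    {F : Subgroup (EE K)} (hF : Ov F) {u l : EE K} (hu : u ∈ QD K d) (hl : l ∈ Dg K d)
    (hf : u * l ∈ F) : u ∈ F := by
  classical
  have hp : (Nat.card K).Prime := by
    rcases hK with h | h
    · rw [h]
      norm_num
    · rw [h]
      norm_num
  have : Fact (Nat.card K).Prime := ⟨hp⟩
  have hfin : Finite K := Nat.finite_of_card_ne_zero hp.pos.ne'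
  have : Finite (EE K) := Lev_fin
  have hTF := hF.1
  let φ : Kˣ →* EE K := MonoidHom.mk' (hd d) (hd_mul d)
  have hφ : ∀ c, φ c = hd d c := fun c => rfl
  have hhT : ∀ c : Kˣ, hd d c ∈ TT K := fun c => ⟨_, rfl⟩
  have hhD : ∀ c : Kˣ, hd d c ∈ Dg K d := fun c => TT_le_Dg d (hhT c)
  have hhP : ∀ c : Kˣ, hd d c ∈ PD K d := fun c => Dg_le_PD d (hhD c)
  have hcard : ¬ Nat.card K ∣ Nat.card φ.range := by
    intro h
    have h1 : Nat.card φ.range ∣ Nat.card Kˣ := Subgroup.card_range_dvd φ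
    have h2 := Nat.le_of_dvd Nat.card_pos (h.trans h1)
    have h3 : Nat.card Kˣ = Nat.card K - 1 := Nat.card_units K
    have h4 := hp.pos
    omega
  let Q : Subgroup (EE K) := F ⊓ QD K d
  have hQ : IsPGroup (Nat.card K) Q := by
    intro g
    refine ⟨1, ?_⟩
    apply Subtype.ext
    rw [pow_one, Subgroup.coe_pow, Subgroup.coe_one]
    exact QD_p hK g.2.2
  let B : Subgroup (EE K) := φ.range.map (MulAut.conj u).toMonoidHom
  have hcB : Nat.card B = Nat.card φ.range :=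
    Subgroup.card_map_of_injective (MulAut.conj u).injective
  -- conjugates of the one parameter subgroup are in `F`
  have hcF : ∀ c : Kˣ, u * hd d c * u⁻¹ ∈ F := by
    intro c
    have h1 := F.mul_mem (F.mul_mem hf (hTF (hhT c))) (F.inv_mem hf)
    have h2 : u * l * hd d c * (u * l)⁻¹ = u * hd d c * u⁻¹ := by
      rw [mul_assoc u l, Dg_comm_hd hl c]
      group
    rwa [h2] at h1
  have hcom : ∀ c : Kˣ, ∀ w ∈ QD K d, w * hd d c * w⁻¹ * (hd d c)⁻¹ ∈ QD K d := by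
    intro c w hw
    have h1 := (QD K d).mul_mem hw (QD_normal (hhP c) ((QD K d).inv_mem hw))
    have h2 : w * (hd d c * w⁻¹ * (hd d c)⁻¹) = w * hd d c * w⁻¹ * (hd d c)⁻¹ := by
      group
    rwa [h2] at h1
  have hQc : ∀ c : Kˣ, u * hd d c * u⁻¹ * (hd d c)⁻¹ ∈ Q := fun c =>
    ⟨F.mul_mem (hcF c) (F.inv_mem (hTF (hhT c))), hcom c u hu⟩
  obtain ⟨v, hv, hv1, -⟩ := Pool.Agent.H33.EL.sz_conj (p := Nat.card K) Q φ.range B hQ hcard
    (by rw [hcB]; exact hcard)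
    (by
      rintro _ ⟨c, rfl⟩ w hw
      rw [hφ]
      exact ⟨F.mul_mem (F.mul_mem (hTF (hhT c)) hw.1) (F.inv_mem (hTF (hhT c))),
        QD_normal (hhP c) hw.2⟩)
    (by
      rintro _ ⟨_, ⟨c, rfl⟩, rfl⟩
      refine ⟨_, hQc c, _, ⟨c, rfl⟩, ?_⟩
      rw [hφ]
      show u * hd d c * u⁻¹ = _
      group)
    (by
      rintro _ ⟨c, rfl⟩
      refine ⟨_, Q.inv_mem (hQc c), _, ⟨_, ⟨c, rfl⟩, rfl⟩, ?_⟩
      rw [hφ]
      show hd d c = (u * hd d c * u⁻¹ * (hd d c)⁻¹)⁻¹ * (u * hd d c * u⁻¹)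
      group)
  have hw : u⁻¹ * v ∈ QD K d := (QD K d).mul_mem ((QD K d).inv_mem hu) hv.2
  have hwc : ∀ c : Kˣ, (u⁻¹ * v) * hd d c = hd d c * (u⁻¹ * v) := by
    intro c
    obtain ⟨_, ⟨c', rfl⟩, hc'⟩ := hv1 (φ c) ⟨c, rfl⟩
    rw [hφ, hφ] at hc'
    have h0 : u * hd d c' * u⁻¹ = v * hd d c * v⁻¹ := hc'
    have h1 : (u⁻¹ * v) * hd d c * (u⁻¹ * v)⁻¹ = hd d c' := by
      have h2 : (u⁻¹ * v) * hd d c * (u⁻¹ * v)⁻¹ = u⁻¹ * (v * hd d c * v⁻¹) * u := by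
        group
      rw [h2, ← h0]
      group
    have h3 := hcom c _ hw
    rw [h1] at h3
    have h4 := QD_inf_Dg h3 ((Dg K d).mul_mem (hhD c') ((Dg K d).inv_mem (hhD c)))
    rw [mul_inv_eq_one.1 h4] at h1
    exact (mul_inv_eq_iff_eq_mul.1 h1)
  have hwG : u⁻¹ * v ∈ GG K := (QD_le_PD d hw).1
  have h5 := QD_inf_Dg hw (Fil_cent hK hd6 hwG hwc)
  have h6 : u = v := by
    rw [inv_mul_eq_one] at h5
    exact h5
  rw [h6]
  exact hv.1

theorem Lev_l (hK : Ok K) {d : ℤ × ℤ} (hd6 : ∀ i j, |dg d i - dg d j| < 6)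
    {F : Subgroup (EE K)} (hF : Ov F) {u l : EE K} (hu : u ∈ QD K d) (hl : l ∈ Dg K d)
    (hf : u * l ∈ F) : l ∈ F := by
  have h := Lev_u hK hd6 hF hu hl hf
  have h1 := F.mul_mem (F.inv_mem h) hf
  rwa [inv_mul_cancel_left] at h1

end Pool.Agent.H40.GT
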