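import Pool.Agent.H40.GT.Der
import Pool.Agent.H40.GT.StdP

/-!
# Part LgA1 (of LgA1, LgA2); GT-60 long root elements: linear algebra

`lr g r = g ∘ Nl r ∘ g⁻¹` (for `g : EE K`), `tf A B = trace (A ∘ B)`.
`r` long (`r.val < 6`): `Ql r = 0`, so `X r s = 1 + s • Nl r`, `Nl r ∘ Nl r = 0` (`Nl_Nl`), the kernel of
`Nl r` is the orthogonal space (`bf`) of its range `ln r`, of dimension 2.

* `skew_ln`: a skew map `A` (`bf (A x) y + bf x (A y) = 0`) with range in `ln r` is a multiple of `Nl r`: for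
  `r = 0`: `ln 0 = ⟨e_1, e_-2⟩`; `bf (A x) y = - bf x (A y) = 0` for `x ∈ (ln 0)^⊥`, so `A` vanishes on
  `e_1, e_-2, e_0, e_3, e_-3`; `A e_2 = α e_1 + β e_-2`, `bf (A e_2) e_2 = β = 0` (`2 ≠ 0`); `A e_-1 = γ e_1 + δ e_-2`,
  `γ = 0`, and `bf (A e_2) e_-1 + bf e_2 (A e_-1) = α + δ = 0`: `A = α • Nl 0`.  The other long roots:
  the same with the tables (or conjugate by `NN_long`).
* `aba`: `A = lr g r`, `B` skew: `A B A = (tf A B / 2) A`, i.e. `2 A B A = tf A B • A`: it is enough to take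
  `g = 1` (conjugate; the trace is invariant), `r` long; `Nl r B Nl r` is skew with range in `ln r`, so it
  is `λ • Nl r`; for `r = 0`: `λ = (B e_1)_2` and `(B e_-2)_4 = -λ` (coordinates `2`, `4` = coefficients of `e_2`,
  `e_-1`), and `trace (Nl 0 B) = (B e_1)_2 - (B e_-2)_4 = 2 λ`.
* `lr_X`: `g * X r s * g⁻¹ = 1 + s • lr g r`.
-/

namespace Pool.Agent.H40.GT

variable {K : Type} [Field K]

/-- endomorphisms of the module -/
abbrev LM (K : Type) [Field K] : Type := V K →ₗ[K] V K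

/-- conjugates of root vectors -/
def lr (g : EE K) (r : Rt) : LM K :=
  (g : V K →ₗ[K] V K) ∘ₗ Nl r ∘ₗ ((g⁻¹ : EE K) : V K →ₗ[K] V K)

/-- the trace form -/
noncomputable def tf (A B : LM K) : K := LinearMap.trace K (V K) (A ∘ₗ B)

theorem lr_apply (g : EE K) (r : Rt) (x : V K) : lr g r x = g (Nl r (g⁻¹ x)) := rfl

theorem lr_one (r : Rt) : lr (1 : EE K) r = Nl r := by
  apply LinearMap.ext
  intro x
  rw [lr_apply, inv_one]
  rfl

theorem lr_mul (g h : EE K) (r : Rt) : lr (g * h) r =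
    (g : V K →ₗ[K] V K) ∘ₗ lr h r ∘ₗ ((g⁻¹ : EE K) : V K →ₗ[K] V K) := by
  apply LinearMap.ext
  intro x
  rw [lr_apply, mul_inv_rev]
  rfl

theorem tf_comm (A B : LM K) : tf A B = tf B A := by
  unfold tf
  exact (LinearMap.trace_comp_comm' A B).symm

theorem EE_inv_apply (g : EE K) (x : V K) : g⁻¹ (g x) = x := g.symm_apply_apply x

theorem EE_apply_inv (g : EE K) (x : V K) : g (g⁻¹ x) = x := g.apply_symm_apply x

theorem tf_conj (g : EE K) (A B : LM K) :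
    tf ((g : V K →ₗ[K] V K) ∘ₗ A ∘ₗ ((g⁻¹ : EE K) : V K →ₗ[K] V K))
      ((g : V K →ₗ[K] V K) ∘ₗ B ∘ₗ ((g⁻¹ : EE K) : V K →ₗ[K] V K)) = tf A B := by
  unfold tf
  have h1 : ((g : V K →ₗ[K] V K) ∘ₗ A ∘ₗ ((g⁻¹ : EE K) : V K →ₗ[K] V K)) ∘ₗ
      ((g : V K →ₗ[K] V K) ∘ₗ B ∘ₗ ((g⁻¹ : EE K) : V K →ₗ[K] V K)) =
      (g : V K →ₗ[K] V K) ∘ₗ ((A ∘ₗ B) ∘ₗ ((g⁻¹ : EE K) : V K →ₗ[K] V K)) := by
    apply LinearMap.ext
    intro x
    show g (A (g⁻¹ (g (B (g⁻¹ x))))) = g (A (B (g⁻¹ x)))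
    rw [EE_inv_apply]
  have h2 : ((A ∘ₗ B) ∘ₗ ((g⁻¹ : EE K) : V K →ₗ[K] V K)) ∘ₗ (g : V K →ₗ[K] V K) = A ∘ₗ B := by
    apply LinearMap.ext
    intro x
    show A (B (g⁻¹ (g x))) = A (B x)
    rw [EE_inv_apply]
  rw [h1, LinearMap.trace_comp_comm', h2]

theorem lr_IsD {g : EE K} (hg : g ∈ GG K) (r : Rt) : IsD (lr g r) := by
  have hi : g⁻¹ ∈ GG K := inv_mem hg
  refine ⟨fun x y => ?_, fun x y => ?_⟩
  · rw [lr_apply, lr_apply, lr_apply, hi.1, Nl_br, map_add, hg.1, hg.1, EE_apply_inv,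
      EE_apply_inv]
  · have h1 : bf (g (Nl r (g⁻¹ x))) y = bf (Nl r (g⁻¹ x)) (g⁻¹ y) := by
      rw [← hg.2 (Nl r (g⁻¹ x)) (g⁻¹ y), EE_apply_inv]
    have h2 : bf x (g (Nl r (g⁻¹ y))) = bf (g⁻¹ x) (Nl r (g⁻¹ y)) := by
      rw [← hg.2 (g⁻¹ x) (Nl r (g⁻¹ y)), EE_apply_inv]
    rw [lr_apply, lr_apply, h1, h2]
    exact Nl_bf r _ _

theorem Ql_long {r : Rt} (hr : r.val < 6) (x : V K) : Ql r x = 0 := by
  ext i
  rw [Ql_apply, Pi.zero_apply]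
  have h : ∀ r : Rt, r.val < 6 → ∀ i : Fin 7, qc r i = 0 := by decide
  rw [h r hr i]
  simp

theorem Nl_sq {r : Rt} (hr : r.val < 6) (x : V K) : Nl r (Nl r x) = 0 := by
  rw [Nl_Nl, Ql_long hr, smul_zero]

theorem lr_sq (g : EE K) {r : Rt} (hr : r.val < 6) (x : V K) : lr g r (lr g r x) = 0 := by
  rw [lr_apply, lr_apply, EE_inv_apply, Nl_sq hr, map_zero]

theorem lr_ne (h2 : (2 : K) ≠ 0) (g : EE K) (r : Rt) : lr g r ≠ 0 := by
  intro h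
  have h1 : ∀ x, Nl r x = (0 : V K) := by
    intro x
    have h3 : lr g r (g x) = 0 := by rw [h]; rfl
    rw [lr_apply, EE_inv_apply] at h3
    exact g.injective (by rw [h3, map_zero])
  have h4 : ∀ r : Rt, ∃ i : Fin 7, cc r i = 1 ∨ cc r i = -1 := by decide
  obtain ⟨i, hi⟩ := h4 r
  have h5 := congrFun (h1 (ev (sc r i))) i
  rw [Nl_apply, ev_same, mul_one, Pi.zero_apply] at h5
  rcases hi with hi | hi
  · rw [hi] at h5
    simp at h5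
  · rw [hi] at h5
    simp at h5

theorem lr_X (g : EE K) {r : Rt} (hr : r.val < 6) (s : K) (x : V K) :
    (g * X r s * g⁻¹) x = x + s • lr g r x := by
  rw [LinearEquiv.mul_apply, LinearEquiv.mul_apply, lr_apply]
  have h1 : X r s (g⁻¹ x) = g⁻¹ x + s • Nl r (g⁻¹ x) + s ^ 2 • Ql r (g⁻¹ x) := rfl
  rw [h1, Ql_long hr, smul_zero, add_zero, map_add, map_smul, EE_apply_inv]

end Pool.Agent.H40.GT
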