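import Pool.Agent.H40.GT.LgA1

/-!
# Part LgA2 (of LgA1, LgA2); GT-60 long root elements: linear algebra

`lr g r = g ∘ Nl r ∘ g⁻¹` (for `g : EE K`), `tf A B = trace (A ∘ B)`.
`r` long (`r.val < 6`): `Ql r = 0`, so `X r s = 1 + s • Nl r`, `Nl r ∘ Nl r = 0` (`Nl_Nl`), the kernel of
`Nl r` is the orthogonal space (`bf`) of its range `ln r`, of dimension 2.

* `skew_ln`: a skew map `A` (`bf (A x) y + bf x (A y) = 0`) with range in `ln r` is a multiple of `Nl r`: for
  `r = 0`: `ln 0 = ⟨e_1, e_-2⟩`; `bf (A x) y = - bf x (A y) = 0` for `x ∈ (ln 0)^⊥`, so `A` vanishes on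
  `e_1, e_-2, e_0, e_3, e_-3`; `A e_2 = α e_1 + β e_-2`, `bf (A e_2) e_2 = β = 0` (`2 ≠ 0`); `A e_-1 = γ e_1 + δ e_-2`,
  `γ = 0`, and `bf (A e_2) e_-1 + bf e_2 (A e_-1) = α + δ = 0`: `A = α • Nl 0`.  The other long roots:
  the same with the tables (or conjugate by `NN_long`).
* `aba`: `A = lr g r`, `B` skew: `A B A = (tf A B / 2) A`, i.e. `2 A B A = tf A B • A`: it is enough to take
  `g = 1` (conjugate; the trace is invariant), `r` long; `Nl r B Nl r` is skew with range in `ln r`, so it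
  is `λ • Nl r`; for `r = 0`: `λ = (B e_1)_2` and `(B e_-2)_4 = -λ` (coordinates `2`, `4` = coefficients of `e_2`,
  `e_-1`), and `trace (Nl 0 B) = (B e_1)_2 - (B e_-2)_4 = 2 λ`.
* `lr_X`: `g * X r s * g⁻¹ = 1 + s • lr g r`.
-/

namespace Pool.Agent.H40.GT

variable {K : Type} [Field K]

theorem LM_ext {A B : LM K} (H : ∀ j i, A (ev j) i = B (ev j) i) : A = B := by
  apply (Pi.basisFun K (Fin 7)).ext
  intro j
  rw [Pi.basisFun_apply]
  ext i
  exact H j i

/-- opposite coordinates -/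
def nj : Fin 7 → Fin 7 := ![0, 4, 5, 6, 1, 2, 3]

/-- the form against coordinate vectors -/
theorem bf_evr (v : V K) {j : Fin 7} (hj : j ≠ 0) : bf v (ev j) = v (nj j) := by
  have h : ∀ i : Fin 7, (ev j : V K) i = if i = j then 1 else 0 := by
    intro i
    unfold ev
    rw [Pi.single_apply]
  unfold bf
  simp only [h]
  fin_cases j
  · exact absurd rfl hj
  all_goals simp [nj]

theorem bf_evl (v : V K) {j : Fin 7} (hj : j ≠ 0) : bf (ev j) v = v (nj j) := by
  rw [← bf_evr v hj]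
  unfold bf
  ring

theorem bf_ev0r (v : V K) : bf v (ev 0) = 2 * v 0 := by
  have h : ∀ i : Fin 7, (ev 0 : V K) i = if i = 0 then 1 else 0 := by
    intro i
    unfold ev
    rw [Pi.single_apply]
  unfold bf
  simp [h]

theorem bf_ev0l (v : V K) : bf (ev 0) v = 2 * v 0 := by
  rw [← bf_ev0r v]
  unfold bf
  ring

/-- the two rows of a long root vector -/
def iA : Rt → Fin 7 := ![1, 2, 1, 3, 2, 3, 0, 0, 0, 0, 0, 0]
/-- the two rows of a long root vector -/
def iB : Rt → Fin 7 := ![5, 4, 6, 4, 6, 5, 0, 0, 0, 0, 0, 0]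
/-- the two columns of a long root vector -/
def sA : Rt → Fin 7 := ![2, 1, 3, 1, 3, 2, 0, 0, 0, 0, 0, 0]
/-- the two columns of a long root vector -/
def sB : Rt → Fin 7 := ![4, 5, 4, 6, 5, 6, 0, 0, 0, 0, 0, 0]

theorem tabAB : ∀ r : Rt, r.val < 6 → nj (iA r) = sB r ∧ nj (iB r) = sA r ∧ nj (sA r) = iB r ∧
    nj (sB r) = iA r ∧ sA r ≠ 0 ∧ sB r ≠ 0 ∧ iA r ≠ 0 ∧ iB r ≠ 0 ∧ iA r ≠ iB r ∧ sA r ≠ sB r ∧
    sc r (iA r) = sA r ∧ sc r (iB r) = sB r ∧ cc r (iA r) = 1 ∧ cc r (iB r) = -1 ∧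
    ∀ i, i ≠ iA r → i ≠ iB r → cc r i = 0 := by
  decide

theorem nj_nj : ∀ j : Fin 7, nj (nj j) = j := by
  decide

theorem nj_zero : ∀ j : Fin 7, j ≠ 0 → nj j ≠ 0 := by
  decide

theorem skew_ln (h2 : (2 : K) ≠ 0) {r : Rt} (hr : r.val < 6) {A : LM K}
    (hA : ∀ x y, bf (A x) y + bf x (A y) = 0)
    (h : ∀ x, A x ∈ (ln r : Submodule K (V K))) : ∃ c : K, A = c • Nl r := by
  obtain ⟨n1, n2, n3, n4, s1, s2, i1, i2, ii, ss, c1, c2, c3, c4, c5⟩ := tabAB r hr
  have hz : ∀ j i, i ≠ iA r → i ≠ iB r → A (ev j) i = 0 := by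
    intro j i h3 h4
    obtain ⟨y, hy⟩ := h (ev j)
    rw [← hy, Nl_apply, c5 i h3 h4]
    simp
  have e0 : ∀ j, A (ev j) 0 = 0 := fun j => hz j 0 (Ne.symm i1) (Ne.symm i2)
  have key : ∀ j k, k ≠ 0 → A (ev j) (nj k) = if j = 0 then 0 else - A (ev k) (nj j) := by
    intro j k hk
    have h3 := hA (ev j) (ev k)
    rw [bf_evr _ hk] at h3
    by_cases hj : j = 0
    · subst hj
      rw [bf_ev0l, e0, mul_zero, add_zero] at h3
      rw [h3, if_pos rfl]
    · rw [bf_evl _ hj] at h3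
      rw [if_neg hj]
      exact eq_neg_of_add_eq_zero_left h3
  -- the entries in row `iA`
  have rA : ∀ j, j ≠ sA r → A (ev j) (iA r) = 0 := by
    intro j hj
    have h3 := key j (sB r) s2
    rw [n4] at h3
    by_cases h0 : j = 0
    · rw [h3, if_pos h0]
    · rw [if_neg h0] at h3
      by_cases h4 : j = sB r
      · rw [h4, n4] at h3
        have h5 : (2 : K) * A (ev (sB r)) (iA r) = 0 := by linear_combination h3
        rw [h4]
        exact (mul_eq_zero.mp h5).resolve_left h2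
      · have h6 : A (ev (sB r)) (nj j) = 0 := by
          apply hz
          · intro h7
            exact h4 (by rw [← nj_nj j, h7, n1])
          · intro h7
            exact hj (by rw [← nj_nj j, h7, n2])
        rw [h3, h6, neg_zero]
  have rB : ∀ j, j ≠ sB r → A (ev j) (iB r) = 0 := by
    intro j hj
    have h3 := key j (sA r) s1
    rw [n3] at h3
    by_cases h0 : j = 0
    · rw [h3, if_pos h0]
    · rw [if_neg h0] at h3
      by_cases h4 : j = sA r
      · rw [h4, n3] at h3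
        have h5 : (2 : K) * A (ev (sA r)) (iB r) = 0 := by linear_combination h3
        rw [h4]
        exact (mul_eq_zero.mp h5).resolve_left h2
      · have h6 : A (ev (sA r)) (nj j) = 0 := by
          apply hz
          · intro h7
            exact hj (by rw [← nj_nj j, h7, n1])
          · intro h7
            exact h4 (by rw [← nj_nj j, h7, n2])
        rw [h3, h6, neg_zero]
  have rAB : A (ev (sA r)) (iA r) = - A (ev (sB r)) (iB r) := by
    have h3 := key (sA r) (sB r) s2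
    rw [n4, if_neg s1, n3] at h3
    exact h3
  refine ⟨A (ev (sA r)) (iA r), LM_ext fun j i => ?_⟩
  rw [LinearMap.smul_apply, Pi.smul_apply, Nl_apply, smul_eq_mul]
  by_cases h3 : i = iA r
  · subst h3
    rw [c3, c1]
    by_cases h4 : j = sA r
    · rw [h4, ev_same]
      simp
    · rw [rA j h4, ev_ne (Ne.symm h4)]
      simp
  · by_cases h5 : i = iB r
    · subst h5
      rw [c4, c2]
      by_cases h4 : j = sB r
      · rw [h4, ev_same, rAB]
        simp
      · rw [rB j h4, ev_ne (Ne.symm h4)]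
        simp
    · rw [hz j i h3 h5, c5 i h3 h5]
      simp

theorem tf_sum (A B : LM K) : tf A B = ∑ j, A (B (ev j)) j := by
  unfold tf
  rw [LinearMap.trace_eq_matrix_trace K (Pi.basisFun K (Fin 7)), Matrix.trace]
  apply Finset.sum_congr rfl
  intro j _
  rw [Matrix.diag_apply, LinearMap.toMatrix_apply, Pi.basisFun_apply, Pi.basisFun_repr]
  rfl

theorem Nl_long {r : Rt} (hr : r.val < 6) (x : V K) :
    Nl r x = x (sA r) • ev (iA r) - x (sB r) • ev (iB r) := by
  obtain ⟨n1, n2, n3, n4, s1, s2, i1, i2, ii, ss, c1, c2, c3, c4, c5⟩ := tabAB r hr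
  ext i
  rw [Nl_apply, Pi.sub_apply, Pi.smul_apply, Pi.smul_apply, smul_eq_mul, smul_eq_mul]
  by_cases h3 : i = iA r
  · rw [h3, c3, c1, ev_same, ev_ne ii]
    simp
  · by_cases h5 : i = iB r
    · rw [h5, c4, c2, ev_same, ev_ne (Ne.symm ii)]
      simp
    · rw [c5 i h3 h5, ev_ne h3, ev_ne h5]
      simp

theorem aba1 (h2 : (2 : K) ≠ 0) {r : Rt} (hr : r.val < 6) {B : LM K}
    (hB : ∀ x y, bf (B x) y + bf x (B y) = 0) (x : V K) :
    (2 : K) • Nl r (B (Nl r x)) = tf (Nl r) B • Nl r x := by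
  obtain ⟨n1, n2, n3, n4, s1, s2, i1, i2, ii, ss, c1, c2, c3, c4, c5⟩ := tabAB r hr
  have e1 : B (ev (iB r)) (sA r) = 0 := by
    have h3 := hB (ev (iB r)) (ev (iB r))
    rw [bf_evr _ i2, bf_evl _ i2, n2] at h3
    have h5 : (2 : K) * B (ev (iB r)) (sA r) = 0 := by linear_combination h3
    exact (mul_eq_zero.mp h5).resolve_left h2
  have e2 : B (ev (iA r)) (sB r) = 0 := by
    have h3 := hB (ev (iA r)) (ev (iA r))
    rw [bf_evr _ i1, bf_evl _ i1, n1] at h3
    have h5 : (2 : K) * B (ev (iA r)) (sB r) = 0 := by linear_combination h3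
    exact (mul_eq_zero.mp h5).resolve_left h2
  have e3 : B (ev (iB r)) (sB r) = - B (ev (iA r)) (sA r) := by
    have h3 := hB (ev (iA r)) (ev (iB r))
    rw [bf_evr _ i2, bf_evl _ i1, n2, n1] at h3
    linear_combination h3
  have e4 : tf (Nl r) B = 2 * B (ev (iA r)) (sA r) := by
    rw [tf_sum]
    have h3 : ∀ j ∈ (Finset.univ : Finset (Fin 7)), j ∉ ({iA r, iB r} : Finset (Fin 7)) →
        Nl r (B (ev j)) j = 0 := by
      intro j _ hj
      rw [Finset.mem_insert, Finset.mem_singleton, not_or] at hj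
      rw [Nl_apply, c5 j hj.1 hj.2]
      simp
    rw [← Finset.sum_subset (Finset.subset_univ ({iA r, iB r} : Finset (Fin 7))) h3,
      Finset.sum_pair ii, Nl_apply, Nl_apply, c3, c4, c1, c2, e3]
    push_cast
    ring
  rw [e4, Nl_long hr (B (Nl r x)), Nl_long hr x, map_sub, map_smul, map_smul]
  rw [Pi.sub_apply, Pi.sub_apply, Pi.smul_apply, Pi.smul_apply, Pi.smul_apply, Pi.smul_apply, e1,
    e2, e3]
  simp only [smul_eq_mul]
  module

theorem aba (h2 : (2 : K) ≠ 0) {g : EE K} (hg : g ∈ GG K) {r : Rt} (hr : r.val < 6) {B : LM K}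
    (hB : ∀ x y, bf (B x) y + bf x (B y) = 0) (x : V K) :
    (2 : K) • lr g r (B (lr g r x)) = tf (lr g r) B • lr g r x := by
  set B' : LM K := ((g⁻¹ : EE K) : V K →ₗ[K] V K) ∘ₗ B ∘ₗ (g : V K →ₗ[K] V K) with hB'
  have hB1 : ∀ y, B' y = g⁻¹ (B (g y)) := fun y => rfl
  have h3 : ∀ x y, bf (B' x) y + bf x (B' y) = 0 := by
    intro x y
    rw [hB1, hB1]
    have h4 : bf (g⁻¹ (B (g x))) y = bf (B (g x)) (g y) := by
      rw [← hg.2 (g⁻¹ (B (g x))) y, EE_apply_inv]
    have h5 : bf x (g⁻¹ (B (g y))) = bf (g x) (B (g y)) := by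
      rw [← hg.2 x (g⁻¹ (B (g y))), EE_apply_inv]
    rw [h4, h5]
    exact hB _ _
  have h4 : tf (lr g r) B = tf (Nl r) B' := by
    rw [← tf_conj g (Nl r) B']
    have h5 : (g : V K →ₗ[K] V K) ∘ₗ B' ∘ₗ ((g⁻¹ : EE K) : V K →ₗ[K] V K) = B := by
      apply LinearMap.ext
      intro y
      show g (g⁻¹ (B (g (g⁻¹ y)))) = B y
      rw [EE_apply_inv, EE_apply_inv]
    rw [h5]
    rfl
  have h5 := aba1 h2 hr h3 (g⁻¹ x)
  have h6 := congrArg g h5
  rw [map_smul, map_smul, hB1] at h6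
  rw [h4, lr_apply, lr_apply]
  exact h6

theorem tf_Nl (r : Rt) (hr : r.val < 6) : tf (Nl r : LM K) (Nl (ng r)) = 2 := by
  have h : ∀ r : Rt, r.val < 6 → ∑ j : Fin 7, cc r j * (cc (ng r) (sc r j) *
      (if sc (ng r) (sc r j) = j then 1 else 0)) = 2 := by decide
  have h3 : ((∑ j : Fin 7, cc r j * (cc (ng r) (sc r j) *
      (if sc (ng r) (sc r j) = j then 1 else 0)) : ℤ) : K) = 2 := by
    rw [h r hr]
    norm_num
  rw [tf_sum, ← h3, Int.cast_sum]
  apply Finset.sum_congr rfl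
  intro j _
  rw [Nl_apply, Nl_apply]
  unfold ev
  rw [Pi.single_apply]
  push_cast
  rfl

end Pool.Agent.H40.GT
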