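import Pool.Agent.H40.GT.LgA

/-!
# GT-61 opposite long root elements, first part: the torus element

`f ∈ F`, `0 ∈ SF F`, `N = Nl 0`, `N' = lr f 0`, `tf N N' ≠ 0`, `λ = tf N N' / 2`, `N'' = λ⁻¹ • N'`.  By `aba`
(for `g = 1` and `g = f`) `N N'' N = N`, `N'' N N'' = N''`, and `N N = 0 = N'' N''`.
`h(z) = 1 + (z - 1) N N'' + (z⁻¹ - 1) N'' N` (`z ∈ Kˣ`).  With `x(a) = 1 + a N ∈ F`, `y(a) = 1 + a N'' ∈ F`
(`= f X_0 (a / λ) f⁻¹`), `w(z) = x(z) y(-z⁻¹) x(z)`: `h(z) = w(z) w(-1)` (the usual `SL_2` identity: the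
maps `N N''`, `N`, `N''`, `N'' N` multiply like the matrix units `E_11, E_12, E_21, E_22`).  So `h(z) ∈ F`.
`h(a) h(b) = h(a b)`.

`hz_dec`: `h(z) = u * hd (1,-1) z` with `u ∈ QD (1,-1)`: it is enough to check that `h(z)` acts as
`z` on `ln 0` (degree 1), maps `x` to `x` modulo `ln 0` for `x ∈ ker N` (degrees 0, 1), and to `z⁻¹ x` modulo
`ker N` in general: `h(z) x = x + (z-1) N (N'' x) + (z⁻¹ - 1) N'' (N x)`; if `x = N y` then `N'' N x = 0` and
`N N'' N y = N y`; if `N x = 0` the last term vanishes; in general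
`N (h(z) x) = N x + (z⁻¹ - 1) N N'' N x = z⁻¹ N x`.
-/

namespace Pool.Agent.H40.GT

variable {K : Type} [Field K]

section alg

variable (N M : LM K)

/-- `1 + a N` -/
def ux (a : K) (v : V K) : V K := v + a • N v

theorem ww (hNN : ∀ v, N (N v) = 0) (hNMN : ∀ v, N (M (N v)) = N v)
    (z zi : K) (hz : z * zi = 1) (v : V K) :
    ux N z (ux M (-zi) (ux N z v)) = v - N (M v) - M (N v) + z • N v - zi • M v := by
  unfold ux
  simp only [map_add, map_smul, hNN, hNMN, smul_add, smul_zero, add_zero]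
  match_scalars
  all_goals first
    | ring1
    | linear_combination (-1 : K) * hz
    | linear_combination (-z : K) * hz

theorem ww2 (hNN : ∀ v, N (N v) = 0) (hMM : ∀ v, M (M v) = 0) (hNMN : ∀ v, N (M (N v)) = N v)
    (hMNM : ∀ v, M (N (M v)) = M v) (z zi : K) (hz : z * zi = 1) (v : V K) :
    ux N z (ux M (-zi) (ux N z (ux N (-1) (ux M 1 (ux N (-1) v))))) =
      v + (z - 1) • N (M v) + (zi - 1) • M (N v) := by
  have h1 := ww N M hNN hNMN (-1) (-1) (by ring) v
  rw [neg_neg] at h1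
  rw [h1, ww N M hNN hNMN z zi hz]
  simp only [map_add, map_sub, map_smul, hNN, hMM, hNMN, hMNM, smul_add, smul_sub, smul_zero,
    add_zero, sub_zero]
  module

end alg

/-- the element `h(z)` -/
theorem hz_ex (hK : Ok K) {F : Subgroup (EE K)} (hF : Ov F) (h0 : (0 : Rt) ∈ SF F) {f : EE K}
    (hf : f ∈ F) (ht : tf (Nl 0) (lr f 0) ≠ 0) :
    ∃ h : Kˣ →* EE K, (∀ z, h z ∈ F) ∧ (∀ z, ∃ u ∈ QD K (1, -1), h z = u * hd (1, -1) z) ∧
      ∀ (z : Kˣ) (x : V K), (z : K) ≠ 1 → (z : K) ≠ (z⁻¹ : Kˣ) →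
        h z x = ((z⁻¹ : Kˣ) : K) • x → ∃ y, x = lr f 0 y := by
  have h2 : (2 : K) ≠ 0 := ok_two hK
  have hfG : f ∈ GG K := hF.2 hf
  have hr : ((0 : Rt) : Rt).val < 6 := by decide
  obtain ⟨lam, hlam⟩ : ∃ l : K, l = tf (Nl 0) (lr f 0) / 2 := ⟨_, rfl⟩
  have hl2 : tf (Nl 0) (lr f 0) = 2 * lam := by
    rw [hlam]
    field_simp
  have hl0 : lam ≠ 0 := by
    intro h
    rw [h, mul_zero] at hl2
    exact ht hl2
  obtain ⟨N, hN⟩ : ∃ N : LM K, N = Nl 0 := ⟨_, rfl⟩
  obtain ⟨M, hM⟩ : ∃ M : LM K, M = lam⁻¹ • lr f 0 := ⟨_, rfl⟩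
  have hMa : ∀ v, M v = lam⁻¹ • lr f 0 v := by
    intro v
    rw [hM]
    rfl
  have hNN : ∀ v, N (N v) = 0 := by
    intro v
    rw [hN]
    exact Nl_sq hr v
  have hMM : ∀ v, M (M v) = 0 := by
    intro v
    rw [hMa, hMa, map_smul, lr_sq f hr, smul_zero, smul_zero]
  have hNMN : ∀ v, N (M (N v)) = N v := by
    intro v
    have h3 := aba h2 (one_mem (GG K)) hr (lr_IsD hfG 0).2 v
    rw [lr_one, hl2, mul_smul] at h3
    have h4 := smul_right_injective (V K) h2 h3
    rw [hMa, hN, map_smul, h4, smul_smul, inv_mul_cancel₀ hl0, one_smul]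
  have hMNM : ∀ v, M (N (M v)) = M v := by
    intro v
    have h3 := aba h2 hfG hr (Nl_IsD (K := K) 0).2 v
    rw [tf_comm, hl2, mul_smul] at h3
    have h4 := smul_right_injective (V K) h2 h3
    rw [hMa, hMa, hN, map_smul, map_smul, h4, smul_smul, smul_smul, mul_assoc,
      inv_mul_cancel₀ hl0, mul_one]
  -- the root elements
  have xF : ∀ a : K, X 0 a ∈ F := fun a => h0 a
  have yF : ∀ a : K, f * X 0 a * f⁻¹ ∈ F := fun a => mul_mem (mul_mem hf (h0 a)) (inv_mem hf)
  have xa : ∀ (a : K) (v : V K), X 0 a v = ux N a v := by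
    intro a v
    have h3 := lr_X (1 : EE K) hr a v
    rw [lr_one, one_mul, inv_one, mul_one] at h3
    rw [h3, hN]
    rfl
  have ya : ∀ (a : K) (v : V K), (f * X 0 (a * lam⁻¹) * f⁻¹) v = ux M a v := by
    intro a v
    rw [lr_X f hr, mul_smul, ← hMa]
    rfl
  obtain ⟨e, he⟩ : ∃ e : Kˣ → EE K, ∀ z : Kˣ,
      e z = X 0 (z : K) * (f * X 0 ((-((z⁻¹ : Kˣ) : K)) * lam⁻¹) * f⁻¹) *
    X 0 (z : K) * (X 0 (-1) * (f * X 0 (1 * lam⁻¹) * f⁻¹) * X 0 (-1)) := ⟨_, fun z => rfl⟩
  have eF : ∀ z, e z ∈ F := by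
    intro z
    rw [he]
    exact mul_mem (mul_mem (mul_mem (xF _) (yF _)) (xF _)) (mul_mem (mul_mem (xF _) (yF _)) (xF _))
  have ea : ∀ (z : Kˣ) (v : V K), e z v =
      v + ((z : K) - 1) • N (M v) + (((z⁻¹ : Kˣ) : K) - 1) • M (N v) := by
    intro z v
    rw [← ww2 N M hNN hMM hNMN hMNM (z : K) ((z⁻¹ : Kˣ) : K) (Units.mul_inv z) v]
    rw [he]
    simp only [LinearEquiv.mul_apply] at ya ⊢
    rw [xa, ya, xa, xa, ya, xa]
  have hmap : ∀ a b : Kˣ, e (a * b) = e a * e b := by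
    intro a b
    apply LinearEquiv.ext
    intro v
    rw [LinearEquiv.mul_apply, ea, ea, ea, mul_inv, Units.val_mul, Units.val_mul]
    simp only [map_add, map_smul, hNN, hMM, hNMN, hMNM, smul_zero, map_zero, add_zero, zero_add]
    module
  have hone : e 1 = 1 := by
    apply LinearEquiv.ext
    intro v
    rw [ea, inv_one, Units.val_one, sub_self, zero_smul, zero_smul, add_zero, add_zero]
    rfl
  refine ⟨{ toFun := e, map_one' := hone, map_mul' := hmap }, eF, ?_, ?_⟩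
  · intro z
    refine ⟨e z * (hd (1, -1) z)⁻¹, ?_, by rw [inv_mul_cancel_right]; rfl⟩
    have hdT : hd (1, -1) z ∈ GG K := TT_le_GG (tor_mem_TT _)
    apply QD_of (mul_mem (hF.2 (eF z)) (inv_mem hdT))
    intro i j hij
    have h3 : (hd (1, -1) z)⁻¹ (ev j : V K) = ((z ^ (-dg (1, -1) j) : Kˣ) : K) • ev j := by
      apply (hd (1, -1) z).injective
      rw [EE_apply_inv, map_smul, hd_ev, smul_smul, ← Units.val_mul, ← zpow_add, neg_add_cancel,
        zpow_zero, Units.val_one, one_smul]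
    rw [LinearEquiv.mul_apply, h3, map_smul, Pi.smul_apply, smul_eq_mul]
    -- coordinates of `N v`
    have c0 : ∀ v : V K, N v 0 = 0 := by intro v; rw [hN, Nl_apply]; simp [cc]
    have c1 : ∀ v : V K, N v 1 = v 2 := by intro v; rw [hN, Nl_apply]; simp [cc, sc]
    have c2 : ∀ v : V K, N v 2 = 0 := by intro v; rw [hN, Nl_apply]; simp [cc]
    have c3 : ∀ v : V K, N v 3 = 0 := by intro v; rw [hN, Nl_apply]; simp [cc]
    have c4 : ∀ v : V K, N v 4 = 0 := by intro v; rw [hN, Nl_apply]; simp [cc]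
    have c5 : ∀ v : V K, N v 5 = - v 4 := by intro v; rw [hN, Nl_apply]; simp [cc, sc]
    have c6 : ∀ v : V K, N v 6 = 0 := by intro v; rw [hN, Nl_apply]; simp [cc]
    have hNe : ∀ v : V K, N (e z v) = ((z⁻¹ : Kˣ) : K) • N v := by
      intro v
      rw [ea]
      simp only [map_add, map_smul, hNN, hNMN, smul_zero, add_zero]
      module
    have e2 : ∀ v : V K, e z v 2 = ((z⁻¹ : Kˣ) : K) * v 2 := by
      intro v
      rw [← c1 (e z v), hNe, Pi.smul_apply, c1, smul_eq_mul]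
    have e4 : ∀ v : V K, e z v 4 = ((z⁻¹ : Kˣ) : K) * v 4 := by
      intro v
      have h4 := c5 (e z v)
      rw [hNe, Pi.smul_apply, c5, smul_eq_mul] at h4
      linear_combination h4
    have eN : ∀ y : V K, e z (N y) = (z : K) • N y := by
      intro y
      rw [ea, hNMN, hNN, map_zero, smul_zero, add_zero]
      module
    have eK : ∀ (v : V K) (i : Fin 7), N v = 0 → i ≠ 1 → i ≠ 5 → e z v i = v i := by
      intro v i h4 h5 h6
      have h7 : ∀ w : V K, N w i = 0 := by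
        intro w
        fin_cases i
        · exact c0 w
        · exact absurd rfl h5
        · exact c2 w
        · exact c3 w
        · exact c4 w
        · exact absurd rfl h6
        · exact c6 w
      rw [ea, h4, map_zero, smul_zero, add_zero, Pi.add_apply, Pi.smul_apply, h7, smul_zero,
        add_zero]
    have N0 : N (ev 0) = 0 := by
      rw [hN, Nl_long hr]
      simp [sA, sB, ev]
    have N3 : N (ev 3) = 0 := by
      rw [hN, Nl_long hr]
      simp [sA, sB, ev]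
    have N6 : N (ev 6) = 0 := by
      rw [hN, Nl_long hr]
      simp [sA, sB, ev]
    have N1 : (ev 1 : V K) = N (ev 2) := by
      rw [hN, Nl_long hr]
      simp [sA, sB, iA, iB, ev]
    have N5 : (ev 5 : V K) = N (-ev 4) := by
      rw [map_neg, hN, Nl_long hr]
      simp [sA, sB, iA, iB, ev]
    have E1 : ∀ i, ((z ^ (-1 : ℤ) : Kˣ) : K) * e z (ev 1) i = (ev 1 : V K) i := by
      intro i
      rw [N1, eN, Pi.smul_apply, smul_eq_mul, ← mul_assoc, ← Units.val_mul, zpow_neg_one,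
        inv_mul_cancel, Units.val_one, one_mul]
    have E5 : ∀ i, ((z ^ (-1 : ℤ) : Kˣ) : K) * e z (ev 5) i = (ev 5 : V K) i := by
      intro i
      rw [N5, eN, Pi.smul_apply, smul_eq_mul, ← mul_assoc, ← Units.val_mul, zpow_neg_one,
        inv_mul_cancel, Units.val_one, one_mul]
    have hdg : ∀ j, dg (1, -1) j = (![0, 1, -1, 0, -1, 1, 0] : Fin 7 → ℤ) j := by decide
    have hz1 : ∀ a : K, (z : K) * (((z⁻¹ : Kˣ) : K) * a) = a := by
      intro a
      rw [← mul_assoc, Units.mul_inv, one_mul]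
    rw [hdg, hdg] at hij
    rw [hdg]
    have A0 : ∀ v : V K, ((z ^ (-(0 : ℤ)) : Kˣ) : K) * e z v i = e z v i := by
      intro v
      rw [neg_zero, zpow_zero, Units.val_one, one_mul]
    have A2 : ∀ a : K, ((z ^ (-(-1 : ℤ)) : Kˣ) : K) * a = z * a := by
      intro a
      rw [neg_neg, zpow_one]
    fin_cases j
    · show ((z ^ (-(0 : ℤ)) : Kˣ) : K) * e z (ev 0) i = (ev 0 : V K) i
      rw [A0]
      apply eK _ _ N0
      · rintro rfl
        exact absurd hij (by decide)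
      · rintro rfl
        exact absurd hij (by decide)
    · exact E1 i
    · show ((z ^ (-(-1 : ℤ)) : Kˣ) : K) * e z (ev 2) i = (ev 2 : V K) i
      rw [A2]
      fin_cases i
      · exact absurd hij (by decide)
      · exact absurd hij (by decide)
      · show (z : K) * e z (ev 2) 2 = (ev 2 : V K) 2
        rw [e2, hz1]
      · exact absurd hij (by decide)
      · show (z : K) * e z (ev 2) 4 = (ev 2 : V K) 4
        rw [e4, hz1]
      · exact absurd hij (by decide)
      · exact absurd hij (by decide)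
    · show ((z ^ (-(0 : ℤ)) : Kˣ) : K) * e z (ev 3) i = (ev 3 : V K) i
      rw [A0]
      apply eK _ _ N3
      · rintro rfl
        exact absurd hij (by decide)
      · rintro rfl
        exact absurd hij (by decide)
    · show ((z ^ (-(-1 : ℤ)) : Kˣ) : K) * e z (ev 4) i = (ev 4 : V K) i
      rw [A2]
      fin_cases i
      · exact absurd hij (by decide)
      · exact absurd hij (by decide)
      · show (z : K) * e z (ev 4) 2 = (ev 4 : V K) 2
        rw [e2, hz1]
      · exact absurd hij (by decide)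
      · show (z : K) * e z (ev 4) 4 = (ev 4 : V K) 4
        rw [e4, hz1]
      · exact absurd hij (by decide)
      · exact absurd hij (by decide)
    · exact E5 i
    · show ((z ^ (-(0 : ℤ)) : Kˣ) : K) * e z (ev 6) i = (ev 6 : V K) i
      rw [A0]
      apply eK _ _ N6
      · rintro rfl
        exact absurd hij (by decide)
      · rintro rfl
        exact absurd hij (by decide)
  · intro z x hz1 hz2 hx
    have hx' : e z x = ((z⁻¹ : Kˣ) : K) • x := hx
    rw [ea] at hx'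
    have h3 := congrArg M hx'
    simp only [map_add, map_smul, hMM, hMNM, smul_zero, add_zero] at h3
    have h4 : ((z : K) - ((z⁻¹ : Kˣ) : K)) • M x = 0 := by
      have h5 : ((z : K) - ((z⁻¹ : Kˣ) : K)) • M x = (M x + ((z : K) - 1) • M x) -
        ((z⁻¹ : Kˣ) : K) • M x := by module
      rw [h5, h3, sub_self]
    have h5 : M x = 0 := (smul_eq_zero.mp h4).resolve_left (sub_ne_zero.mpr hz2)
    rw [h5, map_zero, smul_zero, add_zero] at hx'
    have h6 : (((z⁻¹ : Kˣ) : K) - 1) • (x - M (N x)) = 0 := by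
      have h7 : (((z⁻¹ : Kˣ) : K) - 1) • (x - M (N x)) = ((z⁻¹ : Kˣ) : K) • x -
        (x + (((z⁻¹ : Kˣ) : K) - 1) • M (N x)) := by module
      rw [h7, hx', sub_self]
    have h8 : ((z⁻¹ : Kˣ) : K) - 1 ≠ 0 := by
      intro h9
      apply hz1
      have h10 : ((z⁻¹ : Kˣ) : K) = 1 := sub_eq_zero.mp h9
      have h11 : (z⁻¹ : Kˣ) = 1 := Units.ext h10
      rw [inv_eq_one.mp h11, Units.val_one]
    have h9 : x - M (N x) = 0 := (smul_eq_zero.mp h6).resolve_left h8
    refine ⟨lam⁻¹ • N x, ?_⟩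
    rw [map_smul, ← hMa]
    exact sub_eq_zero.mp h9

end Pool.Agent.H40.GT
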