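import Pool.Agent.H40.GT.LgB
import Pool.Agent.H33.EL.GrpZ

/-!
# GT-62 opposite long root elements, second part

Let `h` be as in `hz_ex`, `Q = F ⊓ QD (1,-1)`, `A = {hd (1,-1) z} ≤ TT ≤ F`, `B = {h z}`.  `h z = u z * hd z`, `u z ∈ Q`
(`u z = h z * (hd z)⁻¹ ∈ F`).  `sz_conj`: there is `q ∈ Q` with `q (hd z) q⁻¹ ∈ B` for all `z`; comparing
modulo `QD` (`QD_inf_Dg`, `TT_le_Dg`): `q (hd z) q⁻¹ = h z`.  Let `z` be a generator of `Kˣ`
(`z ≠ 1`, `z ≠ z⁻¹`).  `q` maps the `z⁻¹`-eigenspace of `hd z`, which is `⟨e_2, e_-1⟩ = ln 1`, onto that of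
`h z`, which is contained in the range of `N' = lr f 0`; both have dimension 2, so `q (ln 1)` = range
of `N'`.  `q⁻¹ N' q` is skew with range in `ln 1`, so it is `c • Nl 1` (`skew_ln`), `c ≠ 0`:
`lr f 0 = c • lr q 1`.  And `X 1 s = q⁻¹ (1 + (s/c) N') q = q⁻¹ f X_0 (s/c) f⁻¹ q ∈ F`: `1 ∈ SF F`.
-/

namespace Pool.Agent.H40.GT

variable {K : Type} [Field K]

theorem LgC_ln1 (x : V K) (h : ∀ i, i ≠ 2 → i ≠ 4 → x i = 0) : x ∈ (ln 1 : Submodule K (V K)) := by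
  refine ⟨x 2 • ev 1 - x 4 • ev 5, ?_⟩
  ext i
  rw [Nl_apply]
  fin_cases i <;> simp [cc, sc, ev, h]

theorem LgC_Nl0 (x : V K) (i : Fin 7) (h1 : i ≠ 1) (h5 : i ≠ 5) : Nl 0 x i = 0 := by
  rw [Nl_apply]
  fin_cases i <;> simp_all [cc]

theorem LgC_rank [Finite K] : Module.finrank K (LinearMap.range (Nl 0 : LM K)) ≤
    Module.finrank K (ln 1 : Submodule K (V K)) := by
  let σ : Equiv.Perm (Fin 7) := Equiv.swap 1 2 * Equiv.swap 4 5
  let P : V K ≃ₗ[K] V K := LinearEquiv.funCongrLeft K K σ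
  have h1 := LinearEquiv.finrank_map_eq P (LinearMap.range (Nl 0 : LM K))
  rw [← h1]
  apply Submodule.finrank_mono
  rintro _ ⟨_, ⟨x, rfl⟩, rfl⟩
  apply LgC_ln1
  intro i h2 h4
  show (Nl 0 x) (σ i) = 0
  apply LgC_Nl0
  · revert h2
    revert i
    decide
  · revert h4
    revert i
    decide

theorem Pp (hK : Ok K) {F : Subgroup (EE K)} (hF : Ov F) (h0 : (0 : Rt) ∈ SF F) {f : EE K}
    (hf : f ∈ F) (ht : tf (Nl 0) (lr f 0) ≠ 0) : (1 : Rt) ∈ SF F ∧
      ∃ q ∈ F ⊓ QD K (1, -1), ∃ c : K, c ≠ 0 ∧ lr f 0 = c • lr q 1 := by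
  have hfin := ok_finite hK
  have hEE := ok_EE_finite hK
  have h2 : (2 : K) ≠ 0 := ok_two hK
  have h3 : (3 : K) ≠ 0 := ok_three hK
  have : Fact (Nat.card K).Prime := ⟨ok_prime hK⟩
  obtain ⟨h, hhF, hdec, heig⟩ := hz_ex hK hF h0 hf ht
  let Q : Subgroup (EE K) := F ⊓ QD K (1, -1)
  let a : Kˣ →* EE K := MonoidHom.mk' (fun z => hd (1, -1) z) (hd_mul (1, -1))
  have haT : ∀ z, a z ∈ TT K := fun z => ⟨_, rfl⟩
  have hdvd : ∀ φ : Kˣ →* EE K, ¬ (Nat.card K) ∣ Nat.card φ.range := by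
    intro φ h4
    have h5 := h4.trans (Subgroup.card_range_dvd φ)
    rw [ok_units hK] at h5
    have h6 : 1 < Nat.card K := (ok_prime hK).one_lt
    have h7 := Nat.le_of_dvd (by omega) h5
    omega
  have hQp : IsPGroup (Nat.card K) Q := by
    intro x
    refine ⟨1, ?_⟩
    rw [pow_one]
    apply Subtype.ext
    exact QD_p hK x.2.2
  obtain ⟨q, hqQ, hqA, -⟩ := Pool.Agent.H33.EL.sz_conj Q a.range h.range hQp (hdvd a) (hdvd h)
    (by
      rintro _ ⟨z, rfl⟩ u hu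
      refine ⟨F.mul_mem (F.mul_mem (hF.1 (haT z)) hu.1) (F.inv_mem (hF.1 (haT z))), ?_⟩
      exact QD_normal (Dg_le_PD _ (TT_le_Dg _ (haT z))) hu.2)
    (by
      rintro _ ⟨z, rfl⟩
      obtain ⟨u, hu, h4⟩ := hdec z
      refine ⟨u, ⟨?_, hu⟩, a z, ⟨z, rfl⟩, h4⟩
      have h5 : u = h z * (a z)⁻¹ := by
        rw [h4]
        exact (mul_inv_cancel_right u (a z)).symm
      rw [h5]
      exact F.mul_mem (hhF z) (F.inv_mem (hF.1 (haT z))))
    (by
      rintro _ ⟨z, rfl⟩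
      obtain ⟨u, hu, h4⟩ := hdec z
      have h5 : u = h z * (a z)⁻¹ := by
        rw [h4]
        exact (mul_inv_cancel_right u (a z)).symm
      refine ⟨u⁻¹, ⟨?_, (QD K (1, -1)).inv_mem hu⟩, h z, ⟨z, rfl⟩, ?_⟩
      · rw [h5]
        exact F.inv_mem (F.mul_mem (hhF z) (F.inv_mem (hF.1 (haT z))))
      · rw [h4, inv_mul_cancel_left]
        rfl)
  have hqGG : q ∈ GG K := hF.2 hqQ.1
  have hqD : q ∈ QD K (1, -1) := hqQ.2
  -- the elements `q a(z) q⁻¹`
  have key : ∀ z, q * a z * q⁻¹ = h z := by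
    intro z
    obtain ⟨z', hz'⟩ := hqA (a z) ⟨z, rfl⟩
    obtain ⟨u, hu, h4⟩ := hdec z'
    have h4' : h z' = u * a z' := h4
    have h5 : a z * (a z')⁻¹ = q⁻¹ * u * (a z' * q * (a z')⁻¹) := by
      have h6 : a z = q⁻¹ * (h z') * q := by
        rw [hz']
        group
      rw [h6, h4']
      group
    have h7 : a z * (a z')⁻¹ = 1 := by
      apply QD_inf_Dg (d := (1, -1))
      · rw [h5]
        exact mul_mem (mul_mem (inv_mem hqD) hu)
          (QD_normal (Dg_le_PD _ (TT_le_Dg _ (haT z'))) hqD)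
      · exact mul_mem (TT_le_Dg _ (haT z)) (inv_mem (TT_le_Dg _ (haT z')))
    have h8 : a z = a z' := mul_inv_eq_one.mp h7
    have h9 : z = z' := by
      have h10 : a z (ev 1) = a z' (ev 1) := by rw [h8]
      have h11 : hd (1, -1) z (ev 1) = hd (1, -1) z' (ev 1) := h10
      rw [hd_ev, hd_ev] at h11
      have h12 := congrFun h11 1
      have h13 : dg (1, -1) 1 = 1 := by decide
      rw [h13] at h12
      simp [ev] at h12
      exact Units.ext h12
    rw [← hz', ← h9]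
  -- the element `z = 2`
  let z : Kˣ := Units.mk0 2 h2
  have hz1 : (z : K) ≠ 1 := by
    show (2 : K) ≠ 1
    intro h4
    exact one_ne_zero (α := K) (by linear_combination h4)
  have hz2 : (z : K) ≠ (z⁻¹ : Kˣ) := by
    intro h4
    have h5 : (z : K) * (z : K) = 1 := by
      nth_rewrite 2 [h4]
      rw [← Units.val_mul, mul_inv_cancel, Units.val_one]
    have h6 : (2 : K) * 2 = 1 := h5
    exact h3 (by linear_combination h6)
  have hqe : ∀ x : V K, a z x = ((z⁻¹ : Kˣ) : K) • x → ∃ y, q x = lr f 0 y := by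
    intro x hx
    apply heig z (q x) hz1 hz2
    rw [← key z, LinearEquiv.mul_apply, LinearEquiv.mul_apply]
    have h4 : q⁻¹ (q x) = x := q.symm_apply_apply x
    rw [h4, hx, map_smul]
  let M : LM K := lr (q⁻¹ * f) 0
  have hM : ∀ x, q (M x) = lr f 0 (q x) := by
    intro x
    show q ((q⁻¹ * f) (Nl 0 ((q⁻¹ * f)⁻¹ x))) = f (Nl 0 (f⁻¹ (q x)))
    rw [LinearEquiv.mul_apply, mul_inv_rev, inv_inv, LinearEquiv.mul_apply]
    exact q.apply_symm_apply _
  have hsub : (ln 1 : Submodule K (V K)) ≤ LinearMap.range M := by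
    rintro _ ⟨x, rfl⟩
    have h4 : a z (Nl 1 x) = ((z⁻¹ : Kˣ) : K) • Nl 1 x := by
      have h5 : Nl 1 x = x 1 • ev 2 + (-(x 5)) • (ev 4 : V K) := by
        ext i
        rw [Nl_apply]
        fin_cases i <;> simp [cc, sc, ev]
      rw [h5]
      show hd (1, -1) z (x 1 • ev 2 + (-(x 5)) • (ev 4 : V K)) = _
      rw [map_add, map_smul, map_smul, hd_ev, hd_ev]
      have h6 : dg (1, -1) 2 = -1 := by decide
      have h7 : dg (1, -1) 4 = -1 := by decide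
      rw [h6, h7, zpow_neg_one]
      module
    obtain ⟨y, hy⟩ := hqe _ h4
    refine ⟨q⁻¹ y, ?_⟩
    apply q.injective
    rw [hM]
    have h8 : q (q⁻¹ y) = y := q.apply_symm_apply y
    rw [h8, hy]
  have hrk : Module.finrank K (LinearMap.range M) = Module.finrank K (LinearMap.range (Nl 0 : LM K)) := by
    have h4 : LinearMap.range M = (LinearMap.range (Nl 0 : LM K)).map
        ((q⁻¹ * f : EE K) : V K →ₗ[K] V K) := by
      ext y
      constructor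
      · rintro ⟨x, rfl⟩
        exact ⟨_, ⟨_, rfl⟩, rfl⟩
      · rintro ⟨_, ⟨x, rfl⟩, rfl⟩
        refine ⟨(q⁻¹ * f) x, ?_⟩
        show (q⁻¹ * f) (Nl 0 ((q⁻¹ * f)⁻¹ ((q⁻¹ * f) x))) = _
        have h5 : (q⁻¹ * f)⁻¹ ((q⁻¹ * f) x) = x := (q⁻¹ * f).symm_apply_apply x
        rw [h5]
        rfl
    rw [h4]
    exact LinearEquiv.finrank_map_eq (q⁻¹ * f) _
  have heq : (ln 1 : Submodule K (V K)) = LinearMap.range M := by
    apply Submodule.eq_of_le_of_finrank_le hsub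
    rw [hrk]
    exact LgC_rank
  have hqf : q⁻¹ * f ∈ GG K := mul_mem (inv_mem hqGG) (hF.2 hf)
  obtain ⟨c, hc⟩ := skew_ln h2 (r := 1) (by decide) (A := M) (lr_IsD hqf 0).2
    (fun x => by rw [heq]; exact ⟨x, rfl⟩)
  have hlr : lr f 0 = c • lr q 1 := by
    apply LinearMap.ext
    intro x
    have h4 := hM (q⁻¹ x)
    have h5 : q (q⁻¹ x) = x := q.apply_symm_apply x
    rw [h5, hc] at h4
    rw [← h4, LinearMap.smul_apply, map_smul, LinearMap.smul_apply, lr_apply]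
  have hc0 : c ≠ 0 := by
    rintro rfl
    rw [zero_smul] at hlr
    exact lr_ne h2 f 0 hlr
  refine ⟨?_, q, hqQ, c, hc0, hlr⟩
  intro s
  have h4 : X 1 s = q⁻¹ * (f * X 0 (s / c) * f⁻¹) * q := by
    have h5 : q⁻¹ * (f * X 0 (s / c) * f⁻¹) * q = (q⁻¹ * f) * X 0 (s / c) * (q⁻¹ * f)⁻¹ := by
      group
    rw [h5]
    apply LinearEquiv.ext
    intro x
    rw [lr_X (q⁻¹ * f) (by decide) (s / c) x]
    have h6 := lr_X (1 : EE K) (r := 1) (by decide) s x
    rw [one_mul, inv_one, mul_one, lr_one] at h6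
    rw [h6]
    show _ = x + (s / c) • M x
    rw [hc, LinearMap.smul_apply, smul_smul, div_mul_cancel₀ s hc0]
  rw [h4]
  exact F.mul_mem (F.mul_mem (F.inv_mem hqQ.1)
    (F.mul_mem (F.mul_mem hf (h0 _)) (F.inv_mem hf))) hqQ.1

end Pool.Agent.H40.GT
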