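import Pool.Agent.H40.GT.LgA

/-!
# GT-63 two long root elements with trace form zero

`A = lr g r`, `B = lr g' r'` (`g, g' ∈ GG`, `r, r'` long), `tf A B = 0`.  By `aba`: `A B A = 0`, `B A B = 0` (and
`A A = 0 = B B`).  The set of the `x ∈ EE K` of the form `1 + a A + b B + c A B + d B A` is closed under
products, and each such element satisfies `(x - 1)^3 = 0`, so `x ^ p = 1` (`p = |K| = 7, 11` is the
characteristic).  So it is a finite subgroup of exponent `p`.
-/

namespace Pool.Agent.H40.GT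

variable {K : Type} [Field K]

/-- the elements `1 + a A + b B + c A B + d B A` -/
def LgD_P (A B : LM K) (x : EE K) (a b c d : K) : Prop :=
  ∀ v, x v = v + a • A v + b • B v + c • A (B v) + d • B (A v)

theorem LgD_mul {A B : LM K} (hA : ∀ v, A (A v) = 0) (hB : ∀ v, B (B v) = 0)
    (hAB : ∀ v, A (B (A v)) = 0) (hBA : ∀ v, B (A (B v)) = 0) {x y : EE K} {a b c d a' b' c' d' : K}
    (hx : LgD_P A B x a b c d) (hy : LgD_P A B y a' b' c' d') :
    LgD_P A B (x * y) (a + a') (b + b') (c + c' + a * b') (d + d' + b * a') := by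
  intro v
  rw [LinearEquiv.mul_apply, hx, hy]
  simp only [map_add, map_smul, hA, hB, hAB, hBA, smul_zero, add_zero]
  module

theorem LgD_one (A B : LM K) : LgD_P A B 1 0 0 0 0 := by
  intro v
  simp

theorem LgD_pow {A B : LM K} (hA : ∀ v, A (A v) = 0) (hB : ∀ v, B (B v) = 0)
    (hAB : ∀ v, A (B (A v)) = 0) (hBA : ∀ v, B (A (B v)) = 0) {x : EE K} {a b c d : K}
    (hx : LgD_P A B x a b c d) (n : ℕ) :
    LgD_P A B (x ^ n) (n * a) (n * b) (n * c + (n.choose 2 : ℕ) * (a * b))
      (n * d + (n.choose 2 : ℕ) * (a * b)) := by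
  induction n with
  | zero =>
    intro v
    simp
  | succ n ih =>
    have h1 := LgD_mul hA hB hAB hBA hx ih
    rw [← pow_succ'] at h1
    have h2 : ((n + 1).choose 2 : ℕ) = n + n.choose 2 := by
      rw [Nat.choose_succ_succ' n 1, Nat.choose_one_right]
    intro v
    rw [h1 v, h2]
    push_cast
    module

theorem LgD_pp (hK : Ok K) {A B : LM K} (hA : ∀ v, A (A v) = 0) (hB : ∀ v, B (B v) = 0)
    (hAB : ∀ v, A (B (A v)) = 0) (hBA : ∀ v, B (A (B v)) = 0) {x : EE K} {a b c d : K}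
    (hx : LgD_P A B x a b c d) : x ^ Nat.card K = 1 := by
  have h0 := ok_card_zero hK
  have h2 : (((Nat.card K).choose 2 : ℕ) : K) = 0 := by
    rcases hK with h | h
    · rw [h] at h0 ⊢
      have : ((Nat.choose 7 2 : ℕ) : K) = ((7 : ℕ) : K) * 3 := by
        rw [show Nat.choose 7 2 = 21 from rfl]
        norm_num
      rw [this, h0, zero_mul]
    · rw [h] at h0 ⊢
      have : ((Nat.choose 11 2 : ℕ) : K) = ((11 : ℕ) : K) * 5 := by
        rw [show Nat.choose 11 2 = 55 from rfl]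
        norm_num
      rw [this, h0, zero_mul]
  apply LinearEquiv.ext
  intro v
  rw [LgD_pow hA hB hAB hBA hx (Nat.card K) v, h0, h2]
  simp

theorem cl2 (hK : Ok K) {g g' : EE K} (hg : g ∈ GG K) (hg' : g' ∈ GG K) {r r' : Rt}
    (hr : r.val < 6) (hr' : r'.val < 6) (h : tf (lr g r) (lr g' r') = 0) (s s' : K) :
    IsPGroup (Nat.card K)
      (Subgroup.closure ({g * X r s * g⁻¹, g' * X r' s' * g'⁻¹} : Set (EE K))) := by
  have h2 : (2 : K) ≠ 0 := ok_two hK
  set A : LM K := lr g r with hAd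
  set B : LM K := lr g' r' with hBd
  have hA : ∀ v, A (A v) = 0 := lr_sq g hr
  have hB : ∀ v, B (B v) = 0 := lr_sq g' hr'
  have hAB : ∀ v, A (B (A v)) = 0 := by
    intro v
    have h3 := aba h2 hg hr (lr_IsD hg' r').2 v
    rw [← hAd, ← hBd, h, zero_smul] at h3
    exact (smul_eq_zero.mp h3).resolve_left h2
  have hBA : ∀ v, B (A (B v)) = 0 := by
    intro v
    have h3 := aba h2 hg' hr' (lr_IsD hg r).2 v
    rw [← hAd, ← hBd, tf_comm, h, zero_smul] at h3
    exact (smul_eq_zero.mp h3).resolve_left h2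
  have key : ∀ x ∈ Subgroup.closure ({g * X r s * g⁻¹, g' * X r' s' * g'⁻¹} : Set (EE K)),
      ∃ a b c d, LgD_P A B x a b c d := by
    intro x hx
    induction hx using Subgroup.closure_induction with
    | mem x hx =>
      rcases hx with hx | hx
      · refine ⟨s, 0, 0, 0, fun v => ?_⟩
        rw [hx, lr_X g hr s v]
        simp [hAd]
      · rw [Set.mem_singleton_iff] at hx
        refine ⟨0, s', 0, 0, fun v => ?_⟩
        rw [hx, lr_X g' hr' s' v]
        simp [hBd]
    | one => exact ⟨0, 0, 0, 0, LgD_one A B⟩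
    | mul x y _ _ hx hy =>
      obtain ⟨a, b, c, d, hx⟩ := hx
      obtain ⟨a', b', c', d', hy⟩ := hy
      exact ⟨_, _, _, _, LgD_mul hA hB hAB hBA hx hy⟩
    | inv x _ hx =>
      obtain ⟨a, b, c, d, hx⟩ := hx
      have h3 := LgD_pp hK hA hB hAB hBA hx
      have h4 : 0 < Nat.card K := by
        rcases hK with h | h <;> rw [h] <;> norm_num
      have h5 : x⁻¹ = x ^ (Nat.card K - 1) := by
        rw [inv_eq_iff_mul_eq_one, ← pow_succ', Nat.sub_add_cancel h4, h3]
      rw [h5]
      exact ⟨_, _, _, _, LgD_pow hA hB hAB hBA hx (Nat.card K - 1)⟩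
  intro x
  obtain ⟨a, b, c, d, hx⟩ := key x.1 x.2
  refine ⟨1, ?_⟩
  rw [pow_one]
  apply Subtype.ext
  exact LgD_pp hK hA hB hAB hBA hx

end Pool.Agent.H40.GT
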