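import Pool.Agent.H40.GT.LgC
import Pool.Agent.H40.GT.LgD
import Pool.Agent.H40.GT.Opp
import Pool.Agent.H33.EL.GrpB

/-!
# Part LgE1 (of LgE1, LgE2); GT-65 long root groups: first consequences

`lg_alpha`: `r ∈ SF F` long, `tf (Nl r) (lr f r) = 0` for all `f ∈ F`.  By `cl2` (with `g = 1`, `g' = f`)
`X r 1` and `f X r 1 f⁻¹` generate a `p`-group for all `f ∈ F`, so by `baer_suzuki` (file GrpB) `X r 1` lies in
a normal `p`-subgroup `N` of `F` (`X r 1 ≠ 1`); `Opp`.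

`lg_sym`: if `F` is not standard, then `ng r ∈ SF F` for every long `r ∈ SF F`: conjugate `r` to `0`
(`NN_long`, `SF_cj`, `Std_cj`; `τ (ng r) = ng (τ r)` because `w` is additive); by `lg_alpha` some `f` has
`tf (Nl 0) (lr f 0) ≠ 0`, and `Pp` gives `1 ∈ SF F`.

`lg_i`: `O1 F` = the nonzero multiples of `lr c 0`, `c ∈ GS K (SF F)`.  Let `N1 = a • lr c 0 ∈ O1 F`, `f ∈ F`,
`tf N1 (lr f 0) ≠ 0`.  Then `tf (Nl 0) (lr (c⁻¹ f) 0) ≠ 0` (`tf_conj`, `lr_mul`), so by `Pp`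
`lr (c⁻¹ f) 0 = b • lr q 1`, `q ∈ F ⊓ QD (1,-1) ≤ GS K (SF F)` (`PG_F`).  `wy_ex` for `r = 0`: `n = X 0 1 * X 1 c' * X 0 1` is in
`GS K (SF F)` and `n X 0 s n⁻¹ = X 1 (d s)`, so `lr n 0 = d • Nl 1` and `lr q 1 = d⁻¹ • lr (q n) 0`.
So `lr f 0 = b d⁻¹ • lr (c q n) 0 ∈ O1 F`.

`O1_Nl`: `Nl r ∈ O1 F` (up to the nonzero multiple) for `r = 0, 1`.
-/

namespace Pool.Agent.H40.GT

variable {K : Type} [Field K]

theorem lg_alpha (hK : Ok K) {F : Subgroup (EE K)} (hF : Ov F) {r : Rt} (hr : r.val < 6)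
    (hrS : r ∈ SF F) (h : ∀ f ∈ F, tf (Nl r) (lr f r) = 0) : Std F := by
  haveI : Finite (EE K) := ok_EE_finite hK
  haveI : Fact (Nat.card K).Prime := ⟨ok_prime hK⟩
  obtain ⟨N, hNF, hNn, hNp, hxN⟩ := Pool.Agent.H33.EL.baer_suzuki (p := Nat.card K) F (X r 1)
    (hrS 1) (by
      intro g hg
      have h3 := cl2 hK (one_mem (GG K)) (hF.2 hg) hr hr (by rw [lr_one]; exact h g hg) 1 1
      rwa [one_mul, inv_one, mul_one] at h3)
  apply Opp hK hF N hNF hNn hNp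
  intro h4
  rw [h4, Subgroup.mem_bot] at hxN
  exact one_ne_zero (X_inj r (1 : K) 0 (by rw [hxN, X_zero]))

theorem lg_sym (hK : Ok K) {F : Subgroup (EE K)} (hF : Ov F) (hn : ¬ Std F) {r : Rt}
    (hr : r.val < 6) (hrS : r ∈ SF F) : ng r ∈ SF F := by
  have h2 : (2 : K) ≠ 0 := ok_two hK
  obtain ⟨n, hnN, w, σ, τ, hM, hτ⟩ := NN_long h2 r 0 hr (by decide)
  have hF' : Ov (cj n F) := Ov_cj h2 hnN hF
  have h0 : (0 : Rt) ∈ SF (cj n F) := by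
    rw [SF_cj hM]
    exact ⟨r, hrS, hτ⟩
  have h3 : ∃ f ∈ cj n F, tf (Nl 0) (lr f 0) ≠ 0 := by
    by_contra h4
    push Not at h4
    exact hn (Std_cj h2 hnN hF (lg_alpha hK hF' (by decide) h0 h4))
  obtain ⟨f, hf, ht⟩ := h3
  obtain ⟨h1, -⟩ := Pp hK hF' h0 hf ht
  rw [SF_cj hM] at h1
  obtain ⟨r', hr', hτ'⟩ := h1
  have h5 : r' = ng r := by
    apply rt_inj
    apply w.injective
    rw [← hM.mrt r', hτ', rt_ng, map_neg, ← hM.mrt r, hτ]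
    decide
  rw [← h5]
  exact hr'

end Pool.Agent.H40.GT
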