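import Pool.Agent.H40.GT.LgE1

/-!
# Part LgE2 (of LgE1, LgE2); GT-65 long root groups: first consequences

`lg_alpha`: `r ∈ SF F` long, `tf (Nl r) (lr f r) = 0` for all `f ∈ F`.  By `cl2` (with `g = 1`, `g' = f`)
`X r 1` and `f X r 1 f⁻¹` generate a `p`-group for all `f ∈ F`, so by `baer_suzuki` (file GrpB) `X r 1` lies in
a normal `p`-subgroup `N` of `F` (`X r 1 ≠ 1`); `Opp`.

`lg_sym`: if `F` is not standard, then `ng r ∈ SF F` for every long `r ∈ SF F`: conjugate `r` to `0`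
(`NN_long`, `SF_cj`, `Std_cj`; `τ (ng r) = ng (τ r)` because `w` is additive); by `lg_alpha` some `f` has
`tf (Nl 0) (lr f 0) ≠ 0`, and `Pp` gives `1 ∈ SF F`.

`lg_i`: `O1 F` = the nonzero multiples of `lr c 0`, `c ∈ GS K (SF F)`.  Let `N1 = a • lr c 0 ∈ O1 F`, `f ∈ F`,
`tf N1 (lr f 0) ≠ 0`.  Then `tf (Nl 0) (lr (c⁻¹ f) 0) ≠ 0` (`tf_conj`, `lr_mul`), so by `Pp`
`lr (c⁻¹ f) 0 = b • lr q 1`, `q ∈ F ⊓ QD (1,-1) ≤ GS K (SF F)` (`PG_F`).  `wy_ex` for `r = 0`: `n = X 0 1 * X 1 c' * X 0 1` is in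
`GS K (SF F)` and `n X 0 s n⁻¹ = X 1 (d s)`, so `lr n 0 = d • Nl 1` and `lr q 1 = d⁻¹ • lr (q n) 0`.
So `lr f 0 = b d⁻¹ • lr (c q n) 0 ∈ O1 F`.

`O1_Nl`: `Nl r ∈ O1 F` (up to the nonzero multiple) for `r = 0, 1`.
-/

namespace Pool.Agent.H40.GT

variable {K : Type} [Field K]

/-- the orbit of the long root vector -/
def O1 (F : Subgroup (EE K)) : Set (LM K) :=
  {N | ∃ c ∈ GS K (SF F), ∃ a : K, a ≠ 0 ∧ N = a • lr c 0}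

theorem LgE2_smul {F : Subgroup (EE K)} {N : LM K} (hN : N ∈ O1 F) {b : K} (hb : b ≠ 0) :
    b • N ∈ O1 F := by
  obtain ⟨c, hc, a, ha, rfl⟩ := hN
  exact ⟨c, hc, b * a, mul_ne_zero hb ha, by rw [smul_smul]⟩

theorem LgE2_conj_smul (c : EE K) (b : K) (N : LM K) :
    (c : V K →ₗ[K] V K) ∘ₗ (b • N) ∘ₗ ((c⁻¹ : EE K) : V K →ₗ[K] V K) =
      b • ((c : V K →ₗ[K] V K) ∘ₗ N ∘ₗ ((c⁻¹ : EE K) : V K →ₗ[K] V K)) := by
  ext x i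
  simp

theorem LgE2_conj {F : Subgroup (EE K)} {c : EE K} (hc : c ∈ GS K (SF F)) {N : LM K}
    (hN : N ∈ O1 F) :
    (c : V K →ₗ[K] V K) ∘ₗ N ∘ₗ ((c⁻¹ : EE K) : V K →ₗ[K] V K) ∈ O1 F := by
  obtain ⟨d, hd, a, ha, rfl⟩ := hN
  refine ⟨c * d, mul_mem hc hd, a, ha, ?_⟩
  rw [LgE2_conj_smul, lr_mul]

theorem LgE2_zero {F : Subgroup (EE K)} : (Nl 0 : LM K) ∈ O1 F :=
  ⟨1, one_mem _, 1, one_ne_zero, by rw [lr_one, one_smul]⟩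

theorem LgE2_one (hK : Ok K) {F : Subgroup (EE K)} (h0 : (0 : Rt) ∈ SF F)
    (h1 : (1 : Rt) ∈ SF F) : (Nl 1 : LM K) ∈ O1 F := by
  obtain ⟨c, hc, hn, w, σ, τ, hM, hτ, -⟩ := wy_ex (ok_two hK) (0 : Rt)
  obtain ⟨d, hd, hX⟩ := hM.mX 0
  have hng : ng (0 : Rt) = 1 := by decide
  rw [hng] at hτ
  set n : EE K := X 0 1 * X (ng 0) c * X 0 1 with hndef
  have hnG : n ∈ GS K (SF F) := by
    rw [hndef, hng]
    exact mul_mem (mul_mem (X_mem_GS h0 _) (X_mem_GS h1 _)) (X_mem_GS h0 _)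
  have h3 : lr n 0 = d • (Nl 1 : LM K) := by
    apply LinearMap.ext
    intro x
    have h4 := lr_X n (r := 0) (by decide) (1 : K) x
    rw [hX 1, hτ, one_smul] at h4
    have h5 := lr_X (1 : EE K) (r := 1) (by decide) (d * 1) x
    rw [lr_one] at h5
    have h6 : ((1 : EE K) * X 1 (d * 1) * (1 : EE K)⁻¹) = X 1 (d * 1) := by group
    rw [h6] at h5
    rw [h5, mul_one] at h4
    have h7 := add_left_cancel h4
    rw [← h7]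
    rfl
  refine ⟨n, hnG, d⁻¹, inv_ne_zero hd, ?_⟩
  rw [h3, smul_smul, inv_mul_cancel₀ hd, one_smul]

theorem lg_i (hK : Ok K) {F : Subgroup (EE K)} (hF : Ov F) (h0 : (0 : Rt) ∈ SF F)
    (h1 : (1 : Rt) ∈ SF F) {f : EE K} (hf : f ∈ F) {N1 : LM K} (hN : N1 ∈ O1 F)
    (ht : tf N1 (lr f 0) ≠ 0) : lr f 0 ∈ O1 F := by
  obtain ⟨c, hc, a, ha, rfl⟩ := hN
  have hcF : c ∈ F := GS_SF_le hF hc
  have hg : c⁻¹ * f ∈ F := F.mul_mem (F.inv_mem hcF) hf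
  have e1 : lr f 0 = (c : V K →ₗ[K] V K) ∘ₗ lr (c⁻¹ * f) 0 ∘ₗ
      ((c⁻¹ : EE K) : V K →ₗ[K] V K) := by
    rw [← lr_mul, mul_inv_cancel_left]
  have e2 : tf (a • lr c 0) (lr f 0) = a * tf (Nl 0) (lr (c⁻¹ * f) 0) := by
    have e3 := tf_conj c (Nl 0) (lr (c⁻¹ * f) 0)
    rw [← e1] at e3
    rw [← e3]
    unfold tf
    rw [LinearMap.smul_comp, map_smul]
    rfl
  have ht' : tf (Nl 0) (lr (c⁻¹ * f) 0) ≠ 0 := by
    intro h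
    rw [e2, h, mul_zero] at ht
    exact ht rfl
  obtain ⟨-, q, hq, b, hb, hqb⟩ := Pp hK hF h0 hg ht'
  have hqG : q ∈ GS K (SF F) := PG_F hK hF hq
  rw [e1, hqb, LgE2_conj_smul]
  apply LgE2_smul _ hb
  apply LgE2_conj hc
  exact LgE2_conj hqG (LgE2_one hK h0 h1)

theorem O1_zero {F : Subgroup (EE K)} : (Nl 0 : LM K) ∈ O1 F := LgE2_zero

theorem O1_one (hK : Ok K) {F : Subgroup (EE K)} (h0 : (0 : Rt) ∈ SF F)
    (h1 : (1 : Rt) ∈ SF F) : (Nl 1 : LM K) ∈ O1 F := LgE2_one hK h0 h1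

theorem O1_conj {F : Subgroup (EE K)} {c : EE K} (hc : c ∈ GS K (SF F)) {N : LM K}
    (hN : N ∈ O1 F) : (c : V K →ₗ[K] V K) ∘ₗ N ∘ₗ ((c⁻¹ : EE K) : V K →ₗ[K] V K) ∈ O1 F :=
  LgE2_conj hc hN

end Pool.Agent.H40.GT
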