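import Pool.Agent.H40.GT.LgF4

/-!
# Project GT: see the files LgF1, LgF2, LgF3, LgF4
-/
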