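import Pool.Agent.H40.GT.LgE
import Pool.Agent.H40.GT.Clo

/-!
# Part LgF1 (of LgF1, LgF2, LgF3, LgF4); GT-66 the span of the orbit

`Sg F` = the span of `O1 F`.
* `sg_conj`: `Sg F` is stable under conjugation by `GS K (SF F)`, in particular by the torus.
* `sg_br`: `N1, N2 ∈ O1 F`: `N1 N2 - N2 N1 ∈ Sg F`: let `N2 = a • lr c 0`; `x = c X_0(a) c⁻¹ = 1 + N2 ∈ GS K (SF F)`,
  `x N1 x⁻¹ = (1 + N2) N1 (1 - N2) = N1 + (N2 N1 - N1 N2) - N2 N1 N2`, and `N2 N1 N2` is a multiple of `N2`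
  (`aba`).  By bilinearity `D, D' ∈ Sg F` implies `D D' - D' D ∈ Sg F` (`sg_lie`).
* `sg_wc`: `D ∈ Sg F` implies `wc v D ∈ Sg F`: `wc v D = |T|⁻¹ ∑_t ch v t⁻¹ tor t D tor t⁻¹`, because for weights
  `v, v'` of `LM K` (differences of two `wt`) with `v ≠ v'` the characters are different
  (the entries of `v - v'` are at most `4` in absolute value, less than `|K| - 1`); or apply polynomials
  in the conjugation by `tor (z, 1)` and `tor (1, z)`, `z` a generator of `Kˣ`.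
* `Sg_A`: suppose `0, 1 ∈ SF F` and all other roots in `SF F` are `10, 11` (`rt = ± (1,1)`).
  Let `H = Nl 0 Nl 1 - Nl 1 Nl 0`.  The span of `Nl 0, H, Nl 1` is stable under conjugation by `TT`,
  `X 0 s`, `X 1 s` (`X_0(s) Nl 1 X_0(-s) = Nl 1 + s H - s^2 Nl 0`, `[H, Nl 0] = 2 Nl 0`), and `X 10 s`, `X 11 s`
  commute with `Nl 0, Nl 1`; so it contains `Sg F`.  If `D = a Nl 0 + h H + c Nl 1` has `tf N D = 0` for all
  `N ∈ O1 F`: `N = Nl 1`: `2 a = 0`; `N = Nl 0`: `2 c = 0`; `N = X_0(1) Nl 1 X_0(-1)`: `4 h = 0` (`tf H H = 4`).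
* `Sg_B`: suppose all long roots are in `SF F`.  `Nl r ∈ Sg F` for all long `r` (these are conjugate
  to `Nl 0` up to multiples under the Weyl elements of `wy_ex`, which are in `GS K (SF F)`; or:
  `Nl 1 ∈ O1`, and `[Nl 0, Nl r] = ± Nl r'`...).  Let `D ∈ Sg F`, `tf N D = 0` for all `N ∈ O1 F`, so
  `tf D' D = 0` for all `D' ∈ Sg F`.  Let `D1 = wc v D`; it is in `Sg F` and `tf D' D1 = 0` for `D' ∈ Sg F`
  (`tf (wc v' D') (wc v D) = 0` unless `v' = -v`; `tf D' (wc v D) = tf (wc (-v) D') D`).  If `v ≠ 0` and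
  `D1 ≠ 0` then `D1 = c • Nl r` (`IsD_weight`), `Nl r ∈ Sg F`.  `r` long: `tf (Nl (ng r)) (Nl r) = 2 ≠ 0`.
  `r` short: there are long `y1, y2` with `rt r + rt y1 = rt r1`, `rt r + rt y2 = rt r2` short and
  `rt r1 + rt r2 = - rt r` (e.g. `r = (1,0)`: `y1 = (-1,1)`, `y2 = (-2,-1)`), so `Nl r1, Nl r2, Nl (ng r) ∈ Sg F`
  by `sg_lie` and `Nl_comm`, and `tf (Nl (ng r)) (Nl r) = -6 ≠ 0`.  `v = 0`: `D1` is a diagonal derivation,
  entries `a_1, a_2, a_3` on `e_1, e_2, e_3`, `-a_i` on `e_-i`, `0` on `e_0`, `a_1 + a_2 + a_3 = 0`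
  (derivation of `br e_1 e_2 = 2 e_-3`); `tf D1 (Nl 0 Nl 1 - Nl 1 Nl 0) = 2 (a_1 - a_2) = 0`, similarly
  `a_2 = a_3`, `3 a_1 = 0`, `D1 = 0`.  `wc_zero`.
-/

namespace Pool.Agent.H40.GT

variable {K : Type} [Field K]

/-- the span of the orbit -/
def Sg (F : Subgroup (EE K)) : Submodule K (LM K) := Submodule.span K (O1 F)

/-- conjugation as a linear map -/
def LgF1_cj (c : EE K) : LM K →ₗ[K] LM K where
  toFun D := (c : V K →ₗ[K] V K) ∘ₗ D ∘ₗ ((c⁻¹ : EE K) : V K →ₗ[K] V K)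
  map_add' := by
    intro a b
    apply LinearMap.ext
    intro x
    show c ((a + b) (c⁻¹ x)) = c (a (c⁻¹ x)) + c (b (c⁻¹ x))
    rw [LinearMap.add_apply, map_add]
  map_smul' := by
    intro a b
    apply LinearMap.ext
    intro x
    show c ((a • b) (c⁻¹ x)) = a • c (b (c⁻¹ x))
    rw [LinearMap.smul_apply, map_smul]

theorem sg_conj {F : Subgroup (EE K)} {c : EE K} (hc : c ∈ GS K (SF F)) {D : LM K}
    (hD : D ∈ Sg F) : (c : V K →ₗ[K] V K) ∘ₗ D ∘ₗ ((c⁻¹ : EE K) : V K →ₗ[K] V K) ∈ Sg F := by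
  show LgF1_cj c D ∈ Sg F
  have h : Sg F ≤ (Sg F).comap (LgF1_cj c) := by
    unfold Sg
    rw [Submodule.span_le]
    intro N hN
    exact Submodule.subset_span (O1_conj hc hN)
  exact h hD

theorem LgF1_IsD_add {D D' : LM K} (h : IsD D) (h' : IsD D') : IsD (D + D') := by
  have br_add : ∀ a b y : V K, br (a + b) y = br a y + br b y := by
    intro a b y
    ext i
    fin_cases i <;> simp [br] <;> ring
  have add_br : ∀ a b y : V K, br y (a + b) = br y a + br y b := by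
    intro a b y
    ext i
    fin_cases i <;> simp [br] <;> ring
  refine ⟨fun x y => ?_, fun x y => ?_⟩
  · rw [LinearMap.add_apply, LinearMap.add_apply, LinearMap.add_apply, h.1, h'.1, br_add, add_br]
    abel
  · have h1 := h.2 x y
    have h2 := h'.2 x y
    rw [LinearMap.add_apply, LinearMap.add_apply]
    have e1 : ∀ a b y : V K, bf (a + b) y = bf a y + bf b y := by
      intro a b y
      unfold bf
      simp only [Pi.add_apply]
      ring
    have e2 : ∀ a b y : V K, bf y (a + b) = bf y a + bf y b := by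
      intro a b y
      unfold bf
      simp only [Pi.add_apply]
      ring
    rw [e1, e2]
    linear_combination h1 + h2

theorem LgF1_IsD_smul {D : LM K} (h : IsD D) (c : K) : IsD (c • D) := by
  have br_smul : ∀ a y : V K, br (c • a) y = c • br a y := by
    intro a y
    ext i
    fin_cases i <;> simp [br] <;> ring
  have smul_br : ∀ a y : V K, br y (c • a) = c • br y a := by
    intro a y
    ext i
    fin_cases i <;> simp [br] <;> ring
  refine ⟨fun x y => ?_, fun x y => ?_⟩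
  · rw [LinearMap.smul_apply, LinearMap.smul_apply, LinearMap.smul_apply, h.1, br_smul, smul_br,
      smul_add]
  · have h1 := h.2 x y
    rw [LinearMap.smul_apply, LinearMap.smul_apply]
    have e1 : ∀ a y : V K, bf (c • a) y = c * bf a y := by
      intro a y
      unfold bf
      simp only [Pi.smul_apply, smul_eq_mul]
      ring
    have e2 : ∀ a y : V K, bf y (c • a) = c * bf y a := by
      intro a y
      unfold bf
      simp only [Pi.smul_apply, smul_eq_mul]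
      ring
    rw [e1, e2]
    linear_combination c * h1

theorem LgF1_IsD_zero : IsD (0 : LM K) := by
  have h := LgF1_IsD_smul (Nl_IsD (K := K) 0) 0
  rwa [zero_smul] at h

theorem LgF1_O1_IsD {F : Subgroup (EE K)} {N : LM K} (hN : N ∈ O1 F) : IsD N := by
  obtain ⟨c, hc, a, -, rfl⟩ := hN
  exact LgF1_IsD_smul (lr_IsD (GS_le_GG _ hc) 0) a

theorem LgF1_pair (hK : Ok K) {F : Subgroup (EE K)} (h0 : (0 : Rt) ∈ SF F) {N1 N2 : LM K}
    (hN1 : N1 ∈ O1 F) (hN2 : N2 ∈ O1 F) : N1 ∘ₗ N2 - N2 ∘ₗ N1 ∈ Sg F := by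
  have h2 := ok_two hK
  have hD1 := LgF1_O1_IsD hN1
  have hS1 : N1 ∈ Sg F := Submodule.subset_span hN1
  obtain ⟨c, hc, a, ha, rfl⟩ := hN2
  have hS2 : a • lr c 0 ∈ Sg F := Submodule.subset_span ⟨c, hc, a, ha, rfl⟩
  set x : EE K := c * X 0 a * c⁻¹ with hx
  have hxm : x ∈ GS K (SF F) := mul_mem (mul_mem hc (X_mem_GS h0 a)) (inv_mem hc)
  have hxi : x⁻¹ = c * X 0 (-a) * c⁻¹ := by
    rw [hx, mul_inv_rev, mul_inv_rev, inv_inv, X_inv, mul_assoc]
  have h1 : ∀ y, x y = y + a • lr c 0 y := fun y => lr_X c (by decide) a y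
  have h1i : ∀ y, x⁻¹ y = y - a • lr c 0 y := by
    intro y
    rw [hxi, lr_X c (by decide) (-a) y, neg_smul, sub_eq_add_neg]
  have h3 := sg_conj hxm hS1
  have hab := aba h2 (GS_le_GG _ hc) (r := 0) (by decide) hD1.2
  have h4 : N1 ∘ₗ (a • lr c 0) - (a • lr c 0) ∘ₗ N1 =
      N1 - (x : V K →ₗ[K] V K) ∘ₗ N1 ∘ₗ ((x⁻¹ : EE K) : V K →ₗ[K] V K) -
        (a * tf (lr c 0) N1 / 2) • (a • lr c 0) := by
    apply LinearMap.ext
    intro y
    have e1 : ((x : V K →ₗ[K] V K) ∘ₗ N1 ∘ₗ ((x⁻¹ : EE K) : V K →ₗ[K] V K)) y =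
        x (N1 (x⁻¹ y)) := rfl
    rw [LinearMap.sub_apply, LinearMap.sub_apply, LinearMap.sub_apply, e1, h1i, h1]
    have e2 : (N1 ∘ₗ (a • lr c 0)) y = a • N1 (lr c 0 y) := by
      show N1 (a • lr c 0 y) = _
      rw [map_smul]
    have e3 : ((a • lr c 0) ∘ₗ N1) y = a • lr c 0 (N1 y) := rfl
    have e4 : ((a * tf (lr c 0) N1 / 2) • (a • lr c 0)) y =
        (a * a) • lr c 0 (N1 (lr c 0 y)) := by
      show (a * tf (lr c 0) N1 / 2) • (a • lr c 0 y) = _
      have h5 := hab y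
      have h6 : lr c 0 (N1 (lr c 0 y)) = (tf (lr c 0) N1 / 2) • lr c 0 y := by
        rw [div_eq_inv_mul, mul_smul, ← h5, smul_smul, inv_mul_cancel₀ h2, one_smul]
      rw [h6, smul_smul, smul_smul]
      congr 1
      ring
    rw [e2, e3, e4]
    simp only [map_sub, map_smul, smul_sub, smul_smul]
    abel
  rw [h4]
  exact Submodule.sub_mem _ (Submodule.sub_mem _ hS1 h3) (Submodule.smul_mem _ _ hS2)

theorem sg_lie (hK : Ok K) {F : Subgroup (EE K)} (hF : Ov F) (h0 : (0 : Rt) ∈ SF F) {D D' : LM K}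
    (hD : D ∈ Sg F) (hD' : D' ∈ Sg F) : D ∘ₗ D' - D' ∘ₗ D ∈ Sg F := by
  have h1 : ∀ N ∈ O1 F, ∀ E ∈ Sg F, E ∘ₗ N - N ∘ₗ E ∈ Sg F := by
    intro N hN E hE
    unfold Sg at hE
    induction hE using Submodule.span_induction with
    | mem x hx => exact LgF1_pair hK h0 hx hN
    | zero =>
      have e : (0 : LM K) ∘ₗ N - N ∘ₗ (0 : LM K) = 0 := by
        rw [LinearMap.zero_comp, LinearMap.comp_zero, sub_zero]
      rw [e]
      exact zero_mem _
    | add x y hx hy h1 h2 =>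
      have e : (x + y) ∘ₗ N - N ∘ₗ (x + y) = (x ∘ₗ N - N ∘ₗ x) + (y ∘ₗ N - N ∘ₗ y) := by
        rw [LinearMap.add_comp, LinearMap.comp_add]
        abel
      rw [e]
      exact add_mem h1 h2
    | smul a x hx h1 =>
      have e : (a • x) ∘ₗ N - N ∘ₗ (a • x) = a • (x ∘ₗ N - N ∘ₗ x) := by
        rw [LinearMap.smul_comp, LinearMap.comp_smul, smul_sub]
      rw [e]
      exact Submodule.smul_mem _ _ h1
  unfold Sg at hD'
  induction hD' using Submodule.span_induction with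
  | mem x hx => exact h1 x hx D hD
  | zero =>
    have e : D ∘ₗ (0 : LM K) - (0 : LM K) ∘ₗ D = 0 := by
      rw [LinearMap.zero_comp, LinearMap.comp_zero, sub_zero]
    rw [e]
    exact zero_mem _
  | add x y hx hy h1 h2 =>
    have e : D ∘ₗ (x + y) - (x + y) ∘ₗ D = (D ∘ₗ x - x ∘ₗ D) + (D ∘ₗ y - y ∘ₗ D) := by
      rw [LinearMap.add_comp, LinearMap.comp_add]
      abel
    rw [e]
    exact add_mem h1 h2
  | smul a x hx h1 =>
    have e : D ∘ₗ (a • x) - (a • x) ∘ₗ D = a • (D ∘ₗ x - x ∘ₗ D) := by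
      rw [LinearMap.smul_comp, LinearMap.comp_smul, smul_sub]
    rw [e]
    exact Submodule.smul_mem _ _ h1

theorem sg_IsD {F : Subgroup (EE K)} (hF : Ov F) {D : LM K} (hD : D ∈ Sg F) : IsD D := by
  unfold Sg at hD
  induction hD using Submodule.span_induction with
  | mem x hx => exact LgF1_O1_IsD hx
  | zero => exact LgF1_IsD_zero
  | add x y hx hy h1 h2 => exact LgF1_IsD_add h1 h2
  | smul a x hx h1 => exact LgF1_IsD_smul h1 a

end Pool.Agent.H40.GT
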