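import Pool.Agent.H40.GT.LgF1

/-!
# Part LgF2 (of LgF1, LgF2, LgF3, LgF4); GT-66 the span of the orbit

`Sg F` = the span of `O1 F`.
* `sg_conj`: `Sg F` is stable under conjugation by `GS K (SF F)`, in particular by the torus.
* `sg_br`: `N1, N2 ∈ O1 F`: `N1 N2 - N2 N1 ∈ Sg F`: let `N2 = a • lr c 0`; `x = c X_0(a) c⁻¹ = 1 + N2 ∈ GS K (SF F)`,
  `x N1 x⁻¹ = (1 + N2) N1 (1 - N2) = N1 + (N2 N1 - N1 N2) - N2 N1 N2`, and `N2 N1 N2` is a multiple of `N2`
  (`aba`).  By bilinearity `D, D' ∈ Sg F` implies `D D' - D' D ∈ Sg F` (`sg_lie`).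
* `sg_wc`: `D ∈ Sg F` implies `wc v D ∈ Sg F`: `wc v D = |T|⁻¹ ∑_t ch v t⁻¹ tor t D tor t⁻¹`, because for weights
  `v, v'` of `LM K` (differences of two `wt`) with `v ≠ v'` the characters are different
  (the entries of `v - v'` are at most `4` in absolute value, less than `|K| - 1`); or apply polynomials
  in the conjugation by `tor (z, 1)` and `tor (1, z)`, `z` a generator of `Kˣ`.
* `Sg_A`: suppose `0, 1 ∈ SF F` and all other roots in `SF F` are `10, 11` (`rt = ± (1,1)`).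
  Let `H = Nl 0 Nl 1 - Nl 1 Nl 0`.  The span of `Nl 0, H, Nl 1` is stable under conjugation by `TT`,
  `X 0 s`, `X 1 s` (`X_0(s) Nl 1 X_0(-s) = Nl 1 + s H - s^2 Nl 0`, `[H, Nl 0] = 2 Nl 0`), and `X 10 s`, `X 11 s`
  commute with `Nl 0, Nl 1`; so it contains `Sg F`.  If `D = a Nl 0 + h H + c Nl 1` has `tf N D = 0` for all
  `N ∈ O1 F`: `N = Nl 1`: `2 a = 0`; `N = Nl 0`: `2 c = 0`; `N = X_0(1) Nl 1 X_0(-1)`: `4 h = 0` (`tf H H = 4`).
* `Sg_B`: suppose all long roots are in `SF F`.  `Nl r ∈ Sg F` for all long `r` (these are conjugate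
  to `Nl 0` up to multiples under the Weyl elements of `wy_ex`, which are in `GS K (SF F)`; or:
  `Nl 1 ∈ O1`, and `[Nl 0, Nl r] = ± Nl r'`...).  Let `D ∈ Sg F`, `tf N D = 0` for all `N ∈ O1 F`, so
  `tf D' D = 0` for all `D' ∈ Sg F`.  Let `D1 = wc v D`; it is in `Sg F` and `tf D' D1 = 0` for `D' ∈ Sg F`
  (`tf (wc v' D') (wc v D) = 0` unless `v' = -v`; `tf D' (wc v D) = tf (wc (-v) D') D`).  If `v ≠ 0` and
  `D1 ≠ 0` then `D1 = c • Nl r` (`IsD_weight`), `Nl r ∈ Sg F`.  `r` long: `tf (Nl (ng r)) (Nl r) = 2 ≠ 0`.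
  `r` short: there are long `y1, y2` with `rt r + rt y1 = rt r1`, `rt r + rt y2 = rt r2` short and
  `rt r1 + rt r2 = - rt r` (e.g. `r = (1,0)`: `y1 = (-1,1)`, `y2 = (-2,-1)`), so `Nl r1, Nl r2, Nl (ng r) ∈ Sg F`
  by `sg_lie` and `Nl_comm`, and `tf (Nl (ng r)) (Nl r) = -6 ≠ 0`.  `v = 0`: `D1` is a diagonal derivation,
  entries `a_1, a_2, a_3` on `e_1, e_2, e_3`, `-a_i` on `e_-i`, `0` on `e_0`, `a_1 + a_2 + a_3 = 0`
  (derivation of `br e_1 e_2 = 2 e_-3`); `tf D1 (Nl 0 Nl 1 - Nl 1 Nl 0) = 2 (a_1 - a_2) = 0`, similarly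
  `a_2 = a_3`, `3 a_1 = 0`, `D1 = 0`.  `wc_zero`.
-/

namespace Pool.Agent.H40.GT

variable {K : Type} [Field K]

theorem LgF2_sum (hK : Ok K) [Fintype K] [DecidableEq K] (a : ℤ) (h1 : -4 ≤ a) (h2 : a ≤ 4) :
    ∑ x : Kˣ, ((x ^ a : Kˣ) : K) = if a = 0 then -1 else 0 := by
  classical
  have hc : Fintype.card K = 7 ∨ Fintype.card K = 11 := by
    rw [← Nat.card_eq_fintype_card]
    exact hK
  obtain ⟨n, hn⟩ : ∃ n : ℕ, (n : ℤ) = a + ((Fintype.card K - 1 : ℕ) : ℤ) := by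
    refine ⟨(a + ((Fintype.card K - 1 : ℕ) : ℤ)).toNat, ?_⟩
    rw [Int.toNat_of_nonneg]
    rcases hc with h | h <;> rw [h] <;> push_cast <;> omega
  have e : ∀ x : Kˣ, ((x ^ a : Kˣ) : K) = (x : K) ^ n := by
    intro x
    have h3 : x ^ (Fintype.card K - 1) = 1 := by
      apply Units.ext
      rw [Units.val_pow_eq_pow_val, Units.val_one]
      exact FiniteField.pow_card_sub_one_eq_one (x : K) x.ne_zero
    rw [← Units.val_pow_eq_pow_val]
    congr 1
    rw [← zpow_natCast, hn, zpow_add, zpow_natCast, h3, mul_one]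
  rw [Finset.sum_congr rfl fun x _ => e x]
  have h4 := FiniteField.sum_pow_units K n
  rw [h4]
  have h6 : Fintype.card K - 1 ∣ n ↔ a = 0 := by
    rcases hc with h | h
    · rw [h] at hn ⊢
      push_cast at hn
      constructor
      · intro h7
        have : (6 : ℤ) ∣ n := by exact_mod_cast h7
        omega
      · intro h7
        have : (6 : ℤ) ∣ n := by omega
        exact_mod_cast this
    · rw [h] at hn ⊢
      push_cast at hn
      constructor
      · intro h7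
        have : (10 : ℤ) ∣ n := by exact_mod_cast h7
        omega
      · intro h7
        have : (10 : ℤ) ∣ n := by omega
        exact_mod_cast this
  by_cases h7 : a = 0
  · rw [if_pos (h6.2 h7), if_pos h7]
  · rw [if_neg (fun h => h7 (h6.1 h)), if_neg h7]

theorem LgF2_ch (hK : Ok K) [Fintype K] [DecidableEq K] (w : ℤ × ℤ) (h1 : -4 ≤ w.1) (h2 : w.1 ≤ 4)
    (h3 : -4 ≤ w.2) (h4 : w.2 ≤ 4) :
    ∑ t : Kˣ × Kˣ, ((ch w t : Kˣ) : K) = if w = 0 then 1 else 0 := by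
  classical
  have e : ∑ t : Kˣ × Kˣ, ((ch w t : Kˣ) : K) =
      (∑ x : Kˣ, ((x ^ w.1 : Kˣ) : K)) * ∑ y : Kˣ, ((y ^ w.2 : Kˣ) : K) := by
    rw [Fintype.sum_prod_type, Finset.sum_mul_sum]
    refine Finset.sum_congr rfl fun x _ => Finset.sum_congr rfl fun y _ => ?_
    rw [← Units.val_mul]
    rfl
  rw [e, LgF2_sum hK w.1 h1 h2, LgF2_sum hK w.2 h3 h4]
  by_cases h5 : w.1 = 0
  · by_cases h6 : w.2 = 0
    · rw [if_pos h5, if_pos h6, if_pos (Prod.ext h5 h6)]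
      ring
    · have h7 : ¬ w = 0 := fun h => h6 (congrArg Prod.snd h)
      rw [if_neg h6, if_neg h7, mul_zero]
  · have h7 : ¬ w = 0 := fun h => h5 (congrArg Prod.fst h)
    rw [if_neg h5, if_neg h7, zero_mul]

theorem LgF2_conj (t : Kˣ × Kˣ) (D : LM K) (i j : Fin 7) :
    ((tor t : EE K) : V K →ₗ[K] V K) (D ((((tor t)⁻¹ : EE K) : V K →ₗ[K] V K) (ev j))) i =
      (ch (wt i - wt j) t : K) * D (ev j) i := by
  have h1 : (((tor t)⁻¹ : EE K) : V K →ₗ[K] V K) (ev j) = (ch (-wt j) t : K) • (ev j : V K) := by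
    show ((tor t)⁻¹ : EE K) (ev j) = _
    rw [← map_inv]
    ext k
    rw [tor_apply, Pi.smul_apply, smul_eq_mul]
    unfold ev
    by_cases h : k = j
    · subst h
      rw [Pi.single_eq_same, mul_one, mul_one]
      congr 1
      rw [ch_neg]
      unfold ch
      rw [Prod.fst_inv, Prod.snd_inv, inv_zpow, inv_zpow, mul_inv]
    · rw [Pi.single_eq_of_ne h, mul_zero, mul_zero]
  rw [h1, map_smul, map_smul, Pi.smul_apply, smul_eq_mul]
  show (ch (-wt j) t : K) * (tor t (D (ev j)) i) = _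
  rw [tor_apply, sub_eq_add_neg, ch_add, Units.val_mul]
  ring

theorem LgF2_wt : ∀ i j : Fin 7, -2 ≤ (wt i - wt j).1 ∧ (wt i - wt j).1 ≤ 2 ∧
    -2 ≤ (wt i - wt j).2 ∧ (wt i - wt j).2 ≤ 2 := by
  decide

theorem sg_wc (hK : Ok K) {F : Subgroup (EE K)} (hF : Ov F) {D : LM K} (hD : D ∈ Sg F)
    (v : ℤ × ℤ) : wc v D ∈ Sg F := by
  classical
  have hfin : Finite K := Nat.finite_of_card_ne_zero (by rcases hK with h | h <;> rw [h] <;> omega)
  have : Fintype K := Fintype.ofFinite K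
  let _ : DecidableEq K := Classical.decEq K
  by_cases hv : ∃ i j : Fin 7, v = wt i - wt j
  · obtain ⟨i0, j0, hv⟩ := hv
    have hT : ∀ t : Kˣ × Kˣ, tor t ∈ GS K (SF F) := fun t =>
      Subgroup.subset_closure (Or.inl ⟨t, rfl⟩)
    have h1 : ∑ t : Kˣ × Kˣ, (ch (-v) t : K) • ((tor t : EE K) : V K →ₗ[K] V K) ∘ₗ D ∘ₗ
        (((tor t)⁻¹ : EE K) : V K →ₗ[K] V K) ∈ Sg F :=
      Submodule.sum_mem _ fun t _ => Submodule.smul_mem _ _ (sg_conj (hT t) hD)
    have h2 : wc v D = ∑ t : Kˣ × Kˣ, (ch (-v) t : K) • ((tor t : EE K) : V K →ₗ[K] V K) ∘ₗ D ∘ₗ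
        (((tor t)⁻¹ : EE K) : V K →ₗ[K] V K) := by
      apply (Pi.basisFun K (Fin 7)).ext
      intro j
      rw [Pi.basisFun_apply]
      show wc v D (ev j) = _
      ext i
      rw [wc_ev, LinearMap.sum_apply, Finset.sum_apply]
      have h3 : ∀ t : Kˣ × Kˣ, ((ch (-v) t : K) • ((tor t : EE K) : V K →ₗ[K] V K) ∘ₗ D ∘ₗ
          (((tor t)⁻¹ : EE K) : V K →ₗ[K] V K)) (Pi.single j 1) i =
          (ch (wt i - wt j - v) t : K) * D (ev j) i := by
        intro t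
        show (ch (-v) t : K) * ((tor t : EE K) : V K →ₗ[K] V K)
          (D ((((tor t)⁻¹ : EE K) : V K →ₗ[K] V K) (ev j))) i = _
        rw [LgF2_conj, sub_eq_add_neg (wt i - wt j) v, ch_add, Units.val_mul]
        ring
      rw [Finset.sum_congr rfl fun t _ => h3 t, ← Finset.sum_mul]
      obtain ⟨a1, a2, a3, a4⟩ := LgF2_wt i j
      obtain ⟨b1, b2, b3, b4⟩ := LgF2_wt i0 j0
      rw [← hv] at b1 b2 b3 b4
      have c1 : (wt i - wt j - v).1 = (wt i - wt j).1 - v.1 := rfl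
      have c2 : (wt i - wt j - v).2 = (wt i - wt j).2 - v.2 := rfl
      rw [LgF2_ch hK (wt i - wt j - v) (by omega) (by omega) (by omega) (by omega)]
      have h5 : wt i - wt j - v = 0 ↔ wt i = wt j + v := by
        rw [sub_eq_zero, sub_eq_iff_eq_add, add_comm v]
      by_cases h6 : wt i = wt j + v
      · rw [if_pos h6, if_pos (h5.2 h6), one_mul]
      · rw [if_neg h6, if_neg (fun h => h6 (h5.1 h)), zero_mul]
    rw [h2]
    exact h1
  · have h2 : wc v D = 0 := by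
      apply (Pi.basisFun K (Fin 7)).ext
      intro j
      rw [Pi.basisFun_apply]
      show wc v D (ev j) = _
      ext i
      rw [wc_ev, if_neg]
      · rfl
      · intro h
        exact hv ⟨i, j, by rw [h, add_sub_cancel_left]⟩
    rw [h2]
    exact zero_mem _

end Pool.Agent.H40.GT
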