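import Pool.Agent.H40.GT.LgF2

/-!
# Part LgF3 (of LgF1, LgF2, LgF3, LgF4); GT-66 the span of the orbit

`Sg F` = the span of `O1 F`.
* `sg_conj`: `Sg F` is stable under conjugation by `GS K (SF F)`, in particular by the torus.
* `sg_br`: `N1, N2 ∈ O1 F`: `N1 N2 - N2 N1 ∈ Sg F`: let `N2 = a • lr c 0`; `x = c X_0(a) c⁻¹ = 1 + N2 ∈ GS K (SF F)`,
  `x N1 x⁻¹ = (1 + N2) N1 (1 - N2) = N1 + (N2 N1 - N1 N2) - N2 N1 N2`, and `N2 N1 N2` is a multiple of `N2`
  (`aba`).  By bilinearity `D, D' ∈ Sg F` implies `D D' - D' D ∈ Sg F` (`sg_lie`).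
* `sg_wc`: `D ∈ Sg F` implies `wc v D ∈ Sg F`: `wc v D = |T|⁻¹ ∑_t ch v t⁻¹ tor t D tor t⁻¹`, because for weights
  `v, v'` of `LM K` (differences of two `wt`) with `v ≠ v'` the characters are different
  (the entries of `v - v'` are at most `4` in absolute value, less than `|K| - 1`); or apply polynomials
  in the conjugation by `tor (z, 1)` and `tor (1, z)`, `z` a generator of `Kˣ`.
* `Sg_A`: suppose `0, 1 ∈ SF F` and all other roots in `SF F` are `10, 11` (`rt = ± (1,1)`).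
  Let `H = Nl 0 Nl 1 - Nl 1 Nl 0`.  The span of `Nl 0, H, Nl 1` is stable under conjugation by `TT`,
  `X 0 s`, `X 1 s` (`X_0(s) Nl 1 X_0(-s) = Nl 1 + s H - s^2 Nl 0`, `[H, Nl 0] = 2 Nl 0`), and `X 10 s`, `X 11 s`
  commute with `Nl 0, Nl 1`; so it contains `Sg F`.  If `D = a Nl 0 + h H + c Nl 1` has `tf N D = 0` for all
  `N ∈ O1 F`: `N = Nl 1`: `2 a = 0`; `N = Nl 0`: `2 c = 0`; `N = X_0(1) Nl 1 X_0(-1)`: `4 h = 0` (`tf H H = 4`).
* `Sg_B`: suppose all long roots are in `SF F`.  `Nl r ∈ Sg F` for all long `r` (these are conjugate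
  to `Nl 0` up to multiples under the Weyl elements of `wy_ex`, which are in `GS K (SF F)`; or:
  `Nl 1 ∈ O1`, and `[Nl 0, Nl r] = ± Nl r'`...).  Let `D ∈ Sg F`, `tf N D = 0` for all `N ∈ O1 F`, so
  `tf D' D = 0` for all `D' ∈ Sg F`.  Let `D1 = wc v D`; it is in `Sg F` and `tf D' D1 = 0` for `D' ∈ Sg F`
  (`tf (wc v' D') (wc v D) = 0` unless `v' = -v`; `tf D' (wc v D) = tf (wc (-v) D') D`).  If `v ≠ 0` and
  `D1 ≠ 0` then `D1 = c • Nl r` (`IsD_weight`), `Nl r ∈ Sg F`.  `r` long: `tf (Nl (ng r)) (Nl r) = 2 ≠ 0`.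
  `r` short: there are long `y1, y2` with `rt r + rt y1 = rt r1`, `rt r + rt y2 = rt r2` short and
  `rt r1 + rt r2 = - rt r` (e.g. `r = (1,0)`: `y1 = (-1,1)`, `y2 = (-2,-1)`), so `Nl r1, Nl r2, Nl (ng r) ∈ Sg F`
  by `sg_lie` and `Nl_comm`, and `tf (Nl (ng r)) (Nl r) = -6 ≠ 0`.  `v = 0`: `D1` is a diagonal derivation,
  entries `a_1, a_2, a_3` on `e_1, e_2, e_3`, `-a_i` on `e_-i`, `0` on `e_0`, `a_1 + a_2 + a_3 = 0`
  (derivation of `br e_1 e_2 = 2 e_-3`); `tf D1 (Nl 0 Nl 1 - Nl 1 Nl 0) = 2 (a_1 - a_2) = 0`, similarly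
  `a_2 = a_3`, `3 a_1 = 0`, `D1 = 0`.  `wc_zero`.
-/

namespace Pool.Agent.H40.GT

variable {K : Type} [Field K]

theorem f3_tf_sum (A B : LM K) : tf A B = ∑ i, ∑ j, A (ev j) i * B (ev i) j := by
  unfold tf
  rw [LinearMap.trace_eq_matrix_trace K (Pi.basisFun K (Fin 7)),
    LinearMap.toMatrix_comp _ (Pi.basisFun K (Fin 7)) _, Matrix.trace]
  refine Finset.sum_congr rfl fun i _ => ?_
  rw [Matrix.diag_apply, Matrix.mul_apply]
  refine Finset.sum_congr rfl fun j _ => ?_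
  rw [LinearMap.toMatrix_apply, LinearMap.toMatrix_apply, Pi.basisFun_repr, Pi.basisFun_repr,
    Pi.basisFun_apply, Pi.basisFun_apply]
  rfl

theorem f3_tf_add (A B C : LM K) : tf A (B + C) = tf A B + tf A C := by
  simp only [f3_tf_sum, LinearMap.add_apply, Pi.add_apply, mul_add, Finset.sum_add_distrib]

theorem f3_tf_smul (c : K) (A C : LM K) : tf A (c • C) = c * tf A C := by
  simp only [f3_tf_sum, LinearMap.smul_apply, Pi.smul_apply, smul_eq_mul, Finset.mul_sum,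
    mul_left_comm]

/-- conjugation -/
def f3_cj (g : EE K) (D : LM K) : LM K :=
  (g : V K →ₗ[K] V K) ∘ₗ D ∘ₗ ((g⁻¹ : EE K) : V K →ₗ[K] V K)

theorem f3_cj_apply (g : EE K) (D : LM K) (x : V K) : f3_cj g D x = g (D (g⁻¹ x)) := rfl

theorem f3_cj_add (g : EE K) (D D' : LM K) : f3_cj g (D + D') = f3_cj g D + f3_cj g D' := by
  apply LinearMap.ext
  intro x
  simp only [f3_cj_apply, LinearMap.add_apply, map_add]

theorem f3_cj_smul (g : EE K) (c : K) (D : LM K) : f3_cj g (c • D) = c • f3_cj g D := by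
  apply LinearMap.ext
  intro x
  simp only [f3_cj_apply, LinearMap.smul_apply, map_smul]

theorem f3_cj_mul (g h : EE K) (D : LM K) : f3_cj (g * h) D = f3_cj g (f3_cj h D) := by
  apply LinearMap.ext
  intro x
  simp only [f3_cj_apply, mul_inv_rev, LinearEquiv.mul_apply]

theorem f3_cj_one (D : LM K) : f3_cj 1 D = D := by
  apply LinearMap.ext
  intro x
  rw [f3_cj_apply, inv_one]
  rfl

/-- the toral element -/
def f3_H (K : Type) [Field K] : LM K := Nl 0 ∘ₗ Nl 1 - Nl 1 ∘ₗ Nl 0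

theorem f3_H_apply (x : V K) : f3_H K x = ![0, x 1, -x 2, 0, -x 4, x 5, 0] := by
  ext i
  fin_cases i <;>
    simp [f3_H, Nl_apply, cc, sc]

theorem f3_N0_apply (x : V K) : Nl 0 x = ![0, x 2, 0, 0, 0, -x 4, 0] := by
  ext i
  fin_cases i <;>
    simp [Nl_apply, cc, sc]

theorem f3_N1_apply (x : V K) : Nl 1 x = ![0, 0, x 1, 0, -x 5, 0, 0] := by
  ext i
  fin_cases i <;>
    simp [Nl_apply, cc, sc]

theorem f3_X0_apply (s : K) (x : V K) :
    X 0 s x = ![x 0, x 1 + s * x 2, x 2, x 3, x 4, x 5 - s * x 4, x 6] := by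
  ext i
  fin_cases i <;>
    simp [X_apply, cc, sc, qc, qs] <;> ring

theorem f3_X1_apply (s : K) (x : V K) :
    X 1 s x = ![x 0, x 1, x 2 + s * x 1, x 3, x 4 - s * x 5, x 5, x 6] := by
  ext i
  fin_cases i <;>
    simp [X_apply, cc, sc, qc, qs] <;> ring

theorem f3_X10_apply (s : K) (x : V K) :
    X 10 s x = ![x 0 + s * x 6, x 1, x 2, x 3 - 2 * s * x 0 - s ^ 2 * x 6, x 4 + s * x 2,
      x 5 - s * x 1, x 6] := by
  ext i
  fin_cases i <;>
    simp [X_apply, cc, sc, qc, qs] <;> ring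

theorem f3_X11_apply (s : K) (x : V K) :
    X 11 s x = ![x 0 + s * x 3, x 1 + s * x 5, x 2 - s * x 4, x 3, x 4, x 5,
      x 6 - 2 * s * x 0 - s ^ 2 * x 3] := by
  ext i
  fin_cases i <;>
    simp [X_apply, cc, sc, qc, qs] <;> ring

/-- the Lie algebra of type `A_1` -/
def f3_W (K : Type) [Field K] : Submodule K (LM K) :=
  Submodule.span K {Nl 0, f3_H K, Nl 1}

theorem f3_mem {D : LM K} : D ∈ f3_W K ↔ ∃ a h c : K, D = a • Nl 0 + h • f3_H K + c • Nl 1 := by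
  unfold f3_W
  rw [Submodule.mem_span_triple]
  constructor
  · rintro ⟨a, h, c, e⟩
    exact ⟨a, h, c, e.symm⟩
  · rintro ⟨a, h, c, e⟩
    exact ⟨a, h, c, e.symm⟩

theorem f3_stab {g : EE K} (h0 : f3_cj g (Nl 0) ∈ f3_W K) (hH : f3_cj g (f3_H K) ∈ f3_W K)
    (h1 : f3_cj g (Nl 1) ∈ f3_W K) : ∀ D ∈ f3_W K, f3_cj g D ∈ f3_W K := by
  intro D hD
  obtain ⟨a, h, c, rfl⟩ := f3_mem.mp hD
  rw [f3_cj_add, f3_cj_add, f3_cj_smul, f3_cj_smul, f3_cj_smul]
  exact add_mem (add_mem (Submodule.smul_mem _ _ h0) (Submodule.smul_mem _ _ hH))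
    (Submodule.smul_mem _ _ h1)

theorem f3_stab0 (s : K) : ∀ D ∈ f3_W K, f3_cj (X 0 s) D ∈ f3_W K := by
  apply f3_stab
  · rw [f3_mem]
    refine ⟨1, 0, 0, ?_⟩
    apply LinearMap.ext
    intro x
    rw [f3_cj_apply, X_inv]
    simp only [LinearMap.add_apply, LinearMap.smul_apply]
    rw [f3_X0_apply, f3_N0_apply, f3_N0_apply, f3_H_apply, f3_N1_apply, f3_X0_apply]
    ext i
    fin_cases i <;> simp
  · rw [f3_mem]
    refine ⟨-2 * s, 1, 0, ?_⟩
    apply LinearMap.ext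
    intro x
    rw [f3_cj_apply, X_inv]
    simp only [LinearMap.add_apply, LinearMap.smul_apply]
    rw [f3_X0_apply, f3_N0_apply, f3_H_apply, f3_H_apply, f3_N1_apply, f3_X0_apply]
    ext i
    fin_cases i <;> simp <;> ring
  · rw [f3_mem]
    refine ⟨-s ^ 2, s, 1, ?_⟩
    apply LinearMap.ext
    intro x
    rw [f3_cj_apply, X_inv]
    simp only [LinearMap.add_apply, LinearMap.smul_apply]
    rw [f3_X0_apply, f3_N0_apply, f3_H_apply, f3_N1_apply, f3_N1_apply, f3_X0_apply]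
    ext i
    fin_cases i <;> simp <;> ring

theorem f3_stab1 (s : K) : ∀ D ∈ f3_W K, f3_cj (X 1 s) D ∈ f3_W K := by
  apply f3_stab
  · rw [f3_mem]
    refine ⟨1, -s, -s ^ 2, ?_⟩
    apply LinearMap.ext
    intro x
    rw [f3_cj_apply, X_inv]
    simp only [LinearMap.add_apply, LinearMap.smul_apply]
    rw [f3_X1_apply, f3_N0_apply, f3_N0_apply, f3_H_apply, f3_N1_apply, f3_X1_apply]
    ext i
    fin_cases i <;> simp <;> ring
  · rw [f3_mem]
    refine ⟨0, 1, 2 * s, ?_⟩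
    apply LinearMap.ext
    intro x
    rw [f3_cj_apply, X_inv]
    simp only [LinearMap.add_apply, LinearMap.smul_apply]
    rw [f3_X1_apply, f3_N0_apply, f3_H_apply, f3_H_apply, f3_N1_apply, f3_X1_apply]
    ext i
    fin_cases i <;> simp <;> ring
  · rw [f3_mem]
    refine ⟨0, 0, 1, ?_⟩
    apply LinearMap.ext
    intro x
    rw [f3_cj_apply, X_inv]
    simp only [LinearMap.add_apply, LinearMap.smul_apply]
    rw [f3_X1_apply, f3_N0_apply, f3_H_apply, f3_N1_apply, f3_N1_apply, f3_X1_apply]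
    ext i
    fin_cases i <;> simp

theorem f3_stab10 (s : K) : ∀ D ∈ f3_W K, f3_cj (X 10 s) D ∈ f3_W K := by
  apply f3_stab
  · rw [f3_mem]
    refine ⟨1, 0, 0, ?_⟩
    apply LinearMap.ext
    intro x
    rw [f3_cj_apply, X_inv]
    simp only [LinearMap.add_apply, LinearMap.smul_apply]
    rw [f3_X10_apply, f3_N0_apply, f3_N0_apply, f3_H_apply, f3_N1_apply, f3_X10_apply]
    ext i
    fin_cases i <;> simp
  · rw [f3_mem]
    refine ⟨0, 1, 0, ?_⟩
    apply LinearMap.ext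
    intro x
    rw [f3_cj_apply, X_inv]
    simp only [LinearMap.add_apply, LinearMap.smul_apply]
    rw [f3_X10_apply, f3_N0_apply, f3_H_apply, f3_H_apply, f3_N1_apply, f3_X10_apply]
    ext i
    fin_cases i <;> simp
  · rw [f3_mem]
    refine ⟨0, 0, 1, ?_⟩
    apply LinearMap.ext
    intro x
    rw [f3_cj_apply, X_inv]
    simp only [LinearMap.add_apply, LinearMap.smul_apply]
    rw [f3_X10_apply, f3_N0_apply, f3_H_apply, f3_N1_apply, f3_N1_apply, f3_X10_apply]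
    ext i
    fin_cases i <;> simp

theorem f3_stab11 (s : K) : ∀ D ∈ f3_W K, f3_cj (X 11 s) D ∈ f3_W K := by
  apply f3_stab
  · rw [f3_mem]
    refine ⟨1, 0, 0, ?_⟩
    apply LinearMap.ext
    intro x
    rw [f3_cj_apply, X_inv]
    simp only [LinearMap.add_apply, LinearMap.smul_apply]
    rw [f3_X11_apply, f3_N0_apply, f3_N0_apply, f3_H_apply, f3_N1_apply, f3_X11_apply]
    ext i
    fin_cases i <;> simp
  · rw [f3_mem]
    refine ⟨0, 1, 0, ?_⟩
    apply LinearMap.ext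
    intro x
    rw [f3_cj_apply, X_inv]
    simp only [LinearMap.add_apply, LinearMap.smul_apply]
    rw [f3_X11_apply, f3_N0_apply, f3_H_apply, f3_H_apply, f3_N1_apply, f3_X11_apply]
    ext i
    fin_cases i <;> simp
  · rw [f3_mem]
    refine ⟨0, 0, 1, ?_⟩
    apply LinearMap.ext
    intro x
    rw [f3_cj_apply, X_inv]
    simp only [LinearMap.add_apply, LinearMap.smul_apply]
    rw [f3_X11_apply, f3_N0_apply, f3_H_apply, f3_N1_apply, f3_N1_apply, f3_X11_apply]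
    ext i
    fin_cases i <;> simp

theorem f3_stabX {r : Rt} (hr : r = 0 ∨ r = 1 ∨ r = 10 ∨ r = 11) (s : K) :
    ∀ D ∈ f3_W K, f3_cj (X r s) D ∈ f3_W K := by
  rcases hr with rfl | rfl | rfl | rfl
  · exact f3_stab0 s
  · exact f3_stab1 s
  · exact f3_stab10 s
  · exact f3_stab11 s

theorem f3_tor_apply (t : Kˣ × Kˣ) (x : V K) : tor t x =
    ![x 0, (t.1 : K) * x 1, (t.2 : K) * x 2, (ch (-1, -1) t : K) * x 3,
      ((t.1⁻¹ : Kˣ) : K) * x 4, ((t.2⁻¹ : Kˣ) : K) * x 5, (ch (1, 1) t : K) * x 6] := by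
  ext i
  fin_cases i <;> simp [tor_apply, wt, ch]

theorem f3_stabT (t : Kˣ × Kˣ) : ∀ D ∈ f3_W K, f3_cj (tor t) D ∈ f3_W K := by
  have e1 : (t.1 : K) ≠ 0 := t.1.ne_zero
  have e2 : (t.2 : K) ≠ 0 := t.2.ne_zero
  apply f3_stab
  · rw [f3_mem]
    refine ⟨(t.1 : K) * (t.2 : K)⁻¹, 0, 0, ?_⟩
    apply LinearMap.ext
    intro x
    rw [f3_cj_apply, ← map_inv]
    simp only [LinearMap.add_apply, LinearMap.smul_apply]
    rw [f3_tor_apply, f3_N0_apply, f3_N0_apply, f3_H_apply, f3_N1_apply, f3_tor_apply]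
    ext i
    fin_cases i <;> simp <;> field_simp
  · rw [f3_mem]
    refine ⟨0, 1, 0, ?_⟩
    apply LinearMap.ext
    intro x
    rw [f3_cj_apply, ← map_inv]
    simp only [LinearMap.add_apply, LinearMap.smul_apply]
    rw [f3_tor_apply, f3_N0_apply, f3_H_apply, f3_H_apply, f3_N1_apply, f3_tor_apply]
    ext i
    fin_cases i <;> simp
  · rw [f3_mem]
    refine ⟨0, 0, (t.1 : K)⁻¹ * (t.2 : K), ?_⟩
    apply LinearMap.ext
    intro x
    rw [f3_cj_apply, ← map_inv]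
    simp only [LinearMap.add_apply, LinearMap.smul_apply]
    rw [f3_tor_apply, f3_N0_apply, f3_H_apply, f3_N1_apply, f3_N1_apply, f3_tor_apply]
    ext i
    fin_cases i <;> simp <;> field_simp

theorem f3_GS {S : Set Rt} (hS : ∀ r ∈ S, r = 0 ∨ r = 1 ∨ r = 10 ∨ r = 11) {c : EE K}
    (hc : c ∈ GS K S) : ∀ D ∈ f3_W K, f3_cj c D ∈ f3_W K := by
  have key : (∀ D ∈ f3_W K, f3_cj c D ∈ f3_W K) ∧ (∀ D ∈ f3_W K, f3_cj c⁻¹ D ∈ f3_W K) := by
    unfold GS at hc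
    refine Subgroup.closure_induction
      (p := fun c _ => (∀ D ∈ f3_W K, f3_cj c D ∈ f3_W K) ∧ (∀ D ∈ f3_W K, f3_cj c⁻¹ D ∈ f3_W K))
      ?_ ?_ ?_ ?_ hc
    · rintro x (⟨t, rfl⟩ | ⟨r, hr, s, rfl⟩)
      · refine ⟨f3_stabT t, ?_⟩
        rw [← map_inv]
        exact f3_stabT _
      · refine ⟨f3_stabX (hS r hr) s, ?_⟩
        rw [X_inv]
        exact f3_stabX (hS r hr) _
    · refine ⟨fun D hD => ?_, fun D hD => ?_⟩
      · rw [f3_cj_one]
        exact hD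
      · rw [inv_one, f3_cj_one]
        exact hD
    · rintro x y _ _ ⟨h1, h2⟩ ⟨h3, h4⟩
      refine ⟨fun D hD => ?_, fun D hD => ?_⟩
      · rw [f3_cj_mul]
        exact h1 _ (h3 _ hD)
      · rw [mul_inv_rev, f3_cj_mul]
        exact h4 _ (h2 _ hD)
    · rintro x _ ⟨h1, h2⟩
      refine ⟨h2, ?_⟩
      rw [inv_inv]
      exact h1
  exact key.1

theorem f3_t00 : tf (Nl 0 : LM K) (Nl 0) = 0 := by
  rw [f3_tf_sum]
  simp only [Fin.sum_univ_seven, f3_N0_apply, ev]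
  simp

theorem f3_t11 : tf (Nl 1 : LM K) (Nl 1) = 0 := by
  rw [f3_tf_sum]
  simp only [Fin.sum_univ_seven, f3_N1_apply, ev]
  simp

theorem f3_t01 : tf (Nl 0 : LM K) (Nl 1) = 2 := by
  rw [f3_tf_sum]
  simp only [Fin.sum_univ_seven, f3_N0_apply, f3_N1_apply, ev]
  simp
  norm_num

theorem f3_t10 : tf (Nl 1 : LM K) (Nl 0) = 2 := by
  rw [f3_tf_sum]
  simp only [Fin.sum_univ_seven, f3_N0_apply, f3_N1_apply, ev]
  simp
  norm_num

theorem f3_t0H : tf (Nl 0 : LM K) (f3_H K) = 0 := by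
  rw [f3_tf_sum]
  simp only [Fin.sum_univ_seven, f3_N0_apply, f3_H_apply, ev]
  simp

theorem f3_t1H : tf (Nl 1 : LM K) (f3_H K) = 0 := by
  rw [f3_tf_sum]
  simp only [Fin.sum_univ_seven, f3_N1_apply, f3_H_apply, ev]
  simp

theorem f3_N_apply (x : V K) : f3_cj (X 0 1) (Nl 1) x =
    ![0, x 1 - x 2, x 1 - x 2, 0, -x 5 - x 4, x 5 + x 4, 0] := by
  rw [f3_cj_apply, X_inv, f3_X0_apply, f3_N1_apply, f3_X0_apply]
  ext i
  fin_cases i <;> simp <;> ring

theorem f3_tNH : tf (f3_cj (X 0 1) (Nl 1)) (f3_H K) = 4 := by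
  rw [f3_tf_sum]
  simp only [Fin.sum_univ_seven, f3_N_apply, f3_H_apply, ev]
  simp
  norm_num

theorem Sg_A (hK : Ok K) {F : Subgroup (EE K)} (hF : Ov F) (h0 : (0 : Rt) ∈ SF F)
    (h1 : (1 : Rt) ∈ SF F) (hS : ∀ r ∈ SF F, r = 0 ∨ r = 1 ∨ r = 10 ∨ r = 11) {D : LM K}
    (hD : D ∈ Sg F) (ht : ∀ N ∈ O1 F, tf N D = 0) : D = 0 := by
  have t2 := ok_two hK
  have hW : Sg F ≤ f3_W K := by
    unfold Sg
    rw [Submodule.span_le]
    rintro N ⟨c, hc, a, -, rfl⟩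
    exact Submodule.smul_mem _ _ (f3_GS hS hc _ (Submodule.subset_span (by simp)))
  obtain ⟨a, h, c, e⟩ := f3_mem.mp (hW hD)
  have k0 := ht _ (O1_zero)
  have k1 := ht _ (O1_one hK h0 h1)
  have k2 := ht _ (O1_conj (X_mem_GS h0 (1 : K)) (O1_one hK h0 h1))
  rw [e, f3_tf_add, f3_tf_add, f3_tf_smul, f3_tf_smul, f3_tf_smul, f3_t00, f3_t0H, f3_t01] at k0
  rw [e, f3_tf_add, f3_tf_add, f3_tf_smul, f3_tf_smul, f3_tf_smul, f3_t10, f3_t1H, f3_t11] at k1
  rw [e, f3_tf_add, f3_tf_add, f3_tf_smul, f3_tf_smul, f3_tf_smul] at k2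
  have hc : c = 0 := by
    rcases mul_eq_zero.mp (show c * 2 = 0 by linear_combination k0) with h' | h'
    · exact h'
    · exact absurd h' t2
  have ha : a = 0 := by
    rcases mul_eq_zero.mp (show a * 2 = 0 by linear_combination k1) with h' | h'
    · exact h'
    · exact absurd h' t2
  change a * tf (f3_cj (X 0 1) (Nl 1)) (Nl 0) + h * tf (f3_cj (X 0 1) (Nl 1)) (f3_H K) +
    c * tf (f3_cj (X 0 1) (Nl 1)) (Nl 1) = 0 at k2
  rw [ha, hc, f3_tNH] at k2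
  have hh : h = 0 := by
    rcases mul_eq_zero.mp (show h * (2 * 2) = 0 by linear_combination k2) with h' | h'
    · exact h'
    · exact absurd h' (mul_ne_zero t2 t2)
  rw [e, ha, hc, hh]
  simp

end Pool.Agent.H40.GT
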