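import Pool.Agent.H40.GT.LgF3

/-!
# Part LgF4 (of LgF1, LgF2, LgF3, LgF4); GT-66 the span of the orbit

`Sg F` = the span of `O1 F`.
* `sg_conj`: `Sg F` is stable under conjugation by `GS K (SF F)`, in particular by the torus.
* `sg_br`: `N1, N2 ∈ O1 F`: `N1 N2 - N2 N1 ∈ Sg F`: let `N2 = a • lr c 0`; `x = c X_0(a) c⁻¹ = 1 + N2 ∈ GS K (SF F)`,
  `x N1 x⁻¹ = (1 + N2) N1 (1 - N2) = N1 + (N2 N1 - N1 N2) - N2 N1 N2`, and `N2 N1 N2` is a multiple of `N2`
  (`aba`).  By bilinearity `D, D' ∈ Sg F` implies `D D' - D' D ∈ Sg F` (`sg_lie`).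
* `sg_wc`: `D ∈ Sg F` implies `wc v D ∈ Sg F`: `wc v D = |T|⁻¹ ∑_t ch v t⁻¹ tor t D tor t⁻¹`, because for weights
  `v, v'` of `LM K` (differences of two `wt`) with `v ≠ v'` the characters are different
  (the entries of `v - v'` are at most `4` in absolute value, less than `|K| - 1`); or apply polynomials
  in the conjugation by `tor (z, 1)` and `tor (1, z)`, `z` a generator of `Kˣ`.
* `Sg_A`: suppose `0, 1 ∈ SF F` and all other roots in `SF F` are `10, 11` (`rt = ± (1,1)`).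
  Let `H = Nl 0 Nl 1 - Nl 1 Nl 0`.  The span of `Nl 0, H, Nl 1` is stable under conjugation by `TT`,
  `X 0 s`, `X 1 s` (`X_0(s) Nl 1 X_0(-s) = Nl 1 + s H - s^2 Nl 0`, `[H, Nl 0] = 2 Nl 0`), and `X 10 s`, `X 11 s`
  commute with `Nl 0, Nl 1`; so it contains `Sg F`.  If `D = a Nl 0 + h H + c Nl 1` has `tf N D = 0` for all
  `N ∈ O1 F`: `N = Nl 1`: `2 a = 0`; `N = Nl 0`: `2 c = 0`; `N = X_0(1) Nl 1 X_0(-1)`: `4 h = 0` (`tf H H = 4`).
* `Sg_B`: suppose all long roots are in `SF F`.  `Nl r ∈ Sg F` for all long `r` (these are conjugate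
  to `Nl 0` up to multiples under the Weyl elements of `wy_ex`, which are in `GS K (SF F)`; or:
  `Nl 1 ∈ O1`, and `[Nl 0, Nl r] = ± Nl r'`...).  Let `D ∈ Sg F`, `tf N D = 0` for all `N ∈ O1 F`, so
  `tf D' D = 0` for all `D' ∈ Sg F`.  Let `D1 = wc v D`; it is in `Sg F` and `tf D' D1 = 0` for `D' ∈ Sg F`
  (`tf (wc v' D') (wc v D) = 0` unless `v' = -v`; `tf D' (wc v D) = tf (wc (-v) D') D`).  If `v ≠ 0` and
  `D1 ≠ 0` then `D1 = c • Nl r` (`IsD_weight`), `Nl r ∈ Sg F`.  `r` long: `tf (Nl (ng r)) (Nl r) = 2 ≠ 0`.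
  `r` short: there are long `y1, y2` with `rt r + rt y1 = rt r1`, `rt r + rt y2 = rt r2` short and
  `rt r1 + rt r2 = - rt r` (e.g. `r = (1,0)`: `y1 = (-1,1)`, `y2 = (-2,-1)`), so `Nl r1, Nl r2, Nl (ng r) ∈ Sg F`
  by `sg_lie` and `Nl_comm`, and `tf (Nl (ng r)) (Nl r) = -6 ≠ 0`.  `v = 0`: `D1` is a diagonal derivation,
  entries `a_1, a_2, a_3` on `e_1, e_2, e_3`, `-a_i` on `e_-i`, `0` on `e_0`, `a_1 + a_2 + a_3 = 0`
  (derivation of `br e_1 e_2 = 2 e_-3`); `tf D1 (Nl 0 Nl 1 - Nl 1 Nl 0) = 2 (a_1 - a_2) = 0`, similarly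
  `a_2 = a_3`, `3 a_1 = 0`, `D1 = 0`.  `wc_zero`.
-/

namespace Pool.Agent.H40.GT

variable {K : Type} [Field K]

theorem f4_tf_sum (A B : LM K) : tf A B = ∑ i, ∑ j, A (ev j) i * B (ev i) j := by
  unfold tf
  rw [LinearMap.trace_eq_matrix_trace K (Pi.basisFun K (Fin 7)),
    LinearMap.toMatrix_comp _ (Pi.basisFun K (Fin 7)) _, Matrix.trace]
  refine Finset.sum_congr rfl fun i _ => ?_
  rw [Matrix.diag_apply, Matrix.mul_apply]
  refine Finset.sum_congr rfl fun j _ => ?_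
  rw [LinearMap.toMatrix_apply, LinearMap.toMatrix_apply, Pi.basisFun_repr, Pi.basisFun_repr,
    Pi.basisFun_apply, Pi.basisFun_apply]
  rfl

theorem f4_tf_add (A B C : LM K) : tf (A + B) C = tf A C + tf B C := by
  simp only [f4_tf_sum, LinearMap.add_apply, Pi.add_apply, add_mul, Finset.sum_add_distrib]

theorem f4_tf_smul (c : K) (A C : LM K) : tf (c • A) C = c * tf A C := by
  simp only [f4_tf_sum, LinearMap.smul_apply, Pi.smul_apply, smul_eq_mul, Finset.mul_sum, mul_assoc]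

theorem f4_tf_smul' (c : K) (A C : LM K) : tf A (c • C) = c * tf A C := by
  simp only [f4_tf_sum, LinearMap.smul_apply, Pi.smul_apply, smul_eq_mul, Finset.mul_sum,
    mul_left_comm]

theorem f4_tf_wc (A B : LM K) (v : ℤ × ℤ) : tf A (wc v B) = tf (wc (-v) A) B := by
  rw [f4_tf_sum, f4_tf_sum]
  refine Finset.sum_congr rfl fun i _ => Finset.sum_congr rfl fun j _ => ?_
  rw [wc_ev, wc_ev]
  by_cases h : wt j = wt i + v
  · have h' : wt i = wt j + -v := by rw [h]; abel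
    rw [if_pos h, if_pos h']
  · have h' : ¬ wt i = wt j + -v := by
      intro e
      apply h
      rw [e]
      abel
    rw [if_neg h, if_neg h', mul_zero, zero_mul]

/-- nonzero small integers -/
theorem f4_int (hK : Ok K) {k : ℤ} (h0 : k ≠ 0) (h3 : |k| ≤ 3) : (k : K) ≠ 0 := by
  have h2' := ok_two hK
  have h3' := ok_three hK
  have h4 : -3 ≤ k ∧ k ≤ 3 := abs_le.mp h3
  obtain ⟨h5, h6⟩ := h4
  interval_cases k
  · simpa using h3'
  · simpa using h2'
  · simp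
  · exact absurd rfl h0
  · simp
  · simpa using h2'
  · simpa using h3'

theorem f4_Ql (r : Rt) (hr : r.val < 6) (x : V K) (i : Fin 7) : (qc r i : K) * x (qs r i) = 0 := by
  have h : ∀ r : Rt, r.val < 6 → ∀ i, qc r i = 0 := by decide
  rw [h r hr i]
  simp

theorem f4_X (r : Rt) (hr : r.val < 6) (s : K) (x : V K) : X r s x = x + s • Nl r x := by
  ext i
  rw [X_apply, f4_Ql r hr, Pi.add_apply, Pi.smul_apply, Nl_apply]
  simp

/-- the Lie algebra contains the brackets with long root vectors -/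
theorem f4_step (hK : Ok K) {F : Subgroup (EE K)} (hS : ∀ r : Rt, r.val < 6 → r ∈ SF F)
    {a b c : Rt} (ha : a.val < 6) (h : rt a + rt b = rt c) (hb : (Nl b : LM K) ∈ Sg F) :
    (Nl c : LM K) ∈ Sg F := by
  obtain ⟨k, hk0, hk3, hk⟩ := Nl_comm (K := K) a b c h
  have hk' : (k : K) ≠ 0 := f4_int hK hk0 hk3
  have h1 := sg_conj (X_mem_GS (hS a ha) (1 : K)) hb
  have h2 := sg_conj (X_mem_GS (hS a ha) (-1 : K)) hb
  have h3 := (Sg F).smul_mem ((2 * (k : K))⁻¹) ((Sg F).sub_mem h1 h2)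
  have h4 : (Nl c : LM K) = (2 * (k : K))⁻¹ • ((((X a (1 : K) : EE K) : V K →ₗ[K] V K) ∘ₗ
      Nl b ∘ₗ (((X a (1 : K))⁻¹ : EE K) : V K →ₗ[K] V K)) -
      (((X a (-1 : K) : EE K) : V K →ₗ[K] V K) ∘ₗ
      Nl b ∘ₗ (((X a (-1 : K))⁻¹ : EE K) : V K →ₗ[K] V K))) := by
    apply LinearMap.ext
    intro x
    rw [LinearMap.smul_apply, eq_inv_smul_iff₀ (mul_ne_zero (ok_two hK) hk'), LinearMap.sub_apply,
      X_inv, X_inv]
    simp only [LinearMap.comp_apply, LinearEquiv.coe_coe]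
    rw [neg_neg, f4_X a ha, f4_X a ha, f4_X a ha, f4_X a ha, mul_smul, ← hk x]
    simp only [map_add, map_smul, smul_add, smul_sub]
    module
  rw [h4]
  exact h3

theorem f4_long (hK : Ok K) {F : Subgroup (EE K)} (hS : ∀ r : Rt, r.val < 6 → r ∈ SF F)
    (r : Rt) (hr : r.val < 6) : (Nl r : LM K) ∈ Sg F := by
  have h0 : (Nl 0 : LM K) ∈ Sg F := Submodule.subset_span O1_zero
  have h2 : (Nl 2 : LM K) ∈ Sg F := f4_step hK hS (a := 4) (b := 0) (c := 2) (by decide) (by decide) h0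
  have h5 : (Nl 5 : LM K) ∈ Sg F := f4_step hK hS (a := 3) (b := 0) (c := 5) (by decide) (by decide) h0
  have h4 : (Nl 4 : LM K) ∈ Sg F := f4_step hK hS (a := 1) (b := 2) (c := 4) (by decide) (by decide) h2
  have h3 : (Nl 3 : LM K) ∈ Sg F := f4_step hK hS (a := 1) (b := 5) (c := 3) (by decide) (by decide) h5
  have h1 : (Nl 1 : LM K) ∈ Sg F := f4_step hK hS (a := 3) (b := 4) (c := 1) (by decide) (by decide) h4
  have hh : ∀ r : Rt, r.val < 6 → r = 0 ∨ r = 1 ∨ r = 2 ∨ r = 3 ∨ r = 4 ∨ r = 5 := by decide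
  rcases hh r hr with rfl | rfl | rfl | rfl | rfl | rfl
  · exact h0
  · exact h1
  · exact h2
  · exact h3
  · exact h4
  · exact h5

theorem f4_lie (hK : Ok K) {F : Subgroup (EE K)} (hF : Ov F) (h0 : (0 : Rt) ∈ SF F)
    {a b c : Rt} (h : rt a + rt b = rt c) (ha : (Nl a : LM K) ∈ Sg F) (hb : (Nl b : LM K) ∈ Sg F) :
    (Nl c : LM K) ∈ Sg F := by
  obtain ⟨k, hk0, hk3, hk⟩ := Nl_comm (K := K) a b c h
  have hk' : (k : K) ≠ 0 := f4_int hK hk0 hk3
  have h3 := (Sg F).smul_mem ((k : K)⁻¹) (sg_lie hK hF h0 ha hb)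
  have h4 : (Nl c : LM K) = (k : K)⁻¹ • (Nl a ∘ₗ Nl b - Nl b ∘ₗ Nl a) := by
    apply LinearMap.ext
    intro x
    rw [LinearMap.smul_apply, eq_inv_smul_iff₀ hk', LinearMap.sub_apply]
    exact (hk x).symm
  rw [h4]
  exact h3

theorem f4_ng (hK : Ok K) {F : Subgroup (EE K)} (hF : Ov F)
    (hS : ∀ r : Rt, r.val < 6 → r ∈ SF F) {r : Rt} (h : (Nl r : LM K) ∈ Sg F) :
    (Nl (ng r) : LM K) ∈ Sg F := by
  by_cases hr : r.val < 6
  · apply f4_long hK hS
    have hh : ∀ r : Rt, r.val < 6 → (ng r).val < 6 := by decide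
    exact hh r hr
  · have hh : ∀ r : Rt, ¬ r.val < 6 → ∃ y1 y2 : Fin 6, ∃ r1 r2 : Rt,
        rt (y1.castLE (by decide)) + rt r = rt r1 ∧ rt (y2.castLE (by decide)) + rt r = rt r2 ∧
        rt r1 + rt r2 = rt (ng r) := by
      decide
    obtain ⟨y1, y2, r1, r2, e1, e2, e3⟩ := hh r hr
    have h0 : (0 : Rt) ∈ SF F := hS 0 (by decide)
    have k1 := f4_lie hK hF h0 e1 (f4_long hK hS _ (by simp)) h
    have k2 := f4_lie hK hF h0 e2 (f4_long hK hS _ (by simp)) h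
    exact f4_lie hK hF h0 e3 k1 k2

theorem f4_Nl_ev (r : Rt) (i j : Fin 7) :
    Nl r (ev j : V K) i = (((if sc r i = j then cc r i else 0 : ℤ)) : K) := by
  rw [Nl_apply]
  unfold ev
  rw [Pi.single_apply]
  split_ifs <;> simp

theorem f4_tf_Nl (hK : Ok K) (r : Rt) : tf (Nl (ng r) : LM K) (Nl r) ≠ 0 := by
  have h : tf (Nl (ng r) : LM K) (Nl r) = ((∑ i : Fin 7, ∑ j : Fin 7,
      (if sc (ng r) i = j then cc (ng r) i else 0) * (if sc r j = i then cc r j else 0) : ℤ) : K) := by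
    rw [f4_tf_sum]
    simp only [f4_Nl_ev, Int.cast_sum, Int.cast_mul]
  have h2 : ∀ r : Rt, (∑ i : Fin 7, ∑ j : Fin 7,
      (if sc (ng r) i = j then cc (ng r) i else 0) * (if sc r j = i then cc r j else 0) : ℤ) = 2 ∨
      (∑ i : Fin 7, ∑ j : Fin 7,
      (if sc (ng r) i = j then cc (ng r) i else 0) * (if sc r j = i then cc r j else 0) : ℤ) = -6 := by
    decide
  rw [h]
  rcases h2 r with e | e
  · rw [e]
    simpa using ok_two hK
  · rw [e]
    have h6 : ((-6 : ℤ) : K) = -(2 * 3) := by norm_num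
    rw [h6]
    exact neg_ne_zero.mpr (mul_ne_zero (ok_two hK) (ok_three hK))

theorem f4_tf_diag (M : LM K) {D : LM K} (hd : ∀ i j : Fin 7, i ≠ j → D (ev j) i = 0) :
    tf M D = ∑ i, M (ev i) i * D (ev i) i := by
  rw [f4_tf_sum]
  refine Finset.sum_congr rfl fun i _ => ?_
  rw [Finset.sum_eq_single i]
  · intro j _ hj
    rw [hd j i hj, mul_zero]
  · intro h
    exact absurd (Finset.mem_univ _) h

/-- diagonal entries of the commutator, as integers -/
def f4_cm (a b : Rt) (i : Fin 7) : ℤ :=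
  (cc a i * if sc b (sc a i) = i then cc b (sc a i) else 0) -
    (cc b i * if sc a (sc b i) = i then cc a (sc b i) else 0)

theorem f4_NN (a b : Rt) (i : Fin 7) :
    (Nl a ∘ₗ Nl b - Nl b ∘ₗ Nl a : LM K) (ev i) i = (f4_cm a b i : K) := by
  rw [LinearMap.sub_apply, Pi.sub_apply, LinearMap.comp_apply, LinearMap.comp_apply,
    Nl_apply a (Nl b (ev i)), Nl_apply b (Nl a (ev i)), f4_Nl_ev, f4_Nl_ev]
  unfold f4_cm
  push_cast
  rfl

theorem f4_h0 (i : Fin 7) : f4_cm 0 1 i = ![0, 1, -1, 0, -1, 1, 0] i := by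
  revert i
  decide

theorem f4_h4 (i : Fin 7) : f4_cm 4 5 i = ![0, 0, 1, -1, 0, -1, 1] i := by
  revert i
  decide

theorem f4_diag (hK : Ok K) {D : LM K} (hD : IsD D) (hd : ∀ i j : Fin 7, i ≠ j → D (ev j) i = 0)
    (h1 : tf (Nl 0 ∘ₗ Nl 1 - Nl 1 ∘ₗ Nl 0) D = 0) (h2 : tf (Nl 4 ∘ₗ Nl 5 - Nl 5 ∘ₗ Nl 4) D = 0) :
    D = 0 := by
  have t2 := ok_two hK
  have t3 := ok_three hK
  obtain ⟨hD1, hD2⟩ := hD
  have hde : ∀ j, D (ev j) = D (ev j) j • ev j := by
    intro j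
    ext i
    rw [Pi.smul_apply, smul_eq_mul]
    by_cases h : i = j
    · subst h
      rw [ev_same, mul_one]
    · rw [hd i j h, ev_ne h, mul_zero]
  have e1 : D (ev 6) 6 = D (ev 1) 1 + D (ev 2) 2 := by
    have h := congrFun (hD1 (ev 1) (ev 2)) 6
    have h6 : br (ev 1 : V K) (ev 2) = (2 : K) • (ev 6 : V K) := by
      ext i
      fin_cases i <;> simp [br, ev]
    rw [h6, map_smul, hde 1, hde 2] at h
    simp [br, ev] at h
    have h' : (2 : K) * (D (ev 6) 6 - (D (ev 1) 1 + D (ev 2) 2)) = 0 := by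
      unfold ev
      linear_combination h
    rcases mul_eq_zero.mp h' with h'' | h''
    · exact absurd h'' t2
    · exact sub_eq_zero.mp h''
  have e2 : D (ev 1) 1 + D (ev 4) 4 = 0 := by
    have h := hD2 (ev 1) (ev 4)
    rw [hde 1, hde 4] at h
    simp [bf, ev] at h
    exact h
  have e3 : D (ev 2) 2 + D (ev 5) 5 = 0 := by
    have h := hD2 (ev 2) (ev 5)
    rw [hde 2, hde 5] at h
    simp [bf, ev] at h
    exact h
  have e4 : D (ev 3) 3 + D (ev 6) 6 = 0 := by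
    have h := hD2 (ev 3) (ev 6)
    rw [hde 3, hde 6] at h
    simp [bf, ev] at h
    exact h
  have e5 : D (ev 0) 0 = 0 := by
    have h := hD2 (ev 0) (ev 0)
    rw [hde 0] at h
    simp [bf, ev] at h
    have h' : (2 : K) * (2 * D (ev 0) 0) = 0 := by
      unfold ev
      linear_combination h
    rcases mul_eq_zero.mp h' with h'' | h''
    · exact absurd h'' t2
    · rcases mul_eq_zero.mp h'' with h3 | h3
      · exact absurd h3 t2
      · exact h3
  have e6 : D (ev 1) 1 = D (ev 2) 2 := by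
    rw [f4_tf_diag _ hd, Fin.sum_univ_seven, f4_NN 0 1, f4_NN 0 1, f4_NN 0 1, f4_NN 0 1,
      f4_NN 0 1, f4_NN 0 1, f4_NN 0 1, f4_h0 0, f4_h0 1, f4_h0 2, f4_h0 3, f4_h0 4, f4_h0 5,
      f4_h0 6] at h1
    have h' : (2 : K) * (D (ev 1) 1 - D (ev 2) 2) = 0 := by
      simp at h1
      linear_combination h1 + e2 - e3
    rcases mul_eq_zero.mp h' with h'' | h''
    · exact absurd h'' t2
    · exact sub_eq_zero.mp h''
  have e7 : D (ev 2) 2 = D (ev 3) 3 := by
    rw [f4_tf_diag _ hd, Fin.sum_univ_seven, f4_NN 4 5, f4_NN 4 5, f4_NN 4 5, f4_NN 4 5,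
      f4_NN 4 5, f4_NN 4 5, f4_NN 4 5, f4_h4 0, f4_h4 1, f4_h4 2, f4_h4 3, f4_h4 4, f4_h4 5,
      f4_h4 6] at h2
    have h' : (2 : K) * (D (ev 2) 2 - D (ev 3) 3) = 0 := by
      simp at h2
      linear_combination h2 + e3 - e4
    rcases mul_eq_zero.mp h' with h'' | h''
    · exact absurd h'' t2
    · exact sub_eq_zero.mp h''
  have e8 : D (ev 1) 1 = 0 := by
    have h' : (3 : K) * D (ev 1) 1 = 0 := by
      linear_combination e4 - e1 + 2 * e6 + e7
    rcases mul_eq_zero.mp h' with h'' | h''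
    · exact absurd h'' t3
    · exact h''
  have e9 : ∀ j, D (ev j) j = 0 := by
    intro j
    fin_cases j
    · exact e5
    · exact e8
    · exact e6 ▸ e8
    · exact e7 ▸ e6 ▸ e8
    · show D (ev 4) 4 = 0
      linear_combination e2 - e8
    · show D (ev 5) 5 = 0
      linear_combination e3 - e8 + e6
    · show D (ev 6) 6 = 0
      linear_combination e4 - e8 + e6 + e7
  apply LinearMap.ext
  intro x
  rw [V_sum x, map_sum]
  simp only [map_smul]
  rw [LinearMap.zero_apply]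
  refine Finset.sum_eq_zero fun j _ => ?_
  rw [hde j, e9 j, zero_smul, smul_zero]

theorem Sg_B (hK : Ok K) {F : Subgroup (EE K)} (hF : Ov F) (hS : ∀ r : Rt, r.val < 6 → r ∈ SF F)
    {D : LM K} (hD : D ∈ Sg F) (ht : ∀ N ∈ O1 F, tf N D = 0) : D = 0 := by
  have h0 : (0 : Rt) ∈ SF F := hS 0 (by decide)
  have ht' : ∀ N ∈ Sg F, tf N D = 0 := by
    intro N hN
    refine Submodule.span_induction (p := fun N _ => tf N D = 0) ?_ ?_ ?_ ?_ hN
    · intro x hx
      exact ht x hx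
    · rw [f4_tf_sum]
      simp
    · intro x y _ _ hx hy
      rw [f4_tf_add, hx, hy, add_zero]
    · intro a x _ hx
      rw [f4_tf_smul, hx, mul_zero]
  have hw : ∀ v, ∀ N ∈ Sg F, tf N (wc v D) = 0 := by
    intro v N hN
    rw [f4_tf_wc]
    exact ht' _ (sg_wc hK hF hN _)
  apply wc_zero
  intro v
  by_cases hv : v = 0
  · subst hv
    refine f4_diag hK (wc_IsD (sg_IsD hF hD) 0) ?_ ?_ ?_
    · intro i j hij
      rw [wc_ev, if_neg]
      rw [add_zero]
      exact fun e => hij (wt_inj e)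
    · exact hw 0 _ (sg_lie hK hF h0 (f4_long hK hS 0 (by decide)) (f4_long hK hS 1 (by decide)))
    · exact hw 0 _ (sg_lie hK hF h0 (f4_long hK hS 4 (by decide)) (f4_long hK hS 5 (by decide)))
  · rcases IsD_weight (ok_two hK) (sg_IsD hF hD) hv with h | ⟨r, hr, c, hc⟩
    · exact h
    · by_cases hc0 : c = 0
      · rw [hc, hc0, zero_smul]
      · exfalso
        have k1 : (Nl r : LM K) ∈ Sg F := by
          have k2 := (Sg F).smul_mem c⁻¹ (sg_wc hK hF hD v)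
          rw [hc, smul_smul, inv_mul_cancel₀ hc0, one_smul] at k2
          exact k2
        have k3 := hw v _ (f4_ng hK hF hS k1)
        rw [hc, f4_tf_smul'] at k3
        exact mul_ne_zero hc0 (f4_tf_Nl hK r) k3

end Pool.Agent.H40.GT
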