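import Pool.Agent.H40.GT.LgG4

/-!
# Project GT: see the files LgG1, LgG2, LgG3, LgG4
-/
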