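import Pool.Agent.H40.GT.LgF

/-!
# Part LgG1 (of LgG1, LgG2, LgG3, LgG4); GT-67 long root groups: the theorem

`comm_zero`: `D` a derivation with `D D = 0`, commuting with `Nl 0` and `Nl 1`.  It commutes with
`H = Nl 0 Nl 1 - Nl 1 Nl 0`, whose eigenspaces are `ln 0 = ⟨e_1, e_-2⟩` (1), `ln 1 = ⟨e_2, e_-1⟩` (-1),
`V_0 = ⟨e_0, e_3, e_-3⟩` (0).  On `V_0` (3-dimensional, `bf` nondegenerate) `D` is skew with `D D = 0`, so `D = 0`
there: `D e_0 = α e_3 + β e_-3`, `D e_3 = γ e_3 + δ e_0`, `D e_-3 = - γ e_-3 + δ' e_0`, `β = -2 δ`, `α = -2 δ'`;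
`D D e_3 = 0` gives `γ^2 + δ α = 0`.., `δ β = 0`, so `δ = 0 = β`; `D D e_-3 = 0` gives `δ' α = 0`, so
`α = δ' = 0`, `γ = 0`.  So `D e_0 = 0`, `D` commutes with `br e_0`, preserves `⟨e_1, e_2, e_3⟩` and `⟨e_-1, e_-2, e_-3⟩`,
and `⟨e_1, e_-2⟩`, `⟨e_2, e_-1⟩`: so `D e_1 = c e_1`, `c^2 = 0`, etc.: `D = 0`.

`lg_ii`: `f ∈ F`, `N' = lr f 0`; then `tf N1 N' ≠ 0` for some `N1 ∈ O1 F`.  Suppose not.  `tf D N' = 0` for
`D ∈ Sg F`.  Let `N2 = lr c 0 ∈ O1 F` (`c ∈ GS K (SF F)`), `x = f X_0(1) f⁻¹ = 1 + N' ∈ F`.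
`N' N2 N' = 0` (`aba`, `tf = 0`), so `N3 = lr (x c) 0 = x N2 x⁻¹ = N2 + (N' N2 - N2 N')`.  For `N1 ∈ O1 F`:
`tf N1 N3 = tf N1 N2 + tf N1 (N' N2 - N2 N') = tf N1 N2 + tf N' (N2 N1 - N1 N2) = tf N1 N2` (`sg_lie`).  Take
`N1 = lr c 1` (in `O1 F` up to a nonzero multiple, `O1_one`, `O1_conj`): `tf N1 N2 = tf (Nl 1) (Nl 0) = 2 ≠ 0`, so by `lg_i`
`N3 ∈ O1 F`, so `D = N' N2 - N2 N' ∈ Sg F` and `tf N1 D = 0` for all `N1 ∈ O1 F`; `Sg_A` or `Sg_B`: `D = 0`.
In particular (`N2 = Nl 0`, and `N2 = lr n 0` proportional to `Nl 1`) `N'` commutes with `Nl 0`, `Nl 1`: `comm_zero`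
gives `N' = 0`, contradiction (`lr_ne`).

`lg_SF`: `F` not standard, `0 ∈ SF F`.  By `lg_sym` and `Clo` the long roots in `SF F` form a closed
set, stable under `ng`, containing `0`: it is `{0, 1}` or all six (finite check).  In the first case the
short roots in `SF F` are among `10, 11`: a short root `y ∈ {6,7,8,9}` in `SF F` gives by closedness
(with `0` or `1`) a second one, and then another long root (finite check).

`long_std`: some long `r ∈ SF F`.  Suppose `F` is not standard.  Conjugate `r` to `0`.  For `f ∈ F`: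
by `lg_ii` and `lg_i` `lr f 0 = a • lr c 0`, `c ∈ GS K (SF F)`, so `f1 = c⁻¹ f` satisfies
`lr f1 0 = a • Nl 0`, so `f1` preserves `ln 0` (the range).  The subgroup `F'` of `F` preserving `ln 0` is
standard (`Std_ln`), so `F' ≤ BF F` (`Std_le_BF`), and `f = c f1 ∈ BF F`.
-/

namespace Pool.Agent.H40.GT

variable {K : Type} [Field K]

/-- eigenvalues of the toral element -/
def g1_hz : Fin 7 → ℤ := ![0, 1, -1, 0, -1, 1, 0]

theorem g1_H (x : V K) (i : Fin 7) : f3_H K x i = (g1_hz i : K) * x i := by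
  rw [f3_H_apply]
  fin_cases i <;> simp [g1_hz]

theorem g1_Hev (j : Fin 7) : f3_H K (ev j) = (g1_hz j : K) • ev j := by
  ext i
  rw [g1_H, Pi.smul_apply, smul_eq_mul]
  by_cases h : i = j
  · subst h
    rfl
  · rw [ev_ne h, mul_zero, mul_zero]

theorem g1_off (hK : Ok K) {D : LM K} (h0 : ∀ x, D (Nl 0 x) = Nl 0 (D x))
    (h1 : ∀ x, D (Nl 1 x) = Nl 1 (D x)) (i j : Fin 7) (h : g1_hz i - g1_hz j ≠ 0) :
    D (ev j) i = 0 := by
  have h2 : ∀ x, D (f3_H K x) = f3_H K (D x) := by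
    intro x
    unfold f3_H
    simp only [LinearMap.sub_apply, LinearMap.comp_apply, map_sub, h0, h1]
  have h3 := congrFun (h2 (ev j)) i
  rw [g1_Hev, map_smul, Pi.smul_apply, smul_eq_mul, g1_H] at h3
  have h4' : ∀ i j : Fin 7, |g1_hz i - g1_hz j| ≤ 3 := by decide
  have h4 := h4' i j
  have h5 := f4_int hK h h4
  have h6 : ((g1_hz i - g1_hz j : ℤ) : K) * D (ev j) i = 0 := by
    push_cast
    rw [sub_mul, sub_eq_zero]
    exact h3.symm
  exact (mul_eq_zero.mp h6).resolve_left h5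

theorem g1_sq {K : Type} [Field K] {a : K} (h : a * a = 0) : a = 0 := by
  rcases mul_eq_zero.mp h with h' | h' <;> exact h'

theorem g1_two {K : Type} [Field K] (h2 : (2 : K) ≠ 0) {a : K} (h : 2 * a = 0) : a = 0 :=
  (mul_eq_zero.mp h).resolve_left h2

theorem comm_zero (hK : Ok K) {D : LM K} (hD : IsD D) (h2 : ∀ x, D (D x) = 0)
    (h0 : ∀ x, D (Nl 0 x) = Nl 0 (D x)) (h1 : ∀ x, D (Nl 1 x) = Nl 1 (D x)) : D = 0 := by
  have t2 := ok_two hK
  have z := g1_off hK h0 h1
  obtain ⟨hD1, hD2⟩ := hD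
  obtain ⟨a0, ha0⟩ : ∃ a, a = D (ev 0) 0 := ⟨_, rfl⟩
  obtain ⟨b0, hb0⟩ : ∃ a, a = D (ev 0) 3 := ⟨_, rfl⟩
  obtain ⟨c0, hc0⟩ : ∃ a, a = D (ev 0) 6 := ⟨_, rfl⟩
  obtain ⟨a3, ha3⟩ : ∃ a, a = D (ev 3) 0 := ⟨_, rfl⟩
  obtain ⟨b3, hb3⟩ : ∃ a, a = D (ev 3) 3 := ⟨_, rfl⟩
  obtain ⟨c3, hc3⟩ : ∃ a, a = D (ev 3) 6 := ⟨_, rfl⟩
  obtain ⟨a6, ha6⟩ : ∃ a, a = D (ev 6) 0 := ⟨_, rfl⟩
  obtain ⟨b6, hb6⟩ : ∃ a, a = D (ev 6) 3 := ⟨_, rfl⟩
  obtain ⟨c6, hc6⟩ : ∃ a, a = D (ev 6) 6 := ⟨_, rfl⟩
  obtain ⟨p1, hp1⟩ : ∃ a, a = D (ev 1) 1 := ⟨_, rfl⟩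
  obtain ⟨q1, hq1⟩ : ∃ a, a = D (ev 1) 5 := ⟨_, rfl⟩
  obtain ⟨p5, hp5⟩ : ∃ a, a = D (ev 5) 1 := ⟨_, rfl⟩
  obtain ⟨q5, hq5⟩ : ∃ a, a = D (ev 5) 5 := ⟨_, rfl⟩
  obtain ⟨p2, hp2⟩ : ∃ a, a = D (ev 2) 2 := ⟨_, rfl⟩
  obtain ⟨q2, hq2⟩ : ∃ a, a = D (ev 2) 4 := ⟨_, rfl⟩
  obtain ⟨p4, hp4⟩ : ∃ a, a = D (ev 4) 2 := ⟨_, rfl⟩
  obtain ⟨q4, hq4⟩ : ∃ a, a = D (ev 4) 4 := ⟨_, rfl⟩
  have d0 : D (ev 0) = a0 • ev 0 + b0 • ev 3 + c0 • ev 6 := by
    ext i
    rw [ha0, hb0, hc0]
    fin_cases i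
    · simp [ev]
    · have := z 1 0 (by decide)
      simpa [ev] using this
    · have := z 2 0 (by decide)
      simpa [ev] using this
    · simp [ev]
    · have := z 4 0 (by decide)
      simpa [ev] using this
    · have := z 5 0 (by decide)
      simpa [ev] using this
    · simp [ev]
  have d3 : D (ev 3) = a3 • ev 0 + b3 • ev 3 + c3 • ev 6 := by
    ext i
    rw [ha3, hb3, hc3]
    fin_cases i
    · simp [ev]
    · have := z 1 3 (by decide)
      simpa [ev] using this
    · have := z 2 3 (by decide)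
      simpa [ev] using this
    · simp [ev]
    · have := z 4 3 (by decide)
      simpa [ev] using this
    · have := z 5 3 (by decide)
      simpa [ev] using this
    · simp [ev]
  have d6 : D (ev 6) = a6 • ev 0 + b6 • ev 3 + c6 • ev 6 := by
    ext i
    rw [ha6, hb6, hc6]
    fin_cases i
    · simp [ev]
    · have := z 1 6 (by decide)
      simpa [ev] using this
    · have := z 2 6 (by decide)
      simpa [ev] using this
    · simp [ev]
    · have := z 4 6 (by decide)
      simpa [ev] using this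
    · have := z 5 6 (by decide)
      simpa [ev] using this
    · simp [ev]
  have d1 : D (ev 1) = p1 • ev 1 + q1 • ev 5 := by
    ext i
    rw [hp1, hq1]
    fin_cases i
    · have := z 0 1 (by decide)
      simpa [ev] using this
    · simp [ev]
    · have := z 2 1 (by decide)
      simpa [ev] using this
    · have := z 3 1 (by decide)
      simpa [ev] using this
    · have := z 4 1 (by decide)
      simpa [ev] using this
    · simp [ev]
    · have := z 6 1 (by decide)
      simpa [ev] using this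
  have d5 : D (ev 5) = p5 • ev 1 + q5 • ev 5 := by
    ext i
    rw [hp5, hq5]
    fin_cases i
    · have := z 0 5 (by decide)
      simpa [ev] using this
    · simp [ev]
    · have := z 2 5 (by decide)
      simpa [ev] using this
    · have := z 3 5 (by decide)
      simpa [ev] using this
    · have := z 4 5 (by decide)
      simpa [ev] using this
    · simp [ev]
    · have := z 6 5 (by decide)
      simpa [ev] using this
  have d2 : D (ev 2) = p2 • ev 2 + q2 • ev 4 := by
    ext i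
    rw [hp2, hq2]
    fin_cases i
    · have := z 0 2 (by decide)
      simpa [ev] using this
    · have := z 1 2 (by decide)
      simpa [ev] using this
    · simp [ev]
    · have := z 3 2 (by decide)
      simpa [ev] using this
    · simp [ev]
    · have := z 5 2 (by decide)
      simpa [ev] using this
    · have := z 6 2 (by decide)
      simpa [ev] using this
  have d4 : D (ev 4) = p4 • ev 2 + q4 • ev 4 := by
    ext i
    rw [hp4, hq4]
    fin_cases i
    · have := z 0 4 (by decide)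
      simpa [ev] using this
    · have := z 1 4 (by decide)
      simpa [ev] using this
    · simp [ev]
    · have := z 3 4 (by decide)
      simpa [ev] using this
    · simp [ev]
    · have := z 5 4 (by decide)
      simpa [ev] using this
    · have := z 6 4 (by decide)
      simpa [ev] using this
  have e00 : a0 = 0 := by
    have h := hD2 (ev 0) (ev 0)
    rw [d0] at h
    simp [bf, ev] at h
    apply g1_two t2
    apply g1_two t2
    linear_combination h
  have e03 : c0 = -(2 * a3) := by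
    have h := hD2 (ev 0) (ev 3)
    rw [d0, d3] at h
    simp [bf, ev] at h
    linear_combination h
  have e06 : b0 = -(2 * a6) := by
    have h := hD2 (ev 0) (ev 6)
    rw [d0, d6] at h
    simp [bf, ev] at h
    linear_combination h
  have e33 : c3 = 0 := by
    have h := hD2 (ev 3) (ev 3)
    rw [d3] at h
    simp [bf, ev] at h
    apply g1_two t2
    linear_combination h
  have e66 : b6 = 0 := by
    have h := hD2 (ev 6) (ev 6)
    rw [d6] at h
    simp [bf, ev] at h
    apply g1_two t2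
    linear_combination h
  have f3 := h2 (ev 3)
  rw [d3, map_add, map_add, map_smul, map_smul, map_smul, d0, d3, d6] at f3
  have f36 := congrFun f3 6
  have f33 := congrFun f3 3
  simp [ev] at f36 f33
  have ea3 : a3 = 0 := by
    apply g1_sq
    apply g1_two t2
    rw [e03, e33] at f36
    linear_combination -f36
  have eb3 : b3 = 0 := by
    apply g1_sq
    rw [ea3, e33] at f33
    linear_combination f33
  have f6 := h2 (ev 6)
  rw [d6, map_add, map_add, map_smul, map_smul, map_smul, d0, d3, d6] at f6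
  have f63 := congrFun f6 3
  have f66 := congrFun f6 6
  simp [ev] at f63 f66
  have ea6 : a6 = 0 := by
    apply g1_sq
    apply g1_two t2
    rw [e06, e66] at f63
    linear_combination -f63
  have ec6 : c6 = 0 := by
    apply g1_sq
    rw [ea6, e66] at f66
    linear_combination f66
  have k0 : D (ev 0) = 0 := by
    rw [d0, e00, e06, ea6, e03, ea3]
    simp
  have k3 : D (ev 3) = 0 := by
    rw [d3, ea3, eb3, e33]
    simp
  have k6 : D (ev 6) = 0 := by
    rw [d6, ea6, ec6, e66]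
    simp
  have b1 : br (ev 0 : V K) (ev 1) = (2 : K) • (ev 1 : V K) := by
    ext i
    fin_cases i <;> simp [br, ev]
  have b2 : br (ev 0 : V K) (ev 2) = (2 : K) • (ev 2 : V K) := by
    ext i
    fin_cases i <;> simp [br, ev]
  have b4 : br (ev 0 : V K) (ev 4) = (-2 : K) • (ev 4 : V K) := by
    ext i
    fin_cases i <;> simp [br, ev]
  have b5 : br (ev 0 : V K) (ev 5) = (-2 : K) • (ev 5 : V K) := by
    ext i
    fin_cases i <;> simp [br, ev]
  have eq1 : q1 = 0 := by
    have h := congrFun (hD1 (ev 0) (ev 1)) 5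
    rw [b1, map_smul, k0, d1] at h
    simp [br, ev] at h
    apply g1_two t2
    apply g1_two t2
    linear_combination h
  have eq2 : q2 = 0 := by
    have h := congrFun (hD1 (ev 0) (ev 2)) 4
    rw [b2, map_smul, k0, d2] at h
    simp [br, ev] at h
    apply g1_two t2
    apply g1_two t2
    linear_combination h
  have ep4 : p4 = 0 := by
    have h := congrFun (hD1 (ev 0) (ev 4)) 2
    rw [b4, map_smul, k0, d4] at h
    simp [br, ev] at h
    apply g1_two t2
    apply g1_two t2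
    linear_combination -h
  have ep5 : p5 = 0 := by
    have h := congrFun (hD1 (ev 0) (ev 5)) 1
    rw [b5, map_smul, k0, d5] at h
    simp [br, ev] at h
    apply g1_two t2
    apply g1_two t2
    linear_combination -h
  have sq : ∀ (j : Fin 7) (c : K), D (ev j) = c • ev j → D (ev j) = 0 := by
    intro j c h
    have h3 := congrFun (h2 (ev j)) j
    rw [h, map_smul, h, Pi.smul_apply, Pi.smul_apply, ev_same, Pi.zero_apply] at h3
    have h4 : c = 0 := g1_sq (by simpa using h3)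
    rw [h, h4, zero_smul]
  have k1 : D (ev 1) = 0 := sq 1 p1 (by rw [d1, eq1]; simp)
  have k2 : D (ev 2) = 0 := sq 2 p2 (by rw [d2, eq2]; simp)
  have k4 : D (ev 4) = 0 := sq 4 q4 (by rw [d4, ep4]; simp)
  have k5 : D (ev 5) = 0 := sq 5 q5 (by rw [d5, ep5]; simp)
  have kk : ∀ j, D (ev j) = 0 := by
    intro j
    fin_cases j
    · exact k0
    · exact k1
    · exact k2
    · exact k3
    · exact k4
    · exact k5
    · exact k6
  apply LinearMap.ext
  intro x
  rw [V_sum x, map_sum]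
  simp only [map_smul, kk, smul_zero, Finset.sum_const_zero, LinearMap.zero_apply]

end Pool.Agent.H40.GT
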