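import Pool.Agent.H40.GT.LgG1

/-!
# Part LgG2 (of LgG1, LgG2, LgG3, LgG4); GT-67 long root groups: the theorem

`comm_zero`: `D` a derivation with `D D = 0`, commuting with `Nl 0` and `Nl 1`.  It commutes with
`H = Nl 0 Nl 1 - Nl 1 Nl 0`, whose eigenspaces are `ln 0 = ⟨e_1, e_-2⟩` (1), `ln 1 = ⟨e_2, e_-1⟩` (-1),
`V_0 = ⟨e_0, e_3, e_-3⟩` (0).  On `V_0` (3-dimensional, `bf` nondegenerate) `D` is skew with `D D = 0`, so `D = 0`
there: `D e_0 = α e_3 + β e_-3`, `D e_3 = γ e_3 + δ e_0`, `D e_-3 = - γ e_-3 + δ' e_0`, `β = -2 δ`, `α = -2 δ'`;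
`D D e_3 = 0` gives `γ^2 + δ α = 0`.., `δ β = 0`, so `δ = 0 = β`; `D D e_-3 = 0` gives `δ' α = 0`, so
`α = δ' = 0`, `γ = 0`.  So `D e_0 = 0`, `D` commutes with `br e_0`, preserves `⟨e_1, e_2, e_3⟩` and `⟨e_-1, e_-2, e_-3⟩`,
and `⟨e_1, e_-2⟩`, `⟨e_2, e_-1⟩`: so `D e_1 = c e_1`, `c^2 = 0`, etc.: `D = 0`.

`lg_ii`: `f ∈ F`, `N' = lr f 0`; then `tf N1 N' ≠ 0` for some `N1 ∈ O1 F`.  Suppose not.  `tf D N' = 0` for
`D ∈ Sg F`.  Let `N2 = lr c 0 ∈ O1 F` (`c ∈ GS K (SF F)`), `x = f X_0(1) f⁻¹ = 1 + N' ∈ F`.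
`N' N2 N' = 0` (`aba`, `tf = 0`), so `N3 = lr (x c) 0 = x N2 x⁻¹ = N2 + (N' N2 - N2 N')`.  For `N1 ∈ O1 F`:
`tf N1 N3 = tf N1 N2 + tf N1 (N' N2 - N2 N') = tf N1 N2 + tf N' (N2 N1 - N1 N2) = tf N1 N2` (`sg_lie`).  Take
`N1 = lr c 1` (in `O1 F` up to a nonzero multiple, `O1_one`, `O1_conj`): `tf N1 N2 = tf (Nl 1) (Nl 0) = 2 ≠ 0`, so by `lg_i`
`N3 ∈ O1 F`, so `D = N' N2 - N2 N' ∈ Sg F` and `tf N1 D = 0` for all `N1 ∈ O1 F`; `Sg_A` or `Sg_B`: `D = 0`.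
In particular (`N2 = Nl 0`, and `N2 = lr n 0` proportional to `Nl 1`) `N'` commutes with `Nl 0`, `Nl 1`: `comm_zero`
gives `N' = 0`, contradiction (`lr_ne`).

`lg_SF`: `F` not standard, `0 ∈ SF F`.  By `lg_sym` and `Clo` the long roots in `SF F` form a closed
set, stable under `ng`, containing `0`: it is `{0, 1}` or all six (finite check).  In the first case the
short roots in `SF F` are among `10, 11`: a short root `y ∈ {6,7,8,9}` in `SF F` gives by closedness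
(with `0` or `1`) a second one, and then another long root (finite check).

`long_std`: some long `r ∈ SF F`.  Suppose `F` is not standard.  Conjugate `r` to `0`.  For `f ∈ F`:
by `lg_ii` and `lg_i` `lr f 0 = a • lr c 0`, `c ∈ GS K (SF F)`, so `f1 = c⁻¹ f` satisfies
`lr f1 0 = a • Nl 0`, so `f1` preserves `ln 0` (the range).  The subgroup `F'` of `F` preserving `ln 0` is
standard (`Std_ln`), so `F' ≤ BF F` (`Std_le_BF`), and `f = c f1 ∈ BF F`.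
-/

namespace Pool.Agent.H40.GT

variable {K : Type} [Field K]

theorem LgG2_span {F : Subgroup (EE K)} {N' : LM K} (h : ∀ N1 ∈ O1 F, tf N1 N' = 0) {D : LM K}
    (hD : D ∈ Sg F) : tf D N' = 0 := by
  refine Submodule.span_induction (p := fun D _ => tf D N' = 0) h ?_ ?_ ?_ hD
  · unfold tf
    rw [LinearMap.zero_comp, map_zero]
  · intro x y _ _ hx hy
    unfold tf at hx hy ⊢
    rw [LinearMap.add_comp, map_add, hx, hy, add_zero]
  · intro a x _ hx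
    unfold tf at hx ⊢
    rw [LinearMap.smul_comp, map_smul, hx, smul_zero]

theorem LgG2_tr (A B C : LM K) : tf A (B ∘ₗ C - C ∘ₗ B) = tf (C ∘ₗ A - A ∘ₗ C) B := by
  unfold tf
  rw [LinearMap.comp_sub, LinearMap.sub_comp, map_sub, map_sub]
  have h1 : LinearMap.trace K (V K) (A ∘ₗ B ∘ₗ C) = LinearMap.trace K (V K) ((C ∘ₗ A) ∘ₗ B) := by
    have := LinearMap.trace_mul_comm K (A ∘ₗ B) C
    exact this
  have h2 : LinearMap.trace K (V K) (A ∘ₗ C ∘ₗ B) = LinearMap.trace K (V K) ((A ∘ₗ C) ∘ₗ B) := rfl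
  rw [h1, h2]

theorem LgG2_comm (hK : Ok K) {F : Subgroup (EE K)} (hF : Ov F) (h0 : (0 : Rt) ∈ SF F)
    (h1 : (1 : Rt) ∈ SF F) (hS : (∀ r ∈ SF F, r = 0 ∨ r = 1 ∨ r = 10 ∨ r = 11) ∨
      ∀ r : Rt, r.val < 6 → r ∈ SF F) {f : EE K} (hf : f ∈ F)
    (hcon : ∀ N1 ∈ O1 F, tf N1 (lr f 0) = 0) {c : EE K} (hc : c ∈ GS K (SF F)) :
    lr f 0 ∘ₗ lr c 0 - lr c 0 ∘ₗ lr f 0 = 0 := by
  have h2 := ok_two hK
  have hcF : c ∈ F := GS_SF_le hF hc
  set N' : LM K := lr f 0 with hN'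
  set N2 : LM K := lr c 0 with hN2
  have hN2O : N2 ∈ O1 F := ⟨c, hc, 1, one_ne_zero, by rw [one_smul]⟩
  set X' : EE K := f * X 0 1 * f⁻¹ with hX'
  have hX'F : X' ∈ F := F.mul_mem (F.mul_mem hf (h0 1)) (F.inv_mem hf)
  have e1 : ∀ x, X' x = x + N' x := by
    intro x
    have := lr_X f (r := 0) (by decide) (1 : K) x
    rw [one_smul] at this
    exact this
  have e2 : ∀ x, X'⁻¹ x = x - N' x := by
    intro x
    have h3 : X'⁻¹ = f * X 0 (-1) * f⁻¹ := by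
      rw [hX', ← X_inv]
      group
    have := lr_X f (r := 0) (by decide) (-1 : K) x
    rw [h3, this, neg_one_smul, ← sub_eq_add_neg]
  have e3 : ∀ x, N' (N2 (N' x)) = 0 := by
    intro x
    have h4 := aba h2 (hF.2 hf) (r := 0) (by decide) (B := N2)
      (fun x y => (lr_IsD (hF.2 hcF) 0).2 x y) x
    rw [tf_comm, ← hN', hcon N2 hN2O, zero_smul] at h4
    rcases smul_eq_zero.mp h4 with h5 | h5
    · exact absurd h5 h2
    · exact h5
  have e4 : lr (X' * c) 0 = N2 + (N' ∘ₗ N2 - N2 ∘ₗ N') := by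
    rw [lr_mul]
    apply LinearMap.ext
    intro x
    show X' (N2 (X'⁻¹ x)) = N2 x + (N' (N2 x) - N2 (N' x))
    rw [e2, map_sub, e1, map_sub, e3]
    abel
  have e5 : ∀ N1 ∈ O1 F, tf N1 (N' ∘ₗ N2 - N2 ∘ₗ N') = 0 := by
    intro N1 hN1
    rw [LgG2_tr]
    exact LgG2_span hcon (sg_lie hK hF h0 (Submodule.subset_span hN2O) (Submodule.subset_span hN1))
  have e6 : lr (X' * c) 0 ∈ O1 F := by
    refine lg_i hK hF h0 h1 (F.mul_mem hX'F hcF) (O1_conj hc (O1_one hK h0 h1)) ?_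
    rw [e4]
    have h6 : ∀ A B C : LM K, tf A (B + C) = tf A B + tf A C := by
      intro A B C
      unfold tf
      rw [LinearMap.comp_add, map_add]
    rw [h6, e5 _ (O1_conj hc (O1_one hK h0 h1)), add_zero, hN2]
    have h7 := tf_conj c (Nl 1) (Nl 0)
    have h8 : tf (Nl 1 : LM K) (Nl 0) = 2 := by
      rw [tf_comm]
      exact tf_Nl 0 (by decide)
    rw [h8] at h7
    have h9 : lr c 0 = (c : V K →ₗ[K] V K) ∘ₗ Nl 0 ∘ₗ ((c⁻¹ : EE K) : V K →ₗ[K] V K) := rfl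
    rw [h9, h7]
    exact h2
  have e7 : N' ∘ₗ N2 - N2 ∘ₗ N' ∈ Sg F := by
    have h10 : N' ∘ₗ N2 - N2 ∘ₗ N' = lr (X' * c) 0 - N2 := by
      rw [e4]
      abel
    rw [h10]
    exact Submodule.sub_mem _ (Submodule.subset_span e6) (Submodule.subset_span hN2O)
  rcases hS with hS | hS
  · exact Sg_A hK hF h0 h1 hS e7 e5
  · exact Sg_B hK hF hS e7 e5

theorem lg_ii (hK : Ok K) {F : Subgroup (EE K)} (hF : Ov F) (h0 : (0 : Rt) ∈ SF F)
    (h1 : (1 : Rt) ∈ SF F) (hS : (∀ r ∈ SF F, r = 0 ∨ r = 1 ∨ r = 10 ∨ r = 11) ∨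
      ∀ r : Rt, r.val < 6 → r ∈ SF F) {f : EE K} (hf : f ∈ F) :
    ∃ N1 ∈ O1 F, tf N1 (lr f 0) ≠ 0 := by
  by_contra hcon
  push Not at hcon
  have key : ∀ c ∈ GS K (SF F), ∀ x, lr f 0 (lr c 0 x) = lr c 0 (lr f 0 x) := by
    intro c hc x
    have h3 := LgG2_comm hK hF h0 h1 hS hf hcon hc
    have h4 := congrArg (fun L : LM K => L x) h3
    simp only [LinearMap.sub_apply, LinearMap.comp_apply, LinearMap.zero_apply] at h4
    exact sub_eq_zero.mp h4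
  refine lr_ne (ok_two hK) f 0 (comm_zero hK (lr_IsD (hF.2 hf) 0) (lr_sq f (by decide)) ?_ ?_)
  · intro x
    have h3 := key 1 (one_mem _) x
    rw [lr_one] at h3
    exact h3
  · intro x
    obtain ⟨c, hc, a, ha, h5⟩ := O1_one hK h0 h1
    rw [h5, LinearMap.smul_apply, LinearMap.smul_apply, map_smul, key c hc x]

end Pool.Agent.H40.GT
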