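import Pool.Agent.H40.GT.LgG2

/-!
# Part LgG3 (of LgG1, LgG2, LgG3, LgG4); GT-67 long root groups: the theorem

`comm_zero`: `D` a derivation with `D D = 0`, commuting with `Nl 0` and `Nl 1`.  It commutes with
`H = Nl 0 Nl 1 - Nl 1 Nl 0`, whose eigenspaces are `ln 0 = ⟨e_1, e_-2⟩` (1), `ln 1 = ⟨e_2, e_-1⟩` (-1),
`V_0 = ⟨e_0, e_3, e_-3⟩` (0).  On `V_0` (3-dimensional, `bf` nondegenerate) `D` is skew with `D D = 0`, so `D = 0`
there: `D e_0 = α e_3 + β e_-3`, `D e_3 = γ e_3 + δ e_0`, `D e_-3 = - γ e_-3 + δ' e_0`, `β = -2 δ`, `α = -2 δ'`;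
`D D e_3 = 0` gives `γ^2 + δ α = 0`.., `δ β = 0`, so `δ = 0 = β`; `D D e_-3 = 0` gives `δ' α = 0`, so
`α = δ' = 0`, `γ = 0`.  So `D e_0 = 0`, `D` commutes with `br e_0`, preserves `⟨e_1, e_2, e_3⟩` and `⟨e_-1, e_-2, e_-3⟩`,
and `⟨e_1, e_-2⟩`, `⟨e_2, e_-1⟩`: so `D e_1 = c e_1`, `c^2 = 0`, etc.: `D = 0`.

`lg_ii`: `f ∈ F`, `N' = lr f 0`; then `tf N1 N' ≠ 0` for some `N1 ∈ O1 F`.  Suppose not.  `tf D N' = 0` for
`D ∈ Sg F`.  Let `N2 = lr c 0 ∈ O1 F` (`c ∈ GS K (SF F)`), `x = f X_0(1) f⁻¹ = 1 + N' ∈ F`.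
`N' N2 N' = 0` (`aba`, `tf = 0`), so `N3 = lr (x c) 0 = x N2 x⁻¹ = N2 + (N' N2 - N2 N')`.  For `N1 ∈ O1 F`:
`tf N1 N3 = tf N1 N2 + tf N1 (N' N2 - N2 N') = tf N1 N2 + tf N' (N2 N1 - N1 N2) = tf N1 N2` (`sg_lie`).  Take
`N1 = lr c 1` (in `O1 F` up to a nonzero multiple, `O1_one`, `O1_conj`): `tf N1 N2 = tf (Nl 1) (Nl 0) = 2 ≠ 0`, so by `lg_i`
`N3 ∈ O1 F`, so `D = N' N2 - N2 N' ∈ Sg F` and `tf N1 D = 0` for all `N1 ∈ O1 F`; `Sg_A` or `Sg_B`: `D = 0`.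
In particular (`N2 = Nl 0`, and `N2 = lr n 0` proportional to `Nl 1`) `N'` commutes with `Nl 0`, `Nl 1`: `comm_zero`
gives `N' = 0`, contradiction (`lr_ne`).

`lg_SF`: `F` not standard, `0 ∈ SF F`.  By `lg_sym` and `Clo` the long roots in `SF F` form a closed
set, stable under `ng`, containing `0`: it is `{0, 1}` or all six (finite check).  In the first case the
short roots in `SF F` are among `10, 11`: a short root `y ∈ {6,7,8,9}` in `SF F` gives by closedness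
(with `0` or `1`) a second one, and then another long root (finite check).

`long_std`: some long `r ∈ SF F`.  Suppose `F` is not standard.  Conjugate `r` to `0`.  For `f ∈ F`:
by `lg_ii` and `lg_i` `lr f 0 = a • lr c 0`, `c ∈ GS K (SF F)`, so `f1 = c⁻¹ f` satisfies
`lr f1 0 = a • Nl 0`, so `f1` preserves `ln 0` (the range).  The subgroup `F'` of `F` preserving `ln 0` is
standard (`Std_ln`), so `F' ≤ BF F` (`Std_le_BF`), and `f = c f1 ∈ BF F`.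
-/

namespace Pool.Agent.H40.GT

variable {K : Type} [Field K]

theorem lg_SF (hK : Ok K) {F : Subgroup (EE K)} (hF : Ov F) (hn : ¬ Std F)
    (h0 : (0 : Rt) ∈ SF F) : (1 : Rt) ∈ SF F ∧
      ((∀ r ∈ SF F, r = 0 ∨ r = 1 ∨ r = 10 ∨ r = 11) ∨ ∀ r : Rt, r.val < 6 → r ∈ SF F) := by
  have hc := Clo hK hF
  have hs : ∀ r : Rt, r.val < 6 → r ∈ SF F → ng r ∈ SF F := fun r hr h => lg_sym hK hF hn hr h
  have h1 : (1 : Rt) ∈ SF F := hs 0 (by decide) h0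
  refine ⟨h1, ?_⟩
  have a23 : (2 : Rt) ∈ SF F → (3 : Rt) ∈ SF F := hs 2 (by decide)
  have a32 : (3 : Rt) ∈ SF F → (2 : Rt) ∈ SF F := hs 3 (by decide)
  have a45 : (4 : Rt) ∈ SF F → (5 : Rt) ∈ SF F := hs 4 (by decide)
  have a54 : (5 : Rt) ∈ SF F → (4 : Rt) ∈ SF F := hs 5 (by decide)
  have a24 : (2 : Rt) ∈ SF F → (4 : Rt) ∈ SF F := fun h => hc 2 h 1 h1 4 (by decide)
  have a42 : (4 : Rt) ∈ SF F → (2 : Rt) ∈ SF F := fun h => hc 4 h 0 h0 2 (by decide)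
  by_cases h2 : (2 : Rt) ∈ SF F
  · right
    have h3 := a23 h2
    have h4 := a24 h2
    have h5 := a45 h4
    intro r hr
    have hr' : r = 0 ∨ r = 1 ∨ r = 2 ∨ r = 3 ∨ r = 4 ∨ r = 5 := by
      revert r
      decide
    rcases hr' with rfl | rfl | rfl | rfl | rfl | rfl <;> assumption
  · left
    have h3 : (3 : Rt) ∉ SF F := fun h => h2 (a32 h)
    have h4 : (4 : Rt) ∉ SF F := fun h => h2 (a42 h)
    have h5 : (5 : Rt) ∉ SF F := fun h => h4 (a54 h)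
    have h6 : (6 : Rt) ∉ SF F := by
      intro h
      have h8 : (8 : Rt) ∈ SF F := hc 6 h 1 h1 8 (by decide)
      have h11 : (11 : Rt) ∈ SF F := hc 6 h 8 h8 11 (by decide)
      exact h2 (hc 6 h 11 h11 2 (by decide))
    have h7 : (7 : Rt) ∉ SF F := by
      intro h
      have h9 : (9 : Rt) ∈ SF F := hc 7 h 0 h0 9 (by decide)
      have h10 : (10 : Rt) ∈ SF F := hc 7 h 9 h9 10 (by decide)
      exact h3 (hc 7 h 10 h10 3 (by decide))
    have h8 : (8 : Rt) ∉ SF F := fun h => h6 (hc 8 h 0 h0 6 (by decide))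
    have h9 : (9 : Rt) ∉ SF F := fun h => h7 (hc 9 h 1 h1 7 (by decide))
    intro r hr
    have hr' : r = 0 ∨ r = 1 ∨ r = 2 ∨ r = 3 ∨ r = 4 ∨ r = 5 ∨ r = 6 ∨ r = 7 ∨ r = 8 ∨
        r = 9 ∨ r = 10 ∨ r = 11 := by
      clear hr
      revert r
      decide
    rcases hr' with h | h | h | h | h | h | h | h | h | h | h | h
    · exact Or.inl h
    · exact Or.inr (Or.inl h)
    · exact absurd (h ▸ hr) h2
    · exact absurd (h ▸ hr) h3
    · exact absurd (h ▸ hr) h4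
    · exact absurd (h ▸ hr) h5
    · exact absurd (h ▸ hr) h6
    · exact absurd (h ▸ hr) h7
    · exact absurd (h ▸ hr) h8
    · exact absurd (h ▸ hr) h9
    · exact Or.inr (Or.inr (Or.inl h))
    · exact Or.inr (Or.inr (Or.inr h))

end Pool.Agent.H40.GT
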