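import Pool.Agent.H40.GT.LgG3

/-!
# Part LgG4 (of LgG1, LgG2, LgG3, LgG4); GT-67 long root groups: the theorem

`comm_zero`: `D` a derivation with `D D = 0`, commuting with `Nl 0` and `Nl 1`.  It commutes with
`H = Nl 0 Nl 1 - Nl 1 Nl 0`, whose eigenspaces are `ln 0 = ⟨e_1, e_-2⟩` (1), `ln 1 = ⟨e_2, e_-1⟩` (-1),
`V_0 = ⟨e_0, e_3, e_-3⟩` (0).  On `V_0` (3-dimensional, `bf` nondegenerate) `D` is skew with `D D = 0`, so `D = 0`
there: `D e_0 = α e_3 + β e_-3`, `D e_3 = γ e_3 + δ e_0`, `D e_-3 = - γ e_-3 + δ' e_0`, `β = -2 δ`, `α = -2 δ'`;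
`D D e_3 = 0` gives `γ^2 + δ α = 0`.., `δ β = 0`, so `δ = 0 = β`; `D D e_-3 = 0` gives `δ' α = 0`, so
`α = δ' = 0`, `γ = 0`.  So `D e_0 = 0`, `D` commutes with `br e_0`, preserves `⟨e_1, e_2, e_3⟩` and `⟨e_-1, e_-2, e_-3⟩`,
and `⟨e_1, e_-2⟩`, `⟨e_2, e_-1⟩`: so `D e_1 = c e_1`, `c^2 = 0`, etc.: `D = 0`.

`lg_ii`: `f ∈ F`, `N' = lr f 0`; then `tf N1 N' ≠ 0` for some `N1 ∈ O1 F`.  Suppose not.  `tf D N' = 0` for
`D ∈ Sg F`.  Let `N2 = lr c 0 ∈ O1 F` (`c ∈ GS K (SF F)`), `x = f X_0(1) f⁻¹ = 1 + N' ∈ F`.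
`N' N2 N' = 0` (`aba`, `tf = 0`), so `N3 = lr (x c) 0 = x N2 x⁻¹ = N2 + (N' N2 - N2 N')`.  For `N1 ∈ O1 F`:
`tf N1 N3 = tf N1 N2 + tf N1 (N' N2 - N2 N') = tf N1 N2 + tf N' (N2 N1 - N1 N2) = tf N1 N2` (`sg_lie`).  Take
`N1 = lr c 1` (in `O1 F` up to a nonzero multiple, `O1_one`, `O1_conj`): `tf N1 N2 = tf (Nl 1) (Nl 0) = 2 ≠ 0`, so by `lg_i`
`N3 ∈ O1 F`, so `D = N' N2 - N2 N' ∈ Sg F` and `tf N1 D = 0` for all `N1 ∈ O1 F`; `Sg_A` or `Sg_B`: `D = 0`.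
In particular (`N2 = Nl 0`, and `N2 = lr n 0` proportional to `Nl 1`) `N'` commutes with `Nl 0`, `Nl 1`: `comm_zero`
gives `N' = 0`, contradiction (`lr_ne`).

`lg_SF`: `F` not standard, `0 ∈ SF F`.  By `lg_sym` and `Clo` the long roots in `SF F` form a closed
set, stable under `ng`, containing `0`: it is `{0, 1}` or all six (finite check).  In the first case the
short roots in `SF F` are among `10, 11`: a short root `y ∈ {6,7,8,9}` in `SF F` gives by closedness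
(with `0` or `1`) a second one, and then another long root (finite check).

`long_std`: some long `r ∈ SF F`.  Suppose `F` is not standard.  Conjugate `r` to `0`.  For `f ∈ F`:
by `lg_ii` and `lg_i` `lr f 0 = a • lr c 0`, `c ∈ GS K (SF F)`, so `f1 = c⁻¹ f` satisfies
`lr f1 0 = a • Nl 0`, so `f1` preserves `ln 0` (the range).  The subgroup `F'` of `F` preserving `ln 0` is
standard (`Std_ln`), so `F' ≤ BF F` (`Std_le_BF`), and `f = c f1 ∈ BF F`.
-/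

namespace Pool.Agent.H40.GT

variable {K : Type} [Field K]

theorem LgG4_fwd {f : EE K} {a : K} (h : lr f 0 = a • (Nl 0 : LM K)) (x : V K)
    (hx : x ∈ (ln 0 : Submodule K (V K))) : f x ∈ (ln 0 : Submodule K (V K)) := by
  obtain ⟨y, rfl⟩ := hx
  refine ⟨a • f y, ?_⟩
  have h1 : lr f 0 (f y) = f (Nl 0 y) := by
    rw [lr_apply]
    congr 2
    exact f.symm_apply_apply y
  rw [← h1, h, map_smul, LinearMap.smul_apply]

theorem LgG4_inv {f : EE K} {a : K} (ha : a ≠ 0) (h : lr f 0 = a • (Nl 0 : LM K)) :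
    lr f⁻¹ 0 = a⁻¹ • (Nl 0 : LM K) := by
  apply LinearMap.ext
  intro x
  have h1 : lr f 0 (f x) = a • Nl 0 (f x) := by rw [h, LinearMap.smul_apply]
  rw [lr_apply] at h1 ⊢
  have e1 : f⁻¹ (f x) = x := f.symm_apply_apply x
  rw [e1] at h1
  rw [inv_inv]
  rw [LinearMap.smul_apply]
  have h2 : Nl 0 (f x) = a⁻¹ • f (Nl 0 x) := by
    rw [h1, smul_smul, inv_mul_cancel₀ ha, one_smul]
  rw [h2, map_smul]
  congr 1
  exact f.symm_apply_apply _

theorem LgG4_iff {f : EE K} {a : K} (ha : a ≠ 0) (h : lr f 0 = a • (Nl 0 : LM K)) (x : V K) :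
    x ∈ (ln 0 : Submodule K (V K)) ↔ f x ∈ (ln 0 : Submodule K (V K)) := by
  constructor
  · exact LgG4_fwd h x
  · intro hx
    have h1 := LgG4_fwd (LgG4_inv ha h) (f x) hx
    have e1 : f⁻¹ (f x) = x := f.symm_apply_apply x
    rwa [e1] at h1

theorem LgG4_tor (t : Kˣ × Kˣ) :
    lr (tor t) 0 = (ch (rt 0) t : K) • (Nl 0 : LM K) := by
  apply LinearMap.ext
  intro x
  have h1 := lr_X (tor t) (r := 0) (by decide) 1 x
  have h2 := lr_X (1 : EE K) (r := 0) (by decide) ((ch (rt 0) t : K) * 1) x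
  rw [one_mul, inv_one, mul_one, lr_one] at h2
  rw [tor_X, h2, one_smul] at h1
  rw [LinearMap.smul_apply]
  have h3 := add_left_cancel h1
  rw [← h3, mul_one]

/-- the subgroup preserving the line -/
def LgG4_S (F : Subgroup (EE K)) : Subgroup (EE K) where
  carrier := {f | f ∈ F ∧ ∀ x, x ∈ (ln 0 : Submodule K (V K)) ↔ f x ∈ (ln 0 : Submodule K (V K))}
  one_mem' := ⟨one_mem _, fun _ => Iff.rfl⟩
  mul_mem' := by
    rintro a b ⟨h1, h2⟩ ⟨h3, h4⟩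
    refine ⟨mul_mem h1 h3, fun x => ?_⟩
    rw [LinearEquiv.mul_apply]
    exact (h4 x).trans (h2 _)
  inv_mem' := by
    rintro a ⟨h1, h2⟩
    refine ⟨inv_mem h1, fun x => ?_⟩
    have e1 : a (a⁻¹ x) = x := a.apply_symm_apply x
    have := h2 (a⁻¹ x)
    rw [e1] at this
    exact this.symm

theorem LgG4_two (hK : Ok K) : (2 : K) ≠ 0 := by
  intro h
  have hf : Finite K := by
    apply Nat.finite_of_card_ne_zero
    rcases hK with h | h <;> rw [h] <;> norm_num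
  have hft : Fintype K := Fintype.ofFinite K
  have hc : ((Nat.card K : ℕ) : K) = 0 := by
    rw [Nat.card_eq_fintype_card]
    exact Nat.cast_card_eq_zero K
  have h1 : (1 : K) = 0 := by
    rcases hK with h' | h'
    · rw [h'] at hc
      have : ((7 : ℕ) : K) = 2 * 3 + 1 := by norm_num
      rw [this, h, zero_mul, zero_add] at hc
      exact hc
    · rw [h'] at hc
      have : ((11 : ℕ) : K) = 2 * 5 + 1 := by norm_num
      rw [this, h, zero_mul, zero_add] at hc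
      exact hc
  exact one_ne_zero h1

theorem LgG4_zero (hK : Ok K) {F : Subgroup (EE K)} (hF : Ov F) (h0 : (0 : Rt) ∈ SF F) :
    Std F := by
  have h2 := LgG4_two hK
  by_contra hn
  obtain ⟨h1, hS⟩ := lg_SF hK hF hn h0
  apply hn
  rw [Std_iff_BF h2 hF]
  intro f hf
  obtain ⟨N1, hN1, ht⟩ := lg_ii hK hF h0 h1 hS hf
  obtain ⟨c, hc, a, ha, hl⟩ := lg_i hK hF h0 h1 hf hN1 ht
  have hcF : c ∈ F := GS_SF_le hF hc
  have hl1 : lr (c⁻¹ * f) 0 = a • (Nl 0 : LM K) := by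
    rw [lr_mul, hl]
    apply LinearMap.ext
    intro x
    rw [inv_inv]
    show c⁻¹ (a • (c (Nl 0 (c⁻¹ (c x))))) = a • Nl 0 x
    have e1 : c⁻¹ (c x) = x := c.symm_apply_apply x
    rw [e1, map_smul]
    congr 1
    exact c.symm_apply_apply _
  have hO : Ov (LgG4_S F) := by
    refine ⟨?_, fun x hx => hF.2 hx.1⟩
    intro x hx
    refine ⟨hF.1 hx, ?_⟩
    obtain ⟨t, rfl⟩ := hx
    exact LgG4_iff (Units.ne_zero _) (LgG4_tor t)
  have hstd : Std (LgG4_S F) :=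
    Std_ln hK hO (r := 0) (by decide) (fun g hg x hx => (hg.2 x).mp hx)
  have hle := Std_le_BF h2 hF hO (fun x hx => hx.1) hstd
  have hm : c⁻¹ * f ∈ LgG4_S F := ⟨mul_mem (inv_mem hcF) hf, LgG4_iff ha hl1⟩
  have h3 := mul_mem (GS_le_BF h2 hF hc) (hle hm)
  rwa [mul_inv_cancel_left] at h3

theorem long_std (hK : Ok K) {F : Subgroup (EE K)} (hF : Ov F) {r : Rt} (hr : r.val < 6)
    (hrS : r ∈ SF F) : Std F := by
  have h2 := LgG4_two hK
  obtain ⟨n, hn, w, σ, τ, hM, hτ⟩ := NN_long h2 r 0 hr (by decide)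
  apply Std_cj h2 hn hF
  apply LgG4_zero hK (Ov_cj h2 hn hF)
  rw [SF_cj hM, ← hτ]
  exact ⟨r, hrS, rfl⟩

end Pool.Agent.H40.GT
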