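import Pool.Agent.H40.GT.StdP

/-!
# Part LmA (of LmA, LmB, LmC); GT-18 the isotropic points of `V_0 = ⟨e_0, e_1, e_-1⟩`

`LB` = the one dimensional subspaces of `V_0` spanned by isotropic vectors:
`⟨e_1⟩`, `⟨e_-1⟩` and `⟨e_0 + a e_1 - a⁻¹ e_-1⟩`, `a ≠ 0` (`bf x x = 2 x_0^2 + 2 x_1 x_4`), so
`|K| + 1` points.  Elements `f ∈ GG` commuting with `e = tor (1,-1)` preserve the eigenspace
`V_0` of `e` (eigenvalue `1`; the other coordinates have eigenvalue `-1`), so they preserve `LB`.

* `LB_tt`: `tor (s, t)` maps the point with parameter `a` to the point with parameter `s a`.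
* `LB_three`: `f` fixing three distinct isotropic lines `⟨v1⟩, ⟨v2⟩, ⟨v3⟩` of `V_0`: they are
  independent and pairwise non orthogonal; the eigenvalues satisfy `λ_i λ_j = 1` for `i ≠ j`,
  so they are all equal (to `1` or `-1`), and `f` is scalar on `V_0`.  (Or use the parameters.)
* `LB_U0`: `X 6 s` fixes `⟨e_1⟩`, `X 6 s e_-1 = e_-1 + s e_0 - s^2 e_1`: transitive on
  `LB - {⟨e_1⟩}`.  `LB_U1`: `X 7 s` alike with `e_-1`.
* `LB_hA`: `f ∈ F` (with `F` commuting with `tor (1,-1)`) fixes `⟨e_1⟩` and moves `⟨e_-1⟩`.  Then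
  `6 ∈ SF F`: let `F'` be the stabiliser of `⟨e_1⟩` in `F`; it is standard (`Std_pt`), so
  `f = c * n`, `c ∈ GS K (SF F')`, `n ∈ NN K`.  Roots `r ∈ SF F'`: `X r 1` commutes with `tor (1,-1)`,
  so `r ∈ {4,5,6,7}` (`X_comm_tor`), and `X 7 1` moves `⟨e_1⟩`.  If `6 ∉ SF F` then
  `SF F' ⊆ {4, 5}`, and `TT`, `X 4 s`, `X 5 s` fix `⟨e_1⟩` and `⟨e_-1⟩`; so `n` fixes `⟨e_1⟩`, hence
  (`bf`) `⟨e_-1⟩`, and `f` fixes `⟨e_-1⟩`, contradiction.  `LB_hB`: symmetric, `7 ∈ SF F`.
-/

namespace Pool.Agent.H40.GT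

variable {K : Type} [Field K]

/-- the span of a vector -/
abbrev sp (x : V K) : Submodule K (V K) := Submodule.span K {x}

/-- isotropic points of `V_0` -/
def LB (K : Type) [Field K] : Set (Submodule K (V K)) :=
  {W | ∃ x : V K, x ≠ 0 ∧ (∀ i, i ≠ 0 → i ≠ 1 → i ≠ 4 → x i = 0) ∧ bf x x = 0 ∧ W = sp x}

/-- `F` centralises the involution `tor (1,-1)` -/
def CEo (F : Subgroup (EE K)) : Prop := ∀ f ∈ F, f * tor (1, -1) = tor (1, -1) * f

private theorem LmA_smul {c : K} (hc : c ≠ 0) (x : V K) : sp (c • x) = sp x :=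
  Submodule.span_singleton_smul_eq (IsUnit.mk0 c hc) x

private theorem LmA_ext {x y : V K} (h0 : x 0 = y 0) (h1 : x 1 = y 1) (h2 : x 2 = y 2)
    (h3 : x 3 = y 3) (h4 : x 4 = y 4) (h5 : x 5 = y 5) (h6 : x 6 = y 6) : x = y := by
  funext i
  fin_cases i
  · exact h0
  · exact h1
  · exact h2
  · exact h3
  · exact h4
  · exact h5
  · exact h6

private theorem LmA_bf {x : V K} (hx : ∀ i, i ≠ 0 → i ≠ 1 → i ≠ 4 → x i = 0) :
    bf x x = 2 * (x 0 ^ 2 + x 1 * x 4) := by
  unfold bf
  rw [hx 2 (by decide) (by decide) (by decide), hx 3 (by decide) (by decide) (by decide)]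
  ring

private theorem LmA_q {x : V K} (h2 : (2 : K) ≠ 0) (hx : ∀ i, i ≠ 0 → i ≠ 1 → i ≠ 4 → x i = 0)
    (hb : bf x x = 0) : x 0 ^ 2 + x 1 * x 4 = 0 := by
  rw [LmA_bf hx] at hb
  exact (mul_eq_zero.1 hb).resolve_left h2

theorem LB_form (h2 : (2 : K) ≠ 0) {W : Submodule K (V K)} (hW : W ∈ LB K) :
    W = sp (ev 1) ∨ W = sp (ev 4) ∨ ∃ a : K, a ≠ 0 ∧ W = sp (ev 0 + a • ev 1 - a⁻¹ • ev 4) := by
  obtain ⟨x, hx0, hx, hb, rfl⟩ := hW
  have hq := LmA_q h2 hx hb
  have x2 := hx 2 (by decide) (by decide) (by decide)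
  have x3 := hx 3 (by decide) (by decide) (by decide)
  have x5 := hx 5 (by decide) (by decide) (by decide)
  have x6 := hx 6 (by decide) (by decide) (by decide)
  by_cases h0 : x 0 = 0
  · have h1 : x 1 * x 4 = 0 := by
      rw [h0] at hq
      linear_combination hq
    rcases mul_eq_zero.1 h1 with h1 | h1
    · right
      left
      have he : x = x 4 • ev 4 := by
        apply LmA_ext <;> simp [ev, h0, h1, x2, x3, x5, x6]
      have h4 : x 4 ≠ 0 := by
        intro h4
        apply hx0
        rw [he, h4, zero_smul]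
      rw [he]
      have := LmA_smul h4 (ev 4 : V K)
      simpa [ev] using this
    · left
      have he : x = x 1 • ev 1 := by
        apply LmA_ext <;> simp [ev, h0, h1, x2, x3, x5, x6]
      have h4 : x 1 ≠ 0 := by
        intro h4
        apply hx0
        rw [he, h4, zero_smul]
      rw [he]
      have := LmA_smul h4 (ev 1 : V K)
      simpa [ev] using this
  · right
    right
    have h1 : x 1 ≠ 0 := by
      intro h1
      rw [h1, zero_mul, add_zero] at hq
      exact h0 ((pow_eq_zero_iff two_ne_zero).1 hq)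
    refine ⟨x 1 / x 0, div_ne_zero h1 h0, ?_⟩
    have he : x = x 0 • (ev 0 + (x 1 / x 0) • ev 1 - (x 1 / x 0)⁻¹ • ev 4) := by
      apply LmA_ext
      · simp [ev]
      · simp [ev]
        field_simp
      · simp [ev, x2]
      · simp [ev, x3]
      · simp [ev]
        field_simp
        linear_combination hq
      · simp [ev, x5]
      · simp [ev, x6]
    conv_lhs => rw [he]
    exact LmA_smul h0 _

private theorem LmA_two (hK : Ok K) : (2 : K) ≠ 0 := by
  intro h2
  have h1 : addOrderOf (1 : K) ∣ 2 := by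
    rw [addOrderOf_dvd_iff_nsmul_eq_zero, nsmul_eq_mul, mul_one]
    exact_mod_cast h2
  have h3 : addOrderOf (1 : K) ∣ Nat.card K := addOrderOf_dvd_natCard 1
  have h4 : addOrderOf (1 : K) ∣ 1 := by
    rcases hK with h | h
    · rw [h] at h3
      exact (Nat.dvd_add_right (Dvd.dvd.mul_right h1 3)).mp h3
    · rw [h] at h3
      exact (Nat.dvd_add_right (Dvd.dvd.mul_right h1 5)).mp h3
  rw [addOrderOf_dvd_iff_nsmul_eq_zero, one_nsmul] at h4
  exact one_ne_zero h4

private theorem LmA_finK (hK : Ok K) : Finite K := by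
  refine Nat.finite_of_card_ne_zero ?_
  rcases hK with h | h <;> rw [h] <;> norm_num

/-- parametrisation of the isotropic vectors -/
private def LmA_v : Option K → V K
  | none => ev 1
  | some b => ![b, -b ^ 2, 0, 0, 1, 0, 0]

private theorem LmA_none : LmA_v (none : Option K) = ev 1 := rfl

private theorem LmA_ne (o : Option K) : LmA_v o ≠ 0 := by
  cases o with
  | none =>
    intro h
    have h1 := congrFun h 1
    simp [LmA_v, ev] at h1
  | some b =>
    intro h
    have h1 := congrFun h 4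
    simp [LmA_v] at h1

private theorem LmA_mem (o : Option K) : sp (LmA_v o) ∈ LB K := by
  refine ⟨LmA_v o, LmA_ne o, ?_, ?_, rfl⟩
  · intro i h0 h1 h4
    cases o with
    | none =>
      show (Pi.single 1 1 : V K) i = 0
      exact Pi.single_eq_of_ne h1 1
    | some b =>
      fin_cases i
      · exact absurd rfl h0
      · exact absurd rfl h1
      · rfl
      · rfl
      · exact absurd rfl h4
      · rfl
      · rfl
  · cases o with
    | none => simp [LmA_v, ev, bf]
    | some b =>
      simp [LmA_v, bf]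
      ring

private theorem LmA_inj : Function.Injective (fun o : Option K => sp (LmA_v o)) := by
  intro o o' h
  have h1 : LmA_v o ∈ sp (LmA_v o') := by
    rw [← (show sp (LmA_v o) = sp (LmA_v o') from h)]
    exact Submodule.mem_span_singleton_self _
  obtain ⟨c, hc⟩ := Submodule.mem_span_singleton.1 h1
  cases o with
  | none =>
    cases o' with
    | none => rfl
    | some b =>
      have e1 := congrFun hc 1
      have e4 := congrFun hc 4
      simp [LmA_v, ev] at e1 e4
      rw [e4] at e1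
      simp at e1
  | some b =>
    cases o' with
    | none =>
      have e4 := congrFun hc 4
      simp [LmA_v, ev] at e4
    | some b' =>
      have e0 := congrFun hc 0
      have e4 := congrFun hc 4
      simp [LmA_v] at e0 e4
      rw [e4, one_mul] at e0
      rw [e0]

private theorem LmA_range (h2 : (2 : K) ≠ 0) :
    LB K = Set.range (fun o : Option K => sp (LmA_v o)) := by
  ext W
  constructor
  · intro hW
    rcases LB_form h2 hW with rfl | rfl | ⟨a, ha, rfl⟩
    · exact ⟨none, rfl⟩
    · refine ⟨some 0, ?_⟩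
      show sp (LmA_v (some (0 : K))) = sp (ev 4)
      congr 2
      apply LmA_ext <;> simp [LmA_v, ev]
    · refine ⟨some (-a), ?_⟩
      show sp (LmA_v (some (-a))) = _
      have he : LmA_v (some (-a)) = (-a) • (ev 0 + a • ev 1 - a⁻¹ • ev 4) := by
        apply LmA_ext
        · simp [LmA_v, ev]
        · simp [LmA_v, ev]
          ring
        · simp [LmA_v, ev]
        · simp [LmA_v, ev]
        · simp [LmA_v, ev, ha]
        · simp [LmA_v, ev]
        · simp [LmA_v, ev]
      rw [he]
      exact LmA_smul (neg_ne_zero.2 ha) _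
  · rintro ⟨o, rfl⟩
    exact LmA_mem o

theorem LB_fin (hK : Ok K) : (LB K).Finite := by
  have := LmA_finK hK
  rw [LmA_range (LmA_two hK)]
  exact Set.finite_range _

theorem LB_card (hK : Ok K) : (LB K).ncard = Nat.card K + 1 := by
  have := LmA_finK hK
  rw [LmA_range (LmA_two hK), ← Set.image_univ, Set.ncard_image_of_injective _ LmA_inj,
    Set.ncard_univ, Finite.card_option]

theorem LB_ev1 : sp (ev 1 : V K) ∈ LB K := LmA_mem none

theorem LB_ev4 : sp (ev 4 : V K) ∈ LB K := by
  have h : LmA_v (some (0 : K)) = ev 4 := by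
    apply LmA_ext <;> simp [LmA_v, ev]
  rw [← h]
  exact LmA_mem _

theorem LB_ne : sp (ev 1 : V K) ≠ sp (ev 4) := by
  intro h
  have h1 : (ev 1 : V K) ∈ sp (ev 4 : V K) := by
    rw [← h]
    exact Submodule.mem_span_singleton_self _
  obtain ⟨c, hc⟩ := Submodule.mem_span_singleton.1 h1
  have e1 := congrFun hc 1
  simp [ev] at e1

end Pool.Agent.H40.GT
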