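import Pool.Agent.H40.GT.LmA

/-!
# Part LmB (of LmA, LmB, LmC); GT-18 the isotropic points of `V_0 = ⟨e_0, e_1, e_-1⟩`

`LB` = the one dimensional subspaces of `V_0` spanned by isotropic vectors:
`⟨e_1⟩`, `⟨e_-1⟩` and `⟨e_0 + a e_1 - a⁻¹ e_-1⟩`, `a ≠ 0` (`bf x x = 2 x_0^2 + 2 x_1 x_4`), so
`|K| + 1` points.  Elements `f ∈ GG` commuting with `e = tor (1,-1)` preserve the eigenspace
`V_0` of `e` (eigenvalue `1`; the other coordinates have eigenvalue `-1`), so they preserve `LB`.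

* `LB_tt`: `tor (s, t)` maps the point with parameter `a` to the point with parameter `s a`.
* `LB_three`: `f` fixing three distinct isotropic lines `⟨v1⟩, ⟨v2⟩, ⟨v3⟩` of `V_0`: they are
  independent and pairwise non orthogonal; the eigenvalues satisfy `λ_i λ_j = 1` for `i ≠ j`,
  so they are all equal (to `1` or `-1`), and `f` is scalar on `V_0`.  (Or use the parameters.)
* `LB_U0`: `X 6 s` fixes `⟨e_1⟩`, `X 6 s e_-1 = e_-1 + s e_0 - s^2 e_1`: transitive on
  `LB - {⟨e_1⟩}`.  `LB_U1`: `X 7 s` alike with `e_-1`.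
* `LB_hA`: `f ∈ F` (with `F` commuting with `tor (1,-1)`) fixes `⟨e_1⟩` and moves `⟨e_-1⟩`.  Then
  `6 ∈ SF F`: let `F'` be the stabiliser of `⟨e_1⟩` in `F`; it is standard (`Std_pt`), so
  `f = c * n`, `c ∈ GS K (SF F')`, `n ∈ NN K`.  Roots `r ∈ SF F'`: `X r 1` commutes with `tor (1,-1)`,
  so `r ∈ {4,5,6,7}` (`X_comm_tor`), and `X 7 1` moves `⟨e_1⟩`.  If `6 ∉ SF F` then
  `SF F' ⊆ {4, 5}`, and `TT`, `X 4 s`, `X 5 s` fix `⟨e_1⟩` and `⟨e_-1⟩`; so `n` fixes `⟨e_1⟩`, hence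
  (`bf`) `⟨e_-1⟩`, and `f` fixes `⟨e_-1⟩`, contradiction.  `LB_hB`: symmetric, `7 ∈ SF F`.
-/

namespace Pool.Agent.H40.GT

variable {K : Type} [Field K]

theorem LmB_two (hK : Ok K) : (2 : K) ≠ 0 := by
  intro h2
  have h1 : addOrderOf (1 : K) ∣ 2 := by
    rw [addOrderOf_dvd_iff_nsmul_eq_zero, nsmul_eq_mul, mul_one]
    exact_mod_cast h2
  have h3 : addOrderOf (1 : K) ∣ Nat.card K := addOrderOf_dvd_natCard 1
  have h4 : addOrderOf (1 : K) ∣ 1 := by
    rcases hK with h | h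
    · rw [h] at h3
      exact (Nat.dvd_add_right (Dvd.dvd.mul_right h1 3)).mp h3
    · rw [h] at h3
      exact (Nat.dvd_add_right (Dvd.dvd.mul_right h1 5)).mp h3
  rw [addOrderOf_dvd_iff_nsmul_eq_zero, one_nsmul] at h4
  exact one_ne_zero h4

theorem LmB_lact (f : EE K) (x : V K) : lact f (sp x) = sp (f x) := by
  rw [lact_apply]
  show Submodule.map _ (Submodule.span K {x}) = _
  rw [Submodule.map_span, Set.image_singleton]
  rfl

theorem LmB_smul {c : K} (hc : c ≠ 0) (x : V K) : sp (c • x) = sp x :=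
  Submodule.span_singleton_smul_eq (IsUnit.mk0 c hc) x

theorem LmB_ext {x y : V K} (h0 : x 0 = y 0) (h1 : x 1 = y 1) (h2 : x 2 = y 2)
    (h3 : x 3 = y 3) (h4 : x 4 = y 4) (h5 : x 5 = y 5) (h6 : x 6 = y 6) : x = y := by
  funext i
  fin_cases i
  · exact h0
  · exact h1
  · exact h2
  · exact h3
  · exact h4
  · exact h5
  · exact h6

/-- parametrisation of the isotropic vectors -/
def LmB_v : Option K → V K
  | none => ev 1
  | some b => ![b, -b ^ 2, 0, 0, 1, 0, 0]

theorem LmB_par (h2 : (2 : K) ≠ 0) {W : Submodule K (V K)} (hW : W ∈ LB K) :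
    ∃ o : Option K, W = sp (LmB_v o) := by
  rcases LB_form h2 hW with rfl | rfl | ⟨a, ha, rfl⟩
  · exact ⟨none, rfl⟩
  · refine ⟨some 0, ?_⟩
    congr 2
    apply LmB_ext <;> simp [LmB_v, ev]
  · refine ⟨some (-a), ?_⟩
    have he : LmB_v (some (-a)) = (-a) • (ev 0 + a • ev 1 - a⁻¹ • ev 4) := by
      apply LmB_ext
      · simp [LmB_v, ev]
      · simp [LmB_v, ev]
        ring
      · simp [LmB_v, ev]
      · simp [LmB_v, ev]
      · simp [LmB_v, ev, ha]
      · simp [LmB_v, ev]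
      · simp [LmB_v, ev]
    rw [he]
    exact (LmB_smul (neg_ne_zero.2 ha) _).symm

/-- being in `V_0` -/
def LmB_V0 (x : V K) : Prop := x 2 = 0 ∧ x 3 = 0 ∧ x 5 = 0 ∧ x 6 = 0

theorem LmB_V0_iff (x : V K) : LmB_V0 x ↔ ∀ i, i ≠ 0 → i ≠ 1 → i ≠ 4 → x i = 0 := by
  constructor
  · rintro ⟨h2, h3, h5, h6⟩ i h0 h1 h4
    fin_cases i
    · exact absurd rfl h0
    · exact absurd rfl h1
    · exact h2
    · exact h3
    · exact absurd rfl h4
    · exact h5
    · exact h6
  · intro h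
    exact ⟨h 2 (by decide) (by decide) (by decide), h 3 (by decide) (by decide) (by decide),
      h 5 (by decide) (by decide) (by decide), h 6 (by decide) (by decide) (by decide)⟩

theorem LmB_tor (x : V K) : tor (1, -1) x = ![x 0, x 1, -x 2, -x 3, x 4, -x 5, -x 6] := by
  apply LmB_ext <;> simp [tor_apply, ch, wt]

theorem LmB_pres (h2 : (2 : K) ≠ 0) {f : EE K} (he : f * tor (1, -1) = tor (1, -1) * f)
    {x : V K} (hx : LmB_V0 x) : LmB_V0 (f x) := by
  have h1 : tor (1, -1) x = x := by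
    rw [LmB_tor]
    obtain ⟨a2, a3, a5, a6⟩ := hx
    apply LmB_ext <;> simp [a2, a3, a5, a6]
  have h3 : tor (1, -1) (f x) = f x := by
    have := LinearEquiv.congr_fun he x
    rw [LinearEquiv.mul_apply, LinearEquiv.mul_apply, h1] at this
    exact this.symm
  rw [LmB_tor] at h3
  have key : ∀ a : K, -a = a → a = 0 := by
    intro a ha
    have : 2 * a = 0 := by linear_combination -ha
    exact (mul_eq_zero.1 this).resolve_left h2
  refine ⟨key _ ?_, key _ ?_, key _ ?_, key _ ?_⟩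
  · simpa using congrFun h3 2
  · simpa using congrFun h3 3
  · simpa using congrFun h3 5
  · simpa using congrFun h3 6

theorem LB_F (hK : Ok K) {f : EE K} (hf : f ∈ GG K) (he : f * tor (1, -1) = tor (1, -1) * f)
    {W : Submodule K (V K)} (hW : W ∈ LB K) : lact f W ∈ LB K := by
  obtain ⟨x, hx0, hx, hb, rfl⟩ := hW
  rw [LmB_lact]
  refine ⟨f x, ?_, ?_, ?_, rfl⟩
  · intro h
    apply hx0
    exact f.map_eq_zero_iff.1 h
  · rw [← LmB_V0_iff]
    exact LmB_pres (LmB_two hK) he ((LmB_V0_iff x).2 hx)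
  · rw [hf.2, hb]

theorem LB_tt (hK : Ok K) {W W' : Submodule K (V K)} (hW : W ∈ LB K) (hW' : W' ∈ LB K)
    (h1 : W ≠ sp (ev 1)) (h2 : W ≠ sp (ev 4)) (h3 : W' ≠ sp (ev 1)) (h4 : W' ≠ sp (ev 4)) :
    ∃ t ∈ TT K, lact t W = W' := by
  rcases LB_form (LmB_two hK) hW with h | h | ⟨a, ha, rfl⟩
  · exact absurd h h1
  · exact absurd h h2
  rcases LB_form (LmB_two hK) hW' with h | h | ⟨b, hb, rfl⟩
  · exact absurd h h3
  · exact absurd h h4
  refine ⟨tor (Units.mk0 (b / a) (div_ne_zero hb ha), 1), ⟨_, rfl⟩, ?_⟩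
  rw [LmB_lact]
  congr 2
  apply LmB_ext <;> simp [tor_apply, ch, wt, ev, ha]
  field_simp

theorem LmB_bf_none (u : V K) : bf u (LmB_v none) = u 4 := by
  simp [bf, LmB_v, ev]

theorem LmB_bf_some (u : V K) (b : K) :
    bf u (LmB_v (some b)) = 2 * u 0 * b + u 1 - b ^ 2 * u 4 := by
  simp [bf, LmB_v]
  ring

theorem LmB_bf_ne (a b : Option K) (hab : a ≠ b) : bf (LmB_v a) (LmB_v b) ≠ 0 := by
  cases b with
  | none =>
    rw [LmB_bf_none]
    cases a with
    | none => exact absurd rfl hab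
    | some a => simp [LmB_v]
  | some b =>
    rw [LmB_bf_some]
    cases a with
    | none => simp [LmB_v, ev]
    | some a =>
      have h1 : a - b ≠ 0 := by
        intro h
        apply hab
        rw [sub_eq_zero.1 h]
      have h2 : 2 * (LmB_v (some a)) 0 * b + (LmB_v (some a)) 1 - b ^ 2 * (LmB_v (some a)) 4
          = -(a - b) ^ 2 := by
        simp [LmB_v]
        ring
      rw [h2]
      exact neg_ne_zero.2 (pow_ne_zero 2 h1)

theorem LmB_zero (h2 : (2 : K) ≠ 0) {u : V K} (hu : LmB_V0 u) (a b c : Option K) (hab : a ≠ b)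
    (hac : a ≠ c) (hbc : b ≠ c) (ha : bf u (LmB_v a) = 0) (hb : bf u (LmB_v b) = 0)
    (hc : bf u (LmB_v c) = 0) : u = 0 := by
  have fin : ∀ b c : K, b ≠ c → u 4 = 0 → 2 * u 0 * b + u 1 - b ^ 2 * u 4 = 0 →
      2 * u 0 * c + u 1 - c ^ 2 * u 4 = 0 → u = 0 := by
    intro b c hbc h4 h5 h6
    rw [h4] at h5 h6
    have h7 : 2 * (b - c) * u 0 = 0 := by linear_combination h5 - h6
    have h0 : u 0 = 0 := (mul_eq_zero.1 h7).resolve_left (mul_ne_zero h2 (sub_ne_zero.2 hbc))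
    rw [h0] at h5
    have h1 : u 1 = 0 := by linear_combination h5
    obtain ⟨a2, a3, a5, a6⟩ := hu
    apply LmB_ext <;> simp [h0, h1, h4, a2, a3, a5, a6]
  cases a with
  | none =>
    rw [LmB_bf_none] at ha
    cases b with
    | none => exact absurd rfl hab
    | some b =>
      cases c with
      | none => exact absurd rfl hac
      | some c =>
        rw [LmB_bf_some] at hb hc
        exact fin b c (fun h => hbc (by rw [h])) ha hb hc
  | some a =>
    rw [LmB_bf_some] at ha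
    cases b with
    | none =>
      rw [LmB_bf_none] at hb
      cases c with
      | none => exact absurd rfl hbc
      | some c =>
        rw [LmB_bf_some] at hc
        exact fin a c (fun h => hac (by rw [h])) hb ha hc
    | some b =>
      rw [LmB_bf_some] at hb
      have n1 : a - b ≠ 0 := sub_ne_zero.2 (fun h => hab (by rw [h]))
      cases c with
      | none =>
        rw [LmB_bf_none] at hc
        exact fin a b (fun h => hab (by rw [h])) hc ha hb
      | some c =>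
        rw [LmB_bf_some] at hc
        have n2 : a - c ≠ 0 := sub_ne_zero.2 (fun h => hac (by rw [h]))
        have n3 : b - c ≠ 0 := sub_ne_zero.2 (fun h => hbc (by rw [h]))
        have e1 : (a - b) * (2 * u 0 - (a + b) * u 4) = 0 := by linear_combination ha - hb
        have e2 : (a - c) * (2 * u 0 - (a + c) * u 4) = 0 := by linear_combination ha - hc
        have e3 := (mul_eq_zero.1 e1).resolve_left n1
        have e4 := (mul_eq_zero.1 e2).resolve_left n2
        have e5 : (b - c) * u 4 = 0 := by linear_combination e4 - e3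
        exact fin a b (fun h => hab (by rw [h])) ((mul_eq_zero.1 e5).resolve_left n3) ha hb

theorem LmB_V0v (o : Option K) : LmB_V0 (LmB_v o) := by
  cases o with
  | none => exact ⟨by simp [LmB_v, ev], by simp [LmB_v, ev], by simp [LmB_v, ev], by simp [LmB_v, ev]⟩
  | some b => exact ⟨rfl, rfl, rfl, rfl⟩

theorem LmB_smulr (u v : V K) (c : K) : bf u (c • v) = c * bf u v := by
  simp [bf]
  ring

theorem LmB_smull (u v : V K) (c : K) : bf (c • u) v = c * bf u v := by
  simp [bf]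
  ring

theorem LmB_subl (u w v : V K) : bf (u - w) v = bf u v - bf w v := by
  simp [bf]
  ring

theorem LmB_eig {f : EE K} {o : Option K} (h : lact f (sp (LmB_v o)) = sp (LmB_v o)) :
    ∃ c : K, f (LmB_v o) = c • LmB_v o := by
  rw [LmB_lact] at h
  have h1 : f (LmB_v o) ∈ sp (LmB_v o) := by
    rw [← h]
    exact Submodule.mem_span_singleton_self _
  obtain ⟨c, hc⟩ := Submodule.mem_span_singleton.1 h1
  exact ⟨c, hc.symm⟩

theorem LmB_one {f : EE K} (hf : f ∈ GG K) {a b : Option K} (hab : a ≠ b) {l m : K}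
    (ha : f (LmB_v a) = l • LmB_v a) (hb : f (LmB_v b) = m • LmB_v b) : l * m = 1 := by
  have h1 := hf.2 (LmB_v a) (LmB_v b)
  rw [ha, hb, LmB_smull, LmB_smulr, ← mul_assoc] at h1
  have h2 : (l * m - 1) * bf (LmB_v a) (LmB_v b) = 0 := by linear_combination h1
  exact sub_eq_zero.1 ((mul_eq_zero.1 h2).resolve_right (LmB_bf_ne a b hab))

theorem LB_three (hK : Ok K) {f : EE K} (hf : f ∈ GG K)
    (he : f * tor (1, -1) = tor (1, -1) * f) {A B C : Submodule K (V K)} (hA : A ∈ LB K)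
    (hB : B ∈ LB K) (hC : C ∈ LB K) (h1 : A ≠ B) (h2 : A ≠ C) (h3 : B ≠ C)
    (hfA : lact f A = A) (hfB : lact f B = B) (hfC : lact f C = C) :
    ∀ W ∈ LB K, lact f W = W := by
  have t2 := LmB_two hK
  obtain ⟨a, rfl⟩ := LmB_par t2 hA
  obtain ⟨b, rfl⟩ := LmB_par t2 hB
  obtain ⟨c, rfl⟩ := LmB_par t2 hC
  have nab : a ≠ b := fun h => h1 (by rw [h])
  have nac : a ≠ c := fun h => h2 (by rw [h])
  have nbc : b ≠ c := fun h => h3 (by rw [h])
  obtain ⟨l, hl⟩ := LmB_eig hfA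
  obtain ⟨m, hm⟩ := LmB_eig hfB
  obtain ⟨n, hn⟩ := LmB_eig hfC
  have e1 : l * m = 1 := LmB_one hf nab hl hm
  have e2 : l * n = 1 := LmB_one hf nac hl hn
  have e3 : m * n = 1 := LmB_one hf nbc hm hn
  have hl0 : l ≠ 0 := left_ne_zero_of_mul_eq_one e1
  have emn : m = n := by
    have : l * (m - n) = 0 := by linear_combination e1 - e2
    exact sub_eq_zero.1 ((mul_eq_zero.1 this).resolve_left hl0)
  subst emn
  have hm0 : m ≠ 0 := left_ne_zero_of_mul_eq_one e3
  have elm : l = m := by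
    have : m * (l - m) = 0 := by linear_combination e1 - e3
    exact sub_eq_zero.1 ((mul_eq_zero.1 this).resolve_left hm0)
  subst elm
  intro W hW
  obtain ⟨o, rfl⟩ := LmB_par t2 hW
  have hu : f (LmB_v o) - l • LmB_v o = 0 := by
    have orth : ∀ a : Option K, f (LmB_v a) = l • LmB_v a →
        bf (f (LmB_v o) - l • LmB_v o) (LmB_v a) = 0 := by
      intro a ha
      have h5 : LmB_v a = l • f (LmB_v a) := by
        rw [ha, smul_smul, e1, one_smul]
      have h6 : bf (f (LmB_v o)) (LmB_v a) = l * bf (LmB_v o) (LmB_v a) := by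
        conv_lhs => rw [h5]
        rw [LmB_smulr, hf.2]
      rw [LmB_subl, LmB_smull, h6, sub_self]
    refine LmB_zero t2 ?_ a b c nab nac nbc (orth a hl) (orth b hm) (orth c hn)
    obtain ⟨p2, p3, p5, p6⟩ := LmB_pres t2 he (LmB_V0v o)
    obtain ⟨q2, q3, q5, q6⟩ := LmB_V0v o
    refine ⟨?_, ?_, ?_, ?_⟩ <;> simp [p2, p3, p5, p6, q2, q3, q5, q6]
  rw [LmB_lact, sub_eq_zero.1 hu]
  exact LmB_smul hl0 _

theorem LB_U0 (hK : Ok K) (s : K) : lact (X 6 s) (sp (ev 1)) = sp (ev 1 : V K) := by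
  rw [LmB_lact]
  congr 2
  apply LmB_ext <;> simp [X_apply, ev, cc, sc, qc, qs]

theorem LB_U1 (hK : Ok K) (s : K) : lact (X 7 s) (sp (ev 4)) = sp (ev 4 : V K) := by
  rw [LmB_lact]
  congr 2
  apply LmB_ext <;> simp [X_apply, ev, cc, sc, qc, qs]

theorem LB_U0t (hK : Ok K) {W W' : Submodule K (V K)} (hW : W ∈ LB K) (hW' : W' ∈ LB K)
    (h1 : W ≠ sp (ev 1)) (h2 : W' ≠ sp (ev 1)) : ∃ s : K, lact (X 6 s) W = W' := by
  obtain ⟨a, rfl⟩ := LmB_par (LmB_two hK) hW
  obtain ⟨b, rfl⟩ := LmB_par (LmB_two hK) hW'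
  cases a with
  | none => exact absurd rfl h1
  | some a =>
    cases b with
    | none => exact absurd rfl h2
    | some b =>
      refine ⟨b - a, ?_⟩
      rw [LmB_lact]
      congr 2
      apply LmB_ext <;> simp [X_apply, LmB_v, cc, sc, qc, qs]
      ring

theorem LmB_par' (h2 : (2 : K) ≠ 0) {W : Submodule K (V K)} (hW : W ∈ LB K)
    (h4 : W ≠ sp (ev 4)) : ∃ b : K, W = sp ![b, 1, 0, 0, -b ^ 2, 0, 0] := by
  rcases LB_form h2 hW with rfl | rfl | ⟨a, ha, rfl⟩
  · refine ⟨0, ?_⟩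
    congr 2
    apply LmB_ext <;> simp [ev]
  · exact absurd rfl h4
  · refine ⟨a⁻¹, ?_⟩
    have he : (ev 0 + a • ev 1 - a⁻¹ • ev 4 : V K) = a • ![a⁻¹, 1, 0, 0, -a⁻¹ ^ 2, 0, 0] := by
      apply LmB_ext
      · simp [ev, ha]
      · simp [ev]
      · simp [ev]
      · simp [ev]
      · simp [ev]
        field_simp
      · simp [ev]
      · simp [ev]
    rw [he]
    exact LmB_smul ha _

theorem LB_U1t (hK : Ok K) {W W' : Submodule K (V K)} (hW : W ∈ LB K) (hW' : W' ∈ LB K)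
    (h1 : W ≠ sp (ev 4)) (h2 : W' ≠ sp (ev 4)) : ∃ s : K, lact (X 7 s) W = W' := by
  obtain ⟨a, rfl⟩ := LmB_par' (LmB_two hK) hW h1
  obtain ⟨b, rfl⟩ := LmB_par' (LmB_two hK) hW' h2
  refine ⟨b - a, ?_⟩
  rw [LmB_lact]
  congr 2
  apply LmB_ext <;> simp [X_apply, cc, sc, qc, qs]
  ring

end Pool.Agent.H40.GT
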