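import Pool.Agent.H40.GT.LmB

/-!
# Part LmC (of LmA, LmB, LmC); GT-18 the isotropic points of `V_0 = ⟨e_0, e_1, e_-1⟩`

`LB` = the one dimensional subspaces of `V_0` spanned by isotropic vectors:
`⟨e_1⟩`, `⟨e_-1⟩` and `⟨e_0 + a e_1 - a⁻¹ e_-1⟩`, `a ≠ 0` (`bf x x = 2 x_0^2 + 2 x_1 x_4`), so
`|K| + 1` points.  Elements `f ∈ GG` commuting with `e = tor (1,-1)` preserve the eigenspace
`V_0` of `e` (eigenvalue `1`; the other coordinates have eigenvalue `-1`), so they preserve `LB`.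

* `LB_tt`: `tor (s, t)` maps the point with parameter `a` to the point with parameter `s a`.
* `LB_three`: `f` fixing three distinct isotropic lines `⟨v1⟩, ⟨v2⟩, ⟨v3⟩` of `V_0`: they are
  independent and pairwise non orthogonal; the eigenvalues satisfy `λ_i λ_j = 1` for `i ≠ j`,
  so they are all equal (to `1` or `-1`), and `f` is scalar on `V_0`.  (Or use the parameters.)
* `LB_U0`: `X 6 s` fixes `⟨e_1⟩`, `X 6 s e_-1 = e_-1 + s e_0 - s^2 e_1`: transitive on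
  `LB - {⟨e_1⟩}`.  `LB_U1`: `X 7 s` alike with `e_-1`.
* `LB_hA`: `f ∈ F` (with `F` commuting with `tor (1,-1)`) fixes `⟨e_1⟩` and moves `⟨e_-1⟩`.  Then
  `6 ∈ SF F`: let `F'` be the stabiliser of `⟨e_1⟩` in `F`; it is standard (`Std_pt`), so
  `f = c * n`, `c ∈ GS K (SF F')`, `n ∈ NN K`.  Roots `r ∈ SF F'`: `X r 1` commutes with `tor (1,-1)`,
  so `r ∈ {4,5,6,7}` (`X_comm_tor`), and `X 7 1` moves `⟨e_1⟩`.  If `6 ∉ SF F` then
  `SF F' ⊆ {4, 5}`, and `TT`, `X 4 s`, `X 5 s` fix `⟨e_1⟩` and `⟨e_-1⟩`; so `n` fixes `⟨e_1⟩`, hence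
  (`bf`) `⟨e_-1⟩`, and `f` fixes `⟨e_-1⟩`, contradiction.  `LB_hB`: symmetric, `7 ∈ SF F`.
-/

namespace Pool.Agent.H40.GT

variable {K : Type} [Field K]

theorem LmC_lact (g : EE K) (x : V K) : lact g (sp x) = sp (g x) := by
  rw [lact_apply]
  show Submodule.map _ (Submodule.span K {x}) = Submodule.span K {g x}
  rw [Submodule.map_span, Set.image_singleton]
  rfl

theorem LmC_eig {g : EE K} {x : V K} (h : lact g (sp x) = sp x) : ∃ c : K, g x = c • x := by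
  rw [LmC_lact] at h
  have h1 : g x ∈ sp x := by
    rw [← h]
    exact Submodule.mem_span_singleton_self _
  obtain ⟨c, hc⟩ := Submodule.mem_span_singleton.1 h1
  exact ⟨c, hc.symm⟩

theorem LmC_fix {g : EE K} {x : V K} {c : K} (hc : c ≠ 0) (h : g x = c • x) :
    lact g (sp x) = sp x := by
  rw [LmC_lact, h]
  exact Submodule.span_singleton_smul_eq (IsUnit.mk0 c hc) x

/-- the stabiliser of a point -/
def LmC_st (W : Submodule K (V K)) : Subgroup (EE K) :=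
  (MulAction.stabilizer (Equiv.Perm (Submodule K (V K))) W).comap lact

theorem LmC_mem {W : Submodule K (V K)} {g : EE K} : g ∈ LmC_st W ↔ lact g W = W := Iff.rfl

theorem LmC_odd : ∀ q : Rt, q ≠ 4 → q ≠ 5 → q ≠ 6 → q ≠ 7 → Odd (rt q).2 := by
  decide

theorem LmC_ch (h2 : (2 : K) ≠ 0) (q : Rt) (h4 : q ≠ 4) (h5 : q ≠ 5) (h6 : q ≠ 6) (h7 : q ≠ 7) :
    ch (rt q) ((1, -1) : Kˣ × Kˣ) ≠ 1 := by
  intro h
  have h1 : ch (rt q) ((1, -1) : Kˣ × Kˣ) = -1 := by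
    show (1 : Kˣ) ^ (rt q).1 * (-1 : Kˣ) ^ (rt q).2 = -1
    rw [one_zpow, one_mul, (LmC_odd q h4 h5 h6 h7).neg_one_zpow]
  rw [h1] at h
  have h3 := congrArg (Units.val) h
  rw [Units.val_neg, Units.val_one] at h3
  apply h2
  linear_combination -h3

theorem LmC_main (hK : Ok K) {F : Subgroup (EE K)} (hF : Ov F) (hE : CEo F) {j j' : Fin 7}
    {r r' : Rt} (hj : j ≠ 0) (hb1 : bf (ev j : V K) (ev j') = 1)
    (hb : ∀ i, bf (ev j : V K) (ev i) ≠ 0 → i = j')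
    (hrr : ∀ q : Rt, q ≠ 4 → q ≠ 5 → q ≠ r → q ≠ r' → ch (rt q) ((1, -1) : Kˣ × Kˣ) ≠ 1)
    (hX : X r' (1 : K) (ev j) 0 ≠ 0) (h4 : ∀ s : K, X 4 s (ev j') = ev j')
    (h5 : ∀ s : K, X 5 s (ev j') = ev j') {f : EE K}
    (hf : f ∈ F) (h1 : lact f (sp (ev j)) = sp (ev j)) (h2 : lact f (sp (ev j')) ≠ sp (ev j')) :
    r ∈ SF F := by
  by_contra hr
  have htor : ∀ (i : Fin 7) (t : Kˣ × Kˣ), lact (tor t) (sp (ev i : V K)) = sp (ev i) := by
    intro i t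
    exact LmC_fix (Units.ne_zero _) (tor_ev t i)
  have hO : Ov (F ⊓ LmC_st (sp (ev j))) := by
    refine ⟨?_, ?_⟩
    · rintro g ⟨t, rfl⟩
      exact ⟨hF.1 ⟨t, rfl⟩, htor j t⟩
    · intro g hg
      exact hF.2 hg.1
  have hS : Std (F ⊓ LmC_st (sp (ev j))) := by
    apply Std_pt hK hO hj
    intro g hg
    exact LmC_eig hg.2
  obtain ⟨c, hc, hn⟩ := hS f ⟨hf, h1⟩
  have hSF : ∀ q ∈ SF (F ⊓ LmC_st (sp (ev j))), q = 4 ∨ q = 5 := by
    intro q hq
    by_contra hne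
    push Not at hne
    have hq1 := hq 1
    have hcomm := hE _ hq1.1
    rw [X_comm_tor _ _ _ one_ne_zero] at hcomm
    have hq2 : q = r ∨ q = r' := by
      by_contra hne2
      push Not at hne2
      exact hrr q hne.1 hne.2 hne2.1 hne2.2 hcomm
    rcases hq2 with hq2 | hq2
    · apply hr
      intro s
      rw [← hq2]
      exact (hq s).1
    · rw [hq2] at hq1
      obtain ⟨a, ha⟩ := LmC_eig hq1.2
      rw [ha] at hX
      apply hX
      rw [Pi.smul_apply, ev_ne (Ne.symm hj), smul_zero]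
  have hle : GS K (SF (F ⊓ LmC_st (sp (ev j)))) ≤ LmC_st (sp (ev j')) := by
    unfold GS
    rw [Subgroup.closure_le]
    rintro g (hg | ⟨q, hq, s, rfl⟩)
    · obtain ⟨t, rfl⟩ := hg
      exact htor j' t
    · show lact (X q s) (sp (ev j')) = sp (ev j')
      rcases hSF q hq with h6 | h6
      · rw [h6, LmC_lact, h4]
      · rw [h6, LmC_lact, h5]
  have hc1 : c ∈ LmC_st (sp (ev j')) := hle hc
  have hc2 : c ∈ LmC_st (sp (ev j)) := (GS_SF_le hO hc).2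
  have hn1 : c⁻¹ * f ∈ LmC_st (sp (ev j)) := mul_mem (inv_mem hc2) h1
  obtain ⟨a, ha⟩ := LmC_eig hn1
  obtain ⟨i, b, hi⟩ := hn.2.1 j'
  have h6 : a * b * bf (ev j : V K) (ev i) = 1 := by
    rw [← BasC_bf_smul, ← ha, ← hi, hn.1.2, hb1]
  have h7 : i = j' := by
    apply hb
    intro h8
    rw [h8, mul_zero] at h6
    exact zero_ne_one h6
  rw [h7, hb1, mul_one] at h6
  rw [h7] at hi
  have hb0 : b ≠ 0 := by
    intro h8
    rw [h8, mul_zero] at h6
    exact zero_ne_one h6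
  have hn2 : c⁻¹ * f ∈ LmC_st (sp (ev j')) := LmC_fix hb0 hi
  apply h2
  have h9 := mul_mem hc1 hn2
  rw [mul_inv_cancel_left] at h9
  exact h9

theorem LmC_Xfix (r : Rt) (j : Fin 7)
    (h : ∀ i, (cc r i = 0 ∨ sc r i ≠ j) ∧ (qc r i = 0 ∨ qs r i ≠ j)) (s : K) :
    X r s (ev j) = ev j := by
  ext i
  rw [X_apply]
  obtain ⟨h1, h2⟩ := h i
  have e1 : (cc r i : K) * (ev j : V K) (sc r i) = 0 := by
    rcases h1 with h1 | h1
    · rw [h1, Int.cast_zero, zero_mul]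
    · rw [ev_ne h1, mul_zero]
  have e2 : (qc r i : K) * (ev j : V K) (qs r i) = 0 := by
    rcases h2 with h2 | h2
    · rw [h2, Int.cast_zero, zero_mul]
    · rw [ev_ne h2, mul_zero]
  rw [e1, e2, mul_zero, mul_zero, add_zero, add_zero]

theorem LmC_Xmove (r : Rt) (j : Fin 7) (hj : j ≠ 0) (h1 : cc r 0 = 1) (h2 : sc r 0 = j)
    (h3 : qc r 0 = 0) : X r (1 : K) (ev j) 0 ≠ 0 := by
  rw [X_apply, h1, h2, h3, ev_ne (Ne.symm hj), ev_same, Int.cast_one, Int.cast_zero, zero_mul,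
    mul_zero, add_zero, mul_one, mul_one, zero_add]
  exact one_ne_zero

theorem LB_hA (hK : Ok K) {F : Subgroup (EE K)} (hF : Ov F) (hE : CEo F) {f : EE K}
    (hf : f ∈ F) (h1 : lact f (sp (ev 1)) = sp (ev 1)) (h2 : lact f (sp (ev 4)) ≠ sp (ev 4)) :
    (6 : Rt) ∈ SF F := by
  refine LmC_main hK hF hE (j := 1) (j' := 4) (r := 6) (r' := 7) (by decide) ?_ ?_ ?_ ?_ ?_ ?_
    hf h1 h2
  · simp [bf, ev]
  · intro i hi
    by_contra hne
    apply hi
    revert hne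
    fin_cases i <;> simp [bf, ev]
  · intro q h4 h5 h6 h7
    exact LmC_ch (ok_two hK) q h4 h5 h6 h7
  · exact LmC_Xmove _ _ (by decide) rfl rfl rfl
  · intro s
    exact LmC_Xfix _ _ (by decide) s
  · intro s
    exact LmC_Xfix _ _ (by decide) s

theorem LB_hB (hK : Ok K) {F : Subgroup (EE K)} (hF : Ov F) (hE : CEo F) {f : EE K}
    (hf : f ∈ F) (h1 : lact f (sp (ev 4)) = sp (ev 4)) (h2 : lact f (sp (ev 1)) ≠ sp (ev 1)) :
    (7 : Rt) ∈ SF F := by
  refine LmC_main hK hF hE (j := 4) (j' := 1) (r := 7) (r' := 6) (by decide) ?_ ?_ ?_ ?_ ?_ ?_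
    hf h1 h2
  · simp [bf, ev]
  · intro i hi
    by_contra hne
    apply hi
    revert hne
    fin_cases i <;> simp [bf, ev]
  · intro q h4 h5 h7 h6
    exact LmC_ch (ok_two hK) q h4 h5 h6 h7
  · exact LmC_Xmove _ _ (by decide) rfl rfl rfl
  · intro s
    exact LmC_Xfix _ _ (by decide) s
  · intro s
    exact LmC_Xfix _ _ (by decide) s

end Pool.Agent.H40.GT
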