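import Pool.Agent.H40.GT.LamB

/-!
# Part LnA (of LnA, LnB, LnC); GT-19 the special lines of `V_1 = ⟨e_2, e_3, e_-2, e_-3⟩`

`lg a b = ⟨a e_2 + b e_3, a e_-3 - b e_-2⟩`, `(a, b) ≠ 0`, `LG` = the set of these.
* `LG_char`: `W` is in `LG` iff it is a 2-dimensional subspace of `V_1` on which `br` and `bf` vanish.
  (`V_1 = A ⊗ B` with `e_2 = a1⊗b1, e_3 = a2⊗b1, -e_-3 = a1⊗b2, e_-2 = a2⊗b2`; the totally singular
  planes are `a ⊗ B` and `A ⊗ b`, and `br` does not vanish on the latter.  Direct proof: take a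
  nonzero `w = (w_2, w_3, w_-2, w_-3) ∈ W`, `bf w w = 2 (w_2 w_-2 + w_3 w_-3) = 0`, so
  `w_-2 = - μ w_3`, `w_-3 = μ w_2`, or `w_2 = w_3 = 0`, ...; in each case `w` lies in a unique
  `lg a b`, and `{x ∈ V_1 | bf w x = 0, br w x = 0} = lg a b`.)
* So elements `f ∈ GG` commuting with `tor (1,-1)` preserve `LG`.
* `x0 = lg 1 0 = ⟨e_2, e_-3⟩ = ln 4`, `x1 = lg 0 1 = ⟨e_3, e_-2⟩ = ln 5`.  `tor (s, t)` maps
  `lg a b` to `lg (t a) ((s t)⁻¹ b)`, so `TT` fixes `x0, x1` and is transitive on the others.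
* `LG_three`: `f` fixes `W1, W2, W3` distinct: `V_1 = W1 ⊕ W2`, `W3` is the graph of an isomorphism
  `θ : W1 → W2`, and every other `W4 ∈ LG` is the graph of `λ θ`, `λ ≠ 0` (in `A ⊗ B` terms:
  `a1' ⊗ B, a2' ⊗ B, (a1' + λ a2') ⊗ B`).  `f` commutes with `θ`, so it preserves `W4`.
* `X 4 s`: `e_3 ↦ e_3 + s e_2`, `e_-2 ↦ e_-2 - s e_-3`: maps `lg a b` to `lg (a + s b) b`.  `X 5 s`:
  `lg a b` to `lg a (b + s a)`.
* `LG_hA`: `F` commutes with `tor (1,-1)`, `f ∈ F` fixes `x0 = ln 4` and moves `x1`: then `4 ∈ SF F`.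
  Let `F'` be the stabiliser of `x0` in `F`: standard by `Std_ln` (`r = 4`); `f = c * n`; roots in
  `SF F'` are in `{4,5,6,7}` (commute with `tor (1,-1)`) and `X 5 1` does not fix `x0`.
  If `4 ∉ SF F`: `c` is in the group generated by `TT`, `X 6 s`, `X 7 s`, which fix both `x0` and
  `x1` (`X 6 s`: `e_2 ↦ e_2 - s e_-3`, `e_3 ↦ e_3 + s e_-2`, `e_-2, e_-3` fixed; `X 7 s`:
  `e_-3 ↦ e_-3 + s e_2`, `e_-2 ↦ e_-2 - s e_3`).  So `n` preserves `⟨e_2, e_-3⟩`, permutes
  coordinate lines, so (`bf`) it preserves `⟨e_-2, e_3⟩`; `f` fixes `x1`, contradiction.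
  `LG_hB` symmetric.
-/

namespace Pool.Agent.H40.GT

variable {K : Type} [Field K]

/-- the special lines of `V_1` -/
def lg (a b : K) : Submodule K (V K) :=
  Submodule.span K {a • ev 2 + b • ev 3, a • ev 6 - b • ev 5}

/-- the set of these lines -/
def LG (K : Type) [Field K] : Set (Submodule K (V K)) :=
  {W | ∃ a b : K, (a ≠ 0 ∨ b ≠ 0) ∧ W = lg a b}

theorem LnA_two (hK : Ok K) : (2 : K) ≠ 0 := by
  have hz : ∀ n : ℕ, n ≠ 0 → Nat.card K = n → (n : K) = 0 := by
    intro n hn h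
    have hf : Finite K := Nat.finite_of_card_ne_zero (by rw [h]; exact hn)
    have := Fintype.ofFinite K
    rw [← h, Nat.card_eq_fintype_card]
    exact Nat.cast_card_eq_zero K
  intro h2
  rcases hK with h | h
  · have h1 : ((7 : ℕ) : K) = 0 := hz 7 (by norm_num) h
    push_cast at h1
    exact one_ne_zero (α := K) (by linear_combination h1 - 3 * h2)
  · have h1 : ((11 : ℕ) : K) = 0 := hz 11 (by norm_num) h
    push_cast at h1
    exact one_ne_zero (α := K) (by linear_combination h1 - 5 * h2)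

theorem LnA_vec (a b p q : K) : p • (a • ev 2 + b • ev 3) + q • (a • ev 6 - b • ev 5) =
    (![0, 0, p * a, p * b, 0, -(q * b), q * a] : V K) := by
  funext i
  fin_cases i <;> simp [ev]

theorem LnA_mem {a b : K} {x : V K} :
    x ∈ lg a b ↔ ∃ p q : K, x = ![0, 0, p * a, p * b, 0, -(q * b), q * a] := by
  unfold lg
  rw [Submodule.mem_span_pair]
  constructor
  · rintro ⟨p, q, h⟩
    exact ⟨p, q, by rw [← h, LnA_vec]⟩
  · rintro ⟨p, q, h⟩
    exact ⟨p, q, by rw [h, LnA_vec]⟩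

theorem LnA_ext {x : V K} {a b c d : K} (h0 : x 0 = 0) (h1 : x 1 = 0) (h4 : x 4 = 0)
    (h2 : x 2 = a) (h3 : x 3 = b) (h5 : x 5 = c) (h6 : x 6 = d) : x = ![0, 0, a, b, 0, c, d] := by
  funext i
  fin_cases i <;> simp_all

theorem LnA_rank {a b : K} (h : a ≠ 0 ∨ b ≠ 0) : Module.finrank K (lg a b) = 2 := by
  have hl : LinearIndependent K ![(a • ev 2 + b • ev 3 : V K), a • ev 6 - b • ev 5] := by
    rw [LinearIndependent.pair_iff]
    intro p q hpq
    rw [LnA_vec] at hpq
    have e2 := congrFun hpq 2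
    have e3 := congrFun hpq 3
    have e5 := congrFun hpq 5
    have e6 := congrFun hpq 6
    simp at e2 e3 e5 e6
    rcases h with h | h
    · exact ⟨e2.resolve_right h, e6.resolve_right h⟩
    · exact ⟨e3.resolve_right h, e5.resolve_right h⟩
  have h1 := finrank_span_eq_card hl
  rw [Fintype.card_fin] at h1
  have h2 : Set.range ![(a • ev 2 + b • ev 3 : V K), a • ev 6 - b • ev 5] =
      {a • ev 2 + b • ev 3, a • ev 6 - b • ev 5} := by
    simp only [Matrix.range_cons, Matrix.range_empty, Set.union_empty]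
    rfl
  rw [h2] at h1
  exact h1

theorem LnA_smul {a b c : K} (hc : c ≠ 0) : lg (c * a) (c * b) = lg a b := by
  ext x
  rw [LnA_mem, LnA_mem]
  constructor
  · rintro ⟨p, q, h⟩
    exact ⟨p * c, q * c, by rw [h]; simp only [mul_assoc]⟩
  · rintro ⟨p, q, h⟩
    refine ⟨p * c⁻¹, q * c⁻¹, ?_⟩
    rw [h]
    simp only [mul_assoc, inv_mul_cancel_left₀ hc]

theorem LG_char (h2 : (2 : K) ≠ 0) {W : Submodule K (V K)} : W ∈ LG K ↔
    Module.finrank K W = 2 ∧ (∀ x ∈ W, x 0 = 0 ∧ x 1 = 0 ∧ x 4 = 0) ∧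
      ∀ x ∈ W, ∀ y ∈ W, br x y = 0 ∧ bf x y = 0 := by
  constructor
  · rintro ⟨a, b, hab, rfl⟩
    refine ⟨LnA_rank hab, ?_, ?_⟩
    · intro x hx
      obtain ⟨p, q, rfl⟩ := LnA_mem.1 hx
      simp
    · intro x hx y hy
      obtain ⟨p, q, rfl⟩ := LnA_mem.1 hx
      obtain ⟨p', q', rfl⟩ := LnA_mem.1 hy
      constructor
      · funext i
        fin_cases i <;> simp [br] <;> first | (right; ring) | ring
      · simp [bf]
        ring
  · rintro ⟨hr, h0, hb⟩
    have hrel : ∀ x ∈ W, ∀ y ∈ W, x 2 * y 5 + x 3 * y 6 = 0 ∧ x 2 * y 3 = x 3 * y 2 ∧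
        x 5 * y 6 = x 6 * y 5 := by
      intro x hx y hy
      obtain ⟨e1, e2⟩ := hb x hx y hy
      obtain ⟨x0, x1, x4⟩ := h0 x hx
      obtain ⟨y0, y1, y4⟩ := h0 y hy
      have f0 := congrFun e1 0
      have f1 := congrFun e1 1
      have f4 := congrFun e1 4
      simp only [br, bf, x0, x1, x4, y0, y1, y4, Matrix.cons_val_zero, Matrix.cons_val_one,
        Matrix.cons_val, Pi.zero_apply] at f0 f1 f4 e2
      refine ⟨?_, ?_, ?_⟩
      · apply mul_left_cancel₀ h2
        linear_combination f0 + e2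
      · apply mul_left_cancel₀ h2
        linear_combination f4
      · apply mul_left_cancel₀ h2
        linear_combination -f1
    obtain ⟨a, b, hab, hle⟩ : ∃ a b : K, (a ≠ 0 ∨ b ≠ 0) ∧ W ≤ lg a b := by
      by_cases hx : ∃ x ∈ W, x 2 ≠ 0 ∨ x 3 ≠ 0
      · obtain ⟨x, hxW, hx⟩ := hx
        refine ⟨x 2, x 3, hx, fun y hy => ?_⟩
        obtain ⟨e1, e2, -⟩ := hrel x hxW y hy
        obtain ⟨y0, y1, y4⟩ := h0 y hy
        rw [LnA_mem]
        rcases hx with hx | hx
        · refine ⟨y 2 / x 2, y 6 / x 2, LnA_ext y0 y1 y4 ?_ ?_ ?_ ?_⟩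
          · field_simp
          · field_simp
            linear_combination e2
          · field_simp
            linear_combination e1
          · field_simp
        · refine ⟨y 3 / x 3, -(y 5) / x 3, LnA_ext y0 y1 y4 ?_ ?_ ?_ ?_⟩
          · field_simp
            linear_combination -e2
          · field_simp
          · field_simp
            try ring
          · field_simp
            linear_combination e1
      · push Not at hx
        have hne : W ≠ ⊥ := by
          rintro rfl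
          rw [finrank_bot] at hr
          omega
        obtain ⟨x, hxW, hx0⟩ := (Submodule.ne_bot_iff W).1 hne
        obtain ⟨x0, x1, x4⟩ := h0 x hxW
        obtain ⟨x2, x3⟩ := hx x hxW
        have h56 : x 6 ≠ 0 ∨ -(x 5) ≠ 0 := by
          by_contra hcon
          push Not at hcon
          apply hx0
          have := LnA_ext x0 x1 x4 x2 x3 (neg_eq_zero.1 hcon.2) hcon.1
          rw [this]
          funext i
          fin_cases i <;> simp
        refine ⟨x 6, -(x 5), h56, fun y hy => ?_⟩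
        obtain ⟨-, -, e3⟩ := hrel x hxW y hy
        obtain ⟨y0, y1, y4⟩ := h0 y hy
        obtain ⟨y2, y3⟩ := hx y hy
        rw [LnA_mem]
        rcases h56 with h6 | h5
        · refine ⟨0, y 6 / x 6, LnA_ext y0 y1 y4 ?_ ?_ ?_ ?_⟩
          · rw [y2, zero_mul]
          · rw [y3, zero_mul]
          · field_simp
            linear_combination -e3
          · field_simp
        · have h5' : x 5 ≠ 0 := fun h => h5 (by rw [h, neg_zero])
          refine ⟨0, y 5 / x 5, LnA_ext y0 y1 y4 ?_ ?_ ?_ ?_⟩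
          · rw [y2, zero_mul]
          · rw [y3, zero_mul]
          · field_simp
            try ring
          · field_simp
            linear_combination e3
    refine ⟨a, b, hab, ?_⟩
    exact Submodule.eq_of_le_of_finrank_eq hle (by rw [hr, LnA_rank hab])

theorem LG_form {W : Submodule K (V K)} (hW : W ∈ LG K) :
    W = lg 1 0 ∨ ∃ a : K, W = lg a 1 := by
  obtain ⟨a, b, hab, rfl⟩ := hW
  by_cases hb : b = 0
  · left
    have ha : a ≠ 0 := by
      rcases hab with h | h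
      · exact h
      · exact absurd hb h
    have := LnA_smul (K := K) (a := 1) (b := 0) ha
    rw [mul_one, mul_zero] at this
    rw [hb, this]
  · right
    refine ⟨a / b, ?_⟩
    have := LnA_smul (K := K) (a := a / b) (b := 1) hb
    rw [mul_one, mul_div_cancel₀ _ hb] at this
    exact this

theorem LnA_inj1 {a a' : K} (h : lg a 1 = lg a' 1) : a = a' := by
  have h1 : (![0, 0, 1 * a, 1 * 1, 0, -(0 * 1), 0 * a] : V K) ∈ lg a 1 :=
    LnA_mem.2 ⟨1, 0, rfl⟩
  rw [h, LnA_mem] at h1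
  obtain ⟨p, q, h1⟩ := h1
  have e2 := congrFun h1 2
  have e3 := congrFun h1 3
  simp at e2 e3
  rw [e2, ← e3, one_mul]

theorem LnA_ne (a : K) : (lg 1 0 : Submodule K (V K)) ≠ lg a 1 := by
  intro h
  have h1 : (![0, 0, 1 * a, 1 * 1, 0, -(0 * 1), 0 * a] : V K) ∈ lg a 1 :=
    LnA_mem.2 ⟨1, 0, rfl⟩
  rw [← h, LnA_mem] at h1
  obtain ⟨p, q, h1⟩ := h1
  have e3 := congrFun h1 3
  simp at e3

omit [Field K] in
theorem LnA_finite (hK : Ok K) : Finite K := by
  apply Nat.finite_of_card_ne_zero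
  rcases hK with h | h <;> omega

theorem LG_fin (hK : Ok K) : (LG K).Finite := by
  have := LnA_finite hK
  refine (Set.finite_range (fun p : K × K => lg p.1 p.2)).subset ?_
  rintro W ⟨a, b, -, rfl⟩
  exact ⟨(a, b), rfl⟩

theorem LG_card (hK : Ok K) : (LG K).ncard = Nat.card K + 1 := by
  have := LnA_finite hK
  let φ : Option K → Submodule K (V K) := fun o => match o with
    | none => lg 1 0
    | some a => lg a 1
  have hφ : Function.Injective φ := by
    intro x y hxy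
    rcases x with _ | a <;> rcases y with _ | b
    · rfl
    · exact absurd hxy (LnA_ne b)
    · exact absurd hxy.symm (LnA_ne a)
    · exact congrArg some (LnA_inj1 hxy)
  have hr : LG K = Set.range φ := by
    ext W
    constructor
    · intro hW
      rcases LG_form hW with h | ⟨a, h⟩
      · exact ⟨none, h.symm⟩
      · exact ⟨some a, h.symm⟩
    · rintro ⟨o, rfl⟩
      rcases o with _ | a
      · exact ⟨1, 0, Or.inl one_ne_zero, rfl⟩
      · exact ⟨a, 1, Or.inr one_ne_zero, rfl⟩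
  rw [hr, ← Finite.card_option, ← Nat.card_coe_set_eq]
  exact Nat.card_range_of_injective hφ

theorem ln_four : (ln 4 : Submodule K (V K)) = lg 1 0 := by
  ext x
  rw [LnA_mem]
  constructor
  · rintro ⟨y, rfl⟩
    refine ⟨y 3, -(y 5), ?_⟩
    funext i
    fin_cases i <;> simp [Nl_apply, cc, sc]
  · rintro ⟨p, q, rfl⟩
    refine ⟨![0, 0, 0, p, 0, -q, 0], ?_⟩
    funext i
    fin_cases i <;> simp [Nl_apply, cc, sc]

theorem ln_five : (ln 5 : Submodule K (V K)) = lg 0 1 := by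
  ext x
  rw [LnA_mem]
  constructor
  · rintro ⟨y, rfl⟩
    refine ⟨y 2, y 6, ?_⟩
    funext i
    fin_cases i <;> simp [Nl_apply, cc, sc]
  · rintro ⟨p, q, rfl⟩
    refine ⟨![0, 0, p, 0, 0, 0, q], ?_⟩
    funext i
    fin_cases i <;> simp [Nl_apply, cc, sc]

theorem LG_ne : (lg 1 0 : Submodule K (V K)) ≠ lg 0 1 := LnA_ne 0

theorem LnA_tor {x : V K} (h0 : x 0 = 0) (h1 : x 1 = 0) (h4 : x 4 = 0) :
    tor (1, -1) x = -x := by
  funext i
  rw [tor_apply, Pi.neg_apply]
  fin_cases i <;> simp [ch, wt, h0, h1, h4]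

theorem LnA_V1 (hK : Ok K) {f : EE K} (he : f * tor (1, -1) = tor (1, -1) * f) {x : V K}
    (h0 : x 0 = 0) (h1 : x 1 = 0) (h4 : x 4 = 0) : f x 0 = 0 ∧ f x 1 = 0 ∧ f x 4 = 0 := by
  have h2 := LnA_two hK
  have h3 : f (tor (1, -1) x) = tor (1, -1) (f x) := LinearEquiv.congr_fun he x
  rw [LnA_tor h0 h1 h4, map_neg] at h3
  have e0 := congrFun h3 0
  have e1 := congrFun h3 1
  have e4 := congrFun h3 4
  rw [tor_apply, Pi.neg_apply] at e0 e1 e4
  simp [ch, wt] at e0 e1 e4
  refine ⟨?_, ?_, ?_⟩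
  · exact (mul_eq_zero.1 (show (2 : K) * f x 0 = 0 by linear_combination -e0)).resolve_left h2
  · exact (mul_eq_zero.1 (show (2 : K) * f x 1 = 0 by linear_combination -e1)).resolve_left h2
  · exact (mul_eq_zero.1 (show (2 : K) * f x 4 = 0 by linear_combination -e4)).resolve_left h2

theorem LG_F (hK : Ok K) {f : EE K} (hf : f ∈ GG K) (he : f * tor (1, -1) = tor (1, -1) * f)
    {W : Submodule K (V K)} (hW : W ∈ LG K) : lact f W ∈ LG K := by
  rw [LG_char (LnA_two hK)] at hW ⊢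
  obtain ⟨h1, h2, h3⟩ := hW
  rw [lact_apply]
  refine ⟨?_, ?_, ?_⟩
  · rw [← h1]
    exact LinearEquiv.finrank_map_eq f W
  · rintro _ ⟨x, hx, rfl⟩
    obtain ⟨x0, x1, x4⟩ := h2 x hx
    exact LnA_V1 hK he x0 x1 x4
  · rintro _ ⟨x, hx, rfl⟩ _ ⟨y, hy, rfl⟩
    obtain ⟨e1, e2⟩ := h3 x hx y hy
    constructor
    · show br (f x) (f y) = 0
      rw [← hf.1, e1, map_zero]
    · show bf (f x) (f y) = 0
      rw [hf.2, e2]

end Pool.Agent.H40.GT
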