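import Pool.Agent.H40.GT.LnA

/-!
# Part LnB (of LnA, LnB, LnC); GT-19 the special lines of `V_1 = ⟨e_2, e_3, e_-2, e_-3⟩`

`lg a b = ⟨a e_2 + b e_3, a e_-3 - b e_-2⟩`, `(a, b) ≠ 0`, `LG` = the set of these.
* `LG_char`: `W` is in `LG` iff it is a 2-dimensional subspace of `V_1` on which `br` and `bf` vanish.
  (`V_1 = A ⊗ B` with `e_2 = a1⊗b1, e_3 = a2⊗b1, -e_-3 = a1⊗b2, e_-2 = a2⊗b2`; the totally singular
  planes are `a ⊗ B` and `A ⊗ b`, and `br` does not vanish on the latter.  Direct proof: take a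
  nonzero `w = (w_2, w_3, w_-2, w_-3) ∈ W`, `bf w w = 2 (w_2 w_-2 + w_3 w_-3) = 0`, so
  `w_-2 = - μ w_3`, `w_-3 = μ w_2`, or `w_2 = w_3 = 0`, ...; in each case `w` lies in a unique
  `lg a b`, and `{x ∈ V_1 | bf w x = 0, br w x = 0} = lg a b`.)
* So elements `f ∈ GG` commuting with `tor (1,-1)` preserve `LG`.
* `x0 = lg 1 0 = ⟨e_2, e_-3⟩ = ln 4`, `x1 = lg 0 1 = ⟨e_3, e_-2⟩ = ln 5`.  `tor (s, t)` maps
  `lg a b` to `lg (t a) ((s t)⁻¹ b)`, so `TT` fixes `x0, x1` and is transitive on the others.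
* `LG_three`: `f` fixes `W1, W2, W3` distinct: `V_1 = W1 ⊕ W2`, `W3` is the graph of an isomorphism
  `θ : W1 → W2`, and every other `W4 ∈ LG` is the graph of `λ θ`, `λ ≠ 0` (in `A ⊗ B` terms:
  `a1' ⊗ B, a2' ⊗ B, (a1' + λ a2') ⊗ B`).  `f` commutes with `θ`, so it preserves `W4`.
* `X 4 s`: `e_3 ↦ e_3 + s e_2`, `e_-2 ↦ e_-2 - s e_-3`: maps `lg a b` to `lg (a + s b) b`.  `X 5 s`:
  `lg a b` to `lg a (b + s a)`.
* `LG_hA`: `F` commutes with `tor (1,-1)`, `f ∈ F` fixes `x0 = ln 4` and moves `x1`: then `4 ∈ SF F`.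
  Let `F'` be the stabiliser of `x0` in `F`: standard by `Std_ln` (`r = 4`); `f = c * n`; roots in
  `SF F'` are in `{4,5,6,7}` (commute with `tor (1,-1)`) and `X 5 1` does not fix `x0`.
  If `4 ∉ SF F`: `c` is in the group generated by `TT`, `X 6 s`, `X 7 s`, which fix both `x0` and
  `x1` (`X 6 s`: `e_2 ↦ e_2 - s e_-3`, `e_3 ↦ e_3 + s e_-2`, `e_-2, e_-3` fixed; `X 7 s`:
  `e_-3 ↦ e_-3 + s e_2`, `e_-2 ↦ e_-2 - s e_3`).  So `n` preserves `⟨e_2, e_-3⟩`, permutes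
  coordinate lines, so (`bf`) it preserves `⟨e_-2, e_3⟩`; `f` fixes `x1`, contradiction.
  `LG_hB` symmetric.
-/

namespace Pool.Agent.H40.GT

variable {K : Type} [Field K]

theorem LnB_det {a b c d : K} (h1 : a ≠ 0 ∨ b ≠ 0) (h2 : c ≠ 0 ∨ d ≠ 0)
    (h : lg a b ≠ lg c d) : a * d - b * c ≠ 0 := by
  intro h0
  apply h
  have h3 : a * d = b * c := by linear_combination h0
  rcases h1 with ha | hb
  · have hc : c ≠ 0 := by
      rintro rfl
      rcases h2 with h2 | h2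
      · exact h2 rfl
      · rw [mul_zero] at h3
        exact (mul_eq_zero.1 h3).elim ha h2
    have h4 := LnA_smul (K := K) (a := a) (b := b) (c := c / a) (div_ne_zero hc ha)
    rw [← h4]
    congr 1
    · field_simp
    · field_simp
      linear_combination -h3
  · have hd : d ≠ 0 := by
      rintro rfl
      rcases h2 with h2 | h2
      · rw [mul_zero] at h3
        exact (mul_eq_zero.1 h3.symm).elim hb h2
      · exact h2 rfl
    have h4 := LnA_smul (K := K) (a := a) (b := b) (c := d / b) (div_ne_zero hd hb)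
    rw [← h4]
    congr 1
    · field_simp
      linear_combination h3
    · field_simp

theorem LnB_eq {f : EE K} {a b a' b' : K} (h : a ≠ 0 ∨ b ≠ 0) (h' : a' ≠ 0 ∨ b' ≠ 0)
    (hle : ∀ p q : K, f (![0, 0, p * a, p * b, 0, -(q * b), q * a] : V K) ∈ lg a' b') :
    lact f (lg a b) = lg a' b' := by
  rw [lact_apply]
  apply Submodule.eq_of_le_of_finrank_eq
  · rintro _ ⟨x, hx, rfl⟩
    obtain ⟨p, q, rfl⟩ := LnA_mem.1 hx
    exact hle p q
  · rw [LnA_rank h']
    exact (LinearEquiv.finrank_map_eq f (lg a b)).trans (LnA_rank h)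

theorem LnB_tor (s t : Kˣ) {a b : K} (h : a ≠ 0 ∨ b ≠ 0) :
    lact (tor (s, t)) (lg a b) = lg ((t : K) * a) (((s * t)⁻¹ : Kˣ) * b) := by
  apply LnB_eq h
  · rcases h with h | h
    · exact Or.inl (mul_ne_zero t.ne_zero h)
    · exact Or.inr (mul_ne_zero (Units.ne_zero _) h)
  · intro p q
    rw [LnA_mem]
    refine ⟨p, (s : K) * q, ?_⟩
    funext i
    rw [tor_apply]
    fin_cases i
    · simp [ch, wt]
    · simp [ch, wt]
    · simp [ch, wt]
      ring
    · simp [ch, wt]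
      ring
    · simp [ch, wt]
    · simp [ch, wt]
      field_simp
    · simp [ch, wt]
      ring

theorem LnB_X4 (s : K) {a b : K} (h : a ≠ 0 ∨ b ≠ 0) :
    lact (X 4 s) (lg a b) = lg (a + s * b) b := by
  apply LnB_eq h
  · by_cases hb : b = 0
    · left
      rw [hb, mul_zero, add_zero]
      exact h.resolve_right (fun h' => h' hb)
    · exact Or.inr hb
  · intro p q
    rw [LnA_mem]
    refine ⟨p, q, ?_⟩
    funext i
    rw [X_apply]
    fin_cases i <;> simp [cc, sc, qc, qs] <;> ring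

theorem LnB_X5 (s : K) {a b : K} (h : a ≠ 0 ∨ b ≠ 0) :
    lact (X 5 s) (lg a b) = lg a (b + s * a) := by
  apply LnB_eq h
  · by_cases ha : a = 0
    · right
      rw [ha, mul_zero, add_zero]
      exact h.resolve_left (fun h' => h' ha)
    · exact Or.inl ha
  · intro p q
    rw [LnA_mem]
    refine ⟨p, q, ?_⟩
    funext i
    rw [X_apply]
    fin_cases i <;> simp [cc, sc, qc, qs] <;> ring

theorem LG_T {t : EE K} (ht : t ∈ TT K) : lact t (lg 1 0) = lg 1 0 ∧ lact t (lg 0 1) = lg 0 1 := by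
  obtain ⟨⟨s, t⟩, rfl⟩ := ht
  constructor
  · rw [LnB_tor s t (Or.inl one_ne_zero)]
    have h := LnA_smul (K := K) (a := 1) (b := 0) (c := (t : K)) t.ne_zero
    rw [mul_zero] at h
    rw [mul_zero]
    exact h
  · rw [LnB_tor s t (Or.inr one_ne_zero)]
    have h := LnA_smul (K := K) (a := 0) (b := 1) (c := (((s * t)⁻¹ : Kˣ) : K)) (Units.ne_zero _)
    rw [mul_zero] at h
    rw [mul_zero]
    exact h

theorem LG_tt (hK : Ok K) {W W' : Submodule K (V K)} (hW : W ∈ LG K) (hW' : W' ∈ LG K)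
    (h1 : W ≠ lg 1 0) (h2 : W ≠ lg 0 1) (h3 : W' ≠ lg 1 0) (h4 : W' ≠ lg 0 1) :
    ∃ t ∈ TT K, lact t W = W' := by
  obtain ⟨a, rfl⟩ := (LG_form hW).resolve_left h1
  obtain ⟨b, rfl⟩ := (LG_form hW').resolve_left h3
  have ha : a ≠ 0 := fun h => h2 (by rw [h])
  have hb : b ≠ 0 := fun h => h4 (by rw [h])
  obtain ⟨t, ht⟩ : ∃ t : Kˣ, (t : K) = b / a := ⟨Units.mk0 (b / a) (div_ne_zero hb ha), rfl⟩
  refine ⟨tor (t⁻¹, t), ⟨_, rfl⟩, ?_⟩
  rw [LnB_tor t⁻¹ t (Or.inr one_ne_zero), ht, inv_mul_cancel, inv_one, Units.val_one, mul_one,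
    div_mul_cancel₀ b ha]

theorem LnB_coef {a b c d : K} (h : a * d - b * c ≠ 0) (e g : K) :
    ∃ α β : K, e = α * a + β * c ∧ g = α * b + β * d := by
  refine ⟨(e * d - g * c) / (a * d - b * c), (a * g - b * e) / (a * d - b * c), ?_, ?_⟩
  · rw [div_mul_eq_mul_div, div_mul_eq_mul_div, ← add_div, eq_div_iff h]
    ring
  · rw [div_mul_eq_mul_div, div_mul_eq_mul_div, ← add_div, eq_div_iff h]
    ring

theorem LnB_zero {a b c d u v : K} (h : a * d - b * c ≠ 0) (h1 : u * a + v * c = 0)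
    (h2 : u * b + v * d = 0) : u = 0 ∧ v = 0 := by
  constructor
  · apply (mul_eq_zero.1 (show u * (a * d - b * c) = 0 by linear_combination d * h1 - c * h2)).resolve_right h
  · apply (mul_eq_zero.1 (show v * (a * d - b * c) = 0 by linear_combination a * h2 - b * h1)).resolve_right h

theorem LnB_img {f : EE K} {a b : K} (h : lact f (lg a b) = lg a b) (p q : K) :
    ∃ p' q' : K, f (![0, 0, p * a, p * b, 0, -(q * b), q * a] : V K) =
      ![0, 0, p' * a, p' * b, 0, -(q' * b), q' * a] := by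
  have h1 : f (![0, 0, p * a, p * b, 0, -(q * b), q * a] : V K) ∈ lact f (lg a b) := by
    rw [lact_apply]
    exact ⟨_, LnA_mem.2 ⟨p, q, rfl⟩, rfl⟩
  rw [h, LnA_mem] at h1
  exact h1

theorem LnB_lin (p q a b c d x y : K) :
    (![0, 0, p * (x * a + y * c), p * (x * b + y * d), 0, -(q * (x * b + y * d)),
      q * (x * a + y * c)] : V K) = x • ![0, 0, p * a, p * b, 0, -(q * b), q * a] +
      y • ![0, 0, p * c, p * d, 0, -(q * d), q * c] := by
  funext i
  fin_cases i <;> simp <;> ring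

theorem LG_three (hK : Ok K) {f : EE K} (hf : f ∈ GG K)
    (he : f * tor (1, -1) = tor (1, -1) * f) {A B C : Submodule K (V K)} (hA : A ∈ LG K)
    (hB : B ∈ LG K) (hC : C ∈ LG K) (h1 : A ≠ B) (h2 : A ≠ C) (h3 : B ≠ C)
    (hfA : lact f A = A) (hfB : lact f B = B) (hfC : lact f C = C) :
    ∀ W ∈ LG K, lact f W = W := by
  obtain ⟨a, b, hab, rfl⟩ := hA
  obtain ⟨c, d, hcd, rfl⟩ := hB
  obtain ⟨e, g, heg, rfl⟩ := hC
  have hD := LnB_det hab hcd h1
  have hD2 := LnB_det hab heg h2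
  have hD3 := LnB_det hcd heg h3
  obtain ⟨α, β, rfl, rfl⟩ := LnB_coef hD e g
  have hα : α ≠ 0 := by
    rintro rfl
    exact hD3 (by ring)
  have hβ : β ≠ 0 := by
    rintro rfl
    exact hD2 (by ring)
  have key : ∀ p q : K, ∃ p' q' : K,
      f (![0, 0, p * a, p * b, 0, -(q * b), q * a] : V K) =
        ![0, 0, p' * a, p' * b, 0, -(q' * b), q' * a] ∧
      f (![0, 0, p * c, p * d, 0, -(q * d), q * c] : V K) =
        ![0, 0, p' * c, p' * d, 0, -(q' * d), q' * c] := by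
    intro p q
    obtain ⟨p1, q1, e1⟩ := LnB_img hfA p q
    obtain ⟨p2, q2, e2⟩ := LnB_img hfB p q
    obtain ⟨p3, q3, e3⟩ := LnB_img hfC p q
    rw [LnB_lin, map_add, map_smul, map_smul, e1, e2] at e3
    have i2 := congrFun e3 2
    have i3 := congrFun e3 3
    have i5 := congrFun e3 5
    have i6 := congrFun e3 6
    simp at i2 i3 i5 i6
    have k1 : (p1 - p3) * α = 0 ∧ (p2 - p3) * β = 0 :=
      LnB_zero hD (by linear_combination i2) (by linear_combination i3)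
    have k2 : (q1 - q3) * α = 0 ∧ (q2 - q3) * β = 0 :=
      LnB_zero hD (by linear_combination i6) (by linear_combination -i5)
    have j1 : p1 = p3 := sub_eq_zero.1 ((mul_eq_zero.1 k1.1).resolve_right hα)
    have j2 : p2 = p3 := sub_eq_zero.1 ((mul_eq_zero.1 k1.2).resolve_right hβ)
    have j3 : q1 = q3 := sub_eq_zero.1 ((mul_eq_zero.1 k2.1).resolve_right hα)
    have j4 : q2 = q3 := sub_eq_zero.1 ((mul_eq_zero.1 k2.2).resolve_right hβ)
    rw [j1, j3] at e1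
    rw [j2, j4] at e2
    exact ⟨p3, q3, e1, e2⟩
  rintro W ⟨x, y, hxy, rfl⟩
  obtain ⟨γ, δ, rfl, rfl⟩ := LnB_coef hD x y
  apply LnB_eq hxy hxy
  intro p q
  obtain ⟨p', q', e1, e2⟩ := key p q
  rw [LnB_lin, map_add, map_smul, map_smul, e1, e2, ← LnB_lin]
  exact LnA_mem.2 ⟨p', q', rfl⟩

theorem LG_U0 (s : K) : lact (X 4 s) (lg 1 0) = lg 1 0 := by
  rw [LnB_X4 s (Or.inl one_ne_zero), mul_zero, add_zero]

theorem LG_U1 (s : K) : lact (X 5 s) (lg 0 1) = lg 0 1 := by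
  rw [LnB_X5 s (Or.inr one_ne_zero), mul_zero, add_zero]

theorem LG_U0t (hK : Ok K) {W W' : Submodule K (V K)} (hW : W ∈ LG K) (hW' : W' ∈ LG K)
    (h1 : W ≠ lg 1 0) (h2 : W' ≠ lg 1 0) : ∃ s : K, lact (X 4 s) W = W' := by
  obtain ⟨a, rfl⟩ := (LG_form hW).resolve_left h1
  obtain ⟨b, rfl⟩ := (LG_form hW').resolve_left h2
  refine ⟨b - a, ?_⟩
  rw [LnB_X4 _ (Or.inr one_ne_zero), mul_one, add_sub_cancel]

theorem LnB_form {W : Submodule K (V K)} (hW : W ∈ LG K) :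
    W = lg 0 1 ∨ ∃ a : K, W = lg 1 a := by
  obtain ⟨a, b, hab, rfl⟩ := hW
  by_cases ha : a = 0
  · left
    have hb : b ≠ 0 := hab.resolve_left (fun h => h ha)
    have h := LnA_smul (K := K) (a := 0) (b := 1) hb
    rw [mul_one, mul_zero] at h
    rw [ha, h]
  · right
    refine ⟨b / a, ?_⟩
    have h := LnA_smul (K := K) (a := 1) (b := b / a) ha
    rw [mul_one, mul_div_cancel₀ _ ha] at h
    exact h

theorem LG_U1t (hK : Ok K) {W W' : Submodule K (V K)} (hW : W ∈ LG K) (hW' : W' ∈ LG K)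
    (h1 : W ≠ lg 0 1) (h2 : W' ≠ lg 0 1) : ∃ s : K, lact (X 5 s) W = W' := by
  obtain ⟨a, rfl⟩ := (LnB_form hW).resolve_left h1
  obtain ⟨b, rfl⟩ := (LnB_form hW').resolve_left h2
  refine ⟨b - a, ?_⟩
  rw [LnB_X5 _ (Or.inl one_ne_zero), mul_one, add_sub_cancel]

end Pool.Agent.H40.GT
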