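import Pool.Agent.H40.GT.LnB

/-!
# Part LnC (of LnA, LnB, LnC); GT-19 the special lines of `V_1 = ⟨e_2, e_3, e_-2, e_-3⟩`

`lg a b = ⟨a e_2 + b e_3, a e_-3 - b e_-2⟩`, `(a, b) ≠ 0`, `LG` = the set of these.
* `LG_char`: `W` is in `LG` iff it is a 2-dimensional subspace of `V_1` on which `br` and `bf` vanish.
  (`V_1 = A ⊗ B` with `e_2 = a1⊗b1, e_3 = a2⊗b1, -e_-3 = a1⊗b2, e_-2 = a2⊗b2`; the totally singular
  planes are `a ⊗ B` and `A ⊗ b`, and `br` does not vanish on the latter.  Direct proof: take a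
  nonzero `w = (w_2, w_3, w_-2, w_-3) ∈ W`, `bf w w = 2 (w_2 w_-2 + w_3 w_-3) = 0`, so
  `w_-2 = - μ w_3`, `w_-3 = μ w_2`, or `w_2 = w_3 = 0`, ...; in each case `w` lies in a unique
  `lg a b`, and `{x ∈ V_1 | bf w x = 0, br w x = 0} = lg a b`.)
* So elements `f ∈ GG` commuting with `tor (1,-1)` preserve `LG`.
* `x0 = lg 1 0 = ⟨e_2, e_-3⟩ = ln 4`, `x1 = lg 0 1 = ⟨e_3, e_-2⟩ = ln 5`.  `tor (s, t)` maps
  `lg a b` to `lg (t a) ((s t)⁻¹ b)`, so `TT` fixes `x0, x1` and is transitive on the others.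
* `LG_three`: `f` fixes `W1, W2, W3` distinct: `V_1 = W1 ⊕ W2`, `W3` is the graph of an isomorphism
  `θ : W1 → W2`, and every other `W4 ∈ LG` is the graph of `λ θ`, `λ ≠ 0` (in `A ⊗ B` terms:
  `a1' ⊗ B, a2' ⊗ B, (a1' + λ a2') ⊗ B`).  `f` commutes with `θ`, so it preserves `W4`.
* `X 4 s`: `e_3 ↦ e_3 + s e_2`, `e_-2 ↦ e_-2 - s e_-3`: maps `lg a b` to `lg (a + s b) b`.  `X 5 s`:
  `lg a b` to `lg a (b + s a)`.
* `LG_hA`: `F` commutes with `tor (1,-1)`, `f ∈ F` fixes `x0 = ln 4` and moves `x1`: then `4 ∈ SF F`.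
  Let `F'` be the stabiliser of `x0` in `F`: standard by `Std_ln` (`r = 4`); `f = c * n`; roots in
  `SF F'` are in `{4,5,6,7}` (commute with `tor (1,-1)`) and `X 5 1` does not fix `x0`.
  If `4 ∉ SF F`: `c` is in the group generated by `TT`, `X 6 s`, `X 7 s`, which fix both `x0` and
  `x1` (`X 6 s`: `e_2 ↦ e_2 - s e_-3`, `e_3 ↦ e_3 + s e_-2`, `e_-2, e_-3` fixed; `X 7 s`:
  `e_-3 ↦ e_-3 + s e_2`, `e_-2 ↦ e_-2 - s e_3`).  So `n` preserves `⟨e_2, e_-3⟩`, permutes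
  coordinate lines, so (`bf`) it preserves `⟨e_-2, e_3⟩`; `f` fixes `x1`, contradiction.
  `LG_hB` symmetric.
-/

namespace Pool.Agent.H40.GT

variable {K : Type} [Field K]

private theorem LnC_m0 {x : V K} :
    x ∈ lg (1 : K) 0 ↔ x 0 = 0 ∧ x 1 = 0 ∧ x 3 = 0 ∧ x 4 = 0 ∧ x 5 = 0 := by
  unfold lg
  rw [Submodule.mem_span_pair]
  constructor
  · rintro ⟨a, b, rfl⟩
    simp [ev]
  · rintro ⟨h0, h1, h3, h4, h5⟩
    refine ⟨x 2, x 6, ?_⟩
    funext i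
    fin_cases i <;> simp [ev, h0, h1, h3, h4, h5]

private theorem LnC_m1 {x : V K} :
    x ∈ lg (0 : K) 1 ↔ x 0 = 0 ∧ x 1 = 0 ∧ x 2 = 0 ∧ x 4 = 0 ∧ x 6 = 0 := by
  unfold lg
  rw [Submodule.mem_span_pair]
  constructor
  · rintro ⟨a, b, rfl⟩
    simp [ev]
  · rintro ⟨h0, h1, h3, h4, h5⟩
    refine ⟨x 3, -x 5, ?_⟩
    funext i
    fin_cases i <;> simp [ev, h0, h1, h3, h4, h5]

private theorem LnC_fix {g : EE K} {W : Submodule K (V K)} :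
    lact g W = W ↔ ∀ x ∈ W, g x ∈ W := by
  rw [lact_apply]
  constructor
  · intro h x hx
    rw [← h]
    exact Submodule.mem_map_of_mem hx
  · intro h
    apply Submodule.eq_of_le_of_finrank_eq
    · rintro y ⟨x, hx, rfl⟩
      exact h x hx
    · exact LinearEquiv.finrank_map_eq g W

private theorem LnC_X {r : Rt} (hr : r = 6 ∨ r = 7) (s : K) :
    lact (X r s) (lg 1 0) = lg 1 0 ∧ lact (X r s) (lg 0 1) = lg 0 1 := by
  rw [LnC_fix, LnC_fix]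
  constructor
  · intro x hx
    rw [LnC_m0] at hx ⊢
    obtain ⟨h0, h1, h3, h4, h5⟩ := hx
    rcases hr with rfl | rfl <;> simp [X_apply, cc, sc, qc, qs, h0, h1, h3, h4, h5]
  · intro x hx
    rw [LnC_m1] at hx ⊢
    obtain ⟨h0, h1, h3, h4, h5⟩ := hx
    rcases hr with rfl | rfl <;> simp [X_apply, cc, sc, qc, qs, h0, h1, h3, h4, h5]

private theorem LnC_X5 : lact (X 5 (1 : K)) (lg 1 0) ≠ lg 1 0 := by
  rw [Ne, LnC_fix]
  intro h
  have h1 : (ev 2 : V K) ∈ lg (1 : K) 0 := by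
    rw [LnC_m0]
    simp [ev]
  have h2 := h _ h1
  rw [LnC_m0] at h2
  obtain ⟨-, -, h3, -, -⟩ := h2
  simp [X_apply, cc, sc, qc, qs, ev] at h3

private theorem LnC_X4 : lact (X 4 (1 : K)) (lg 0 1) ≠ lg 0 1 := by
  rw [Ne, LnC_fix]
  intro h
  have h1 : (ev 3 : V K) ∈ lg (0 : K) 1 := by
    rw [LnC_m1]
    simp [ev]
  have h2 := h _ h1
  rw [LnC_m1] at h2
  obtain ⟨-, -, h3, -, -⟩ := h2
  simp [X_apply, cc, sc, qc, qs, ev] at h3

private theorem LnC_neg (h2 : (2 : K) ≠ 0) : (-1 : Kˣ) ≠ 1 := by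
  intro h
  apply h2
  have h3 : ((-1 : Kˣ) : K) = ((1 : Kˣ) : K) := by rw [h]
  rw [Units.val_neg, Units.val_one] at h3
  linear_combination -h3

private theorem LnC_tab : ∀ r : Rt, (∃ k : ℤ, (rt r).2 = 2 * k + 1) ∨ r = 4 ∨ r = 5 ∨ r = 6 ∨
    r = 7 := by
  intro r
  fin_cases r
  · exact Or.inl ⟨-1, rfl⟩
  · exact Or.inl ⟨0, rfl⟩
  · exact Or.inl ⟨0, rfl⟩
  · exact Or.inl ⟨-1, rfl⟩
  · exact Or.inr (Or.inl rfl)
  · exact Or.inr (Or.inr (Or.inl rfl))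
  · exact Or.inr (Or.inr (Or.inr (Or.inl rfl)))
  · exact Or.inr (Or.inr (Or.inr (Or.inr rfl)))
  · exact Or.inl ⟨0, rfl⟩
  · exact Or.inl ⟨-1, rfl⟩
  · exact Or.inl ⟨-1, rfl⟩
  · exact Or.inl ⟨0, rfl⟩

private theorem LnC_r (h2 : (2 : K) ≠ 0) {F : Subgroup (EE K)} (hE : CEo F) {r : Rt}
    (hr : r ∈ SF F) : r = 4 ∨ r = 5 ∨ r = 6 ∨ r = 7 := by
  have h1 := (X_comm_tor (1, -1) r (1 : K) one_ne_zero).1 (hE _ (hr 1))
  rcases LnC_tab r with ⟨k, hk⟩ | h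
  · exfalso
    unfold ch at h1
    rw [hk, one_zpow, one_mul, zpow_add, zpow_mul, zpow_one] at h1
    apply LnC_neg h2
    have h3 : ((-1 : Kˣ) ^ (2 : ℤ)) = 1 := by
      rw [show (2 : ℤ) = ((2 : ℕ) : ℤ) from rfl, zpow_natCast]
      exact neg_one_sq
    have h4 : ((1, -1) : Kˣ × Kˣ).2 = -1 := rfl
    rw [h4, h3, one_zpow, one_mul] at h1
    exact h1
  · exact h

private theorem LnC_n0 {n : EE K} (hn : n ∈ NN K) (h : lact n (lg 1 0) = lg 1 0) :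
    lact n (lg 0 1) = lg 0 1 := by
  obtain ⟨hG, hc, -⟩ := hn
  rw [LnC_fix] at h
  have key : ∀ j : Fin 7, (j = 3 ∨ j = 5) → n (ev j) ∈ lg (0 : K) 1 := by
    intro j hj
    obtain ⟨i, c, hi⟩ := hc j
    have hy : ∃ y ∈ lg (1 : K) 0, bf (n (ev j)) y = 1 := by
      rcases hj with rfl | rfl
      · refine ⟨n (ev 6), h _ (LnC_m0.2 (by simp [ev])), ?_⟩
        rw [hG.2]
        simp [bf, ev]
      · refine ⟨n (ev 2), h _ (LnC_m0.2 (by simp [ev])), ?_⟩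
        rw [hG.2]
        simp [bf, ev]
    obtain ⟨y, hy, hb⟩ := hy
    obtain ⟨y0, y1, y3, y4, y5⟩ := LnC_m0.1 hy
    rw [hi] at hb ⊢
    have hi2 : i = 3 ∨ i = 5 := by
      by_contra hcon
      push Not at hcon
      obtain ⟨i3, i5⟩ := hcon
      have e3 : (ev i : V K) 3 = 0 := ev_ne (Ne.symm i3)
      have e5 : (ev i : V K) 5 = 0 := ev_ne (Ne.symm i5)
      have : bf (c • ev i) y = 0 := by
        simp [bf, y0, y1, y3, y4, y5, e3, e5]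
      rw [this] at hb
      exact zero_ne_one hb
    rw [LnC_m1]
    rcases hi2 with rfl | rfl <;> simp [ev]
  rw [LnC_fix]
  intro x hx
  obtain ⟨x0, x1, x2, x4, x6⟩ := LnC_m1.1 hx
  have hx' : x = x 3 • ev 3 + x 5 • ev 5 := by
    funext i
    fin_cases i <;> simp [ev, x0, x1, x2, x4, x6]
  rw [hx', map_add, map_smul, map_smul]
  exact Submodule.add_mem _ (Submodule.smul_mem _ _ (key 3 (Or.inl rfl)))
    (Submodule.smul_mem _ _ (key 5 (Or.inr rfl)))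

private theorem LnC_n1 {n : EE K} (hn : n ∈ NN K) (h : lact n (lg 0 1) = lg 0 1) :
    lact n (lg 1 0) = lg 1 0 := by
  obtain ⟨hG, hc, -⟩ := hn
  rw [LnC_fix] at h
  have key : ∀ j : Fin 7, (j = 2 ∨ j = 6) → n (ev j) ∈ lg (1 : K) 0 := by
    intro j hj
    obtain ⟨i, c, hi⟩ := hc j
    have hy : ∃ y ∈ lg (0 : K) 1, bf (n (ev j)) y = 1 := by
      rcases hj with rfl | rfl
      · refine ⟨n (ev 5), h _ (LnC_m1.2 (by simp [ev])), ?_⟩
        rw [hG.2]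
        simp [bf, ev]
      · refine ⟨n (ev 3), h _ (LnC_m1.2 (by simp [ev])), ?_⟩
        rw [hG.2]
        simp [bf, ev]
    obtain ⟨y, hy, hb⟩ := hy
    obtain ⟨y0, y1, y2, y4, y6⟩ := LnC_m1.1 hy
    rw [hi] at hb ⊢
    have hi2 : i = 2 ∨ i = 6 := by
      by_contra hcon
      push Not at hcon
      obtain ⟨i3, i5⟩ := hcon
      have e3 : (ev i : V K) 2 = 0 := ev_ne (Ne.symm i3)
      have e5 : (ev i : V K) 6 = 0 := ev_ne (Ne.symm i5)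
      have : bf (c • ev i) y = 0 := by
        simp [bf, y0, y1, y2, y4, y6, e3, e5]
      rw [this] at hb
      exact zero_ne_one hb
    rw [LnC_m0]
    rcases hi2 with rfl | rfl <;> simp [ev]
  rw [LnC_fix]
  intro x hx
  obtain ⟨x0, x1, x3, x4, x5⟩ := LnC_m0.1 hx
  have hx' : x = x 2 • ev 2 + x 6 • ev 6 := by
    funext i
    fin_cases i <;> simp [ev, x0, x1, x3, x4, x5]
  rw [hx', map_add, map_smul, map_smul]
  exact Submodule.add_mem _ (Submodule.smul_mem _ _ (key 2 (Or.inl rfl)))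
    (Submodule.smul_mem _ _ (key 6 (Or.inr rfl)))

/-- the stabiliser of a subspace in `F` -/
private def LnC_st (F : Subgroup (EE K)) (W : Submodule K (V K)) : Subgroup (EE K) :=
  F ⊓ (MulAction.stabilizer (Equiv.Perm (Submodule K (V K))) W).comap lact

private theorem LnC_mem {F : Subgroup (EE K)} {W : Submodule K (V K)} {f : EE K} :
    f ∈ LnC_st F W ↔ f ∈ F ∧ lact f W = W := Iff.rfl

private theorem LnC_gen {S : Set Rt} (hS : ∀ r ∈ S, r = 6 ∨ r = 7) {c : EE K}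
    (hc : c ∈ GS K S) : lact c (lg 1 0) = lg 1 0 ∧ lact c (lg 0 1) = lg 0 1 := by
  have h : GS K S ≤ LnC_st (LnC_st ⊤ (lg 1 0)) (lg 0 1) := by
    unfold GS
    rw [Subgroup.closure_le]
    rintro g (hg | ⟨r, hr, s, rfl⟩)
    · exact ⟨⟨Subgroup.mem_top _, (LG_T hg).1⟩, (LG_T hg).2⟩
    · exact ⟨⟨Subgroup.mem_top _, (LnC_X (hS r hr) s).1⟩, (LnC_X (hS r hr) s).2⟩
  have h1 := h hc
  exact ⟨h1.1.2, h1.2⟩

theorem LG_hA (hK : Ok K) {F : Subgroup (EE K)} (hF : Ov F) (hE : CEo F) {f : EE K}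
    (hf : f ∈ F) (h1 : lact f (lg 1 0) = lg 1 0) (h2 : lact f (lg 0 1) ≠ lg 0 1) :
    (4 : Rt) ∈ SF F := by
  by_contra h4
  have hO : Ov (LnC_st F (lg 1 0)) :=
    ⟨fun t ht => LnC_mem.2 ⟨hF.1 ht, (LG_T ht).1⟩, fun g hg => hF.2 (LnC_mem.1 hg).1⟩
  have hS : Std (LnC_st F (lg 1 0)) := by
    apply Std_ln hK hO (r := 4) (by decide)
    intro g hg x hx
    rw [ln_four] at hx ⊢
    exact LnC_fix.1 (LnC_mem.1 hg).2 x hx
  obtain ⟨c, hc, hn⟩ := hS f (LnC_mem.2 ⟨hf, h1⟩)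
  have hr : ∀ r ∈ SF (LnC_st F (lg 1 0)), r = 6 ∨ r = 7 := by
    intro r hr
    have hr' : r ∈ SF F := fun s => (LnC_mem.1 (hr s)).1
    rcases LnC_r (ok_two hK) hE hr' with h | h | h | h
    · rw [h] at hr'
      exact absurd hr' h4
    · rw [h] at hr
      exact absurd (LnC_mem.1 (hr 1)).2 LnC_X5
    · exact Or.inl h
    · exact Or.inr h
  obtain ⟨c0, c1⟩ := LnC_gen hr hc
  have n0 : lact (c⁻¹ * f) (lg 1 0) = lg 1 0 := by
    rw [map_mul, Equiv.Perm.mul_apply, h1, map_inv, Equiv.Perm.inv_eq_iff_eq]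
    exact c0.symm
  have n1 := LnC_n0 hn n0
  apply h2
  have h5 : f = c * (c⁻¹ * f) := by rw [mul_inv_cancel_left]
  rw [h5, map_mul, Equiv.Perm.mul_apply, n1, c1]

theorem LG_hB (hK : Ok K) {F : Subgroup (EE K)} (hF : Ov F) (hE : CEo F) {f : EE K}
    (hf : f ∈ F) (h1 : lact f (lg 0 1) = lg 0 1) (h2 : lact f (lg 1 0) ≠ lg 1 0) :
    (5 : Rt) ∈ SF F := by
  by_contra h4
  have hO : Ov (LnC_st F (lg 0 1)) :=
    ⟨fun t ht => LnC_mem.2 ⟨hF.1 ht, (LG_T ht).2⟩, fun g hg => hF.2 (LnC_mem.1 hg).1⟩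
  have hS : Std (LnC_st F (lg 0 1)) := by
    apply Std_ln hK hO (r := 5) (by decide)
    intro g hg x hx
    rw [ln_five] at hx ⊢
    exact LnC_fix.1 (LnC_mem.1 hg).2 x hx
  obtain ⟨c, hc, hn⟩ := hS f (LnC_mem.2 ⟨hf, h1⟩)
  have hr : ∀ r ∈ SF (LnC_st F (lg 0 1)), r = 6 ∨ r = 7 := by
    intro r hr
    have hr' : r ∈ SF F := fun s => (LnC_mem.1 (hr s)).1
    rcases LnC_r (ok_two hK) hE hr' with h | h | h | h
    · rw [h] at hr
      exact absurd (LnC_mem.1 (hr 1)).2 LnC_X4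
    · rw [h] at hr'
      exact absurd hr' h4
    · exact Or.inl h
    · exact Or.inr h
  obtain ⟨c0, c1⟩ := LnC_gen hr hc
  have n1 : lact (c⁻¹ * f) (lg 0 1) = lg 0 1 := by
    rw [map_mul, Equiv.Perm.mul_apply, h1, map_inv, Equiv.Perm.inv_eq_iff_eq]
    exact c1.symm
  have n0 := LnC_n1 hn n1
  apply h2
  have h5 : f = c * (c⁻¹ * f) := by rw [mul_inv_cancel_left]
  rw [h5, map_mul, Equiv.Perm.mul_apply, n0, c0]

end Pool.Agent.H40.GT
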