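import Pool.Agent.H33.EL.GrpP

/-!
# GT-08 abstract rank one lemma

`F` acts (through `φ`) on the finite set `L` (at least 8 points), `T ≤ F` is abelian, fixes
`x0 ≠ x1` and is transitive on the other points, elements of `F` with three fixed points are
trivial on `L`.  `U0` fixes `x0` and is transitive on `L - {x0}`, `U1` fixes `x1` and is transitive
on `L - {x1}`.  If some `f ∈ F` fixes `x0` and moves `x1` then `U0 ≤ F`; same for `U1`.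
Then every `f ∈ F` is `c * f'` with `c` in the group generated by those of `U0`, `U1` which lie
in `F`, and `f'` preserving `{x0, x1}`.

Proof.  (i) `U0, U1 ≤ F`: if `f x0 = x1` take (a product) `c ∈ ⟨U0, U1⟩` with `c x0 = x1`
(`u1 x0 = y ∉ {x0, x1}` with `u1 ∈ U1`, then `u0 ∈ U0` with `u0 y = x1`); if `f x0 ≠ x1` take
`c ∈ U1` with `c x0 = f x0` (`U1` is transitive on `L - {x1}`).  So `c⁻¹ f` fixes `x0`;
then adjust by an element of `U0` to fix also `x1`.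
(ii) `U0 ≤ F`, not `U1 ≤ F`: every `f ∈ F` fixing `x1` fixes `x0`.  `F` fixes `x0`: if not, then `F`
is transitive on `L` (`U0` is transitive on `L - {x0}`), take `g ∈ F` with `g x1 = x0`;
the stabiliser of `x0` in `F` is `g Stab(x1) g⁻¹` and fixes `g x0 ≠ x0`, but it contains `U0`, which
fixes only `x0`.  So for `f ∈ F` choose `c ∈ U0` with `c x1 = f x1`.
(iii) symmetric.
(iv) neither: every `f ∈ F` fixing `x0` fixes `x1` and conversely.  Suppose `f ∈ F` does not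
preserve `{x0, x1}`; then (replace `f` by `f⁻¹`, or exchange the two points)
`f x0 = y ∉ {x0,x1}` or `f x1 = y ∉ {x0,x1}`; by symmetry `f x0 = y`.  By transitivity of `T` the orbit
of `x0` contains `x0` and all points except possibly `x1`.  If it contains `x1`: `F` is
transitive, contradiction by the lemma `partner` (file GrpP; make `Y` a `MulAction` through
`MulAction.compHom`).  If not, the orbit of `x1` is `{x1}`, so `F` fixes `x1`, so `F` fixes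
`x0`, contradiction.
-/

namespace Pool.Agent.H40.GT

theorem RK_two {G Y : Type} [Group G] (φ : G →* Equiv.Perm Y) (F : Subgroup G) (L : Set Y)
    (h8 : 8 ≤ L.ncard) (hF : ∀ f ∈ F, ∀ x ∈ L, φ f x ∈ L) {x0 x1 : Y} (h0 : x0 ∈ L) (h1 : x1 ∈ L)
    (h01 : x0 ≠ x1) (U0 : Subgroup G) (hU0 : ∀ u ∈ U0, φ u x0 = x0)
    (hU0t : ∀ x ∈ L, ∀ y ∈ L, x ≠ x0 → y ≠ x0 → ∃ u ∈ U0, φ u x = y) (hUF : U0 ≤ F)
    (hst : ∀ f ∈ F, φ f x1 = x1 → φ f x0 = x0) :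
    ∀ f ∈ F, ∃ c ∈ U0, φ (c⁻¹ * f) x0 = x0 ∧ φ (c⁻¹ * f) x1 = x1 := by
  have hinv : ∀ (g : G) (x y : Y), φ g x = y → φ g⁻¹ y = x := by
    intro g x y h
    rw [map_inv, ← h]
    exact Equiv.symm_apply_apply (φ g) x
  have hfix : ∀ f ∈ F, φ f x0 = x0 := by
    intro f hf
    by_contra hne
    have hz : φ f⁻¹ x0 ∈ L := hF _ (F.inv_mem hf) x0 h0
    have hz0 : φ f⁻¹ x0 ≠ x0 := by
      intro h
      have h' := hinv _ _ _ h
      rw [inv_inv] at h'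
      exact hne h'
    obtain ⟨u, hu, hux⟩ := hU0t x1 h1 _ hz (Ne.symm h01) hz0
    have hg : φ (f * u) x1 = x0 := by
      rw [map_mul, Equiv.Perm.mul_apply, hux]
      have h' := hinv f⁻¹ x0 _ rfl
      rw [inv_inv] at h'
      exact h'
    have hgF : f * u ∈ F := F.mul_mem hf (hUF hu)
    obtain ⟨g, hgdef⟩ : ∃ g, g = f * u := ⟨_, rfl⟩
    rw [← hgdef] at hg hgF
    have hgx0 : φ g x0 ∈ L := hF g hgF x0 h0
    have hgne : φ g x0 ≠ x0 := by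
      intro h
      apply h01
      apply (φ g).injective
      rw [h, hg]
    obtain ⟨y, hy, hyl⟩ := Pool.Agent.H33.EL.GrpP_ex h8 [x0, φ g x0] (by simp)
    simp only [List.mem_cons, List.not_mem_nil, or_false, not_or] at hyl
    obtain ⟨v, hv, hvx⟩ := hU0t _ hgx0 y hy hgne hyl.1
    have e1 : φ (g⁻¹ * v * g) x1 = x1 := by
      rw [map_mul, map_mul, Equiv.Perm.mul_apply, Equiv.Perm.mul_apply, hg, hU0 v hv]
      exact hinv _ _ _ hg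
    have e2 := hst _ (F.mul_mem (F.mul_mem (F.inv_mem hgF) (hUF hv)) hgF) e1
    rw [map_mul, map_mul, Equiv.Perm.mul_apply, Equiv.Perm.mul_apply, hvx] at e2
    have e3 := hinv _ _ _ e2
    rw [inv_inv] at e3
    exact hyl.2 e3.symm
  intro f hf
  have hf1 : φ f x1 ≠ x0 := by
    intro h
    apply h01
    apply (φ f).injective
    rw [h, hfix f hf]
  obtain ⟨u, hu, hux⟩ := hU0t x1 h1 _ (hF f hf x1 h1) (Ne.symm h01) hf1
  refine ⟨u, hu, ?_, ?_⟩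
  · rw [map_mul, Equiv.Perm.mul_apply, hfix f hf]
    exact hinv _ _ _ (hU0 u hu)
  · rw [map_mul, Equiv.Perm.mul_apply]
    exact hinv _ _ _ hux

theorem RK_four {G Y : Type} [Group G] (φ : G →* Equiv.Perm Y) (F T : Subgroup G) (hTF : T ≤ F)
    (hTc : ∀ s ∈ T, ∀ t ∈ T, s * t = t * s) (L : Set Y) (hfin : L.Finite) (h8 : 8 ≤ L.ncard)
    (hF : ∀ f ∈ F, ∀ x ∈ L, φ f x ∈ L) {x0 x1 : Y} (h0 : x0 ∈ L) (h1 : x1 ∈ L) (h01 : x0 ≠ x1)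
    (hT0 : ∀ t ∈ T, φ t x0 = x0) (hT1 : ∀ t ∈ T, φ t x1 = x1)
    (hTt : ∀ x ∈ L, ∀ y ∈ L, x ≠ x0 → x ≠ x1 → y ≠ x0 → y ≠ x1 → ∃ t ∈ T, φ t x = y)
    (h3 : ∀ f ∈ F, (∃ a ∈ L, ∃ b ∈ L, ∃ c ∈ L, a ≠ b ∧ a ≠ c ∧ b ≠ c ∧ φ f a = a ∧ φ f b = b ∧
      φ f c = c) → ∀ x ∈ L, φ f x = x)
    (hst0 : ∀ f ∈ F, φ f x0 = x0 → φ f x1 = x1) (hst1 : ∀ f ∈ F, φ f x1 = x1 → φ f x0 = x0) :
    ∀ f ∈ F, φ f x0 = x0 ∨ φ f x0 = x1 := by
  intro f hf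
  by_contra hcon
  push Not at hcon
  obtain ⟨hy0, hy1⟩ := hcon
  have hyL := hF f hf x0 h0
  have horb : ∀ x ∈ L, x ≠ x1 → ∃ g ∈ F, φ g x0 = x := by
    intro x hx hx1
    by_cases hx0 : x = x0
    · refine ⟨1, F.one_mem, ?_⟩
      rw [map_one, Equiv.Perm.one_apply, hx0]
    · obtain ⟨t, ht, htx⟩ := hTt _ hyL x hx hy0 hy1 hx0 hx1
      refine ⟨t * f, F.mul_mem (hTF ht) hf, ?_⟩
      rw [map_mul, Equiv.Perm.mul_apply, htx]
  by_cases hx1 : ∃ g ∈ F, φ g x0 = x1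
  · letI : MulAction G Y := MulAction.compHom Y φ
    refine Pool.Agent.H33.EL.partner F T hTF hTc L hfin h8 hF h0 h1 h01 hT0 hT1 hTt ?_ hst0 h3
    intro x hx
    by_cases hxx : x = x1
    · rw [hxx]
      exact hx1
    · exact horb x hx hxx
  · have hfx : φ f x1 = x1 := by
      by_contra hne
      obtain ⟨g, hg, hgx⟩ := horb _ (hF f hf x1 h1) hne
      apply hx1
      refine ⟨f⁻¹ * g, F.mul_mem (F.inv_mem hf) hg, ?_⟩
      rw [map_mul, Equiv.Perm.mul_apply, hgx, map_inv]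
      exact Equiv.symm_apply_apply (φ f) x1
    exact hy0 (hst1 f hf hfx)

theorem RK_one {G Y : Type} [Group G] (φ : G →* Equiv.Perm Y) (F : Subgroup G) (L : Set Y)
    (h8 : 8 ≤ L.ncard) (hF : ∀ f ∈ F, ∀ x ∈ L, φ f x ∈ L) {x0 x1 : Y} (h0 : x0 ∈ L) (h1 : x1 ∈ L)
    (h01 : x0 ≠ x1) (U0 U1 : Subgroup G) (hU0 : ∀ u ∈ U0, φ u x0 = x0)
    (hU0t : ∀ x ∈ L, ∀ y ∈ L, x ≠ x0 → y ≠ x0 → ∃ u ∈ U0, φ u x = y)
    (hU1t : ∀ x ∈ L, ∀ y ∈ L, x ≠ x1 → y ≠ x1 → ∃ u ∈ U1, φ u x = y) (C : Subgroup G)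
    (hC0 : U0 ≤ C) (hC1 : U1 ≤ C) (hCF : C ≤ F) :
    ∀ f ∈ F, ∃ c ∈ C, φ (c⁻¹ * f) x0 = x0 ∧ φ (c⁻¹ * f) x1 = x1 := by
  have hinv : ∀ (g : G) (x y : Y), φ g x = y → φ g⁻¹ y = x := by
    intro g x y h
    rw [map_inv, ← h]
    exact Equiv.symm_apply_apply (φ g) x
  intro f hf
  obtain ⟨c1, hc1, hcx⟩ : ∃ c ∈ C, φ c x0 = φ f x0 := by
    by_cases hfx : φ f x0 = x1
    · obtain ⟨y, hy, hyl⟩ := Pool.Agent.H33.EL.GrpP_ex h8 [x0, x1] (by simp)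
      simp only [List.mem_cons, List.not_mem_nil, or_false, not_or] at hyl
      obtain ⟨u1, hu1, hux1⟩ := hU1t x0 h0 y hy h01 hyl.2
      obtain ⟨u0, hu0, hux0⟩ := hU0t y hy x1 h1 hyl.1 (Ne.symm h01)
      refine ⟨u0 * u1, C.mul_mem (hC0 hu0) (hC1 hu1), ?_⟩
      rw [map_mul, Equiv.Perm.mul_apply, hux1, hux0, hfx]
    · obtain ⟨u1, hu1, hux1⟩ := hU1t x0 h0 _ (hF f hf x0 h0) h01 hfx
      exact ⟨u1, hC1 hu1, hux1⟩
  have hg0 : φ (c1⁻¹ * f) x0 = x0 := by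
    rw [map_mul, Equiv.Perm.mul_apply]
    exact hinv _ _ _ hcx
  have hgF : c1⁻¹ * f ∈ F := F.mul_mem (F.inv_mem (hCF hc1)) hf
  have hg1 : φ (c1⁻¹ * f) x1 ≠ x0 := by
    intro h
    apply h01
    apply (φ (c1⁻¹ * f)).injective
    rw [h, hg0]
  obtain ⟨u, hu, hux⟩ := hU0t x1 h1 _ (hF _ hgF x1 h1) (Ne.symm h01) hg1
  refine ⟨c1 * u, C.mul_mem hc1 (hC0 hu), ?_, ?_⟩
  · rw [mul_inv_rev, mul_assoc, map_mul, Equiv.Perm.mul_apply, hg0]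
    exact hinv _ _ _ (hU0 u hu)
  · rw [mul_inv_rev, mul_assoc, map_mul, Equiv.Perm.mul_apply]
    exact hinv _ _ _ hux

theorem RK {G Y : Type} [Group G] (φ : G →* Equiv.Perm Y) (F T : Subgroup G) (hTF : T ≤ F)
    (hTc : ∀ s ∈ T, ∀ t ∈ T, s * t = t * s) (L : Set Y) (hfin : L.Finite) (h8 : 8 ≤ L.ncard)
    (hF : ∀ f ∈ F, ∀ x ∈ L, φ f x ∈ L) {x0 x1 : Y} (h0 : x0 ∈ L) (h1 : x1 ∈ L) (h01 : x0 ≠ x1)
    (hT0 : ∀ t ∈ T, φ t x0 = x0) (hT1 : ∀ t ∈ T, φ t x1 = x1)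
    (hTt : ∀ x ∈ L, ∀ y ∈ L, x ≠ x0 → x ≠ x1 → y ≠ x0 → y ≠ x1 → ∃ t ∈ T, φ t x = y)
    (h3 : ∀ f ∈ F, (∃ a ∈ L, ∃ b ∈ L, ∃ c ∈ L, a ≠ b ∧ a ≠ c ∧ b ≠ c ∧ φ f a = a ∧ φ f b = b ∧
      φ f c = c) → ∀ x ∈ L, φ f x = x)
    (U0 U1 : Subgroup G) (hU0 : ∀ u ∈ U0, φ u x0 = x0) (hU1 : ∀ u ∈ U1, φ u x1 = x1)
    (hU0t : ∀ x ∈ L, ∀ y ∈ L, x ≠ x0 → y ≠ x0 → ∃ u ∈ U0, φ u x = y)
    (hU1t : ∀ x ∈ L, ∀ y ∈ L, x ≠ x1 → y ≠ x1 → ∃ u ∈ U1, φ u x = y)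
    (hA : ∀ f ∈ F, φ f x0 = x0 → φ f x1 ≠ x1 → U0 ≤ F)
    (hB : ∀ f ∈ F, φ f x1 = x1 → φ f x0 ≠ x0 → U1 ≤ F) :
    ∀ f ∈ F, ∃ c ∈ F, c ∈ Subgroup.closure {u | (u ∈ U0 ∧ U0 ≤ F) ∨ (u ∈ U1 ∧ U1 ≤ F)} ∧
      ((φ (c⁻¹ * f) x0 = x0 ∧ φ (c⁻¹ * f) x1 = x1) ∨
        (φ (c⁻¹ * f) x0 = x1 ∧ φ (c⁻¹ * f) x1 = x0)) := by
  classical
  obtain ⟨C, hC⟩ : ∃ C, C = Subgroup.closure
    {u | (u ∈ U0 ∧ U0 ≤ F) ∨ (u ∈ U1 ∧ U1 ≤ F)} := ⟨_, rfl⟩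
  have hCF : C ≤ F := by
    rw [hC, Subgroup.closure_le]
    rintro u (⟨hu, h⟩ | ⟨hu, h⟩)
    · exact h hu
    · exact h hu
  rw [← hC]
  intro f hf
  by_cases hu0 : U0 ≤ F
  · have hC0 : U0 ≤ C := by
      intro u hu
      rw [hC]
      exact Subgroup.subset_closure (Or.inl ⟨hu, hu0⟩)
    by_cases hu1 : U1 ≤ F
    · have hC1 : U1 ≤ C := by
        intro u hu
        rw [hC]
        exact Subgroup.subset_closure (Or.inr ⟨hu, hu1⟩)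
      obtain ⟨c, hc, hcx⟩ := RK_one φ F L h8 hF h0 h1 h01 U0 U1 hU0 hU0t hU1t C hC0 hC1 hCF f hf
      exact ⟨c, hCF hc, hc, Or.inl hcx⟩
    · obtain ⟨c, hc, hcx⟩ := RK_two φ F L h8 hF h0 h1 h01 U0 hU0 hU0t hu0
        (fun g hg hg1 => by
          by_contra hne
          exact hu1 (hB g hg hg1 hne)) f hf
      exact ⟨c, hu0 hc, hC0 hc, Or.inl hcx⟩
  · have hst0 : ∀ g ∈ F, φ g x0 = x0 → φ g x1 = x1 := by
      intro g hg hg0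
      by_contra hne
      exact hu0 (hA g hg hg0 hne)
    by_cases hu1 : U1 ≤ F
    · have hC1 : U1 ≤ C := by
        intro u hu
        rw [hC]
        exact Subgroup.subset_closure (Or.inr ⟨hu, hu1⟩)
      obtain ⟨c, hc, hcx, hcy⟩ := RK_two φ F L h8 hF h1 h0 (Ne.symm h01) U1 hU1 hU1t hu1 hst0 f hf
      exact ⟨c, hu1 hc, hC1 hc, Or.inl ⟨hcy, hcx⟩⟩
    · have hst1 : ∀ g ∈ F, φ g x1 = x1 → φ g x0 = x0 := by
        intro g hg hg1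
        by_contra hne
        exact hu1 (hB g hg hg1 hne)
      refine ⟨1, F.one_mem, C.one_mem, ?_⟩
      rw [inv_one, one_mul]
      have e0 := RK_four φ F T hTF hTc L hfin h8 hF h0 h1 h01 hT0 hT1 hTt h3 hst0 hst1 f hf
      have e1 := RK_four φ F T hTF hTc L hfin h8 hF h1 h0 (Ne.symm h01) hT1 hT0
        (fun x hx y hy hx1 hx0 hy1 hy0 => hTt x hx y hy hx0 hx1 hy0 hy1) h3 hst1 hst0 f hf
      rcases e0 with e0 | e0
      · exact Or.inl ⟨e0, hst0 f hf e0⟩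
      · rcases e1 with e1 | e1
        · exact absurd ((φ f).injective (e0.trans e1.symm)) h01
        · exact Or.inr ⟨e0, e1⟩

/-- the action of linear automorphisms on subspaces -/
def lact {K M : Type} [Field K] [AddCommGroup M] [Module K M] :
    (M ≃ₗ[K] M) →* Equiv.Perm (Submodule K M) where
  toFun g := (Submodule.orderIsoMapComap g).toEquiv
  map_one' := by
    ext W x
    simp [Submodule.orderIsoMapComap_apply]
  map_mul' := by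
    intro g h
    ext W x
    simp only [RelIso.coe_fn_toEquiv, Submodule.orderIsoMapComap_apply, Submodule.mem_map,
      Equiv.Perm.coe_mul, Function.comp_apply]
    constructor
    · rintro ⟨y, hy, rfl⟩
      exact ⟨h y, ⟨y, hy, rfl⟩, rfl⟩
    · rintro ⟨z, ⟨y, hy, rfl⟩, rfl⟩
      exact ⟨y, hy, rfl⟩

theorem lact_apply {K M : Type} [Field K] [AddCommGroup M] [Module K M] (g : M ≃ₗ[K] M)
    (W : Submodule K M) : lact g W = W.map (g : M →ₗ[K] M) := by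
  rfl

end Pool.Agent.H40.GT
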