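import Pool.Agent.H40.GT.Cj
import Pool.Agent.H40.GT.Fil
import Pool.Agent.H40.GT.RK

/-!
# GT-13 the Levi factor of the line parabolic

`l ∈ Dg K (1,-1)` preserves `⟨e_1, e_-2⟩`, `⟨e_0, e_3, e_-3⟩`, `⟨e_2, e_-1⟩`.  The roots of degree `0`
are `rt 11 = (1,1)` (`N: e_-2 → e_1, e_-1 → -e_2, e_3 → e_0, e_0 → -2 e_-3`) and
`rt 10 = (-1,-1)` (`N: e_1 → -e_-2, e_2 → e_-1, e_-3 → e_0, e_0 → -2 e_3`).

`lvL_diag`: `l ∈ Dg K (1,-1)` with `l e_1 ∈ K e_1` is `tor t * X 11 s`: multiply on the right by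
`X 11 (s')` to make `l` diagonal on `⟨e_1, e_-2⟩`; by `bf` it is diagonal on `⟨e_2, e_-1⟩` too;
`br e_1 e_-1 = e_0`, so `l e_0 ∈ K e_0`; `br e_1 e_2 = 2 e_-3`, `br e_-1 e_-2 = - 2 e_3`, so `l` is
diagonal everywhere: in `TT` by `diag_mem_TT`.

`lvL`: apply `RK` with `φ = lact`, `F' = F ⊓ Dg K (1,-1)`, `T = TT`, `L` = the one dimensional
subspaces of `⟨e_1, e_-2⟩`, `x0 = ⟨e_1⟩`, `x1 = ⟨e_-2⟩`, `U0 = {X 11 s}`, `U1 = {X 10 s}`, exactly
as in `LvP`.  Conclusion: `l = c * l'`, `c ∈ GS K (SF F)`, `l'` permutes the lines of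
`e_1, e_-2`; by `bf` also those of `e_-1, e_2`; then `br` (`br e_1 e_-1 = e_0`,
`br e_1 e_2 = 2 e_-3`, `br e_-1 e_-2 = -2 e_3`, or with the roles exchanged) shows that
it permutes all coordinate lines: `l' ∈ NN` (the same for `l'⁻¹`).
-/

namespace Pool.Agent.H40.GT

variable {K : Type} [Field K]

/-! Brackets and form on coordinate vectors. -/

theorem LvL_bf1 (a b c : K) : bf (a • ev 2 + b • ev 4 : V K) (c • ev 1) = b * c := by
  simp [bf, ev]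

theorem LvL_bf5 (a b c : K) : bf (a • ev 2 + b • ev 4 : V K) (c • ev 5) = a * c := by
  simp [bf, ev]

theorem LvL_br_smul (a b : K) (x y : V K) : br (a • x) (b • y) = (a * b) • br x y := by
  funext i
  fin_cases i <;> simp [br] <;> ring

theorem LvL_br14 : br (ev 1) (ev 4 : V K) = ev 0 := by
  funext i
  fin_cases i <;> simp [br, ev]

theorem LvL_br52 : br (ev 5) (ev 2 : V K) = -ev 0 := by
  funext i
  fin_cases i <;> simp [br, ev]

theorem LvL_br12 : br (ev 1) (ev 2 : V K) = (2 : K) • ev 6 := by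
  funext i
  fin_cases i <;> simp [br, ev]

theorem LvL_br45 : br (ev 4) (ev 5 : V K) = (-2 : K) • ev 3 := by
  funext i
  fin_cases i <;> simp [br, ev]

theorem LvL_br54 : br (ev 5) (ev 4 : V K) = (2 : K) • ev 3 := by
  funext i
  fin_cases i <;> simp [br, ev]

theorem LvL_br21 : br (ev 2) (ev 1 : V K) = (-2 : K) • ev 6 := by
  funext i
  fin_cases i <;> simp [br, ev]

theorem LvL_X11 (s : K) : X 11 s (ev 1) 1 = 1 ∧ X 11 s (ev 1) 5 = 0 ∧ X 11 s (ev 5) 1 = s ∧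
    X 11 s (ev 5) 5 = 1 := by
  have n1 : (ev 1 : V K) 5 = 0 := ev_ne (by decide)
  have n2 : (ev 5 : V K) 1 = 0 := ev_ne (by decide)
  refine ⟨?_, ?_, ?_, ?_⟩
  · show (ev 1 : V K) 1 + s * (((1 : ℤ) : K) * (ev 1 : V K) 5) +
      s ^ 2 * (((0 : ℤ) : K) * (ev 1 : V K) 1) = 1
    rw [ev_same, n1]
    simp
  · show (ev 1 : V K) 5 + s * (((0 : ℤ) : K) * (ev 1 : V K) 5) +
      s ^ 2 * (((0 : ℤ) : K) * (ev 1 : V K) 5) = 0
    rw [n1]
    simp
  · show (ev 5 : V K) 1 + s * (((1 : ℤ) : K) * (ev 5 : V K) 5) +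
      s ^ 2 * (((0 : ℤ) : K) * (ev 5 : V K) 1) = s
    rw [ev_same, n2]
    simp
  · show (ev 5 : V K) 5 + s * (((0 : ℤ) : K) * (ev 5 : V K) 5) +
      s ^ 2 * (((0 : ℤ) : K) * (ev 5 : V K) 5) = 1
    rw [ev_same]
    simp

theorem LvL_X10 (s : K) : X 10 s (ev 1) 1 = 1 ∧ X 10 s (ev 1) 5 = -s ∧ X 10 s (ev 5) 1 = 0 ∧
    X 10 s (ev 5) 5 = 1 := by
  have n1 : (ev 1 : V K) 5 = 0 := ev_ne (by decide)
  have n2 : (ev 5 : V K) 1 = 0 := ev_ne (by decide)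
  refine ⟨?_, ?_, ?_, ?_⟩
  · show (ev 1 : V K) 1 + s * (((0 : ℤ) : K) * (ev 1 : V K) 1) +
      s ^ 2 * (((0 : ℤ) : K) * (ev 1 : V K) 1) = 1
    rw [ev_same]
    simp
  · show (ev 1 : V K) 5 + s * (((-1 : ℤ) : K) * (ev 1 : V K) 1) +
      s ^ 2 * (((0 : ℤ) : K) * (ev 1 : V K) 5) = -s
    rw [n1, ev_same]
    simp
  · show (ev 5 : V K) 1 + s * (((0 : ℤ) : K) * (ev 5 : V K) 1) +
      s ^ 2 * (((0 : ℤ) : K) * (ev 5 : V K) 1) = 0
    rw [n2]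
    simp
  · show (ev 5 : V K) 5 + s * (((-1 : ℤ) : K) * (ev 5 : V K) 1) +
      s ^ 2 * (((0 : ℤ) : K) * (ev 5 : V K) 5) = 1
    rw [ev_same, n2]
    simp

/-- two-dimensional homogeneous components -/
theorem LvL_two {l : EE K} (hl : l ∈ Dg K (1, -1)) {j p q : Fin 7} (hpq : p ≠ q)
    (h : ∀ i, i ≠ p → i ≠ q → dg (1, -1) i ≠ dg (1, -1) j) :
    l (ev j) = l (ev j) p • ev p + l (ev j) q • ev q := by
  funext i
  rw [Pi.add_apply, Pi.smul_apply, Pi.smul_apply, smul_eq_mul, smul_eq_mul]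
  by_cases hp : i = p
  · rw [hp, ev_same, ev_ne hpq, mul_one, mul_zero, add_zero]
  · by_cases hq : i = q
    · rw [hq, ev_same, ev_ne (Ne.symm hpq), mul_one, mul_zero, zero_add]
    · rw [ev_ne hp, ev_ne hq, mul_zero, mul_zero, add_zero]
      exact hl.2.1 i j (h i hp hq)

theorem LvL_v1 {l : EE K} (hl : l ∈ Dg K (1, -1)) :
    l (ev 1) = l (ev 1) 1 • ev 1 + l (ev 1) 5 • ev 5 := LvL_two hl (by decide) (by decide)

theorem LvL_v5 {l : EE K} (hl : l ∈ Dg K (1, -1)) :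
    l (ev 5) = l (ev 5) 1 • ev 1 + l (ev 5) 5 • ev 5 := LvL_two hl (by decide) (by decide)

theorem LvL_v2 {l : EE K} (hl : l ∈ Dg K (1, -1)) :
    l (ev 2) = l (ev 2) 2 • ev 2 + l (ev 2) 4 • ev 4 := LvL_two hl (by decide) (by decide)

theorem LvL_v4 {l : EE K} (hl : l ∈ Dg K (1, -1)) :
    l (ev 4) = l (ev 4) 2 • ev 2 + l (ev 4) 4 • ev 4 := LvL_two hl (by decide) (by decide)

theorem LvL_ev_ne (j : Fin 7) : (ev j : V K) ≠ 0 := by
  intro h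
  have h1 := congrFun h j
  rw [ev_same] at h1
  exact one_ne_zero h1

theorem LvL_ne {l : EE K} {i j : Fin 7} {c : K} (h : l (ev j) = c • ev i) : c ≠ 0 := by
  rintro rfl
  rw [zero_smul] at h
  exact LvL_ev_ne (K := K) j (l.map_eq_zero_iff.1 h)

theorem LvL_bf41 : bf (ev 4) (ev 1 : V K) = 1 ∧ bf (ev 4) (ev 5 : V K) = 0 ∧
    bf (ev 2) (ev 1 : V K) = 0 ∧ bf (ev 2) (ev 5 : V K) = 1 := by
  refine ⟨?_, ?_, ?_, ?_⟩ <;> simp [bf, ev]

theorem LvL_halve {l : EE K} (h2 : (2 : K) ≠ 0) {i j : Fin 7} {c e : K} (he : e ≠ 0)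
    (h : l (e • ev j) = (c * e) • ev i) : l (ev j) = c • ev i := by
  rw [map_smul, mul_comm, mul_smul] at h
  have h1 := congrArg (fun v : V K => e⁻¹ • v) h
  simp only [inv_smul_smul₀ he] at h1
  exact h1

/-- elements which are diagonal in degree one are in the torus -/
theorem LvL_TT (hK : Ok K) {m : EE K} (hm : m ∈ Dg K (1, -1)) {c1 c5 : K}
    (h1 : m (ev 1) = c1 • ev 1) (h5 : m (ev 5) = c5 • ev 5) : m ∈ TT K := by
  have h2 := ok_two hK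
  have hc1 := LvL_ne h1
  have hc5 := LvL_ne h5
  obtain ⟨f41, f45, f21, f25⟩ := LvL_bf41 (K := K)
  have hb : ∀ x y, bf (m x) (m y) = bf x y := hm.1.2
  have e2 : m (ev 2) = m (ev 2) 2 • ev 2 := by
    have h3 := hb (ev 2) (ev 1)
    rw [LvL_v2 hm, h1, LvL_bf1, f21] at h3
    have h4 := (mul_eq_zero.1 h3).resolve_right hc1
    have h6 := LvL_v2 hm
    rw [h4, zero_smul, add_zero] at h6
    exact h6
  have e4 : m (ev 4) = m (ev 4) 4 • ev 4 := by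
    have h3 := hb (ev 4) (ev 5)
    rw [LvL_v4 hm, h5, LvL_bf5, f45] at h3
    have h4 := (mul_eq_zero.1 h3).resolve_right hc5
    have h6 := LvL_v4 hm
    rw [h4, zero_smul, zero_add] at h6
    exact h6
  have hbr : ∀ x y, m (br x y) = br (m x) (m y) := hm.1.1
  apply diag_mem_TT h2 hm.1
  intro j
  have e0 : ∃ c : K, m (ev 0) = c • ev 0 := by
    refine ⟨c1 * m (ev 4) 4, ?_⟩
    rw [← LvL_br14, hbr, h1, e4, LvL_br_smul, LvL_br14, ← e4]
  have e6 : ∃ c : K, m (ev 6) = c • ev 6 := by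
    refine ⟨c1 * m (ev 2) 2, LvL_halve h2 h2 ?_⟩
    rw [← LvL_br12, hbr, h1, e2, LvL_br_smul, LvL_br12, smul_smul, ← e2]
  have e3 : ∃ c : K, m (ev 3) = c • ev 3 := by
    refine ⟨m (ev 4) 4 * c5, LvL_halve h2 (neg_ne_zero.2 h2) ?_⟩
    rw [← LvL_br45, hbr, h5, e4, LvL_br_smul, LvL_br45, smul_smul, ← e4]
  fin_cases j
  · exact e0
  · exact ⟨_, h1⟩
  · exact ⟨_, e2⟩
  · exact e3
  · exact ⟨_, e4⟩
  · exact ⟨_, h5⟩
  · exact e6

/-- elements which interchange the two lines of degree one are monomial -/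
theorem LvL_swap (hK : Ok K) {m : EE K} (hm : m ∈ Dg K (1, -1)) {c1 c5 : K}
    (h1 : m (ev 1) = c1 • ev 5) (h5 : m (ev 5) = c5 • ev 1) (j : Fin 7) :
    ∃ i, ∃ c : K, m (ev j) = c • ev i := by
  have h2 := ok_two hK
  have hc1 := LvL_ne h1
  have hc5 := LvL_ne h5
  obtain ⟨f41, f45, f21, f25⟩ := LvL_bf41 (K := K)
  have hb : ∀ x y, bf (m x) (m y) = bf x y := hm.1.2
  have e2 : m (ev 2) = m (ev 2) 4 • ev 4 := by
    have h3 := hb (ev 2) (ev 1)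
    rw [LvL_v2 hm, h1, LvL_bf5, f21] at h3
    have h4 := (mul_eq_zero.1 h3).resolve_right hc1
    have h6 := LvL_v2 hm
    rw [h4, zero_smul, zero_add] at h6
    exact h6
  have e4 : m (ev 4) = m (ev 4) 2 • ev 2 := by
    have h3 := hb (ev 4) (ev 5)
    rw [LvL_v4 hm, h5, LvL_bf1, f45] at h3
    have h4 := (mul_eq_zero.1 h3).resolve_right hc5
    have h6 := LvL_v4 hm
    rw [h4, zero_smul, add_zero] at h6
    exact h6
  have hbr : ∀ x y, m (br x y) = br (m x) (m y) := hm.1.1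
  have e0 : ∃ c : K, m (ev 0) = c • ev 0 := by
    refine ⟨-(c1 * m (ev 4) 2), ?_⟩
    rw [← LvL_br14, hbr, h1, e4, LvL_br_smul, LvL_br52, LvL_br14, smul_neg, neg_smul, ← e4]
  have e6 : ∃ c : K, m (ev 6) = c • ev 3 := by
    refine ⟨c1 * m (ev 2) 4, LvL_halve h2 h2 ?_⟩
    rw [← LvL_br12, hbr, h1, e2, LvL_br_smul, LvL_br54, smul_smul, ← e2]
  have e3 : ∃ c : K, m (ev 3) = c • ev 6 := by
    refine ⟨m (ev 4) 2 * c5, LvL_halve h2 (neg_ne_zero.2 h2) ?_⟩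
    rw [← LvL_br45, hbr, h5, e4, LvL_br_smul, LvL_br21, smul_smul, ← e4]
  fin_cases j
  · exact ⟨0, e0⟩
  · exact ⟨5, _, h1⟩
  · exact ⟨4, _, e2⟩
  · exact ⟨6, e3⟩
  · exact ⟨2, _, e4⟩
  · exact ⟨1, _, h5⟩
  · exact ⟨3, e6⟩

theorem LvL_inv {m : EE K} {i j : Fin 7} {c : K} (h : m (ev j) = c • ev i) :
    m⁻¹ (ev i) = c⁻¹ • ev j := by
  have hc := LvL_ne h
  apply m.injective
  have h1 : m (m⁻¹ (ev i)) = ev i := m.apply_symm_apply _
  rw [h1, map_smul, h, smul_smul, inv_mul_cancel₀ hc, one_smul]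

theorem LvL_NN (hK : Ok K) {m : EE K} (hm : m ∈ Dg K (1, -1)) {c1 c5 : K}
    (h1 : m (ev 1) = c1 • ev 5) (h5 : m (ev 5) = c5 • ev 1) : m ∈ NN K :=
  ⟨hm.1, LvL_swap hK hm h1 h5, LvL_swap hK (inv_mem hm) (LvL_inv h5) (LvL_inv h1)⟩

theorem LvL_mX11 (s : K) : X 11 s ∈ Dg K (1, -1) := X_mem_Dg (by decide) s

theorem LvL_mX10 (s : K) : X 10 s ∈ Dg K (1, -1) := X_mem_Dg (by decide) s

theorem LvL_X11e (s : K) : X 11 s (ev 1) = ev 1 ∧ X 11 s (ev 5) = s • ev 1 + ev 5 := by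
  obtain ⟨a1, a2, a3, a4⟩ := LvL_X11 s
  have h1 := LvL_v1 (LvL_mX11 s)
  have h5 := LvL_v5 (LvL_mX11 s)
  rw [a1, a2, one_smul, zero_smul, add_zero] at h1
  rw [a3, a4, one_smul] at h5
  exact ⟨h1, h5⟩

theorem LvL_X10e (s : K) : X 10 s (ev 1) = ev 1 + -s • ev 5 ∧ X 10 s (ev 5) = ev 5 := by
  obtain ⟨a1, a2, a3, a4⟩ := LvL_X10 s
  have h1 := LvL_v1 (LvL_mX10 s)
  have h5 := LvL_v5 (LvL_mX10 s)
  rw [a1, a2, one_smul] at h1
  rw [a3, a4, one_smul, zero_smul, zero_add] at h5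
  exact ⟨h1, h5⟩

theorem lvL_diag (hK : Ok K) {l : EE K} (hl : l ∈ Dg K (1, -1)) {c : K}
    (h : l (ev 1) = c • ev 1) : ∃ t s, l = tor t * X 11 s := by
  have hc := LvL_ne h
  have hv := LvL_v5 hl
  set s : K := -(c⁻¹ * l (ev 5) 1) with hs
  have hm : l * X 11 s ∈ Dg K (1, -1) := mul_mem hl (LvL_mX11 s)
  have h1 : (l * X 11 s) (ev 1) = c • ev 1 := by
    rw [LinearEquiv.mul_apply, (LvL_X11e s).1, h]
  have h5 : (l * X 11 s) (ev 5) = l (ev 5) 5 • ev 5 := by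
    rw [LinearEquiv.mul_apply, (LvL_X11e s).2, map_add, map_smul, h, smul_smul]
    have h3 : s * c = -l (ev 5) 1 := by
      rw [hs, neg_mul, mul_comm c⁻¹, mul_assoc, inv_mul_cancel₀ hc, mul_one]
    conv_lhs => rw [hv]
    rw [h3, neg_smul, neg_add_cancel_left]
  obtain ⟨t, ht⟩ := LvL_TT hK hm h1 h5
  refine ⟨t, -s, ?_⟩
  rw [ht, mul_assoc, X_mul, add_neg_cancel, X_zero, mul_one]

theorem lvL_diag' (hK : Ok K) {l : EE K} (hl : l ∈ Dg K (1, -1)) {c : K}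
    (h : l (ev 5) = c • ev 5) : ∃ t s, l = tor t * X 10 s := by
  have hc := LvL_ne h
  have hv := LvL_v1 hl
  set s : K := c⁻¹ * l (ev 1) 5 with hs
  have hm : l * X 10 s ∈ Dg K (1, -1) := mul_mem hl (LvL_mX10 s)
  have h5 : (l * X 10 s) (ev 5) = c • ev 5 := by
    rw [LinearEquiv.mul_apply, (LvL_X10e s).2, h]
  have h1 : (l * X 10 s) (ev 1) = l (ev 1) 1 • ev 1 := by
    rw [LinearEquiv.mul_apply, (LvL_X10e s).1, map_add, map_smul, h, smul_smul]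
    have h3 : -s * c = -l (ev 1) 5 := by
      rw [hs, neg_mul, mul_comm c⁻¹, mul_assoc, inv_mul_cancel₀ hc, mul_one]
    conv_lhs => rw [hv]
    rw [h3, neg_smul, add_neg_cancel_right]
  obtain ⟨t, ht⟩ := LvL_TT hK hm h1 h5
  refine ⟨t, -s, ?_⟩
  rw [ht, mul_assoc, X_mul, add_neg_cancel, X_zero, mul_one]

/-! The lines of the plane of degree one. -/

/-- a line -/
def LvL_ln (a b : K) : Submodule K (V K) := Submodule.span K {a • ev 1 + b • ev 5}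

theorem LvL_c1 (a b : K) : (a • ev 1 + b • ev 5 : V K) 1 = a := by
  rw [Pi.add_apply, Pi.smul_apply, Pi.smul_apply, ev_same,
    ev_ne (by decide : (1 : Fin 7) ≠ 5), smul_eq_mul, smul_zero, mul_one, add_zero]

theorem LvL_c5 (a b : K) : (a • ev 1 + b • ev 5 : V K) 5 = b := by
  rw [Pi.add_apply, Pi.smul_apply, Pi.smul_apply, ev_same,
    ev_ne (by decide : (5 : Fin 7) ≠ 1), smul_zero, smul_eq_mul, mul_one, zero_add]

theorem LvL_ln_eq {a b c d : K} (h : a ≠ 0 ∨ b ≠ 0) (h' : c ≠ 0 ∨ d ≠ 0) :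
    LvL_ln a b = LvL_ln c d ↔ a * d = b * c := by
  unfold LvL_ln
  rw [Submodule.span_singleton_eq_span_singleton]
  constructor
  · rintro ⟨z, hz⟩
    have h1 := congrFun hz 1
    have h5 := congrFun hz 5
    rw [Units.smul_def, Pi.smul_apply, LvL_c1, LvL_c1, smul_eq_mul] at h1
    rw [Units.smul_def, Pi.smul_apply, LvL_c5, LvL_c5, smul_eq_mul] at h5
    rw [← h1, ← h5]
    ring
  · intro he
    have key : ∃ z : K, z ≠ 0 ∧ z * a = c ∧ z * b = d := by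
      by_cases ha : a = 0
      · have hb : b ≠ 0 := h.resolve_left (fun h0 => h0 ha)
        have hc : c = 0 := by
          rw [ha, zero_mul] at he
          exact (mul_eq_zero.1 he.symm).resolve_left hb
        have hd : d ≠ 0 := h'.resolve_left (fun h0 => h0 hc)
        refine ⟨d / b, div_ne_zero hd hb, by rw [ha, hc, mul_zero], div_mul_cancel₀ d hb⟩
      · have hc : c ≠ 0 := by
          intro h0
          rw [h0, mul_zero] at he
          have hd := (mul_eq_zero.1 he).resolve_left ha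
          rcases h' with h1 | h1
          · exact h1 h0
          · exact h1 hd
        refine ⟨c / a, div_ne_zero hc ha, div_mul_cancel₀ c ha, ?_⟩
        rw [div_mul_eq_mul_div, mul_comm c b, ← he, mul_div_cancel_left₀ d ha]
    obtain ⟨z, hz, h1, h3⟩ := key
    refine ⟨Units.mk0 z hz, ?_⟩
    rw [Units.smul_mk0, smul_add, smul_smul, smul_smul, h1, h3]

theorem LvL_act {f : EE K} (hf : f ∈ Dg K (1, -1)) (a b : K) :
    lact f (LvL_ln a b) = LvL_ln (a * f (ev 1) 1 + b * f (ev 5) 1)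
      (a * f (ev 1) 5 + b * f (ev 5) 5) := by
  rw [lact_apply]
  unfold LvL_ln
  rw [Submodule.map_span, Set.image_singleton]
  congr 2
  show f (a • ev 1 + b • ev 5) = _
  rw [map_add, map_smul, map_smul]
  conv_lhs => rw [LvL_v1 hf, LvL_v5 hf]
  module

theorem LvL_act_ne {f : EE K} (hf : f ∈ Dg K (1, -1)) {a b : K} (h : a ≠ 0 ∨ b ≠ 0) :
    a * f (ev 1) 1 + b * f (ev 5) 1 ≠ 0 ∨ a * f (ev 1) 5 + b * f (ev 5) 5 ≠ 0 := by
  by_contra hc
  push Not at hc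
  have h1 : f (a • ev 1 + b • ev 5) = 0 := by
    rw [map_add, map_smul, map_smul]
    conv_lhs => rw [LvL_v1 hf, LvL_v5 hf]
    have h3 : a • (f (ev 1) 1 • ev 1 + f (ev 1) 5 • ev 5) +
        b • (f (ev 5) 1 • ev 1 + f (ev 5) 5 • ev 5) =
        (a * f (ev 1) 1 + b * f (ev 5) 1) • (ev 1 : V K) +
        (a * f (ev 1) 5 + b * f (ev 5) 5) • ev 5 := by module
    rw [h3, hc.1, hc.2, zero_smul, zero_smul, add_zero]
  have h3 := f.map_eq_zero_iff.1 h1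
  have h4 := congrFun h3 1
  have h5 := congrFun h3 5
  rw [LvL_c1] at h4
  rw [LvL_c5] at h5
  rcases h with h6 | h6
  · exact h6 h4
  · exact h6 h5

/-- the set of lines -/
def LvL_L (K : Type) [Field K] : Set (Submodule K (V K)) :=
  {W | ∃ a b : K, (a ≠ 0 ∨ b ≠ 0) ∧ W = LvL_ln a b}

theorem LvL_card (hK : Ok K) : 8 ≤ (LvL_L K).ncard := by
  have hfin := ok_finite hK
  have h7 : 7 ≤ Nat.card K := by
    rcases hK with h | h <;> rw [h]
    norm_num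
  have hinj : Function.Injective (fun a : K => LvL_ln a 1) := by
    intro a b hab
    have h1 := (LvL_ln_eq (Or.inr one_ne_zero) (Or.inr one_ne_zero)).1 hab
    rw [mul_one, one_mul] at h1
    exact h1
  have hsub : insert (LvL_ln 1 0) (Set.range (fun a : K => LvL_ln a 1)) ⊆ LvL_L K := by
    rintro W (rfl | ⟨a, rfl⟩)
    · exact ⟨1, 0, Or.inl one_ne_zero, rfl⟩
    · exact ⟨a, 1, Or.inr one_ne_zero, rfl⟩
  have hnot : LvL_ln 1 0 ∉ Set.range (fun a : K => LvL_ln a 1) := by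
    rintro ⟨a, ha⟩
    have h1 := (LvL_ln_eq (Or.inr one_ne_zero) (Or.inl one_ne_zero)).1 ha
    rw [mul_zero, one_mul] at h1
    exact zero_ne_one h1
  have h1 := Set.ncard_le_ncard hsub (Set.toFinite _)
  rw [Set.ncard_insert_of_notMem hnot (Set.toFinite _), Set.ncard_range_of_injective hinj] at h1
  omega

/-- a quadratic form with three roots is zero -/
theorem LvL_three {A B C a1 b1 a2 b2 a3 b3 : K} (h12 : a1 * b2 ≠ b1 * a2)
    (h13 : a1 * b3 ≠ b1 * a3) (h23 : a2 * b3 ≠ b2 * a3)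
    (q1 : A * a1 ^ 2 + B * (a1 * b1) + C * b1 ^ 2 = 0)
    (q2 : A * a2 ^ 2 + B * (a2 * b2) + C * b2 ^ 2 = 0)
    (q3 : A * a3 ^ 2 + B * (a3 * b3) + C * b3 ^ 2 = 0) : A = 0 ∧ B = 0 ∧ C = 0 := by
  have hD : (a1 * b2 - b1 * a2) * (a1 * b3 - b1 * a3) * (a2 * b3 - b2 * a3) ≠ 0 :=
    mul_ne_zero (mul_ne_zero (sub_ne_zero.2 h12) (sub_ne_zero.2 h13)) (sub_ne_zero.2 h23)
  refine ⟨?_, ?_, ?_⟩
  · have h : (a1 * b2 - b1 * a2) * (a1 * b3 - b1 * a3) * (a2 * b3 - b2 * a3) * A = 0 := by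
      linear_combination (b2 * b3 * (a2 * b3 - b2 * a3)) * q1 -
        (b1 * b3 * (a1 * b3 - b1 * a3)) * q2 + (b1 * b2 * (a1 * b2 - b1 * a2)) * q3
    exact (mul_eq_zero.1 h).resolve_left hD
  · have h : (a1 * b2 - b1 * a2) * (a1 * b3 - b1 * a3) * (a2 * b3 - b2 * a3) * B = 0 := by
      linear_combination -(a2 ^ 2 * b3 ^ 2 - a3 ^ 2 * b2 ^ 2) * q1 +
        (a1 ^ 2 * b3 ^ 2 - a3 ^ 2 * b1 ^ 2) * q2 - (a1 ^ 2 * b2 ^ 2 - a2 ^ 2 * b1 ^ 2) * q3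
    exact (mul_eq_zero.1 h).resolve_left hD
  · have h : (a1 * b2 - b1 * a2) * (a1 * b3 - b1 * a3) * (a2 * b3 - b2 * a3) * C = 0 := by
      linear_combination (a2 ^ 2 * (a3 * b3) - a3 ^ 2 * (a2 * b2)) * q1 -
        (a1 ^ 2 * (a3 * b3) - a3 ^ 2 * (a1 * b1)) * q2 +
        (a1 ^ 2 * (a2 * b2) - a2 ^ 2 * (a1 * b1)) * q3
    exact (mul_eq_zero.1 h).resolve_left hD

theorem LvL_fix {f : EE K} (hf : f ∈ Dg K (1, -1)) {a b : K} (h : a ≠ 0 ∨ b ≠ 0) :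
    lact f (LvL_ln a b) = LvL_ln a b ↔
      -f (ev 1) 5 * a ^ 2 + (f (ev 1) 1 - f (ev 5) 5) * (a * b) + f (ev 5) 1 * b ^ 2 = 0 := by
  rw [LvL_act hf, LvL_ln_eq (LvL_act_ne hf h) h]
  constructor
  · intro h1
    linear_combination h1
  · intro h1
    linear_combination h1

/-- the group of root elements -/
def LvL_U (K : Type) [Field K] (r : Rt) : Subgroup (EE K) where
  carrier := {g | ∃ s : K, g = X r s}
  one_mem' := ⟨0, (X_zero r).symm⟩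
  mul_mem' := by
    rintro a b ⟨s, rfl⟩ ⟨t, rfl⟩
    exact ⟨s + t, X_mul r s t⟩
  inv_mem' := by
    rintro a ⟨s, rfl⟩
    exact ⟨-s, X_inv r s⟩

theorem LvL_U_le (hK : Ok K) {F : Subgroup (EE K)} (hF : Ov F) {r : Rt}
    (hr : ∀ s : K, X r s ∈ Dg K (1, -1)) {t : Kˣ × Kˣ} {s : K} (hs : s ≠ 0)
    (h : tor t * X r s ∈ F) : LvL_U K r ≤ F ⊓ Dg K (1, -1) := by
  have h1 : X r s ∈ F := by
    have h3 : X r s = (tor t)⁻¹ * (tor t * X r s) := by group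
    rw [h3]
    exact mul_mem (inv_mem (hF.1 (tor_mem_TT t))) h
  have h4 := ok_mem_SF hK hs h1
  rintro g ⟨s', rfl⟩
  exact ⟨h4 s', hr s'⟩

theorem LvL_act11 (s a b : K) : lact (X 11 s) (LvL_ln a b) = LvL_ln (a + b * s) b := by
  obtain ⟨a1, a2, a3, a4⟩ := LvL_X11 s
  rw [LvL_act (LvL_mX11 s), a1, a2, a3, a4, mul_one, mul_one, mul_zero, zero_add]

theorem LvL_act10 (s a b : K) : lact (X 10 s) (LvL_ln a b) = LvL_ln a (b - a * s) := by
  obtain ⟨a1, a2, a3, a4⟩ := LvL_X10 s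
  rw [LvL_act (LvL_mX10 s), a1, a2, a3, a4, mul_one, mul_one, mul_zero, add_zero, mul_neg,
    neg_add_eq_sub]

theorem LvL_acttor (t : Kˣ × Kˣ) (a b : K) : lact (tor t) (LvL_ln a b) =
    LvL_ln (a * (ch (wt 1) t : K)) (b * (ch (wt 5) t : K)) := by
  have n1 : (ev 1 : V K) 5 = 0 := ev_ne (by decide)
  have n2 : (ev 5 : V K) 1 = 0 := ev_ne (by decide)
  rw [LvL_act (TT_le_Dg _ (tor_mem_TT t)), tor_apply, tor_apply, tor_apply, tor_apply, ev_same,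
    ev_same, n1, n2]
  simp only [mul_zero, mul_one, add_zero, zero_add]

theorem LvL_line {m : EE K} (hm : m ∈ Dg K (1, -1)) {a b : K} (hab : a ≠ 0 ∨ b ≠ 0) {c d : K}
    (hcd : c ≠ 0 ∨ d ≠ 0) (h : lact m (LvL_ln a b) = LvL_ln c d) :
    (a * m (ev 1) 1 + b * m (ev 5) 1) * d = (a * m (ev 1) 5 + b * m (ev 5) 5) * c := by
  rw [LvL_act hm] at h
  exact (LvL_ln_eq (LvL_act_ne hm hab) hcd).1 h

theorem lvL (hK : Ok K) {F : Subgroup (EE K)} (hF : Ov F) {l : EE K} (hlF : l ∈ F)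
    (hl : l ∈ Dg K (1, -1)) : ∃ c ∈ GS K (SF F), c⁻¹ * l ∈ NN K := by
  have hfin := ok_finite hK
  have h10 : (1 : K) ≠ 0 ∨ (0 : K) ≠ 0 := Or.inl one_ne_zero
  have h01 : (0 : K) ≠ 0 ∨ (1 : K) ≠ 0 := Or.inr one_ne_zero
  have hx0 : ∀ a b : K, (a ≠ 0 ∨ b ≠ 0) → LvL_ln a b ≠ LvL_ln 1 0 → b ≠ 0 := by
    intro a b h hne hb
    apply hne
    rw [LvL_ln_eq h h10, hb, mul_zero, zero_mul]
  have hx1 : ∀ a b : K, (a ≠ 0 ∨ b ≠ 0) → LvL_ln a b ≠ LvL_ln 0 1 → a ≠ 0 := by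
    intro a b h hne hb
    apply hne
    rw [LvL_ln_eq h h01, hb, mul_zero, zero_mul]
  have e10 : ∀ f ∈ Dg K (1, -1), lact f (LvL_ln 1 0) = LvL_ln 1 0 →
      f (ev 1) = f (ev 1) 1 • ev 1 := by
    intro f hf h
    have h3 := LvL_line hf h10 h10 h
    have h4 : f (ev 1) 5 = 0 := by linear_combination -h3
    have h5 := LvL_v1 hf
    rw [h4, zero_smul, add_zero] at h5
    exact h5
  have e01 : ∀ f ∈ Dg K (1, -1), lact f (LvL_ln 0 1) = LvL_ln 0 1 →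
      f (ev 5) = f (ev 5) 5 • ev 5 := by
    intro f hf h
    have h3 := LvL_line hf h01 h01 h
    have h4 : f (ev 5) 1 = 0 := by linear_combination h3
    have h5 := LvL_v5 hf
    rw [h4, zero_smul, zero_add] at h5
    exact h5
  have key := RK (G := EE K) (Y := Submodule K (V K)) lact (F ⊓ Dg K (1, -1)) (TT K)
    (le_inf hF.1 (TT_le_Dg _)) (fun s hs t ht => TT_comm s t hs ht) (LvL_L K) (Set.toFinite _)
    (LvL_card hK)
    (by
      rintro f hf W ⟨a, b, hab, rfl⟩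
      exact ⟨_, _, LvL_act_ne hf.2 hab, LvL_act hf.2 a b⟩)
    (x0 := LvL_ln 1 0) (x1 := LvL_ln 0 1) ⟨1, 0, h10, rfl⟩ ⟨0, 1, h01, rfl⟩
    (by
      intro h
      rw [LvL_ln_eq h10 h01, mul_one, mul_zero] at h
      exact one_ne_zero h)
    (by
      rintro t ⟨u, rfl⟩
      rw [LvL_acttor, zero_mul, one_mul,
        LvL_ln_eq (Or.inl (Units.ne_zero _)) h10, mul_zero, zero_mul])
    (by
      rintro t ⟨u, rfl⟩
      rw [LvL_acttor, zero_mul, one_mul,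
        LvL_ln_eq (Or.inr (Units.ne_zero _)) h01, mul_zero, zero_mul])
    (by
      rintro W ⟨a, b, hab, rfl⟩ W' ⟨c, d, hcd, rfl⟩ w0 w1 w0' w1'
      have ha := hx1 a b hab w1
      have hb := hx0 a b hab w0
      have hc := hx1 c d hcd w1'
      have hd := hx0 c d hcd w0'
      -- `t = (1, u)`, `ch (wt 5) t = u⁻¹`
      set u : Kˣ := Units.mk0 ((b * c) / (a * d)) (div_ne_zero (mul_ne_zero hb hc)
        (mul_ne_zero ha hd)) with hu
      refine ⟨tor (1, u), tor_mem_TT _, ?_⟩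
      have c1 : ch (wt 1) ((1, u) : Kˣ × Kˣ) = 1 := by
        show (1 : Kˣ) ^ (1 : ℤ) * u ^ (0 : ℤ) = 1
        simp
      have c5 : ch (wt 5) ((1, u) : Kˣ × Kˣ) = u⁻¹ := by
        show (1 : Kˣ) ^ (0 : ℤ) * u ^ (-1 : ℤ) = u⁻¹
        simp
      rw [LvL_acttor, c1, c5, Units.val_one, mul_one, LvL_ln_eq (Or.inl ha) hcd, hu,
        Units.val_inv_eq_inv_val, Units.val_mk0]
      field_simp)
    (by
      rintro f hf ⟨W1, ⟨a1, b1, h1, rfl⟩, W2, ⟨a2, b2, h2, rfl⟩, W3, ⟨a3, b3, h3, rfl⟩, n12, n13,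
        n23, f1, f2, f3⟩ W ⟨a, b, hab, rfl⟩
      rw [LvL_fix hf.2 h1] at f1
      rw [LvL_fix hf.2 h2] at f2
      rw [LvL_fix hf.2 h3] at f3
      rw [Ne, LvL_ln_eq h1 h2] at n12
      rw [Ne, LvL_ln_eq h1 h3] at n13
      rw [Ne, LvL_ln_eq h2 h3] at n23
      obtain ⟨q1, q2, q3⟩ := LvL_three n12 n13 n23 f1 f2 f3
      rw [LvL_fix hf.2 hab, q1, q2, q3]
      ring)
    (LvL_U K 11) (LvL_U K 10)
    (by
      rintro u ⟨s, rfl⟩
      rw [LvL_act11, zero_mul, add_zero])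
    (by
      rintro u ⟨s, rfl⟩
      rw [LvL_act10, zero_mul, sub_zero])
    (by
      rintro W ⟨a, b, hab, rfl⟩ W' ⟨c, d, hcd, rfl⟩ w0 w0'
      have hb := hx0 a b hab w0
      have hd := hx0 c d hcd w0'
      refine ⟨X 11 (c / d - a / b), ⟨_, rfl⟩, ?_⟩
      rw [LvL_act11, LvL_ln_eq (Or.inr hb) hcd]
      field_simp
      ring)
    (by
      rintro W ⟨a, b, hab, rfl⟩ W' ⟨c, d, hcd, rfl⟩ w1 w1'
      have ha := hx1 a b hab w1
      have hc := hx1 c d hcd w1'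
      refine ⟨X 10 (b / a - d / c), ⟨_, rfl⟩, ?_⟩
      rw [LvL_act10, LvL_ln_eq (Or.inl ha) hcd]
      field_simp
      ring)
    (by
      intro f hf g0 g1
      obtain ⟨t, s, hts⟩ := lvL_diag hK hf.2 (e10 f hf.2 g0)
      refine LvL_U_le hK hF LvL_mX11 (t := t) (s := s) ?_ (by rw [← hts]; exact hf.1)
      intro hs
      apply g1
      rw [hts, hs, X_zero, mul_one, LvL_acttor, zero_mul, one_mul,
        LvL_ln_eq (Or.inr (Units.ne_zero _)) h01, mul_zero, zero_mul])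
    (by
      intro f hf g0 g1
      obtain ⟨t, s, hts⟩ := lvL_diag' hK hf.2 (e01 f hf.2 g0)
      refine LvL_U_le hK hF LvL_mX10 (t := t) (s := s) ?_ (by rw [← hts]; exact hf.1)
      intro hs
      apply g1
      rw [hts, hs, X_zero, mul_one, LvL_acttor, zero_mul, one_mul,
        LvL_ln_eq (Or.inl (Units.ne_zero _)) h10, mul_zero, zero_mul])
  obtain ⟨c, hcF, hc, hcl⟩ := key l ⟨hlF, hl⟩
  have hcG : c ∈ GS K (SF F) := by
    refine (Subgroup.closure_le _).2 ?_ hc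
    rintro u (⟨⟨s, rfl⟩, hu⟩ | ⟨⟨s, rfl⟩, hu⟩)
    · exact X_mem_GS (S := SF F) (r := 11) (fun s' => (hu ⟨s', rfl⟩).1) s
    · exact X_mem_GS (S := SF F) (r := 10) (fun s' => (hu ⟨s', rfl⟩).1) s
  have hm : c⁻¹ * l ∈ Dg K (1, -1) := mul_mem (inv_mem hcF.2) hl
  refine ⟨c, hcG, ?_⟩
  rcases hcl with ⟨g0, g1⟩ | ⟨g0, g1⟩
  · exact TT_le_NN (LvL_TT hK hm (e10 _ hm g0) (e01 _ hm g1))
  · have a0 := LvL_line hm h10 h01 g0
    have a1 := LvL_line hm h01 h10 g1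
    have b0 : (c⁻¹ * l) (ev 1) 1 = 0 := by linear_combination a0
    have b1 : (c⁻¹ * l) (ev 5) 5 = 0 := by linear_combination -a1
    have v1 := LvL_v1 hm
    have v5 := LvL_v5 hm
    rw [b0, zero_smul, zero_add] at v1
    rw [b1, zero_smul, add_zero] at v5
    exact LvL_NN hK hm v1 v5

end Pool.Agent.H40.GT
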