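import Pool.Agent.H40.GT.Cj
import Pool.Agent.H40.GT.Fil
import Pool.Agent.H40.GT.RK

/-!
# GT-12 the Levi factor of the point parabolic

`l ∈ Dg K (2,-1)` preserves `⟨e_1⟩, ⟨e_-2, e_-3⟩, ⟨e_0⟩, ⟨e_2, e_3⟩, ⟨e_-1⟩`.  The roots of degree `0`
are `rt 4 = (1,2)` (`N: e_3 → e_2, e_-2 → -e_-3`) and `rt 5 = (-1,-2)`
(`N: e_2 → e_3, e_-3 → -e_-2`).

`lvP_diag`: `l ∈ Dg K (2,-1)` with `l e_-3 ∈ K e_-3` is `tor t * X 4 s`: let `l e_-2 = a e_-2 + b e_-3`
(`a ≠ 0`), multiply on the right by `X 4 (b / a')` (a suitable parameter) to make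
`l` diagonal on `⟨e_-2, e_-3⟩`; by `bf` it is then diagonal on `⟨e_2, e_3⟩`, so it is in `TT`
by `diag_mem_TT`.  (Write `l = tor t * X 4 s`.)

`lvP`: apply `RK` with `φ = lact`, `F' = F ⊓ Dg K (2,-1)`, `T = TT`, `L` = the one dimensional
subspaces of `⟨e_-2, e_-3⟩` (there are `|K| + 1 ≥ 8`), `x0 = ⟨e_-3⟩`, `x1 = ⟨e_-2⟩`,
`U0 = {X 4 s}`, `U1 = {X 5 s}`.  `tor` is transitive on the lines `⟨e_-2 + a e_-3⟩`, `a ≠ 0`.
Three fixed lines: scalar on `⟨e_-2, e_-3⟩`.  Hypothesis `hA`: `f` fixes `x0` and moves `x1`: by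
`lvP_diag` `f = tor t * X 4 s` with `s ≠ 0`, so `X 4 s ∈ F` and `4 ∈ SF F` by `ok_mem_SF`.
`hB`: the same with `e_-2`, `X 5`.  Conclusion: `l = c * l'`, `c ∈ GS K (SF F)`, `l'` preserves
`{x0, x1}`; so `l'` permutes the lines of `e_-2, e_-3`, then (by `bf`) those of
`e_2, e_3`, and fixes those of `e_1, e_-1, e_0`: `l' ∈ NN`.
-/

namespace Pool.Agent.H40.GT

variable {K : Type} [Field K]

theorem lvP_co (x : V K) (h : ∀ i, i ≠ 5 → i ≠ 6 → x i = 0) : x = x 5 • ev 5 + x 6 • ev 6 := by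
  ext i
  rw [Pi.add_apply, Pi.smul_apply, Pi.smul_apply, smul_eq_mul, smul_eq_mul]
  by_cases h5 : i = 5
  · subst h5
    rw [ev_same, ev_ne (by decide)]
    ring
  · by_cases h6 : i = 6
    · subst h6
      rw [ev_same, ev_ne (by decide)]
      ring
    · rw [h i h5 h6, ev_ne h5, ev_ne h6]
      ring

theorem lvP_co' (x : V K) (h : ∀ i, i ≠ 2 → i ≠ 3 → x i = 0) : x = x 2 • ev 2 + x 3 • ev 3 := by
  ext i
  rw [Pi.add_apply, Pi.smul_apply, Pi.smul_apply, smul_eq_mul, smul_eq_mul]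
  by_cases h5 : i = 2
  · subst h5
    rw [ev_same, ev_ne (by decide)]
    ring
  · by_cases h6 : i = 3
    · subst h6
      rw [ev_same, ev_ne (by decide)]
      ring
    · rw [h i h5 h6, ev_ne h5, ev_ne h6]
      ring

theorem lvP_co1 (x : V K) (j : Fin 7) (h : ∀ i, i ≠ j → x i = 0) : x = x j • ev j := by
  ext i
  rw [Pi.smul_apply, smul_eq_mul]
  by_cases h5 : i = j
  · subst h5
    rw [ev_same]
    ring
  · rw [h i h5, ev_ne h5]
    ring

theorem lvP_bf5 (x : V K) : bf x (ev 5) = x 2 := by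
  simp [bf, ev, Pi.single_apply]

theorem lvP_bf6 (x : V K) : bf x (ev 6) = x 3 := by
  simp [bf, ev, Pi.single_apply]

theorem lvP_bf_smul (x y : V K) (c : K) : bf x (c • y) = c * bf x y := by
  simp only [bf, Pi.smul_apply, smul_eq_mul]
  ring

theorem lvP_ev_ne (j : Fin 7) : (ev j : V K) ≠ 0 := by
  intro h
  have h1 := congrFun h j
  rw [ev_same] at h1
  exact one_ne_zero h1

theorem lvP_X4_5 (s : K) : X 4 s (ev 5) = ev 5 - s • ev 6 := by
  ext i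
  rw [X_apply, Pi.sub_apply, Pi.smul_apply, smul_eq_mul]
  fin_cases i <;> simp [ev, Pi.single_apply, cc, sc, qc, qs]

theorem lvP_X4_6 (s : K) : X 4 s (ev 6) = ev 6 := by
  ext i
  rw [X_apply]
  fin_cases i <;> simp [ev, Pi.single_apply, cc, sc, qc, qs]

theorem lvP_X5_6 (s : K) : X 5 s (ev 6) = ev 6 - s • ev 5 := by
  ext i
  rw [X_apply, Pi.sub_apply, Pi.smul_apply, smul_eq_mul]
  fin_cases i <;> simp [ev, Pi.single_apply, cc, sc, qc, qs]

theorem lvP_X5_5 (s : K) : X 5 s (ev 5) = ev 5 := by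
  ext i
  rw [X_apply]
  fin_cases i <;> simp [ev, Pi.single_apply, cc, sc, qc, qs]

theorem lvP_tab : (∀ i : Fin 7, i ≠ 5 → i ≠ 6 → dg (2, -1) i ≠ dg (2, -1) 5) ∧
    (∀ i : Fin 7, i ≠ 5 → i ≠ 6 → dg (2, -1) i ≠ dg (2, -1) 6) ∧
    (∀ i : Fin 7, i ≠ 2 → i ≠ 3 → dg (2, -1) i ≠ dg (2, -1) 2) ∧
    (∀ i : Fin 7, i ≠ 2 → i ≠ 3 → dg (2, -1) i ≠ dg (2, -1) 3) ∧
    (∀ i : Fin 7, i ≠ 0 → dg (2, -1) i ≠ dg (2, -1) 0) ∧
    (∀ i : Fin 7, i ≠ 1 → dg (2, -1) i ≠ dg (2, -1) 1) ∧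
    (∀ i : Fin 7, i ≠ 4 → dg (2, -1) i ≠ dg (2, -1) 4) := by
  decide

theorem lvP_5 {l : EE K} (hl : l ∈ Dg K (2, -1)) :
    l (ev 5) = l (ev 5) 5 • ev 5 + l (ev 5) 6 • ev 6 :=
  lvP_co _ fun i h5 h6 => (mem_Dg.1 hl).2.1 i 5 (lvP_tab.1 i h5 h6)

theorem lvP_6 {l : EE K} (hl : l ∈ Dg K (2, -1)) :
    l (ev 6) = l (ev 6) 5 • ev 5 + l (ev 6) 6 • ev 6 :=
  lvP_co _ fun i h5 h6 => (mem_Dg.1 hl).2.1 i 6 (lvP_tab.2.1 i h5 h6)

theorem lvP_2 {l : EE K} (hl : l ∈ Dg K (2, -1)) :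
    l (ev 2) = l (ev 2) 2 • ev 2 + l (ev 2) 3 • ev 3 :=
  lvP_co' _ fun i h5 h6 => (mem_Dg.1 hl).2.1 i 2 (lvP_tab.2.2.1 i h5 h6)

theorem lvP_3 {l : EE K} (hl : l ∈ Dg K (2, -1)) :
    l (ev 3) = l (ev 3) 2 • ev 2 + l (ev 3) 3 • ev 3 :=
  lvP_co' _ fun i h5 h6 => (mem_Dg.1 hl).2.1 i 3 (lvP_tab.2.2.2.1 i h5 h6)

/-- elements of the Levi group which are monomial on the plane `⟨e_-2, e_-3⟩` -/
theorem lvP_mono {l : EE K} (hl : l ∈ Dg K (2, -1))
    (h : (∃ a b : K, l (ev 5) = a • ev 5 ∧ l (ev 6) = b • ev 6) ∨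
      (∃ a b : K, l (ev 5) = a • ev 6 ∧ l (ev 6) = b • ev 5)) :
    ∀ j, ∃ i, ∃ c : K, l (ev j) = c • ev i := by
  have hne : ∀ (j i : Fin 7) (c : K), l (ev j) = c • ev i → c ≠ 0 := by
    intro j i c hc h0
    rw [h0, zero_smul] at hc
    exact lvP_ev_ne j (l.map_eq_zero_iff.1 hc)
  have hbf := (mem_Dg.1 hl).1.2
  have e2 : bf (ev 2 : V K) (ev 6) = 0 := by
    rw [lvP_bf6]
    exact ev_ne (by decide)
  have e3 : bf (ev 3 : V K) (ev 5) = 0 := by
    rw [lvP_bf5]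
    exact ev_ne (by decide)
  have h0 : ∃ i, ∃ c : K, l (ev 0) = c • ev i :=
    ⟨0, _, lvP_co1 _ 0 fun i hi => (mem_Dg.1 hl).2.1 i 0 (lvP_tab.2.2.2.2.1 i hi)⟩
  have h1 : ∃ i, ∃ c : K, l (ev 1) = c • ev i :=
    ⟨1, _, lvP_co1 _ 1 fun i hi => (mem_Dg.1 hl).2.1 i 1 (lvP_tab.2.2.2.2.2.1 i hi)⟩
  have h4 : ∃ i, ∃ c : K, l (ev 4) = c • ev i :=
    ⟨4, _, lvP_co1 _ 4 fun i hi => (mem_Dg.1 hl).2.1 i 4 (lvP_tab.2.2.2.2.2.2 i hi)⟩
  have hm2 := lvP_2 hl
  have hm3 := lvP_3 hl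
  rcases h with ⟨a, b, ha, hb⟩ | ⟨a, b, ha, hb⟩
  · have ha0 := hne _ _ _ ha
    have hb0 := hne _ _ _ hb
    rw [← hbf, hb, lvP_bf_smul, lvP_bf6] at e2
    rw [← hbf, ha, lvP_bf_smul, lvP_bf5] at e3
    have e2' := (mul_eq_zero.1 e2).resolve_left hb0
    have e3' := (mul_eq_zero.1 e3).resolve_left ha0
    rw [e2', zero_smul, add_zero] at hm2
    rw [e3', zero_smul, zero_add] at hm3
    intro j
    fin_cases j
    · exact h0
    · exact h1
    · exact ⟨2, _, hm2⟩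
    · exact ⟨3, _, hm3⟩
    · exact h4
    · exact ⟨5, a, ha⟩
    · exact ⟨6, b, hb⟩
  · have ha0 := hne _ _ _ ha
    have hb0 := hne _ _ _ hb
    rw [← hbf, hb, lvP_bf_smul, lvP_bf5] at e2
    rw [← hbf, ha, lvP_bf_smul, lvP_bf6] at e3
    have e2' := (mul_eq_zero.1 e2).resolve_left hb0
    have e3' := (mul_eq_zero.1 e3).resolve_left ha0
    rw [e2', zero_smul, zero_add] at hm2
    rw [e3', zero_smul, add_zero] at hm3
    intro j
    fin_cases j
    · exact h0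
    · exact h1
    · exact ⟨3, _, hm2⟩
    · exact ⟨2, _, hm3⟩
    · exact h4
    · exact ⟨6, a, ha⟩
    · exact ⟨5, b, hb⟩

/-- elements of the Levi group which are diagonal on the plane are in the torus -/
theorem lvP_TT (hK : Ok K) {l : EE K} (hl : l ∈ Dg K (2, -1)) {a b : K}
    (ha : l (ev 5) = a • ev 5) (hb : l (ev 6) = b • ev 6) : l ∈ TT K := by
  have hne : ∀ (j i : Fin 7) (c : K), l (ev j) = c • ev i → c ≠ 0 := by
    intro j i c hc h0
    rw [h0, zero_smul] at hc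
    exact lvP_ev_ne j (l.map_eq_zero_iff.1 hc)
  have hbf := (mem_Dg.1 hl).1.2
  have e2 : bf (ev 2 : V K) (ev 6) = 0 := by
    rw [lvP_bf6]
    exact ev_ne (by decide)
  have e3 : bf (ev 3 : V K) (ev 5) = 0 := by
    rw [lvP_bf5]
    exact ev_ne (by decide)
  have hm2 := lvP_2 hl
  have hm3 := lvP_3 hl
  have ha0 := hne _ _ _ ha
  have hb0 := hne _ _ _ hb
  rw [← hbf, hb, lvP_bf_smul, lvP_bf6] at e2
  rw [← hbf, ha, lvP_bf_smul, lvP_bf5] at e3
  have e2' := (mul_eq_zero.1 e2).resolve_left hb0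
  have e3' := (mul_eq_zero.1 e3).resolve_left ha0
  rw [e2', zero_smul, add_zero] at hm2
  rw [e3', zero_smul, zero_add] at hm3
  apply diag_mem_TT (ok_two hK) (mem_Dg.1 hl).1
  intro j
  fin_cases j
  · exact ⟨_, lvP_co1 _ 0 fun i hi => (mem_Dg.1 hl).2.1 i 0 (lvP_tab.2.2.2.2.1 i hi)⟩
  · exact ⟨_, lvP_co1 _ 1 fun i hi => (mem_Dg.1 hl).2.1 i 1 (lvP_tab.2.2.2.2.2.1 i hi)⟩
  · exact ⟨_, hm2⟩
  · exact ⟨_, hm3⟩
  · exact ⟨_, lvP_co1 _ 4 fun i hi => (mem_Dg.1 hl).2.1 i 4 (lvP_tab.2.2.2.2.2.2 i hi)⟩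
  · exact ⟨a, ha⟩
  · exact ⟨b, hb⟩

theorem lvP_diag (hK : Ok K) {l : EE K} (hl : l ∈ Dg K (2, -1)) {c : K}
    (h : l (ev 6) = c • ev 6) : ∃ t s, l = tor t * X 4 s := by
  have hc : c ≠ 0 := by
    intro h0
    rw [h0, zero_smul] at h
    exact lvP_ev_ne 6 (l.map_eq_zero_iff.1 h)
  have h5 := lvP_5 hl
  obtain ⟨a, ha⟩ : ∃ a, a = l (ev 5) 5 := ⟨_, rfl⟩
  obtain ⟨b, hb⟩ : ∃ b, b = l (ev 5) 6 := ⟨_, rfl⟩
  rw [← ha, ← hb] at h5
  have hm : l * X 4 (b / c) ∈ Dg K (2, -1) := mul_mem hl (X_mem_Dg (by decide) _)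
  have h1 : (l * X 4 (b / c)) (ev 5) = a • ev 5 := by
    rw [LinearEquiv.mul_apply, lvP_X4_5, map_sub, map_smul, h5, h, smul_smul,
      div_mul_cancel₀ _ hc]
    abel
  have h2 : (l * X 4 (b / c)) (ev 6) = c • ev 6 := by
    rw [LinearEquiv.mul_apply, lvP_X4_6, h]
  obtain ⟨t, ht⟩ := lvP_TT hK hm h1 h2
  refine ⟨t, -(b / c), ?_⟩
  rw [ht, mul_assoc, X_mul, add_neg_cancel, X_zero, mul_one]

theorem lvP_diag' (hK : Ok K) {l : EE K} (hl : l ∈ Dg K (2, -1)) {c : K}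
    (h : l (ev 5) = c • ev 5) : ∃ t s, l = tor t * X 5 s := by
  have hc : c ≠ 0 := by
    intro h0
    rw [h0, zero_smul] at h
    exact lvP_ev_ne 5 (l.map_eq_zero_iff.1 h)
  have h5 := lvP_6 hl
  obtain ⟨a, ha⟩ : ∃ a, a = l (ev 6) 5 := ⟨_, rfl⟩
  obtain ⟨b, hb⟩ : ∃ b, b = l (ev 6) 6 := ⟨_, rfl⟩
  rw [← ha, ← hb] at h5
  have hm : l * X 5 (a / c) ∈ Dg K (2, -1) := mul_mem hl (X_mem_Dg (by decide) _)
  have h1 : (l * X 5 (a / c)) (ev 6) = b • ev 6 := by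
    rw [LinearEquiv.mul_apply, lvP_X5_6, map_sub, map_smul, h5, h, smul_smul,
      div_mul_cancel₀ _ hc]
    abel
  have h2 : (l * X 5 (a / c)) (ev 5) = c • ev 5 := by
    rw [LinearEquiv.mul_apply, lvP_X5_5, h]
  obtain ⟨t, ht⟩ := lvP_TT hK hm h2 h1
  refine ⟨t, -(a / c), ?_⟩
  rw [ht, mul_assoc, X_mul, add_neg_cancel, X_zero, mul_one]

/-- the root group -/
def lvP_U (K : Type) [Field K] (r : Rt) : Subgroup (EE K) where
  carrier := {g | ∃ s : K, g = X r s}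
  one_mem' := ⟨0, (X_zero r).symm⟩
  mul_mem' := by
    rintro a b ⟨s, rfl⟩ ⟨t, rfl⟩
    exact ⟨s + t, X_mul r s t⟩
  inv_mem' := by
    rintro a ⟨s, rfl⟩
    exact ⟨-s, X_inv r s⟩

/-- the point with coordinates `p, q` -/
def lvP_pt (p q : K) : Submodule K (V K) := Submodule.span K {p • ev 5 + q • ev 6}

theorem lvP_co5 (p q : K) : (p • ev 5 + q • ev 6 : V K) 5 = p := by
  rw [Pi.add_apply, Pi.smul_apply, Pi.smul_apply, smul_eq_mul, smul_eq_mul, ev_same,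
    ev_ne (by decide)]
  ring

theorem lvP_co6 (p q : K) : (p • ev 5 + q • ev 6 : V K) 6 = q := by
  rw [Pi.add_apply, Pi.smul_apply, Pi.smul_apply, smul_eq_mul, smul_eq_mul, ev_same,
    ev_ne (by decide)]
  ring

theorem lvP_pt_smul {c : K} (hc : c ≠ 0) (p q : K) : lvP_pt (c * p) (c * q) = lvP_pt p q := by
  unfold lvP_pt
  have h : (c * p) • ev 5 + (c * q) • ev 6 = c • (p • ev 5 + q • ev 6 : V K) := by
    rw [smul_add, smul_smul, smul_smul]
  rw [h]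
  exact Submodule.span_singleton_smul_eq (IsUnit.mk0 c hc) _

theorem lvP_pt_eq {p q p' q' : K} (h : lvP_pt p q = lvP_pt p' q') : p * q' = p' * q := by
  have h1 : (p • ev 5 + q • ev 6 : V K) ∈ lvP_pt p' q' := by
    rw [← h]
    exact Submodule.mem_span_singleton_self _
  obtain ⟨c, hc⟩ := Submodule.mem_span_singleton.1 h1
  have h5 := congrFun hc 5
  have h6 := congrFun hc 6
  rw [Pi.smul_apply, smul_eq_mul, lvP_co5, lvP_co5] at h5
  rw [Pi.smul_apply, smul_eq_mul, lvP_co6, lvP_co6] at h6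
  rw [← h5, ← h6]
  ring

theorem lvP_pt_of {p q p' q' : K} (h : p ≠ 0 ∨ q ≠ 0) (h' : p' ≠ 0 ∨ q' ≠ 0)
    (e : p * q' = p' * q) : lvP_pt p q = lvP_pt p' q' := by
  by_cases hp : p = 0
  · subst hp
    have hq : q ≠ 0 := h.resolve_left (fun h1 => h1 rfl)
    rw [zero_mul] at e
    have hp' : p' = 0 := (mul_eq_zero.1 e.symm).resolve_right hq
    subst hp'
    have hq' : q' ≠ 0 := h'.resolve_left (fun h1 => h1 rfl)
    have := lvP_pt_smul (div_ne_zero hq hq') 0 q'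
    rw [mul_zero, div_mul_cancel₀ _ hq'] at this
    exact this
  · have hp' : p' ≠ 0 := by
      intro h0
      rw [h0, zero_mul] at e
      have := (mul_eq_zero.1 e).resolve_left hp
      rcases h' with h1 | h1
      · exact h1 h0
      · exact h1 this
    have := lvP_pt_smul (div_ne_zero hp hp') p' q'
    rw [div_mul_cancel₀ _ hp', div_mul_eq_mul_div, e, mul_div_cancel_left₀ _ hp'] at this
    exact this

/-- the points of the plane -/
def lvP_L (K : Type) [Field K] : Set (Submodule K (V K)) :=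
  {W | ∃ p q : K, (p ≠ 0 ∨ q ≠ 0) ∧ W = lvP_pt p q}

theorem lvP_pt01 : lvP_pt (0 : K) 1 = Submodule.span K {ev 6} := by
  unfold lvP_pt
  rw [zero_smul, one_smul, zero_add]

theorem lvP_pt10 : lvP_pt (1 : K) 0 = Submodule.span K {ev 5} := by
  unfold lvP_pt
  rw [zero_smul, one_smul, add_zero]

theorem lvP_act (g : EE K) (p q : K) :
    lact g (lvP_pt p q) = Submodule.span K {p • g (ev 5) + q • g (ev 6)} := by
  rw [lact_apply]
  unfold lvP_pt
  rw [Submodule.map_span, Set.image_singleton]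
  congr 2
  show g _ = _
  rw [map_add, map_smul, map_smul]

theorem lvP_act' {g : EE K} {a b c d : K} (h5 : g (ev 5) = a • ev 5 + b • ev 6)
    (h6 : g (ev 6) = c • ev 5 + d • ev 6) (p q : K) :
    lact g (lvP_pt p q) = lvP_pt (a * p + c * q) (b * p + d * q) := by
  rw [lvP_act, h5, h6]
  unfold lvP_pt
  congr 2
  module

/-- points different from `x0` -/
theorem lvP_ne0 {W : Submodule K (V K)} (hW : W ∈ lvP_L K) (h : W ≠ lvP_pt 0 1) :
    ∃ q : K, W = lvP_pt 1 q := by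
  obtain ⟨p, q, hpq, rfl⟩ := hW
  by_cases hp : p = 0
  · exfalso
    apply h
    subst hp
    have hq : q ≠ 0 := by
      rcases hpq with h1 | h1
      · exact absurd rfl h1
      · exact h1
    have := lvP_pt_smul hq 0 1
    rw [mul_zero, mul_one] at this
    exact this
  · refine ⟨p⁻¹ * q, ?_⟩
    rw [← lvP_pt_smul hp 1 (p⁻¹ * q), mul_one, mul_inv_cancel_left₀ hp]

/-- points different from `x1` -/
theorem lvP_ne1 {W : Submodule K (V K)} (hW : W ∈ lvP_L K) (h : W ≠ lvP_pt 1 0) :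
    ∃ p : K, W = lvP_pt p 1 := by
  obtain ⟨p, q, hpq, rfl⟩ := hW
  by_cases hq : q = 0
  · exfalso
    apply h
    subst hq
    have hp : p ≠ 0 := by
      rcases hpq with h1 | h1
      · exact h1
      · exact absurd rfl h1
    have := lvP_pt_smul hp 1 0
    rw [mul_zero, mul_one] at this
    exact this
  · refine ⟨q⁻¹ * p, ?_⟩
    rw [← lvP_pt_smul hq (q⁻¹ * p) 1, mul_one, mul_inv_cancel_left₀ hq]

theorem lvP_span_eq {g : EE K} {i j : Fin 7}
    (h : lact g (Submodule.span K {ev i}) = Submodule.span K {ev j}) :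
    ∃ c : K, g (ev i) = c • ev j := by
  rw [lact_apply, Submodule.map_span, Set.image_singleton] at h
  have h1 : g (ev i) ∈ Submodule.span K {(ev j : V K)} := by
    rw [← h]
    exact Submodule.mem_span_singleton_self _
  obtain ⟨c, hc⟩ := Submodule.mem_span_singleton.1 h1
  exact ⟨c, hc.symm⟩

/-- a binary quadratic form with three zeros is zero -/
theorem lvP_quad {a b c p q p' q' p'' q'' : K} (h1 : a * p ^ 2 + b * (p * q) + c * q ^ 2 = 0)
    (h2 : a * p' ^ 2 + b * (p' * q') + c * q' ^ 2 = 0)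
    (h3 : a * p'' ^ 2 + b * (p'' * q'') + c * q'' ^ 2 = 0)
    (h12 : p * q' ≠ p' * q) (h13 : p * q'' ≠ p'' * q) (h23 : p' * q'' ≠ p'' * q') :
    a = 0 ∧ b = 0 ∧ c = 0 := by
  have hD : (p * q' - p' * q) * (p * q'' - p'' * q) * (p' * q'' - p'' * q') ≠ 0 :=
    mul_ne_zero (mul_ne_zero (sub_ne_zero.2 h12) (sub_ne_zero.2 h13)) (sub_ne_zero.2 h23)
  refine ⟨?_, ?_, ?_⟩
  · apply (mul_eq_zero.1 (?_ : a * ((p * q' - p' * q) * (p * q'' - p'' * q) *
      (p' * q'' - p'' * q')) = 0)).resolve_right hD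
    linear_combination (p' * q'' - p'' * q') * q' * q'' * h1 -
      (p * q'' - p'' * q) * q * q'' * h2 + (p * q' - p' * q) * q * q' * h3
  · apply (mul_eq_zero.1 (?_ : b * ((p * q' - p' * q) * (p * q'' - p'' * q) *
      (p' * q'' - p'' * q')) = 0)).resolve_right hD
    linear_combination -(p' * q'' - p'' * q') * (p' * q'' + p'' * q') * h1 +
      (p * q'' - p'' * q) * (p * q'' + p'' * q) * h2 -
      (p * q' - p' * q) * (p * q' + p' * q) * h3
  · apply (mul_eq_zero.1 (?_ : c * ((p * q' - p' * q) * (p * q'' - p'' * q) *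
      (p' * q'' - p'' * q')) = 0)).resolve_right hD
    linear_combination (p' * q'' - p'' * q') * p' * p'' * h1 -
      (p * q'' - p'' * q) * p * p'' * h2 + (p * q' - p' * q) * p * p' * h3

theorem lvP_card (hK : Ok K) : 8 ≤ (lvP_L K).ncard := by
  haveI := ok_finite hK
  have hinj : Function.Injective (fun a : Option K => match a with
      | none => lvP_pt (0 : K) 1
      | some q => lvP_pt 1 q) := by
    rintro (_ | a) (_ | b) hab
    · rfl
    · have := lvP_pt_eq hab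
      simp at this
    · have := lvP_pt_eq hab
      simp at this
    · have := lvP_pt_eq hab
      rw [one_mul, one_mul] at this
      rw [this]
  have h1 := Set.ncard_univ (Option K)
  have h2 := Set.ncard_image_of_injective (Set.univ : Set (Option K)) hinj
  have h3 : ((fun a : Option K => match a with
      | none => lvP_pt (0 : K) 1
      | some q => lvP_pt 1 q) '' Set.univ) ⊆ lvP_L K := by
    rintro _ ⟨(_ | a), -, rfl⟩
    · exact ⟨0, 1, Or.inr one_ne_zero, rfl⟩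
    · exact ⟨1, a, Or.inl one_ne_zero, rfl⟩
  have h4 := Set.ncard_le_ncard h3 (Set.toFinite _)
  rw [h2, h1, Finite.card_option] at h4
  rcases hK with h | h
  · omega
  · omega

theorem lvP_U_le (hK : Ok K) {F : Subgroup (EE K)} (hF : Ov F) {r : Rt} (hr : dr (2, -1) r = 0)
    {f : EE K} (hf : f ∈ F ⊓ Dg K (2, -1)) {t : Kˣ × Kˣ} {s : K} (h : f = tor t * X r s)
    (hs : s ≠ 0) : lvP_U K r ≤ F ⊓ Dg K (2, -1) := by
  have h1 : X r s ∈ F := by
    have h2 : X r s = (tor t)⁻¹ * f := by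
      rw [h, inv_mul_cancel_left]
    rw [h2]
    exact mul_mem (inv_mem (hF.1 (tor_mem_TT t))) (Subgroup.mem_inf.1 hf).1
  have h2 := ok_mem_SF hK hs h1
  rintro _ ⟨s', rfl⟩
  exact Subgroup.mem_inf.2 ⟨h2 s', X_mem_Dg hr s'⟩

theorem lvP (hK : Ok K) {F : Subgroup (EE K)} (hF : Ov F) {l : EE K} (hlF : l ∈ F)
    (hl : l ∈ Dg K (2, -1)) : ∃ c ∈ GS K (SF F), c⁻¹ * l ∈ NN K := by
  haveI := ok_finite hK
  have h01 : lvP_pt (0 : K) 1 ≠ lvP_pt 1 0 := by
    intro h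
    have := lvP_pt_eq h
    simp at this
  have hx0 : lvP_pt (0 : K) 1 ∈ lvP_L K := ⟨0, 1, Or.inr one_ne_zero, rfl⟩
  have hx1 : lvP_pt (1 : K) 0 ∈ lvP_L K := ⟨1, 0, Or.inl one_ne_zero, rfl⟩
  have htor5 : ∀ t : Kˣ × Kˣ, tor t (ev 5 : V K) = (ch (wt 5) t : K) • ev 5 + (0 : K) • ev 6 := by
    intro t
    rw [tor_ev, zero_smul, add_zero]
  have htor6 : ∀ t : Kˣ × Kˣ, tor t (ev 6 : V K) = (0 : K) • ev 5 + (ch (wt 6) t : K) • ev 6 := by
    intro t
    rw [tor_ev, zero_smul, zero_add]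
  have hX45 : ∀ s : K, X 4 s (ev 5) = (1 : K) • ev 5 + (-s) • ev 6 := by
    intro s
    rw [lvP_X4_5]
    module
  have hX46 : ∀ s : K, X 4 s (ev 6) = (0 : K) • ev 5 + (1 : K) • ev 6 := by
    intro s
    rw [lvP_X4_6]
    module
  have hX56 : ∀ s : K, X 5 s (ev 6) = (-s) • ev 5 + (1 : K) • ev 6 := by
    intro s
    rw [lvP_X5_6]
    module
  have hX55 : ∀ s : K, X 5 s (ev 5) = (1 : K) • ev 5 + (0 : K) • ev 6 := by
    intro s
    rw [lvP_X5_5]
    module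
  have hRK := RK (lact (K := K) (M := V K)) (F ⊓ Dg K (2, -1)) (TT K)
    (le_inf hF.1 (TT_le_Dg _)) (fun s hs t ht => TT_comm s t hs ht) (lvP_L K) (Set.toFinite _)
    (lvP_card hK)
    (by
      rintro f hf _ ⟨p, q, hpq, rfl⟩
      have hfD := (Subgroup.mem_inf.1 hf).2
      rw [lvP_act' (lvP_5 hfD) (lvP_6 hfD)]
      refine ⟨_, _, ?_, rfl⟩
      by_contra hcon
      push Not at hcon
      have h1 : f (p • ev 5 + q • ev 6) = 0 := by
        rw [map_add, map_smul, map_smul, lvP_5 hfD, lvP_6 hfD]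
        have h2 : p • (f (ev 5) 5 • ev 5 + f (ev 5) 6 • ev 6) +
            q • (f (ev 6) 5 • ev 5 + f (ev 6) 6 • ev 6) =
            (f (ev 5) 5 * p + f (ev 6) 5 * q) • ev 5 +
            (f (ev 5) 6 * p + f (ev 6) 6 * q) • (ev 6 : V K) := by
          module
        rw [h2, hcon.1, hcon.2, zero_smul, zero_smul, add_zero]
      have h2 := f.map_eq_zero_iff.1 h1
      have h5 := congrFun h2 5
      have h6 := congrFun h2 6
      rw [lvP_co5] at h5
      rw [lvP_co6] at h6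
      rcases hpq with h | h
      · exact h h5
      · exact h h6)
    hx0 hx1 h01
    (by
      rintro _ ⟨t, rfl⟩
      rw [lvP_act' (htor5 t) (htor6 t), mul_zero, zero_mul, zero_add, mul_zero, zero_add, mul_one]
      have := lvP_pt_smul (ch (wt 6) t).ne_zero (0 : K) 1
      rw [mul_zero, mul_one] at this
      exact this)
    (by
      rintro _ ⟨t, rfl⟩
      rw [lvP_act' (htor5 t) (htor6 t), mul_zero, zero_mul, add_zero, mul_zero, add_zero, mul_one]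
      have := lvP_pt_smul (ch (wt 5) t).ne_zero (1 : K) 0
      rw [mul_zero, mul_one] at this
      exact this)
    (by
      intro x hx y hy hx0' hx1' hy0' hy1'
      obtain ⟨a, rfl⟩ := lvP_ne0 hx hx0'
      obtain ⟨b, rfl⟩ := lvP_ne0 hy hy0'
      have ha : a ≠ 0 := by
        intro h
        rw [h] at hx1'
        exact hx1' rfl
      have hb : b ≠ 0 := by
        intro h
        rw [h] at hy1'
        exact hy1' rfl
      refine ⟨tor (Units.mk0 (b / a) (div_ne_zero hb ha), 1), tor_mem_TT _, ?_⟩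
      rw [lvP_act' (htor5 _) (htor6 _)]
      have e5 : ((ch (wt 5) (Units.mk0 (b / a) (div_ne_zero hb ha), 1) : Kˣ) : K) = 1 := by
        simp [ch, wt]
      have e6 : ((ch (wt 6) (Units.mk0 (b / a) (div_ne_zero hb ha), 1) : Kˣ) : K) = b / a := by
        simp [ch, wt]
      rw [e5, e6, div_mul_cancel₀ _ ha, zero_mul, zero_mul, mul_one, add_zero, zero_add])
    (by
      rintro f hf ⟨_, ⟨p, q, hp, rfl⟩, _, ⟨p', q', hp', rfl⟩, _, ⟨p'', q'', hp'', rfl⟩, hab, hac,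
        hbc, h1, h2, h3⟩ _ ⟨u, v, -, rfl⟩
      have hfD := (Subgroup.mem_inf.1 hf).2
      rw [lvP_act' (lvP_5 hfD) (lvP_6 hfD)] at h1 h2 h3
      have h1 := lvP_pt_eq h1
      have h2 := lvP_pt_eq h2
      have h3 := lvP_pt_eq h3
      have hv5 := lvP_5 hfD
      have hv6 := lvP_6 hfD
      generalize f (ev 5) 5 = a at h1 h2 h3 hv5
      generalize f (ev 5) 6 = b at h1 h2 h3 hv5
      generalize f (ev 6) 5 = c at h1 h2 h3 hv6
      generalize f (ev 6) 6 = d at h1 h2 h3 hv6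
      obtain ⟨e1, e2, e3⟩ := lvP_quad (a := -b) (b := a - d) (c := c) (p := p) (q := q) (p' := p')
        (q' := q') (p'' := p'') (q'' := q'') (by linear_combination h1)
        (by linear_combination h2) (by linear_combination h3)
        (fun h => hab (lvP_pt_of hp hp' h)) (fun h => hac (lvP_pt_of hp hp'' h))
        (fun h => hbc (lvP_pt_of hp' hp'' h))
      have e1 : b = 0 := neg_eq_zero.1 e1
      have e2 : a = d := sub_eq_zero.1 e2
      subst e1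
      subst e2
      subst e3
      have ha : a ≠ 0 := by
        intro h0
        rw [h0, zero_smul, zero_smul, add_zero] at hv5
        exact lvP_ev_ne 5 (f.map_eq_zero_iff.1 hv5)
      rw [lvP_act' hv5 hv6, zero_mul, zero_mul, add_zero, zero_add, lvP_pt_smul ha])
    (lvP_U K 4) (lvP_U K 5)
    (by
      rintro _ ⟨s, rfl⟩
      rw [lvP_act' (hX45 s) (hX46 s)]
      congr 1 <;> ring)
    (by
      rintro _ ⟨s, rfl⟩
      rw [lvP_act' (hX55 s) (hX56 s)]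
      congr 1 <;> ring)
    (by
      intro x hx y hy hx0' hy0'
      obtain ⟨a, rfl⟩ := lvP_ne0 hx hx0'
      obtain ⟨b, rfl⟩ := lvP_ne0 hy hy0'
      refine ⟨X 4 (a - b), ⟨_, rfl⟩, ?_⟩
      rw [lvP_act' (hX45 _) (hX46 _)]
      congr 1 <;> ring)
    (by
      intro x hx y hy hx0' hy0'
      obtain ⟨a, rfl⟩ := lvP_ne1 hx hx0'
      obtain ⟨b, rfl⟩ := lvP_ne1 hy hy0'
      refine ⟨X 5 (a - b), ⟨_, rfl⟩, ?_⟩
      rw [lvP_act' (hX55 _) (hX56 _)]
      congr 1 <;> ring)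
    (by
      intro f hf h0 h1
      rw [lvP_pt01] at h0
      obtain ⟨c, hc⟩ := lvP_span_eq h0
      obtain ⟨t, s, hts⟩ := lvP_diag hK (Subgroup.mem_inf.1 hf).2 hc
      apply lvP_U_le hK hF (by decide) hf hts
      intro hs
      apply h1
      rw [hts, hs, X_zero, mul_one, lvP_act' (htor5 t) (htor6 t), mul_zero, zero_mul, add_zero,
        mul_zero, add_zero, mul_one]
      have := lvP_pt_smul (ch (wt 5) t).ne_zero (1 : K) 0
      rw [mul_zero, mul_one] at this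
      exact this)
    (by
      intro f hf h0 h1
      rw [lvP_pt10] at h0
      obtain ⟨c, hc⟩ := lvP_span_eq h0
      obtain ⟨t, s, hts⟩ := lvP_diag' hK (Subgroup.mem_inf.1 hf).2 hc
      apply lvP_U_le hK hF (by decide) hf hts
      intro hs
      apply h1
      rw [hts, hs, X_zero, mul_one, lvP_act' (htor5 t) (htor6 t), mul_zero, zero_mul, zero_add,
        mul_zero, zero_add, mul_one]
      have := lvP_pt_smul (ch (wt 6) t).ne_zero (0 : K) 1
      rw [mul_zero, mul_one] at this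
      exact this)
  obtain ⟨c, hcF, hc, h⟩ := hRK l (Subgroup.mem_inf.2 ⟨hlF, hl⟩)
  refine ⟨c, ?_, ?_⟩
  · revert hc
    apply Subgroup.closure_le _ |>.2
    rintro u (⟨⟨s, rfl⟩, hu⟩ | ⟨⟨s, rfl⟩, hu⟩)
    · have h4 : (4 : Rt) ∈ SF F := fun s' => (Subgroup.mem_inf.1 (hu ⟨s', rfl⟩)).1
      exact X_mem_GS h4 s
    · have h5 : (5 : Rt) ∈ SF F := fun s' => (Subgroup.mem_inf.1 (hu ⟨s', rfl⟩)).1
      exact X_mem_GS h5 s
  · have hm : c⁻¹ * l ∈ Dg K (2, -1) := mul_mem (inv_mem (Subgroup.mem_inf.1 hcF).2) hl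
    generalize c⁻¹ * l = m at h hm
    have hinv : ∀ x y, lact m x = y → lact m⁻¹ y = x := by
      intro x y hxy
      rw [map_inv, ← hxy]
      exact Equiv.symm_apply_apply (lact m) x
    rw [lvP_pt01, lvP_pt10] at h
    refine ⟨(mem_Dg.1 hm).1, lvP_mono hm ?_, lvP_mono (inv_mem hm) ?_⟩
    · rcases h with ⟨h1, h2⟩ | ⟨h1, h2⟩
      · obtain ⟨b, hb⟩ := lvP_span_eq h1
        obtain ⟨a, ha⟩ := lvP_span_eq h2
        exact Or.inl ⟨a, b, ha, hb⟩
      · obtain ⟨b, hb⟩ := lvP_span_eq h1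
        obtain ⟨a, ha⟩ := lvP_span_eq h2
        exact Or.inr ⟨a, b, ha, hb⟩
    · rcases h with ⟨h1, h2⟩ | ⟨h1, h2⟩
      · obtain ⟨b, hb⟩ := lvP_span_eq (hinv _ _ h1)
        obtain ⟨a, ha⟩ := lvP_span_eq (hinv _ _ h2)
        exact Or.inl ⟨a, b, ha, hb⟩
      · obtain ⟨a, ha⟩ := lvP_span_eq (hinv _ _ h1)
        obtain ⟨b, hb⟩ := lvP_span_eq (hinv _ _ h2)
        exact Or.inr ⟨a, b, ha, hb⟩

end Pool.Agent.H40.GT
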