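import Pool.Agent.H40.GT.PrC
import Pool.Agent.H40.GT.ShE
import Pool.Agent.H40.GT.LgG
import Pool.Agent.H40.GT.Uni

/-!
# GT-80 the main theorem
-/

namespace Pool.Agent.H40.GT

variable {K : Type} [Field K]

theorem std_all (hK : Ok K) {F : Subgroup (EE K)} (hF : Ov F) : Std F := by
  by_cases h : ∃ r ∈ SF F, (r : Rt).val < 6
  · obtain ⟨r, hr, hr6⟩ := h
    exact long_std hK hF hr6 hr
  · push Not at h
    rcases (SF F).eq_empty_or_nonempty with he | hne
    · intro f hf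
      refine ⟨1, one_mem _, ?_⟩
      rw [inv_one, one_mul]
      exact propC hK hF he hf
    · exact short_std hK hF h hne

/-- the main theorem: standard description of the groups between the torus and `G_2` -/
theorem GT_main (hK : Ok K) (F : Subgroup (EE K)) (h1 : TT K ≤ F) (h2 : F ≤ GG K) :
    ∃! S : Set Rt, Cl S ∧ GS K S ≤ F ∧ ∀ f ∈ F, ∀ g ∈ GS K S, f * g * f⁻¹ ∈ GS K S := by
  have hF : Ov F := ⟨h1, h2⟩
  refine ⟨SF F, ⟨Clo hK hF, GS_SF_le hF, ?_⟩, ?_⟩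
  · intro f hf g hg
    obtain ⟨c, hc, hn⟩ := std_all hK hF f hf
    have hcF := GS_SF_le hF hc
    have hnF : c⁻¹ * f ∈ F := F.mul_mem (F.inv_mem hcF) hf
    have h3 := GSn_perm (ok_two hK) hn hnF hg
    have h4 : f * g * f⁻¹ = c * (c⁻¹ * f * g * (c⁻¹ * f)⁻¹) * c⁻¹ := by group
    rw [h4]
    exact (GS K (SF F)).mul_mem ((GS K (SF F)).mul_mem hc h3) ((GS K (SF F)).inv_mem hc)
  · rintro S ⟨hS, h3, h4⟩
    exact SF_unique hK hS hF h3 h4

end Pool.Agent.H40.GT
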