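import Pool.Agent.H40.GT.Sw

/-!
# GT-22 no column with exactly one zero entry

Let `f ∈ F` (`MG F`, matrices over `ZMod 7`), `f l k = 0`, the other two entries of column `k` nonzero.
Write `(i, j) = (k+1, k+2)`, `(i', j') = (l+1, l+2)` (indices in `Fin 3`).

Step 1.  `h` = the diagonal matrix with entries `3, 3` at `i', j'` and `4 = -3` at `l` (product
`36 = 1`), so `h ∈ F`, `g = f⁻¹ h f ∈ F`.  Let `u` = column `l` of `f⁻¹`, `v` = row `l` of `f`: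
`∑ v_r u_r = 1`, `v_k = 0`, `g r c = 3 (δ_rc - 2 u_r v_c)`.  Column `k` of `g` is `3 e_k`, so `g` is
monomial (`mon`), and as `g` is invertible each row has exactly one nonzero entry.  Row `k`:
`u_k v_i = u_k v_j = 0`, so `u_k = 0` (`v ≠ 0`).  On `{i, j}` the matrix `δ - 2 u v^T` is monomial.
If it is diagonal: `u_i v_j = 0 = u_j v_i`, so `u = u_i e_i` or `u = u_j e_j`, i.e. `f e_i`
(or `f e_j`) is a multiple of `e_l`, and `f` is monomial by `mon`: contradiction.  Otherwise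
`u_i v_i = u_j v_j = 4`  (`1 - 2 u_i v_i = 0`; `4 = 1/2`), in particular all nonzero.
Step 2.  `h'` = diagonal with `3, 3` at `i, j` and `4` at `k`; `g' = f h' f⁻¹ ∈ F`; `u'` = column `k`
of `f`, `v'` = row `k` of `f⁻¹`: `g' r c = 3 (δ_rc - 2 u'_r v'_c)`, `u'_l = 0`, `v'_l = u_k = 0`.
Column `l` of `g'` is `3 e_l`: `g'` is monomial.  On `{i', j'}`: diagonal is impossible (`u'_i', u'_j' ≠ 0`
and `v' ≠ 0`), so `u'_i' v'_i' = u'_j' v'_j' = 4`.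
Step 3.  `f (u_i e_i + u_j e_j) = e_l`.  Let `w = u_i e_i - u_j e_j`: row `l` of `f` kills `w`
(`v_i u_i = v_j u_j`), and row `k` of `f⁻¹` kills `f w` (`w_k = 0`), so
`f w = γ (u'_i' e_i' - u'_j' e_j')`, `γ ≠ 0`.  `f e_k = u'_i' e_i' + u'_j' e_j'`.
Step 4.  For `s = ±1`, `d = s γ`, let `S` = diagonal with entries `s u_i, -s u_j` at `i, j` and
`-(s^2 u_i u_j)⁻¹` at `k`, `D` = diagonal with entries `(d u'_i')⁻¹, (d u'_j')⁻¹` at `i', j'` and
`d^2 u'_i' u'_j'` at `l`; both in `F`.  `f' = D f S ∈ F` satisfies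
`f' (e_i + e_j) = e_i' - e_j'`, `f' e_k = α (e_i' + e_j')`, `f' (e_i - e_j) = β e_l` with
`α = - (s^3 γ u_i u_j)⁻¹`, and `det f' = 1` gives `β = α⁻¹`.  Choose the sign `s` such that
`α ∈ {1, 2, 3}`: then `f' = nf k l a` with `a + 1 = α`, contradiction to `nf_not`.
-/

namespace Pool.Agent.H40.GT

open Matrix in
/-- shifted matrix -/
def Mn_sh (l k : Fin 3) (M : M7) : M7 := M.submatrix (Equiv.addLeft l) (Equiv.addLeft k)

theorem Mn_sh_apply (l k : Fin 3) (M : M7) (r c : Fin 3) : Mn_sh l k M r c = M (l + r) (k + c) := rfl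

theorem Mn_sh_mul (l k m : Fin 3) (M N : M7) : Mn_sh l k M * Mn_sh k m N = Mn_sh l m (M * N) :=
  Matrix.submatrix_mul_equiv _ _ _ _ _

theorem Mn_sh_one (l : Fin 3) : Mn_sh l l 1 = 1 := Matrix.submatrix_one_equiv _

theorem Mn_sh_inj (l k : Fin 3) {M N : M7} (h : Mn_sh l k M = Mn_sh l k N) : M = N := by
  ext i j
  have h1 := congrFun (congrFun h (i - l)) (j - k)
  rw [Mn_sh_apply, Mn_sh_apply, add_sub_cancel, add_sub_cancel] at h1
  exact h1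

theorem Mn_sh_det (l k : Fin 3) (M : M7) : (Mn_sh l k M).det = M.det := by
  rw [Matrix.det_fin_three, Matrix.det_fin_three]
  simp only [Mn_sh_apply]
  fin_cases l <;> fin_cases k <;> simp <;> ring

theorem Mn_dia {F : Set M7} (hF : MG F) (l : Fin 3) (a b c : ZMod 7) (h : a * b * c = 1) :
    ∃ M ∈ F, Mn_sh l l M = Matrix.diagonal ![a, b, c] := by
  fin_cases l
  · refine ⟨dm (a, b, c), hF.dia _ _ _ h, ?_⟩
    ext r s
    rw [Mn_sh_apply]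
    fin_cases r <;> fin_cases s <;> simp [dm]
  · refine ⟨dm (c, a, b), hF.dia _ _ _ (by rw [← h]; ring), ?_⟩
    ext r s
    rw [Mn_sh_apply]
    fin_cases r <;> fin_cases s <;> simp [dm]
  · refine ⟨dm (b, c, a), hF.dia _ _ _ (by rw [← h]; ring), ?_⟩
    ext r s
    rw [Mn_sh_apply]
    fin_cases r <;> fin_cases s <;> simp [dm]

theorem Mn_mon {F : Set M7} (hF : MG F) {M : M7} (hM : M ∈ F) (l k : Fin 3) (j r : Fin 3)
    (h : ∀ i, i ≠ r → Mn_sh l k M i j = 0) (j' : Fin 3) :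
    ∃ r', ∀ i, i ≠ r' → Mn_sh l k M i j' = 0 := by
  obtain ⟨l', h'⟩ := hF.mon M hM (k + j) (l + r) (fun i hi => by
    have h1 := h (i - l) (fun h2 => hi (by rw [← h2]; abel))
    rw [Mn_sh_apply, add_sub_cancel] at h1
    exact h1) (k + j')
  refine ⟨l' - l, fun i hi => ?_⟩
  rw [Mn_sh_apply]
  exact h' _ (fun h2 => hi (by rw [← h2]; abel))

/-- the shifted normal forms -/
def Mn_N (a : Fin 3) : M7 := fun r c =>
  ![![0, ![4, 2, 6] a, ![3, 5, 1] a], ![![1, 2, 3] a, 4, 4], ![![1, 2, 3] a, 3, 3]] r c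

theorem Mn_nf (k l a : Fin 3) : Mn_sh l k (nf k l a) = Mn_N a := by
  ext r c
  have h : ∀ k l a r c : Fin 3, nf k l a (l + r) (k + c) - Mn_N a r c = 0 := by decide
  exact sub_eq_zero.1 (h k l a r c)

theorem Mn_A {K : Type} [Field K] (h7 : (7 : K) = 0) (h1 : (3:K) ≠ 0) (u0 u1 u2 v1 v2 : K) (hs : v1 * u1 + v2 * u2 = 1)
  (c1 : (3 + u1 * v1 = 0 ∧ u2 * v1 = 0) ∨ (u0 * v1 = 0 ∧ u2 * v1 = 0) ∨ (u0 * v1 = 0 ∧ 3 + u1 * v1 = 0))
  (c2 : (u1 * v2 = 0 ∧ 3 + u2 * v2 = 0) ∨ (u0 * v2 = 0 ∧ 3 + u2 * v2 = 0) ∨ (u0 * v2 = 0 ∧ u1 * v2 = 0)) :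
  (u0 = 0 ∧ u2 = 0) ∨ (u0 = 0 ∧ u1 = 0) ∨ (u0 = 0 ∧ u1 * v1 = 4 ∧ u2 * v2 = 4) := by
  grind

theorem Mn_B {K : Type} [Field K] (h7 : (7 : K) = 0) (h3 : (3:K) ≠ 0) (p q w1 w2 : K)
  (hs : w1 * p + w2 * q = 1) (c1 : 3 + p * w1 = 0 ∨ q * w1 = 0) (c2 : p * w2 = 0 ∨ 3 + q * w2 = 0) (hp : p ≠ 0) (hq : q ≠ 0) :
  p * w1 = 4 ∧ q * w2 = 4 := by
  grind

theorem Mn_C {K : Type} [Field K] (h7 : (7 : K) = 0) (h3 : (3:K) ≠ 0)
   (v1 v2 p q a b c d x y w1 w2 : K) (e1: x*v1=4) (e2: y*v2=4) (e3: p*w1=4) (e4: q*w2=4)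
   (e5: a*x+b*y=0) (e6: c*x+d*y=0) (e7: w1*a+w2*c=0) (e8: w1*b+w2*d=0)
   (det: -v1*(p*d-b*q)+v2*(p*c-a*q)=1) :
   x ≠ 0 ∧ y ≠ 0 ∧ a * q = 3 * y ∧ b * q = -3 * x ∧ c * p = - 3 * y ∧ d * p = 3 * x := by
  have h4 : (4 : K) ≠ 0 := by
    intro h
    apply h3
    linear_combination h7 - h
  have hx : x ≠ 0 := by
    rintro rfl
    apply h4
    rw [← e1, zero_mul]
  have hy : y ≠ 0 := by
    rintro rfl
    apply h4
    rw [← e2, zero_mul]
  have e9 : q * a + p * c = 0 := by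
    apply (mul_eq_zero.1 (_ : 4 * (q * a + p * c) = 0)).resolve_left h4
    linear_combination p * q * e7 - q * a * e3 - p * c * e4
  have e10 : q * b + p * d = 0 := by
    apply (mul_eq_zero.1 (_ : 4 * (q * b + p * d) = 0)).resolve_left h4
    linear_combination p * q * e8 - q * b * e3 - p * d * e4
  have e11 : a * q = 3 * y := by
    apply mul_left_cancel₀ hx
    have : x * y * (-v1*(p*d-b*q)+v2*(p*c-a*q)) = x * y := by rw [det, mul_one]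
    have h5 : -16 * (a * q * x) = x * y := by
      rw [← this]
      linear_combination (p*d-b*q) * y * e1 - x * (p*c-a*q) * e2 - (-4 * y) * e10 - 4 * x * e9 - 8 * q * e5
    linear_combination 3 * h5 + 7 * (a * q * x) * h7
  have e12 : b * q = - 3 * x := by
    apply mul_left_cancel₀ hy
    linear_combination q * e5 - x * e11
  exact ⟨hx, hy, e11, e12, by linear_combination e9 - e11, by linear_combination e10 - e12⟩

theorem Mn_D {K : Type} [Field K] (h7 : (7 : K) = 0)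
   (v1 v2 p q a b c d x y s α ai : K) (e1: x*v1=4) (e2: y*v2=4) (hx : x ≠ 0) (hy : y ≠ 0)
   (hp : p ≠ 0) (hq : q ≠ 0)
   (ea : a * q = 3 * y) (eb : b * q = -3 * x) (ec : c * p = - 3 * y) (ed : d * p = 3 * x)
   (hs: s*s=1) (ha: α*ai=1) (hr: α*s*x^2*y^2=p*q) :
   (s * ai) * (-q * s * x⁻¹ * y⁻¹) * (-p * s * x⁻¹ * y⁻¹) = 1 ∧
   (- α * s * x * y * p⁻¹ * q⁻¹) * (s * x) * (- s * y) = 1 ∧
   s * ai * v1 * (s * x) = 4 * ai ∧ s * ai * v2 * (- s * y) = - 4 * ai ∧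
   (-q * s * x⁻¹ * y⁻¹) * p * (- α * s * x * y * p⁻¹ * q⁻¹) = α ∧
   (-q * s * x⁻¹ * y⁻¹) * a * (s * x) = 4 ∧ (-q * s * x⁻¹ * y⁻¹) * b * (- s * y) = 4 ∧
   (-p * s * x⁻¹ * y⁻¹) * q * (- α * s * x * y * p⁻¹ * q⁻¹) = α ∧
   (-p * s * x⁻¹ * y⁻¹) * c * (s * x) = 3 ∧ (-p * s * x⁻¹ * y⁻¹) * d * (- s * y) = 3 := by
  have hh : (-3 : K) = 4 := by linear_combination - h7
  refine ⟨?_, ?_, ?_, ?_, ?_, ?_, ?_, ?_, ?_, ?_⟩
  · field_simp
    linear_combination - s ^ 3 * ai * hr + α * ai * x ^ 2 * y ^ 2 * (s ^ 2 + 1) * hs + x ^ 2 * y ^ 2 * ha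
  · field_simp
    linear_combination hr + α * s * x ^ 2 * y ^ 2 * hs
  · linear_combination ai * v1 * x * hs + ai * e1
  · linear_combination - ai * v2 * y * hs - ai * e2
  · field_simp
    linear_combination α * hs
  · rw [← hh]
    field_simp
    linear_combination - s * s * ea - 3 * y * hs
  · rw [← hh]
    field_simp
    linear_combination s * s * eb - 3 * x * hs
  · field_simp
    linear_combination α * hs
  · field_simp
    linear_combination - s * s * ec + 3 * y * hs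
  · field_simp
    linear_combination s * s * ed + 3 * x * hs

theorem Mn_z : ∀ z : ZMod 7, z ≠ 0 → ∃ a : Fin 3, ∃ s : ZMod 7, s * s = 1 ∧
    ![1, 2, 3] a * s = z := by
  decide

theorem Mn_n1 : ∀ a : Fin 3, (4 : ZMod 7) * ![1, 4, 5] a = ![4, 2, 6] a := by decide

theorem Mn_n2 : ∀ a : Fin 3, (-4 : ZMod 7) * ![1, 4, 5] a = ![3, 5, 1] a := by decide

theorem Mn_n3 : (3 : ZMod 7) ≠ 0 := by decide

/-- the data -/
theorem Mn_key {F : Set M7} (hF : MG F) {f : M7} (hf : f ∈ F) (k l : Fin 3)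
    (h0 : Mn_sh l k f 0 0 = 0) (hp : Mn_sh l k f 1 0 ≠ 0) (hq : Mn_sh l k f 2 0 ≠ 0) : False := by
  obtain ⟨g, hg, hfg, hgf⟩ := hF.inv f hf
  have hdet := Mn_sh_det l k f
  rw [hF.det f hf, Matrix.det_fin_three, h0] at hdet
  have e1 : Mn_sh l k f * Mn_sh k l g = 1 := by rw [Mn_sh_mul, hfg, Mn_sh_one]
  have e2 : Mn_sh k l g * Mn_sh l k f = 1 := by rw [Mn_sh_mul, hgf, Mn_sh_one]
  have E1 : ∀ r c, Mn_sh l k f r 0 * Mn_sh k l g 0 c + Mn_sh l k f r 1 * Mn_sh k l g 1 c +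
      Mn_sh l k f r 2 * Mn_sh k l g 2 c = (1 : M7) r c := by
    intro r c
    rw [← e1, Matrix.mul_apply, Fin.sum_univ_three]
  have E2 : ∀ r c, Mn_sh k l g r 0 * Mn_sh l k f 0 c + Mn_sh k l g r 1 * Mn_sh l k f 1 c +
      Mn_sh k l g r 2 * Mn_sh l k f 2 c = (1 : M7) r c := by
    intro r c
    rw [← e2, Matrix.mul_apply, Fin.sum_univ_three]
  -- the matrix of step 1
  obtain ⟨H, hH, hH'⟩ := Mn_dia hF l 4 3 3 (by decide)
  have s1 : ∀ r c, Mn_sh k k (g * H * f) r c =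
      3 * (1 : M7) r c + Mn_sh k l g r 0 * Mn_sh l k f 0 c := by
    intro r c
    rw [← Mn_sh_mul k l k, ← Mn_sh_mul k l l, hH', Matrix.mul_apply, Fin.sum_univ_three,
      Matrix.mul_diagonal, Matrix.mul_diagonal, Matrix.mul_diagonal, ← E2 r c]
    simp
    ring
  have m1 := Mn_mon hF (hF.mul _ (hF.mul _ hg _ hH) _ hf) k k 0 0 (by
    intro i hi
    rw [s1, h0, mul_zero, add_zero, Matrix.one_apply_ne hi, mul_zero])
  simp only [s1] at m1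
  -- the matrix of step 2
  obtain ⟨H2, hH2, hH2'⟩ := Mn_dia hF k 4 3 3 (by decide)
  have s2 : ∀ r c, Mn_sh l l (f * H2 * g) r c =
      3 * (1 : M7) r c + Mn_sh l k f r 0 * Mn_sh k l g 0 c := by
    intro r c
    rw [← Mn_sh_mul l k l, ← Mn_sh_mul l k k, hH2', Matrix.mul_apply, Fin.sum_univ_three,
      Matrix.mul_diagonal, Matrix.mul_diagonal, Matrix.mul_diagonal, ← E1 r c]
    simp
    ring
  have mon := Mn_mon hF hf l k
  have fin : ∀ (δ σ : Fin 3 → ZMod 7) (a : Fin 3), δ 0 * δ 1 * δ 2 = 1 → σ 0 * σ 1 * σ 2 = 1 →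
      (∀ r c, δ r * Mn_sh l k f r c * σ c = Mn_N a r c) → False := by
    intro δ σ a h1 h2 h3
    obtain ⟨D, hD, hD'⟩ := Mn_dia hF l _ _ _ h1
    obtain ⟨S, hS, hS'⟩ := Mn_dia hF k _ _ _ h2
    have h4 : D * f * S = nf k l a := by
      apply Mn_sh_inj l k
      rw [Mn_nf, ← Mn_sh_mul l k k, ← Mn_sh_mul l l k, hD', hS']
      ext r c
      rw [Matrix.mul_diagonal, Matrix.diagonal_mul, ← h3 r c]
      fin_cases r <;> fin_cases c <;> rfl
    exact nf_not hF k l a (h4 ▸ hF.mul _ (hF.mul _ hD _ hf) _ hS)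
  have mon0 : ∀ j, (∀ i, i ≠ 0 → Mn_sh l k f i j = 0) → False := by
    intro j h
    obtain ⟨r', hr⟩ := mon j 0 h 0
    rcases eq_or_ne 1 r' with h1 | h1
    · exact hq (hr 2 (by rw [← h1]; decide))
    · exact hp (hr 1 h1)
  have : Fact (Nat.Prime 7) := ⟨by norm_num⟩
  -- names of the entries
  obtain ⟨M, hM⟩ : ∃ M : M7, M = Mn_sh l k f := ⟨_, rfl⟩
  obtain ⟨W, hW⟩ : ∃ W : M7, W = Mn_sh k l g := ⟨_, rfl⟩
  rw [← hM] at h0 hp hq hdet E1 E2 m1 s2 mon0 fin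
  rw [← hW] at E1 E2 m1 s2
  have o00 : (1 : M7) 0 0 = 1 := rfl
  have o11 : (1 : M7) 1 1 = 1 := rfl
  have o22 : (1 : M7) 2 2 = 1 := rfl
  have o01 : (1 : M7) 0 1 = 0 := rfl
  have o02 : (1 : M7) 0 2 = 0 := rfl
  have o10 : (1 : M7) 1 0 = 0 := rfl
  have o12 : (1 : M7) 1 2 = 0 := rfl
  have o20 : (1 : M7) 2 0 = 0 := rfl
  have o21 : (1 : M7) 2 1 = 0 := rfl
  have h7 : (7 : ZMod 7) = 0 := rfl
  have h3 : (3 : ZMod 7) ≠ 0 := Mn_n3
  have r10 := E1 1 0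
  have r20 := E1 2 0
  have r00 := E1 0 0
  rw [h0, zero_mul, zero_add, o00] at r00
  rw [o10] at r10
  rw [o20] at r20
  have c1 : (3 + W 1 0 * M 0 1 = 0 ∧ W 2 0 * M 0 1 = 0) ∨ (W 0 0 * M 0 1 = 0 ∧ W 2 0 * M 0 1 = 0) ∨
      (W 0 0 * M 0 1 = 0 ∧ 3 + W 1 0 * M 0 1 = 0) := by
    obtain ⟨r', hr⟩ := m1 1
    have a0 := hr 0
    have a1 := hr 1
    have a2 := hr 2
    rw [o01, mul_zero, zero_add] at a0
    rw [o11, mul_one] at a1
    rw [o21, mul_zero, zero_add] at a2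
    fin_cases r'
    · exact Or.inl ⟨a1 (by decide), a2 (by decide)⟩
    · exact Or.inr (Or.inl ⟨a0 (by decide), a2 (by decide)⟩)
    · exact Or.inr (Or.inr ⟨a0 (by decide), a1 (by decide)⟩)
  have c2 : (W 1 0 * M 0 2 = 0 ∧ 3 + W 2 0 * M 0 2 = 0) ∨ (W 0 0 * M 0 2 = 0 ∧ 3 + W 2 0 * M 0 2 = 0) ∨
      (W 0 0 * M 0 2 = 0 ∧ W 1 0 * M 0 2 = 0) := by
    obtain ⟨r', hr⟩ := m1 2
    have a0 := hr 0
    have a1 := hr 1
    have a2 := hr 2
    rw [o02, mul_zero, zero_add] at a0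
    rw [o12, mul_zero, zero_add] at a1
    rw [o22, mul_one] at a2
    fin_cases r'
    · exact Or.inl ⟨a1 (by decide), a2 (by decide)⟩
    · exact Or.inr (Or.inl ⟨a0 (by decide), a2 (by decide)⟩)
    · exact Or.inr (Or.inr ⟨a0 (by decide), a1 (by decide)⟩)
  rcases Mn_A h7 h3 (W 0 0) (W 1 0) (W 2 0) (M 0 1) (M 0 2) r00 c1 c2 with
    ⟨g0, g2⟩ | ⟨g0, g1⟩ | ⟨g0, g1, g2⟩
  · rw [g2, mul_zero, add_zero] at r00 r10 r20
    rw [g0, mul_zero, zero_add] at r10 r20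
    have g1 : W 1 0 ≠ 0 := by
      intro h
      rw [h, mul_zero] at r00
      exact zero_ne_one r00
    apply mon0 1
    intro i hi
    fin_cases i
    · exact absurd rfl hi
    · exact (mul_eq_zero.1 r10).resolve_right g1
    · exact (mul_eq_zero.1 r20).resolve_right g1
  · rw [g1, mul_zero, zero_add] at r00
    rw [g0, g1, mul_zero, mul_zero, zero_add, zero_add] at r10 r20
    have g2 : W 2 0 ≠ 0 := by
      intro h
      rw [h, mul_zero] at r00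
      exact zero_ne_one r00
    apply mon0 2
    intro i hi
    fin_cases i
    · exact absurd rfl hi
    · exact (mul_eq_zero.1 r10).resolve_right g2
    · exact (mul_eq_zero.1 r20).resolve_right g2
  rw [g0, mul_zero, zero_add] at r10 r20
  have m2 := Mn_mon hF (hF.mul _ (hF.mul _ hf _ hH2) _ hg) l l 0 0 (by
    intro i hi
    rw [s2, g0, mul_zero, add_zero, Matrix.one_apply_ne hi, mul_zero])
  simp only [s2] at m2
  have q00 := E2 0 0
  rw [g0, zero_mul, zero_add, o00] at q00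
  have q01 := E2 0 1
  rw [g0, zero_mul, zero_add, o01] at q01
  have q02 := E2 0 2
  rw [g0, zero_mul, zero_add, o02] at q02
  have d1 : 3 + M 1 0 * W 0 1 = 0 ∨ M 2 0 * W 0 1 = 0 := by
    obtain ⟨r', hr⟩ := m2 1
    have a1 := hr 1
    have a2 := hr 2
    rw [o11, mul_one] at a1
    rw [o21, mul_zero, zero_add] at a2
    fin_cases r'
    · exact Or.inl (a1 (by decide))
    · exact Or.inr (a2 (by decide))
    · exact Or.inl (a1 (by decide))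
  have d2 : M 1 0 * W 0 2 = 0 ∨ 3 + M 2 0 * W 0 2 = 0 := by
    obtain ⟨r', hr⟩ := m2 2
    have a1 := hr 1
    have a2 := hr 2
    rw [o12, mul_zero, zero_add] at a1
    rw [o22, mul_one] at a2
    fin_cases r'
    · exact Or.inl (a1 (by decide))
    · exact Or.inr (a2 (by decide))
    · exact Or.inl (a1 (by decide))
  obtain ⟨j1, j2⟩ := Mn_B h7 h3 (M 1 0) (M 2 0) (W 0 1) (W 0 2) q00 d1 d2 hp hq
  obtain ⟨hx, hy, k1, k2, k3, k4⟩ := Mn_C h7 h3 (M 0 1) (M 0 2) (M 1 0) (M 2 0) (M 1 1) (M 1 2)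
    (M 2 1) (M 2 2) (W 1 0) (W 2 0) (W 0 1) (W 0 2) g1 g2 j1 j2 r10 r20 q01 q02
    (by linear_combination hdet)
  obtain ⟨z, hz⟩ : ∃ z, z = M 1 0 * M 2 0 * (W 1 0)⁻¹ ^ 2 * (W 2 0)⁻¹ ^ 2 := ⟨_, rfl⟩
  have hz0 : z ≠ 0 := by
    rw [hz]
    exact mul_ne_zero (mul_ne_zero (mul_ne_zero hp hq) (pow_ne_zero _ (inv_ne_zero hx)))
      (pow_ne_zero _ (inv_ne_zero hy))
  obtain ⟨a, s, hs, ha⟩ := Mn_z z hz0
  have hr : ![1, 2, 3] a * s * (W 1 0) ^ 2 * (W 2 0) ^ 2 = M 1 0 * M 2 0 := by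
    rw [ha, hz]
    field_simp
  have hai : ![1, 2, 3] a * ![1, 4, 5] a = (1 : ZMod 7) := by
    fin_cases a <;> rfl
  obtain ⟨t1, t2, t3, t4, t5, t6, t7, t8, t9, t10⟩ := Mn_D h7 (M 0 1) (M 0 2) (M 1 0) (M 2 0)
    (M 1 1) (M 1 2) (M 2 1) (M 2 2) (W 1 0) (W 2 0) s _ _ g1 g2 hx hy hp hq k1 k2 k3 k4 hs hai hr
  refine fin ![_, _, _] ![_, _, _] a t1 t2 ?_
  intro r c
  fin_cases r <;> fin_cases c
  · show _ * M 0 0 * _ = 0
    rw [h0]
    ring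
  · exact t3.trans (Mn_n1 a)
  · exact t4.trans (Mn_n2 a)
  · exact t5
  · exact t6
  · exact t7
  · exact t8
  · exact t9
  · exact t10

theorem mg_two {F : Set M7} (hF : MG F) {f : M7} (hf : f ∈ F) (k l : Fin 3) (h0 : f l k = 0)
    (h1 : ∀ i, i ≠ l → f i k ≠ 0) : False := by
  refine Mn_key hF hf k l ?_ ?_ ?_
  · rw [Mn_sh_apply, add_zero, add_zero]
    exact h0
  · rw [Mn_sh_apply, add_zero]
    exact h1 _ (by clear h0 h1; revert l; decide)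
  · rw [Mn_sh_apply, add_zero]
    exact h1 _ (by clear h0 h1; revert l; decide)

end Pool.Agent.H40.GT
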