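import Pool.Agent.H40.GT.Prm

/-!
# Part NrA (of NrA, NrB, NrC); GT-03 the monomial group `NN`

Let `g ∈ NN`.  It permutes the coordinate lines by a permutation `σ` of `Fin 7`,
`g e_j = c_j e_(σ j)`, `c_j ≠ 0`.  `bf` is preserved, so `σ 0 = 0` (the only non singular
coordinate vector, `2 ≠ 0`) and `σ` commutes with the involution `j ↔ -j`
(`1↔4, 2↔5, 3↔6`).  `br e_1 e_2 = 2 e_-3 ≠ 0`, so `br e_(σ 1) e_(σ 2) ≠ 0`, which leaves exactly
12 possibilities for `(σ 1, σ 2)` (both in `{1,2,3}` or both in `{4,5,6}`, distinct) and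
`σ 6` (the line of `e_-3`) is determined by `br`.  In each case there is an additive
automorphism `w` of `ℤ × ℤ` with `wt (σ j) = w (wt j)` for all `j` (`w` is given by the images of
`(1,0)`, `(0,1)`: finite check by `decide` over `σ 1, σ 2`), it permutes the roots: `rt (τ r) = w (rt r)`
(finite check).
`g * tor t * g⁻¹ = tor t'`: both sides are diagonal, `t' = (ch (w⁻¹ (1,0)) t, ch (w⁻¹ (0,1)) t)`.
`g * X r s * g⁻¹ = X (τ r) (d r * s)`: `D = g Nl(r) g⁻¹` is a derivation of `br` (as `Nl r` is, by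
a table check) of weight `rt (τ r)`, i.e. `D e_j` is a multiple of `e_i` with
`wt i = wt j + rt (τ r)`; the derivation identity on pairs of basis vectors shows
`D = d • Nl (τ r)` (a lemma `der_weight`, 12 cases); `g Ql(r) g⁻¹ = d^2 Ql(τ r)` because
`Nl^2 = 2 Ql` and `2 ≠ 0`.

Representatives: `nrho` (`e_1→e_2→e_3→e_1`, `e_-1→e_-2→e_-3→e_-1`, `e_0→e_0`), `nref`
(`e_1→e_2`, `e_2→-e_1`, `e_-1→e_-2`, `e_-2→-e_-1`, others fixed), `niot`
(`e_0→-e_0`, `e_i→-e_-i`, `e_-i→-e_i`); all in `GG` (identities checked).  They act transitively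
on the long roots, on the short roots, on the coordinates `1..6`.
-/

namespace Pool.Agent.H40.GT

variable {K : Type} [Field K]

/-- `g` is monomial with permutations `w, σ, τ` -/
structure Mon (g : EE K) (w : (ℤ × ℤ) ≃+ (ℤ × ℤ)) (σ : Equiv.Perm (Fin 7))
    (τ : Equiv.Perm Rt) : Prop where
  mev : ∀ j, ∃ c : K, c ≠ 0 ∧ g (ev j) = c • ev (σ j)
  mwt : ∀ j, wt (σ j) = w (wt j)
  mrt : ∀ r, rt (τ r) = w (rt r)
  mX : ∀ r, ∃ d : K, d ≠ 0 ∧ ∀ s : K, g * X r s * g⁻¹ = X (τ r) (d * s)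
  mtor : ∀ t : Kˣ × Kˣ, ∃ t' : Kˣ × Kˣ, g * tor t * g⁻¹ = tor t' ∧ ∀ v, ch (w v) t' = ch v t

private theorem NrA_br0 (x y : V K) : Nl 0 (br x y) = br (Nl 0 x) y + br x (Nl 0 y) := by
  funext i
  fin_cases i <;> simp [-mul_eq_mul_left_iff, Nl_apply, br, cc, sc] <;> ring

private theorem NrA_br1 (x y : V K) : Nl 1 (br x y) = br (Nl 1 x) y + br x (Nl 1 y) := by
  funext i
  fin_cases i <;> simp [-mul_eq_mul_left_iff, Nl_apply, br, cc, sc] <;> ring

private theorem NrA_br2 (x y : V K) : Nl 2 (br x y) = br (Nl 2 x) y + br x (Nl 2 y) := by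
  funext i
  fin_cases i <;> simp [-mul_eq_mul_left_iff, Nl_apply, br, cc, sc] <;> ring

private theorem NrA_br3 (x y : V K) : Nl 3 (br x y) = br (Nl 3 x) y + br x (Nl 3 y) := by
  funext i
  fin_cases i <;> simp [-mul_eq_mul_left_iff, Nl_apply, br, cc, sc] <;> ring

private theorem NrA_br4 (x y : V K) : Nl 4 (br x y) = br (Nl 4 x) y + br x (Nl 4 y) := by
  funext i
  fin_cases i <;> simp [-mul_eq_mul_left_iff, Nl_apply, br, cc, sc] <;> ring

private theorem NrA_br5 (x y : V K) : Nl 5 (br x y) = br (Nl 5 x) y + br x (Nl 5 y) := by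
  funext i
  fin_cases i <;> simp [-mul_eq_mul_left_iff, Nl_apply, br, cc, sc] <;> ring

private theorem NrA_br6 (x y : V K) : Nl 6 (br x y) = br (Nl 6 x) y + br x (Nl 6 y) := by
  funext i
  fin_cases i <;> simp [-mul_eq_mul_left_iff, Nl_apply, br, cc, sc] <;> ring

private theorem NrA_br7 (x y : V K) : Nl 7 (br x y) = br (Nl 7 x) y + br x (Nl 7 y) := by
  funext i
  fin_cases i <;> simp [-mul_eq_mul_left_iff, Nl_apply, br, cc, sc] <;> ring

private theorem NrA_br8 (x y : V K) : Nl 8 (br x y) = br (Nl 8 x) y + br x (Nl 8 y) := by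
  funext i
  fin_cases i <;> simp [-mul_eq_mul_left_iff, Nl_apply, br, cc, sc] <;> ring

private theorem NrA_br9 (x y : V K) : Nl 9 (br x y) = br (Nl 9 x) y + br x (Nl 9 y) := by
  funext i
  fin_cases i <;> simp [-mul_eq_mul_left_iff, Nl_apply, br, cc, sc] <;> ring

private theorem NrA_br10 (x y : V K) : Nl 10 (br x y) = br (Nl 10 x) y + br x (Nl 10 y) := by
  funext i
  fin_cases i <;> simp [-mul_eq_mul_left_iff, Nl_apply, br, cc, sc] <;> ring

private theorem NrA_br11 (x y : V K) : Nl 11 (br x y) = br (Nl 11 x) y + br x (Nl 11 y) := by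
  funext i
  fin_cases i <;> simp [-mul_eq_mul_left_iff, Nl_apply, br, cc, sc] <;> ring

/-- `Nl r` is a derivation -/
theorem Nl_br (r : Rt) (x y : V K) : Nl r (br x y) = br (Nl r x) y + br x (Nl r y) := by
  fin_cases r
  · exact NrA_br0 x y
  · exact NrA_br1 x y
  · exact NrA_br2 x y
  · exact NrA_br3 x y
  · exact NrA_br4 x y
  · exact NrA_br5 x y
  · exact NrA_br6 x y
  · exact NrA_br7 x y
  · exact NrA_br8 x y
  · exact NrA_br9 x y
  · exact NrA_br10 x y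
  · exact NrA_br11 x y

theorem Nl_bf (r : Rt) (x y : V K) : bf (Nl r x) y + bf x (Nl r y) = 0 := by
  fin_cases r <;> simp [bf, Nl_apply, cc, sc] <;> ring

/-- the general map with the support of `Nl r` -/
private def NrA_F (r : Rt) (b : Fin 7 → K) (x : V K) : V K := fun i => b i * x (sc r i)

private theorem NrA_b0 (h2 : (2 : K) ≠ 0) (b : Fin 7 → K)
    (h0 : ∀ i, cc 0 i = 0 → b i = 0)
    (h : ∀ x y : V K, NrA_F 0 b (br x y) = br (NrA_F 0 b x) y + br x (NrA_F 0 b y))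
    (hb : ∀ x y : V K, bf (NrA_F 0 b x) y + bf x (NrA_F 0 b y) = 0) :
    ∃ d : K, ∀ i, b i = d * (cc 0 i : K) := by
  have z0 : b 0 = 0 := h0 0 rfl
  have z2 : b 2 = 0 := h0 2 rfl
  have z3 : b 3 = 0 := h0 3 rfl
  have z4 : b 4 = 0 := h0 4 rfl
  have z6 : b 6 = 0 := h0 6 rfl
  have e1 := hb (ev 2) (ev 4)
  simp [bf, NrA_F, sc, ev] at e1
  refine ⟨b 1, fun i => ?_⟩
  fin_cases i <;> simp [cc, z0, z2, z3, z4, z6]
  linear_combination e1

private theorem NrA_b1 (h2 : (2 : K) ≠ 0) (b : Fin 7 → K)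
    (h0 : ∀ i, cc 1 i = 0 → b i = 0)
    (h : ∀ x y : V K, NrA_F 1 b (br x y) = br (NrA_F 1 b x) y + br x (NrA_F 1 b y))
    (hb : ∀ x y : V K, bf (NrA_F 1 b x) y + bf x (NrA_F 1 b y) = 0) :
    ∃ d : K, ∀ i, b i = d * (cc 1 i : K) := by
  have z0 : b 0 = 0 := h0 0 rfl
  have z1 : b 1 = 0 := h0 1 rfl
  have z3 : b 3 = 0 := h0 3 rfl
  have z5 : b 5 = 0 := h0 5 rfl
  have z6 : b 6 = 0 := h0 6 rfl
  have e1 := hb (ev 1) (ev 5)
  simp [bf, NrA_F, sc, ev] at e1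
  refine ⟨b 2, fun i => ?_⟩
  fin_cases i <;> simp [cc, z0, z1, z3, z5, z6]
  linear_combination e1

private theorem NrA_b2 (h2 : (2 : K) ≠ 0) (b : Fin 7 → K)
    (h0 : ∀ i, cc 2 i = 0 → b i = 0)
    (h : ∀ x y : V K, NrA_F 2 b (br x y) = br (NrA_F 2 b x) y + br x (NrA_F 2 b y))
    (hb : ∀ x y : V K, bf (NrA_F 2 b x) y + bf x (NrA_F 2 b y) = 0) :
    ∃ d : K, ∀ i, b i = d * (cc 2 i : K) := by
  have z0 : b 0 = 0 := h0 0 rfl
  have z2 : b 2 = 0 := h0 2 rfl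
  have z3 : b 3 = 0 := h0 3 rfl
  have z4 : b 4 = 0 := h0 4 rfl
  have z5 : b 5 = 0 := h0 5 rfl
  have e1 := hb (ev 3) (ev 4)
  simp [bf, NrA_F, sc, ev] at e1
  refine ⟨b 1, fun i => ?_⟩
  fin_cases i <;> simp [cc, z0, z2, z3, z4, z5]
  linear_combination e1

private theorem NrA_b3 (h2 : (2 : K) ≠ 0) (b : Fin 7 → K)
    (h0 : ∀ i, cc 3 i = 0 → b i = 0)
    (h : ∀ x y : V K, NrA_F 3 b (br x y) = br (NrA_F 3 b x) y + br x (NrA_F 3 b y))
    (hb : ∀ x y : V K, bf (NrA_F 3 b x) y + bf x (NrA_F 3 b y) = 0) :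
    ∃ d : K, ∀ i, b i = d * (cc 3 i : K) := by
  have z0 : b 0 = 0 := h0 0 rfl
  have z1 : b 1 = 0 := h0 1 rfl
  have z2 : b 2 = 0 := h0 2 rfl
  have z5 : b 5 = 0 := h0 5 rfl
  have z6 : b 6 = 0 := h0 6 rfl
  have e1 := hb (ev 1) (ev 6)
  simp [bf, NrA_F, sc, ev] at e1
  refine ⟨b 3, fun i => ?_⟩
  fin_cases i <;> simp [cc, z0, z1, z2, z5, z6]
  linear_combination e1

private theorem NrA_b4 (h2 : (2 : K) ≠ 0) (b : Fin 7 → K)
    (h0 : ∀ i, cc 4 i = 0 → b i = 0)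
    (h : ∀ x y : V K, NrA_F 4 b (br x y) = br (NrA_F 4 b x) y + br x (NrA_F 4 b y))
    (hb : ∀ x y : V K, bf (NrA_F 4 b x) y + bf x (NrA_F 4 b y) = 0) :
    ∃ d : K, ∀ i, b i = d * (cc 4 i : K) := by
  have z0 : b 0 = 0 := h0 0 rfl
  have z1 : b 1 = 0 := h0 1 rfl
  have z3 : b 3 = 0 := h0 3 rfl
  have z4 : b 4 = 0 := h0 4 rfl
  have z5 : b 5 = 0 := h0 5 rfl
  have e1 := hb (ev 3) (ev 5)
  simp [bf, NrA_F, sc, ev] at e1
  refine ⟨b 2, fun i => ?_⟩
  fin_cases i <;> simp [cc, z0, z1, z3, z4, z5]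
  linear_combination e1

private theorem NrA_b5 (h2 : (2 : K) ≠ 0) (b : Fin 7 → K)
    (h0 : ∀ i, cc 5 i = 0 → b i = 0)
    (h : ∀ x y : V K, NrA_F 5 b (br x y) = br (NrA_F 5 b x) y + br x (NrA_F 5 b y))
    (hb : ∀ x y : V K, bf (NrA_F 5 b x) y + bf x (NrA_F 5 b y) = 0) :
    ∃ d : K, ∀ i, b i = d * (cc 5 i : K) := by
  have z0 : b 0 = 0 := h0 0 rfl
  have z1 : b 1 = 0 := h0 1 rfl
  have z2 : b 2 = 0 := h0 2 rfl
  have z4 : b 4 = 0 := h0 4 rfl
  have z6 : b 6 = 0 := h0 6 rfl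
  have e1 := hb (ev 2) (ev 6)
  simp [bf, NrA_F, sc, ev] at e1
  refine ⟨b 3, fun i => ?_⟩
  fin_cases i <;> simp [cc, z0, z1, z2, z4, z6]
  linear_combination e1

private theorem NrA_b6 (h2 : (2 : K) ≠ 0) (b : Fin 7 → K)
    (h0 : ∀ i, cc 6 i = 0 → b i = 0)
    (h : ∀ x y : V K, NrA_F 6 b (br x y) = br (NrA_F 6 b x) y + br x (NrA_F 6 b y))
    (hb : ∀ x y : V K, bf (NrA_F 6 b x) y + bf x (NrA_F 6 b y) = 0) :
    ∃ d : K, ∀ i, b i = d * (cc 6 i : K) := by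
  have z2 : b 2 = 0 := h0 2 rfl
  have z3 : b 3 = 0 := h0 3 rfl
  have z4 : b 4 = 0 := h0 4 rfl
  have e1 := hb (ev 4) (ev 0)
  simp [bf, NrA_F, sc, ev] at e1
  have e2 := hb (ev 3) (ev 2)
  simp [bf, NrA_F, sc, ev] at e2
  have e3 := congrFun (h (ev 3) (ev 2)) 0
  simp [br, NrA_F, sc, ev] at e3
  refine ⟨b 0, fun i => ?_⟩
  have e4 : b 5 = b 0 := by
    apply mul_left_cancel₀ h2
    first
    | linear_combination e2 + e3
    | linear_combination e2 - e3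
  fin_cases i <;> simp [cc, z2, z3, z4]
  all_goals first
    | linear_combination e1
    | linear_combination e4
    | linear_combination e2 - e4

private theorem NrA_b7 (h2 : (2 : K) ≠ 0) (b : Fin 7 → K)
    (h0 : ∀ i, cc 7 i = 0 → b i = 0)
    (h : ∀ x y : V K, NrA_F 7 b (br x y) = br (NrA_F 7 b x) y + br x (NrA_F 7 b y))
    (hb : ∀ x y : V K, bf (NrA_F 7 b x) y + bf x (NrA_F 7 b y) = 0) :
    ∃ d : K, ∀ i, b i = d * (cc 7 i : K) := by
  have z1 : b 1 = 0 := h0 1 rfl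
  have z5 : b 5 = 0 := h0 5 rfl
  have z6 : b 6 = 0 := h0 6 rfl
  have e1 := hb (ev 1) (ev 0)
  simp [bf, NrA_F, sc, ev] at e1
  have e2 := hb (ev 6) (ev 5)
  simp [bf, NrA_F, sc, ev] at e2
  have e3 := congrFun (h (ev 6) (ev 5)) 0
  simp [br, NrA_F, sc, ev] at e3
  refine ⟨b 0, fun i => ?_⟩
  have e4 : b 2 = b 0 := by
    apply mul_left_cancel₀ h2
    first
    | linear_combination e2 + e3
    | linear_combination e2 - e3
  fin_cases i <;> simp [cc, z1, z5, z6]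
  all_goals first
    | linear_combination e1
    | linear_combination e4
    | linear_combination e2 - e4

private theorem NrA_b8 (h2 : (2 : K) ≠ 0) (b : Fin 7 → K)
    (h0 : ∀ i, cc 8 i = 0 → b i = 0)
    (h : ∀ x y : V K, NrA_F 8 b (br x y) = br (NrA_F 8 b x) y + br x (NrA_F 8 b y))
    (hb : ∀ x y : V K, bf (NrA_F 8 b x) y + bf x (NrA_F 8 b y) = 0) :
    ∃ d : K, ∀ i, b i = d * (cc 8 i : K) := by
  have z1 : b 1 = 0 := h0 1 rfl
  have z3 : b 3 = 0 := h0 3 rfl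
  have z5 : b 5 = 0 := h0 5 rfl
  have e1 := hb (ev 5) (ev 0)
  simp [bf, NrA_F, sc, ev] at e1
  have e2 := hb (ev 1) (ev 3)
  simp [bf, NrA_F, sc, ev] at e2
  have e3 := congrFun (h (ev 1) (ev 3)) 0
  simp [br, NrA_F, sc, ev] at e3
  refine ⟨b 0, fun i => ?_⟩
  have e4 : b 6 = b 0 := by
    apply mul_left_cancel₀ h2
    first
    | linear_combination e2 + e3
    | linear_combination e2 - e3
  fin_cases i <;> simp [cc, z1, z3, z5]
  all_goals first
    | linear_combination e1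
    | linear_combination e4
    | linear_combination e2 - e4

private theorem NrA_b9 (h2 : (2 : K) ≠ 0) (b : Fin 7 → K)
    (h0 : ∀ i, cc 9 i = 0 → b i = 0)
    (h : ∀ x y : V K, NrA_F 9 b (br x y) = br (NrA_F 9 b x) y + br x (NrA_F 9 b y))
    (hb : ∀ x y : V K, bf (NrA_F 9 b x) y + bf x (NrA_F 9 b y) = 0) :
    ∃ d : K, ∀ i, b i = d * (cc 9 i : K) := by
  have z2 : b 2 = 0 := h0 2 rfl
  have z4 : b 4 = 0 := h0 4 rfl
  have z6 : b 6 = 0 := h0 6 rfl
  have e1 := hb (ev 2) (ev 0)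
  simp [bf, NrA_F, sc, ev] at e1
  have e2 := hb (ev 4) (ev 6)
  simp [bf, NrA_F, sc, ev] at e2
  have e3 := congrFun (h (ev 4) (ev 6)) 0
  simp [br, NrA_F, sc, ev] at e3
  refine ⟨b 0, fun i => ?_⟩
  have e4 : b 3 = b 0 := by
    apply mul_left_cancel₀ h2
    first
    | linear_combination e2 + e3
    | linear_combination e2 - e3
  fin_cases i <;> simp [cc, z2, z4, z6]
  all_goals first
    | linear_combination e1
    | linear_combination e4
    | linear_combination e2 - e4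

private theorem NrA_b10 (h2 : (2 : K) ≠ 0) (b : Fin 7 → K)
    (h0 : ∀ i, cc 10 i = 0 → b i = 0)
    (h : ∀ x y : V K, NrA_F 10 b (br x y) = br (NrA_F 10 b x) y + br x (NrA_F 10 b y))
    (hb : ∀ x y : V K, bf (NrA_F 10 b x) y + bf x (NrA_F 10 b y) = 0) :
    ∃ d : K, ∀ i, b i = d * (cc 10 i : K) := by
  have z1 : b 1 = 0 := h0 1 rfl
  have z2 : b 2 = 0 := h0 2 rfl
  have z6 : b 6 = 0 := h0 6 rfl
  have e1 := hb (ev 6) (ev 0)
  simp [bf, NrA_F, sc, ev] at e1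
  have e2 := hb (ev 2) (ev 1)
  simp [bf, NrA_F, sc, ev] at e2
  have e3 := congrFun (h (ev 2) (ev 1)) 0
  simp [br, NrA_F, sc, ev] at e3
  refine ⟨b 0, fun i => ?_⟩
  have e4 : b 4 = b 0 := by
    apply mul_left_cancel₀ h2
    first
    | linear_combination e2 + e3
    | linear_combination e2 - e3
  fin_cases i <;> simp [cc, z1, z2, z6]
  all_goals first
    | linear_combination e1
    | linear_combination e4
    | linear_combination e2 - e4

private theorem NrA_b11 (h2 : (2 : K) ≠ 0) (b : Fin 7 → K)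
    (h0 : ∀ i, cc 11 i = 0 → b i = 0)
    (h : ∀ x y : V K, NrA_F 11 b (br x y) = br (NrA_F 11 b x) y + br x (NrA_F 11 b y))
    (hb : ∀ x y : V K, bf (NrA_F 11 b x) y + bf x (NrA_F 11 b y) = 0) :
    ∃ d : K, ∀ i, b i = d * (cc 11 i : K) := by
  have z3 : b 3 = 0 := h0 3 rfl
  have z4 : b 4 = 0 := h0 4 rfl
  have z5 : b 5 = 0 := h0 5 rfl
  have e1 := hb (ev 3) (ev 0)
  simp [bf, NrA_F, sc, ev] at e1
  have e2 := hb (ev 5) (ev 4)
  simp [bf, NrA_F, sc, ev] at e2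
  have e3 := congrFun (h (ev 5) (ev 4)) 0
  simp [br, NrA_F, sc, ev] at e3
  refine ⟨b 0, fun i => ?_⟩
  have e4 : b 1 = b 0 := by
    apply mul_left_cancel₀ h2
    first
    | linear_combination e2 + e3
    | linear_combination e2 - e3
  fin_cases i <;> simp [cc, z3, z4, z5]
  all_goals first
    | linear_combination e1
    | linear_combination e4
    | linear_combination e2 - e4

private theorem NrA_tab : ∀ r : Rt, ∀ i j : Fin 7, wt i = wt j + rt r → j = sc r i ∧ cc r i ≠ 0 := by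
  decide

/-- derivations of weight `rt r` are multiples of `Nl r` -/
theorem der_weight (h2 : (2 : K) ≠ 0) (r : Rt) (D : V K →ₗ[K] V K)
    (h : ∀ x y, D (br x y) = br (D x) y + br x (D y)) (hb : ∀ x y, bf (D x) y + bf x (D y) = 0)
    (hw : ∀ j i, wt i ≠ wt j + rt r → D (ev j) i = 0) : ∃ d : K, D = d • Nl r := by
  obtain ⟨b, hbd⟩ : ∃ b : Fin 7 → K, b = fun i => D (ev (sc r i)) i := ⟨_, rfl⟩
  have h0 : ∀ i, cc r i = 0 → b i = 0 := by
    intro i hi
    rw [hbd]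
    apply hw
    intro h3
    exact (NrA_tab r i _ h3).2 hi
  have hD : ∀ x, D x = NrA_F r b x := by
    intro x
    funext i
    conv_lhs => rw [V_sum x]
    rw [map_sum, Finset.sum_apply, Finset.sum_eq_single (sc r i)]
    · rw [map_smul, Pi.smul_apply, smul_eq_mul, hbd]
      exact mul_comm _ _
    · intro j _ hj
      rw [map_smul, Pi.smul_apply, hw j i (fun h3 => hj (NrA_tab r i j h3).1), smul_zero]
    · intro h3
      exact absurd (Finset.mem_univ _) h3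
  have h' : ∀ x y : V K, NrA_F r b (br x y) = br (NrA_F r b x) y + br x (NrA_F r b y) := by
    intro x y
    rw [← hD, ← hD, ← hD]
    exact h x y
  have hb' : ∀ x y : V K, bf (NrA_F r b x) y + bf x (NrA_F r b y) = 0 := by
    intro x y
    rw [← hD, ← hD]
    exact hb x y
  have key : ∃ d : K, ∀ i, b i = d * (cc r i : K) := by
    clear hbd hD hw h hb
    fin_cases r
    · exact NrA_b0 h2 b h0 h' hb'
    · exact NrA_b1 h2 b h0 h' hb'
    · exact NrA_b2 h2 b h0 h' hb'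
    · exact NrA_b3 h2 b h0 h' hb'
    · exact NrA_b4 h2 b h0 h' hb'
    · exact NrA_b5 h2 b h0 h' hb'
    · exact NrA_b6 h2 b h0 h' hb'
    · exact NrA_b7 h2 b h0 h' hb'
    · exact NrA_b8 h2 b h0 h' hb'
    · exact NrA_b9 h2 b h0 h' hb'
    · exact NrA_b10 h2 b h0 h' hb'
    · exact NrA_b11 h2 b h0 h' hb'
  obtain ⟨d, hd⟩ := key
  refine ⟨d, LinearMap.ext fun x => funext fun i => ?_⟩
  rw [hD]
  show b i * x (sc r i) = d * ((cc r i : K) * x (sc r i))
  rw [hd, mul_assoc]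

end Pool.Agent.H40.GT
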