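import Pool.Agent.H40.GT.NrA

/-!
# Part NrB (of NrA, NrB, NrC); GT-03 the monomial group `NN`

Let `g ∈ NN`.  It permutes the coordinate lines by a permutation `σ` of `Fin 7`,
`g e_j = c_j e_(σ j)`, `c_j ≠ 0`.  `bf` is preserved, so `σ 0 = 0` (the only non singular
coordinate vector, `2 ≠ 0`) and `σ` commutes with the involution `j ↔ -j`
(`1↔4, 2↔5, 3↔6`).  `br e_1 e_2 = 2 e_-3 ≠ 0`, so `br e_(σ 1) e_(σ 2) ≠ 0`, which leaves exactly
12 possibilities for `(σ 1, σ 2)` (both in `{1,2,3}` or both in `{4,5,6}`, distinct) and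
`σ 6` (the line of `e_-3`) is determined by `br`.  In each case there is an additive
automorphism `w` of `ℤ × ℤ` with `wt (σ j) = w (wt j)` for all `j` (`w` is given by the images of
`(1,0)`, `(0,1)`: finite check by `decide` over `σ 1, σ 2`), it permutes the roots: `rt (τ r) = w (rt r)`
(finite check).
`g * tor t * g⁻¹ = tor t'`: both sides are diagonal, `t' = (ch (w⁻¹ (1,0)) t, ch (w⁻¹ (0,1)) t)`.
`g * X r s * g⁻¹ = X (τ r) (d r * s)`: `D = g Nl(r) g⁻¹` is a derivation of `br` (as `Nl r` is, by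
a table check) of weight `rt (τ r)`, i.e. `D e_j` is a multiple of `e_i` with
`wt i = wt j + rt (τ r)`; the derivation identity on pairs of basis vectors shows
`D = d • Nl (τ r)` (a lemma `der_weight`, 12 cases); `g Ql(r) g⁻¹ = d^2 Ql(τ r)` because
`Nl^2 = 2 Ql` and `2 ≠ 0`.

Representatives: `nrho` (`e_1→e_2→e_3→e_1`, `e_-1→e_-2→e_-3→e_-1`, `e_0→e_0`), `nref`
(`e_1→e_2`, `e_2→-e_1`, `e_-1→e_-2`, `e_-2→-e_-1`, others fixed), `niot`
(`e_0→-e_0`, `e_i→-e_-i`, `e_-i→-e_i`); all in `GG` (identities checked).  They act transitively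
on the long roots, on the short roots, on the coordinates `1..6`.
-/

namespace Pool.Agent.H40.GT

variable {K : Type} [Field K]

/-- the negative of a coordinate -/
def NrB_ng : Fin 7 → Fin 7 := ![0, 4, 5, 6, 1, 2, 3]

/-- coefficients of the brackets of coordinate vectors -/
def NrB_ct : Fin 7 → Fin 7 → ℤ :=
  ![![0, 2, 2, 2, -2, -2, -2],
    ![-2, 0, 2, -2, 1, 0, 0],
    ![-2, -2, 0, 2, 0, 1, 0],
    ![-2, 2, -2, 0, 0, 0, 1],
    ![2, -1, 0, 0, 0, -2, 2],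
    ![2, 0, -1, 0, 2, 0, -2],
    ![2, 0, 0, -1, -2, 2, 0]]

/-- targets of the brackets of coordinate vectors -/
def NrB_tg : Fin 7 → Fin 7 → Fin 7 :=
  ![![0, 1, 2, 3, 4, 5, 6],
    ![1, 0, 6, 5, 0, 0, 0],
    ![2, 6, 0, 4, 0, 0, 0],
    ![3, 5, 4, 0, 0, 0, 0],
    ![4, 0, 0, 0, 0, 3, 2],
    ![5, 0, 0, 0, 3, 0, 1],
    ![6, 0, 0, 0, 2, 1, 0]]

/-- values of the form on coordinate vectors -/
def NrB_bt : Fin 7 → Fin 7 → ℤ :=
  ![![2, 0, 0, 0, 0, 0, 0],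
    ![0, 0, 0, 0, 1, 0, 0],
    ![0, 0, 0, 0, 0, 1, 0],
    ![0, 0, 0, 0, 0, 0, 1],
    ![0, 1, 0, 0, 0, 0, 0],
    ![0, 0, 1, 0, 0, 0, 0],
    ![0, 0, 0, 1, 0, 0, 0]]

/-- the permutation determined by the images of `1` and `2` -/
def NrB_sg (a b : Fin 7) : Fin 7 → Fin 7 :=
  ![0, a, b, NrB_ng (NrB_tg a b), NrB_ng a, NrB_ng b, NrB_tg a b]

/-- the admissible pairs -/
def NrB_P (a b : Fin 7) : Prop := NrB_ct a b ≠ 0 ∧ a ≠ 0 ∧ b ≠ 0 ∧ b ≠ NrB_ng a

instance NrB_Pdec (a b : Fin 7) : Decidable (NrB_P a b) := by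
  unfold NrB_P
  infer_instance

theorem NrB_F1 : ∀ a b : Fin 7, NrB_P a b →
    ((wt a).1 * (wt b).2 - (wt a).2 * (wt b).1) ^ 2 = 1 := by
  decide +kernel

theorem NrB_F2 : ∀ a b : Fin 7, NrB_P a b → ∀ j : Fin 7, wt (NrB_sg a b j) =
    ((wt a).1 * (wt j).1 + (wt b).1 * (wt j).2, (wt a).2 * (wt j).1 + (wt b).2 * (wt j).2) := by
  decide +kernel

theorem NrB_F3 : ∀ a b : Fin 7, NrB_P a b → ∀ r : Rt, ∃ r' : Rt, rt r' =
    ((wt a).1 * (rt r).1 + (wt b).1 * (rt r).2, (wt a).2 * (rt r).1 + (wt b).2 * (rt r).2) := by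
  decide +kernel

theorem NrB_F4 : ∀ a b : Fin 7, NrB_P a b → ∃ π : Equiv.Perm (Fin 3),
    (∀ i : Fin 3, wt (NrB_sg a b (![1, 2, 3] i)) = wt (![1, 2, 3] (π i))) ∨
    (∀ i : Fin 3, wt (NrB_sg a b (![1, 2, 3] i)) = -wt (![1, 2, 3] (π i))) := by
  decide +kernel

theorem NrB_bt_diag : ∀ i : Fin 7, NrB_bt i i ≠ 0 → i = 0 := by
  decide

theorem NrB_bt_ng : ∀ i j : Fin 7, NrB_bt i j ≠ 0 → j = NrB_ng i := by
  decide

theorem NrB_bt_val : ∀ i : Fin 7, NrB_bt i (NrB_ng i) = 1 ∨ NrB_bt i (NrB_ng i) = 2 := by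
  decide

theorem NrB_wt_inj : ∀ i j : Fin 7, wt i = wt j → i = j := by
  decide

theorem NrB_rt_inj : ∀ i j : Rt, rt i = rt j → i = j := by
  decide

theorem NrB_cc_wt : ∀ r : Rt, ∀ i : Fin 7, cc r i ≠ 0 → wt i = wt (sc r i) + rt r := by
  decide

theorem NrB_cc_one : ∀ r : Rt, ∃ i : Fin 7, cc r i = 1 ∨ cc r i = -1 := by
  decide

theorem NrB_br (i j : Fin 7) : br (ev i : V K) (ev j) = (NrB_ct i j : K) • ev (NrB_tg i j) := by
  ext k
  fin_cases i <;> fin_cases j <;> fin_cases k <;>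
    simp [br, ev, NrB_ct, NrB_tg]

theorem NrB_bf (i j : Fin 7) : bf (ev i : V K) (ev j) = (NrB_bt i j : K) := by
  fin_cases i <;> fin_cases j <;> simp [bf, ev, NrB_bt]

theorem NrB_ev_self (i : Fin 7) : (ev i : V K) i = 1 := by
  simp [ev]

theorem NrB_ev_ne {i j : Fin 7} (h : j ≠ i) : (ev i : V K) j = 0 := by
  simp [ev, h]

theorem NrB_ev_ne_zero (i : Fin 7) : (ev i : V K) ≠ 0 := by
  intro h
  have h1 : (ev i : V K) i = 0 := by rw [h]; rfl
  rw [NrB_ev_self] at h1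
  exact one_ne_zero h1

theorem NrB_sum (x : V K) : x = ∑ i : Fin 7, x i • ev i := by
  ext k
  rw [Finset.sum_apply, Finset.sum_eq_single k]
  · rw [Pi.smul_apply, NrB_ev_self, smul_eq_mul, mul_one]
  · intro b _ hb
    rw [Pi.smul_apply, NrB_ev_ne (Ne.symm hb), smul_zero]
  · intro h
    exact absurd (Finset.mem_univ k) h

/-- two linear maps that agree on the coordinate vectors are equal -/
theorem NrB_ext {f g : V K →ₗ[K] V K} (h : ∀ j, f (ev j) = g (ev j)) : f = g := by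
  apply LinearMap.ext
  intro x
  rw [NrB_sum x, map_sum, map_sum]
  apply Finset.sum_congr rfl
  intro i _
  rw [map_smul, map_smul, h]

theorem NrB_extE {f g : EE K} (h : ∀ j, f (ev j) = g (ev j)) : f = g := by
  apply LinearEquiv.toLinearMap_injective
  exact NrB_ext h

theorem NrB_br_smul (a b : K) (x y : V K) : br (a • x) (b • y) = (a * b) • br x y := by
  ext k
  fin_cases k <;> simp [br] <;> ring

theorem NrB_bf_smul (a b : K) (x y : V K) : bf (a • x) (b • y) = (a * b) * bf x y := by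
  simp [bf]
  ring

/-- the combinatorial core -/
theorem NrB_core (h2 : (2 : K) ≠ 0) {g : EE K} (hg : g ∈ GG K) {c : Fin 7 → K}
    {σ : Equiv.Perm (Fin 7)} (hc : ∀ j, c j ≠ 0) (h : ∀ j, g (ev j) = c j • ev (σ j)) :
    NrB_P (σ 1) (σ 2) ∧ ∀ j, σ j = NrB_sg (σ 1) (σ 2) j := by
  have hcast : ∀ i j : Fin 7, (NrB_bt i j : K) ≠ 0 → NrB_bt i j ≠ 0 := by
    intro i j h3 h4
    apply h3
    rw [h4, Int.cast_zero]
  have hbf : ∀ i j : Fin 7, (c i * c j) * (NrB_bt (σ i) (σ j) : K) = (NrB_bt i j : K) := by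
    intro i j
    rw [← NrB_bf, ← NrB_bf_smul, ← h, ← h, hg.2, NrB_bf]
  have hval : ∀ i : Fin 7, (NrB_bt i (NrB_ng i) : K) ≠ 0 := by
    intro i
    rcases NrB_bt_val i with h3 | h3
    · rw [h3, Int.cast_one]
      exact one_ne_zero
    · rw [h3]
      exact_mod_cast h2
  have hng : ∀ i : Fin 7, σ (NrB_ng i) = NrB_ng (σ i) := by
    intro i
    apply NrB_bt_ng
    apply hcast
    intro h3
    apply hval i
    rw [← hbf, h3, mul_zero]
  have h0 : σ 0 = 0 := by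
    apply NrB_bt_diag
    apply hcast
    intro h3
    have h4 := hbf 0 0
    rw [h3, mul_zero] at h4
    have h5 : (NrB_bt 0 0 : K) = 2 := by
      have h6 : NrB_bt 0 0 = 2 := rfl
      rw [h6]
      norm_num
    rw [h5] at h4
    exact h2 h4.symm
  have hbr : (2 * c 6) • (ev (σ 6) : V K) =
      ((c 1 * c 2) * (NrB_ct (σ 1) (σ 2) : K)) • ev (NrB_tg (σ 1) (σ 2)) := by
    have h3 := hg.1 (ev 1) (ev 2)
    rw [h, h, NrB_br_smul, NrB_br, NrB_br, map_smul] at h3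
    have h4 : NrB_ct 1 2 = 2 := rfl
    have h5 : NrB_tg 1 2 = 6 := rfl
    rw [h4, h5, h, smul_smul, smul_smul] at h3
    rw [← h3]
    norm_num
  have h6a : (2 * c 6) = ((c 1 * c 2) * (NrB_ct (σ 1) (σ 2) : K)) *
      (ev (NrB_tg (σ 1) (σ 2)) : V K) (σ 6) := by
    have h3 := congrFun hbr (σ 6)
    rw [Pi.smul_apply, Pi.smul_apply, NrB_ev_self, smul_eq_mul, smul_eq_mul, mul_one] at h3
    exact h3
  have h6b : (2 * c 6) ≠ 0 := mul_ne_zero h2 (hc 6)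
  have h6 : σ 6 = NrB_tg (σ 1) (σ 2) := by
    by_contra h3
    apply h6b
    rw [h6a, NrB_ev_ne h3, mul_zero]
  have hct : NrB_ct (σ 1) (σ 2) ≠ 0 := by
    intro h3
    apply h6b
    rw [h6a, h3, Int.cast_zero, mul_zero, zero_mul]
  have h1n : σ 1 ≠ 0 := by
    intro h3
    have h4 : (1 : Fin 7) = 0 := σ.injective (h3.trans h0.symm)
    exact absurd h4 (by decide)
  have h2n : σ 2 ≠ 0 := by
    intro h3
    have h4 : (2 : Fin 7) = 0 := σ.injective (h3.trans h0.symm)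
    exact absurd h4 (by decide)
  have h12 : σ 2 ≠ NrB_ng (σ 1) := by
    intro h3
    rw [← hng] at h3
    exact absurd (σ.injective h3) (by decide)
  refine ⟨⟨hct, h1n, h2n, h12⟩, ?_⟩
  have h4 : σ 4 = NrB_ng (σ 1) := hng 1
  have h5 : σ 5 = NrB_ng (σ 2) := hng 2
  have h3 : σ 3 = NrB_ng (NrB_tg (σ 1) (σ 2)) := by
    rw [← h6]
    exact hng 6
  intro j
  fin_cases j
  · exact h0
  · rfl
  · rfl
  · exact h3
  · exact h4
  · exact h5
  · exact h6

/-- the automorphism of the lattice given by two vectors of determinant `±1` -/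
def NrB_mw (p q : ℤ × ℤ) (h : (p.1 * q.2 - p.2 * q.1) ^ 2 = 1) : (ℤ × ℤ) ≃+ (ℤ × ℤ) where
  toFun v := (p.1 * v.1 + q.1 * v.2, p.2 * v.1 + q.2 * v.2)
  invFun v := ((p.1 * q.2 - p.2 * q.1) * (q.2 * v.1 - q.1 * v.2),
    (p.1 * q.2 - p.2 * q.1) * (p.1 * v.2 - p.2 * v.1))
  left_inv := by
    intro v
    refine Prod.ext ?_ ?_
    · show (p.1 * q.2 - p.2 * q.1) * (q.2 * (p.1 * v.1 + q.1 * v.2) - q.1 * (p.2 * v.1 + q.2 * v.2))
        = v.1
      linear_combination v.1 * h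
    · show (p.1 * q.2 - p.2 * q.1) * (p.1 * (p.2 * v.1 + q.2 * v.2) - p.2 * (p.1 * v.1 + q.1 * v.2))
        = v.2
      linear_combination v.2 * h
  right_inv := by
    intro v
    refine Prod.ext ?_ ?_
    · show p.1 * ((p.1 * q.2 - p.2 * q.1) * (q.2 * v.1 - q.1 * v.2)) +
        q.1 * ((p.1 * q.2 - p.2 * q.1) * (p.1 * v.2 - p.2 * v.1)) = v.1
      linear_combination v.1 * h
    · show p.2 * ((p.1 * q.2 - p.2 * q.1) * (q.2 * v.1 - q.1 * v.2)) +
        q.2 * ((p.1 * q.2 - p.2 * q.1) * (p.1 * v.2 - p.2 * v.1)) = v.2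
      linear_combination v.2 * h
  map_add' := by
    intro a b
    refine Prod.ext ?_ ?_
    · show p.1 * (a.1 + b.1) + q.1 * (a.2 + b.2) =
        (p.1 * a.1 + q.1 * a.2) + (p.1 * b.1 + q.1 * b.2)
      ring
    · show p.2 * (a.1 + b.1) + q.2 * (a.2 + b.2) =
        (p.2 * a.1 + q.2 * a.2) + (p.2 * b.1 + q.2 * b.2)
      ring

theorem NrB_ch_zsmul (n : ℤ) (v : ℤ × ℤ) (t : Kˣ × Kˣ) : ch (n • v) t = (ch v t) ^ n := by
  unfold ch
  rw [Prod.smul_fst, Prod.smul_snd, smul_eq_mul, smul_eq_mul, mul_zpow, ← zpow_mul, ← zpow_mul,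
    mul_comm n, mul_comm n]

theorem NrB_lift (f : (ℤ × ℤ) ≃+ (ℤ × ℤ)) (t : Kˣ × Kˣ) (v : ℤ × ℤ) :
    ch v (ch (f (1, 0)) t, ch (f (0, 1)) t) = ch (f v) t := by
  have h1 : v = v.1 • ((1, 0) : ℤ × ℤ) + v.2 • ((0, 1) : ℤ × ℤ) := by
    refine Prod.ext ?_ ?_
    · simp
    · simp
  have h3 : f v = v.1 • f (1, 0) + v.2 • f (0, 1) := by
    conv_lhs => rw [h1]
    rw [map_add, map_zsmul, map_zsmul]
  rw [h3, ch_add, NrB_ch_zsmul, NrB_ch_zsmul]
  rfl

theorem NrB_ch_ext {t t' : Kˣ × Kˣ} (h : ∀ v, ch v t = ch v t') : t = t' := by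
  refine Prod.ext ?_ ?_
  · have h1 := h (1, 0)
    simpa [ch] using h1
  · have h1 := h (0, 1)
    simpa [ch] using h1

theorem NrB_tor_ev (t : Kˣ × Kˣ) (j : Fin 7) :
    tor t (ev j : V K) = (ch (wt j) t : K) • ev j := by
  ext i
  rw [tor_apply, Pi.smul_apply, smul_eq_mul]
  by_cases h : i = j
  · rw [h]
  · rw [NrB_ev_ne h, mul_zero, mul_zero]

/-- a monomial description of the elements of `NN` -/
theorem NrB_sigma {g : EE K} (hg : g ∈ NN K) : ∃ c : Fin 7 → K, ∃ σ : Equiv.Perm (Fin 7),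
    (∀ j, c j ≠ 0) ∧ ∀ j, g (ev j) = c j • ev (σ j) := by
  obtain ⟨-, h1, -⟩ := hg
  choose s c hs using h1
  have hc : ∀ j, c j ≠ 0 := by
    intro j h3
    have h4 := hs j
    rw [h3, zero_smul] at h4
    apply NrB_ev_ne_zero (K := K) j
    apply g.injective
    rw [h4, map_zero]
  have hinj : Function.Injective s := by
    intro i j hij
    by_contra hne
    have h4 : g ((c j) • ev i) = g ((c i) • ev j) := by
      rw [map_smul, map_smul, hs, hs, hij, smul_smul, smul_smul, mul_comm]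
    have h5 := congrFun (g.injective h4) i
    rw [Pi.smul_apply, Pi.smul_apply, NrB_ev_self, NrB_ev_ne hne, smul_zero, smul_eq_mul,
      mul_one] at h5
    exact hc j h5
  refine ⟨c, Equiv.ofBijective s (Finite.injective_iff_bijective.mp hinj), hc, ?_⟩
  intro j
  exact hs j

theorem NrB_inv_ev {g : EE K} {c : K} (hc : c ≠ 0) {i j : Fin 7} (h : g (ev i) = c • ev j) :
    g⁻¹ (ev j) = c⁻¹ • ev i := by
  have h1 : ∀ x, g⁻¹ (g x) = x := fun x => g.symm_apply_apply x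
  have h3 : (ev j : V K) = c⁻¹ • g (ev i) := by
    rw [h, smul_smul, inv_mul_cancel₀ hc, one_smul]
  rw [h3, map_smul, h1]

theorem NrB_Nl_ne (r : Rt) : (Nl r : V K →ₗ[K] V K) ≠ 0 := by
  intro h
  obtain ⟨i, hi⟩ := NrB_cc_one r
  have h1 : Nl r (ev (sc r i) : V K) i = 0 := by
    rw [h]
    rfl
  rw [Nl_apply, NrB_ev_self, mul_one] at h1
  rcases hi with hi | hi
  · rw [hi, Int.cast_one] at h1
    exact one_ne_zero h1
  · rw [hi, Int.cast_neg, Int.cast_one, neg_eq_zero] at h1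
    exact one_ne_zero h1

/-- conjugates of root elements -/
theorem NrB_conj (h2 : (2 : K) ≠ 0) {g : EE K} (hg : g ∈ GG K) {c : Fin 7 → K}
    {σ : Equiv.Perm (Fin 7)} (hc : ∀ j, c j ≠ 0) (h : ∀ j, g (ev j) = c j • ev (σ j))
    (w : (ℤ × ℤ) ≃+ (ℤ × ℤ)) (hw : ∀ j, wt (σ j) = w (wt j)) (r r' : Rt)
    (hr : rt r' = w (rt r)) :
    ∃ d : K, d ≠ 0 ∧ ∀ s : K, g * X r s * g⁻¹ = X r' (d * s) := by
  have e1 : ∀ x, g (g⁻¹ x) = x := fun x => g.apply_symm_apply x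
  have e2 : ∀ x, g⁻¹ (g x) = x := fun x => g.symm_apply_apply x
  have hgi := inv_mem hg
  let D : V K →ₗ[K] V K := (g : V K →ₗ[K] V K) ∘ₗ Nl r ∘ₗ ((g⁻¹ : EE K) : V K →ₗ[K] V K)
  have hD : ∀ x, D x = g (Nl r (g⁻¹ x)) := fun x => rfl
  have hd1 : ∀ x y, D (br x y) = br (D x) y + br x (D y) := by
    intro x y
    rw [hD, hD, hD, hgi.1, Nl_br, map_add, hg.1, hg.1, e1, e1]
  have hd2 : ∀ x y, bf (D x) y + bf x (D y) = 0 := by
    intro x y
    rw [hD, hD]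
    have h3 : bf (g (Nl r (g⁻¹ x))) y = bf (Nl r (g⁻¹ x)) (g⁻¹ y) := by
      rw [← hg.2 (Nl r (g⁻¹ x)) (g⁻¹ y), e1]
    have h4 : bf x (g (Nl r (g⁻¹ y))) = bf (g⁻¹ x) (Nl r (g⁻¹ y)) := by
      rw [← hg.2 (g⁻¹ x) (Nl r (g⁻¹ y)), e1]
    rw [h3, h4]
    exact Nl_bf r _ _
  have hd3 : ∀ j i, wt i ≠ wt j + rt r' → D (ev j) i = 0 := by
    intro j i hij
    rw [hD]
    have h3 : g (ev (σ.symm j)) = c (σ.symm j) • ev j := by
      rw [h, Equiv.apply_symm_apply]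
    rw [NrB_inv_ev (hc _) h3, map_smul, map_smul, Pi.smul_apply]
    rw [NrB_sum (Nl r (ev (σ.symm j))), map_sum, Finset.sum_apply, Finset.sum_eq_zero, smul_zero]
    intro k _
    rw [map_smul, h, smul_smul, Pi.smul_apply]
    by_cases hk : i = σ k
    · have h5 : Nl r (ev (σ.symm j) : V K) k = 0 := by
        rw [Nl_apply]
        by_cases h6 : cc r k = 0
        · rw [h6, Int.cast_zero, zero_mul]
        · rw [NrB_ev_ne, mul_zero]
          intro h7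
          apply hij
          have h8 := NrB_cc_wt r k h6
          have h9 := congrArg w h8
          rw [map_add, ← hr, ← hw, ← hw, ← hk, h7, Equiv.apply_symm_apply] at h9
          exact h9
      rw [h5, zero_mul, zero_smul]
    · rw [NrB_ev_ne hk, smul_zero]
  obtain ⟨d, hd⟩ := der_weight h2 r' D hd1 hd2 hd3
  refine ⟨d, ?_, ?_⟩
  · intro h0
    rw [h0, zero_smul] at hd
    apply NrB_Nl_ne (K := K) r
    apply LinearMap.ext
    intro x
    have h3 : D (g x) = 0 := by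
      rw [hd]
      rfl
    rw [hD, e2] at h3
    apply g.injective
    rw [h3, LinearMap.zero_apply, map_zero]
  · intro s
    apply LinearEquiv.ext
    intro x
    show g (Xl r s (g⁻¹ x)) = Xl r' (d * s) x
    rw [Xl_eq, Xl_eq, map_add, map_add, map_smul, map_smul, e1, ← hD]
    have h3 : (2 : K) • g (Ql r (g⁻¹ x)) = (2 : K) • (d ^ 2 • Ql r' x) := by
      rw [← map_smul, ← Nl_Nl]
      have h4 : g (Nl r (Nl r (g⁻¹ x))) = D (D x) := by
        rw [hD, hD, e2]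
      rw [h4, hd, LinearMap.smul_apply, LinearMap.smul_apply, map_smul, Nl_Nl, smul_smul,
        smul_smul, smul_smul]
      ring_nf
    have h5 : g (Ql r (g⁻¹ x)) = d ^ 2 • Ql r' x := by
      have h6 := congrArg (fun z => (2 : K)⁻¹ • z) h3
      simp only [smul_smul] at h6
      rw [inv_mul_cancel₀ h2, one_smul, ← mul_assoc, inv_mul_cancel₀ h2, one_mul] at h6
      exact h6
    rw [h5, hd, LinearMap.smul_apply, smul_smul, smul_smul, mul_comm s d, mul_pow,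
      mul_comm (s ^ 2) (d ^ 2)]

theorem NN_mon (h2 : (2 : K) ≠ 0) {g : EE K} (hg : g ∈ NN K) : ∃ w σ τ, Mon g w σ τ := by
  obtain ⟨c, σ, hc, h⟩ := NrB_sigma hg
  obtain ⟨hP, hs⟩ := NrB_core h2 hg.1 hc h
  have hdet := NrB_F1 _ _ hP
  have hw : ∀ j, wt (σ j) = NrB_mw (wt (σ 1)) (wt (σ 2)) hdet (wt j) := by
    intro j
    rw [hs j]
    exact NrB_F2 _ _ hP j
  have hr : ∀ r, ∃ r' : Rt, rt r' = NrB_mw (wt (σ 1)) (wt (σ 2)) hdet (rt r) := by
    intro r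
    exact NrB_F3 _ _ hP r
  choose τ0 hτ0 using hr
  have hinj : Function.Injective τ0 := by
    intro i j hij
    apply NrB_rt_inj
    apply (NrB_mw (wt (σ 1)) (wt (σ 2)) hdet).injective
    rw [← hτ0, ← hτ0, hij]
  let τ : Equiv.Perm Rt := Equiv.ofBijective τ0 (Finite.injective_iff_bijective.mp hinj)
  have hτ : ∀ r, rt (τ r) = NrB_mw (wt (σ 1)) (wt (σ 2)) hdet (rt r) := fun r => hτ0 r
  have e1 : ∀ x, g (g⁻¹ x) = x := fun x => g.apply_symm_apply x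
  refine ⟨NrB_mw (wt (σ 1)) (wt (σ 2)) hdet, σ, τ, ⟨?_, hw, hτ, ?_, ?_⟩⟩
  · intro j
    exact ⟨c j, hc j, h j⟩
  · intro r
    exact NrB_conj h2 hg.1 hc h _ hw r (τ r) (hτ r)
  · intro t
    have hch : ∀ v, ch (NrB_mw (wt (σ 1)) (wt (σ 2)) hdet v)
        (ch ((NrB_mw (wt (σ 1)) (wt (σ 2)) hdet).symm (1, 0)) t,
          ch ((NrB_mw (wt (σ 1)) (wt (σ 2)) hdet).symm (0, 1)) t) = ch v t := by
      intro v
      rw [NrB_lift, AddEquiv.symm_apply_apply]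
    refine ⟨_, ?_, hch⟩
    rw [mul_inv_eq_iff_eq_mul]
    apply NrB_extE
    intro j
    rw [LinearEquiv.mul_apply, LinearEquiv.mul_apply, NrB_tor_ev, map_smul, h, map_smul,
      NrB_tor_ev, hw, hch, smul_smul, smul_smul, mul_comm]

theorem Mon_inv {g : EE K} {w : (ℤ × ℤ) ≃+ (ℤ × ℤ)} {σ : Equiv.Perm (Fin 7)}
    {τ : Equiv.Perm Rt} (h : Mon g w σ τ) : Mon g⁻¹ w.symm σ.symm τ.symm := by
  refine ⟨?_, ?_, ?_, ?_, ?_⟩
  · intro j
    obtain ⟨c, hc, hj⟩ := h.mev (σ.symm j)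
    rw [Equiv.apply_symm_apply] at hj
    exact ⟨c⁻¹, inv_ne_zero hc, NrB_inv_ev hc hj⟩
  · intro j
    have h1 := h.mwt (σ.symm j)
    rw [Equiv.apply_symm_apply] at h1
    rw [h1, AddEquiv.symm_apply_apply]
  · intro r
    have h1 := h.mrt (τ.symm r)
    rw [Equiv.apply_symm_apply] at h1
    rw [h1, AddEquiv.symm_apply_apply]
  · intro r
    obtain ⟨d, hd, h1⟩ := h.mX (τ.symm r)
    refine ⟨d⁻¹, inv_ne_zero hd, ?_⟩
    intro s
    have h3 := h1 (d⁻¹ * s)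
    rw [Equiv.apply_symm_apply, ← mul_assoc d, mul_inv_cancel₀ hd, one_mul] at h3
    rw [← h3]
    group
  · intro t
    obtain ⟨t1, h1, h3⟩ := h.mtor (ch (w (1, 0)) t, ch (w (0, 1)) t)
    have h4 : t1 = t := by
      apply NrB_ch_ext
      intro v
      have h5 := h3 (w.symm v)
      rw [NrB_lift, AddEquiv.apply_symm_apply] at h5
      exact h5
    refine ⟨(ch (w (1, 0)) t, ch (w (0, 1)) t), ?_, ?_⟩
    · rw [h4] at h1
      rw [← h1]
      group
    · intro v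
      rw [NrB_lift, AddEquiv.apply_symm_apply]

/-- elements of `NN` fixing the weights are in the torus -/
theorem Mon_one (h2 : (2 : K) ≠ 0) {g : EE K} (hg : g ∈ NN K) {w : (ℤ × ℤ) ≃+ (ℤ × ℤ)}
    {σ : Equiv.Perm (Fin 7)} {τ : Equiv.Perm Rt} (h : Mon g w σ τ)
    (h1 : w (1, 0) = (1, 0)) (h3 : w (0, 1) = (0, 1)) : g ∈ TT K := by
  have hid : ∀ v, w v = v := by
    intro v
    have h4 : v = v.1 • ((1, 0) : ℤ × ℤ) + v.2 • ((0, 1) : ℤ × ℤ) := by
      refine Prod.ext ?_ ?_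
      · simp
      · simp
    rw [h4, map_add, map_zsmul, map_zsmul, h1, h3]
  have hσ : ∀ j, σ j = j := by
    intro j
    apply NrB_wt_inj
    rw [h.mwt, hid]
  have hm := h.mev
  choose c hc hev using hm
  have hev' : ∀ j, g (ev j) = c j • ev j := by
    intro j
    have h4 := hev j
    rw [hσ] at h4
    exact h4
  have hbf : ∀ i j : Fin 7, (c i * c j) * (NrB_bt i j : K) = (NrB_bt i j : K) := by
    intro i j
    rw [← NrB_bf, ← NrB_bf_smul, ← hev', ← hev', hg.1.2]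
  have hbr : ∀ i j : Fin 7, (NrB_ct i j : K) ≠ 0 → c i * c j = c (NrB_tg i j) := by
    intro i j hij
    have h4 := hg.1.1 (ev i) (ev j)
    rw [hev', hev', NrB_br_smul, NrB_br, map_smul, hev', smul_smul, smul_smul] at h4
    have h5 := congrFun h4 (NrB_tg i j)
    rw [Pi.smul_apply, Pi.smul_apply, NrB_ev_self, smul_eq_mul, smul_eq_mul, mul_one,
      mul_one, mul_comm] at h5
    exact (mul_right_cancel₀ hij h5).symm
  have c14 : c 1 * c 4 = 1 := by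
    have h4 := hbf 1 4
    have h5 : NrB_bt 1 4 = 1 := rfl
    rw [h5, Int.cast_one, mul_one] at h4
    exact h4
  have c25 : c 2 * c 5 = 1 := by
    have h4 := hbf 2 5
    have h5 : NrB_bt 2 5 = 1 := rfl
    rw [h5, Int.cast_one, mul_one] at h4
    exact h4
  have c36 : c 3 * c 6 = 1 := by
    have h4 := hbf 3 6
    have h5 : NrB_bt 3 6 = 1 := rfl
    rw [h5, Int.cast_one, mul_one] at h4
    exact h4
  have c01 : c 0 * c 1 = c 1 := by
    apply hbr 0 1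
    have h5 : NrB_ct 0 1 = 2 := rfl
    rw [h5]
    exact_mod_cast h2
  have c12 : c 1 * c 2 = c 6 := by
    apply hbr 1 2
    have h5 : NrB_ct 1 2 = 2 := rfl
    rw [h5]
    exact_mod_cast h2
  have c0 : c 0 = 1 := by
    apply mul_right_cancel₀ (hc 1)
    rw [c01, one_mul]
  refine ⟨(Units.mk0 (c 1) (hc 1), Units.mk0 (c 2) (hc 2)), ?_⟩
  apply NrB_extE
  intro j
  rw [NrB_tor_ev, hev']
  refine congrArg (fun z : K => z • (ev j : V K)) ?_
  have hc1 := hc 1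
  have hc2 := hc 2
  fin_cases j
  · simp [ch, wt, c0]
  · simp [ch, wt]
  · simp [ch, wt]
  · have h6 : c 3 = (c 1)⁻¹ * (c 2)⁻¹ := by
      have h7 : c 3 * (c 1 * c 2) = 1 := by rw [c12, c36]
      field_simp
      linear_combination h7
    simp [ch, wt, h6]
  · have h6 : c 4 = (c 1)⁻¹ := eq_inv_of_mul_eq_one_right c14
    simp [ch, wt, h6]
  · have h6 : c 5 = (c 2)⁻¹ := eq_inv_of_mul_eq_one_right c25
    simp [ch, wt, h6]
  · simp [ch, wt, ← c12]

/-- the possible linear parts: a permutation of the three weights of `e_1, e_2, e_3` and a sign -/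
theorem Mon_perm (h2 : (2 : K) ≠ 0) {g : EE K} (hg : g ∈ NN K) {w : (ℤ × ℤ) ≃+ (ℤ × ℤ)}
    {σ : Equiv.Perm (Fin 7)} {τ : Equiv.Perm Rt} (h : Mon g w σ τ) :
    ∃ π : Equiv.Perm (Fin 3), ∃ ε : ℤ, (ε = 1 ∨ ε = -1) ∧
      ∀ i : Fin 3, w (wt (![1, 2, 3] i)) = ε • wt (![1, 2, 3] (π i)) := by
  have hm := h.mev
  choose c hc hev using hm
  obtain ⟨hP, hs⟩ := NrB_core h2 hg.1 hc hev
  obtain ⟨π, hπ⟩ := NrB_F4 _ _ hP
  rcases hπ with hπ | hπ
  · refine ⟨π, 1, Or.inl rfl, ?_⟩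
    intro i
    rw [← h.mwt, hs, hπ, one_smul]
  · refine ⟨π, -1, Or.inr rfl, ?_⟩
    intro i
    rw [← h.mwt, hs, hπ, neg_smul, one_smul]

end Pool.Agent.H40.GT
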