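import Pool.Agent.H40.GT.NrB

/-!
# Part NrC (of NrA, NrB, NrC); GT-03 the monomial group `NN`

Let `g ∈ NN`.  It permutes the coordinate lines by a permutation `σ` of `Fin 7`,
`g e_j = c_j e_(σ j)`, `c_j ≠ 0`.  `bf` is preserved, so `σ 0 = 0` (the only non singular
coordinate vector, `2 ≠ 0`) and `σ` commutes with the involution `j ↔ -j`
(`1↔4, 2↔5, 3↔6`).  `br e_1 e_2 = 2 e_-3 ≠ 0`, so `br e_(σ 1) e_(σ 2) ≠ 0`, which leaves exactly
12 possibilities for `(σ 1, σ 2)` (both in `{1,2,3}` or both in `{4,5,6}`, distinct) and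
`σ 6` (the line of `e_-3`) is determined by `br`.  In each case there is an additive
automorphism `w` of `ℤ × ℤ` with `wt (σ j) = w (wt j)` for all `j` (`w` is given by the images of
`(1,0)`, `(0,1)`: finite check by `decide` over `σ 1, σ 2`), it permutes the roots: `rt (τ r) = w (rt r)`
(finite check).
`g * tor t * g⁻¹ = tor t'`: both sides are diagonal, `t' = (ch (w⁻¹ (1,0)) t, ch (w⁻¹ (0,1)) t)`.
`g * X r s * g⁻¹ = X (τ r) (d r * s)`: `D = g Nl(r) g⁻¹` is a derivation of `br` (as `Nl r` is, by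
a table check) of weight `rt (τ r)`, i.e. `D e_j` is a multiple of `e_i` with
`wt i = wt j + rt (τ r)`; the derivation identity on pairs of basis vectors shows
`D = d • Nl (τ r)` (a lemma `der_weight`, 12 cases); `g Ql(r) g⁻¹ = d^2 Ql(τ r)` because
`Nl^2 = 2 Ql` and `2 ≠ 0`.

Representatives: `nrho` (`e_1→e_2→e_3→e_1`, `e_-1→e_-2→e_-3→e_-1`, `e_0→e_0`), `nref`
(`e_1→e_2`, `e_2→-e_1`, `e_-1→e_-2`, `e_-2→-e_-1`, others fixed), `niot`
(`e_0→-e_0`, `e_i→-e_-i`, `e_-i→-e_i`); all in `GG` (identities checked).  They act transitively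
on the long roots, on the short roots, on the coordinates `1..6`.
-/

namespace Pool.Agent.H40.GT

variable {K : Type} [Field K]

theorem NrC_ev {g : EE K} {p q : Fin 7 → Fin 7} {e : Fin 7 → ℤ}
    (H : ∀ x i, g x i = (e i : K) * x (p i)) (hpq : ∀ i, p (q i) = i) (hqp : ∀ i, q (p i) = i)
    (j : Fin 7) : g (ev j) = (e (q j) : K) • ev (q j) := by
  funext i
  rw [H, Pi.smul_apply, smul_eq_mul]
  by_cases hi : i = q j
  · subst hi
    rw [hpq, ev_same, ev_same]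
  · have h1 : p i ≠ j := by
      intro h
      apply hi
      rw [← h, hqp]
    rw [ev_ne hi, ev_ne h1, mul_zero, mul_zero]

theorem NrC_NN {g : EE K} {p q : Fin 7 → Fin 7} {e : Fin 7 → ℤ} (hg : g ∈ GG K)
    (H : ∀ x i, g x i = (e i : K) * x (p i)) (hpq : ∀ i, p (q i) = i) (hqp : ∀ i, q (p i) = i)
    (he : ∀ i, e i * e i = 1) : g ∈ NN K := by
  refine ⟨hg, fun j => ⟨q j, _, NrC_ev H hpq hqp j⟩, fun j => ⟨p j, (e j : K), ?_⟩⟩
  apply g.injective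
  have e1 : g (g⁻¹ (ev j)) = ev j := g.apply_symm_apply _
  rw [e1, map_smul, NrC_ev H hpq hqp, hqp, smul_smul]
  have h1 : (e j : K) * (e j : K) = 1 := by exact_mod_cast congrArg (Int.cast : ℤ → K) (he j)
  rw [h1, one_smul]

/-- signed permutations as linear maps -/
def NrC_sl (p : Fin 7 → Fin 7) (e : Fin 7 → ℤ) : V K →ₗ[K] V K where
  toFun x := fun i => (e i : K) * x (p i)
  map_add' := by
    intro a b
    ext i
    simp [mul_add]
  map_smul' := by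
    intro a b
    ext i
    simp
    ring

theorem NrC_ex {p q : Fin 7 → Fin 7} {e : Fin 7 → ℤ} (hpq : ∀ i, p (q i) = i)
    (hqp : ∀ i, q (p i) = i) (he : ∀ i, e i * e i = 1) :
    ∃ g : EE K, ∀ x i, g x i = (e i : K) * x (p i) := by
  have h1 : ∀ j, (e j : K) * (e j : K) = 1 := by
    intro j
    exact_mod_cast congrArg (Int.cast : ℤ → K) (he j)
  refine ⟨LinearEquiv.ofLinearMap (NrC_sl p e) (NrC_sl q (fun i => e (q i))) ?_ ?_,
    fun x i => rfl⟩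
  · apply LinearMap.ext
    intro x
    funext i
    show (e i : K) * ((e (q (p i)) : K) * x (q (p i))) = x i
    rw [hqp, ← mul_assoc, h1, one_mul]
  · apply LinearMap.ext
    intro x
    funext i
    show (e (q i) : K) * ((e (q i) : K) * x (p (q i))) = x i
    rw [hpq, ← mul_assoc, h1, one_mul]

theorem NrC_key (h2 : (2 : K) ≠ 0) {g : EE K} (hg : g ∈ NN K) {a b : Fin 7} {c d : K}
    (ha : g (ev 1) = c • ev a) (hb : g (ev 2) = d • ev b) :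
    ∃ w σ τ, Mon g w σ τ ∧ ∀ v : ℤ × ℤ, w v = v.1 • wt a + v.2 • wt b := by
  obtain ⟨w, σ, τ, hM⟩ := NN_mon h2 hg
  refine ⟨w, σ, τ, hM, fun v => ?_⟩
  have aux : ∀ (j k : Fin 7) (c : K), g (ev j) = c • ev k → σ j = k := by
    intro j k c h
    obtain ⟨c', hc', h'⟩ := hM.mev j
    rw [h] at h'
    have h3 := congrFun h' (σ j)
    rw [Pi.smul_apply, Pi.smul_apply, smul_eq_mul, smul_eq_mul, ev_same, mul_one] at h3
    by_contra hk
    rw [ev_ne hk, mul_zero] at h3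
    exact hc' h3.symm
  have w1 : w (1, 0) = wt a := by
    have h3 := hM.mwt 1
    rw [aux 1 a c ha] at h3
    exact h3.symm
  have w2 : w (0, 1) = wt b := by
    have h3 := hM.mwt 2
    rw [aux 2 b d hb] at h3
    exact h3.symm
  have h4 : v = v.1 • ((1, 0) : ℤ × ℤ) + v.2 • ((0, 1) : ℤ × ℤ) := by
    ext <;> simp
  calc w v = w (v.1 • ((1, 0) : ℤ × ℤ) + v.2 • ((0, 1) : ℤ × ℤ)) := by rw [← h4]
    _ = v.1 • wt a + v.2 • wt b := by rw [map_add, map_zsmul, map_zsmul, w1, w2]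

theorem NrC_tau {g : EE K} {w : (ℤ × ℤ) ≃+ (ℤ × ℤ)} {σ : Equiv.Perm (Fin 7)}
    {τ : Equiv.Perm Rt} (hM : Mon g w σ τ) {a b : Fin 7}
    (hw : ∀ v : ℤ × ℤ, w v = v.1 • wt a + v.2 • wt b) {r r' : Rt}
    (h : rt r' = (rt r).1 • wt a + (rt r).2 • wt b) : τ r = r' := by
  apply rt_inj
  rw [hM.mrt, hw, h]

theorem NrC_sig {g : EE K} {w : (ℤ × ℤ) ≃+ (ℤ × ℤ)} {σ : Equiv.Perm (Fin 7)}
    {τ : Equiv.Perm Rt} (hM : Mon g w σ τ) {a b : Fin 7}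
    (hw : ∀ v : ℤ × ℤ, w v = v.1 • wt a + v.2 • wt b) {j j' : Fin 7}
    (h : wt j' = (wt j).1 • wt a + (wt j).2 • wt b) : σ j = j' := by
  apply wt_inj
  rw [hM.mwt, hw, h]

/-- cyclic permutation: table -/
def NrC_p1 : Fin 7 → Fin 7 := ![0, 3, 1, 2, 6, 4, 5]

/-- cyclic permutation: table of the inverse -/
def NrC_q1 : Fin 7 → Fin 7 := ![0, 2, 3, 1, 5, 6, 4]

/-- transposition: table -/
def NrC_p2 : Fin 7 → Fin 7 := ![0, 2, 1, 3, 5, 4, 6]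

/-- inversion: table -/
def NrC_p3 : Fin 7 → Fin 7 := ![0, 4, 5, 6, 1, 2, 3]

/-- signs of the cyclic permutation -/
def NrC_e1 : Fin 7 → ℤ := fun _ => 1

/-- signs of the transposition -/
def NrC_e2 : Fin 7 → ℤ := ![1, -1, 1, 1, -1, 1, 1]

/-- signs of the inversion -/
def NrC_e3 : Fin 7 → ℤ := fun _ => -1

theorem NrC_rho : ∃ g ∈ NN K, ∀ x i, g x i = (NrC_e1 i : K) * x (NrC_p1 i) := by
  obtain ⟨g, hg⟩ := NrC_ex (K := K) (p := NrC_p1) (q := NrC_q1) (e := NrC_e1)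
    (by decide) (by decide) (by decide)
  refine ⟨g, NrC_NN ⟨fun x y => ?_, fun x y => ?_⟩ hg (q := NrC_q1) (by decide) (by decide)
    (by decide), hg⟩
  · funext i
    fin_cases i <;> simp [-mul_eq_mul_left_iff, br, hg, NrC_e1, NrC_p1] <;> ring
  · simp [bf, hg, NrC_e1, NrC_p1]
    ring

theorem NrC_ref : ∃ g ∈ NN K, ∀ x i, g x i = (NrC_e2 i : K) * x (NrC_p2 i) := by
  obtain ⟨g, hg⟩ := NrC_ex (K := K) (p := NrC_p2) (q := NrC_p2) (e := NrC_e2)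
    (by decide) (by decide) (by decide)
  refine ⟨g, NrC_NN ⟨fun x y => ?_, fun x y => ?_⟩ hg (q := NrC_p2) (by decide) (by decide)
    (by decide), hg⟩
  · funext i
    fin_cases i <;> simp [-mul_eq_mul_left_iff, br, hg, NrC_e2, NrC_p2] <;> ring
  · simp [bf, hg, NrC_e2, NrC_p2]
    ring

theorem NrC_iot : ∃ g ∈ NN K, ∀ x i, g x i = (NrC_e3 i : K) * x (NrC_p3 i) := by
  obtain ⟨g, hg⟩ := NrC_ex (K := K) (p := NrC_p3) (q := NrC_p3) (e := NrC_e3)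
    (by decide) (by decide) (by decide)
  refine ⟨g, NrC_NN ⟨fun x y => ?_, fun x y => ?_⟩ hg (q := NrC_p3) (by decide) (by decide)
    (by decide), hg⟩
  · funext i
    fin_cases i <;> simp [-mul_eq_mul_left_iff, br, hg, NrC_e3, NrC_p3] <;> ring
  · simp [bf, hg, NrC_e3, NrC_p3]
    ring

/-- pairs of coordinates which are images of `e_1, e_2` -/
def NrC_Q (K : Type) [Field K] (a b : Fin 7) : Prop :=
  ∃ g ∈ NN K, ∃ c d : K, g (ev 1) = c • ev a ∧ g (ev 2) = d • ev b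

theorem NrC_step {g : EE K} (hg : g ∈ NN K) {p q : Fin 7 → Fin 7} {e : Fin 7 → ℤ}
    (H : ∀ x i, g x i = (e i : K) * x (p i)) (hpq : ∀ i, p (q i) = i) (hqp : ∀ i, q (p i) = i)
    {a b : Fin 7} (h : NrC_Q K a b) : NrC_Q K (q a) (q b) := by
  obtain ⟨k, hk, c, d, h1, h2⟩ := h
  refine ⟨g * k, mul_mem hg hk, c * (e (q a) : K), d * (e (q b) : K), ?_, ?_⟩
  · rw [LinearEquiv.mul_apply, h1, map_smul, NrC_ev H hpq hqp, smul_smul]
  · rw [LinearEquiv.mul_apply, h2, map_smul, NrC_ev H hpq hqp, smul_smul]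

/-- the twelve pairs -/
def NrC_tb : Fin 12 → Fin 7 × Fin 7 :=
  ![(1, 2), (2, 3), (3, 1), (2, 1), (3, 2), (1, 3),
    (4, 5), (5, 6), (6, 4), (5, 4), (6, 5), (4, 6)]

theorem NrC_all (k : Fin 12) : NrC_Q K (NrC_tb k).1 (NrC_tb k).2 := by
  obtain ⟨r, hr, hr'⟩ := NrC_rho (K := K)
  obtain ⟨s, hs, hs'⟩ := NrC_ref (K := K)
  obtain ⟨t, ht, ht'⟩ := NrC_iot (K := K)
  have R : ∀ {a b : Fin 7}, NrC_Q K a b → NrC_Q K (NrC_q1 a) (NrC_q1 b) := fun h =>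
    NrC_step hr hr' (by decide) (by decide) h
  have S : ∀ {a b : Fin 7}, NrC_Q K a b → NrC_Q K (NrC_p2 a) (NrC_p2 b) := fun h =>
    NrC_step hs hs' (by decide) (by decide) h
  have T : ∀ {a b : Fin 7}, NrC_Q K a b → NrC_Q K (NrC_p3 a) (NrC_p3 b) := fun h =>
    NrC_step ht ht' (by decide) (by decide) h
  have q0 : NrC_Q K 1 2 := ⟨1, one_mem _, 1, 1, by simp, by simp⟩
  have q1 : NrC_Q K 2 3 := R q0
  have q2 : NrC_Q K 3 1 := R q1
  have q3 : NrC_Q K 2 1 := S q0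
  have q4 : NrC_Q K 3 2 := R q3
  have q5 : NrC_Q K 1 3 := R q4
  have q6 : NrC_Q K 4 5 := T q0
  have q7 : NrC_Q K 5 6 := T q1
  have q8 : NrC_Q K 6 4 := T q2
  have q9 : NrC_Q K 5 4 := T q3
  have q10 : NrC_Q K 6 5 := T q4
  have q11 : NrC_Q K 4 6 := T q5
  fin_cases k
  · exact q0
  · exact q1
  · exact q2
  · exact q3
  · exact q4
  · exact q5
  · exact q6
  · exact q7
  · exact q8
  · exact q9
  · exact q10
  · exact q11

theorem NrC_t1 : ∀ r r' : Rt, (r.val < 6 ∧ r'.val < 6) ∨ (6 ≤ r.val ∧ 6 ≤ r'.val) →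
    ∃ k : Fin 12, rt r' = (rt r).1 • wt (NrC_tb k).1 + (rt r).2 • wt (NrC_tb k).2 := by
  decide

theorem NrC_t2 : ∀ j j' : Fin 7, j ≠ 0 → j' ≠ 0 →
    ∃ k : Fin 12, wt j' = (wt j).1 • wt (NrC_tb k).1 + (wt j).2 • wt (NrC_tb k).2 := by
  decide

theorem NrC_root (h2 : (2 : K) ≠ 0) (r r' : Rt)
    (h : (r.val < 6 ∧ r'.val < 6) ∨ (6 ≤ r.val ∧ 6 ≤ r'.val)) :
    ∃ g ∈ NN K, ∃ w σ τ, Mon g w σ τ ∧ τ r = r' := by
  obtain ⟨k, hk⟩ := NrC_t1 r r' h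
  obtain ⟨g, hg, c, d, h3, h4⟩ := NrC_all (K := K) k
  obtain ⟨w, σ, τ, hM, hw⟩ := NrC_key h2 hg h3 h4
  exact ⟨g, hg, w, σ, τ, hM, NrC_tau hM hw hk⟩

/-- the group `NN` is transitive on the long roots -/
theorem NN_long (h2 : (2 : K) ≠ 0) (r r' : Rt) (hr : r.val < 6) (hr' : r'.val < 6) :
    ∃ g ∈ NN K, ∃ w σ τ, Mon g w σ τ ∧ τ r = r' :=
  NrC_root h2 r r' (Or.inl ⟨hr, hr'⟩)

/-- the group `NN` is transitive on the short roots -/
theorem NN_short (h2 : (2 : K) ≠ 0) (r r' : Rt) (hr : 6 ≤ r.val) (hr' : 6 ≤ r'.val) :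
    ∃ g ∈ NN K, ∃ w σ τ, Mon g w σ τ ∧ τ r = r' :=
  NrC_root h2 r r' (Or.inr ⟨hr, hr'⟩)

/-- the group `NN` is transitive on the coordinates `1..6` -/
theorem NN_coord (h2 : (2 : K) ≠ 0) (j j' : Fin 7) (hj : j ≠ 0) (hj' : j' ≠ 0) :
    ∃ g ∈ NN K, ∃ w σ τ, Mon g w σ τ ∧ σ j = j' := by
  obtain ⟨k, hk⟩ := NrC_t2 j j' hj hj'
  obtain ⟨g, hg, c, d, h3, h4⟩ := NrC_all (K := K) k
  obtain ⟨w, σ, τ, hM, hw⟩ := NrC_key h2 hg h3 h4
  exact ⟨g, hg, w, σ, τ, hM, NrC_sig hM hw hk⟩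

/-- cyclic permutation of the three coordinates -/
theorem NN_rho (h2 : (2 : K) ≠ 0) : ∃ g ∈ NN K, g ^ 3 = 1 ∧ ∃ w σ τ, Mon g w σ τ ∧
    w (1, 0) = (0, 1) ∧ w (0, 1) = (-1, -1) := by
  obtain ⟨g, hg, H⟩ := NrC_rho (K := K)
  obtain ⟨w, σ, τ, hM, hw⟩ := NrC_key h2 hg
    (NrC_ev H (q := NrC_q1) (by decide) (by decide) 1)
    (NrC_ev H (q := NrC_q1) (by decide) (by decide) 2)
  refine ⟨g, hg, ?_, w, σ, τ, hM, ?_, ?_⟩
  · apply LinearEquiv.ext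
    intro x
    funext i
    show (g ^ 3) x i = x i
    have h3 : ∀ i, NrC_p1 (NrC_p1 (NrC_p1 i)) = i := by decide
    have h4 : ∀ i : Fin 7, (NrC_e1 i : K) = 1 := fun i => Int.cast_one
    rw [pow_succ, pow_two, LinearEquiv.mul_apply, LinearEquiv.mul_apply, H, H, H, h4, h4, h4,
      one_mul, one_mul, one_mul, h3]
  · rw [hw]
    decide
  · rw [hw]
    decide

/-- the element `-1` of the Weyl group -/
theorem NN_neg (h2 : (2 : K) ≠ 0) : ∃ g ∈ NN K, ∃ w σ τ, Mon g w σ τ ∧ ∀ v, w v = -v := by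
  obtain ⟨g, hg, H⟩ := NrC_iot (K := K)
  obtain ⟨w, σ, τ, hM, hw⟩ := NrC_key h2 hg
    (NrC_ev H (q := NrC_p3) (by decide) (by decide) 1)
    (NrC_ev H (q := NrC_p3) (by decide) (by decide) 2)
  refine ⟨g, hg, w, σ, τ, hM, fun v => ?_⟩
  rw [hw]
  have h3 : wt (NrC_p3 1) = (-1, 0) := by decide
  have h4 : wt (NrC_p3 2) = (0, -1) := by decide
  rw [h3, h4]
  ext <;> simp

/-- reflections: table of permutations -/
def NrC_pt : Rt → Fin 7 → Fin 7 :=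
  ![![0, 2, 1, 3, 5, 4, 6],
    ![0, 2, 1, 3, 5, 4, 6],
    ![0, 3, 2, 1, 6, 5, 4],
    ![0, 3, 2, 1, 6, 5, 4],
    ![0, 1, 3, 2, 4, 6, 5],
    ![0, 1, 3, 2, 4, 6, 5],
    ![0, 4, 6, 5, 1, 3, 2],
    ![0, 4, 6, 5, 1, 3, 2],
    ![0, 6, 5, 4, 3, 2, 1],
    ![0, 6, 5, 4, 3, 2, 1],
    ![0, 5, 4, 6, 2, 1, 3],
    ![0, 5, 4, 6, 2, 1, 3]]

/-- reflections: table of signs -/
def NrC_et : Rt → Fin 7 → ℤ :=
  ![![1, 1, -1, 1, 1, -1, 1],
    ![1, -1, 1, 1, -1, 1, 1],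
    ![1, 1, 1, -1, 1, 1, -1],
    ![1, -1, 1, 1, -1, 1, 1],
    ![1, 1, 1, -1, 1, 1, -1],
    ![1, 1, -1, 1, 1, -1, 1],
    ![-1, -1, 1, -1, -1, 1, -1],
    ![-1, -1, 1, -1, -1, 1, -1],
    ![-1, -1, -1, 1, -1, -1, 1],
    ![-1, -1, -1, 1, -1, -1, 1],
    ![-1, 1, -1, -1, 1, -1, -1],
    ![-1, 1, -1, -1, 1, -1, -1]]

/-- the constants -/
def NrC_ct : Rt → ℤ := ![-1, -1, -1, -1, -1, -1, 1, 1, 1, 1, 1, 1]

theorem NrC_wy (r : Rt) (x : V K) (i : Fin 7) :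
    (X r 1 * X (ng r) (NrC_ct r : K) * X r 1 : EE K) x i =
      (NrC_et r i : K) * x (NrC_pt r i) := by
  rw [LinearEquiv.mul_apply, LinearEquiv.mul_apply]
  fin_cases r <;> fin_cases i <;>
    simp [X_apply, NrC_ct, NrC_et, NrC_pt, cc, sc, qc, qs, ng] <;> ring

theorem NrC_t3 : ∀ r : Rt, ∀ i : Fin 7, NrC_pt r (NrC_pt r i) = i := by
  decide

theorem NrC_t4 : ∀ r : Rt, ∀ i : Fin 7, NrC_et r i * NrC_et r i = 1 := by
  decide

theorem NrC_t5 : ∀ r : Rt, rt (ng r) =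
    (rt r).1 • wt (NrC_pt r 1) + (rt r).2 • wt (NrC_pt r 2) := by
  decide

theorem NrC_t6 : ∀ r : Rt, rt r =
    (rt (ng r)).1 • wt (NrC_pt r 1) + (rt (ng r)).2 • wt (NrC_pt r 2) := by
  decide

theorem NrC_t7 : ∀ r : Rt, NrC_ct r = 1 ∨ NrC_ct r = -1 := by
  decide

/-- the Weyl element of a root inside the group generated by the two root groups:
`wy r = X r 1 * X (ng r) (-1) * X r 1` up to signs in the long case and a constant in the short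
case (find the constant `c`, a rational number with numerator and denominator dividing 2,
so that `X r 1 * X (ng r) c * X r 1` is monomial); it maps `rt r` to `-rt r` -/
theorem wy_ex (h2 : (2 : K) ≠ 0) (r : Rt) : ∃ c : K, c ≠ 0 ∧
    X r 1 * X (ng r) c * X r 1 ∈ NN K ∧
    ∃ w σ τ, Mon (X r 1 * X (ng r) c * X r 1) w σ τ ∧ τ r = ng r ∧ τ (ng r) = r := by
  have hN : X r 1 * X (ng r) (NrC_ct r : K) * X r 1 ∈ NN K :=
    NrC_NN (mul_mem (mul_mem (X_mem_GG _ _) (X_mem_GG _ _)) (X_mem_GG _ _)) (NrC_wy r)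
      (NrC_t3 r) (NrC_t3 r) (NrC_t4 r)
  refine ⟨(NrC_ct r : K), ?_, hN, ?_⟩
  · rcases NrC_t7 r with h | h <;> rw [h] <;> simp
  · obtain ⟨w, σ, τ, hM, hw⟩ := NrC_key h2 hN (NrC_ev (NrC_wy r) (NrC_t3 r) (NrC_t3 r) 1)
      (NrC_ev (NrC_wy r) (NrC_t3 r) (NrC_t3 r) 2)
    exact ⟨w, σ, τ, hM, NrC_tau hM hw (NrC_t5 r), NrC_tau hM hw (NrC_t6 r)⟩

end Pool.Agent.H40.GT
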