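import Pool.Agent.H40.GT.StdP

/-!
# Part Op1 (of Op1, Op2); GT-64 overgroups with a nontrivial normal `p`-subgroup

`N ≤ F` a nontrivial `p`-subgroup normalised by `F`, `p = |K|`.
`W = {x | ∀ u ∈ N, u x = x}`, `F`-stable, `W ≠ 0` (a `p`-group acting linearly on a nonzero finite
vector space of characteristic `p` has a nonzero fixed vector: `IsPGroup.card_modEq_card_fixedPoints`).
`W' = {x | ∀ w ∈ W, bf x w = 0}`, `F`-stable.  `U = W ⊓ W' ≠ 0`: otherwise `V = W ⊕ W'` (`bf` is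
nondegenerate, dimension of `W'` = 7 - dim `W`), `N` acts on `W'`, and if `W' ≠ 0` it has a nonzero fixed
vector in `W' ∩ W`; so `W' = 0`, `W = V`, `N = 1`.
`U` is stable under `TT`, so it is spanned by coordinate vectors (`ok_sub`): `ev j ∈ U` iff some
`x ∈ U` has `x j ≠ 0`; `bf = 0` on `U`, so `0 ∉ J`, no `j, -j ∈ J` (`J = {j | ev j ∈ U}`, `-1 = 4`, `-2 = 5`,
`-3 = 6`).  Cases:
* `|J| = 1`: `F` fixes the line of `ev j`.
* `|J| = 2`, `br (ev j) (ev k) = 0`: `J` = the coordinates of a special line `ln r`, `F` preserves it.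
* `|J| = 2`, `br ≠ 0`: `br U U` is the line of a coordinate vector, fixed by `F`.
* `|J| = 3`, both signs occur (e.g. `{1,2,6}`, `{1,5,6}`): `br U U` is a coordinate line.
* `J = {1,2,3}` or `{4,5,6}`: `N` is trivial on `U`, on `br U U` (the opposite three coordinates) and on
  `br (ev 1) (ev 4) = ev 0`: `N = 1`, contradiction.
So `F` is standard by `Std_pt`, `Std_ln`.
-/

namespace Pool.Agent.H40.GT

variable {K : Type} [Field K]

theorem Op1_bf_add (x y z : V K) : bf x (y + z) = bf x y + bf x z := by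
  simp only [bf, Pi.add_apply]
  ring

theorem Op1_bf_smul (x y : V K) (a : K) : bf x (a • y) = a * bf x y := by
  simp only [bf, Pi.smul_apply, smul_eq_mul]
  ring

theorem Op1_bf_comm (x y : V K) : bf x y = bf y x := by
  simp only [bf]
  ring

/-- the orthogonal space -/
def Op1_perp (W : Submodule K (V K)) : Submodule K (V K) where
  carrier := {x | ∀ w ∈ W, bf w x = 0}
  zero_mem' := by
    intro w _
    simp [bf]
  add_mem' := by
    intro x y hx hy w hw
    rw [Op1_bf_add, hx w hw, hy w hw, add_zero]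
  smul_mem' := by
    intro a x hx w hw
    rw [Op1_bf_smul, hx w hw, mul_zero]

/-- the fixed space -/
def Op1_fix (N : Subgroup (EE K)) : Submodule K (V K) where
  carrier := {x | ∀ u ∈ N, u x = x}
  zero_mem' := by
    intro u _
    exact map_zero u
  add_mem' := by
    intro x y hx hy u hu
    rw [map_add, hx u hu, hy u hu]
  smul_mem' := by
    intro a x hx u hu
    rw [map_smul, hx u hu]

/-- a `p`-group fixes a nonzero vector in every nonzero stable subspace -/
theorem Op1_fixed (hK : Ok K) {N : Subgroup (EE K)} (hp : IsPGroup (Nat.card K) N)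
    {P : Submodule K (V K)} (hP : P ≠ ⊥) (hN : ∀ u ∈ N, ∀ x ∈ P, u x ∈ P) :
    ∃ x ∈ P, x ≠ 0 ∧ ∀ u ∈ N, u x = x := by
  have hfK := ok_finite hK
  have : Fact (Nat.card K).Prime := ⟨ok_prime hK⟩
  let act : MulAction N P :=
    { smul := fun u x => ⟨(u : EE K) x, hN u u.2 x x.2⟩
      one_smul := fun x => Subtype.ext rfl
      mul_smul := fun u v x => Subtype.ext rfl }
  have hsm : ∀ (u : N) (x : P), ((u • x : P) : V K) = (u : EE K) x := fun _ _ => rfl
  have h0 : (0 : P) ∈ MulAction.fixedPoints N P := by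
    intro u
    apply Subtype.ext
    rw [hsm]
    exact map_zero _
  have hdvd : Nat.card K ∣ Nat.card P := by
    rw [Module.natCard_eq_pow_finrank (K := K) (V := P)]
    apply dvd_pow_self
    intro q
    apply hP
    exact Submodule.finrank_eq_zero.1 q
  obtain ⟨b, hb, hb0⟩ := hp.exists_fixed_point_of_prime_dvd_card_of_fixed_point P hdvd h0
  refine ⟨b, b.2, ?_, ?_⟩
  · intro q
    apply hb0
    exact (Subtype.ext q).symm
  · intro u hu
    have := hb ⟨u, hu⟩
    rw [← hsm ⟨u, hu⟩ b, this]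

theorem Op1_perp_ne (hK : Ok K) {W : Submodule K (V K)} (hW : W ≠ ⊤) : Op1_perp W ≠ ⊥ := by
  have h2 := ok_two hK
  obtain ⟨f, hf, hle⟩ := Submodule.exists_le_ker_of_lt_top W (lt_top_iff_ne_top.2 hW)
  rw [Submodule.ne_bot_iff]
  refine ⟨![f (ev 0) / 2, f (ev 4), f (ev 5), f (ev 6), f (ev 1), f (ev 2), f (ev 3)], ?_, ?_⟩
  · intro w hw
    have hfw : f w = 0 := hle hw
    rw [V_sum w, map_sum] at hfw
    simp only [map_smul, smul_eq_mul, Fin.sum_univ_seven] at hfw
    show 2 * w 0 * (f (ev 0) / 2) + (w 1 * f (ev 1) + w 4 * f (ev 4)) +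
      (w 2 * f (ev 2) + w 5 * f (ev 5)) + (w 3 * f (ev 3) + w 6 * f (ev 6)) = 0
    rw [← hfw]
    field_simp
    ring
  · intro q
    apply hf
    have q0 := congrFun q 0
    have q1 := congrFun q 1
    have q2 := congrFun q 2
    have q3 := congrFun q 3
    have q4 := congrFun q 4
    have q5 := congrFun q 5
    have q6 := congrFun q 6
    have q0' : f (ev 0) / 2 = 0 := q0
    have q1' : f (ev 4) = 0 := q1
    have q2' : f (ev 5) = 0 := q2
    have q3' : f (ev 6) = 0 := q3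
    have q4' : f (ev 1) = 0 := q4
    have q5' : f (ev 2) = 0 := q5
    have q6' : f (ev 3) = 0 := q6
    have q0'' : f (ev 0) = 0 := by
      rcases div_eq_zero_iff.1 q0' with q | q
      · exact q
      · exact absurd q h2
    apply LinearMap.ext
    intro x
    rw [V_sum x, map_sum, Fin.sum_univ_seven]
    simp only [map_smul, q0'', q1', q2', q3', q4', q5', q6', smul_zero, add_zero]
    rfl

theorem op_sub (hK : Ok K) {F : Subgroup (EE K)} (hF : Ov F) (N : Subgroup (EE K)) (hN : N ≤ F)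
    (hn : ∀ f ∈ F, ∀ u ∈ N, f * u * f⁻¹ ∈ N) (hp : IsPGroup (Nat.card K) N) (h1 : N ≠ ⊥) :
    ∃ U : Submodule K (V K), U ≠ ⊥ ∧ (∀ f ∈ F, ∀ x ∈ U, f x ∈ U) ∧
      (∀ x ∈ U, ∀ y ∈ U, bf x y = 0) ∧ ∀ u ∈ N, ∀ x ∈ U, u x = x := by
  have einv : ∀ (g : EE K) (x : V K), g (g⁻¹ x) = x := fun g x => g.apply_symm_apply x
  have hW1 : ∀ f ∈ F, ∀ x ∈ Op1_fix N, f x ∈ Op1_fix N := by
    intro f hf x hx u hu
    have h2 := hn f⁻¹ (inv_mem hf) u hu
    rw [inv_inv] at h2
    have h3 := hx _ h2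
    have h4 : u (f x) = f ((f⁻¹ * u * f) x) := by
      rw [LinearEquiv.mul_apply, LinearEquiv.mul_apply, einv]
    rw [h4, h3]
  have hW2 : ∀ f ∈ F, ∀ x ∈ Op1_perp (Op1_fix N), f x ∈ Op1_perp (Op1_fix N) := by
    intro f hf x hx w hw
    have h2 := hW1 f⁻¹ (inv_mem hf) w hw
    have h3 := hx _ h2
    have h4 := (hF.2 hf).2 (f⁻¹ w) x
    rw [einv] at h4
    rw [h4, h3]
  have hne : Op1_fix N ≠ ⊤ := by
    intro q
    apply h1
    rw [Subgroup.eq_bot_iff_forall]
    intro u hu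
    apply LinearEquiv.ext
    intro x
    have hx : x ∈ Op1_fix N := by
      rw [q]
      exact Submodule.mem_top
    exact hx u hu
  have hperp := Op1_perp_ne hK hne
  obtain ⟨x, hx, hx0, hxN⟩ := Op1_fixed hK hp hperp (fun u hu y hy => hW2 u (hN hu) y hy)
  refine ⟨Op1_fix N ⊓ Op1_perp (Op1_fix N), ?_, ?_, ?_, ?_⟩
  · rw [Submodule.ne_bot_iff]
    exact ⟨x, ⟨hxN, hx⟩, hx0⟩
  · intro f hf y hy
    exact ⟨hW1 f hf y hy.1, hW2 f hf y hy.2⟩
  · intro y hy z hz
    exact hz.2 y hy.1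
  · intro u hu y hy
    exact hy.1 u hu

end Pool.Agent.H40.GT
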