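import Pool.Agent.H40.GT.Op1

/-!
# Part Op2 (of Op1, Op2); GT-64 overgroups with a nontrivial normal `p`-subgroup

`N ≤ F` a nontrivial `p`-subgroup normalised by `F`, `p = |K|`.
`W = {x | ∀ u ∈ N, u x = x}`, `F`-stable, `W ≠ 0` (a `p`-group acting linearly on a nonzero finite
vector space of characteristic `p` has a nonzero fixed vector: `IsPGroup.card_modEq_card_fixedPoints`).
`W' = {x | ∀ w ∈ W, bf x w = 0}`, `F`-stable.  `U = W ⊓ W' ≠ 0`: otherwise `V = W ⊕ W'` (`bf` is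
nondegenerate, dimension of `W'` = 7 - dim `W`), `N` acts on `W'`, and if `W' ≠ 0` it has a nonzero fixed
vector in `W' ∩ W`; so `W' = 0`, `W = V`, `N = 1`.
`U` is stable under `TT`, so it is spanned by coordinate vectors (`ok_sub`): `ev j ∈ U` iff some
`x ∈ U` has `x j ≠ 0`; `bf = 0` on `U`, so `0 ∉ J`, no `j, -j ∈ J` (`J = {j | ev j ∈ U}`, `-1 = 4`, `-2 = 5`,
`-3 = 6`).  Cases:
* `|J| = 1`: `F` fixes the line of `ev j`.
* `|J| = 2`, `br (ev j) (ev k) = 0`: `J` = the coordinates of a special line `ln r`, `F` preserves it.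
* `|J| = 2`, `br ≠ 0`: `br U U` is the line of a coordinate vector, fixed by `F`.
* `|J| = 3`, both signs occur (e.g. `{1,2,6}`, `{1,5,6}`): `br U U` is a coordinate line.
* `J = {1,2,3}` or `{4,5,6}`: `N` is trivial on `U`, on `br U U` (the opposite three coordinates) and on
  `br (ev 1) (ev 4) = ev 0`: `N = 1`, contradiction.
So `F` is standard by `Std_pt`, `Std_ln`.
-/

namespace Pool.Agent.H40.GT

variable {K : Type} [Field K]

theorem Op2_br (a b m : Fin 7) (c : ℤ)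
    (h : (a = 1 ∧ b = 2 ∧ m = 6 ∧ c = 2) ∨ (a = 2 ∧ b = 3 ∧ m = 4 ∧ c = 2) ∨
      (a = 3 ∧ b = 1 ∧ m = 5 ∧ c = 2) ∨ (a = 5 ∧ b = 6 ∧ m = 1 ∧ c = -2) ∨
      (a = 6 ∧ b = 4 ∧ m = 2 ∧ c = -2) ∨ (a = 4 ∧ b = 5 ∧ m = 3 ∧ c = -2) ∨
      (a = 1 ∧ b = 4 ∧ m = 0 ∧ c = 1)) : br (ev a : V K) (ev b) = (c : K) • ev m := by
  rcases h with ⟨rfl, rfl, rfl, rfl⟩ | ⟨rfl, rfl, rfl, rfl⟩ | ⟨rfl, rfl, rfl, rfl⟩ |
    ⟨rfl, rfl, rfl, rfl⟩ | ⟨rfl, rfl, rfl, rfl⟩ | ⟨rfl, rfl, rfl, rfl⟩ | ⟨rfl, rfl, rfl, rfl⟩ <;>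
  · funext i
    fin_cases i <;> simp [br, ev]

theorem Op2_zero (a b m : Fin 7)
    (h : (a = 1 ∧ b = 2 ∧ m = 6) ∨ (a = 2 ∧ b = 3 ∧ m = 4) ∨
      (a = 3 ∧ b = 1 ∧ m = 5) ∨ (a = 5 ∧ b = 6 ∧ m = 1) ∨
      (a = 6 ∧ b = 4 ∧ m = 2) ∨ (a = 4 ∧ b = 5 ∧ m = 3)) (x y : V K)
    (hx : ∀ i, i ≠ a → i ≠ b → i ≠ m → x i = 0) (hy : ∀ i, i ≠ a → i ≠ b → i ≠ m → y i = 0)
    (i : Fin 7) (hi : i ≠ m) : br x y i = 0 := by
  rcases h with ⟨rfl, rfl, rfl⟩ | ⟨rfl, rfl, rfl⟩ | ⟨rfl, rfl, rfl⟩ | ⟨rfl, rfl, rfl⟩ |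
    ⟨rfl, rfl, rfl⟩ | ⟨rfl, rfl, rfl⟩
  · have x0 := hx 0 (by decide) (by decide) (by decide)
    have x3 := hx 3 (by decide) (by decide) (by decide)
    have x4 := hx 4 (by decide) (by decide) (by decide)
    have x5 := hx 5 (by decide) (by decide) (by decide)
    have y0 := hy 0 (by decide) (by decide) (by decide)
    have y3 := hy 3 (by decide) (by decide) (by decide)
    have y4 := hy 4 (by decide) (by decide) (by decide)
    have y5 := hy 5 (by decide) (by decide) (by decide)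
    fin_cases i <;> simp_all [br]
  · have x0 := hx 0 (by decide) (by decide) (by decide)
    have x1 := hx 1 (by decide) (by decide) (by decide)
    have x5 := hx 5 (by decide) (by decide) (by decide)
    have x6 := hx 6 (by decide) (by decide) (by decide)
    have y0 := hy 0 (by decide) (by decide) (by decide)
    have y1 := hy 1 (by decide) (by decide) (by decide)
    have y5 := hy 5 (by decide) (by decide) (by decide)
    have y6 := hy 6 (by decide) (by decide) (by decide)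
    fin_cases i <;> simp_all [br]
  · have x0 := hx 0 (by decide) (by decide) (by decide)
    have x2 := hx 2 (by decide) (by decide) (by decide)
    have x4 := hx 4 (by decide) (by decide) (by decide)
    have x6 := hx 6 (by decide) (by decide) (by decide)
    have y0 := hy 0 (by decide) (by decide) (by decide)
    have y2 := hy 2 (by decide) (by decide) (by decide)
    have y4 := hy 4 (by decide) (by decide) (by decide)
    have y6 := hy 6 (by decide) (by decide) (by decide)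
    fin_cases i <;> simp_all [br]
  · have x0 := hx 0 (by decide) (by decide) (by decide)
    have x2 := hx 2 (by decide) (by decide) (by decide)
    have x3 := hx 3 (by decide) (by decide) (by decide)
    have x4 := hx 4 (by decide) (by decide) (by decide)
    have y0 := hy 0 (by decide) (by decide) (by decide)
    have y2 := hy 2 (by decide) (by decide) (by decide)
    have y3 := hy 3 (by decide) (by decide) (by decide)
    have y4 := hy 4 (by decide) (by decide) (by decide)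
    fin_cases i <;> simp_all [br]
  · have x0 := hx 0 (by decide) (by decide) (by decide)
    have x1 := hx 1 (by decide) (by decide) (by decide)
    have x3 := hx 3 (by decide) (by decide) (by decide)
    have x5 := hx 5 (by decide) (by decide) (by decide)
    have y0 := hy 0 (by decide) (by decide) (by decide)
    have y1 := hy 1 (by decide) (by decide) (by decide)
    have y3 := hy 3 (by decide) (by decide) (by decide)
    have y5 := hy 5 (by decide) (by decide) (by decide)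
    fin_cases i <;> simp_all [br]
  · have x0 := hx 0 (by decide) (by decide) (by decide)
    have x1 := hx 1 (by decide) (by decide) (by decide)
    have x2 := hx 2 (by decide) (by decide) (by decide)
    have x6 := hx 6 (by decide) (by decide) (by decide)
    have y0 := hy 0 (by decide) (by decide) (by decide)
    have y1 := hy 1 (by decide) (by decide) (by decide)
    have y2 := hy 2 (by decide) (by decide) (by decide)
    have y6 := hy 6 (by decide) (by decide) (by decide)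
    fin_cases i <;> simp_all [br]

/-- the coordinates of the special line of a long root -/
def Op2_ls : Rt → Fin 7 × Fin 7 :=
  ![(1, 5), (2, 4), (1, 6), (3, 4), (2, 6), (3, 5), (0, 0), (0, 0), (0, 0), (0, 0), (0, 0), (0, 0)]

theorem Op2_ln (r : Rt) (hr : r.val < 6) (x : V K) :
    x ∈ (ln r : Submodule K (V K)) ↔ ∀ i, i ≠ (Op2_ls r).1 → i ≠ (Op2_ls r).2 → x i = 0 := by
  constructor
  · rintro ⟨y, rfl⟩ i h1 h2
    rw [Nl_apply]
    have hc : ∀ r : Rt, r.val < 6 → ∀ i : Fin 7, i ≠ (Op2_ls r).1 → i ≠ (Op2_ls r).2 →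
        cc r i = 0 := by decide
    rw [hc r hr i h1 h2, Int.cast_zero, zero_mul]
  · intro h
    have hs : ∀ r : Rt, r.val < 6 → (Op2_ls r).1 ≠ (Op2_ls r).2 ∧
        sc r (Op2_ls r).1 ≠ sc r (Op2_ls r).2 ∧
        cc r (Op2_ls r).1 = 1 ∧ cc r (Op2_ls r).2 = -1 ∧ ∀ i : Fin 7, i ≠ (Op2_ls r).1 →
        i ≠ (Op2_ls r).2 → cc r i = 0 := by decide
    obtain ⟨s0, s1, s2, s3, s4⟩ := hs r hr
    refine ⟨x (Op2_ls r).1 • ev (sc r (Op2_ls r).1) - x (Op2_ls r).2 • ev (sc r (Op2_ls r).2), ?_⟩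
    funext i
    rw [Nl_apply]
    by_cases h1 : i = (Op2_ls r).1
    · rw [h1, s2, Pi.sub_apply, Pi.smul_apply, Pi.smul_apply, ev_same, ev_ne s1]
      simp
    · by_cases h2 : i = (Op2_ls r).2
      · rw [h2, s3, Pi.sub_apply, Pi.smul_apply, Pi.smul_apply, ev_same, ev_ne s1.symm]
        simp
      · rw [h i h1 h2, s4 i h1 h2, Int.cast_zero, zero_mul]

/-- a set of coordinates which contains `a`, `b` and is contained in `{a, b, m}` -/
def Op2_T (J : Finset (Fin 7)) (a b m : Fin 7) : Prop :=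
  a ∈ J ∧ b ∈ J ∧ ∀ i ∈ J, i = a ∨ i = b ∨ i = m

instance (J : Finset (Fin 7)) (a b m : Fin 7) : Decidable (Op2_T J a b m) :=
  inferInstanceAs (Decidable (a ∈ J ∧ b ∈ J ∧ ∀ i ∈ J, i = a ∨ i = b ∨ i = m))

/-- the coordinates of a special line -/
def Op2_L (J : Finset (Fin 7)) (r : Rt) : Prop :=
  r.val < 6 ∧ Op2_T J (Op2_ls r).1 (Op2_ls r).2 (Op2_ls r).2

instance (J : Finset (Fin 7)) (r : Rt) : Decidable (Op2_L J r) :=
  inferInstanceAs (Decidable (r.val < 6 ∧ Op2_T J (Op2_ls r).1 (Op2_ls r).2 (Op2_ls r).2))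

/-- one coordinate or a special line -/
def Op2_A (J : Finset (Fin 7)) : Prop := (∃ j ∈ J, j ≠ 0 ∧ ∀ i ∈ J, i = j) ∨ (∃ r : Rt, Op2_L J r)

instance (J : Finset (Fin 7)) : Decidable (Op2_A J) :=
  inferInstanceAs (Decidable ((∃ j ∈ J, j ≠ 0 ∧ ∀ i ∈ J, i = j) ∨ (∃ r : Rt, Op2_L J r)))

/-- the cases with a coordinate line of products -/
def Op2_B (J : Finset (Fin 7)) : Prop :=
  Op2_T J 1 2 6 ∨ Op2_T J 2 3 4 ∨ Op2_T J 3 1 5 ∨ Op2_T J 5 6 1 ∨ Op2_T J 6 4 2 ∨ Op2_T J 4 5 3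

instance (J : Finset (Fin 7)) : Decidable (Op2_B J) :=
  inferInstanceAs (Decidable (Op2_T J 1 2 6 ∨ Op2_T J 2 3 4 ∨ Op2_T J 3 1 5 ∨ Op2_T J 5 6 1 ∨
    Op2_T J 6 4 2 ∨ Op2_T J 4 5 3))

/-- the remaining cases -/
def Op2_C (J : Finset (Fin 7)) : Prop := (1 ∈ J ∧ 2 ∈ J ∧ 3 ∈ J) ∨ (4 ∈ J ∧ 5 ∈ J ∧ 6 ∈ J)

instance (J : Finset (Fin 7)) : Decidable (Op2_C J) :=
  inferInstanceAs (Decidable ((1 ∈ J ∧ 2 ∈ J ∧ 3 ∈ J) ∨ (4 ∈ J ∧ 5 ∈ J ∧ 6 ∈ J)))

/-- the coordinates of an isotropic subspace -/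
def Op2_H (J : Finset (Fin 7)) : Prop :=
  J ≠ ∅ ∧ 0 ∉ J ∧ ¬ (1 ∈ J ∧ 4 ∈ J) ∧ ¬ (2 ∈ J ∧ 5 ∈ J) ∧ ¬ (3 ∈ J ∧ 6 ∈ J)

instance (J : Finset (Fin 7)) : Decidable (Op2_H J) :=
  inferInstanceAs (Decidable (J ≠ ∅ ∧ 0 ∉ J ∧ ¬ (1 ∈ J ∧ 4 ∈ J) ∧ ¬ (2 ∈ J ∧ 5 ∈ J) ∧
    ¬ (3 ∈ J ∧ 6 ∈ J)))

set_option maxRecDepth 100000 in
theorem Op2_comb : ∀ J : Finset (Fin 7), Op2_H J → Op2_A J ∨ Op2_B J ∨ Op2_C J := by
  decide

theorem Op2_two (hK : Ok K) {F : Subgroup (EE K)} (hF : Ov F) {U : Submodule K (V K)}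
    (hU : ∀ f ∈ F, ∀ x ∈ U, f x ∈ U) (a b m : Fin 7) (c : ℤ) (hc : (c : K) ≠ 0) (hm : m ≠ 0)
    (h : (a = 1 ∧ b = 2 ∧ m = 6) ∨ (a = 2 ∧ b = 3 ∧ m = 4) ∨
      (a = 3 ∧ b = 1 ∧ m = 5) ∨ (a = 5 ∧ b = 6 ∧ m = 1) ∨
      (a = 6 ∧ b = 4 ∧ m = 2) ∨ (a = 4 ∧ b = 5 ∧ m = 3))
    (hbr : br (ev a : V K) (ev b) = (c : K) • ev m)
    (ha : ev a ∈ U) (hb : ev b ∈ U) (hz : ∀ i, i ≠ a → i ≠ b → i ≠ m → ∀ x ∈ U, x i = 0) :
    Std F := by
  apply Std_pt hK hF hm
  intro f hf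
  refine ⟨f (ev m) m, ?_⟩
  have h1 : ev m = (c : K)⁻¹ • br (ev a : V K) (ev b) := by
    rw [hbr, smul_smul, inv_mul_cancel₀ hc, one_smul]
  have h2 : f (ev m) = (c : K)⁻¹ • br (f (ev a)) (f (ev b)) := by
    rw [h1, map_smul, (hF.2 hf).1]
  have h3 := Op2_zero a b m h (f (ev a)) (f (ev b))
    (fun i q1 q2 q3 => hz i q1 q2 q3 _ (hU f hf _ ha))
    (fun i q1 q2 q3 => hz i q1 q2 q3 _ (hU f hf _ hb))
  funext i
  rw [Pi.smul_apply, smul_eq_mul]
  by_cases hi : i = m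
  · rw [hi, ev_same, mul_one]
  · rw [ev_ne hi, mul_zero, h2, Pi.smul_apply, h3 i hi, smul_zero]

theorem Opp (hK : Ok K) {F : Subgroup (EE K)} (hF : Ov F) (N : Subgroup (EE K)) (hN : N ≤ F)
    (hn : ∀ f ∈ F, ∀ u ∈ N, f * u * f⁻¹ ∈ N) (hp : IsPGroup (Nat.card K) N) (h1 : N ≠ ⊥) :
    Std F := by
  classical
  obtain ⟨U, hU0, hU, hiso, htr⟩ := op_sub hK hF N hN hn hp h1
  have h2 := ok_two hK
  have h2i : (((2 : ℤ) : ℤ) : K) ≠ 0 := by
    rw [Int.cast_ofNat]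
    exact h2
  have h2n : (((-2 : ℤ) : ℤ) : K) ≠ 0 := by
    rw [Int.cast_neg, Int.cast_ofNat]
    exact neg_ne_zero.2 h2
  have hco : ∀ i : Fin 7, ev i ∉ U → ∀ x ∈ U, x i = 0 := by
    intro i hi x hx
    by_contra hne
    apply hi
    have h3 := ok_sub hK (fun t x hx => hU _ (hF.1 (tor_mem_TT t)) x hx) hx i
    have h4 := U.smul_mem (x i)⁻¹ h3
    rwa [smul_smul, inv_mul_cancel₀ hne, one_smul] at h4
  set J : Finset (Fin 7) := Finset.univ.filter (fun i => (ev i : V K) ∈ U) with hJ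
  have hmem : ∀ i, i ∈ J ↔ (ev i : V K) ∈ U := by
    intro i
    rw [hJ, Finset.mem_filter]
    exact ⟨fun q => q.2, fun q => ⟨Finset.mem_univ i, q⟩⟩
  have hz : ∀ i, i ∉ J → ∀ x ∈ U, x i = 0 := fun i hi => hco i (fun q => hi ((hmem i).2 q))
  have hJ0 : J ≠ ∅ := by
    intro q
    apply hU0
    rw [eq_bot_iff]
    intro x hx
    rw [Submodule.mem_bot]
    funext i
    exact hz i (by rw [q]; exact Finset.notMem_empty i) x hx
  have e0 : (0 : Fin 7) ∉ J := by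
    intro q
    have := hiso _ ((hmem 0).1 q) _ ((hmem 0).1 q)
    apply h2
    simpa [bf, ev] using this
  have e14 : ¬ (1 ∈ J ∧ 4 ∈ J) := by
    rintro ⟨q1, q2⟩
    have := hiso _ ((hmem 1).1 q1) _ ((hmem 4).1 q2)
    simp [bf, ev] at this
  have e25 : ¬ (2 ∈ J ∧ 5 ∈ J) := by
    rintro ⟨q1, q2⟩
    have := hiso _ ((hmem 2).1 q1) _ ((hmem 5).1 q2)
    simp [bf, ev] at this
  have e36 : ¬ (3 ∈ J ∧ 6 ∈ J) := by
    rintro ⟨q1, q2⟩
    have := hiso _ ((hmem 3).1 q1) _ ((hmem 6).1 q2)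
    simp [bf, ev] at this
  have hz3 : ∀ a b m : Fin 7, (∀ i ∈ J, i = a ∨ i = b ∨ i = m) →
      ∀ i, i ≠ a → i ≠ b → i ≠ m → ∀ x ∈ U, x i = 0 := by
    intro a b m q i q1 q2 q3
    apply hz
    intro hi
    rcases q i hi with w | w | w
    · exact q1 w
    · exact q2 w
    · exact q3 w
  rcases Op2_comb J ⟨hJ0, e0, e14, e25, e36⟩ with
    (⟨j, j1, j2, j3⟩ | ⟨r, r1, r2, r3, r5⟩) | (⟨a1, a2, a3⟩ | ⟨a1, a2, a3⟩ | ⟨a1, a2, a3⟩ |
    ⟨a1, a2, a3⟩ | ⟨a1, a2, a3⟩ | ⟨a1, a2, a3⟩) | (⟨a1, a2, a3⟩ | ⟨a1, a2, a3⟩)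
  · apply Std_pt hK hF j2
    intro f hf
    refine ⟨f (ev j) j, ?_⟩
    have h3 := hU f hf _ ((hmem j).1 j1)
    funext i
    rw [Pi.smul_apply, smul_eq_mul]
    by_cases hi : i = j
    · rw [hi, ev_same, mul_one]
    · rw [ev_ne hi, mul_zero]
      exact hz i (fun q => hi (j3 i q)) _ h3
  · have r4 : ∀ i ∈ J, i = (Op2_ls r).1 ∨ i = (Op2_ls r).2 := by
      intro i hi
      rcases r5 i hi with w | w | w
      · exact Or.inl w
      · exact Or.inr w
      · exact Or.inr w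
    apply Std_ln hK hF r1
    intro f hf x hx
    have hxU : x ∈ U := by
      rw [V_sum x]
      apply Submodule.sum_mem
      intro i _
      by_cases q1 : i = (Op2_ls r).1
      · rw [q1]
        exact U.smul_mem _ ((hmem _).1 r2)
      · by_cases q2 : i = (Op2_ls r).2
        · rw [q2]
          exact U.smul_mem _ ((hmem _).1 r3)
        · rw [(Op2_ln r r1 x).1 hx i q1 q2, zero_smul]
          exact U.zero_mem
    rw [Op2_ln r r1]
    intro i q1 q2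
    apply hz i _ _ (hU f hf x hxU)
    intro hi
    rcases r4 i hi with w | w
    · exact q1 w
    · exact q2 w
  · exact Op2_two hK hF hU 1 2 6 2 h2i (by decide) (by decide) (Op2_br 1 2 6 2 (by decide))
      ((hmem _).1 a1) ((hmem _).1 a2) (hz3 _ _ _ a3)
  · exact Op2_two hK hF hU 2 3 4 2 h2i (by decide) (by decide) (Op2_br 2 3 4 2 (by decide))
      ((hmem _).1 a1) ((hmem _).1 a2) (hz3 _ _ _ a3)
  · exact Op2_two hK hF hU 3 1 5 2 h2i (by decide) (by decide) (Op2_br 3 1 5 2 (by decide))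
      ((hmem _).1 a1) ((hmem _).1 a2) (hz3 _ _ _ a3)
  · exact Op2_two hK hF hU 5 6 1 (-2) h2n (by decide) (by decide) (Op2_br 5 6 1 (-2) (by decide))
      ((hmem _).1 a1) ((hmem _).1 a2) (hz3 _ _ _ a3)
  · exact Op2_two hK hF hU 6 4 2 (-2) h2n (by decide) (by decide) (Op2_br 6 4 2 (-2) (by decide))
      ((hmem _).1 a1) ((hmem _).1 a2) (hz3 _ _ _ a3)
  · exact Op2_two hK hF hU 4 5 3 (-2) h2n (by decide) (by decide) (Op2_br 4 5 3 (-2) (by decide))
      ((hmem _).1 a1) ((hmem _).1 a2) (hz3 _ _ _ a3)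
  · exfalso
    apply h1
    rw [Subgroup.eq_bot_iff_forall]
    intro u hu
    have key : ∀ a b m : Fin 7, ∀ c : ℤ, (c : K) ≠ 0 → br (ev a : V K) (ev b) = (c : K) • ev m →
        u (ev a) = ev a → u (ev b) = ev b → u (ev m) = ev m := by
      intro a b m c hc hbr ha hb
      have h3 : ev m = (c : K)⁻¹ • br (ev a : V K) (ev b) := by
        rw [hbr, smul_smul, inv_mul_cancel₀ hc, one_smul]
      rw [h3, map_smul, (hF.2 (hN hu)).1, ha, hb]
    have u1 := htr u hu _ ((hmem _).1 a1)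
    have u2 := htr u hu _ ((hmem _).1 a2)
    have u3 := htr u hu _ ((hmem _).1 a3)
    have u6 := key 1 2 6 2 h2i (Op2_br 1 2 6 2 (by decide)) u1 u2
    have u4 := key 2 3 4 2 h2i (Op2_br 2 3 4 2 (by decide)) u2 u3
    have u5 := key 3 1 5 2 h2i (Op2_br 3 1 5 2 (by decide)) u3 u1
    have u0 := key 1 4 0 1 (by rw [Int.cast_one]; exact one_ne_zero) (Op2_br 1 4 0 1 (by decide)) u1 u4
    apply EE_ext
    intro j
    fin_cases j
    · exact u0
    · exact u1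
    · exact u2
    · exact u3
    · exact u4
    · exact u5
    · exact u6
  · exfalso
    apply h1
    rw [Subgroup.eq_bot_iff_forall]
    intro u hu
    have key : ∀ a b m : Fin 7, ∀ c : ℤ, (c : K) ≠ 0 → br (ev a : V K) (ev b) = (c : K) • ev m →
        u (ev a) = ev a → u (ev b) = ev b → u (ev m) = ev m := by
      intro a b m c hc hbr ha hb
      have h3 : ev m = (c : K)⁻¹ • br (ev a : V K) (ev b) := by
        rw [hbr, smul_smul, inv_mul_cancel₀ hc, one_smul]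
      rw [h3, map_smul, (hF.2 (hN hu)).1, ha, hb]
    have u4 := htr u hu _ ((hmem _).1 a1)
    have u5 := htr u hu _ ((hmem _).1 a2)
    have u6 := htr u hu _ ((hmem _).1 a3)
    have u1 := key 5 6 1 (-2) h2n (Op2_br 5 6 1 (-2) (by decide)) u5 u6
    have u2 := key 6 4 2 (-2) h2n (Op2_br 6 4 2 (-2) (by decide)) u6 u4
    have u3 := key 4 5 3 (-2) h2n (Op2_br 4 5 3 (-2) (by decide)) u4 u5
    have u0 := key 1 4 0 1 (by rw [Int.cast_one]; exact one_ne_zero) (Op2_br 1 4 0 1 (by decide)) u1 u4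
    apply EE_ext
    intro j
    fin_cases j
    · exact u0
    · exact u1
    · exact u2
    · exact u3
    · exact u4
    · exact u5
    · exact u6

end Pool.Agent.H40.GT
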