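import Pool.Agent.H40.GT.Der
import Pool.Agent.H33.EL.GrpC

/-!
# Part PG1 (of PG1, PG2); GT-15 torus stable unipotent subgroups are generated by root elements

`PG_one`: let `1 ≠ u ∈ QD d`, and let `k > 0` be minimal with `ld d k u ≠ 0` (exists: `u ≠ 1`, all
entries of `u - 1` have positive degree).  By `lead_IsD` `D = ld d k u` is a nonzero derivation;
some weight component `wc v D ≠ 0` (`wc_zero`), its weight has `d`-degree `k > 0`, so `v ≠ 0`, and
by `IsD_weight` `v = rt r`, `dr d r = k`.  If `u` commutes with `tor t` for all `t ∈ B`, so does `D`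
(`ld_tor`), so `ch (rt r) t = 1` for `t ∈ B` (`wc_tor`).  This gives
`PG_one : ∃ r, 0 < dr d r ∧ ∀ t ∈ B, ch (rt r) t = 1`.

`PG_ker`: let `u ∈ QD d` commute with `tor t` for all `t` with `ch (rt r) t = 1`.  Then `u = X r c`:
if `u ≠ 1`, let `k`, `D` be as before.  Every nonzero component of `D` has weight `rt r'` with
`ch (rt r') t = 1` whenever `ch (rt r) t = 1`, so `r' = r` or `r' = ng r` (`ok_rt_char`); its
degree is `k > 0`; so exactly one of the two is possible, call it `r'`, and `D = c • Nl r'`,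
`k = dr d r'`.  Let `u' = X r' (-c) * u ∈ QD d`; it commutes with the same `tor t`
(`X_comm_tor`, `ch (rt (ng r)) t = (ch (rt r) t)⁻¹`).  If `u' ≠ 1` the same argument shows that
its leading degree is again `dr d r' = k` with leading part a nonzero multiple of `Nl r'`,
but `ld d k u' = -c • Nl r' + c • Nl r' = 0` (`ld_mul`, `ld_X`), contradiction.  So `u = X r' c`.

`PG`: `R` is a `p`-group (`QD_p`), `TT K` is abelian of order prime to `p`; `cop_gen` (file GrpC)
with `P = R`, `A = TT K`: `R` is generated by elements `u` commuting with some `B ≤ TT K` with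
`TT K / B` cyclic.  Let `u ≠ 1` be such an element.  `PG_one` gives `r` with
`ch (rt r)` trivial on `B`.  `TT K / B` is cyclic of exponent dividing `m = |K| - 1`, so has
order at most `m`, and `{t | ch (rt r) t = 1}` contains `B` and has index `m` (`ok_rt_onto`, `ok_units`),
so it is equal to `B`; `PG_ker`: `u = X r' c`.
-/

namespace Pool.Agent.H40.GT

variable {K : Type} [Field K]

/-- the leading part -/
theorem PG1_lead {d : ℤ × ℤ} {u : EE K} (hu : u ∈ QD K d) (h1 : u ≠ 1) :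
    ∃ k : ℤ, 0 < k ∧ (∀ i j, dg d i < dg d j + k → u (ev j) i = (ev j : V K) i) ∧
      ld d k (u : V K →ₗ[K] V K) ≠ 0 := by
  classical
  let S : Finset (Fin 7 × Fin 7) :=
    Finset.univ.filter fun p => u (ev p.2) p.1 ≠ (ev p.2 : V K) p.1
  have hS : S.Nonempty := by
    by_contra hS
    rw [Finset.not_nonempty_iff_eq_empty] at hS
    apply h1
    apply EE_ext
    intro j
    funext i
    by_contra h2
    have h3 : ((i, j) : Fin 7 × Fin 7) ∈ S := Finset.mem_filter.2 ⟨Finset.mem_univ _, h2⟩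
    rw [hS] at h3
    exact absurd h3 (Finset.notMem_empty _)
  obtain ⟨p, hp, hmin⟩ := Finset.exists_min_image S (fun p => dg d p.1 - dg d p.2) hS
  obtain ⟨i0, j0⟩ := p
  have hp2 : u (ev j0) i0 ≠ (ev j0 : V K) i0 := (Finset.mem_filter.1 hp).2
  have hk : 0 < dg d i0 - dg d j0 := by
    by_contra h2
    exact hp2 (hu.2.1 i0 j0 (by omega))
  refine ⟨dg d i0 - dg d j0, hk, ?_, ?_⟩
  · intro i j hij
    by_contra h2
    have h3 := hmin (i, j) (Finset.mem_filter.2 ⟨Finset.mem_univ _, h2⟩)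
    have h4 : dg d i0 - dg d j0 ≤ dg d i - dg d j := h3
    omega
  · intro h2
    have h3 := ld_ev d (dg d i0 - dg d j0) (u : V K →ₗ[K] V K) i0 j0
    rw [h2, if_pos (by ring)] at h3
    have h4 : i0 ≠ j0 := by
      rintro rfl
      omega
    rw [ev_ne h4] at hp2
    exact hp2 h3.symm

theorem PG1_comp (h2 : (2 : K) ≠ 0) {d : ℤ × ℤ} {k : ℤ} (hk : 0 < k) {U : V K →ₗ[K] V K}
    (hD : IsD (ld d k U)) {v : ℤ × ℤ} (hv : wc v (ld d k U) ≠ 0) :
    ∃ r, rt r = v ∧ dr d r = k ∧ ∃ c : K, wc v (ld d k U) = c • Nl r := by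
  have h3 : ∃ i j, wc v (ld d k U) (ev j) i ≠ 0 := by
    by_contra h4
    push Not at h4
    apply hv
    apply (Pi.basisFun K (Fin 7)).ext
    intro j
    have he : (Pi.basisFun K (Fin 7)) j = ev j := by
      simp [ev]
    rw [he]
    funext i
    exact h4 i j
  obtain ⟨i, j, hij⟩ := h3
  rw [wc_ev] at hij
  have h4 : wt i = wt j + v := by
    by_contra h5
    rw [if_neg h5] at hij
    exact hij rfl
  rw [if_pos h4, ld_ev] at hij
  have h5 : dg d i = dg d j + k := by
    by_contra h5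
    rw [if_neg h5] at hij
    exact hij rfl
  have h6 : (wt i).1 = (wt j).1 + v.1 := congrArg Prod.fst h4
  have h7 : (wt i).2 = (wt j).2 + v.2 := congrArg Prod.snd h4
  have h8 : d.1 * v.1 + d.2 * v.2 = k := by
    unfold dg at h5
    rw [h6, h7] at h5
    linear_combination h5
  have hv0 : v ≠ 0 := by
    rintro rfl
    have h9 : d.1 * 0 + d.2 * 0 = k := h8
    omega
  rcases IsD_weight h2 hD hv0 with h9 | ⟨r, hr, c, hc⟩
  · exact absurd h9 hv
  · refine ⟨r, hr, ?_, c, hc⟩
    unfold dr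
    rw [hr]
    exact h8

theorem PG1_tor {d : ℤ × ℤ} {k : ℤ} {u : EE K} {t : Kˣ × Kˣ} (ht : u * tor t = tor t * u)
    (v : ℤ × ℤ) (hv : wc v (ld d k (u : V K →ₗ[K] V K)) ≠ 0) : ch v t = 1 := by
  have h1 : ∀ x, (u : V K →ₗ[K] V K) (tor t x) = tor t ((u : V K →ₗ[K] V K) x) := by
    intro x
    exact congrArg (fun g : EE K => g x) ht
  have h2 : ∀ x, ld d k (u : V K →ₗ[K] V K) (tor t x) = tor t (ld d k (u : V K →ₗ[K] V K) x) :=
    fun x => ld_tor h1 x
  rcases wc_tor h2 v with h3 | h3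
  · exact absurd h3 hv
  · exact h3

theorem PG_one (h2 : (2 : K) ≠ 0) {d : ℤ × ℤ} {u : EE K} (hu : u ∈ QD K d) (h1 : u ≠ 1)
    (B : Set (Kˣ × Kˣ)) (hB : ∀ t ∈ B, u * tor t = tor t * u) :
    ∃ r, 0 < dr d r ∧ ∀ t ∈ B, ch (rt r) t = 1 := by
  obtain ⟨k, hk, h3, h4⟩ := PG1_lead hu h1
  have hD := lead_IsD hk hu.1.1 h3
  have h5 : ∃ v, wc v (ld d k (u : V K →ₗ[K] V K)) ≠ 0 := by
    by_contra h6
    push Not at h6
    exact h4 (wc_zero h6)
  obtain ⟨v, hv⟩ := h5
  obtain ⟨r, hr, hrk, -⟩ := PG1_comp h2 hk hD hv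
  refine ⟨r, by omega, fun t ht => ?_⟩
  rw [hr]
  exact PG1_tor (hB t ht) v hv

theorem PG1_dr_ng (d : ℤ × ℤ) (r : Rt) : dr d (ng r) = -dr d r := by
  unfold dr
  rw [rt_ng]
  show d.1 * (-(rt r).1) + d.2 * (-(rt r).2) = _
  ring

theorem PG1_ng_ng : ∀ r : Rt, ng (ng r) = r := by
  decide

theorem PG1_two (hK : Ok K) {d : ℤ × ℤ} {u : EE K} (hu : u ∈ QD K d) (h1 : u ≠ 1) (r : Rt)
    (h : ∀ t : Kˣ × Kˣ, ch (rt r) t = 1 → u * tor t = tor t * u) :
    ∃ r', (r' = r ∨ r' = ng r) ∧ ∃ c : K, 0 < dr d r' ∧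
      (∀ i j, dg d i < dg d j + dr d r' → u (ev j) i = (ev j : V K) i) ∧
      ld d (dr d r') (u : V K →ₗ[K] V K) = c • Nl r' ∧
      ld d (dr d r') (u : V K →ₗ[K] V K) ≠ 0 := by
  have h2 := ok_two hK
  obtain ⟨k, hk, h3, h4⟩ := PG1_lead hu h1
  have hD := lead_IsD hk hu.1.1 h3
  have hall : ∀ v, wc v (ld d k (u : V K →ₗ[K] V K)) ≠ 0 → ∃ r', rt r' = v ∧ dr d r' = k ∧
      (r' = r ∨ r' = ng r) ∧ ∃ c : K, wc v (ld d k (u : V K →ₗ[K] V K)) = c • Nl r' := by
    intro v hv
    obtain ⟨r', hr', hrk, c, hc⟩ := PG1_comp h2 hk hD hv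
    refine ⟨r', hr', hrk, ?_, c, hc⟩
    apply ok_rt_char hK
    intro t ht
    rw [hr']
    exact PG1_tor (h t ht) v hv
  have h5 : ∃ v, wc v (ld d k (u : V K →ₗ[K] V K)) ≠ 0 := by
    by_contra h6
    push Not at h6
    exact h4 (wc_zero h6)
  obtain ⟨v, hv⟩ := h5
  obtain ⟨r', hr', hrk, hr2, c, hc⟩ := hall v hv
  refine ⟨r', hr2, c, by omega, ?_, ?_, ?_⟩
  · rw [hrk]
    exact h3
  · rw [hrk]
    have h7 : ld d k (u : V K →ₗ[K] V K) + (-c) • Nl r' = 0 := by
      apply wc_zero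
      intro v'
      rw [wc_add, wc_smul, wc_Nl]
      by_cases hv' : v' = rt r'
      · rw [if_pos hv', hv', hr', hc]
        module
      · rw [if_neg hv', smul_zero, add_zero]
        by_contra h8
        obtain ⟨r'', hr'', hrk', hr3, -, -⟩ := hall v' h8
        apply hv'
        rw [← hr'']
        have h9 : r'' = r' := by
          have e1 := PG1_dr_ng d r
          rcases hr2 with h9 | h9 <;> rcases hr3 with h10 | h10
          · rw [h9, h10]
          · exfalso
            rw [h9] at hrk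
            rw [h10] at hrk'
            omega
          · exfalso
            rw [h9] at hrk
            rw [h10] at hrk'
            omega
          · rw [h9, h10]
        rw [h9]
    have h8 : ld d k (u : V K →ₗ[K] V K) = ld d k (u : V K →ₗ[K] V K) + (-c) • Nl r' + c • Nl r' := by
      module
    rw [h8, h7, zero_add]
  · rw [hrk]
    exact h4

theorem PG1_X (d : ℤ × ℤ) {r : Rt} (hr : 0 < dr d r) (s : K) (i j : Fin 7)
    (h : dg d i < dg d j + dr d r) : X r s (ev j) i = (ev j : V K) i := by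
  have e1 : X r s (ev j) i = (ev j : V K) i + s * Nl r (ev j) i + s ^ 2 * Ql r (ev j) i := rfl
  have e2 : Nl r (ev j : V K) i = 0 := by
    apply Nl_ev
    intro h1
    have h2 : (wt i).1 = (wt j).1 + (rt r).1 := congrArg Prod.fst h1
    have h3 : (wt i).2 = (wt j).2 + (rt r).2 := congrArg Prod.snd h1
    have h4 : dg d i = dg d j + dr d r := by
      unfold dg dr
      rw [h2, h3]
      ring
    omega
  have e3 : Ql r (ev j : V K) i = 0 := by
    apply Ql_ev
    intro h1
    have h2 : (wt i).1 = (wt j).1 + (rt r).1 + (rt r).1 := congrArg Prod.fst h1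
    have h3 : (wt i).2 = (wt j).2 + (rt r).2 + (rt r).2 := congrArg Prod.snd h1
    have h4 : dg d i = dg d j + dr d r + dr d r := by
      unfold dg dr
      rw [h2, h3]
      ring
    omega
  rw [e1, e2, e3]
  ring

theorem PG_ker (hK : Ok K) {d : ℤ × ℤ} {u : EE K} (hu : u ∈ QD K d) (r : Rt)
    (h : ∀ t : Kˣ × Kˣ, ch (rt r) t = 1 → u * tor t = tor t * u) :
    ∃ r' c, u = X r' c := by
  by_cases h1 : u = 1
  · exact ⟨r, 0, by rw [h1, X_zero]⟩
  obtain ⟨r', hr', c, hpos, h3, h4, -⟩ := PG1_two hK hu h1 r h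
  refine ⟨r', c, ?_⟩
  by_contra hne
  have h5 : X r' (-c) * u ∈ QD K d := (QD K d).mul_mem (X_mem_QD hpos _) hu
  have h6 : X r' (-c) * u ≠ 1 := by
    intro h6
    apply hne
    have h7 := eq_inv_of_mul_eq_one_right h6
    rw [h7, X_inv, neg_neg]
  have h7 : ∀ t : Kˣ × Kˣ, ch (rt r) t = 1 → X r' (-c) * u * tor t = tor t * (X r' (-c) * u) := by
    intro t ht
    have h8 : ch (rt r') t = 1 := by
      rcases hr' with h9 | h9
      · rw [h9]
        exact ht
      · rw [h9, rt_ng, ch_neg, ht, inv_one]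
    have h9 : X r' (-c) * tor t = tor t * X r' (-c) := by
      have h10 := tor_X t r' (-c)
      rw [h8, Units.val_one, one_mul] at h10
      exact (mul_inv_eq_iff_eq_mul.1 h10).symm
    rw [mul_assoc, h t ht, ← mul_assoc, h9, mul_assoc]
  obtain ⟨r'', hr'', c', hpos', h8, -, h9⟩ := PG1_two hK h5 h6 r h7
  have h10 : r'' = r' := by
    have e1 := PG1_dr_ng d r
    rcases hr' with h11 | h11 <;> rcases hr'' with h12 | h12
    · rw [h11, h12]
    · exfalso
      rw [h11] at hpos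
      rw [h12] at hpos'
      omega
    · exfalso
      rw [h11] at hpos
      rw [h12] at hpos'
      omega
    · rw [h11, h12]
  rw [h10] at h9
  apply h9
  rw [(ld_mul hpos (fun i j hij => PG1_X d hpos (-c) i j hij) h3).2, ld_X d r' (-c) hpos, h4]
  module

end Pool.Agent.H40.GT
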