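import Pool.Agent.H40.GT.PG1

/-!
# Part PG2 (of PG1, PG2); GT-15 torus stable unipotent subgroups are generated by root elements

`PG_one`: let `1 ≠ u ∈ QD d`, and let `k > 0` be minimal with `ld d k u ≠ 0` (exists: `u ≠ 1`, all
entries of `u - 1` have positive degree).  By `lead_IsD` `D = ld d k u` is a nonzero derivation;
some weight component `wc v D ≠ 0` (`wc_zero`), its weight has `d`-degree `k > 0`, so `v ≠ 0`, and
by `IsD_weight` `v = rt r`, `dr d r = k`.  If `u` commutes with `tor t` for all `t ∈ B`, so does `D`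
(`ld_tor`), so `ch (rt r) t = 1` for `t ∈ B` (`wc_tor`).  This gives
`PG_one : ∃ r, 0 < dr d r ∧ ∀ t ∈ B, ch (rt r) t = 1`.

`PG_ker`: let `u ∈ QD d` commute with `tor t` for all `t` with `ch (rt r) t = 1`.  Then `u = X r c`:
if `u ≠ 1`, let `k`, `D` be as before.  Every nonzero component of `D` has weight `rt r'` with
`ch (rt r') t = 1` whenever `ch (rt r) t = 1`, so `r' = r` or `r' = ng r` (`ok_rt_char`); its
degree is `k > 0`; so exactly one of the two is possible, call it `r'`, and `D = c • Nl r'`,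
`k = dr d r'`.  Let `u' = X r' (-c) * u ∈ QD d`; it commutes with the same `tor t`
(`X_comm_tor`, `ch (rt (ng r)) t = (ch (rt r) t)⁻¹`).  If `u' ≠ 1` the same argument shows that
its leading degree is again `dr d r' = k` with leading part a nonzero multiple of `Nl r'`,
but `ld d k u' = -c • Nl r' + c • Nl r' = 0` (`ld_mul`, `ld_X`), contradiction.  So `u = X r' c`.

`PG`: `R` is a `p`-group (`QD_p`), `TT K` is abelian of order prime to `p`; `cop_gen` (file GrpC)
with `P = R`, `A = TT K`: `R` is generated by elements `u` commuting with some `B ≤ TT K` with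
`TT K / B` cyclic.  Let `u ≠ 1` be such an element.  `PG_one` gives `r` with
`ch (rt r)` trivial on `B`.  `TT K / B` is cyclic of exponent dividing `m = |K| - 1`, so has
order at most `m`, and `{t | ch (rt r) t = 1}` contains `B` and has index `m` (`ok_rt_onto`, `ok_units`),
so it is equal to `B`; `PG_ker`: `u = X r' c`.
-/

namespace Pool.Agent.H40.GT

variable {K : Type} [Field K]

/-- the kernel of the character is in `B` -/
theorem pg_ker_le (hK : Ok K) {B : Subgroup (EE K)} {z : EE K} (hz : z ∈ TT K)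
    (hB : ∀ a ∈ TT K, ∃ k : ℤ, z ^ k * a ∈ B) {r : Rt}
    (hr : ∀ t : Kˣ × Kˣ, tor t ∈ B → ch (rt r) t = 1) {t : Kˣ × Kˣ} (ht : ch (rt r) t = 1) :
    tor t ∈ B := by
  haveI := ok_finite hK
  obtain ⟨t0, rfl⟩ := hz
  have hch : ∀ (k : ℤ) (t : Kˣ × Kˣ), ch (rt r) (t0 ^ k * t) = ch (rt r) t0 ^ k * ch (rt r) t := by
    intro k t
    rw [ch_mul]
    congr 1
    let f : Kˣ × Kˣ →* Kˣ := ⟨⟨ch (rt r), ch_one _⟩, ch_mul _⟩
    exact map_zpow f t0 k
  have hgen : ∀ u : Kˣ, u ∈ Subgroup.zpowers (ch (rt r) t0) := by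
    intro u
    obtain ⟨t, ht⟩ := ok_rt_onto (K := K) r u
    obtain ⟨k, hk⟩ := hB (tor t) (tor_mem_TT t)
    rw [← map_zpow, ← map_mul] at hk
    have h1 := hr _ hk
    rw [hch, ht] at h1
    rw [Subgroup.mem_zpowers_iff]
    refine ⟨-k, ?_⟩
    rw [zpow_neg]
    exact (eq_inv_of_mul_eq_one_right h1).symm
  have hord : orderOf (ch (rt r) t0) = Nat.card Kˣ := orderOf_eq_card_of_forall_mem_zpowers hgen
  obtain ⟨k, hk⟩ := hB (tor t) (tor_mem_TT t)
  rw [← map_zpow, ← map_mul] at hk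
  have h1 := hr _ hk
  rw [hch, ht, mul_one] at h1
  have h2 : ((Nat.card Kˣ : ℕ) : ℤ) ∣ k := by
    rw [← hord]
    exact orderOf_dvd_iff_zpow_eq_one.mpr h1
  have h3 : t0 ^ k = 1 := by
    obtain ⟨l, rfl⟩ := h2
    rw [zpow_mul, zpow_natCast]
    have h4 : t0 ^ Nat.card Kˣ = 1 := by
      apply Prod.ext
      · rw [Prod.pow_fst]
        exact pow_card_eq_one'
      · rw [Prod.pow_snd]
        exact pow_card_eq_one'
    rw [h4, one_zpow]
  rw [h3, one_mul] at hk
  exact hk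

theorem PG (hK : Ok K) {d : ℤ × ℤ} {R : Subgroup (EE K)} (hR : R ≤ QD K d)
    (hT : ∀ t ∈ TT K, ∀ u ∈ R, t * u * t⁻¹ ∈ R) :
    R ≤ Subgroup.closure {u | (∃ r s, u = X r s) ∧ u ∈ R} := by
  haveI := ok_EE_finite hK
  haveI : Fact (Nat.card K).Prime := ⟨ok_prime hK⟩
  have hP : IsPGroup (Nat.card K) R := by
    intro g
    refine ⟨1, ?_⟩
    apply Subtype.ext
    rw [pow_one]
    exact QD_p hK (hR g.2)
  have hA : ¬ Nat.card K ∣ Nat.card (TT K) := by
    rw [ok_TT_card hK]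
    intro h
    have h1 := (ok_prime hK).dvd_of_dvd_pow h
    have h2 := (ok_prime hK).two_le
    have h3 := Nat.le_of_dvd (by omega) h1
    omega
  refine le_trans (Pool.Agent.H33.EL.cop_gen R (TT K) hP hA (fun a ha b hb => TT_comm a b ha hb) hT) ?_
  rw [Subgroup.closure_le]
  rintro u ⟨hu, B, hBA, ⟨z, hz, hB⟩, hcomm⟩
  by_cases h1 : u = 1
  · subst h1
    exact one_mem _
  · obtain ⟨r, -, hr⟩ := PG_one (ok_two hK) (hR hu) h1 {t | tor t ∈ B}
      (fun t ht => (hcomm _ ht).symm)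
    obtain ⟨r', c, hc⟩ := PG_ker hK (hR hu) r
      (fun t ht => (hcomm _ (pg_ker_le hK hz hB hr ht)).symm)
    exact Subgroup.subset_closure ⟨⟨r', c, hc⟩, hu⟩

/-- the unipotent part of an overgroup is generated by root groups -/
theorem PG_F (hK : Ok K) {d : ℤ × ℤ} {F : Subgroup (EE K)} (hF : Ov F) :
    F ⊓ QD K d ≤ GS K (SF F) := by
  refine le_trans (PG hK (R := F ⊓ QD K d) inf_le_right ?_) ?_
  · rintro t ht u ⟨hu1, hu2⟩
    refine ⟨F.mul_mem (F.mul_mem (hF.1 ht) hu1) (F.inv_mem (hF.1 ht)), ?_⟩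
    exact QD_normal (Dg_le_PD d (TT_le_Dg d ht)) hu2
  · rw [Subgroup.closure_le]
    rintro u ⟨⟨r, s, rfl⟩, hu, -⟩
    by_cases hs : s = 0
    · subst hs
      rw [X_zero]
      exact one_mem _
    · exact X_mem_GS (ok_mem_SF hK hs hu) s

end Pool.Agent.H40.GT
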