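import Pool.Agent.H40.GT.Wd
import Pool.Agent.H40.GT.EH8
import Pool.Agent.H40.GT.SzA

/-!
# GT-41 overgroups without root groups are in `NN`

`SF F = ∅`.  `Γ = F` as a type, `T = (TT K).subgroupOf F`, `M = (NN K).subgroupOf F`,
`m = |K| - 1`, data `c, π, ε` from `Wd` (composed with the inclusion).  `nor`: `ok_norm`.
`cent`: `cent_BF` (`GS K ∅ = TT K`, so `BF F = F ⊓ NN`).  `cj`: `lemC`.  Then `thmE`.
-/

namespace Pool.Agent.H40.GT

variable {K : Type} [Field K]

theorem propC (hK : Ok K) {F : Subgroup (EE K)} (hF : Ov F) (hS : SF F = ∅) : F ≤ NN K := by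
  obtain ⟨c, π, ε, hmul, hinj, hsum, hsur, hact, htri, hpm, hker, hord, hzz⟩ := Wd hK
  have hfin := ok_EE_finite hK
  have hEH : EH F ((TT K).subgroupOf F) ((NN K).subgroupOf F) (Nat.card K - 1)
      (fun x => c x) (fun x => π x) (fun x => ε x) := by
    refine
      { fin := inferInstance
        hm := ?_
        TM := ?_
        cmul := ?_
        cinj := ?_
        csum := ?_
        csur := ?_
        nor := ?_
        act := ?_
        tri := ?_
        pmul := ?_
        ker := ?_
        cent := ?_
        cj := ?_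
        ord := ?_
        zz := ?_ }
    · rcases hK with h | h <;> rw [h] <;> simp
    · intro x hx
      rw [Subgroup.mem_subgroupOf] at hx ⊢
      exact TT_le_NN hx
    · intro s hs t ht i
      rw [Subgroup.mem_subgroupOf] at hs ht
      exact hmul s hs t ht i
    · intro s hs t ht h
      rw [Subgroup.mem_subgroupOf] at hs ht
      exact Subtype.ext (hinj s hs t ht h)
    · intro t ht
      rw [Subgroup.mem_subgroupOf] at ht
      exact hsum t ht
    · intro a b
      obtain ⟨t, ht, h1, h2⟩ := hsur a b
      exact ⟨⟨t, hF.1 ht⟩, by rw [Subgroup.mem_subgroupOf]; exact ht, h1, h2⟩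
    · intro x hx
      rw [Subgroup.mem_subgroupOf]
      refine ok_norm hK (hF.2 x.2) ?_
      intro t ht
      have h1 := hx ⟨t, hF.1 ht⟩ (by rw [Subgroup.mem_subgroupOf]; exact ht)
      rw [Subgroup.mem_subgroupOf] at h1
      exact h1
    · intro x hx t ht
      rw [Subgroup.mem_subgroupOf] at hx ht
      have h1 := hact x hx t ht
      refine ⟨?_, h1.2⟩
      rw [Subgroup.mem_subgroupOf]
      exact h1.1
    · intro t ht
      rw [Subgroup.mem_subgroupOf] at ht
      exact htri t ht
    · intro x hx y hy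
      rw [Subgroup.mem_subgroupOf] at hx hy
      exact hpm x hx y hy
    · intro x hx h1 h2
      rw [Subgroup.mem_subgroupOf] at hx ⊢
      exact hker x hx h1 h2
    · intro t ht h1 x hx
      rw [Subgroup.mem_subgroupOf] at ht ⊢
      have h2 : (t : EE K) ≠ 1 := fun h => h1 (Subtype.ext h)
      have h3 : (x : EE K) * t = t * x := congrArg Subtype.val hx
      have h4 : ∀ r ∈ SF F, 6 ≤ (r : Rt).val := by
        intro r hr
        rw [hS] at hr
        exact absurd hr (Set.notMem_empty r)
      obtain ⟨-, c', hc', hn, -⟩ := cent_BF hK hF h4 ht h2 x.2 h3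
      rw [hS, GS_empty] at hc'
      have h5 := mul_mem (TT_le_NN hc') hn
      rwa [mul_inv_cancel_left] at h5
    · intro x hx
      rw [Subgroup.mem_subgroupOf]
      refine lemC hK (hF.2 x.2) ?_
      intro t ht
      have h1 := hx ⟨t, hF.1 ht⟩ (by rw [Subgroup.mem_subgroupOf]; exact ht)
      rw [Subgroup.mem_subgroupOf] at h1
      exact h1
    · intro x hx h1 h2 h3
      rw [Subgroup.mem_subgroupOf] at hx
      exact Subtype.ext (hord x hx h1 h2 h3)
    · intro t ht h1 h2 h3 x hx
      rw [Subgroup.mem_subgroupOf] at ht hx ⊢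
      exact hzz t ht (congrArg Subtype.val h1) h2 h3 x (hF.2 x.2) hx
  intro f hf
  have h1 := thmE hEH ⟨f, hf⟩
  rw [Subgroup.mem_subgroupOf] at h1
  exact h1

end Pool.Agent.H40.GT
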