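import Pool.Agent.H40.GT.Bas

/-!
# Part PrmA (of PrmA, PrmB, PrmC); GT-02 consequences of `Ok K` (`Nat.card K = 7` or `11`)

Everything is elementary: a finite field of prime order `p` has characteristic `p`, every element
is `n • 1`, `Kˣ` is cyclic of order `p - 1`.
* `ok_mem_SF`: `X r s ^ n = X r (n * s)` and the multiples of `s ≠ 0` are all of `K`.
* `ok_sep`: `t = tor (z^a, z^b)` with a generator `z` of `Kˣ`.
* `ok_wt_char`: two coordinates with the same character on the torus are equal: take
  `t = (z, 1)` and `(1, z)`; coordinates of weights are in `{-1,0,1}` and `z ^ k = 1` iff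
  `p - 1 ∣ k`, `p - 1 ≥ 6`.
* `ok_rt_char`: `ch (rt r)` is onto; if `ch (rt r') t = 1` for all `t` with `ch (rt r) t = 1` then
  `r' = r` or `r' = ng r`: `t` runs through `(z^a, z^b)` with `a u + b v = 0 mod p-1`,
  take `a = v, b = -u` for `rt r = (u, v)`; the determinant of two non proportional roots
  is `±1, ±2, ±3`, not `0` mod `6` or `10` (finite check by `decide`).
-/

namespace Pool.Agent.H40.GT

variable {K : Type} [Field K]

theorem PrmA_card0 [Finite K] : ((Nat.card K : ℕ) : K) = 0 := by
  have := Fintype.ofFinite K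
  rw [Nat.card_eq_fintype_card]
  exact Nat.cast_card_eq_zero K

theorem PrmA_cast (hK : Ok K) : (7 : K) = 0 ∨ (11 : K) = 0 := by
  have : Finite K := by
    refine Nat.finite_of_card_ne_zero ?_
    rcases hK with h | h <;> rw [h] <;> norm_num
  have h0 := PrmA_card0 (K := K)
  rcases hK with h | h
  · left
    rw [h] at h0
    exact_mod_cast h0
  · right
    rw [h] at h0
    exact_mod_cast h0

theorem PrmA_zpow (r : Rt) (s : K) (k : ℤ) : X r s ^ k = X r (k • s) := by
  let φ : Multiplicative K →* EE K :=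
    { toFun := fun t => X r t.toAdd
      map_one' := X_zero r
      map_mul' := fun a b => (X_mul r _ _).symm }
  have h := map_zpow φ (Multiplicative.ofAdd s) k
  exact h.symm

theorem ok_finite (hK : Ok K) : Finite K := by
  refine Nat.finite_of_card_ne_zero ?_
  rcases hK with h | h <;> rw [h] <;> norm_num

theorem ok_EE_finite (hK : Ok K) : Finite (EE K) := by
  have := ok_finite hK
  exact Finite.of_injective (fun g : EE K => (g : V K → V K)) DFunLike.coe_injective

theorem ok_prime (hK : Ok K) : (Nat.card K).Prime := by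
  rcases hK with h | h <;> rw [h] <;> norm_num

theorem ok_two (hK : Ok K) : (2 : K) ≠ 0 := by
  intro h2
  have h1 : (1 : K) ≠ 0 := one_ne_zero
  rcases PrmA_cast hK with h | h
  · exact h1 (by linear_combination h - 3 * h2)
  · exact h1 (by linear_combination h - 5 * h2)

theorem ok_three (hK : Ok K) : (3 : K) ≠ 0 := by
  intro h2
  have h1 : (1 : K) ≠ 0 := one_ne_zero
  rcases PrmA_cast hK with h | h
  · exact h1 (by linear_combination h - 2 * h2)
  · exact h1 (by linear_combination 4 * h2 - h)

theorem ok_card_zero (hK : Ok K) : ((Nat.card K : ℕ) : K) = 0 := by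
  have := ok_finite hK
  exact PrmA_card0

theorem ok_units (hK : Ok K) : Nat.card Kˣ = Nat.card K - 1 := by
  have := ok_finite hK
  exact Nat.card_units K

/-- a generator of the multiplicative group -/
theorem ok_gen (hK : Ok K) : ∃ z : Kˣ, orderOf z = Nat.card K - 1 ∧
    (∀ u : Kˣ, ∃ k : ℕ, k < Nat.card K - 1 ∧ u = z ^ k) := by
  have := ok_finite hK
  classical
  obtain ⟨z, hz⟩ := IsCyclic.exists_generator (α := Kˣ)
  have h1 : orderOf z = Nat.card K - 1 := by
    rw [orderOf_eq_card_of_forall_mem_zpowers hz, ok_units hK]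
  refine ⟨z, h1, fun u => ?_⟩
  have h2 := mem_zpowers_iff_mem_range_orderOf.1 (hz u)
  obtain ⟨k, hk, hk2⟩ := Finset.mem_image.1 h2
  exact ⟨k, by rw [← h1]; exact Finset.mem_range.1 hk, hk2.symm⟩

theorem ok_mem_SF (hK : Ok K) {F : Subgroup (EE K)} {r : Rt} {s : K} (hs : s ≠ 0)
    (h : X r s ∈ F) : r ∈ SF F := by
  intro t
  have : Fact (Nat.card K).Prime := ⟨ok_prime hK⟩
  have h1 : t ∈ AddSubgroup.zmultiples s := mem_zmultiples_of_prime_card rfl hs
  obtain ⟨k, hk⟩ := AddSubgroup.mem_zmultiples_iff.1 h1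
  rw [← hk, ← PrmA_zpow]
  exact zpow_mem h k

theorem X_pow_card (hK : Ok K) (r : Rt) (s : K) : X r s ^ Nat.card K = 1 := by
  have h1 := PrmA_zpow r s (Nat.card K : ℤ)
  rw [zpow_natCast] at h1
  rw [h1, zsmul_eq_mul, Int.cast_natCast, ok_card_zero hK, zero_mul, X_zero]

end Pool.Agent.H40.GT
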