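import Pool.Agent.H40.GT.PrmA

/-!
# Part PrmB (of PrmA, PrmB, PrmC); GT-02 consequences of `Ok K` (`Nat.card K = 7` or `11`)

Everything is elementary: a finite field of prime order `p` has characteristic `p`, every element
is `n • 1`, `Kˣ` is cyclic of order `p - 1`.
* `ok_mem_SF`: `X r s ^ n = X r (n * s)` and the multiples of `s ≠ 0` are all of `K`.
* `ok_sep`: `t = tor (z^a, z^b)` with a generator `z` of `Kˣ`.
* `ok_wt_char`: two coordinates with the same character on the torus are equal: take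
  `t = (z, 1)` and `(1, z)`; coordinates of weights are in `{-1,0,1}` and `z ^ k = 1` iff
  `p - 1 ∣ k`, `p - 1 ≥ 6`.
* `ok_rt_char`: `ch (rt r)` is onto; if `ch (rt r') t = 1` for all `t` with `ch (rt r) t = 1` then
  `r' = r` or `r' = ng r`: `t` runs through `(z^a, z^b)` with `a u + b v = 0 mod p-1`,
  take `a = v, b = -u` for `rt r = (u, v)`; the determinant of two non proportional roots
  is `±1, ±2, ±3`, not `0` mod `6` or `10` (finite check by `decide`).
-/

namespace Pool.Agent.H40.GT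

variable {K : Type} [Field K]

omit [Field K] in
private theorem PrmB_card (hK : Ok K) : Nat.card K - 1 = 6 ∨ Nat.card K - 1 = 10 := by
  rcases hK with h | h
  · left
    rw [h]
  · right
    rw [h]

private theorem PrmB_dvd {z : Kˣ} {n : ℕ} (hz : orderOf z = n) {k : ℤ} (h : z ^ k = 1) :
    (n : ℤ) ∣ k := by
  rw [← hz]
  exact orderOf_dvd_iff_zpow_eq_one.2 h

private theorem PrmB_wt : ∀ i j : Fin 7,
    ((6 : ℤ) ∣ (wt i).1 - (wt j).1 ∨ (10 : ℤ) ∣ (wt i).1 - (wt j).1) →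
    ((6 : ℤ) ∣ (wt i).2 - (wt j).2 ∨ (10 : ℤ) ∣ (wt i).2 - (wt j).2) → i = j := by
  decide

private theorem PrmB_rt : ∀ r r' : Fin 12,
    ((6 : ℤ) ∣ (rt r).2 * (rt r').1 - (rt r).1 * (rt r').2 ∨
      (10 : ℤ) ∣ (rt r).2 * (rt r').1 - (rt r).1 * (rt r').2) → r' = r ∨ r' = ng r := by
  decide

private theorem PrmB_prim : ∀ r : Fin 12, ∃ c ∈ ({-1, 0, 1} : Finset ℤ),
    ∃ d ∈ ({-1, 0, 1} : Finset ℤ), c * (rt r).1 + d * (rt r).2 = 1 := by
  decide

/-- the seven weights are distinct characters of the torus -/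
theorem ok_wt_char (hK : Ok K) {i j : Fin 7} (h : ∀ t : Kˣ × Kˣ, ch (wt i) t = ch (wt j) t) :
    i = j := by
  obtain ⟨z, hz, -⟩ := ok_gen hK
  have h1 : z ^ ((wt i).1 - (wt j).1) = 1 := by
    have h2 := h (z, 1)
    simp only [ch, one_zpow, mul_one] at h2
    rw [zpow_sub, h2, mul_inv_cancel]
  have h3 : z ^ ((wt i).2 - (wt j).2) = 1 := by
    have h2 := h (1, z)
    simp only [ch, one_zpow, one_mul] at h2
    rw [zpow_sub, h2, mul_inv_cancel]
  have h4 := PrmB_dvd hz h1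
  have h5 := PrmB_dvd hz h3
  apply PrmB_wt
  · rcases PrmB_card hK with h6 | h6
    · rw [h6] at h4
      exact Or.inl h4
    · rw [h6] at h4
      exact Or.inr h4
  · rcases PrmB_card hK with h6 | h6
    · rw [h6] at h5
      exact Or.inl h5
    · rw [h6] at h5
      exact Or.inr h5

/-- vectors which are eigenvectors of the whole torus are multiples of coordinate vectors -/
theorem ok_eig (hK : Ok K) {x : V K} (h : ∀ t : Kˣ × Kˣ, ∃ c : K, tor t x = c • x) :
    ∃ j, ∃ c : K, x = c • ev j := by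
  by_cases hx : x = 0
  · exact ⟨0, 0, by rw [hx, zero_smul]⟩
  · obtain ⟨j, hj⟩ := Function.ne_iff.1 hx
    rw [Pi.zero_apply] at hj
    refine ⟨j, x j, ?_⟩
    funext i
    rw [Pi.smul_apply, smul_eq_mul]
    by_cases hi : i = j
    · rw [hi, ev_same, mul_one]
    · rw [ev_ne hi, mul_zero]
      by_contra h0
      apply hi
      apply ok_wt_char hK
      intro t
      obtain ⟨c, hc⟩ := h t
      have h1 := congrFun hc i
      have h2 := congrFun hc j
      rw [tor_apply, Pi.smul_apply, smul_eq_mul] at h1 h2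
      have h3 := mul_right_cancel₀ h0 h1
      have h4 := mul_right_cancel₀ hj h2
      exact Units.ext (h3.trans h4.symm)

private theorem PrmB_sub (hK : Ok K) {W : Submodule K (V K)}
    (h : ∀ t : Kˣ × Kˣ, ∀ x ∈ W, tor t x ∈ W) (j : Fin 7) (S : Finset (Fin 7)) :
    j ∉ S → ∀ x ∈ W, ∃ y ∈ W, y j = x j ∧ ∀ i ∈ S, y i = 0 := by
  induction S using Finset.induction_on with
  | empty => exact fun _ x hx => ⟨x, hx, rfl, fun i hi => absurd hi (Finset.notMem_empty i)⟩
  | insert a S ha ih =>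
    intro hj x hx
    rw [Finset.mem_insert, not_or] at hj
    obtain ⟨y, hy, h1, h2⟩ := ih hj.2 x hx
    have h3 : ∃ t : Kˣ × Kˣ, ch (wt a) t ≠ ch (wt j) t := by
      by_contra hc
      push Not at hc
      exact hj.1 (ok_wt_char hK hc).symm
    obtain ⟨t, ht⟩ := h3
    have h4 : ((ch (wt j) t : Kˣ) : K) - (ch (wt a) t : K) ≠ 0 := by
      rw [sub_ne_zero]
      intro h5
      exact ht (Units.ext h5.symm)
    refine ⟨(((ch (wt j) t : Kˣ) : K) - (ch (wt a) t : K))⁻¹ •
      (tor t y - ((ch (wt a) t : Kˣ) : K) • y),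
      W.smul_mem _ (W.sub_mem (h t y hy) (W.smul_mem _ hy)), ?_, ?_⟩
    · rw [Pi.smul_apply, Pi.sub_apply, Pi.smul_apply, tor_apply, smul_eq_mul, smul_eq_mul,
        ← sub_mul, ← mul_assoc, inv_mul_cancel₀ h4, one_mul, h1]
    · intro i hi
      rw [Pi.smul_apply, Pi.sub_apply, Pi.smul_apply, tor_apply, smul_eq_mul, smul_eq_mul,
        ← sub_mul]
      rcases Finset.mem_insert.1 hi with h5 | h5
      · rw [h5, sub_self, zero_mul, mul_zero]
      · rw [h2 i h5, mul_zero, mul_zero]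

/-- torus stable subspaces are spanned by coordinate vectors -/
theorem ok_sub (hK : Ok K) {W : Submodule K (V K)} (h : ∀ t : Kˣ × Kˣ, ∀ x ∈ W, tor t x ∈ W)
    {x : V K} (hx : x ∈ W) (j : Fin 7) : x j • ev j ∈ W := by
  obtain ⟨y, hy, h1, h2⟩ := PrmB_sub hK h j (Finset.univ.erase j)
    (Finset.notMem_erase j _) x hx
  have h3 : x j • ev j = y := by
    funext i
    rw [Pi.smul_apply, smul_eq_mul]
    by_cases hi : i = j
    · rw [hi, ev_same, mul_one, h1]
    · rw [ev_ne hi, mul_zero, h2 i (Finset.mem_erase.2 ⟨hi, Finset.mem_univ i⟩)]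
  rw [h3]
  exact hy

theorem tor_inj {s t : Kˣ × Kˣ} (h : tor s = tor t) : s = t := by
  have key : ∀ j : Fin 7, ch (wt j) s = ch (wt j) t := by
    intro j
    have h1 : tor s (ev j : V K) j = tor t (ev j : V K) j := by rw [h]
    rw [tor_apply, tor_apply, ev_same, mul_one, mul_one] at h1
    exact Units.ext h1
  have hw1 : wt 1 = (1, 0) := rfl
  have hw2 : wt 2 = (0, 1) := rfl
  have h1 := key 1
  have h2 := key 2
  rw [hw1] at h1
  rw [hw2] at h2
  simp only [ch, zpow_one, zpow_zero, mul_one, one_mul] at h1 h2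
  exact Prod.ext h1 h2

theorem ok_rt_onto (r : Rt) (u : Kˣ) : ∃ t : Kˣ × Kˣ, ch (rt r) t = u := by
  obtain ⟨c, -, d, -, h⟩ := PrmB_prim r
  refine ⟨(u ^ c, u ^ d), ?_⟩
  show (u ^ c) ^ (rt r).1 * (u ^ d) ^ (rt r).2 = u
  rw [← zpow_mul, ← zpow_mul, ← zpow_add, h, zpow_one]

theorem ok_rt_char (hK : Ok K) {r r' : Rt}
    (h : ∀ t : Kˣ × Kˣ, ch (rt r) t = 1 → ch (rt r') t = 1) : r' = r ∨ r' = ng r := by
  obtain ⟨z, hz, -⟩ := ok_gen hK
  have h1 : ch (rt r') (z ^ (rt r).2, z ^ (-(rt r).1)) = 1 := by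
    apply h
    show (z ^ (rt r).2) ^ (rt r).1 * (z ^ (-(rt r).1)) ^ (rt r).2 = 1
    rw [← zpow_mul, ← zpow_mul, ← zpow_add]
    have h2 : (rt r).2 * (rt r).1 + -(rt r).1 * (rt r).2 = 0 := by ring
    rw [h2, zpow_zero]
  have h3 : z ^ ((rt r).2 * (rt r').1 - (rt r).1 * (rt r').2) = 1 := by
    have h2 : (z ^ (rt r).2) ^ (rt r').1 * (z ^ (-(rt r).1)) ^ (rt r').2 = 1 := h1
    rw [← zpow_mul, ← zpow_mul, ← zpow_add] at h2
    have h4 : (rt r).2 * (rt r').1 + -(rt r).1 * (rt r').2 =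
        (rt r).2 * (rt r').1 - (rt r).1 * (rt r').2 := by ring
    rw [h4] at h2
    exact h2
  have h4 := PrmB_dvd hz h3
  apply PrmB_rt
  rcases PrmB_card hK with h6 | h6
  · rw [h6] at h4
    exact Or.inl h4
  · rw [h6] at h4
    exact Or.inr h4

end Pool.Agent.H40.GT
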