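import Pool.Agent.H40.GT.PrmB

/-!
# Part PrmC (of PrmA, PrmB, PrmC); GT-02 consequences of `Ok K` (`Nat.card K = 7` or `11`)

Everything is elementary: a finite field of prime order `p` has characteristic `p`, every element
is `n • 1`, `Kˣ` is cyclic of order `p - 1`.
* `ok_mem_SF`: `X r s ^ n = X r (n * s)` and the multiples of `s ≠ 0` are all of `K`.
* `ok_sep`: `t = tor (z^a, z^b)` with a generator `z` of `Kˣ`.
* `ok_wt_char`: two coordinates with the same character on the torus are equal: take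
  `t = (z, 1)` and `(1, z)`; coordinates of weights are in `{-1,0,1}` and `z ^ k = 1` iff
  `p - 1 ∣ k`, `p - 1 ≥ 6`.
* `ok_rt_char`: `ch (rt r)` is onto; if `ch (rt r') t = 1` for all `t` with `ch (rt r) t = 1` then
  `r' = r` or `r' = ng r`: `t` runs through `(z^a, z^b)` with `a u + b v = 0 mod p-1`,
  take `a = v, b = -u` for `rt r = (u, v)`; the determinant of two non proportional roots
  is `±1, ±2, ±3`, not `0` mod `6` or `10` (finite check by `decide`).
-/

namespace Pool.Agent.H40.GT

variable {K : Type} [Field K]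

theorem PrmC_mul_apply (a b : EE K) (x : V K) : (a * b) x = a (b x) := rfl

theorem PrmC_eig (hK : Ok K) {g : EE K} (h : ∀ t : Kˣ × Kˣ, g⁻¹ * tor t * g ∈ TT K) (j : Fin 7) :
    ∃ i, ∃ c : K, g (ev j) = c • ev i := by
  apply ok_eig hK
  intro t
  obtain ⟨s, hs⟩ := h t
  refine ⟨(ch (wt j) s : K), ?_⟩
  have h1 : tor t * g = g * tor s := by
    rw [hs]
    group
  rw [← PrmC_mul_apply, h1, PrmC_mul_apply, tor_ev, map_smul]

/-- the torus has order prime to `p` -/
theorem ok_TT_card (hK : Ok K) : Nat.card (TT K) = (Nat.card K - 1) ^ 2 := by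
  have h1 : Function.Injective (tor (K := K)) := fun s t h => tor_inj h
  have h2 : Nat.card (TT K) = Nat.card (Kˣ × Kˣ) :=
    (Nat.card_congr (MonoidHom.ofInjective h1).toEquiv).symm
  rw [h2, Nat.card_prod, ok_units hK, sq]

/-- the centraliser of the torus is the torus -/
theorem ok_cent (hK : Ok K) {g : EE K} (hg : g ∈ GG K) (h : ∀ t ∈ TT K, g * t = t * g) :
    g ∈ TT K := by
  apply diag_mem_TT (ok_two hK) hg
  intro j
  refine ⟨g (ev j) j, ?_⟩
  funext i
  rw [Pi.smul_apply, smul_eq_mul]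
  by_cases hi : i = j
  · rw [hi, ev_same, mul_one]
  · rw [ev_ne hi, mul_zero]
    by_contra h0
    apply hi
    apply ok_wt_char hK
    intro t
    have h1 := h (tor t) (tor_mem_TT t)
    have h2 : tor t (g (ev j)) = (ch (wt j) t : K) • g (ev j) := by
      rw [← PrmC_mul_apply, ← h1, PrmC_mul_apply, tor_ev, map_smul]
    have h3 := congrFun h2 i
    rw [tor_apply, Pi.smul_apply, smul_eq_mul] at h3
    exact Units.ext (mul_right_cancel₀ h0 h3)

/-- the normaliser of the torus -/
theorem ok_norm (hK : Ok K) {g : EE K} (hg : g ∈ GG K) (h : ∀ t ∈ TT K, g * t * g⁻¹ ∈ TT K) :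
    g ∈ NN K := by
  have := ok_EE_finite hK
  have hf : Function.Injective (fun t : TT K => (⟨g * t * g⁻¹, h t t.2⟩ : TT K)) := by
    intro a b hab
    have h1 : g * (a : EE K) * g⁻¹ = g * (b : EE K) * g⁻¹ := congrArg Subtype.val hab
    exact Subtype.ext (mul_left_cancel (mul_right_cancel h1))
  have hs := Finite.surjective_of_injective hf
  refine ⟨hg, fun j => PrmC_eig hK (fun t => ?_) j, fun j => PrmC_eig hK (fun t => ?_) j⟩
  · obtain ⟨s, hs1⟩ := hs ⟨tor t, tor_mem_TT t⟩
    have h2 : g * (s : EE K) * g⁻¹ = tor t := congrArg Subtype.val hs1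
    have h3 : g⁻¹ * tor t * g = s := by
      rw [← h2]
      group
    rw [h3]
    exact s.2
  · rw [inv_inv]
    exact h _ (tor_mem_TT t)

end Pool.Agent.H40.GT
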