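import Pool.Agent.H40.GT.LemC
import Pool.Agent.H40.GT.Hz

/-!
# GT-40 Weyl group data of the monomial group

Choose a generator `z` of `Kˣ` (`ok_gen`), `m = |K| - 1`.  For `t = tor (z^a, z^b)` let
`c t = (a, b, -a-b) ∈ (ZMod m)^3`; this is well defined (`tor_inj`).  For `n ∈ NN` choose `w, σ, τ` with
`Mon n w σ τ` (`NN_mon`; `w` is unique since `ch (w v) t' = ch v t` ... or since `σ` is determined by
`n`) and `π n`, `ε n ∈ {1,-1}` with `w (wt (ix i)) = ε • wt (ix (π i))` (`Mon_perm`; unique because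
`wt 1, wt 2, wt 3` and their negatives are distinct).
* `act`: `mtor`: `n tor t n⁻¹ = tor t'`, `ch (w v) t' = ch v t`; for `v = wt (ix i)`:
  `ch (wt (ix (π i))) t' ^ ε = ch (wt (ix i)) t`.
* `ker`: `Mon_one`.
* `ord`: `π n` a 3-cycle, `ε = 1`: let `ρ` be the element of `NN_rho` or its square with the same
  `π`; `n = t ρ`, `t ∈ TT` (`ker`), `n^3 = t (ρ t ρ⁻¹) (ρ^2 t ρ^-2) ρ^3 = 1`, because the sum of the
  three vectors `c` is zero.
* `zz`: `t ^ 3 = 1`, `c t 0 = c t 1 = c t 2`: `t = tor (ω, ω)`, `ω ^ 3 = 1`; trivial if `ω = 1`, else `Hz`.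
-/

namespace Pool.Agent.H40.GT

variable {K : Type} [Field K]

/-- discrete logarithm -/
private theorem Wd_log (hK : Ok K) : ∃ L : Kˣ → ZMod (Nat.card K - 1),
    (∀ u v, L (u * v) = L u + L v) ∧ Function.Injective L ∧ Function.Surjective L := by
  haveI := ok_finite hK
  rw [← ok_units hK]
  have hc : IsCyclic Kˣ := inferInstance
  let e := zmodCyclicMulEquiv hc
  refine ⟨fun u => Multiplicative.toAdd (e.symm u), fun u v => ?_, ?_, ?_⟩
  · show Multiplicative.toAdd (e.symm (u * v)) = _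
    rw [map_mul]
    rfl
  · intro u v h
    exact e.symm.injective h
  · intro a
    refine ⟨e (Multiplicative.ofAdd a), ?_⟩
    show Multiplicative.toAdd (e.symm (e (Multiplicative.ofAdd a))) = a
    rw [MulEquiv.symm_apply_apply]
    rfl

private theorem Wd_wt0 : wt (![1, 2, 3] (0 : Fin 3)) = (1, 0) := rfl
private theorem Wd_wt1 : wt (![1, 2, 3] (1 : Fin 3)) = (0, 1) := rfl
private theorem Wd_wt2 : wt (![1, 2, 3] (2 : Fin 3)) = (-1, -1) := rfl

private theorem Wd_ch0 (s : Kˣ × Kˣ) : ch (wt (![1, 2, 3] (0 : Fin 3))) s = s.1 := by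
  rw [Wd_wt0]
  simp [ch]

private theorem Wd_ch1 (s : Kˣ × Kˣ) : ch (wt (![1, 2, 3] (1 : Fin 3))) s = s.2 := by
  rw [Wd_wt1]
  simp [ch]

private theorem Wd_sum (s : Kˣ × Kˣ) : ch (wt (![1, 2, 3] (0 : Fin 3))) s *
    ch (wt (![1, 2, 3] (1 : Fin 3))) s * ch (wt (![1, 2, 3] (2 : Fin 3))) s = 1 := by
  rw [← ch_add, ← ch_add, Wd_wt0, Wd_wt1, Wd_wt2]
  exact ch_zero s

private theorem Wd_sg1 : ∀ (π : Equiv.Perm (Fin 3)) (i : Fin 3),
    wt (LC2_Sg (π, 1) (![1, 2, 3] i)) = wt (![1, 2, 3] (π i)) := by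
  decide

private theorem Wd_sg2 : ∀ (π : Equiv.Perm (Fin 3)) (i : Fin 3),
    wt (LC2_Sg (π, -1) (![1, 2, 3] i)) = -wt (![1, 2, 3] (π i)) := by
  decide

private theorem Wd_P_TT {t : EE K} (ht : t ∈ TT K) : LC2_P t 1 := by
  obtain ⟨s, rfl⟩ := ht
  intro j
  refine ⟨(ch (wt j) s : K), Units.ne_zero _, ?_⟩
  rw [LC2_Sg_one]
  exact tor_ev s j

/-- the action on the characters -/
private theorem Wd_act (h2 : (2 : K) ≠ 0) {x : EE K} (hx : x ∈ NN K)
    {q : Equiv.Perm (Fin 3) × ℤˣ} (hq : LC2_P x q) (s : Kˣ × Kˣ) :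
    ∃ s' : Kˣ × Kˣ, x * tor s * x⁻¹ = tor s' ∧
      ∀ j, ch (wt (LC2_Sg q j)) s' = ch (wt j) s := by
  obtain ⟨w, σ, τ, hM⟩ := NN_mon h2 hx
  obtain ⟨s', hs', -⟩ := hM.mtor s
  refine ⟨s', hs', fun j => ?_⟩
  obtain ⟨c, hc, hj⟩ := hq j
  have h1 : x * tor s = tor s' * x := by
    rw [← hs']
    group
  have h3 := congrArg (fun f : EE K => f (ev j)) h1
  simp only [LinearEquiv.mul_apply] at h3
  rw [tor_ev, map_smul, hj, map_smul, tor_ev, smul_smul, smul_smul] at h3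
  have h4 := congrFun h3 (LC2_Sg q j)
  rw [Pi.smul_apply, Pi.smul_apply, ev_same, smul_eq_mul, smul_eq_mul, mul_one, mul_one,
    mul_comm] at h4
  exact (Units.ext (mul_left_cancel₀ hc h4)).symm

private theorem Wd_cyc : ∀ π π0 : Equiv.Perm (Fin 3), π * π * π ≠ 1 ∨ π = 1 ∨
    π0 * π0 * π0 ≠ 1 ∨ π0 = 1 ∨ π = π0 ∨ π = π0 * π0 := by
  intro π
  fin_cases π <;> decide

private theorem Wd_orb : ∀ π : Equiv.Perm (Fin 3), π * π * π ≠ 1 ∨ π = 1 ∨
    ∀ j : Fin 3, (j = 0 ∧ π j = 1 ∧ π (π j) = 2) ∨ (j = 0 ∧ π j = 2 ∧ π (π j) = 1) ∨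
      (j = 1 ∧ π j = 0 ∧ π (π j) = 2) ∨ (j = 1 ∧ π j = 2 ∧ π (π j) = 0) ∨
      (j = 2 ∧ π j = 0 ∧ π (π j) = 1) ∨ (j = 2 ∧ π j = 1 ∧ π (π j) = 0) := by
  decide

theorem Wd (hK : Ok K) : ∃ (c : EE K → Fin 3 → ZMod (Nat.card K - 1))
    (π : EE K → Equiv.Perm (Fin 3)) (ε : EE K → ℤˣ),
    (∀ s ∈ TT K, ∀ t ∈ TT K, ∀ i, c (s * t) i = c s i + c t i) ∧
    (∀ s ∈ TT K, ∀ t ∈ TT K, c s = c t → s = t) ∧
    (∀ t ∈ TT K, c t 0 + c t 1 + c t 2 = 0) ∧
    (∀ a b, ∃ t ∈ TT K, c t 0 = a ∧ c t 1 = b) ∧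
    (∀ x ∈ NN K, ∀ t ∈ TT K, x * t * x⁻¹ ∈ TT K ∧
      ∀ i, c (x * t * x⁻¹) (π x i) = ((ε x : ℤˣ) : ℤ) • c t i) ∧
    (∀ t ∈ TT K, π t = 1 ∧ ε t = 1) ∧
    (∀ x ∈ NN K, ∀ y ∈ NN K, π (x * y) = π x * π y ∧ ε (x * y) = ε x * ε y) ∧
    (∀ x ∈ NN K, π x = 1 → ε x = 1 → x ∈ TT K) ∧
    (∀ x ∈ NN K, π x ≠ 1 → π x ^ 3 = 1 → ε x = 1 → x ^ 3 = 1) ∧
    (∀ t ∈ TT K, t ^ 3 = 1 → c t 0 = c t 1 → c t 1 = c t 2 → ∀ x ∈ GG K,
      x * t * x⁻¹ ∈ NN K → x * t * x⁻¹ ∈ TT K) := by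
  classical
  have h2 := ok_two hK
  obtain ⟨L, hLm, hLi, hLs⟩ := Wd_log hK
  have hL1 : L 1 = 0 := by
    have h := hLm 1 1
    rw [mul_one] at h
    exact left_eq_add.1 h
  have hLinv : ∀ u, L u⁻¹ = -L u := by
    intro u
    have h := hLm u⁻¹ u
    rw [inv_mul_cancel, hL1] at h
    exact (neg_eq_of_add_eq_zero_left h.symm).symm
  -- parameters of torus elements
  let sp : EE K → Kˣ × Kˣ := fun t => if h : t ∈ TT K then h.choose else 1
  have hsp : ∀ s : Kˣ × Kˣ, sp (tor s) = s := by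
    intro s
    have h : tor s ∈ TT K := tor_mem_TT s
    have h3 : sp (tor s) = h.choose := dif_pos h
    rw [h3]
    exact tor_inj h.choose_spec
  let c : EE K → Fin 3 → ZMod (Nat.card K - 1) := fun t i => L (ch (wt (![1, 2, 3] i)) (sp t))
  have hc : ∀ s i, c (tor s) i = L (ch (wt (![1, 2, 3] i)) s) := by
    intro s i
    show L (ch (wt (![1, 2, 3] i)) (sp (tor s))) = _
    rw [hsp]
  have hexq : ∀ x : EE K, ∃ q : Equiv.Perm (Fin 3) × ℤˣ, x ∈ NN K → LC2_P x q := by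
    intro x
    by_cases hx : x ∈ NN K
    · obtain ⟨q, hq⟩ := LC2_ex h2 hx
      exact ⟨q, fun _ => hq⟩
    · exact ⟨1, fun h => absurd h hx⟩
  choose q hq using hexq
  have hadd : ∀ s ∈ TT K, ∀ t ∈ TT K, ∀ i, c (s * t) i = c s i + c t i := by
    rintro _ ⟨s, rfl⟩ _ ⟨t, rfl⟩ i
    rw [← map_mul, hc, hc, hc, ch_mul, hLm]
  have hinj : ∀ s ∈ TT K, ∀ t ∈ TT K, c s = c t → s = t := by
    rintro _ ⟨s, rfl⟩ _ ⟨t, rfl⟩ h
    have e0 := congrFun h 0
    have e1 := congrFun h 1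
    rw [hc, hc, Wd_ch0, Wd_ch0] at e0
    rw [hc, hc, Wd_ch1, Wd_ch1] at e1
    rw [Prod.ext (hLi e0) (hLi e1)]
  have hsum : ∀ t ∈ TT K, c t 0 + c t 1 + c t 2 = 0 := by
    rintro _ ⟨t, rfl⟩
    rw [hc, hc, hc, ← hLm, ← hLm, Wd_sum, hL1]
  have hact : ∀ x ∈ NN K, ∀ t ∈ TT K, x * t * x⁻¹ ∈ TT K ∧
      ∀ i, c (x * t * x⁻¹) ((q x).1 i) = (((q x).2 : ℤˣ) : ℤ) • c t i := by
    rintro x hx _ ⟨s, rfl⟩
    obtain ⟨s', hs', hj⟩ := Wd_act h2 hx (hq x hx) s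
    refine ⟨?_, fun i => ?_⟩
    · show x * tor s * x⁻¹ ∈ TT K
      rw [hs']
      exact tor_mem_TT s'
    · show c (x * tor s * x⁻¹) ((q x).1 i) = (((q x).2 : ℤˣ) : ℤ) • c (tor s) i
      rw [hs', hc, hc, ← hj]
      rcases Int.units_eq_one_or (q x).2 with h | h
      · have h3 : q x = ((q x).1, 1) := Prod.ext rfl h
        rw [h, h3, Wd_sg1, Units.val_one, one_smul]
      · have h3 : q x = ((q x).1, -1) := Prod.ext rfl h
        rw [h, h3, Wd_sg2, ch_neg, hLinv, Units.val_neg, Units.val_one, neg_smul, one_smul,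
          neg_neg]
  have hmul : ∀ x ∈ NN K, ∀ y ∈ NN K, q (x * y) = q x * q y := fun x hx y hy =>
    LC2_P_unique (hq _ (mul_mem hx hy)) (LC2_P_mul (hq x hx) (hq y hy))
  have hTT : ∀ t ∈ TT K, q t = 1 := fun t ht =>
    LC2_P_unique (hq t (TT_le_NN ht)) (Wd_P_TT ht)
  have hker : ∀ x ∈ NN K, q x = 1 → x ∈ TT K := by
    intro x hx h
    refine diag_mem_TT h2 (NN_le_GG hx) fun j => ?_
    obtain ⟨k, -, hk⟩ := hq x hx j
    refine ⟨k, ?_⟩
    rw [hk, h, LC2_Sg_one]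
  have hinvq : ∀ x ∈ NN K, q x⁻¹ = (q x)⁻¹ := by
    intro x hx
    have h := hmul x⁻¹ (inv_mem hx) x hx
    rw [inv_mul_cancel, hTT 1 (one_mem _)] at h
    exact eq_inv_of_mul_eq_one_left h.symm
  -- elements with a cyclic permutation
  have hord : ∀ x ∈ NN K, ∀ r ∈ NN K, r ^ 3 = 1 → q r = q x → (q x).2 = 1 →
      (q x).1 ≠ 1 → (q x).1 ^ 3 = 1 → x ^ 3 = 1 := by
    intro x hx r hr hr3 hqr he hne h3
    have ht : x * r⁻¹ ∈ TT K := by
      apply hker _ (mul_mem hx (inv_mem hr))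
      rw [hmul x hx _ (inv_mem hr), hinvq r hr, hqr, mul_inv_cancel]
    set t := x * r⁻¹ with htd
    have hxt : x = t * r := by
      rw [htd]
      group
    have h4 := hact r hr t ht
    have h5 := hact r hr _ h4.1
    have h6 : x ^ 3 = t * (r * t * r⁻¹) * (r * (r * t * r⁻¹) * r⁻¹) := by
      have h7 : x ^ 3 = t * (r * t * r⁻¹) * (r * (r * t * r⁻¹) * r⁻¹) * r ^ 3 := by
        rw [hxt]
        simp only [pow_succ, pow_zero, one_mul]
        group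
      rw [h7, hr3, mul_one]
    rw [h6]
    apply hinj _ (mul_mem (mul_mem ht h4.1) h5.1) _ (one_mem _)
    have hc1 : ∀ i, c 1 i = 0 := by
      intro i
      have h7 := hadd 1 (one_mem _) 1 (one_mem _) i
      rw [mul_one] at h7
      exact left_eq_add.1 h7
    have hqr1 : (q r).2 = 1 := by rw [hqr, he]
    have h8 : ∀ i, c (r * t * r⁻¹) ((q x).1 i) = c t i := by
      intro i
      have h9 := h4.2 i
      rw [hqr1, Units.val_one, one_smul, hqr] at h9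
      exact h9
    have h9 : ∀ i, c (r * (r * t * r⁻¹) * r⁻¹) ((q x).1 ((q x).1 i)) = c t i := by
      intro i
      have h10 := h5.2 ((q x).1 i)
      rw [hqr1, Units.val_one, one_smul, hqr, h8] at h10
      exact h10
    have h33 : (q x).1 * (q x).1 * (q x).1 = 1 := by
      rw [← h3]
      simp only [pow_succ, pow_zero, one_mul]
    have h3i : ∀ i, (q x).1 ((q x).1 ((q x).1 i)) = i := by
      intro i
      have h10 := congrArg (fun f : Equiv.Perm (Fin 3) => f i) h33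
      exact h10
    funext i
    rw [hadd _ (mul_mem ht h4.1) _ h5.1, hadd _ ht _ h4.1, hc1]
    have e1 : c (r * t * r⁻¹) i = c t ((q x).1 ((q x).1 i)) := by
      rw [← h8, h3i]
    have e2 : c (r * (r * t * r⁻¹) * r⁻¹) i = c t ((q x).1 i) := by
      rw [← h9, h3i]
    rw [e1, e2]
    have hs := hsum t ht
    rcases Wd_orb (q x).1 with h | h | h
    · exact absurd h33 h
    · exact absurd h hne
    · rcases h i with ⟨a, b, d⟩ | ⟨a, b, d⟩ | ⟨a, b, d⟩ | ⟨a, b, d⟩ | ⟨a, b, d⟩ | ⟨a, b, d⟩ <;>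
        rw [d, b, a, ← hs] <;> ring
  refine ⟨c, fun x => (q x).1, fun x => (q x).2, hadd, hinj, hsum, ?_, hact, ?_, ?_, ?_, ?_, ?_⟩
  · intro a b
    obtain ⟨u, hu⟩ := hLs a
    obtain ⟨v, hv⟩ := hLs b
    refine ⟨tor (u, v), tor_mem_TT _, ?_, ?_⟩
    · rw [hc, Wd_ch0]
      exact hu
    · rw [hc, Wd_ch1]
      exact hv
  · intro t ht
    exact ⟨congrArg Prod.fst (hTT t ht), congrArg Prod.snd (hTT t ht)⟩
  · intro x hx y hy
    exact ⟨congrArg Prod.fst (hmul x hx y hy), congrArg Prod.snd (hmul x hx y hy)⟩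
  · intro x hx h3 h4
    exact hker x hx (Prod.ext h3 h4)
  · intro x hx hne h3 he
    obtain ⟨r, hr, hr3, w, σ, τ, hM, hw1, -⟩ := NN_rho (K := K) h2
    have hqr3 : q r ^ 3 = 1 := by
      have h4 : q (r ^ 3) = q r ^ 3 := by
        simp only [pow_succ, pow_zero, one_mul]
        rw [hmul _ (mul_mem hr hr) _ hr, hmul _ hr _ hr]
      rw [← h4, hr3]
      exact hTT 1 (one_mem _)
    have hqr1 : q r ≠ 1 := by
      intro h4
      obtain ⟨k, hk, h5⟩ := hq r hr 1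
      obtain ⟨k', hk', h6⟩ := hM.mev 1
      rw [h4, LC2_Sg_one, h6] at h5
      have h7 := LC2_ev_inj hk' h5
      have h8 := hM.mwt 1
      rw [h7] at h8
      have h9 : wt 1 = (1, 0) := rfl
      rw [h9, hw1] at h8
      exact absurd h8 (by decide)
    obtain ⟨π0, hπ0, e3, e1⟩ := LC2_eps (q r) hqr3 hqr1
    have h33 : (q x).1 * (q x).1 * (q x).1 = 1 := by
      rw [← h3]
      simp only [pow_succ, pow_zero, one_mul]
    rcases Wd_cyc (q x).1 π0 with h | h | h | h | h | h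
    · exact absurd h33 h
    · exact absurd h hne
    · exact absurd e3 h
    · exact absurd h e1
    · refine hord x hx r hr hr3 ?_ he hne h3
      rw [hπ0]
      exact Prod.ext h.symm he.symm
    · refine hord x hx (r * r) (mul_mem hr hr) ?_ ?_ he hne h3
      · calc (r * r) ^ 3 = r ^ 3 * r ^ 3 := by
              simp only [pow_succ, pow_zero, one_mul, mul_assoc]
          _ = 1 := by rw [hr3, one_mul]
      · rw [hmul r hr r hr, hπ0]
        exact Prod.ext h.symm he.symm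
  · rintro _ ⟨s, rfl⟩ h3 h01 h12 x hx hxN
    have hs0 := hsp s
    change tor s ^ 3 = 1 at h3
    change c (tor s) 0 = c (tor s) 1 at h01
    change c (tor s) 1 = c (tor s) 2 at h12
    change x * tor s * x⁻¹ ∈ NN K at hxN
    show x * tor s * x⁻¹ ∈ TT K
    rw [hc, hc, Wd_ch0, Wd_ch1] at h01
    have e1 : s.1 = s.2 := hLi h01
    have e2 : s = (s.1, s.1) := Prod.ext rfl e1.symm
    have e3 : s.1 ^ 3 = 1 := by
      rw [← map_pow] at h3
      have h4 : s ^ 3 = 1 := tor_inj (h3.trans (map_one _).symm)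
      exact congrArg Prod.fst h4
    by_cases h4 : s.1 = 1
    · have h5 : s = 1 := by
        rw [e2, h4]
        rfl
      rw [h5, map_one, mul_one, mul_inv_cancel]
      exact one_mem _
    · rw [e2] at hxN ⊢
      exact Hz hK e3 h4 hx hxN

end Pool.Agent.H40.GT
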