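import Pool.Agent.H40.GT.SzA
import Pool.Agent.H40.GT.BHb
import Pool.Agent.H40.GT.Wd

/-!
# Part ShA1 (of ShA1, ShA2, ShA3); GT-52 short roots only: common facts

`F` an overgroup, `SF F ⊆ {6, 7}`, `6 ∈ SF F` (`rt 6 = (1,0)`, `rt 7 = (-1,0)`).  `M = F ⊓ NN`.
* `sh_w`: `n ∈ M` preserves `SF F` (`GSn_perm` / `mX`), so its linear part satisfies `w (1,0) = (1,0)` or
  `(-1,0)`; then `w^2 = 1` (finite check through `Mon_perm`), so `n^2 ∈ TT` (`Mon_one`).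
* `sh_fix`: if `n ∈ NN` fixes the line of `e_1` (`w (1,0) = (1,0)`) then `n` commutes with some
  `v = tor (y^-2, y)`, `y` of order `r`, `v ≠ 1`, `v ^ r = 1`: `w` is `1` or exchanges the weights of `e_2`, `e_3`.
* `sh_NX`: `x ∈ F` normalises `X6 = {X 6 s}` iff `x` fixes the line of `e_1`: `(X 6 1 - 1)^2` has
  range `⟨e_1⟩`; conversely the stabiliser `F'` of `⟨e_1⟩` is standard (`Std_pt`), `SF F' ⊆ {6}` (`X 7 1`
  moves `⟨e_1⟩`), so `x = c * n` with `c ∈ GS K {6} = {X 6 s * tor t}`, `n ∈ NN` fixing `⟨e_1⟩`; both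
  normalise `X6`.  So `x = X 6 s * n'`, `n' ∈ F ⊓ NN`.
* `sh_M0`: `|{n ∈ M fixing ⟨e_1⟩}| ≤ 2 |TT|`: `w` is `1` or the exchange.
* `sh_ce`: `e = tor (-1, 1)` or `tor (-1,-1)` (the involutions of `TT` different from `e0 = tor (1,-1)`):
  the centraliser `F'` of `e` in `F` is standard (`Std_ce`), `SF F' = ∅` (`X 6 1`, `X 7 1` do not commute with
  `e`), so `F' ≤ NN`.
* `sh_H0`: `i ∈ F` with `i ^ 2 = 1` fixing the line of `e_1`: `i = X 6 s * n` (`sh_NX`); `i` acts on `X6` as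
  `1` or `-1`.  If trivially: `n^2 = X 6 (-2 s)`, in `X6 ∩ NN = 1`: `s = 0`.  If as `-1`: with `u = X 6 (s/2)`
  `u⁻¹ i u = n`.  So `i = b n b⁻¹`, `b = 1` or `u`, `n ∈ M` fixing `⟨e_1⟩`; `sh_fix` gives
  `v` commuting with `n`.
-/

namespace Pool.Agent.H40.GT

variable {K : Type} [Field K]

/-- the root group of `r` -/
def Xg (K : Type) [Field K] (r : Rt) : Subgroup (EE K) where
  carrier := {g | ∃ s : K, g = X r s}
  one_mem' := ⟨0, by rw [X_zero]⟩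
  mul_mem' := by
    rintro a b ⟨s, rfl⟩ ⟨t, rfl⟩
    exact ⟨s + t, by rw [X_mul]⟩
  inv_mem' := by
    rintro a ⟨s, rfl⟩
    exact ⟨-s, by rw [X_inv]⟩

theorem Xg_card (hK : Ok K) (r : Rt) : Nat.card (Xg K r) = Nat.card K := by
  refine (Nat.card_congr (Equiv.ofBijective
    (fun s : K => (⟨X r s, s, rfl⟩ : Xg K r)) ⟨?_, ?_⟩)).symm
  · intro s t h
    exact X_inj r s t (congrArg Subtype.val h)
  · rintro ⟨g, s, rfl⟩
    exact ⟨s, rfl⟩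

/-- hypothesis on `F` in this file -/
def Sh (F : Subgroup (EE K)) : Prop := Ov F ∧ (6 : Rt) ∈ SF F ∧ ∀ r ∈ SF F, r = 6 ∨ r = 7

theorem ShA1_sg2 : ∀ q : Equiv.Perm (Fin 3) × ℤˣ, LC2_Sg q 1 = 1 ∨ LC2_Sg q 1 = 4 →
    q ^ 2 = 1 := by
  decide

theorem ShA1_sg1 : ∀ q : Equiv.Perm (Fin 3) × ℤˣ, LC2_Sg q 1 = 1 → ∀ j : Fin 7,
    -2 * (wt (LC2_Sg q j)).1 + (wt (LC2_Sg q j)).2 = -2 * (wt j).1 + (wt j).2 := by
  decide

theorem ShA1_pm (hK : Ok K) {F : Subgroup (EE K)} (hF : Sh F) {n : EE K} (hn : n ∈ NN K)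
    (hnF : n ∈ F) {q : Equiv.Perm (Fin 3) × ℤˣ} (hq : LC2_P n q) :
    LC2_Sg q 1 = 1 ∨ LC2_Sg q 1 = 4 := by
  obtain ⟨w, σ, τ, h⟩ := NN_mon (ok_two hK) hn
  have h6 : τ 6 ∈ SF F := by
    intro s
    obtain ⟨d, hd, hX⟩ := h.mX 6
    have h1 := hX (d⁻¹ * s)
    rw [mul_inv_cancel_left₀ hd] at h1
    rw [← h1]
    exact F.mul_mem (F.mul_mem hnF (hF.2.1 _)) (F.inv_mem hnF)
  have h7 : rt (τ 6) = w (rt 6) := h.mrt 6
  have h8 : wt (σ 1) = w (wt 1) := h.mwt 1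
  have h9 : wt (σ 1) = rt (τ 6) := by
    rw [h7, h8]
    rfl
  obtain ⟨c, hc, h10⟩ := h.mev 1
  obtain ⟨d, hd, h11⟩ := hq 1
  have h12 : σ 1 = LC2_Sg q 1 := LC2_ev_inj hc (h10.symm.trans h11)
  rcases hF.2.2 _ h6 with h13 | h13
  · left
    rw [← h12]
    apply wt_inj
    rw [h9, h13]
    decide
  · right
    rw [← h12]
    apply wt_inj
    rw [h9, h13]
    decide

theorem ShA1_ch (y : Kˣ) (v : ℤ × ℤ) : ch v (y ^ (-2 : ℤ), y) = y ^ (-2 * v.1 + v.2) := by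
  unfold ch
  rw [← zpow_mul, ← zpow_add]

theorem sh_sq (hK : Ok K) {F : Subgroup (EE K)} (hF : Sh F) {n : EE K} (hn : n ∈ NN K)
    (hnF : n ∈ F) : n ^ 2 ∈ TT K := by
  obtain ⟨q, hq⟩ := LC2_ex (ok_two hK) hn
  have h1 := ShA1_sg2 q (ShA1_pm hK hF hn hnF hq)
  have h2 := LC2_P_pow hq 2
  rw [h1] at h2
  refine diag_mem_TT (ok_two hK) ((GG K).pow_mem (NN_le_GG hn) 2) fun j => ?_
  obtain ⟨c, -, hc⟩ := h2 j
  rw [LC2_Sg_one] at hc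
  exact ⟨c, hc⟩

theorem sh_pm (hK : Ok K) {F : Subgroup (EE K)} (hF : Sh F) {n : EE K} (hn : n ∈ NN K)
    (hnF : n ∈ F) : (∃ c : K, n (ev 1) = c • ev 1) ∨ ∃ c : K, n (ev 1) = c • ev 4 := by
  obtain ⟨q, hq⟩ := LC2_ex (ok_two hK) hn
  obtain ⟨c, -, hc⟩ := hq 1
  rcases ShA1_pm hK hF hn hnF hq with h | h
  · left
    rw [h] at hc
    exact ⟨c, hc⟩
  · right
    rw [h] at hc
    exact ⟨c, hc⟩

theorem sh_fix (hK : Ok K) {n : EE K} (hn : n ∈ NN K) {c : K} (h : n (ev 1) = c • ev 1) :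
    ∃ v ∈ TT K, v ≠ 1 ∧ v ^ rr K = 1 ∧ n * v = v * n := by
  obtain ⟨q, hq⟩ := LC2_ex (ok_two hK) hn
  have hc0 : c ≠ 0 := by
    rintro rfl
    rw [zero_smul] at h
    have h1 : (ev 1 : V K) = 0 := n.injective (by rw [h, map_zero])
    exact NrB_ev_ne_zero 1 h1
  have hq1 : LC2_Sg q 1 = 1 := by
    obtain ⟨d, -, hd⟩ := hq 1
    exact (LC2_ev_inj hc0 (h.symm.trans hd)).symm
  obtain ⟨z, hz, -⟩ := ok_gen hK
  obtain ⟨y, hy⟩ : ∃ y : Kˣ, y = z ^ 2 := ⟨_, rfl⟩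
  have hyr : y ^ rr K = 1 := by
    rw [hy]
    exact LC1_pow hK hz
  have hy1 : y ≠ 1 := by
    intro h1
    have h2 : orderOf z ∣ 2 := orderOf_dvd_of_pow_eq_one (by rw [← hy, h1])
    have h3 := Nat.le_of_dvd (by norm_num) h2
    have h4 := LC1_two_rr hK
    have h5 := LC1_rr_ge hK
    omega
  refine ⟨tor (y ^ (-2 : ℤ), y), tor_mem_TT _, ?_, ?_, ?_⟩
  · intro h1
    have h2 : tor (y ^ (-2 : ℤ), y) = tor (1 : Kˣ × Kˣ) := by rw [h1, map_one]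
    exact hy1 (congrArg Prod.snd (tor_inj h2))
  · rw [← map_pow, Prod.pow_mk, hyr, ← zpow_natCast, zpow_comm, zpow_natCast, hyr, one_zpow]
    exact map_one _
  · apply EE_ext
    intro j
    obtain ⟨d, -, hd⟩ := hq j
    rw [LinearEquiv.mul_apply, LinearEquiv.mul_apply, tor_ev, map_smul, hd, map_smul, tor_ev,
      ShA1_ch, ShA1_ch, ShA1_sg1 q hq1 j, smul_comm]

end Pool.Agent.H40.GT
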