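import Pool.Agent.H40.GT.ShA1

/-!
# Part ShA2 (of ShA1, ShA2, ShA3); GT-52 short roots only: common facts

`F` an overgroup, `SF F ⊆ {6, 7}`, `6 ∈ SF F` (`rt 6 = (1,0)`, `rt 7 = (-1,0)`).  `M = F ⊓ NN`.
* `sh_w`: `n ∈ M` preserves `SF F` (`GSn_perm` / `mX`), so its linear part satisfies `w (1,0) = (1,0)` or
  `(-1,0)`; then `w^2 = 1` (finite check through `Mon_perm`), so `n^2 ∈ TT` (`Mon_one`).
* `sh_fix`: if `n ∈ NN` fixes the line of `e_1` (`w (1,0) = (1,0)`) then `n` commutes with some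
  `v = tor (y^-2, y)`, `y` of order `r`, `v ≠ 1`, `v ^ r = 1`: `w` is `1` or exchanges the weights of `e_2`, `e_3`.
* `sh_NX`: `x ∈ F` normalises `X6 = {X 6 s}` iff `x` fixes the line of `e_1`: `(X 6 1 - 1)^2` has
  range `⟨e_1⟩`; conversely the stabiliser `F'` of `⟨e_1⟩` is standard (`Std_pt`), `SF F' ⊆ {6}` (`X 7 1`
  moves `⟨e_1⟩`), so `x = c * n` with `c ∈ GS K {6} = {X 6 s * tor t}`, `n ∈ NN` fixing `⟨e_1⟩`; both
  normalise `X6`.  So `x = X 6 s * n'`, `n' ∈ F ⊓ NN`.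
* `sh_M0`: `|{n ∈ M fixing ⟨e_1⟩}| ≤ 2 |TT|`: `w` is `1` or the exchange.
* `sh_ce`: `e = tor (-1, 1)` or `tor (-1,-1)` (the involutions of `TT` different from `e0 = tor (1,-1)`):
  the centraliser `F'` of `e` in `F` is standard (`Std_ce`), `SF F' = ∅` (`X 6 1`, `X 7 1` do not commute with
  `e`), so `F' ≤ NN`.
* `sh_H0`: `i ∈ F` with `i ^ 2 = 1` fixing the line of `e_1`: `i = X 6 s * n` (`sh_NX`); `i` acts on `X6` as
  `1` or `-1`.  If trivially: `n^2 = X 6 (-2 s)`, in `X6 ∩ NN = 1`: `s = 0`.  If as `-1`: with `u = X 6 (s/2)`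
  `u⁻¹ i u = n`.  So `i = b n b⁻¹`, `b = 1` or `u`, `n ∈ M` fixing `⟨e_1⟩`; `sh_fix` gives
  `v` commuting with `n`.
-/

namespace Pool.Agent.H40.GT

variable {K : Type} [Field K]

theorem ShA2_ev1 (s : K) : X 6 s (ev 1) = (ev 1 : V K) := by
  funext i
  have h : (cc 6 i = 0 ∨ sc 6 i ≠ 1) ∧ (qc 6 i = 0 ∨ qs 6 i ≠ 1) := by
    revert i
    decide
  have e1 : (cc 6 i : K) * (ev 1 : V K) (sc 6 i) = 0 := by
    rcases h.1 with h | h
    · rw [h, Int.cast_zero, zero_mul]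
    · rw [ev_ne h, mul_zero]
  have e2 : (qc 6 i : K) * (ev 1 : V K) (qs 6 i) = 0 := by
    rcases h.2 with h | h
    · rw [h, Int.cast_zero, zero_mul]
    · rw [ev_ne h, mul_zero]
  rw [X_apply, e1, e2, mul_zero, mul_zero, add_zero, add_zero]

theorem ShA2_ev7 : X 7 (1 : K) (ev 1) 0 = 1 := by
  have h1 : cc 7 0 = 1 := by decide
  have h2 : sc 7 0 = 1 := by decide
  have h3 : qc 7 0 = 0 := by decide
  rw [X_apply, h1, h2, h3, ev_same, ev_ne (by decide : (0 : Fin 7) ≠ 1)]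
  norm_num

theorem ShA2_sq (s : K) (v : V K) :
    X 6 s (X 6 s v) - (2 : K) • X 6 s v + v = (-2 * s ^ 2 * v 4) • ev 1 := by
  have h : X 6 s (X 6 s v) = X 6 (s + s) v := by
    rw [← X_mul, LinearEquiv.mul_apply]
  rw [h]
  funext i
  rw [Pi.add_apply, Pi.sub_apply, Pi.smul_apply, Pi.smul_apply, X_apply, X_apply]
  fin_cases i <;> simp [cc, sc, qc, qs, ev] <;> ring

/-- the stabiliser of the line of `e_1` -/
def ShA2_St (F : Subgroup (EE K)) : Subgroup (EE K) where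
  carrier := {f | f ∈ F ∧ ∃ c : K, c ≠ 0 ∧ f (ev 1) = c • ev 1}
  one_mem' := ⟨one_mem _, 1, one_ne_zero, by simp⟩
  mul_mem' := by
    rintro a b ⟨ha, c, hc, h⟩ ⟨hb, d, hd, h'⟩
    exact ⟨mul_mem ha hb, d * c, mul_ne_zero hd hc, by
      rw [LinearEquiv.mul_apply, h', map_smul, h, smul_smul]⟩
  inv_mem' := by
    rintro a ⟨ha, c, hc, h⟩
    exact ⟨inv_mem ha, c⁻¹, inv_ne_zero hc, NrB_inv_ev hc h⟩

theorem ShA2_ne {f : EE K} {c : K} (h : f (ev 1) = c • ev 1) : c ≠ 0 := by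
  rintro rfl
  rw [zero_smul] at h
  have h1 : (ev 1 : V K) = 0 := by
    apply f.injective
    rw [h, map_zero]
  exact NrB_ev_ne_zero 1 h1

theorem ShA2_GS {c : EE K} {S : Set Rt} (hS : ∀ r ∈ S, r = 6) (hc : c ∈ GS K S) :
    ∃ u ∈ Xg K 6, ∃ t ∈ TT K, c = u * t := by
  have hn : ∀ t ∈ TT K, ∀ u ∈ Xg K 6, t * u * t⁻¹ ∈ Xg K 6 := by
    rintro _ ⟨t, rfl⟩ _ ⟨s, rfl⟩
    exact ⟨_, tor_X t 6 s⟩
  unfold GS at hc
  induction hc using Subgroup.closure_induction with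
  | mem x hx =>
    rcases hx with hx | ⟨r, hr, s, rfl⟩
    · exact ⟨1, one_mem _, x, hx, (one_mul x).symm⟩
    · rw [hS r hr]
      exact ⟨X 6 s, ⟨s, rfl⟩, 1, one_mem _, (mul_one _).symm⟩
  | one => exact ⟨1, one_mem _, 1, one_mem _, (mul_one _).symm⟩
  | mul x y _ _ hx hy =>
    obtain ⟨u, hu, t, ht, rfl⟩ := hx
    obtain ⟨u', hu', t', ht', rfl⟩ := hy
    exact ⟨u * (t * u' * t⁻¹), mul_mem hu (hn t ht u' hu'), t * t', mul_mem ht ht', by group⟩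
  | inv x _ hx =>
    obtain ⟨u, hu, t, ht, rfl⟩ := hx
    exact ⟨t⁻¹ * u⁻¹ * t⁻¹⁻¹, hn _ (inv_mem ht) _ (inv_mem hu), t⁻¹, inv_mem ht, by group⟩

theorem ShA2_Ov {F : Subgroup (EE K)} (hF : Ov F) : Ov (ShA2_St F) := by
  refine ⟨?_, fun f hf => hF.2 hf.1⟩
  rintro _ ⟨t, rfl⟩
  exact ⟨hF.1 (tor_mem_TT t), _, Units.ne_zero _, tor_ev t 1⟩

theorem sh_dec (hK : Ok K) {F : Subgroup (EE K)} (hF : Sh F) {x : EE K} (hx : x ∈ F) {c : K}
    (h : x (ev 1) = c • ev 1) : ∃ u ∈ Xg K 6, ∃ n ∈ NN K, n ∈ F ∧ x = u * n ∧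
      ∃ c : K, n (ev 1) = c • ev 1 := by
  obtain ⟨hO, h6, hS⟩ := hF
  have hst : Std (ShA2_St F) := Std_pt hK (ShA2_Ov hO) (j := 1) (by decide)
    (fun f hf => by
      obtain ⟨-, c, -, hc⟩ := hf
      exact ⟨c, hc⟩)
  obtain ⟨g, hg, hn⟩ := hst x ⟨hx, c, ShA2_ne h, h⟩
  have hS' : ∀ r ∈ SF (ShA2_St F), r = 6 := by
    intro r hr
    have hr' : r ∈ SF F := fun s => (hr s).1
    rcases hS r hr' with h1 | h1
    · exact h1
    · exfalso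
      rw [h1] at hr
      obtain ⟨-, d, -, hd⟩ := hr 1
      have h2 := congrFun hd 0
      rw [ShA2_ev7, Pi.smul_apply, ev_ne (by decide : (0 : Fin 7) ≠ 1), smul_zero] at h2
      exact one_ne_zero h2
  obtain ⟨u, hu, t, ht, rfl⟩ := ShA2_GS hS' hg
  have huF : u ∈ F := by
    obtain ⟨s, rfl⟩ := hu
    exact h6 s
  refine ⟨u, hu, u⁻¹ * x, ?_, mul_mem (inv_mem huF) hx, by group, c, ?_⟩
  · have h3 : u⁻¹ * x = t * ((u * t)⁻¹ * x) := by group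
    rw [h3]
    exact mul_mem (TT_le_NN ht) hn
  · obtain ⟨s, rfl⟩ := hu
    rw [LinearEquiv.mul_apply, h, map_smul, X_inv, ShA2_ev1]

theorem ShA2_NN (hK : Ok K) {n : EE K} (hn : n ∈ NN K) {c : K} (h : n (ev 1) = c • ev 1)
    {u : EE K} (hu : u ∈ Xg K 6) : n * u * n⁻¹ ∈ Xg K 6 := by
  obtain ⟨w, σ, τ, hM⟩ := NN_mon (ok_two hK) hn
  obtain ⟨s, rfl⟩ := hu
  have h1 : σ 1 = 1 := by
    obtain ⟨d, hd, h2⟩ := hM.mev 1
    exact LC2_ev_inj hd (h2.symm.trans h)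
  have h2 : τ 6 = 6 := by
    apply rt_inj
    have h3 : rt (6 : Rt) = wt 1 := by decide
    rw [hM.mrt, h3, ← hM.mwt, h1]
  obtain ⟨d, -, hd⟩ := hM.mX 6
  exact ⟨d * s, by rw [hd s, h2]⟩

theorem sh_NX (hK : Ok K) {F : Subgroup (EE K)} (hF : Sh F) {x : EE K} (hx : x ∈ F) :
    (∀ u ∈ Xg K 6, x * u * x⁻¹ ∈ Xg K 6) ↔ ∃ c : K, x (ev 1) = c • ev 1 := by
  constructor
  · intro h
    obtain ⟨s, hs⟩ := h (X 6 1) ⟨1, rfl⟩
    have h1 : x * X 6 1 = X 6 s * x := by rw [← hs, inv_mul_cancel_right]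
    have h2 : ∀ v, x (X 6 1 v) = X 6 s (x v) := fun v => LinearEquiv.congr_fun h1 v
    have h3 := congrArg x (ShA2_sq (1 : K) (ev 4))
    rw [map_add, map_sub, map_smul, h2, h2, ShA2_sq, ev_same, map_smul] at h3
    have h4 := ok_two hK
    refine ⟨s ^ 2 * x (ev 4) 4, ?_⟩
    have h5 : (-2 : K) • x (ev 1) = (-2 : K) • ((s ^ 2 * x (ev 4) 4) • ev 1) := by
      rw [smul_smul, ← mul_assoc, h3, one_pow, mul_one, mul_one]
    exact smul_right_injective _ (neg_ne_zero.2 h4) h5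
  · rintro ⟨c, hc⟩ u hu
    obtain ⟨u', hu', n, hn, -, rfl, d, hd⟩ := sh_dec hK hF hx hc
    have h1 : u' * n * u * (u' * n)⁻¹ = u' * (n * u * n⁻¹) * u'⁻¹ := by group
    rw [h1]
    exact mul_mem (mul_mem hu' (ShA2_NN hK hn hd hu)) (inv_mem hu')

end Pool.Agent.H40.GT
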