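import Pool.Agent.H40.GT.ShA2

/-!
# Part ShA3 (of ShA1, ShA2, ShA3); GT-52 short roots only: common facts

`F` an overgroup, `SF F ⊆ {6, 7}`, `6 ∈ SF F` (`rt 6 = (1,0)`, `rt 7 = (-1,0)`).  `M = F ⊓ NN`.
* `sh_w`: `n ∈ M` preserves `SF F` (`GSn_perm` / `mX`), so its linear part satisfies `w (1,0) = (1,0)` or
  `(-1,0)`; then `w^2 = 1` (finite check through `Mon_perm`), so `n^2 ∈ TT` (`Mon_one`).
* `sh_fix`: if `n ∈ NN` fixes the line of `e_1` (`w (1,0) = (1,0)`) then `n` commutes with some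
  `v = tor (y^-2, y)`, `y` of order `r`, `v ≠ 1`, `v ^ r = 1`: `w` is `1` or exchanges the weights of `e_2`, `e_3`.
* `sh_NX`: `x ∈ F` normalises `X6 = {X 6 s}` iff `x` fixes the line of `e_1`: `(X 6 1 - 1)^2` has
  range `⟨e_1⟩`; conversely the stabiliser `F'` of `⟨e_1⟩` is standard (`Std_pt`), `SF F' ⊆ {6}` (`X 7 1`
  moves `⟨e_1⟩`), so `x = c * n` with `c ∈ GS K {6} = {X 6 s * tor t}`, `n ∈ NN` fixing `⟨e_1⟩`; both
  normalise `X6`.  So `x = X 6 s * n'`, `n' ∈ F ⊓ NN`.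
* `sh_M0`: `|{n ∈ M fixing ⟨e_1⟩}| ≤ 2 |TT|`: `w` is `1` or the exchange.
* `sh_ce`: `e = tor (-1, 1)` or `tor (-1,-1)` (the involutions of `TT` different from `e0 = tor (1,-1)`):
  the centraliser `F'` of `e` in `F` is standard (`Std_ce`), `SF F' = ∅` (`X 6 1`, `X 7 1` do not commute with
  `e`), so `F' ≤ NN`.
* `sh_H0`: `i ∈ F` with `i ^ 2 = 1` fixing the line of `e_1`: `i = X 6 s * n` (`sh_NX`); `i` acts on `X6` as
  `1` or `-1`.  If trivially: `n^2 = X 6 (-2 s)`, in `X6 ∩ NN = 1`: `s = 0`.  If as `-1`: with `u = X 6 (s/2)`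
  `u⁻¹ i u = n`.  So `i = b n b⁻¹`, `b = 1` or `u`, `n ∈ M` fixing `⟨e_1⟩`; `sh_fix` gives
  `v` commuting with `n`.
-/

namespace Pool.Agent.H40.GT

variable {K : Type} [Field K]

theorem ShA3_TT (hK : Ok K) {n : EE K} (hn : n ∈ NN K) {c d : K} (h1 : n (ev 1) = c • ev 1)
    (h2 : n (ev 2) = d • ev 2) : n ∈ TT K := by
  obtain ⟨w, σ, τ, hM⟩ := NN_mon (ok_two hK) hn
  have e1 : σ 1 = 1 := by
    obtain ⟨c', hc', h3⟩ := hM.mev 1
    exact LC2_ev_inj hc' (h3.symm.trans h1)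
  have e2 : σ 2 = 2 := by
    obtain ⟨c', hc', h3⟩ := hM.mev 2
    exact LC2_ev_inj hc' (h3.symm.trans h2)
  refine Mon_one (ok_two hK) hn hM ?_ ?_
  · have h3 := hM.mwt 1
    rw [e1] at h3
    exact h3.symm
  · have h3 := hM.mwt 2
    rw [e2] at h3
    exact h3.symm

theorem ShA3_tab : ∀ k : Fin 3, ∀ ε : ℤ, (ε = 1 ∨ ε = -1) →
    ((1, 0) : ℤ × ℤ) = ε • wt (![1, 2, 3] k) → ε = 1 ∧ k = 0 := by
  intro k ε hε
  rcases hε with rfl | rfl <;> revert k <;> decide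

theorem ShA3_dich (hK : Ok K) {n : EE K} (hn : n ∈ NN K) {c : K} (h1 : n (ev 1) = c • ev 1) :
    n ∈ TT K ∨ ∃ d : K, n (ev 2) = d • ev 3 := by
  obtain ⟨w, σ, τ, hM⟩ := NN_mon (ok_two hK) hn
  obtain ⟨π, ε, hε, hπ⟩ := Mon_perm (ok_two hK) hn hM
  have e1 : σ 1 = 1 := by
    obtain ⟨c', hc', h3⟩ := hM.mev 1
    exact LC2_ev_inj hc' (h3.symm.trans h1)
  have e0 : ε = 1 ∧ π 0 = 0 := by
    apply ShA3_tab _ _ hε
    rw [← hπ 0]
    have h3 := hM.mwt 1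
    rw [e1] at h3
    exact h3
  obtain ⟨rfl, e0⟩ := e0
  have e2 : wt (σ 2) = wt (![1, 2, 3] (π 1)) := by
    rw [hM.mwt 2, ← one_smul ℤ (wt (![1, 2, 3] (π 1))), ← hπ 1]
    rfl
  have e3 : π 1 ≠ 0 := by
    intro h
    rw [← e0] at h
    exact absurd (π.injective h) (by decide)
  obtain ⟨d, -, hd⟩ := hM.mev 2
  have e4 : π 1 = 1 ∨ π 1 = 2 := by
    generalize π 1 = k at e3
    revert e3 k
    decide
  rcases e4 with e4 | e4
  · left
    rw [e4] at e2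
    have e5 : σ 2 = 2 := wt_inj e2
    rw [e5] at hd
    exact ShA3_TT hK hn h1 hd
  · right
    rw [e4] at e2
    have e5 : σ 2 = 3 := wt_inj e2
    rw [e5] at hd
    exact ⟨d, hd⟩

theorem sh_M0 (hK : Ok K) {F : Subgroup (EE K)} (hF : Sh F) (M0 : Subgroup (EE K))
    (h : ∀ n ∈ M0, n ∈ NN K ∧ ∃ c : K, n (ev 1) = c • ev 1) :
    Nat.card M0 ≤ 2 * Nat.card (TT K) := by
  have hfin : Finite (EE K) := ok_EE_finite hK
  have hsub : ∃ n0 : EE K, (M0 : Set (EE K)) ⊆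
      (TT K : Set (EE K)) ∪ (fun t => n0 * t) '' (TT K : Set (EE K)) := by
    by_cases hc : ∃ n0 ∈ M0, ∃ d : K, n0 (ev 2) = d • ev 3
    · obtain ⟨n0, hn0, d, hd⟩ := hc
      refine ⟨n0, fun n hn => ?_⟩
      obtain ⟨h1, c, h2⟩ := h n hn
      rcases ShA3_dich hK h1 h2 with h3 | ⟨d', h3⟩
      · exact Or.inl h3
      · right
        refine ⟨n0⁻¹ * n, ?_, mul_inv_cancel_left _ _⟩
        obtain ⟨h4, c', h5⟩ := h n0 hn0
        have hd0 : d ≠ 0 := by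
          rintro rfl
          rw [zero_smul] at hd
          exact NrB_ev_ne_zero (K := K) 2 (n0.injective (hd.trans (map_zero n0).symm))
        have h6 := NrB_inv_ev hd0 hd
        have h7 := NrB_inv_ev (ShA2_ne h5) h5
        refine ShA3_TT hK (mul_mem (inv_mem h4) h1) (c := c * c'⁻¹) (d := d' * d⁻¹) ?_ ?_
        · rw [LinearEquiv.mul_apply, h2, map_smul, h7, smul_smul]
        · rw [LinearEquiv.mul_apply, h3, map_smul, h6, smul_smul]
    · refine ⟨1, fun n hn => Or.inl ?_⟩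
      obtain ⟨h1, c, h2⟩ := h n hn
      rcases ShA3_dich hK h1 h2 with h3 | ⟨d', h3⟩
      · exact h3
      · exact absurd ⟨n, hn, d', h3⟩ hc
  obtain ⟨n0, hn0⟩ := hsub
  have h1 : (M0 : Set (EE K)).ncard ≤ (TT K : Set (EE K)).ncard + (TT K : Set (EE K)).ncard :=
    (Set.ncard_le_ncard hn0 (Set.toFinite _)).trans ((Set.ncard_union_le _ _).trans
      (Nat.add_le_add_left (Set.ncard_image_le (Set.toFinite _)) _))
  have h2 : Nat.card M0 = (M0 : Set (EE K)).ncard := rfl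
  have h3 : Nat.card (TT K) = (TT K : Set (EE K)).ncard := rfl
  rw [h2, h3, two_mul]
  exact h1

/-- the centraliser in `F` -/
def ShA3_Ce (F : Subgroup (EE K)) (e : EE K) : Subgroup (EE K) where
  carrier := {f | f ∈ F ∧ f * e = e * f}
  one_mem' := ⟨one_mem _, by rw [one_mul, mul_one]⟩
  mul_mem' := by
    rintro a b ⟨ha, h⟩ ⟨hb, h'⟩
    exact ⟨mul_mem ha hb, by rw [mul_assoc, h', ← mul_assoc, h, mul_assoc]⟩
  inv_mem' := by
    rintro a ⟨ha, h⟩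
    exact ⟨inv_mem ha, by rw [inv_mul_eq_iff_eq_mul, ← mul_assoc, h, mul_inv_cancel_right]⟩

theorem sh_ce (hK : Ok K) {F : Subgroup (EE K)} (hF : Sh F) {e : EE K} (he : e ∈ TT K)
    (h1 : e ≠ 1) (h0 : e ≠ tor (1, -1)) (h2 : e ^ 2 = 1) {x : EE K} (hx : x ∈ F)
    (hc : x * e = e * x) : x ∈ NN K := by
  obtain ⟨hO, h6, hS⟩ := hF
  obtain ⟨e, rfl⟩ := he
  have hO' : Ov (ShA3_Ce F (tor e)) :=
    ⟨fun t ht => ⟨hO.1 ht, TT_comm t _ ht (tor_mem_TT e)⟩, fun f hf => hO.2 hf.1⟩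
  have he1 : e ≠ 1 := by
    rintro rfl
    exact h1 (map_one _)
  have he2 : e ^ 2 = 1 := tor_inj (K := K) (by rw [map_pow, h2, map_one])
  have hst : Std (ShA3_Ce F (tor e)) := Std_ce hK hO' he1 he2 (fun f hf => hf.2)
  have hS' : SF (ShA3_Ce F (tor e)) = ∅ := by
    rw [Set.eq_empty_iff_forall_notMem]
    intro r hr
    have hr' : r ∈ SF F := fun s => (hr s).1
    have h3 := (X_comm_tor e r 1 one_ne_zero).1 (hr 1).2
    have h4 : e.1 = 1 := by
      rcases hS r hr' with rfl | rfl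
      · simpa [ch, rt] using h3
      · simpa [ch, rt] using h3
    have h5 : e.2 = 1 ∨ e.2 = -1 := by
      have h6 : e.2 ^ 2 = 1 := congrArg Prod.snd he2
      have h7 : (e.2 : K) * (e.2 : K) = 1 := by
        rw [← Units.val_mul, ← sq, h6, Units.val_one]
      rcases mul_self_eq_one_iff.1 h7 with h8 | h8
      · left
        exact Units.ext h8
      · right
        apply Units.ext
        rw [h8, Units.val_neg, Units.val_one]
    rcases h5 with h5 | h5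
    · exact he1 (Prod.ext h4 h5)
    · exact h0 (congrArg _ (Prod.ext h4 h5))
  obtain ⟨c, hc1, hc2⟩ := hst x ⟨hx, hc⟩
  rw [hS', GS_empty] at hc1
  have h3 : x = c * (c⁻¹ * x) := by group
  rw [h3]
  exact mul_mem (TT_le_NN hc1) hc2

theorem ShA3_X {a : K} (h : X 6 a ∈ NN K) : a = 0 := by
  obtain ⟨i, c, hi⟩ := h.2.1 4
  by_contra ha
  have k0 : X 6 a (ev 4) 0 = a := by
    have h1 : cc 6 0 = 1 := by decide
    have h2 : sc 6 0 = 4 := by decide
    have h3 : qc 6 0 = 0 := by decide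
    rw [X_apply, h1, h2, h3, ev_same, ev_ne (by decide : (0 : Fin 7) ≠ 4), Int.cast_one,
      Int.cast_zero, zero_mul, mul_zero, mul_one, mul_one, zero_add, add_zero]
  have k4 : X 6 a (ev 4) 4 = 1 := by
    have h1 : cc 6 4 = 0 := by decide
    have h3 : qc 6 4 = 0 := by decide
    rw [X_apply, h1, h3, ev_same, Int.cast_zero, zero_mul, zero_mul, mul_zero, mul_zero,
      add_zero, add_zero]
  rw [hi, Pi.smul_apply, smul_eq_mul] at k0 k4
  have e0 : i = 0 := by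
    by_contra hne
    rw [ev_ne (Ne.symm hne), mul_zero] at k0
    exact ha k0.symm
  rw [e0, ev_ne (by decide), mul_zero] at k4
  exact zero_ne_one k4

theorem sh_H0 (hK : Ok K) {F : Subgroup (EE K)} (hF : Sh F) {i : EE K} (hi : i ∈ F)
    (h2 : i ^ 2 = 1) {c : K} (h : i (ev 1) = c • ev 1) :
    ∃ b ∈ Xg K 6, ∃ v ∈ TT K, v ≠ 1 ∧ v ^ rr K = 1 ∧ i * (b * v * b⁻¹) = b * v * b⁻¹ * i := by
  obtain ⟨u, ⟨s, rfl⟩, n, hn, hnF, rfl, c', hc'⟩ := sh_dec hK hF hi h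
  obtain ⟨w, σ, τ, hM⟩ := NN_mon (ok_two hK) hn
  have e1 : σ 1 = 1 := by
    obtain ⟨d, hd, h3⟩ := hM.mev 1
    exact LC2_ev_inj hd (h3.symm.trans hc')
  have e6 : τ 6 = 6 := by
    apply rt_inj
    have h3 : rt (6 : Rt) = wt 1 := by decide
    rw [hM.mrt, h3, ← hM.mwt, e1]
  obtain ⟨d, -, hd⟩ := hM.mX 6
  rw [e6] at hd
  have h3 : X 6 (s + d * s) * n ^ 2 = 1 := by
    rw [← h2, ← X_mul, ← hd s, pow_two, pow_two]
    group
  have h4 : X 6 (-(s + d * s)) = n ^ 2 := by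
    rw [← X_inv]
    exact inv_eq_of_mul_eq_one_right h3
  have h5 : -(s + d * s) = 0 := ShA3_X (by rw [h4]; exact pow_mem hn 2)
  have h6 : (1 + d) * s = 0 := by linear_combination -h5
  obtain ⟨v, hv, hv1, hvr, hvn⟩ := sh_fix hK hn hc'
  have key : ∃ b ∈ Xg K 6, X 6 s * n = b * n * b⁻¹ := by
    rcases mul_eq_zero.1 h6 with h7 | h7
    · have h8 : d = -1 := by linear_combination h7
      refine ⟨X 6 (s / 2), ⟨_, rfl⟩, ?_⟩
      have h9 := hd (-(s / 2))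
      rw [h8] at h9
      have h10 : X 6 (s / 2) * n * (X 6 (s / 2))⁻¹ =
          X 6 (s / 2) * (n * X 6 (-(s / 2)) * n⁻¹) * n := by
        rw [X_inv]
        group
      rw [h10, h9, X_mul]
      congr 2
      have h11 := ok_two hK
      field_simp
      ring
    · exact ⟨1, one_mem _, by rw [h7, X_zero]; group⟩
  obtain ⟨b, hb, hbn⟩ := key
  refine ⟨b, hb, v, hv, hv1, hvr, ?_⟩
  rw [hbn]
  have h7 : b * n * b⁻¹ * (b * v * b⁻¹) = b * (n * v) * b⁻¹ := by group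
  rw [h7, hvn]
  group

end Pool.Agent.H40.GT
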