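import Pool.Agent.H40.GT.ShA

/-!
# GT-53 one short root group

`SF F = {6}`.  Apply `thmB` to `Γ = F` (as a type), `T = (TT K).subgroupOf F`,
`M = (NN K).subgroupOf F`, `B = (BF _ F).subgroupOf F`, `X = (Xg K 6).subgroupOf F`,
`NX` = the elements of `F` normalising `X`, `p = |K|`, `r = rr K`, `k = 1`, `e0 = tor (1, -1)`:
every element of `B` is `c * n`, `c ∈ GS K {6}` (which is `X6 TT`), `n ∈ NN ∩ F`, and `n` preserves
`SF F = {6}`, so it normalises `X6`; so `B = NX`, `k = 1`.  `H`: elements of `B` fix the line of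
`e_1` (`sh_NX`), so `sh_H0` applies.  `small`: `NX ∩ M = M`.  `centr`: `ok_centr`.  `cj`: `lemC`.
`cent`: `cent_BF`.  `cardT`: `ok_TT_card`.
-/

namespace Pool.Agent.H40.GT

variable {K : Type} [Field K]

theorem ShB_tau {F : Subgroup (EE K)} (hK : Ok K) (hS : SF F = {6}) {n : EE K} (hn : n ∈ NN K)
    (hnF : n ∈ F) {u : EE K} (hu : u ∈ Xg K 6) : n * u * n⁻¹ ∈ Xg K 6 := by
  obtain ⟨w, σ, τ, hM⟩ := NN_mon (ok_two hK) hn
  have h1 : cj n F = F := by
    ext x
    rw [mem_cj]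
    constructor
    · intro hx
      have h3 : x = n * (n⁻¹ * x * n) * n⁻¹ := by group
      rw [h3]
      exact mul_mem (mul_mem hnF hx) (inv_mem hnF)
    · intro hx
      exact mul_mem (mul_mem (inv_mem hnF) hx) hnF
  have h3 := SF_cj hM F
  rw [h1, hS, Set.image_singleton] at h3
  have h4 : (6 : Rt) = τ 6 := Set.singleton_eq_singleton_iff.1 h3
  obtain ⟨s, rfl⟩ := hu
  obtain ⟨d, -, hd⟩ := hM.mX 6
  refine ⟨d * s, ?_⟩
  have h5 := hd s
  rw [← h4] at h5
  exact h5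

theorem ShB_GS (hK : Ok K) {c : EE K} (hc : c ∈ GS K ({6} : Set Rt)) {u : EE K}
    (hu : u ∈ Xg K 6) : c * u * c⁻¹ ∈ Xg K 6 := by
  unfold GS at hc
  induction hc using Subgroup.closure_induction generalizing u with
  | mem x hx =>
    rcases hx with ⟨t, rfl⟩ | ⟨r, hr, s, rfl⟩
    · obtain ⟨s, rfl⟩ := hu
      exact ⟨_, tor_X t 6 s⟩
    · rw [Set.mem_singleton_iff] at hr
      subst hr
      exact mul_mem (mul_mem ⟨s, rfl⟩ hu) (inv_mem ⟨s, rfl⟩)
  | one =>
    rw [one_mul, inv_one, mul_one]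
    exact hu
  | mul x y _ _ hx hy =>
    have h1 : x * y * u * (x * y)⁻¹ = x * (y * u * y⁻¹) * x⁻¹ := by group
    rw [h1]
    exact hx (hy hu)
  | inv x hx1 hx =>
    have hfin : Finite (EE K) := ok_EE_finite hK
    have h1 : ∀ k : ℕ, x ^ k * u * (x ^ k)⁻¹ ∈ Xg K 6 := by
      intro k
      induction k with
      | zero =>
        rw [pow_zero, one_mul, inv_one, mul_one]
        exact hu
      | succ k ih =>
        have h2 : x ^ (k + 1) * u * (x ^ (k + 1))⁻¹ = x * (x ^ k * u * (x ^ k)⁻¹) * x⁻¹ := by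
          rw [pow_succ']
          group
        rw [h2]
        exact hx ih
    have h3 : x⁻¹ = x ^ (Nat.card (EE K) - 1) := by
      rw [inv_eq_iff_mul_eq_one, ← pow_succ']
      have h4 : Nat.card (EE K) - 1 + 1 = Nat.card (EE K) := Nat.sub_add_cancel Nat.card_pos
      rw [h4]
      exact pow_card_eq_one'
    rw [h3]
    exact h1 _

theorem ShB_card {F A : Subgroup (EE K)} (h : A ≤ F) :
    Nat.card (A.subgroupOf F) = Nat.card A :=
  Nat.card_congr (Subgroup.subgroupOfEquivOfLe h).toEquiv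

theorem ShB_Sh {F : Subgroup (EE K)} (hF : Ov F) (hS : SF F = {6}) : Sh F := by
  refine ⟨hF, ?_, ?_⟩
  · rw [hS]
    exact Set.mem_singleton _
  · intro r hr
    rw [hS, Set.mem_singleton_iff] at hr
    exact Or.inl hr

theorem ShB_mem (hK : Ok K) {F : Subgroup (EE K)} (hF : Ov F) (hS : SF F = {6}) {x : EE K}
    (hx : x ∈ F) : x ∈ BF (ok_two hK) F ↔ ∀ u ∈ Xg K 6, x * u * x⁻¹ ∈ Xg K 6 := by
  constructor
  · rintro ⟨-, c, hc, hm, hcF⟩ u hu
    rw [hS] at hc
    have h1 : x * u * x⁻¹ = c * ((c⁻¹ * x) * u * (c⁻¹ * x)⁻¹) * c⁻¹ := by group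
    rw [h1]
    exact ShB_GS hK hc (ShB_tau hK hS hm (mul_mem (inv_mem hcF) hx) hu)
  · intro h
    obtain ⟨c, hc⟩ := (sh_NX hK (ShB_Sh hF hS) hx).1 h
    obtain ⟨u, ⟨s, rfl⟩, n, hn, hnF, rfl, -⟩ := sh_dec hK (ShB_Sh hF hS) hx hc
    refine mul_mem (GS_le_BF (ok_two hK) hF (X_mem_GS ?_ s)) (NN_le_BF (ok_two hK) hF ⟨hn, hnF⟩)
    rw [hS]
    exact Set.mem_singleton _

theorem ShB_fix (hK : Ok K) {F : Subgroup (EE K)} (hF : Ov F) (hS : SF F = {6}) {x : EE K}
    (hx : x ∈ BF (ok_two hK) F) : ∃ c : K, x (ev 1) = c • ev 1 :=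
  (sh_NX hK (ShB_Sh hF hS) (BF_le _ hx)).1 ((ShB_mem hK hF hS (BF_le _ hx)).1 hx)

theorem ShB_XB (hK : Ok K) {F : Subgroup (EE K)} (hF : Ov F) (hS : SF F = {6}) :
    Xg K 6 ≤ BF (ok_two hK) F := by
  rintro _ ⟨s, rfl⟩
  refine GS_le_BF (ok_two hK) hF (X_mem_GS ?_ s)
  rw [hS]
  exact Set.mem_singleton _

theorem ShB_exp (hK : Ok K) {t : EE K} (ht : t ∈ TT K) : t ^ (2 * rr K) = 1 := by
  obtain ⟨⟨a, b⟩, rfl⟩ := ht
  have h : ∀ a : Kˣ, a ^ (2 * rr K) = 1 := by
    intro a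
    rw [← LC1_two_rr hK, ← ok_units hK]
    exact pow_card_eq_one'
  rw [← map_pow, Prod.pow_mk, h, h]
  exact map_one _

theorem ShB_cardT (hK : Ok K) : Nat.card (TT K) = 4 * rr K ^ 2 := by
  rw [ok_TT_card hK, LC1_two_rr hK]
  ring

theorem ShB_neg (hK : Ok K) : (-1 : Kˣ) ≠ 1 := by
  intro h
  apply ok_two hK
  have h1 := congrArg Units.val h
  rw [Units.val_neg, Units.val_one] at h1
  linear_combination -h1

theorem ShB_BH (hK : Ok K) {F : Subgroup (EE K)} (hF : Ov F) (hS : SF F = {6}) :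
    BH F ((TT K).subgroupOf F) ((NN K).subgroupOf F) ((BF (ok_two hK) F).subgroupOf F)
      ((Xg K 6).subgroupOf F) ((BF (ok_two hK) F).subgroupOf F) (Nat.card K) (rr K) 1
      ⟨tor (1, -1), hF.1 (tor_mem_TT _)⟩ := by
  have hE : Finite (EE K) := ok_EE_finite hK
  have hSh := ShB_Sh hF hS
  have hNB : ∀ {x : EE K}, x ∈ F → x ∈ NN K → x ∈ BF (ok_two hK) F := fun hx hn =>
    NN_le_BF (ok_two hK) hF ⟨hn, hx⟩
  constructor
  case fin => infer_instance
  case hpr => exact rr_eq hK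
  case TM => exact fun x hx => TT_le_NN hx
  case MB => exact fun x hx => hNB x.2 hx
  case comm =>
    intro s hs t ht
    exact Subtype.ext (TT_comm _ _ hs ht)
  case cardT => rw [ShB_card hF.1, ShB_cardT hK]
  case exp =>
    intro t ht
    apply Subtype.ext
    rw [Subgroup.coe_pow, Subgroup.coe_one]
    exact ShB_exp hK ht
  case nrm =>
    intro x hx t ht
    obtain ⟨w, σ, τ, hM⟩ := NN_mon (ok_two hK) hx
    exact CjA_tor hM ht
  case cj =>
    intro x hx
    exact lemC hK (hF.2 x.2) (fun t ht => hx ⟨t, hF.1 ht⟩ ht)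
  case cent =>
    intro t ht h1 x hx
    refine cent_BF hK hF ?_ ht (fun h => h1 (Subtype.ext h)) x.2 (congrArg Subtype.val hx)
    intro r hr
    rw [hS, Set.mem_singleton_iff] at hr
    subst hr
    decide
  case centr =>
    intro x hx
    apply TT_le_NN
    refine ok_centr hK (hF.2 x.2) ?_
    intro t ht h1
    exact congrArg Subtype.val (hx ⟨t, hF.1 ht⟩ ht (Subtype.ext h1))
  case sq =>
    intro n hn
    exact sh_sq hK hSh hn n.2
  case XB =>
    intro x hx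
    exact ShB_XB hK hF hS hx
  case cardX =>
    rw [ShB_card ((ShB_XB hK hF hS).trans (BF_le _)), Xg_card hK]
  case memNX =>
    intro x
    constructor
    · intro hx u hu
      exact (ShB_mem hK hF hS x.2).1 hx _ hu
    · intro hx
      refine (ShB_mem hK hF hS x.2).2 ?_
      intro u hu
      exact hx ⟨u, BF_le _ (ShB_XB hK hF hS hu)⟩ hu
  case NXB => exact le_rfl
  case nX =>
    intro x hx
    obtain ⟨c, hc⟩ := ShB_fix hK hF hS hx
    obtain ⟨u, hu, n, hn, hnF, h, -⟩ := sh_dec hK hSh x.2 hc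
    exact ⟨⟨u, BF_le _ (ShB_XB hK hF hS hu)⟩, hu, ⟨n, hnF⟩, hn, Subtype.ext h⟩
  case TNX => exact fun x hx => hNB x.2 (TT_le_NN hx)
  case M0 =>
    rw [ShB_card hF.1]
    have h1 := sh_M0 hK hSh
      ((((BF (ok_two hK) F).subgroupOf F ⊓ (NN K).subgroupOf F : Subgroup F)).map F.subtype) ?_
    · refine le_trans (le_of_eq ?_) h1
      exact Nat.card_congr (Subgroup.equivMapOfInjective _ _ F.subtype_injective).toEquiv
    · rintro _ ⟨x, ⟨hx1, hx2⟩, rfl⟩
      exact ⟨hx2, ShB_fix hK hF hS hx1⟩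
  case idx => rw [one_mul]
  case hk => exact Or.inl rfl
  case e0T => exact tor_mem_TT _
  case e0n =>
    intro h
    have h1 : tor (K := K) (1, -1) = tor 1 := by
      rw [map_one]
      exact congrArg Subtype.val h
    have h2 := congrArg Prod.snd (tor_inj h1)
    exact ShB_neg hK h2
  case e02 =>
    apply Subtype.ext
    show (tor (K := K) (1, -1)) ^ 2 = 1
    rw [← map_pow, Prod.pow_mk, one_pow, neg_one_sq]
    exact map_one _
  case ce =>
    intro e he h1 h0 h2 x hx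
    refine sh_ce hK hSh he (fun h => h1 (Subtype.ext h)) (fun h => h0 (Subtype.ext h)) ?_ x.2
      (congrArg Subtype.val hx)
    have h3 := congrArg Subtype.val h2
    rw [Subgroup.coe_pow, Subgroup.coe_one] at h3
    exact h3
  case small =>
    intro e he h1 h0 h2
    refine Nat.le_of_dvd Nat.card_pos (Subgroup.card_dvd_of_le ?_)
    intro x hx
    exact ⟨hNB x.2 hx.1, hx.1⟩
  case H =>
    intro i hi h2 h1
    left
    obtain ⟨c, hc⟩ := ShB_fix hK hF hS hi
    have h3 := congrArg Subtype.val h2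
    rw [Subgroup.coe_pow, Subgroup.coe_one] at h3
    obtain ⟨b, hb, v, hv, hv1, hvr, h⟩ := sh_H0 hK hSh i.2 h3 hc
    refine ⟨⟨b, BF_le _ (ShB_XB hK hF hS hb)⟩, ShB_XB hK hF hS hb, ⟨v, hF.1 hv⟩, hv,
      fun h' => hv1 (congrArg Subtype.val h'), ?_, Subtype.ext h⟩
    apply Subtype.ext
    rw [Subgroup.coe_pow, Subgroup.coe_one]
    exact hvr

theorem short_one (hK : Ok K) {F : Subgroup (EE K)} (hF : Ov F) (hS : SF F = {6}) : Std F := by
  rw [Std_iff_BF (ok_two hK) hF]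
  intro f hf
  exact thmB (ShB_BH hK hF hS) ⟨f, hf⟩

end Pool.Agent.H40.GT
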