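import Pool.Agent.H40.GT.ShA

/-!
# Part ShC1 (of ShC1, ShC2); GT-54 two opposite short root groups: facts

`SF F = {6, 7}`, `B = BF F`, `e0 = tor (1,-1)`.
* `sc_cen`: `B` commutes with `e0`: `X 6 s`, `X 7 s`, `TT` do; `n ∈ F ⊓ NN` fixes or exchanges the lines of
  `e_1`, `e_-1` (`sh_pm`), so its linear part preserves `± (1,0)` and it commutes with `e0`
  (`e0` is the only involution of `TT` with eigenvalue `1` on `e_1`).
* `sc_tr`: `B` acts transitively on `LB K` (`LB_U0t`, `LB_U1t`), even: for `W ≠ W'` in `LB K` there is `b ∈ B` with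
  `b ⟨e_1⟩ = W`, `b ⟨e_-1⟩ = W'`.  The stabiliser of `⟨e_1⟩` in `B` is the normaliser `NX` of `Xg K 6` in `F`
  (`sh_NX`; `sh_dec` shows that it is contained in `B`).  So `|B| = (|K| + 1) |NX|` (`LB_card`).
* `sc_wy`: `n0 = X 6 1 * X 7 1 * X 6 1 ∈ B`, `n0 e_1 = - e_-1`, `n0 e_-1 = - e_1`, `n0 e_0 = - e_0`,
  `n0 e_2 = - e_-3`, ..., `n0 ^ 2 = e0`, `n0 ∈ NN`, and `n0` does not commute with `tor (-1,1)`,
  `tor (-1,-1)` (it exchanges them).
-/

namespace Pool.Agent.H40.GT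

variable {K : Type} [Field K]

theorem ShC1_Sh {F : Subgroup (EE K)} (hF : Ov F) (hS : SF F = {6, 7}) : Sh F := by
  refine ⟨hF, ?_, ?_⟩
  · rw [hS]
    exact Or.inl rfl
  · intro r hr
    rw [hS] at hr
    exact hr

theorem ShC1_genX (r : Rt) (hr : ch (rt r) ((1, -1) : Kˣ × Kˣ) = 1) (s : K) :
    X r s * tor (1, -1) = tor (1, -1) * X r s := by
  have h := tor_X ((1, -1) : Kˣ × Kˣ) r s
  rw [hr, Units.val_one, one_mul] at h
  have h2 : tor (1, -1) * X r s = X r s * tor (1, -1) := by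
    calc tor (1, -1) * X r s = tor (1, -1) * X r s * (tor (1, -1))⁻¹ * tor (1, -1) := by group
      _ = X r s * tor (1, -1) := by rw [h]
  exact h2.symm

theorem ShC1_GS {S : Set Rt} (hS : S = {6, 7}) {c : EE K} (hc : c ∈ GS K S) :
    c * tor (1, -1) = tor (1, -1) * c := by
  have h : GS K S ≤ Subgroup.centralizer {tor ((1, -1) : Kˣ × Kˣ)} := by
    unfold GS
    rw [Subgroup.closure_le]
    rintro g (hg | ⟨r, hr, s, rfl⟩)
    · rw [SetLike.mem_coe, Subgroup.mem_centralizer_singleton_iff]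
      exact (TT_comm _ _ (tor_mem_TT _) hg).symm
    · rw [SetLike.mem_coe, Subgroup.mem_centralizer_singleton_iff]
      rw [hS] at hr
      rcases hr with rfl | rfl
      · exact ShC1_genX 6 (by simp [ch, rt]) s
      · exact ShC1_genX 7 (by simp [ch, rt]) s
  exact Subgroup.mem_centralizer_singleton_iff.1 (h hc)

theorem ShC1_NN (h2 : (2 : K) ≠ 0) {m : EE K} (hm : m ∈ NN K)
    (h : (∃ c : K, m (ev 1) = c • ev 1) ∨ ∃ c : K, m (ev 1) = c • ev 4) :
    m * tor (1, -1) = tor (1, -1) * m := by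
  obtain ⟨w, σ, τ, hM⟩ := NN_mon h2 hm
  obtain ⟨t', h1, -⟩ := hM.mtor (1, -1)
  have h3 : m * tor (1, -1) = tor t' * m := by
    rw [← h1]
    group
  have h4 : tor t' (m (ev 1)) = m (ev 1) := by
    have h5 := LinearEquiv.congr_fun h3 (ev 1)
    rw [LinearEquiv.mul_apply, LinearEquiv.mul_apply, tor_ev] at h5
    rw [← h5]
    simp [ch, wt]
  have key : ∀ j : Fin 7, (∃ c : K, m (ev 1) = c • ev j) → ch (wt j) t' = 1 := by
    rintro j ⟨c, hc⟩
    have hc0 : c ≠ 0 := by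
      rintro rfl
      rw [zero_smul] at hc
      have h6 := m.map_eq_zero_iff.1 hc
      have h7 : (ev 1 : V K) 1 = 0 := by rw [h6]; rfl
      rw [ev_same] at h7
      exact one_ne_zero h7
    rw [hc, map_smul, tor_ev] at h4
    have h5 := congrFun h4 j
    rw [Pi.smul_apply, Pi.smul_apply, Pi.smul_apply, ev_same, smul_eq_mul, smul_eq_mul,
      smul_eq_mul, mul_one] at h5
    have h6 := mul_left_cancel₀ hc0 h5
    exact Units.ext h6
  have h5 : t'.1 = 1 := by
    rcases h with h | h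
    · have := key 1 h
      simpa [ch, wt] using this
    · have := key 4 h
      simpa [ch, wt] using this
  have h6 : t' * t' = 1 := by
    apply tor_inj
    rw [map_mul, map_one, ← h1]
    have h7 : tor ((1, -1) : Kˣ × Kˣ) * tor (1, -1) = 1 := by
      rw [← map_mul]
      have : ((1, -1) : Kˣ × Kˣ) * (1, -1) = 1 := by
        ext <;> simp
      rw [this, map_one]
    calc m * tor (1, -1) * m⁻¹ * (m * tor (1, -1) * m⁻¹) =
        m * (tor (1, -1) * tor (1, -1)) * m⁻¹ := by group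
      _ = 1 := by rw [h7]; group
  have h7 : (t'.2 : K) * (t'.2 : K) = 1 := by
    have h8 := congrArg (fun t : Kˣ × Kˣ => ((t.2 : Kˣ) : K)) h6
    simpa using h8
  have h8 : t'.2 = -1 := by
    rcases mul_self_eq_one_iff.1 h7 with h9 | h9
    · exfalso
      have h10 : t' = 1 := by
        apply Prod.ext
        · exact h5
        · exact Units.ext h9
      rw [h10, map_one] at h1
      have h11 : tor ((1, -1) : Kˣ × Kˣ) = 1 := by
        calc tor ((1, -1) : Kˣ × Kˣ) = m⁻¹ * (m * tor (1, -1) * m⁻¹) * m := by group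
          _ = 1 := by rw [h1]; group
      rw [← map_one (tor (K := K))] at h11
      have h12 := tor_inj h11
      have h13 := congrArg (fun t : Kˣ × Kˣ => ((t.2 : Kˣ) : K)) h12
      simp only [Units.val_neg, Units.val_one, Prod.snd_one] at h13
      apply h2
      linear_combination -h13
    · exact Units.ext (by rw [h9]; simp)
  have h9 : t' = (1, -1) := Prod.ext h5 h8
  rw [h3, h9]

theorem sc_cen (hK : Ok K) {F : Subgroup (EE K)} (hF : Ov F) (hS : SF F = {6, 7}) {b : EE K}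
    (hb : b ∈ BF (ok_two hK) F) : b * tor (1, -1) = tor (1, -1) * b := by
  obtain ⟨hbF, c, hc, hm, hcF⟩ := (mem_BF (ok_two hK)).1 hb
  have h1 := ShC1_GS hS hc
  have hmF : c⁻¹ * b ∈ F := mul_mem (inv_mem hcF) hbF
  have h2 := ShC1_NN (ok_two hK) hm (sh_pm hK (ShC1_Sh hF hS) hm hmF)
  calc b * tor (1, -1) = c * ((c⁻¹ * b) * tor (1, -1)) := by group
    _ = (c * tor (1, -1)) * (c⁻¹ * b) := by rw [h2]; group
    _ = tor (1, -1) * b := by rw [h1]; group

theorem ShC1_X (hK : Ok K) {F : Subgroup (EE K)} (hF : Ov F) (hS : SF F = {6, 7}) (s : K) :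
    X 6 s ∈ BF (ok_two hK) F ∧ X 7 s ∈ BF (ok_two hK) F := by
  constructor
  · apply GS_le_BF (ok_two hK) hF
    apply X_mem_GS
    rw [hS]
    exact Or.inl rfl
  · apply GS_le_BF (ok_two hK) hF
    apply X_mem_GS
    rw [hS]
    exact Or.inr rfl

theorem ShC1_LB (hK : Ok K) {F : Subgroup (EE K)} (hF : Ov F) (hS : SF F = {6, 7}) {b : EE K}
    (hb : b ∈ BF (ok_two hK) F) {W : Submodule K (V K)} (hW : W ∈ LB K) : lact b W ∈ LB K :=
  LB_F hK (hF.2 (BF_le (ok_two hK) hb)) (sc_cen hK hF hS hb) hW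

theorem ShC1_one (hK : Ok K) {F : Subgroup (EE K)} (hF : Ov F) (hS : SF F = {6, 7})
    {W : Submodule K (V K)} (hW : W ∈ LB K) :
    ∃ b ∈ BF (ok_two hK) F, lact b (sp (ev 1)) = W := by
  by_cases h4 : W = sp (ev 4)
  · have h7 := (ShC1_X hK hF hS (1 : K)).2
    have hW1 := ShC1_LB hK hF hS h7 (LB_ev1 (K := K))
    have hne1 : lact (X 7 (1 : K)) (sp (ev 1)) ≠ sp (ev 1 : V K) := by
      intro h
      rw [LmB_lact] at h
      have h5 : X 7 (1 : K) (ev 1) ∈ sp (ev 1 : V K) := by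
        rw [← h]
        exact Submodule.mem_span_singleton_self _
      obtain ⟨c, hc⟩ := Submodule.mem_span_singleton.1 h5
      have h6 := congrFun hc 4
      simp [X_apply, ev, cc, sc, qc, qs] at h6
    obtain ⟨s, hs⟩ := LB_U0t hK hW1 hW hne1 (by rw [h4]; exact LB_ne.symm)
    refine ⟨X 6 s * X 7 1, mul_mem (ShC1_X hK hF hS s).1 h7, ?_⟩
    rw [map_mul, Equiv.Perm.mul_apply, hs]
  · obtain ⟨s, hs⟩ := LB_U1t hK (LB_ev1 (K := K)) hW LB_ne h4
    exact ⟨X 7 s, (ShC1_X hK hF hS s).2, hs⟩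

theorem sc_tr (hK : Ok K) {F : Subgroup (EE K)} (hF : Ov F) (hS : SF F = {6, 7})
    {W W' : Submodule K (V K)} (hW : W ∈ LB K) (hW' : W' ∈ LB K) (h : W ≠ W') :
    ∃ b ∈ BF (ok_two hK) F, lact b (sp (ev 1)) = W ∧ lact b (sp (ev 4)) = W' := by
  obtain ⟨b, hb, hb1⟩ := ShC1_one hK hF hS hW
  have hW2 : lact b⁻¹ W' ∈ LB K := ShC1_LB hK hF hS (inv_mem hb) hW'
  have hne : lact b⁻¹ W' ≠ sp (ev 1) := by
    intro h1
    apply h
    rw [← hb1, ← h1, ← Equiv.Perm.mul_apply, ← map_mul, mul_inv_cancel, map_one,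
      Equiv.Perm.one_apply]
  obtain ⟨s, hs⟩ := LB_U0t hK (LB_ev4 (K := K)) hW2 LB_ne.symm hne
  refine ⟨b * X 6 s, mul_mem hb (ShC1_X hK hF hS s).1, ?_, ?_⟩
  · rw [map_mul, Equiv.Perm.mul_apply, LB_U0 hK, hb1]
  · rw [map_mul, Equiv.Perm.mul_apply, hs, ← Equiv.Perm.mul_apply, ← map_mul, mul_inv_cancel,
      map_one, Equiv.Perm.one_apply]

theorem ShC1_fix {x : EE K} : lact x (sp (ev 1)) = sp (ev 1) ↔ ∃ c : K, x (ev 1) = c • ev 1 := by
  constructor
  · intro h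
    rw [LmB_lact] at h
    have h5 : x (ev 1) ∈ sp (ev 1 : V K) := by
      rw [← h]
      exact Submodule.mem_span_singleton_self _
    obtain ⟨c, hc⟩ := Submodule.mem_span_singleton.1 h5
    exact ⟨c, hc.symm⟩
  · rintro ⟨c, hc⟩
    have hc0 : c ≠ 0 := by
      rintro rfl
      rw [zero_smul] at hc
      have h6 := x.map_eq_zero_iff.1 hc
      have h7 : (ev 1 : V K) 1 = 0 := by rw [h6]; rfl
      rw [ev_same] at h7
      exact one_ne_zero h7
    rw [LmB_lact, hc, LmB_smul hc0]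

theorem sc_card (hK : Ok K) {F : Subgroup (EE K)} (hF : Ov F) (hS : SF F = {6, 7})
    (NX : Subgroup (EE K)) (h : ∀ x, x ∈ NX ↔ x ∈ F ∧ ∃ c : K, x (ev 1) = c • ev 1) :
    NX ≤ BF (ok_two hK) F ∧
      Nat.card (BF (ok_two hK) F) = (Nat.card K + 1) * Nat.card NX := by
  have hle : NX ≤ BF (ok_two hK) F := by
    intro x hx
    obtain ⟨hxF, c, hc⟩ := (h x).1 hx
    obtain ⟨u, ⟨s, hs⟩, n, hn, hnF, hxn, -⟩ := sh_dec hK (ShC1_Sh hF hS) hxF hc
    rw [hxn, hs]
    exact mul_mem (ShC1_X hK hF hS s).1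
      (NN_le_BF (ok_two hK) hF (Subgroup.mem_inf.2 ⟨hn, hnF⟩))
  refine ⟨hle, ?_⟩
  have hg : ∀ W : LB K, ∃ b, b ∈ BF (ok_two hK) F ∧ lact b (sp (ev 1)) = (W : Submodule K (V K)) := by
    intro W
    obtain ⟨b, hb, h1⟩ := ShC1_one hK hF hS W.2
    exact ⟨b, hb, h1⟩
  choose g hg1 hg2 using hg
  let e : BF (ok_two hK) F ≃ (LB K) × NX :=
    { toFun := fun b => (⟨lact (b : EE K) (sp (ev 1)), ShC1_LB hK hF hS b.2 LB_ev1⟩,
        ⟨(g ⟨lact (b : EE K) (sp (ev 1)), ShC1_LB hK hF hS b.2 LB_ev1⟩)⁻¹ * b, by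
          rw [h, ← ShC1_fix]
          refine ⟨mul_mem (inv_mem (BF_le (ok_two hK) (hg1 _))) (BF_le (ok_two hK) b.2), ?_⟩
          rw [map_mul, Equiv.Perm.mul_apply, map_inv, Equiv.Perm.inv_eq_iff_eq, hg2]⟩)
      invFun := fun z => ⟨g z.1 * z.2, mul_mem (hg1 _) (hle z.2.2)⟩
      left_inv := by
        intro b
        apply Subtype.ext
        simp
      right_inv := by
        rintro ⟨W, x⟩
        have h1 : lact (g W * (x : EE K)) (sp (ev 1)) = W := by
          rw [map_mul, Equiv.Perm.mul_apply, ShC1_fix.2 ((h _).1 x.2).2, hg2]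
        have h2 : (⟨lact (g W * (x : EE K)) (sp (ev 1)),
            ShC1_LB hK hF hS (mul_mem (hg1 _) (hle x.2)) LB_ev1⟩ : LB K) = W := Subtype.ext h1
        apply Prod.ext
        · exact h2
        · apply Subtype.ext
          show (g ⟨lact (g W * (x : EE K)) (sp (ev 1)), _⟩)⁻¹ * (g W * (x : EE K)) = x
          rw [h2]
          group }
  rw [Nat.card_congr e, Nat.card_prod, Nat.card_coe_set_eq, LB_card hK]

end Pool.Agent.H40.GT
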