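import Pool.Agent.H40.GT.ShC1

/-!
# Part ShC2 (of ShC1, ShC2); GT-54 two opposite short root groups: facts

`SF F = {6, 7}`, `B = BF F`, `e0 = tor (1,-1)`.
* `sc_cen`: `B` commutes with `e0`: `X 6 s`, `X 7 s`, `TT` do; `n ∈ F ⊓ NN` fixes or exchanges the lines of
  `e_1`, `e_-1` (`sh_pm`), so its linear part preserves `± (1,0)` and it commutes with `e0`
  (`e0` is the only involution of `TT` with eigenvalue `1` on `e_1`).
* `sc_tr`: `B` acts transitively on `LB K` (`LB_U0t`, `LB_U1t`), even: for `W ≠ W'` in `LB K` there is `b ∈ B` with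
  `b ⟨e_1⟩ = W`, `b ⟨e_-1⟩ = W'`.  The stabiliser of `⟨e_1⟩` in `B` is the normaliser `NX` of `Xg K 6` in `F`
  (`sh_NX`; `sh_dec` shows that it is contained in `B`).  So `|B| = (|K| + 1) |NX|` (`LB_card`).
* `sc_wy`: `n0 = X 6 1 * X 7 1 * X 6 1 ∈ B`, `n0 e_1 = - e_-1`, `n0 e_-1 = - e_1`, `n0 e_0 = - e_0`,
  `n0 e_2 = - e_-3`, ..., `n0 ^ 2 = e0`, `n0 ∈ NN`, and `n0` does not commute with `tor (-1,1)`,
  `tor (-1,-1)` (it exchanges them).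
-/

namespace Pool.Agent.H40.GT

variable {K : Type} [Field K]

/-- the Weyl element -/
def n0 (K : Type) [Field K] : EE K := X 6 1 * X 7 1 * X 6 1

theorem ShC2_six (s : K) (x : V K) : X 6 s x = ![x 0 + s * x 4, x 1 - 2 * s * x 0 - s ^ 2 * x 4,
    x 2, x 3, x 4, x 5 + s * x 3, x 6 - s * x 2] := by
  ext i
  fin_cases i
  · show x 0 + s * (((1 : ℤ) : K) * x 4) + s ^ 2 * (((0 : ℤ) : K) * x 0) = x 0 + s * x 4
    push_cast
    ring
  · show x 1 + s * (((-2 : ℤ) : K) * x 0) + s ^ 2 * (((-1 : ℤ) : K) * x 4) =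
      x 1 - 2 * s * x 0 - s ^ 2 * x 4
    push_cast
    ring
  · show x 2 + s * (((0 : ℤ) : K) * x 2) + s ^ 2 * (((0 : ℤ) : K) * x 2) = x 2
    push_cast
    ring
  · show x 3 + s * (((0 : ℤ) : K) * x 3) + s ^ 2 * (((0 : ℤ) : K) * x 3) = x 3
    push_cast
    ring
  · show x 4 + s * (((0 : ℤ) : K) * x 4) + s ^ 2 * (((0 : ℤ) : K) * x 4) = x 4
    push_cast
    ring
  · show x 5 + s * (((1 : ℤ) : K) * x 3) + s ^ 2 * (((0 : ℤ) : K) * x 5) = x 5 + s * x 3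
    push_cast
    ring
  · show x 6 + s * (((-1 : ℤ) : K) * x 2) + s ^ 2 * (((0 : ℤ) : K) * x 6) = x 6 - s * x 2
    push_cast
    ring

theorem ShC2_seven (s : K) (x : V K) : X 7 s x = ![x 0 + s * x 1, x 1, x 2 + s * x 6,
    x 3 - s * x 5, x 4 - 2 * s * x 0 - s ^ 2 * x 1, x 5, x 6] := by
  ext i
  fin_cases i
  · show x 0 + s * (((1 : ℤ) : K) * x 1) + s ^ 2 * (((0 : ℤ) : K) * x 0) = x 0 + s * x 1
    push_cast
    ring
  · show x 1 + s * (((0 : ℤ) : K) * x 1) + s ^ 2 * (((0 : ℤ) : K) * x 1) = x 1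
    push_cast
    ring
  · show x 2 + s * (((1 : ℤ) : K) * x 6) + s ^ 2 * (((0 : ℤ) : K) * x 2) = x 2 + s * x 6
    push_cast
    ring
  · show x 3 + s * (((-1 : ℤ) : K) * x 5) + s ^ 2 * (((0 : ℤ) : K) * x 3) = x 3 - s * x 5
    push_cast
    ring
  · show x 4 + s * (((-2 : ℤ) : K) * x 0) + s ^ 2 * (((-1 : ℤ) : K) * x 1) =
      x 4 - 2 * s * x 0 - s ^ 2 * x 1
    push_cast
    ring
  · show x 5 + s * (((0 : ℤ) : K) * x 5) + s ^ 2 * (((0 : ℤ) : K) * x 5) = x 5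
    push_cast
    ring
  · show x 6 + s * (((0 : ℤ) : K) * x 6) + s ^ 2 * (((0 : ℤ) : K) * x 6) = x 6
    push_cast
    ring

theorem ShC2_n0 (x : V K) : n0 K x = ![-x 0, -x 4, x 6, -x 5, -x 1, x 3, -x 2] := by
  show X 6 1 (X 7 1 (X 6 1 x)) = _
  rw [ShC2_six, ShC2_seven, ShC2_six]
  ext i
  fin_cases i
  · show x 0 + 1 * x 4 + 1 * (x 1 - 2 * 1 * x 0 - 1 ^ 2 * x 4) +
      1 * (x 4 - 2 * 1 * (x 0 + 1 * x 4) - 1 ^ 2 * (x 1 - 2 * 1 * x 0 - 1 ^ 2 * x 4)) = -x 0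
    ring
  · show (x 1 - 2 * 1 * x 0 - 1 ^ 2 * x 4) -
      2 * 1 * (x 0 + 1 * x 4 + 1 * (x 1 - 2 * 1 * x 0 - 1 ^ 2 * x 4)) -
      1 ^ 2 * (x 4 - 2 * 1 * (x 0 + 1 * x 4) - 1 ^ 2 * (x 1 - 2 * 1 * x 0 - 1 ^ 2 * x 4)) = -x 4
    ring
  · show x 2 + 1 * (x 6 - 1 * x 2) = x 6
    ring
  · show x 3 - 1 * (x 5 + 1 * x 3) = -x 5
    ring
  · show x 4 - 2 * 1 * (x 0 + 1 * x 4) - 1 ^ 2 * (x 1 - 2 * 1 * x 0 - 1 ^ 2 * x 4) = -x 1
    ring
  · show x 5 + 1 * x 3 + 1 * (x 3 - 1 * (x 5 + 1 * x 3)) = x 3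
    ring
  · show x 6 - 1 * x 2 - 1 * (x 2 + 1 * (x 6 - 1 * x 2)) = -x 2
    ring

theorem ShC2_ev (j : Fin 7) : n0 K (ev j) =
    ((![-1, -1, -1, 1, -1, -1, 1] : Fin 7 → ℤ) j : K) • ev ((![0, 4, 6, 5, 1, 3, 2] : Fin 7 → Fin 7) j) := by
  rw [ShC2_n0]
  ext i
  fin_cases j <;> fin_cases i <;> simp [ev, Pi.single_apply]

theorem n0_one : n0 K (ev 1) = - ev 4 := by
  rw [ShC2_ev]
  show ((-1 : ℤ) : K) • ev 4 = - ev 4
  rw [Int.cast_neg, Int.cast_one, neg_one_smul]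

theorem n0_four : n0 K (ev 4) = - ev 1 := by
  rw [ShC2_ev]
  show ((-1 : ℤ) : K) • ev 1 = - ev 1
  rw [Int.cast_neg, Int.cast_one, neg_one_smul]

theorem n0_zero : n0 K (ev 0) = - ev 0 := by
  rw [ShC2_ev]
  show ((-1 : ℤ) : K) • ev 0 = - ev 0
  rw [Int.cast_neg, Int.cast_one, neg_one_smul]

theorem n0_sq : n0 K ^ 2 = tor (1, -1) := by
  apply LinearEquiv.ext
  intro x
  rw [pow_two, LinearEquiv.mul_apply, ShC2_n0, ShC2_n0]
  ext i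
  rw [tor_apply]
  fin_cases i <;> simp [ch, wt]

theorem n0_NN : n0 K ∈ NN K := by
  refine ⟨mul_mem (mul_mem (X_mem_GG _ _) (X_mem_GG _ _)) (X_mem_GG _ _),
    fun j => ⟨_, _, ShC2_ev j⟩, fun j => ?_⟩
  have h1 : (n0 K)⁻¹ = n0 K * (tor (1, -1))⁻¹ := by
    rw [← n0_sq, pow_two, mul_inv_rev, mul_inv_cancel_left]
  rw [h1, ← map_inv, LinearEquiv.mul_apply, tor_ev, map_smul, ShC2_ev, smul_smul]
  exact ⟨_, _, rfl⟩

theorem n0_comm (hK : Ok K) {e : EE K} (he : e ∈ TT K) (h1 : e ≠ 1) (h0 : e ≠ tor (1, -1))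
    (h2 : e ^ 2 = 1) : n0 K * e ≠ e * n0 K := by
  obtain ⟨⟨a, b⟩, rfl⟩ := he
  intro h
  have h3 := congrFun (congrArg (fun g : EE K => g (ev 6)) h) 2
  have e1 : (n0 K * tor (a, b)) (ev 6) 2 = ((a : K) * b) := by
    rw [LinearEquiv.mul_apply, ShC2_n0]
    show (tor (a, b) (ev 6)) 6 = _
    rw [tor_apply, ev_same, mul_one]
    simp [ch, wt]
  have e2 : (tor (a, b) * n0 K) (ev 6) 2 = (b : K) := by
    rw [LinearEquiv.mul_apply, tor_apply, ShC2_n0]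
    show (ch (wt 2) (a, b) : K) * (ev 6 : V K) 6 = _
    rw [ev_same, mul_one]
    simp [ch, wt]
  have h4 : (a : K) * b = b := by
    rw [← e1, ← e2]
    exact h3
  have h5 : (a : K) = 1 := by
    have hb : (b : K) ≠ 0 := b.ne_zero
    exact mul_right_cancel₀ hb (by rw [h4, one_mul])
  have h6 : a = 1 := Units.ext h5
  subst h6
  have h7 : ((b : K)) * b = 1 := by
    have h8 := congrFun (congrArg (fun g : EE K => g (ev 2)) h2) 2
    have e3 : ((tor ((1 : Kˣ), b)) ^ 2) (ev 2) 2 = (b : K) * b := by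
      rw [pow_two, LinearEquiv.mul_apply, tor_apply, tor_apply, ev_same, mul_one]
      simp [ch, wt]
    have e4 : (1 : EE K) (ev 2) 2 = 1 := ev_same 2
    rw [← e3, ← e4]
    exact h8
  rcases mul_self_eq_one_iff.mp h7 with h9 | h9
  · apply h1
    have h10 : b = 1 := Units.ext h9
    rw [h10]
    exact map_one tor
  · apply h0
    have h10 : b = -1 := Units.ext (by rw [h9]; simp)
    rw [h10]

end Pool.Agent.H40.GT
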