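import Pool.Agent.H40.GT.ShC

/-!
# Part ShD1 (of ShD1, ShD2); GT-55 two opposite short root groups: involutions of `B`

`SF F = {6, 7}`, `B = BF F`, `i ∈ B`, `i ^ 2 = 1`, `i ≠ 1`.  Claim: (1) there are `b ∈ B`, `v ∈ TT`, `v ≠ 1`,
`v ^ r = 1` with `b v b⁻¹` commuting with `i`, or (2) there is `v ∈ B` with `v ^ 2 = e0`, commuting with `i`.

`i` commutes with `e0` (`sc_cen`), so it preserves `V_0 = ⟨e_0, e_1, e_-1⟩`, on which `br` is a simple
three dimensional Lie algebra: `i` has determinant `1` on `V_0` (from `br`: `i e_0 = a e_0 + ...`; or: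
an isometry of `V_0` preserving `br` has determinant 1 since `bf (br x y) z` is a nonzero
alternating form).
(a) `i` is the identity on `V_0`: it fixes `⟨e_1⟩`: `sh_H0`.
(b) otherwise `i` has eigenvalues `1, -1, -1` on `V_0`; let `v0 ∈ V_0` be the fixed vector, `bf v0 v0 ≠ 0`,
`i = -1` on `v0^⊥`.
(b1) `v0^⊥` contains an isotropic line `W` (then it contains exactly two): `i W = W`; take `b ∈ B` with
`b ⟨e_1⟩ = W` (`sc_tr`): `b⁻¹ i b` fixes `⟨e_1⟩`, `sh_H0`.
(b2) `v0^⊥` anisotropic.  `v0 = x0 e_0 + x1 e_1 + x4 e_-1` with `x1 ≠ 0` (otherwise `e_-1 ∈ v0^⊥`).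
Applying `X 7 (-x0/x1)` (`e_1 ↦ e_1 + s e_0 - s^2 e_-1`, `e_0 ↦ e_0 - 2 s e_-1`) we may assume `x0 = 0`,
and `v0 = e_1 + c e_-1`.  `v0^⊥ = ⟨e_0, e_1 - c e_-1⟩` is anisotropic iff `c` is not a square
(`bf (a e_0 + b (e_1 - c e_-1)) = 2 a^2 - 2 c b^2`); `|K| = 7, 11`, so `-1` is not a square and `-c = t^2`.
Applying `tor (t, 1)`: `e_1 + c e_-1 ↦ t e_1 + t⁻¹ c e_-1`, proportional to
`e_1 + t^-2 c e_-1 = e_1 - e_-1`.  So after conjugation by an element of `B` (all these are in `B`)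
`v0 = e_1 - e_-1`.  `n0 = X 6 1 * X 7 1 * X 6 1` agrees with `i` on `V_0` (`n0_one`, `n0_four`, `n0_zero`).
`y = i n0⁻¹ ∈ B` is the identity on `V_0`; it fixes `⟨e_1⟩`, `⟨e_-1⟩`, so by `sh_dec` `y = X 6 s * n`,
`n` fixes `⟨e_1⟩` and hence `⟨e_-1⟩`, so `X 6 s` fixes `⟨e_-1⟩`, `s = 0`, `y ∈ NN`.  `y` normalises `Xg K 6` and
`Xg K 7`, `y X 6 s y⁻¹ = X 6 (d s)`, and `d = 1` as `y = 1` on `V_0`, where `X 6` acts faithfully; same for
`X 7`.  So `y` commutes with `n0`, and `i = y n0` commutes with `n0`, `n0^2 = e0` (`n0_sq`).  Conjugate back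
(`e0` commutes with `B`).
-/

namespace Pool.Agent.H40.GT

variable {K : Type} [Field K]

/-- vectors of `V_0` -/
def ShD1_V0 (x : V K) : Prop := ∀ j : Fin 7, j ≠ 0 → j ≠ 1 → j ≠ 4 → x j = 0

theorem ShD1_c {x : V K} (h : ShD1_V0 x) : x 2 = 0 ∧ x 3 = 0 ∧ x 5 = 0 ∧ x 6 = 0 :=
  ⟨h 2 (by decide) (by decide) (by decide), h 3 (by decide) (by decide) (by decide),
    h 5 (by decide) (by decide) (by decide), h 6 (by decide) (by decide) (by decide)⟩

theorem ShD1_br0 (x y : V K) : br x y 0 =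
    x 1 * y 4 + x 2 * y 5 + x 3 * y 6 - x 4 * y 1 - x 5 * y 2 - x 6 * y 3 := rfl

theorem ShD1_br1 (x y : V K) : br x y 1 =
    2 * (x 0 * y 1 - y 0 * x 1 - (x 5 * y 6 - x 6 * y 5)) := rfl

theorem ShD1_br2 (x y : V K) : br x y 2 =
    2 * (x 0 * y 2 - y 0 * x 2 - (x 6 * y 4 - x 4 * y 6)) := rfl

theorem ShD1_br3 (x y : V K) : br x y 3 =
    2 * (x 0 * y 3 - y 0 * x 3 - (x 4 * y 5 - x 5 * y 4)) := rfl

theorem ShD1_br4 (x y : V K) : br x y 4 =
    2 * (y 0 * x 4 - x 0 * y 4 + (x 2 * y 3 - x 3 * y 2)) := rfl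

theorem ShD1_br5 (x y : V K) : br x y 5 =
    2 * (y 0 * x 5 - x 0 * y 5 + (x 3 * y 1 - x 1 * y 3)) := rfl

theorem ShD1_br6 (x y : V K) : br x y 6 =
    2 * (y 0 * x 6 - x 0 * y 6 + (x 1 * y 2 - x 2 * y 1)) := rfl

theorem ShD1_br {x y : V K} (hx : ShD1_V0 x) (hy : ShD1_V0 y) : ShD1_V0 (br x y) := by
  obtain ⟨a2, a3, a5, a6⟩ := ShD1_c hx
  obtain ⟨b2, b3, b5, b6⟩ := ShD1_c hy
  intro j h0 h1 h4
  fin_cases j
  · exact absurd rfl h0
  · exact absurd rfl h1
  · show br x y 2 = 0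
    rw [ShD1_br2, a2, a6, b2, b6]
    ring
  · show br x y 3 = 0
    rw [ShD1_br3, a3, a5, b3, b5]
    ring
  · exact absurd rfl h4
  · show br x y 5 = 0
    rw [ShD1_br5, a3, a5, b3, b5]
    ring
  · show br x y 6 = 0
    rw [ShD1_br6, a2, a6, b2, b6]
    ring

theorem ShD1_B {x y z : V K} (hx : ShD1_V0 x) (hy : ShD1_V0 y) (hz : ShD1_V0 z) :
    br x (br y z) = (-2 : K) • (bf x z • y - bf x y • z) := by
  obtain ⟨a2, a3, a5, a6⟩ := ShD1_c hx
  obtain ⟨b2, b3, b5, b6⟩ := ShD1_c hy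
  obtain ⟨c2, c3, c5, c6⟩ := ShD1_c hz
  obtain ⟨d2, d3, d5, d6⟩ := ShD1_c (ShD1_br hy hz)
  have e0 : br y z 0 = y 1 * z 4 - y 4 * z 1 := by
    rw [ShD1_br0, b2, b3, b5, b6]
    ring
  have e1 : br y z 1 = 2 * (y 0 * z 1 - z 0 * y 1) := by
    rw [ShD1_br1, b5, b6]
    ring
  have e4 : br y z 4 = 2 * (z 0 * y 4 - y 0 * z 4) := by
    rw [ShD1_br4, b2, b3]
    ring
  have hb : bf x z = 2 * x 0 * z 0 + x 1 * z 4 + x 4 * z 1 := by
    unfold bf
    rw [a2, a3, a5, a6]
    ring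
  have hc : bf x y = 2 * x 0 * y 0 + x 1 * y 4 + x 4 * y 1 := by
    unfold bf
    rw [a2, a3, a5, a6]
    ring
  ext j
  simp only [Pi.smul_apply, Pi.sub_apply, smul_eq_mul]
  rw [hb, hc]
  fin_cases j
  · show br x (br y z) 0 = -2 * (_ * y 0 - _ * z 0)
    rw [ShD1_br0, e1, e4, a2, a3, a5, a6]
    ring
  · show br x (br y z) 1 = -2 * (_ * y 1 - _ * z 1)
    rw [ShD1_br1, e0, e1, a5, a6]
    ring
  · show br x (br y z) 2 = -2 * (_ * y 2 - _ * z 2)
    rw [(ShD1_c (ShD1_br hx (ShD1_br hy hz))).1, b2, c2]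
    ring
  · show br x (br y z) 3 = -2 * (_ * y 3 - _ * z 3)
    rw [(ShD1_c (ShD1_br hx (ShD1_br hy hz))).2.1, b3, c3]
    ring
  · show br x (br y z) 4 = -2 * (_ * y 4 - _ * z 4)
    rw [ShD1_br4, e0, e4, a2, a3]
    ring
  · show br x (br y z) 5 = -2 * (_ * y 5 - _ * z 5)
    rw [(ShD1_c (ShD1_br hx (ShD1_br hy hz))).2.2.1, b5, c5]
    ring
  · show br x (br y z) 6 = -2 * (_ * y 6 - _ * z 6)
    rw [(ShD1_c (ShD1_br hx (ShD1_br hy hz))).2.2.2, b6, c6]
    ring

theorem ShD1_bf_comm (x y : V K) : bf x y = bf y x := by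
  unfold bf
  ring

theorem ShD1_bf_add (x y z : V K) : bf x (y + z) = bf x y + bf x z := by
  simp only [bf, Pi.add_apply]
  ring

theorem ShD1_bf_sq (x y : V K) : bf (x + y) (x + y) = bf x x + 2 * bf x y + bf y y := by
  simp only [bf, Pi.add_apply]
  ring

theorem ShD1_bf_smul (c : K) (x y : V K) : bf x (c • y) = c * bf x y := by
  simp only [bf, Pi.smul_apply, smul_eq_mul]
  ring

theorem ShD1_bf_neg (x y : V K) : bf (-x) y = - bf x y := by
  simp only [bf, Pi.neg_apply]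
  ring

theorem ShD1_br_neg (x y : V K) : br (-x) y = - br x y := by
  ext j
  simp only [Pi.neg_apply]
  fin_cases j
  · show br (-x) y 0 = - br x y 0
    rw [ShD1_br0, ShD1_br0]
    simp only [Pi.neg_apply]
    ring
  · show br (-x) y 1 = - br x y 1
    rw [ShD1_br1, ShD1_br1]
    simp only [Pi.neg_apply]
    ring
  · show br (-x) y 2 = - br x y 2
    rw [ShD1_br2, ShD1_br2]
    simp only [Pi.neg_apply]
    ring
  · show br (-x) y 3 = - br x y 3
    rw [ShD1_br3, ShD1_br3]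
    simp only [Pi.neg_apply]
    ring
  · show br (-x) y 4 = - br x y 4
    rw [ShD1_br4, ShD1_br4]
    simp only [Pi.neg_apply]
    ring
  · show br (-x) y 5 = - br x y 5
    rw [ShD1_br5, ShD1_br5]
    simp only [Pi.neg_apply]
    ring
  · show br (-x) y 6 = - br x y 6
    rw [ShD1_br6, ShD1_br6]
    simp only [Pi.neg_apply]
    ring

theorem ShD1_br_anti (x y : V K) : br x y = - br y x := by
  ext j
  simp only [Pi.neg_apply]
  fin_cases j
  · show br x y 0 = - br y x 0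
    rw [ShD1_br0, ShD1_br0]
    ring
  · show br x y 1 = - br y x 1
    rw [ShD1_br1, ShD1_br1]
    ring
  · show br x y 2 = - br y x 2
    rw [ShD1_br2, ShD1_br2]
    ring
  · show br x y 3 = - br y x 3
    rw [ShD1_br3, ShD1_br3]
    ring
  · show br x y 4 = - br y x 4
    rw [ShD1_br4, ShD1_br4]
    ring
  · show br x y 5 = - br y x 5
    rw [ShD1_br5, ShD1_br5]
    ring
  · show br x y 6 = - br y x 6
    rw [ShD1_br6, ShD1_br6]
    ring

theorem ShD1_br_zero (x : V K) : br x 0 = 0 := by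
  ext j
  fin_cases j <;> simp [br]

theorem ShD1_V0_iff (h2 : (2 : K) ≠ 0) (x : V K) :
    ShD1_V0 x ↔ tor (1, -1) x = x := by
  constructor
  · intro h
    obtain ⟨a2, a3, a5, a6⟩ := ShD1_c h
    ext j
    rw [tor_apply]
    fin_cases j <;> simp [ch, wt, a2, a3, a5, a6]
  · intro h j h0 h1 h4
    have hj := congrFun h j
    rw [tor_apply] at hj
    have key : ∀ a : K, -a = a → a = 0 := by
      intro a ha
      have : 2 * a = 0 := by linear_combination -ha
      exact (mul_eq_zero.1 this).resolve_left h2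
    fin_cases j
    · exact absurd rfl h0
    · exact absurd rfl h1
    · apply key
      simpa [ch, wt] using hj
    · apply key
      simpa [ch, wt] using hj
    · exact absurd rfl h4
    · apply key
      simpa [ch, wt] using hj
    · apply key
      simpa [ch, wt] using hj

theorem ShD1_nd (h2 : (2 : K) ≠ 0) {x : V K} (hx : ShD1_V0 x)
    (h : ∀ y, ShD1_V0 y → bf x y = 0) : x = 0 := by
  obtain ⟨a2, a3, a5, a6⟩ := ShD1_c hx
  have v0 : ShD1_V0 (ev 0 : V K) := fun j h0 _ _ => ev_ne h0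
  have v1 : ShD1_V0 (ev 1 : V K) := fun j _ h1 _ => ev_ne h1
  have v4 : ShD1_V0 (ev 4 : V K) := fun j _ _ h4 => ev_ne h4
  have e0 := h _ v0
  have e1 := h _ v1
  have e4 := h _ v4
  simp [bf, ev] at e0 e1 e4
  have e0' : x 0 = 0 := by
    rcases e0 with h | h
    · exact absurd h h2
    · exact h
  ext j
  fin_cases j
  · exact e0'
  · exact e4
  · exact a2
  · exact a3
  · exact e1
  · exact a5
  · exact a6

theorem sc_det (hK : Ok K) {i : EE K} (hi : i ∈ GG K)
    (he : i * tor (1, -1) = tor (1, -1) * i) (h2 : i ^ 2 = 1) :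
    (∀ j, (j = 0 ∨ j = 1 ∨ j = 4) → i (ev j) = ev j) ∨
      ∃ v : V K, (∀ j, j ≠ 0 → j ≠ 1 → j ≠ 4 → v j = 0) ∧ bf v v ≠ 0 ∧ i v = v ∧
        ∀ x : V K, (∀ j, j ≠ 0 → j ≠ 1 → j ≠ 4 → x j = 0) → bf v x = 0 → i x = -x := by
  have t2 := ok_two hK
  obtain ⟨hbr, hbf⟩ := hi
  have hV : ∀ x, ShD1_V0 x → ShD1_V0 (i x) := by
    intro x hx
    rw [ShD1_V0_iff t2] at hx ⊢
    have := LinearEquiv.congr_fun he x
    rw [LinearEquiv.mul_apply, LinearEquiv.mul_apply, hx] at this
    exact this.symm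
  have hii : ∀ x, i (i x) = x := by
    intro x
    have := LinearEquiv.congr_fun h2 x
    rw [pow_two, LinearEquiv.mul_apply] at this
    exact this
  have hadd : ∀ x y, ShD1_V0 x → ShD1_V0 y → ShD1_V0 (x + y : V K) := by
    intro x y hx hy j h0 h1 h4
    rw [Pi.add_apply, hx j h0 h1 h4, hy j h0 h1 h4, add_zero]
  have hsm : ∀ (c : K) x, ShD1_V0 x → ShD1_V0 (c • x : V K) := by
    intro c x hx j h0 h1 h4
    rw [Pi.smul_apply, hx j h0 h1 h4, smul_zero]
  -- the two eigenspaces are orthogonal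
  have horth : ∀ x y, i x = x → i y = -y → bf x y = 0 := by
    intro x y hx hy
    have h := hbf x y
    rw [hx, hy] at h
    have h3 : bf x (-y) = - bf x y := by
      rw [ShD1_bf_comm, ShD1_bf_neg, ShD1_bf_comm]
    rw [h3] at h
    have : 2 * bf x y = 0 := by linear_combination -h
    exact (mul_eq_zero.1 this).resolve_left t2
  by_cases hall : ∀ j, (j = 0 ∨ j = 1 ∨ j = 4) → i (ev j) = ev j
  · exact Or.inl hall
  right
  push Not at hall
  obtain ⟨j, hj, hne⟩ := hall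
  have hevj : ShD1_V0 (ev j : V K) := by
    intro k h0 h1 h4
    apply ev_ne
    rintro rfl
    rcases hj with h | h | h
    · exact h0 h
    · exact h1 h
    · exact h4 h
  set w : V K := ev j + (-1 : K) • i (ev j) with hw
  have hwV : ShD1_V0 w := hadd _ _ hevj (hsm _ _ (hV _ hevj))
  have hiw : i w = -w := by
    rw [hw, map_add, map_smul, hii]
    module
  have hw0 : w ≠ 0 := by
    intro h
    apply hne
    have : ev j = i (ev j) := by
      have h3 : ev j + (-1 : K) • i (ev j) = 0 := h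
      rw [neg_one_smul, ← sub_eq_add_neg, sub_eq_zero] at h3
      exact h3
    exact this.symm
  -- an anisotropic vector of the minus space
  obtain ⟨u, huV, hiu, huu⟩ : ∃ u : V K, ShD1_V0 u ∧ i u = -u ∧ bf u u ≠ 0 := by
    by_contra hcon
    push Not at hcon
    apply hw0
    apply ShD1_nd t2 hwV
    intro y hy
    have hx : ShD1_V0 (y + (-1 : K) • i y) := hadd _ _ hy (hsm _ _ (hV _ hy))
    have hix : i (y + (-1 : K) • i y) = -(y + (-1 : K) • i y) := by
      rw [map_add, map_smul, hii]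
      module
    have h1 := hcon _ hwV hiw
    have h3 := hcon _ hx hix
    have h4 := hcon (w + (y + (-1 : K) • i y)) (hadd _ _ hwV hx) (by
      rw [map_add, hiw, hix]
      module)
    have h5 : bf w (i y) = - bf w y := by
      have h := hbf w (i y)
      rw [hii, hiw, ShD1_bf_neg] at h
      exact h.symm
    rw [ShD1_bf_sq, h1, h3, ShD1_bf_add, ShD1_bf_smul, h5] at h4
    have h6 : 2 * (2 * bf w y) = 0 := by linear_combination h4
    exact (mul_eq_zero.1 ((mul_eq_zero.1 h6).resolve_left t2)).resolve_left t2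
  -- the plus space is abelian
  have hK2 : ∀ p q, ShD1_V0 p → ShD1_V0 q → i p = p → i q = q → br p q = 0 := by
    intro p q hp hq hip hiq
    have hz := ShD1_br hp hq
    have hiz : i (br p q) = br p q := by rw [hbr, hip, hiq]
    have h1 : br u (br p q) = 0 := by
      rw [ShD1_B huV hp hq, ShD1_bf_comm u q, ShD1_bf_comm u p, horth q u hiq hiu,
        horth p u hip hiu]
      simp
    have h3 := ShD1_B huV huV hz
    rw [h1, ShD1_br_zero, ShD1_bf_comm u (br p q), horth _ _ hiz hiu] at h3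
    have h4 : (2 * bf u u) • br p q = 0 := by
      rw [h3]
      module
    exact (smul_eq_zero.1 h4).resolve_left (mul_ne_zero t2 huu)
  -- the plus space is not zero
  obtain ⟨v, hvV, hiv, hv0⟩ : ∃ v : V K, ShD1_V0 v ∧ i v = v ∧ v ≠ 0 := by
    obtain ⟨x, hxV, hux, hx0⟩ : ∃ x : V K, ShD1_V0 x ∧ bf u x = 0 ∧ x ≠ 0 := by
      have v0 : ShD1_V0 (ev 0 : V K) := fun j h0 _ _ => ev_ne h0
      have v1 : ShD1_V0 (ev 1 : V K) := fun j _ h1 _ => ev_ne h1
      have hgen : ∀ y, ShD1_V0 y → ShD1_V0 (bf u u • y + (- bf u y) • u) ∧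
          bf u (bf u u • y + (- bf u y) • u) = 0 := by
        intro y hy
        refine ⟨hadd _ _ (hsm _ _ hy) (hsm _ _ huV), ?_⟩
        rw [ShD1_bf_add, ShD1_bf_smul, ShD1_bf_smul]
        ring
      by_cases h : bf u u • (ev 0 : V K) + (- bf u (ev 0)) • u = 0
      · refine ⟨_, (hgen _ v1).1, (hgen _ v1).2, ?_⟩
        intro h'
        have a0 := congrFun h 0
        have a1 := congrFun h 1
        have b1 := congrFun h' 1
        simp only [Pi.add_apply, Pi.smul_apply, smul_eq_mul, Pi.zero_apply, ev_same] at a0 a1 b1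
        rw [ev_ne (by decide)] at a1
        have c1 : bf u (ev 0) ≠ 0 := by
          intro hc
          rw [hc] at a0
          apply huu
          linear_combination a0
        have c2 : u 1 = 0 := by
          have : bf u (ev 0) * u 1 = 0 := by linear_combination -a1
          exact (mul_eq_zero.1 this).resolve_left c1
        rw [c2] at b1
        apply huu
        linear_combination b1
      · exact ⟨_, (hgen _ v0).1, (hgen _ v0).2, h⟩
    by_cases hp : x + i x = 0
    · have hix : i x = -x := by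
        rw [← sub_eq_zero, sub_neg_eq_add, add_comm]
        exact hp
      refine ⟨br u x, ShD1_br huV hxV, ?_, ?_⟩
      · rw [hbr, hiu, hix, ShD1_br_neg, ShD1_br_anti u (-x), ShD1_br_neg, ShD1_br_anti x u]
        simp
      · intro h
        have h3 := ShD1_B huV huV hxV
        rw [h, ShD1_br_zero, hux] at h3
        apply hx0
        have h4 : (2 * bf u u) • x = 0 := by
          rw [h3]
          module
        exact (smul_eq_zero.1 h4).resolve_left (mul_ne_zero t2 huu)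
    · refine ⟨x + i x, hadd _ _ hxV (hV _ hxV), ?_, hp⟩
      rw [map_add, hii, add_comm]
  have hcross : ∀ q, ShD1_V0 q → i q = q → bf v q • v = bf v v • q := by
    intro q hq hiq
    have h1 := hK2 v q hvV hq hiv hiq
    have h3 := ShD1_B hvV hvV hq
    rw [h1, ShD1_br_zero] at h3
    exact sub_eq_zero.1 ((smul_eq_zero.1 h3.symm).resolve_left (neg_ne_zero.2 t2))
  have hvi : ∀ y, bf v (i y) = bf v y := by
    intro y
    have h := hbf v y
    rw [hiv] at h
    exact h
  have hvv : bf v v ≠ 0 := by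
    intro h
    apply hv0
    apply ShD1_nd t2 hvV
    intro y hy
    have h1 := hcross (y + i y) (hadd _ _ hy (hV _ hy)) (by rw [map_add, hii, add_comm])
    rw [h, zero_smul] at h1
    have h3 := (smul_eq_zero.1 h1).resolve_right hv0
    rw [ShD1_bf_add, hvi] at h3
    have : 2 * bf v y = 0 := by linear_combination h3
    exact (mul_eq_zero.1 this).resolve_left t2
  refine ⟨v, hvV, hvv, hiv, ?_⟩
  intro x hx hvx
  have h1 := hcross (x + i x) (hadd _ _ hx (hV _ hx)) (by rw [map_add, hii, add_comm])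
  rw [ShD1_bf_add, hvi, hvx, add_zero, zero_smul] at h1
  have h3 := (smul_eq_zero.1 h1.symm).resolve_left hvv
  rw [add_comm] at h3
  exact eq_neg_of_add_eq_zero_left h3

end Pool.Agent.H40.GT
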