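import Pool.Agent.H40.GT.ShD1

/-!
# Part ShD2 (of ShD1, ShD2); GT-55 two opposite short root groups: involutions of `B`

`SF F = {6, 7}`, `B = BF F`, `i ∈ B`, `i ^ 2 = 1`, `i ≠ 1`.  Claim: (1) there are `b ∈ B`, `v ∈ TT`, `v ≠ 1`,
`v ^ r = 1` with `b v b⁻¹` commuting with `i`, or (2) there is `v ∈ B` with `v ^ 2 = e0`, commuting with `i`.

`i` commutes with `e0` (`sc_cen`), so it preserves `V_0 = ⟨e_0, e_1, e_-1⟩`, on which `br` is a simple
three dimensional Lie algebra: `i` has determinant `1` on `V_0` (from `br`: `i e_0 = a e_0 + ...`; or: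
an isometry of `V_0` preserving `br` has determinant 1 since `bf (br x y) z` is a nonzero
alternating form).
(a) `i` is the identity on `V_0`: it fixes `⟨e_1⟩`: `sh_H0`.
(b) otherwise `i` has eigenvalues `1, -1, -1` on `V_0`; let `v0 ∈ V_0` be the fixed vector, `bf v0 v0 ≠ 0`,
`i = -1` on `v0^⊥`.
(b1) `v0^⊥` contains an isotropic line `W` (then it contains exactly two): `i W = W`; take `b ∈ B` with
`b ⟨e_1⟩ = W` (`sc_tr`): `b⁻¹ i b` fixes `⟨e_1⟩`, `sh_H0`.
(b2) `v0^⊥` anisotropic.  `v0 = x0 e_0 + x1 e_1 + x4 e_-1` with `x1 ≠ 0` (otherwise `e_-1 ∈ v0^⊥`).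
Applying `X 7 (-x0/x1)` (`e_1 ↦ e_1 + s e_0 - s^2 e_-1`, `e_0 ↦ e_0 - 2 s e_-1`) we may assume `x0 = 0`,
and `v0 = e_1 + c e_-1`.  `v0^⊥ = ⟨e_0, e_1 - c e_-1⟩` is anisotropic iff `c` is not a square
(`bf (a e_0 + b (e_1 - c e_-1)) = 2 a^2 - 2 c b^2`); `|K| = 7, 11`, so `-1` is not a square and `-c = t^2`.
Applying `tor (t, 1)`: `e_1 + c e_-1 ↦ t e_1 + t⁻¹ c e_-1`, proportional to
`e_1 + t^-2 c e_-1 = e_1 - e_-1`.  So after conjugation by an element of `B` (all these are in `B`)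
`v0 = e_1 - e_-1`.  `n0 = X 6 1 * X 7 1 * X 6 1` agrees with `i` on `V_0` (`n0_one`, `n0_four`, `n0_zero`).
`y = i n0⁻¹ ∈ B` is the identity on `V_0`; it fixes `⟨e_1⟩`, `⟨e_-1⟩`, so by `sh_dec` `y = X 6 s * n`,
`n` fixes `⟨e_1⟩` and hence `⟨e_-1⟩`, so `X 6 s` fixes `⟨e_-1⟩`, `s = 0`, `y ∈ NN`.  `y` normalises `Xg K 6` and
`Xg K 7`, `y X 6 s y⁻¹ = X 6 (d s)`, and `d = 1` as `y = 1` on `V_0`, where `X 6` acts faithfully; same for
`X 7`.  So `y` commutes with `n0`, and `i = y n0` commutes with `n0`, `n0^2 = e0` (`n0_sq`).  Conjugate back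
(`e0` commutes with `B`).
-/

namespace Pool.Agent.H40.GT

variable {K : Type} [Field K]

theorem ShD2_nl6 (x : V K) : (4 : K) • Nl 6 x = br (ev 1) (x + (3 : K) • tor (1, -1) x) := by
  funext i
  fin_cases i <;> simp [Nl_apply, br, ev, tor_apply, ch, wt, cc, sc] <;> ring

theorem ShD2_nl7 (x : V K) : (-4 : K) • Nl 7 x = br (ev 4) (x + (3 : K) • tor (1, -1) x) := by
  funext i
  fin_cases i <;> simp [Nl_apply, br, ev, tor_apply, ch, wt, cc, sc] <;> ring

/-- an automorphism fixing `ev j` and commuting with the involution commutes with `Nl r` -/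
theorem ShD2_comm {r : Rt} {j : Fin 7} {c : K} (hc : c ≠ 0)
    (h : ∀ x : V K, c • Nl r x = br (ev j) (x + (3 : K) • tor (1, -1) x)) (h2 : (2 : K) ≠ 0)
    {y : EE K} (hy : y ∈ GG K) (he : y * tor (1, -1) = tor (1, -1) * y) (hj : y (ev j) = ev j)
    (s : K) : y * X r s = X r s * y := by
  have h3 : ∀ x, y (tor (1, -1) x) = tor (1, -1) (y x) := fun x => LinearEquiv.congr_fun he x
  have h4 : ∀ x, y (Nl r x) = Nl r (y x) := by
    intro x
    have h5 : c • y (Nl r x) = c • Nl r (y x) := by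
      rw [← map_smul, h, h, hy.1, hj, map_add, map_smul, h3]
    have h6 := congrArg (fun z => c⁻¹ • z) h5
    simpa [smul_smul, inv_mul_cancel₀ hc] using h6
  have h5 : ∀ x, y (Ql r x) = Ql r (y x) := by
    intro x
    have h6 : (2 : K) • y (Ql r x) = (2 : K) • Ql r (y x) := by
      rw [← map_smul, ← Nl_Nl, ← Nl_Nl, h4, h4]
    have h7 := congrArg (fun z => (2 : K)⁻¹ • z) h6
    simpa [smul_smul, inv_mul_cancel₀ h2] using h7
  apply LinearEquiv.ext
  intro x
  show y (Xl r s x) = Xl r s (y x)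
  rw [Xl_eq, Xl_eq, map_add, map_add, map_smul, map_smul, h4, h5]

/-- in our fields `q` or `-q` is a square -/
theorem ShD2_sq (hK : Ok K) {q : K} (hq : q ≠ 0) :
    (∃ y : K, y * y = q) ∨ ∃ z : K, z * z = -q := by
  have h3 : (Units.mk0 q hq) ^ 6 = 1 ∨ (Units.mk0 q hq) ^ 10 = 1 := Cen_pow hK _
  rcases h3 with h3 | h3
  · have h4 := congrArg (Units.val) h3
    rw [Units.val_pow_eq_pow_val, Units.val_mk0, Units.val_one] at h4
    have h5 : (q ^ 3) * (q ^ 3) = 1 := by rw [← h4]; ring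
    rcases mul_self_eq_one_iff.1 h5 with h6 | h6
    · exact Or.inl ⟨q ^ 2, by linear_combination q * h6⟩
    · exact Or.inr ⟨q ^ 2, by linear_combination q * h6⟩
  · have h4 := congrArg (Units.val) h3
    rw [Units.val_pow_eq_pow_val, Units.val_mk0, Units.val_one] at h4
    have h5 : (q ^ 5) * (q ^ 5) = 1 := by rw [← h4]; ring
    rcases mul_self_eq_one_iff.1 h5 with h6 | h6
    · exact Or.inl ⟨q ^ 3, by linear_combination q * h6⟩
    · exact Or.inr ⟨q ^ 3, by linear_combination q * h6⟩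

theorem ShD2_b1 (hK : Ok K) {F : Subgroup (EE K)} (hF : Ov F) (hS : SF F = {6, 7}) {i : EE K}
    (hi : i ∈ F) (h2 : i ^ 2 = 1) {w : V K} (hw0 : w ≠ 0)
    (hwV : ∀ j, j ≠ 0 → j ≠ 1 → j ≠ 4 → w j = 0) (hww : bf w w = 0) {c : K}
    (hiw : i w = c • w) :
    ∃ b ∈ BF (ok_two hK) F, ∃ v ∈ TT K, v ≠ 1 ∧ v ^ rr K = 1 ∧
      i * (b * v * b⁻¹) = b * v * b⁻¹ * i := by
  have hSh : Sh F := by
    refine ⟨hF, ?_, fun r hr => ?_⟩
    · rw [hS]
      exact Or.inl rfl
    · rw [hS] at hr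
      exact hr
  have hW : sp w ∈ LB K := ⟨w, hw0, hwV, hww, rfl⟩
  obtain ⟨W', hW', hne⟩ : ∃ W' ∈ LB K, sp w ≠ W' := by
    by_cases h : sp w = sp (ev 1)
    · exact ⟨sp (ev 4), LB_ev4, by rw [h]; exact LB_ne⟩
    · exact ⟨sp (ev 1), LB_ev1, h⟩
  obtain ⟨b, hb, hb1, -⟩ := sc_tr hK hF hS hW hW' hne
  obtain ⟨d, hd⟩ : ∃ d : K, b (ev 1) = d • w := by
    have h3 : b (ev 1) ∈ sp w := by
      rw [← hb1, lact_apply]
      exact Submodule.mem_map_of_mem (Submodule.mem_span_singleton_self _)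
    obtain ⟨d, hd⟩ := Submodule.mem_span_singleton.1 h3
    exact ⟨d, hd.symm⟩
  have hbF : b ∈ F := BF_le (ok_two hK) hb
  have hiF : b⁻¹ * i * b ∈ F := F.mul_mem (F.mul_mem (F.inv_mem hbF) hi) hbF
  have hi2 : (b⁻¹ * i * b) ^ 2 = 1 := by
    have : (b⁻¹ * i * b) ^ 2 = b⁻¹ * i ^ 2 * b := by
      rw [pow_two, pow_two]
      group
    rw [this, h2, mul_one, inv_mul_cancel]
  have hi1 : (b⁻¹ * i * b) (ev 1) = c • ev 1 := by
    rw [LinearEquiv.mul_apply, LinearEquiv.mul_apply, hd, map_smul, hiw, smul_comm, ← hd, map_smul]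
    congr 1
    exact b.symm_apply_apply (ev 1)
  obtain ⟨b', hb', v, hv, hv1, hvr, hcomm⟩ := sh_H0 hK hSh hiF hi2 hi1
  have hb'B : b' ∈ BF (ok_two hK) F := by
    obtain ⟨s, rfl⟩ := hb'
    exact GS_le_BF (ok_two hK) hF (X_mem_GS hSh.2.1 s)
  refine ⟨b * b', mul_mem hb hb'B, v, hv, hv1, hvr, ?_⟩
  calc i * (b * b' * v * (b * b')⁻¹) = b * (b⁻¹ * i * b * (b' * v * b'⁻¹)) * b⁻¹ := by group
    _ = b * (b' * v * b'⁻¹ * (b⁻¹ * i * b)) * b⁻¹ := by rw [hcomm]
    _ = b * b' * v * (b * b')⁻¹ * i := by group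

theorem sc_H (hK : Ok K) {F : Subgroup (EE K)} (hF : Ov F) (hS : SF F = {6, 7}) {i : EE K}
    (hi : i ∈ BF (ok_two hK) F) (h2 : i ^ 2 = 1) (h1 : i ≠ 1) :
    (∃ b ∈ BF (ok_two hK) F, ∃ v ∈ TT K, v ≠ 1 ∧ v ^ rr K = 1 ∧
      i * (b * v * b⁻¹) = b * v * b⁻¹ * i) ∨
      ∃ v ∈ F, v ^ 2 = tor (1, -1) ∧ v * i = i * v := by
  have hK2 := ok_two hK
  have h4 : (4 : K) ≠ 0 := by
    intro h
    have : (2 : K) * 2 = 0 := by linear_combination h
    exact hK2 (mul_self_eq_zero.1 this)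
  have hiF : i ∈ F := BF_le hK2 hi
  have hiG : i ∈ GG K := hF.2 hiF
  have hie : i * tor (1, -1) = tor (1, -1) * i := sc_cen hK hF hS hi
  have ev1z : (ev 1 : V K) ≠ 0 := by
    intro h
    have := congrFun h 1
    rw [ev_same] at this
    exact one_ne_zero this
  have ev4z : (ev 4 : V K) ≠ 0 := by
    intro h
    have := congrFun h 4
    rw [ev_same] at this
    exact one_ne_zero this
  rcases sc_det hK hiG hie h2 with ha | ⟨v, hvV, hvv, hiv, hperp⟩
  · left
    refine ShD2_b1 hK hF hS hiF h2 (w := ev 1) ev1z (fun j _ hj _ => ev_ne hj) ?_ (c := 1) ?_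
    · simp [bf, ev]
    · rw [one_smul]
      exact ha 1 (Or.inr (Or.inl rfl))
  by_cases hx1 : v 1 = 0
  · left
    refine ShD2_b1 hK hF hS hiF h2 (w := ev 4) ev4z (fun j _ _ hj => ev_ne hj) ?_ (c := -1) ?_
    · simp [bf, ev]
    · rw [neg_one_smul]
      refine hperp _ (fun j _ _ hj => ev_ne hj) ?_
      simp [bf, ev, hx1]
  have hq : v 0 ^ 2 + v 1 * v 4 ≠ 0 := by
    intro hq
    apply hvv
    have : bf v v = 2 * (v 0 ^ 2 + v 1 * v 4) := by
      unfold bf
      rw [hvV 2 (by decide) (by decide) (by decide), hvV 3 (by decide) (by decide) (by decide)]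
      ring
    rw [this, hq, mul_zero]
  rcases ShD2_sq hK hq with ⟨y, hy⟩ | ⟨z, hz⟩
  · left
    let w : V K := ![(v 0 + y) * v 1, v 1 ^ 2, 0, 0, -(v 0 + y) ^ 2, 0, 0]
    have hw1 : w 1 = v 1 ^ 2 := rfl
    have hwV : ∀ j, j ≠ 0 → j ≠ 1 → j ≠ 4 → w j = 0 := by
      intro j h0 h1 h4
      fin_cases j
      · exact absurd rfl h0
      · exact absurd rfl h1
      · rfl
      · rfl
      · exact absurd rfl h4
      · rfl
      · rfl
    refine ShD2_b1 hK hF hS hiF h2 (w := w) ?_ hwV ?_ (c := -1) ?_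
    · intro h
      have h3 := congrFun h 1
      rw [hw1] at h3
      exact hx1 (pow_eq_zero_iff (two_ne_zero) |>.1 h3)
    · simp [bf, w]
      ring
    · rw [neg_one_smul]
      refine hperp _ hwV ?_
      have : bf v w = -(v 1 * (y * y - (v 0 ^ 2 + v 1 * v 4))) := by
        simp [bf, w]
        ring
      rw [this, hy, sub_self, mul_zero, neg_zero]
  · right
    have hz0 : z ≠ 0 := by
      rintro rfl
      apply hq
      rw [zero_mul] at hz
      exact neg_eq_zero.1 hz.symm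
    have ht0 : v 1 / z ≠ 0 := div_ne_zero hx1 hz0
    let t : Kˣ := Units.mk0 (v 1 / z) ht0
    let b : EE K := X 7 (v 0 / v 1) * tor (t, 1)
    have h67 : (6 : Rt) ∈ SF F ∧ (7 : Rt) ∈ SF F := by
      rw [hS]
      exact ⟨Or.inl rfl, Or.inr rfl⟩
    have hbF : b ∈ F := F.mul_mem (h67.2 _) (hF.1 (tor_mem_TT _))
    have hbG : b ∈ GG K := hF.2 hbF
    have hX7e : ∀ s : K, X 7 s * tor (1, -1) = tor (1, -1) * X 7 s := by
      intro s
      by_cases hs : s = 0
      · rw [hs, X_zero, one_mul, mul_one]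
      · rw [X_comm_tor _ _ _ hs]
        simp [ch, rt]
    have hX6e : ∀ s : K, X 6 s * tor (1, -1) = tor (1, -1) * X 6 s := by
      intro s
      by_cases hs : s = 0
      · rw [hs, X_zero, one_mul, mul_one]
      · rw [X_comm_tor _ _ _ hs]
        simp [ch, rt]
    have hbe : b * tor (1, -1) = tor (1, -1) * b := by
      show X 7 (v 0 / v 1) * tor (t, 1) * tor (1, -1) = tor (1, -1) * (X 7 (v 0 / v 1) * tor (t, 1))
      rw [mul_assoc, TT_comm _ _ (tor_mem_TT (t, 1)) (tor_mem_TT (1, -1)), ← mul_assoc, hX7e,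
        mul_assoc]
    have hbv : b (ev 1 - ev 4) = z⁻¹ • v := by
      have e2 := hvV 2 (by decide) (by decide) (by decide)
      have e3 := hvV 3 (by decide) (by decide) (by decide)
      have e5 := hvV 5 (by decide) (by decide) (by decide)
      have e6 := hvV 6 (by decide) (by decide) (by decide)
      have hz' : z ^ 2 = -(v 0 ^ 2 + v 1 * v 4) := by rw [← hz]; ring
      funext j
      fin_cases j
      · simp [b, X_apply, tor_apply, ch, wt, cc, sc, qc, qs, ev, t]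
        field_simp
      · simp [b, X_apply, tor_apply, ch, wt, cc, sc, qc, qs, ev, t]
        field_simp
      · simp [b, X_apply, tor_apply, ch, wt, cc, sc, qc, qs, ev, t, e2]
      · simp [b, X_apply, tor_apply, ch, wt, cc, sc, qc, qs, ev, t, e3]
      · simp [b, X_apply, tor_apply, ch, wt, cc, sc, qc, qs, ev, t]
        field_simp
        linear_combination -hz'
      · simp [b, X_apply, tor_apply, ch, wt, cc, sc, qc, qs, ev, t, e5]
      · simp [b, X_apply, tor_apply, ch, wt, cc, sc, qc, qs, ev, t, e6]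
    have hb0 : ∀ j, j ≠ 0 → j ≠ 1 → j ≠ 4 → b (ev 0) j = 0 := by
      intro j h0 h1 h4
      fin_cases j
      · exact absurd rfl h0
      · exact absurd rfl h1
      · simp [b, X_apply, tor_apply, ch, wt, cc, sc, qc, qs, ev, t]
      · simp [b, X_apply, tor_apply, ch, wt, cc, sc, qc, qs, ev, t]
      · exact absurd rfl h4
      · simp [b, X_apply, tor_apply, ch, wt, cc, sc, qc, qs, ev, t]
      · simp [b, X_apply, tor_apply, ch, wt, cc, sc, qc, qs, ev, t]
    have hb14 : ∀ j, j ≠ 0 → j ≠ 1 → j ≠ 4 → b (ev 1 + ev 4) j = 0 := by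
      intro j h0 h1 h4
      fin_cases j
      · exact absurd rfl h0
      · exact absurd rfl h1
      · simp [b, X_apply, tor_apply, ch, wt, cc, sc, qc, qs, ev, t]
      · simp [b, X_apply, tor_apply, ch, wt, cc, sc, qc, qs, ev, t]
      · exact absurd rfl h4
      · simp [b, X_apply, tor_apply, ch, wt, cc, sc, qc, qs, ev, t]
      · simp [b, X_apply, tor_apply, ch, wt, cc, sc, qc, qs, ev, t]
    have hv' : v = z • b (ev 1 - ev 4) := by
      rw [hbv, smul_smul, mul_inv_cancel₀ hz0, one_smul]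
    have hbfs : ∀ (a : K) (x y : V K), bf (a • x) y = a * bf x y := by
      intro a x y
      simp [bf]
      ring
    have p0 : bf v (b (ev 0)) = 0 := by
      rw [hv', hbfs, hbG.2]
      simp [bf, ev]
    have p14 : bf v (b (ev 1 + ev 4)) = 0 := by
      rw [hv', hbfs, hbG.2]
      simp [bf, ev]
    have q0 := hperp _ hb0 p0
    have q14 := hperp _ hb14 p14
    have hinv : ∀ x, b⁻¹ (b x) = x := fun x => b.symm_apply_apply x
    set i' := b⁻¹ * i * b with hi'
    have r0 : i' (ev 1 - ev 4) = ev 1 - ev 4 := by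
      show b⁻¹ (i (b (ev 1 - ev 4))) = _
      rw [hbv, map_smul, hiv, ← hbv, hinv]
    have r14 : i' (ev 1 + ev 4) = -(ev 1 + ev 4) := by
      show b⁻¹ (i (b (ev 1 + ev 4))) = _
      rw [q14, map_neg, hinv]
    have i1 : i' (ev 1) = -ev 4 := by
      have h3 : (2 : K) • i' (ev 1) = (2 : K) • (-ev 4) := by
        have h5 : (2 : K) • (ev 1 : V K) = (ev 1 - ev 4) + (ev 1 + ev 4) := by module
        rw [← map_smul, h5, map_add, r0, r14]
        module
      have h6 := congrArg (fun x => (2 : K)⁻¹ • x) h3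
      simpa [smul_smul, inv_mul_cancel₀ hK2] using h6
    have i4 : i' (ev 4) = -ev 1 := by
      have h5 : (ev 4 : V K) = (ev 1 + ev 4) - ev 1 := by abel
      rw [h5, map_sub, r14, i1]
      abel
    have hn0F : n0 K ∈ F := F.mul_mem (F.mul_mem (h67.1 _) (h67.2 _)) (h67.1 _)
    have hn0G : n0 K ∈ GG K := hF.2 hn0F
    have hn0e : n0 K * tor (1, -1) = tor (1, -1) * n0 K := by
      rw [← n0_sq]
      group
    have hi'G : i' ∈ GG K := (GG K).mul_mem ((GG K).mul_mem ((GG K).inv_mem hbG) hiG) hbG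
    have hi'e : i' * tor (1, -1) = tor (1, -1) * i' := by
      have hbe' : b⁻¹ * tor (1, -1) = tor (1, -1) * b⁻¹ := by
        rw [inv_mul_eq_iff_eq_mul, ← mul_assoc, hbe, mul_inv_cancel_right]
      calc i' * tor (1, -1) = b⁻¹ * (i * (b * tor (1, -1))) := by rw [hi']; group
        _ = b⁻¹ * (i * tor (1, -1)) * b := by rw [hbe]; group
        _ = (b⁻¹ * tor (1, -1)) * i * b := by rw [hie]; group
        _ = tor (1, -1) * i' := by rw [hbe', hi']; group
    set y := i' * (n0 K)⁻¹ with hy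
    have hyG : y ∈ GG K := (GG K).mul_mem hi'G ((GG K).inv_mem hn0G)
    have hye : y * tor (1, -1) = tor (1, -1) * y := by
      have hne' : (n0 K)⁻¹ * tor (1, -1) = tor (1, -1) * (n0 K)⁻¹ := by
        rw [inv_mul_eq_iff_eq_mul, ← mul_assoc, hn0e, mul_inv_cancel_right]
      rw [hy, mul_assoc, hne', ← mul_assoc, hi'e, mul_assoc]
    have hninv : ∀ x, (n0 K)⁻¹ (n0 K x) = x := fun x => (n0 K).symm_apply_apply x
    have y1 : y (ev 1) = ev 1 := by
      show i' ((n0 K)⁻¹ (ev 1)) = ev 1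
      have h3 : (ev 1 : V K) = n0 K (-ev 4) := by rw [map_neg, n0_four, neg_neg]
      rw [h3, hninv, map_neg, i4, ← h3, neg_neg]
    have y4 : y (ev 4) = ev 4 := by
      show i' ((n0 K)⁻¹ (ev 4)) = ev 4
      have h3 : (ev 4 : V K) = n0 K (-ev 1) := by rw [map_neg, n0_one, neg_neg]
      rw [h3, hninv, map_neg, i1, ← h3, neg_neg]
    have c6 := ShD2_comm h4 ShD2_nl6 hK2 hyG hye y1
    have c7 := ShD2_comm (neg_ne_zero.2 h4) ShD2_nl7 hK2 hyG hye y4
    have cn : y * n0 K = n0 K * y := by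
      show y * (X 6 1 * X 7 1 * X 6 1) = X 6 1 * X 7 1 * X 6 1 * y
      rw [← mul_assoc, ← mul_assoc, c6, mul_assoc (X 6 1) y, c7, ← mul_assoc, mul_assoc _ y, c6]
      group
    have hiy : i' = y * n0 K := by
      rw [hy, inv_mul_cancel_right]
    have cin : n0 K * i' = i' * n0 K := by
      rw [hiy, ← mul_assoc, ← cn]
    refine ⟨b * n0 K * b⁻¹, F.mul_mem (F.mul_mem hbF hn0F) (F.inv_mem hbF), ?_, ?_⟩
    · have h3 : (b * n0 K * b⁻¹) ^ 2 = b * n0 K ^ 2 * b⁻¹ := by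
        rw [pow_two, pow_two]
        group
      rw [h3, n0_sq, hbe, mul_inv_cancel_right]
    · calc b * n0 K * b⁻¹ * i = b * (n0 K * i') * b⁻¹ := by rw [hi']; group
        _ = b * (i' * n0 K) * b⁻¹ := by rw [cin]
        _ = i * (b * n0 K * b⁻¹) := by rw [hi']; group

end Pool.Agent.H40.GT
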