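import Pool.Agent.H40.GT.ShB
import Pool.Agent.H40.GT.ShD
import Pool.Agent.H40.GT.Clo

/-!
# Part ShE1 (of ShE1, ShE2); GT-56 overgroups without long root groups

`short_two`: `SF F = {6, 7}`.  Apply `thmB` to `Γ = F` (as a type), `T = (TT K).subgroupOf F`,
`M = (NN K).subgroupOf F`, `B = (BF _ F).subgroupOf F`, `X = (Xg K 6).subgroupOf F`,
`NX` = the elements of `F` normalising `X`, `p = |K|`, `r = rr K`, `k = p + 1`, `e0 = tor (1, -1)`.
`nX`: `sh_NX`, `sh_dec`.  `M0`: `sh_M0`.  `idx`: `sc_card`.  `ce`: `sh_ce`.  `H`: `sc_H`.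
`small`: `M` acts on the two lines `⟨e_1⟩`, `⟨e_-1⟩` (`sh_pm`) and `n0 ∈ M` exchanges them, so
`|M| = 2 |NX ∩ M|`; `n0` does not commute with `e`, so `|C_M(e)| ≤ |M| / 2`.

`short_std`: `SF F` has only short roots and is closed (`Clo`).  If `SF F = ∅`: `propC` is in
another file, so here we assume `SF F ≠ ∅`.  Two short roots `a ≠ b`, `a ≠ ng b`: the sum of `a` and `b` is
a long root, or it is a short root `c` and `a + c` is a long root (finite check): contradiction.
So `SF F = {a}` or `{a, ng a}`; conjugate `a` to `6` (`NN_short`, `SF_cj`; then `ng a` goes to `7`),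
`Std_cj`.
-/

namespace Pool.Agent.H40.GT

variable {K : Type} [Field K]

theorem ShE1_two_cosets {G : Type} [Group G] [Finite G] (M N C : Subgroup G) (w : G)
    (hC : C ≤ M) (hw : w ∈ M) (hwC : w ∉ C) (hN : ∀ m ∈ M, m ∈ N ∨ w⁻¹ * m ∈ N) :
    Nat.card C ≤ Nat.card N := by
  classical
  have h1 : 2 * Nat.card C ≤ Nat.card M := by
    have hf : Function.Injective (fun x : C ⊕ C => (Sum.elim (fun c => (⟨c.1, hC c.2⟩ : M))
        (fun c => (⟨w * c.1, M.mul_mem hw (hC c.2)⟩ : M)) x : M)) := by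
      rintro (a | a) (b | b) hab
      · simp only [Sum.elim_inl, Subtype.mk.injEq] at hab
        rw [Subtype.ext hab]
      · exfalso
        simp only [Sum.elim_inl, Sum.elim_inr, Subtype.mk.injEq] at hab
        apply hwC
        have : w = a.1 * b.1⁻¹ := by rw [hab, mul_inv_cancel_right]
        rw [this]
        exact C.mul_mem a.2 (C.inv_mem b.2)
      · exfalso
        simp only [Sum.elim_inl, Sum.elim_inr, Subtype.mk.injEq] at hab
        apply hwC
        have : w = b.1 * a.1⁻¹ := by rw [← hab, mul_inv_cancel_right]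
        rw [this]
        exact C.mul_mem b.2 (C.inv_mem a.2)
      · simp only [Sum.elim_inr, Subtype.mk.injEq] at hab
        rw [Subtype.ext (mul_left_cancel hab)]
    have := Nat.card_le_card_of_injective _ hf
    rw [Nat.card_sum] at this
    omega
  have h2 : Nat.card M ≤ 2 * Nat.card N := by
    have hf : Function.Injective (fun x : M => if h : x.1 ∈ N then (Sum.inl ⟨x.1, h⟩ : N ⊕ N)
        else Sum.inr ⟨w⁻¹ * x.1, (hN x.1 x.2).resolve_left h⟩) := by
      intro a b hab
      by_cases ha : a.1 ∈ N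
      · by_cases hb : b.1 ∈ N
        · simp only [ha, hb, dif_pos, Sum.inl.injEq, Subtype.mk.injEq] at hab
          exact Subtype.ext hab
        · simp [ha, hb] at hab
      · by_cases hb : b.1 ∈ N
        · simp [ha, hb] at hab
        · simp only [ha, hb, dif_neg, not_false_eq_true, Sum.inr.injEq, Subtype.mk.injEq,
            mul_right_inj] at hab
          exact Subtype.ext hab
    have := Nat.card_le_card_of_injective _ hf
    rw [Nat.card_sum] at this
    omega
  omega

/-- the stabiliser of the line of `e_1` -/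
def ShE1_N (F : Subgroup (EE K)) : Subgroup (EE K) where
  carrier := {x | x ∈ F ∧ ∃ c : K, x (ev 1) = c • ev 1}
  one_mem' := ⟨one_mem _, 1, by simp⟩
  mul_mem' := by
    rintro a b ⟨ha, c, hc⟩ ⟨hb, d, hd⟩
    exact ⟨mul_mem ha hb, d * c, by rw [LinearEquiv.mul_apply, hd, map_smul, hc, smul_smul]⟩
  inv_mem' := by
    rintro a ⟨ha, c, hc⟩
    refine ⟨inv_mem ha, c⁻¹, ?_⟩
    have h0 : c ≠ 0 := by
      intro h
      rw [h, zero_smul] at hc
      have h1 : (ev 1 : V K) = 0 := a.injective (by rw [hc, map_zero])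
      have h2 := congrFun h1 1
      rw [ev_same] at h2
      simp at h2
    apply a.injective
    rw [map_smul, hc, smul_smul, inv_mul_cancel₀ h0, one_smul]
    exact a.apply_symm_apply _

theorem ShE1_memN {F : Subgroup (EE K)} {x : EE K} :
    x ∈ ShE1_N F ↔ x ∈ F ∧ ∃ c : K, x (ev 1) = c • ev 1 := Iff.rfl

theorem ShE1_card {G : Type} [Group G] {H F : Subgroup G} (h : H ≤ F) :
    Nat.card (H.subgroupOf F) = Nat.card H :=
  Nat.card_congr (Subgroup.subgroupOfEquivOfLe h).toEquiv

theorem short_two (hK : Ok K) {F : Subgroup (EE K)} (hF : Ov F) (hS : SF F = {6, 7}) :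
    Std F := by
  have h2 := ok_two hK
  have hSh : Sh F := by
    refine ⟨hF, by rw [hS]; simp, ?_⟩
    intro r hr
    rw [hS] at hr
    simpa using hr
  have hS6 : ∀ r ∈ SF F, 6 ≤ r.val := by
    intro r hr
    rcases hSh.2.2 r hr with h | h <;> rw [h] <;> decide
  have hXF : Xg K 6 ≤ F := by
    rintro x ⟨s, rfl⟩
    exact hSh.2.1 s
  have hTF : TT K ≤ F := hF.1
  have hBF : BF h2 F ≤ F := BF_le h2
  have hNF : ShE1_N F ≤ F := fun x hx => hx.1
  obtain ⟨hNB, hcard⟩ := sc_card hK hF hS (ShE1_N F) (fun x => Iff.rfl)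
  have hn0F : n0 K ∈ F := by
    unfold n0
    have h6 : (6 : Rt) ∈ SF F := by rw [hS]; simp
    have h7 : (7 : Rt) ∈ SF F := by rw [hS]; simp
    exact mul_mem (mul_mem (h6 1) (h7 1)) (h6 1)
  have hEE : Finite (EE K) := ok_EE_finite hK
  have he0 : tor ((1 : Kˣ), (-1 : Kˣ)) ∈ F := hTF (tor_mem_TT _)
  have hr2 : 2 * rr K = Nat.card K - 1 := by
    rcases rr_eq hK with ⟨h, h'⟩ | ⟨h, h'⟩ <;> rw [h, h']
  have key : BH F ((TT K).subgroupOf F) ((NN K).subgroupOf F) ((BF h2 F).subgroupOf F)
      ((Xg K 6).subgroupOf F) ((ShE1_N F).subgroupOf F) (Nat.card K) (rr K) (Nat.card K + 1)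
      ⟨tor (1, -1), he0⟩ := by
    constructor
    · exact Subtype.finite
    · exact rr_eq hK
    · intro x hx
      exact TT_le_NN hx
    · intro x hx
      exact NN_le_BF h2 hF ⟨hx, x.2⟩
    · intro s hs t ht
      exact Subtype.ext (TT_comm _ _ hs ht)
    · rw [ShE1_card hTF, ok_TT_card hK]
      rcases rr_eq hK with ⟨h, h'⟩ | ⟨h, h'⟩ <;> rw [h, h'] <;> norm_num
    · intro t ht
      obtain ⟨a, ha⟩ := ht
      apply Subtype.ext
      have ha' : tor a = (t : EE K) := ha
      rw [SubgroupClass.coe_pow, ← ha', ← map_pow, hr2, ← ok_units hK]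
      have h3 : a ^ Nat.card Kˣ = 1 := by
        apply Prod.ext
        · rw [Prod.pow_fst]
          exact pow_card_eq_one'
        · rw [Prod.pow_snd]
          exact pow_card_eq_one'
      rw [h3, map_one]
      rfl
    · intro x hx t ht
      obtain ⟨w, σ, τ, hm⟩ := NN_mon h2 (show (x : EE K) ∈ NN K from hx)
      obtain ⟨a, ha⟩ := ht
      have ha' : tor a = (t : EE K) := ha
      obtain ⟨b, hb, -⟩ := hm.mtor a
      show (x : EE K) * (t : EE K) * (x : EE K)⁻¹ ∈ TT K
      rw [← ha', hb]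
      exact tor_mem_TT b
    · intro x hx
      apply lemC hK (hF.2 x.2)
      intro t ht
      exact hx ⟨t, hTF ht⟩ ht
    · intro t ht h1 x hx
      apply cent_BF hK hF hS6 (show (t : EE K) ∈ TT K from ht) ?_ x.2 (congrArg Subtype.val hx)
      intro h
      exact h1 (Subtype.ext h)
    · intro x hx
      apply TT_le_NN
      apply ok_centr hK (hF.2 x.2)
      intro t ht hr
      exact congrArg Subtype.val (hx ⟨t, hTF ht⟩ ht (Subtype.ext hr))
    · intro n hn
      exact sh_sq hK hSh hn n.2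
    · intro x hx
      obtain ⟨s, hs⟩ := hx
      have hs' : (x : EE K) = X 6 s := hs
      show (x : EE K) ∈ BF h2 F
      rw [hs']
      exact GS_le_BF h2 hF (X_mem_GS hSh.2.1 s)
    · rw [ShE1_card hXF, Xg_card hK]
    · intro x
      constructor
      · intro hx u hu
        exact (sh_NX hK hSh x.2).2 (ShE1_memN.1 hx).2 u hu
      · intro hx
        refine ShE1_memN.2 ⟨x.2, (sh_NX hK hSh x.2).1 ?_⟩
        intro u hu
        exact hx ⟨u, hXF hu⟩ hu
    · intro x hx
      exact hNB hx
    · intro x hx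
      obtain ⟨c, hc⟩ := (ShE1_memN.1 hx).2
      obtain ⟨u, hu, n, hn, hnF, hx', -⟩ := sh_dec hK hSh x.2 hc
      exact ⟨⟨u, hXF hu⟩, hu, ⟨n, hnF⟩, hn, Subtype.ext hx'⟩
    · intro x hx
      obtain ⟨a, ha⟩ := hx
      have ha' : tor a = (x : EE K) := ha
      refine ShE1_memN.2 ⟨x.2, ch (wt 1) a, ?_⟩
      show (x : EE K) (ev 1) = _
      rw [← ha', tor_ev]
    · have h3 : ((ShE1_N F).subgroupOf F ⊓ (NN K).subgroupOf F) =
          (ShE1_N F ⊓ NN K).subgroupOf F := by
        ext x
        simp [Subgroup.mem_subgroupOf]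
      rw [h3, ShE1_card (inf_le_left.trans hNF), ShE1_card hTF]
      apply sh_M0 hK hSh
      intro n hn
      exact ⟨hn.2, hn.1.2⟩
    · rw [ShE1_card hBF, ShE1_card hNF, hcard]
    · right
      rfl
    · exact tor_mem_TT _
    · intro h
      have h3 : tor ((1 : Kˣ), (-1 : Kˣ)) = tor 1 := by
        rw [map_one]
        exact congrArg Subtype.val h
      have h4 := congrArg (fun a : Kˣ × Kˣ => (a.2 : K)) (tor_inj h3)
      simp at h4
      apply h2
      linear_combination -h4
    · apply Subtype.ext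
      show tor ((1 : Kˣ), (-1 : Kˣ)) ^ 2 = 1
      rw [← map_pow]
      have : ((1 : Kˣ), (-1 : Kˣ)) ^ 2 = 1 := by
        apply Prod.ext <;> simp
      rw [this, map_one]
    · intro e he h1 h0 hsq x hx
      apply sh_ce hK hSh (show (e : EE K) ∈ TT K from he) ?_ ?_ (congrArg Subtype.val hsq) x.2
        (congrArg Subtype.val hx)
      · intro h
        exact h1 (Subtype.ext h)
      · intro h
        exact h0 (Subtype.ext h)
    · intro e he h1 h0 hsq
      apply ShE1_two_cosets ((NN K).subgroupOf F) _ _ ⟨n0 K, hn0F⟩ inf_le_left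
      · exact n0_NN
      · intro h
        have h3 := Subgroup.mem_centralizer_singleton_iff.1 h.2
        have h4 : n0 K * (e : EE K) = (e : EE K) * n0 K := congrArg Subtype.val h3
        refine n0_comm hK (show (e : EE K) ∈ TT K from he) ?_ ?_ (congrArg Subtype.val hsq) h4
        · intro h
          exact h1 (Subtype.ext h)
        · intro h
          exact h0 (Subtype.ext h)
      · intro m hm
        rcases sh_pm hK hSh (show (m : EE K) ∈ NN K from hm) m.2 with h | ⟨c, hc⟩
        · left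
          exact ⟨ShE1_memN.2 ⟨m.2, h⟩, hm⟩
        · right
          refine ⟨ShE1_memN.2 ⟨mul_mem (inv_mem hn0F) m.2, -c, ?_⟩, ?_⟩
          · show ((n0 K)⁻¹ * (m : EE K)) (ev 1) = -c • ev 1
            apply (n0 K).injective
            rw [← LinearEquiv.mul_apply, mul_inv_cancel_left, hc, map_smul, n0_one, smul_neg,
              neg_smul, neg_neg]
          · show (n0 K)⁻¹ * (m : EE K) ∈ NN K
            exact mul_mem (inv_mem n0_NN) (show (m : EE K) ∈ NN K from hm)
    · intro i hi hsq h1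
      rcases sc_H hK hF hS (show (i : EE K) ∈ BF (ok_two hK) F from hi)
        (congrArg Subtype.val hsq) (fun h => h1 (Subtype.ext h)) with
        ⟨b, hb, v, hv, hv1, hvr, hc⟩ | ⟨v, hv, hv2, hc⟩
      · left
        exact ⟨⟨b, hBF hb⟩, hb, ⟨v, hTF hv⟩, hv, fun h => hv1 (congrArg Subtype.val h),
          Subtype.ext hvr, Subtype.ext hc⟩
      · right
        exact ⟨⟨v, hv⟩, Subtype.ext hv2, Subtype.ext hc⟩
  rw [Std_iff_BF h2 hF]
  intro f hf
  exact thmB key ⟨f, hf⟩

end Pool.Agent.H40.GT
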