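import Pool.Agent.H40.GT.ShE1

/-!
# Part ShE2 (of ShE1, ShE2); GT-56 overgroups without long root groups

`short_two`: `SF F = {6, 7}`.  Apply `thmB` to `Γ = F` (as a type), `T = (TT K).subgroupOf F`,
`M = (NN K).subgroupOf F`, `B = (BF _ F).subgroupOf F`, `X = (Xg K 6).subgroupOf F`,
`NX` = the elements of `F` normalising `X`, `p = |K|`, `r = rr K`, `k = p + 1`, `e0 = tor (1, -1)`.
`nX`: `sh_NX`, `sh_dec`.  `M0`: `sh_M0`.  `idx`: `sc_card`.  `ce`: `sh_ce`.  `H`: `sc_H`.
`small`: `M` acts on the two lines `⟨e_1⟩`, `⟨e_-1⟩` (`sh_pm`) and `n0 ∈ M` exchanges them, so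
`|M| = 2 |NX ∩ M|`; `n0` does not commute with `e`, so `|C_M(e)| ≤ |M| / 2`.

`short_std`: `SF F` has only short roots and is closed (`Clo`).  If `SF F = ∅`: `propC` is in
another file, so here we assume `SF F ≠ ∅`.  Two short roots `a ≠ b`, `a ≠ ng b`: the sum of `a` and `b` is
a long root, or it is a short root `c` and `a + c` is a long root (finite check): contradiction.
So `SF F = {a}` or `{a, ng a}`; conjugate `a` to `6` (`NN_short`, `SF_cj`; then `ng a` goes to `7`),
`Std_cj`.
-/

namespace Pool.Agent.H40.GT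

variable {K : Type} [Field K]

theorem ShE2_tab : ∀ a b : Rt, 6 ≤ a.val → 6 ≤ b.val → b ≠ a → b ≠ ng a →
    (∃ c : Rt, c.val < 6 ∧ rt a + rt b = rt c) ∨
      ∃ c : Rt, rt a + rt b = rt c ∧ ∃ d : Rt, d.val < 6 ∧ rt a + rt c = rt d := by
  decide

theorem short_std (hK : Ok K) {F : Subgroup (EE K)} (hF : Ov F) (hS : ∀ r ∈ SF F, 6 ≤ r.val)
    (hne : (SF F).Nonempty) : Std F := by
  have h2 := ok_two hK
  obtain ⟨a, ha⟩ := hne
  have hcl : Cl (SF F) := Clo hK hF
  have hall : ∀ b ∈ SF F, b = a ∨ b = ng a := by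
    intro b hb
    by_contra hcon
    rw [not_or] at hcon
    rcases ShE2_tab a b (hS a ha) (hS b hb) hcon.1 hcon.2 with ⟨c, hc, h⟩ | ⟨c, h, d, hd, h'⟩
    · have h3 := hS c (hcl a ha b hb c h)
      omega
    · have hc := hcl a ha b hb c h
      have h3 := hS d (hcl a ha c hc d h')
      omega
  obtain ⟨g, hg, w, σ, τ, hM, hτ⟩ := NN_short h2 a 6 (hS a ha) (by decide)
  have hng : τ (ng a) = 7 := by
    have h3 : rt (τ (ng a)) = rt (ng (τ a)) := by
      rw [hM.mrt, rt_ng, map_neg, rt_ng, hM.mrt]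
    have h4 := rt_inj h3
    rw [h4, hτ]
    rfl
  apply Std_cj h2 hg hF
  by_cases hn : ng a ∈ SF F
  · have hSF : SF F = {a, ng a} := by
      ext b
      constructor
      · intro hb
        exact hall b hb
      · rintro (hb | hb)
        · rw [hb]
          exact ha
        · rw [Set.mem_singleton_iff] at hb
          rw [hb]
          exact hn
    apply short_two hK (Ov_cj h2 hg hF)
    rw [SF_cj hM, hSF, Set.image_pair, hτ, hng]
  · have hSF : SF F = {a} := by
      ext b
      rw [Set.mem_singleton_iff]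
      constructor
      · intro hb
        rcases hall b hb with h | h
        · exact h
        · rw [h] at hb
          exact absurd hb hn
      · intro hb
        rw [hb]
        exact ha
    apply short_one hK (Ov_cj h2 hg hF)
    rw [SF_cj hM, hSF, Set.image_singleton, hτ]

end Pool.Agent.H40.GT
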