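import Pool.Agent.H40.GT.LamG
import Pool.Agent.H40.GT.Cen

/-!
# Part StE1 (of StE1, StE2, StE3); GT-20 overgroups centralising an involution of the torus

`Std_e`: `F` commutes with `tor (1,-1)`.  Apply `RK` (`φ = lact`, `L = LB K`, `x0 = sp (ev 1)`,
`x1 = sp (ev 4)`, `U0 = {X 6 s}`, `U1 = {X 7 s}`) to `F`: `f = c * f'`, `c ∈ GS K (SF F)` (in the group
generated by the `X 6 s`, `X 7 s` in `F`), `f'` preserves `{x0, x1}`.  Let `F2` = the subgroup of the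
`f' ∈ F` preserving `{x0, x1}`; `TT ≤ F2`, and `X 4 s`, `X 5 s` fix `e_1`, `e_-1`.  Apply `RK` again to
`F2`, `L = LG K`, `x0' = lg 1 0`, `x1' = lg 0 1`, `U0 = {X 4 s}`, `U1 = {X 5 s}` (hypotheses from
`LG_hA` for `F`): `f' = c' * f''`, `c' ∈ GS K (SF F)`, `f'' ∈ F2` preserves `{x0', x1'}`.
`mono_e`: such an `f''` is in `NN`: it preserves `{⟨e_1⟩, ⟨e_-1⟩}`, so it preserves `⟨e_0⟩` (the
orthogonal space of these in `V_0`), `f'' e_0 = ± e_0` (`bf`), so it preserves or exchanges the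
eigenspaces `⟨e_1,e_2,e_3⟩` and `⟨e_-1,e_-2,e_-3⟩` of `br e_0` (eigenvalues `2`, `-2`); their
intersections with `⟨e_2, e_-3⟩`, `⟨e_3, e_-2⟩` are the coordinate lines of
`e_2, e_-3, e_3, e_-2`, which are permuted.  The same for the inverse.

`Std_ce`: for any involution: conjugate by an element of `NN` (`NN_rho` and its square permute
the three involutions; `inv_cases`), `Std_cj`.
-/

namespace Pool.Agent.H40.GT

variable {K : Type} [Field K]

theorem StE1_single {w : V K} (i : Fin 7) (h : ∀ k, k ≠ i → w k = 0) :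
    ∃ j, ∃ c : K, w = c • ev j := by
  refine ⟨i, w i, ?_⟩
  funext k
  rw [Pi.smul_apply, smul_eq_mul]
  by_cases hk : k = i
  · rw [hk, ev_same, mul_one]
  · rw [h k hk, ev_ne hk, mul_zero]

theorem StE1_br0 (y : V K) :
    br (ev 0) y = ![0, 2 * y 1, 2 * y 2, 2 * y 3, -(2 * y 4), -(2 * y 5), -(2 * y 6)] := by
  funext i
  fin_cases i <;> simp [br, ev]

theorem StE1_lg10 {x : V K} (hx : x ∈ (lg 1 0 : Submodule K (V K))) :
    ∀ i, i ≠ 2 → i ≠ 6 → x i = 0 := by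
  unfold lg at hx
  rw [Submodule.mem_span_pair] at hx
  obtain ⟨a, b, rfl⟩ := hx
  intro i h2 h6
  simp [ev_ne h2, ev_ne h6]

theorem StE1_lg01 {x : V K} (hx : x ∈ (lg 0 1 : Submodule K (V K))) :
    ∀ i, i ≠ 3 → i ≠ 5 → x i = 0 := by
  unfold lg at hx
  rw [Submodule.mem_span_pair] at hx
  obtain ⟨a, b, rfl⟩ := hx
  intro i h3 h5
  simp [ev_ne h3, ev_ne h5]

theorem StE1_m2 : (ev 2 : V K) ∈ (lg 1 0 : Submodule K (V K)) := by
  unfold lg
  rw [Submodule.mem_span_pair]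
  exact ⟨1, 0, by simp⟩

theorem StE1_m6 : (ev 6 : V K) ∈ (lg 1 0 : Submodule K (V K)) := by
  unfold lg
  rw [Submodule.mem_span_pair]
  exact ⟨0, 1, by simp⟩

theorem StE1_m3 : (ev 3 : V K) ∈ (lg 0 1 : Submodule K (V K)) := by
  unfold lg
  rw [Submodule.mem_span_pair]
  exact ⟨1, 0, by simp⟩

theorem StE1_m5 : (ev 5 : V K) ∈ (lg 0 1 : Submodule K (V K)) := by
  unfold lg
  rw [Submodule.mem_span_pair]
  exact ⟨0, -1, by simp⟩

theorem StE1_map {f : EE K} {W W' : Submodule K (V K)} (h : lact f W = W') {x : V K}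
    (hx : x ∈ W) : f x ∈ W' := by
  rw [← h, lact_apply]
  exact Submodule.mem_map_of_mem hx

theorem StE1_line {f : EE K} {i j : Fin 7} (h : lact f (sp (ev i)) = sp (ev j)) :
    ∃ c : K, f (ev i) = c • ev j := by
  have h1 := StE1_map h (Submodule.mem_span_singleton_self (ev i : V K))
  obtain ⟨c, hc⟩ := Submodule.mem_span_singleton.1 h1
  exact ⟨c, hc.symm⟩

theorem StE1_half (hK : Ok K) {f : EE K} (hf : f ∈ GG K)
    (he : f * tor (1, -1) = tor (1, -1) * f)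
    (h1 : (lact f (sp (ev 1)) = sp (ev 1) ∧ lact f (sp (ev 4)) = sp (ev 4)) ∨
      (lact f (sp (ev 1)) = sp (ev 4) ∧ lact f (sp (ev 4)) = sp (ev 1)))
    (h2 : (lact f (lg 1 0) = lg 1 0 ∧ lact f (lg 0 1) = lg 0 1) ∨
      (lact f (lg 1 0) = lg 0 1 ∧ lact f (lg 0 1) = lg 1 0)) :
    ∀ j, ∃ i, ∃ c : K, f (ev j) = c • ev i := by
  have hK2 := ok_two hK
  have hm1 : (1 : Kˣ) ≠ -1 := by
    intro h
    have h3 := congrArg Units.val h
    rw [Units.val_neg, Units.val_one] at h3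
    exact hK2 (by linear_combination h3)
  have hne : ∀ j, f (ev j) ≠ 0 := by
    intro j h
    have h3 := (map_eq_zero_iff f f.injective).1 h
    have h4 := congrFun h3 j
    rw [ev_same] at h4
    exact one_ne_zero h4
  -- images of `ev 1`, `ev 4`
  obtain ⟨i1, i4, c1, c4, e1, e4, hi⟩ : ∃ i1 i4 : Fin 7, ∃ c1 c4 : K, f (ev 1) = c1 • ev i1 ∧
      f (ev 4) = c4 • ev i4 ∧ ((i1 = 1 ∧ i4 = 4) ∨ (i1 = 4 ∧ i4 = 1)) := by
    rcases h1 with ⟨h3, h4⟩ | ⟨h3, h4⟩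
    · obtain ⟨c1, e1⟩ := StE1_line h3
      obtain ⟨c4, e4⟩ := StE1_line h4
      exact ⟨1, 4, c1, c4, e1, e4, Or.inl ⟨rfl, rfl⟩⟩
    · obtain ⟨c1, e1⟩ := StE1_line h3
      obtain ⟨c4, e4⟩ := StE1_line h4
      exact ⟨4, 1, c1, c4, e1, e4, Or.inr ⟨rfl, rfl⟩⟩
  have hc1 : c1 ≠ 0 := by
    rintro rfl
    exact hne 1 (by rw [e1, zero_smul])
  have hc4 : c4 ≠ 0 := by
    rintro rfl
    exact hne 4 (by rw [e4, zero_smul])
  -- image of `ev 0`
  have b1 : c1 * bf (f (ev 0)) (ev i1) = 0 := by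
    have h3 := hf.2 (ev 0) (ev 1)
    rw [e1] at h3
    have h5 : bf (ev 0 : V K) (ev 1) = 0 := by simp [bf, ev]
    rw [h5] at h3
    rw [← h3]
    simp [bf]
    ring
  have b4 : c4 * bf (f (ev 0)) (ev i4) = 0 := by
    have h3 := hf.2 (ev 0) (ev 4)
    rw [e4] at h3
    have h5 : bf (ev 0 : V K) (ev 4) = 0 := by simp [bf, ev]
    rw [h5] at h3
    rw [← h3]
    simp [bf]
    ring
  have b1' := (mul_eq_zero.1 b1).resolve_left hc1
  have b4' := (mul_eq_zero.1 b4).resolve_left hc4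
  have q1 : ∀ x : V K, bf x (ev 1) = x 4 := by
    intro x
    simp [bf, ev]
  have q4 : ∀ x : V K, bf x (ev 4) = x 1 := by
    intro x
    simp [bf, ev]
  have z14 : f (ev 0) 1 = 0 ∧ f (ev 0) 4 = 0 := by
    rcases hi with ⟨rfl, rfl⟩ | ⟨rfl, rfl⟩
    · rw [q1] at b1'
      rw [q4] at b4'
      exact ⟨b4', b1'⟩
    · rw [q4] at b1'
      rw [q1] at b4'
      exact ⟨b1', b4'⟩
  have hch : ∀ i j : Fin 7, (i = 0 ∨ i = 1 ∨ i = 4) → (j = 2 ∨ j = 3 ∨ j = 5 ∨ j = 6) →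
      ch (wt i) ((1 : Kˣ), (-1 : Kˣ)) ≠ ch (wt j) ((1 : Kˣ), (-1 : Kˣ)) := by
    intro i j hi hj
    rcases hi with rfl | rfl | rfl <;> rcases hj with rfl | rfl | rfl | rfl <;>
      simp [ch, wt, hm1]
  have z0 : ∀ k, k ≠ 0 → f (ev 0) k = 0 := by
    intro k hk
    have hk' : k = 1 ∨ k = 4 ∨ (k = 2 ∨ k = 3 ∨ k = 5 ∨ k = 6) := by
      revert hk
      revert k
      decide
    rcases hk' with rfl | rfl | hk'
    · exact z14.1
    · exact z14.2
    · exact Cen_eig he (hch 0 k (Or.inl rfl) hk').symm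
  set d := f (ev 0) 0 with hd
  have e0 : f (ev 0) = d • ev 0 := by
    funext k
    rw [Pi.smul_apply, smul_eq_mul]
    by_cases hk : k = 0
    · rw [hk, ev_same, mul_one]
    · rw [z0 k hk, ev_ne hk, mul_zero]
  have hd2 : d = 1 ∨ d = -1 := by
    have h3 := hf.2 (ev 0) (ev 0)
    rw [e0] at h3
    have h4 : 2 * (d * d) = 2 * 1 := by
      simpa [bf, ev, mul_assoc] using h3
    have h5 := mul_left_cancel₀ hK2 h4
    exact mul_self_eq_one_iff.1 h5
  -- eigenspaces of `br (ev 0)`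
  have hbr : ∀ (s : K) (j : Fin 7), br (ev 0 : V K) (ev j) = (2 * s) • ev j →
      ∀ w : V K, w = f (ev j) → (d * w 1 = s * w 1 ∧ d * w 2 = s * w 2 ∧ d * w 3 = s * w 3 ∧
        d * w 4 = -(s * w 4) ∧ d * w 5 = -(s * w 5) ∧ d * w 6 = -(s * w 6)) := by
    intro s j hj w hw
    have h3 := hf.1 (ev 0) (ev j)
    rw [hj, map_smul, e0, ← hw] at h3
    have h4 : br (d • ev 0) w = d • br (ev 0) w := by
      funext i
      fin_cases i <;> simp [br, ev] <;> ring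
    rw [h4, StE1_br0] at h3
    have g1 := congrFun h3 1
    have g2 := congrFun h3 2
    have g3 := congrFun h3 3
    have g4 := congrFun h3 4
    have g5 := congrFun h3 5
    have g6 := congrFun h3 6
    simp at g1 g2 g3 g4 g5 g6
    refine ⟨?_, ?_, ?_, ?_, ?_, ?_⟩ <;> apply mul_left_cancel₀ hK2
    · linear_combination -g1
    · linear_combination -g2
    · linear_combination -g3
    · linear_combination g4
    · linear_combination g5
    · linear_combination g6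
  have dne : ∀ {a : K}, a = -a → a = 0 := by
    intro a ha
    have : (2 : K) * a = 0 := by linear_combination ha
    exact (mul_eq_zero.1 this).resolve_left hK2
  have key : ∀ (w : V K), ((∀ i, i ≠ 2 → i ≠ 6 → w i = 0) ∨ (∀ i, i ≠ 3 → i ≠ 5 → w i = 0)) →
      ((w 2 = 0 ∧ w 3 = 0) ∨ (w 5 = 0 ∧ w 6 = 0)) → ∃ i, ∃ c : K, w = c • ev i := by
    intro w hw1 hw2
    rcases hw1 with hw1 | hw1 <;> rcases hw2 with ⟨hw2, hw3⟩ | ⟨hw2, hw3⟩
    · refine StE1_single 6 fun k hk => ?_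
      by_cases h : k = 2
      · rw [h, hw2]
      · exact hw1 k h hk
    · refine StE1_single 2 fun k hk => ?_
      by_cases h : k = 6
      · rw [h, hw3]
      · exact hw1 k hk h
    · refine StE1_single 5 fun k hk => ?_
      by_cases h : k = 3
      · rw [h, hw3]
      · exact hw1 k h hk
    · refine StE1_single 3 fun k hk => ?_
      by_cases h : k = 5
      · rw [h, hw2]
      · exact hw1 k hk h
  have hpos : ∀ j : Fin 7, br (ev 0 : V K) (ev j) = (2 * (1 : K)) • ev j →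
      (f (ev j) 2 = 0 ∧ f (ev j) 3 = 0) ∨ (f (ev j) 5 = 0 ∧ f (ev j) 6 = 0) := by
    intro j hj
    obtain ⟨-, g2, g3, -, g5, g6⟩ := hbr 1 j hj _ rfl
    rcases hd2 with h | h
    · right
      rw [h] at g5 g6
      exact ⟨dne (by linear_combination g5), dne (by linear_combination g6)⟩
    · left
      rw [h] at g2 g3
      exact ⟨dne (by linear_combination -g2), dne (by linear_combination -g3)⟩
  have hneg : ∀ j : Fin 7, br (ev 0 : V K) (ev j) = (2 * (-1 : K)) • ev j →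
      (f (ev j) 2 = 0 ∧ f (ev j) 3 = 0) ∨ (f (ev j) 5 = 0 ∧ f (ev j) 6 = 0) := by
    intro j hj
    obtain ⟨-, g2, g3, -, g5, g6⟩ := hbr (-1) j hj _ rfl
    rcases hd2 with h | h
    · left
      rw [h] at g2 g3
      exact ⟨dne (by linear_combination g2), dne (by linear_combination g3)⟩
    · right
      rw [h] at g5 g6
      exact ⟨dne (by linear_combination -g5), dne (by linear_combination -g6)⟩
  have r2 : br (ev 0 : V K) (ev 2) = (2 * (1 : K)) • ev 2 := by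
    rw [StE1_br0]
    funext i
    fin_cases i <;> simp [ev]
  have r3 : br (ev 0 : V K) (ev 3) = (2 * (1 : K)) • ev 3 := by
    rw [StE1_br0]
    funext i
    fin_cases i <;> simp [ev]
  have r5 : br (ev 0 : V K) (ev 5) = (2 * (-1 : K)) • ev 5 := by
    rw [StE1_br0]
    funext i
    fin_cases i <;> simp [ev]
  have r6 : br (ev 0 : V K) (ev 6) = (2 * (-1 : K)) • ev 6 := by
    rw [StE1_br0]
    funext i
    fin_cases i <;> simp [ev]
  have m10 : ∀ x ∈ (lg 1 0 : Submodule K (V K)),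
      (∀ i, i ≠ 2 → i ≠ 6 → f x i = 0) ∨ (∀ i, i ≠ 3 → i ≠ 5 → f x i = 0) := by
    intro x hx
    rcases h2 with ⟨h3, -⟩ | ⟨h3, -⟩
    · exact Or.inl (StE1_lg10 (StE1_map h3 hx))
    · exact Or.inr (StE1_lg01 (StE1_map h3 hx))
  have m01 : ∀ x ∈ (lg 0 1 : Submodule K (V K)),
      (∀ i, i ≠ 2 → i ≠ 6 → f x i = 0) ∨ (∀ i, i ≠ 3 → i ≠ 5 → f x i = 0) := by
    intro x hx
    rcases h2 with ⟨-, h3⟩ | ⟨-, h3⟩
    · exact Or.inr (StE1_lg01 (StE1_map h3 hx))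
    · exact Or.inl (StE1_lg10 (StE1_map h3 hx))
  intro j
  fin_cases j
  · exact ⟨0, d, e0⟩
  · exact ⟨i1, c1, e1⟩
  · exact key _ (m10 _ StE1_m2) (hpos 2 r2)
  · exact key _ (m01 _ StE1_m3) (hpos 3 r3)
  · exact ⟨i4, c4, e4⟩
  · exact key _ (m01 _ StE1_m5) (hneg 5 r5)
  · exact key _ (m10 _ StE1_m6) (hneg 6 r6)

theorem mono_e (hK : Ok K) {f : EE K} (hf : f ∈ GG K)
    (he : f * tor (1, -1) = tor (1, -1) * f)
    (h1 : (lact f (sp (ev 1)) = sp (ev 1) ∧ lact f (sp (ev 4)) = sp (ev 4)) ∨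
      (lact f (sp (ev 1)) = sp (ev 4) ∧ lact f (sp (ev 4)) = sp (ev 1)))
    (h2 : (lact f (lg 1 0) = lg 1 0 ∧ lact f (lg 0 1) = lg 0 1) ∨
      (lact f (lg 1 0) = lg 0 1 ∧ lact f (lg 0 1) = lg 1 0)) : f ∈ NN K := by
  have hinv : ∀ {W W' : Submodule K (V K)}, lact f W = W' → lact f⁻¹ W' = W := by
    intro W W' h
    rw [map_inv, ← h]
    exact (lact f).symm_apply_apply W
  refine ⟨hf, StE1_half hK hf he h1 h2, StE1_half hK (inv_mem hf) ?_ ?_ ?_⟩
  · rw [inv_mul_eq_iff_eq_mul, ← mul_assoc, he, mul_inv_cancel_right]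
  · rcases h1 with ⟨h3, h4⟩ | ⟨h3, h4⟩
    · exact Or.inl ⟨hinv h3, hinv h4⟩
    · exact Or.inr ⟨hinv h4, hinv h3⟩
  · rcases h2 with ⟨h3, h4⟩ | ⟨h3, h4⟩
    · exact Or.inl ⟨hinv h3, hinv h4⟩
    · exact Or.inr ⟨hinv h4, hinv h3⟩

end Pool.Agent.H40.GT
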