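import Pool.Agent.H40.GT.StE1

/-!
# Part StE2 (of StE1, StE2, StE3); GT-20 overgroups centralising an involution of the torus

`Std_e`: `F` commutes with `tor (1,-1)`.  Apply `RK` (`φ = lact`, `L = LB K`, `x0 = sp (ev 1)`,
`x1 = sp (ev 4)`, `U0 = {X 6 s}`, `U1 = {X 7 s}`) to `F`: `f = c * f'`, `c ∈ GS K (SF F)` (in the group
generated by the `X 6 s`, `X 7 s` in `F`), `f'` preserves `{x0, x1}`.  Let `F2` = the subgroup of the
`f' ∈ F` preserving `{x0, x1}`; `TT ≤ F2`, and `X 4 s`, `X 5 s` fix `e_1`, `e_-1`.  Apply `RK` again to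
`F2`, `L = LG K`, `x0' = lg 1 0`, `x1' = lg 0 1`, `U0 = {X 4 s}`, `U1 = {X 5 s}` (hypotheses from
`LG_hA` for `F`): `f' = c' * f''`, `c' ∈ GS K (SF F)`, `f'' ∈ F2` preserves `{x0', x1'}`.
`mono_e`: such an `f''` is in `NN`: it preserves `{⟨e_1⟩, ⟨e_-1⟩}`, so it preserves `⟨e_0⟩` (the
orthogonal space of these in `V_0`), `f'' e_0 = ± e_0` (`bf`), so it preserves or exchanges the
eigenspaces `⟨e_1,e_2,e_3⟩` and `⟨e_-1,e_-2,e_-3⟩` of `br e_0` (eigenvalues `2`, `-2`); their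
intersections with `⟨e_2, e_-3⟩`, `⟨e_3, e_-2⟩` are the coordinate lines of
`e_2, e_-3, e_3, e_-2`, which are permuted.  The same for the inverse.

`Std_ce`: for any involution: conjugate by an element of `NN` (`NN_rho` and its square permute
the three involutions; `inv_cases`), `Std_cj`.
-/

namespace Pool.Agent.H40.GT

variable {K : Type} [Field K]

/-- the root group of `r` -/
def StE2_U (K : Type) [Field K] (r : Rt) : Subgroup (EE K) where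
  carrier := {g | ∃ s : K, g = X r s}
  one_mem' := ⟨0, (X_zero r).symm⟩
  mul_mem' := by
    rintro a b ⟨s, rfl⟩ ⟨t, rfl⟩
    exact ⟨s + t, X_mul r s t⟩
  inv_mem' := by
    rintro a ⟨s, rfl⟩
    exact ⟨-s, X_inv r s⟩

theorem StE2_U_le {F : Subgroup (EE K)} {r : Rt} (h : r ∈ SF F) : StE2_U K r ≤ F := by
  rintro g ⟨s, rfl⟩
  exact h s

theorem StE2_le_U {F : Subgroup (EE K)} {r : Rt} (h : StE2_U K r ≤ F) : r ∈ SF F :=
  fun s => h ⟨s, rfl⟩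

theorem StE2_clo {F F2 : Subgroup (EE K)} (hle : F2 ≤ F) (r r' : Rt) {c : EE K}
    (hc : c ∈ Subgroup.closure {u | (u ∈ StE2_U K r ∧ StE2_U K r ≤ F2) ∨
      (u ∈ StE2_U K r' ∧ StE2_U K r' ≤ F2)}) : c ∈ GS K (SF F) := by
  refine (Subgroup.closure_le (GS K (SF F))).2 ?_ hc
  rintro u (⟨⟨s, rfl⟩, h⟩ | ⟨⟨s, rfl⟩, h⟩)
  · exact X_mem_GS (StE2_le_U (h.trans hle)) s
  · exact X_mem_GS (StE2_le_U (h.trans hle)) s

theorem StE2_sp {g : EE K} {j : Fin 7} {c : K} (hc : c ≠ 0) (h : g (ev j) = c • ev j) :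
    lact g (sp (ev j)) = sp (ev j) := by
  rw [lact_apply, Submodule.map_span, Set.image_singleton]
  have h1 : (g : V K →ₗ[K] V K) (ev j) = c • ev j := h
  rw [h1]
  exact Submodule.span_singleton_smul_eq (IsUnit.mk0 c hc) _

theorem StE2_T {t : EE K} (ht : t ∈ TT K) (j : Fin 7) : lact t (sp (ev j)) = sp (ev j) := by
  obtain ⟨p, rfl⟩ := ht
  exact StE2_sp (Units.ne_zero _) (tor_ev p j)

theorem StE2_X41 (s : K) : X 4 s (ev 1) = (1 : K) • ev 1 := by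
  ext i
  rw [X_apply]
  fin_cases i <;> simp [cc, sc, qc, qs, ev]

theorem StE2_X44 (s : K) : X 4 s (ev 4) = (1 : K) • ev 4 := by
  ext i
  rw [X_apply]
  fin_cases i <;> simp [cc, sc, qc, qs, ev]

theorem StE2_X51 (s : K) : X 5 s (ev 1) = (1 : K) • ev 1 := by
  ext i
  rw [X_apply]
  fin_cases i <;> simp [cc, sc, qc, qs, ev]

theorem StE2_X54 (s : K) : X 5 s (ev 4) = (1 : K) • ev 4 := by
  ext i
  rw [X_apply]
  fin_cases i <;> simp [cc, sc, qc, qs, ev]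

/-- preserving the pair of isotropic points -/
def StE2_P (f : EE K) : Prop :=
  (lact f (sp (ev 1)) = sp (ev 1) ∧ lact f (sp (ev 4)) = sp (ev 4)) ∨
    (lact f (sp (ev 1)) = sp (ev 4) ∧ lact f (sp (ev 4)) = sp (ev 1))

/-- the elements of `F` preserving the pair of isotropic points -/
def StE2_F2 (F : Subgroup (EE K)) : Subgroup (EE K) where
  carrier := {f | f ∈ F ∧ StE2_P f}
  one_mem' := ⟨one_mem _, Or.inl ⟨by rw [map_one]; rfl, by rw [map_one]; rfl⟩⟩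
  mul_mem' := by
    rintro a b ⟨ha, ha'⟩ ⟨hb, hb'⟩
    refine ⟨mul_mem ha hb, ?_⟩
    unfold StE2_P
    rw [map_mul, Equiv.Perm.mul_apply, Equiv.Perm.mul_apply]
    rcases ha' with ⟨h1, h2⟩ | ⟨h1, h2⟩ <;> rcases hb' with ⟨h3, h4⟩ | ⟨h3, h4⟩ <;>
      rw [h3, h4, h1, h2] <;> simp
  inv_mem' := by
    rintro a ⟨ha, ha'⟩
    refine ⟨inv_mem ha, ?_⟩
    unfold StE2_P
    rw [map_inv]
    rcases ha' with ⟨h1, h2⟩ | ⟨h1, h2⟩
    · exact Or.inl ⟨Equiv.Perm.inv_eq_iff_eq.2 h1.symm, Equiv.Perm.inv_eq_iff_eq.2 h2.symm⟩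
    · exact Or.inr ⟨Equiv.Perm.inv_eq_iff_eq.2 h2.symm, Equiv.Perm.inv_eq_iff_eq.2 h1.symm⟩

theorem StE2_eight (hK : Ok K) : 8 ≤ Nat.card K + 1 := by
  rcases hK with h | h <;> omega

theorem StE2_one (hK : Ok K) {F : Subgroup (EE K)} (hF : Ov F) (hE : CEo F) :
    ∀ f ∈ F, ∃ c ∈ F, c ∈ GS K (SF F) ∧ StE2_P (c⁻¹ * f) := by
  have key := RK (lact (K := K) (M := V K)) F (TT K) hF.1
    (fun s hs t ht => TT_comm s t hs ht) (LB K) (LB_fin hK)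
    (by rw [LB_card hK]; exact StE2_eight hK)
    (fun f hf W hW => LB_F hK (hF.2 hf) (hE f hf) hW) LB_ev1 LB_ev4 LB_ne
    (fun t ht => StE2_T ht 1) (fun t ht => StE2_T ht 4)
    (fun W hW W' hW' h1 h2 h3 h4 => LB_tt hK hW hW' h1 h2 h3 h4)
    (fun f hf ⟨A, hA, B, hB, C, hC, h1, h2, h3, h4, h5, h6⟩ =>
      LB_three hK (hF.2 hf) (hE f hf) hA hB hC h1 h2 h3 h4 h5 h6)
    (StE2_U K 6) (StE2_U K 7)
    (by rintro u ⟨s, rfl⟩; exact LB_U0 hK s) (by rintro u ⟨s, rfl⟩; exact LB_U1 hK s)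
    (by
      intro W hW W' hW' h1 h2
      obtain ⟨s, hs⟩ := LB_U0t hK hW hW' h1 h2
      exact ⟨_, ⟨s, rfl⟩, hs⟩)
    (by
      intro W hW W' hW' h1 h2
      obtain ⟨s, hs⟩ := LB_U1t hK hW hW' h1 h2
      exact ⟨_, ⟨s, rfl⟩, hs⟩)
    (fun f hf h1 h2 => StE2_U_le (LB_hA hK hF hE hf h1 h2))
    (fun f hf h1 h2 => StE2_U_le (LB_hB hK hF hE hf h1 h2))
  intro f hf
  obtain ⟨c, hcF, hc, h⟩ := key f hf
  exact ⟨c, hcF, StE2_clo le_rfl 6 7 hc, h⟩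

theorem StE2_two (hK : Ok K) {F : Subgroup (EE K)} (hF : Ov F) (hE : CEo F) :
    ∀ f ∈ StE2_F2 F, ∃ c ∈ StE2_F2 F, c ∈ GS K (SF F) ∧
      ((lact (c⁻¹ * f) (lg 1 0) = lg 1 0 ∧ lact (c⁻¹ * f) (lg 0 1) = lg 0 1) ∨
        (lact (c⁻¹ * f) (lg 1 0) = lg 0 1 ∧ lact (c⁻¹ * f) (lg 0 1) = lg 1 0)) := by
  have hle : StE2_F2 F ≤ F := fun f hf => hf.1
  have key := RK (lact (K := K) (M := V K)) (StE2_F2 F) (TT K)
    (fun t ht => ⟨hF.1 ht, Or.inl ⟨StE2_T ht 1, StE2_T ht 4⟩⟩)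
    (fun s hs t ht => TT_comm s t hs ht) (LG K) (LG_fin hK)
    (by rw [LG_card hK]; exact StE2_eight hK)
    (fun f hf W hW => LG_F hK (hF.2 hf.1) (hE f hf.1) hW)
    (x0 := lg 1 0) (x1 := lg 0 1) ⟨1, 0, Or.inl one_ne_zero, rfl⟩
    ⟨0, 1, Or.inr one_ne_zero, rfl⟩ LG_ne
    (fun t ht => (LG_T ht).1) (fun t ht => (LG_T ht).2)
    (fun W hW W' hW' h1 h2 h3 h4 => LG_tt hK hW hW' h1 h2 h3 h4)
    (fun f hf ⟨A, hA, B, hB, C, hC, h1, h2, h3, h4, h5, h6⟩ =>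
      LG_three hK (hF.2 hf.1) (hE f hf.1) hA hB hC h1 h2 h3 h4 h5 h6)
    (StE2_U K 4) (StE2_U K 5)
    (by rintro u ⟨s, rfl⟩; exact LG_U0 s) (by rintro u ⟨s, rfl⟩; exact LG_U1 s)
    (by
      intro W hW W' hW' h1 h2
      obtain ⟨s, hs⟩ := LG_U0t hK hW hW' h1 h2
      exact ⟨_, ⟨s, rfl⟩, hs⟩)
    (by
      intro W hW W' hW' h1 h2
      obtain ⟨s, hs⟩ := LG_U1t hK hW hW' h1 h2
      exact ⟨_, ⟨s, rfl⟩, hs⟩)
    (by
      rintro f hf h1 h2 u ⟨s, rfl⟩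
      exact ⟨LG_hA hK hF hE hf.1 h1 h2 s,
        Or.inl ⟨StE2_sp one_ne_zero (StE2_X41 s), StE2_sp one_ne_zero (StE2_X44 s)⟩⟩)
    (by
      rintro f hf h1 h2 u ⟨s, rfl⟩
      exact ⟨LG_hB hK hF hE hf.1 h1 h2 s,
        Or.inl ⟨StE2_sp one_ne_zero (StE2_X51 s), StE2_sp one_ne_zero (StE2_X54 s)⟩⟩)
  intro f hf
  obtain ⟨c, hcF, hc, h⟩ := key f hf
  exact ⟨c, hcF, StE2_clo hle 4 5 hc, h⟩

theorem Std_e (hK : Ok K) {F : Subgroup (EE K)} (hF : Ov F) (hE : CEo F) : Std F := by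
  intro f hf
  obtain ⟨c, hcF, hc, h1⟩ := StE2_one hK hF hE f hf
  have hf2 : c⁻¹ * f ∈ StE2_F2 F := ⟨mul_mem (inv_mem hcF) hf, h1⟩
  obtain ⟨d, hdF, hd, h2⟩ := StE2_two hK hF hE _ hf2
  have h3 : d⁻¹ * (c⁻¹ * f) ∈ StE2_F2 F := mul_mem (inv_mem hdF) hf2
  refine ⟨c * d, mul_mem hc hd, ?_⟩
  rw [mul_inv_rev, mul_assoc]
  exact mono_e hK (hF.2 h3.1) (hE _ h3.1) h3.2 h2

end Pool.Agent.H40.GT
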