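import Pool.Agent.H40.GT.StE2

/-!
# Part StE3 (of StE1, StE2, StE3); GT-20 overgroups centralising an involution of the torus

`Std_e`: `F` commutes with `tor (1,-1)`.  Apply `RK` (`φ = lact`, `L = LB K`, `x0 = sp (ev 1)`,
`x1 = sp (ev 4)`, `U0 = {X 6 s}`, `U1 = {X 7 s}`) to `F`: `f = c * f'`, `c ∈ GS K (SF F)` (in the group
generated by the `X 6 s`, `X 7 s` in `F`), `f'` preserves `{x0, x1}`.  Let `F2` = the subgroup of the
`f' ∈ F` preserving `{x0, x1}`; `TT ≤ F2`, and `X 4 s`, `X 5 s` fix `e_1`, `e_-1`.  Apply `RK` again to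
`F2`, `L = LG K`, `x0' = lg 1 0`, `x1' = lg 0 1`, `U0 = {X 4 s}`, `U1 = {X 5 s}` (hypotheses from
`LG_hA` for `F`): `f' = c' * f''`, `c' ∈ GS K (SF F)`, `f'' ∈ F2` preserves `{x0', x1'}`.
`mono_e`: such an `f''` is in `NN`: it preserves `{⟨e_1⟩, ⟨e_-1⟩}`, so it preserves `⟨e_0⟩` (the
orthogonal space of these in `V_0`), `f'' e_0 = ± e_0` (`bf`), so it preserves or exchanges the
eigenspaces `⟨e_1,e_2,e_3⟩` and `⟨e_-1,e_-2,e_-3⟩` of `br e_0` (eigenvalues `2`, `-2`); their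
intersections with `⟨e_2, e_-3⟩`, `⟨e_3, e_-2⟩` are the coordinate lines of
`e_2, e_-3, e_3, e_-2`, which are permuted.  The same for the inverse.

`Std_ce`: for any involution: conjugate by an element of `NN` (`NN_rho` and its square permute
the three involutions; `inv_cases`), `Std_cj`.
-/

namespace Pool.Agent.H40.GT

variable {K : Type} [Field K]

theorem StE3_step {F : Subgroup (EE K)} {n : EE K} {e e' : Kˣ × Kˣ}
    (h : n * tor e * n⁻¹ = tor e') (hc : ∀ f ∈ F, f * tor e = tor e * f) :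
    ∀ f ∈ cj n F, f * tor e' = tor e' * f := by
  intro f hf
  rw [mem_cj] at hf
  have h1 := hc _ hf
  calc f * tor e' = n * ((n⁻¹ * f * n) * tor e) * n⁻¹ := by rw [← h]; group
    _ = n * (tor e * (n⁻¹ * f * n)) * n⁻¹ := by rw [h1]
    _ = tor e' * f := by rw [← h]; group

/-- the cyclic permutation of the three involutions -/
theorem StE3_rho (h2 : (2 : K) ≠ 0) : ∃ n ∈ NN K, ∀ t : Kˣ × Kˣ,
    n * tor t * n⁻¹ = tor ((t.1 * t.2)⁻¹, t.1) := by
  obtain ⟨n, hn, -, w, σ, τ, hM, hw1, hw2⟩ := NN_rho h2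
  refine ⟨n, hn, fun t => ?_⟩
  obtain ⟨t', h3, h4⟩ := hM.mtor t
  have h5 := h4 (1, 0)
  have h6 := h4 (0, 1)
  rw [hw1] at h5
  rw [hw2] at h6
  simp only [ch, zpow_zero, zpow_one, one_mul, mul_one, zpow_neg_one] at h5 h6
  have h7 : t' = ((t.1 * t.2)⁻¹, t.1) := by
    refine Prod.ext ?_ h5
    show t'.1 = (t.1 * t.2)⁻¹
    rw [← h6, ← h5, mul_inv, mul_inv, inv_inv, inv_inv, mul_comm t'.1, inv_mul_cancel_left]
  rw [h3, h7]

theorem Std_ce (hK : Ok K) {F : Subgroup (EE K)} (hF : Ov F) {e : Kˣ × Kˣ} (he : e ≠ 1)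
    (he2 : e ^ 2 = 1) (h : ∀ f ∈ F, f * tor e = tor e * f) : Std F := by
  have h2 := ok_two hK
  obtain ⟨n, hn, hr⟩ := StE3_rho h2
  have key : ∀ F' : Subgroup (EE K), Ov F' →
      (∀ f ∈ F', f * tor ((-1 : Kˣ), (-1 : Kˣ)) = tor ((-1 : Kˣ), (-1 : Kˣ)) * f) → Std F' := by
    intro F' hF' h'
    apply Std_cj h2 hn hF'
    apply Std_e hK (Ov_cj h2 hn hF')
    have h3 : n * tor ((-1 : Kˣ), (-1 : Kˣ)) * n⁻¹ = tor ((1 : Kˣ), (-1 : Kˣ)) := by
      rw [hr]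
      simp
    exact StE3_step h3 h'
  rcases inv_cases hK he he2 with h3 | h3 | h3
  · rw [h3] at h
    exact Std_e hK hF h
  · rw [h3] at h
    apply Std_cj h2 hn hF
    apply key _ (Ov_cj h2 hn hF)
    have h4 : n * tor ((-1 : Kˣ), (1 : Kˣ)) * n⁻¹ = tor ((-1 : Kˣ), (-1 : Kˣ)) := by
      rw [hr]
      simp
    exact StE3_step h4 h
  · rw [h3] at h
    exact key F hF h

end Pool.Agent.H40.GT
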