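import Pool.Agent.H40.GT.Fil

/-!
# GT-11 stabilisers of a coordinate point and of a special coordinate line

Point: `g e_1 = c e_1` (`g ∈ GG`).  Degrees for `d = (2,-1)`: `e_1: 2`, `e_-2, e_-3: 1`, `e_0: 0`,
`e_2, e_3: -1`, `e_-1: -2`.  `g` preserves `⟨e_1⟩`, `ker (br e_1) = ⟨e_1, e_-2, e_-3⟩` (as
`br (g e_1) (g x) = g (br e_1 x)`), the orthogonal space of this for `bf`:
`⟨e_1, e_-2, e_-3, e_0⟩`, and `e_1^⊥` = all coordinates except `e_-1`.  So `PD_of` applies.
(Use `2 ≠ 0`.)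

Line: `g` maps `⟨e_1, e_-2⟩` into itself.  Degrees for `d = (1,-1)`: `e_1, e_-2: 1`,
`e_0, e_3, e_-3: 0`, `e_2, e_-1: -1`.  `g` preserves the orthogonal space
`⟨e_1, e_-2, e_0, e_3, e_-3⟩`: `PD_of` applies.
-/

namespace Pool.Agent.H40.GT

variable {K : Type} [Field K]

theorem StP_br1 (y : V K) : br (ev 1) y = ![y 4, -2 * y 0, 0, 0, 0, -2 * y 3, 2 * y 2] := by
  funext i
  fin_cases i <;> simp [br, ev]

theorem StP_bf_ev (x : V K) (j : Fin 7) :
    bf x (ev j) = (![2 * x 0, x 4, x 5, x 6, x 1, x 2, x 3] : V K) j := by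
  fin_cases j <;> simp [bf, ev]

theorem StP_ev_bf (x : V K) (j : Fin 7) :
    bf (ev j) x = (![2 * x 0, x 4, x 5, x 6, x 1, x 2, x 3] : V K) j := by
  fin_cases j <;> simp [bf, ev]

theorem StP_ev (i j : Fin 7) : (ev j : V K) i = if i = j then 1 else 0 := by
  unfold ev
  rw [Pi.single_apply]

theorem StP_inv (g : EE K) (x : V K) : g (g⁻¹ x) = x := g.apply_symm_apply x

theorem StP_adj {g : EE K} (hg : g ∈ GG K) (x y : V K) : bf (g x) y = bf x (g⁻¹ y) := by
  rw [← hg.2 x, StP_inv]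

theorem StP_ker (h2 : (2 : K) ≠ 0) {g : EE K} (hg : g ∈ GG K) {c : K} (hc : c ≠ 0)
    (h : g (ev 1) = c • ev 1) {x : V K} (hx : br (ev 1) x = 0) :
    g x 4 = 0 ∧ g x 0 = 0 ∧ g x 3 = 0 ∧ g x 2 = 0 := by
  have h1 := hg.1 (ev 1) x
  rw [hx, map_zero, h] at h1
  have h3 : br (c • ev 1) (g x) = c • br (ev 1) (g x) := by
    funext i
    fin_cases i <;> simp [br, ev] <;> ring
  rw [h3] at h1
  have h4 : br (ev 1) (g x) = 0 := by
    rcases smul_eq_zero.1 h1.symm with h5 | h5
    · exact absurd h5 hc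
    · exact h5
  rw [StP_br1] at h4
  have e0 := congrFun h4 0
  have e1 := congrFun h4 1
  have e5 := congrFun h4 5
  have e6 := congrFun h4 6
  simp at e0 e1 e5 e6
  exact ⟨e0, e1.resolve_left h2, e5.resolve_left h2, e6.resolve_left h2⟩

theorem pt_PD (h2 : (2 : K) ≠ 0) {g : EE K} (hg : g ∈ GG K) {c : K}
    (h : g (ev 1) = c • ev 1) : g ∈ PD K (2, -1) := by
  have hc : c ≠ 0 := by
    intro hc
    rw [hc, zero_smul] at h
    have h1 : (ev 1 : V K) = 0 := (map_eq_zero_iff g g.injective).1 h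
    have h3 := congrFun h1 1
    simp [ev] at h3
  have hi : g⁻¹ (ev 1) = c⁻¹ • ev 1 := by
    apply g.injective
    rw [StP_inv, map_smul, h, smul_smul, inv_mul_cancel₀ hc, one_smul]
  have hgi : g⁻¹ ∈ GG K := inv_mem hg
  have b5 : br (ev 1) (ev 5 : V K) = 0 := by
    rw [StP_br1]
    funext i
    fin_cases i <;> simp [ev]
  have b6 : br (ev 1) (ev 6 : V K) = 0 := by
    rw [StP_br1]
    funext i
    fin_cases i <;> simp [ev]
  obtain ⟨p54, p50, p53, p52⟩ := StP_ker h2 hg hc h b5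
  obtain ⟨p64, p60, p63, p62⟩ := StP_ker h2 hg hc h b6
  obtain ⟨q54, q50, q53, q52⟩ := StP_ker h2 hgi (inv_ne_zero hc) hi b5
  obtain ⟨q64, q60, q63, q62⟩ := StP_ker h2 hgi (inv_ne_zero hc) hi b6
  have a1 : ∀ j, j ≠ 4 → g (ev j) 4 = 0 := by
    intro j hj
    have h3 : (g (ev j)) 4 = bf (ev j) (g⁻¹ (ev 1)) := by
      rw [← StP_adj hg, StP_bf_ev]
      rfl
    rw [h3, hi, StP_ev_bf]
    fin_cases j
    · show 2 * (c⁻¹ * (ev 1 : V K) 0) = 0
      rw [StP_ev, if_neg (by decide), mul_zero, mul_zero]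
    · show c⁻¹ * (ev 1 : V K) 4 = 0
      rw [StP_ev, if_neg (by decide), mul_zero]
    · show c⁻¹ * (ev 1 : V K) 5 = 0
      rw [StP_ev, if_neg (by decide), mul_zero]
    · show c⁻¹ * (ev 1 : V K) 6 = 0
      rw [StP_ev, if_neg (by decide), mul_zero]
    · exact absurd rfl hj
    · show c⁻¹ * (ev 1 : V K) 2 = 0
      rw [StP_ev, if_neg (by decide), mul_zero]
    · show c⁻¹ * (ev 1 : V K) 3 = 0
      rw [StP_ev, if_neg (by decide), mul_zero]
  have a2 : g (ev 0) 2 = 0 := by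
    have h3 : (g (ev 0)) 2 = bf (ev 0) (g⁻¹ (ev 5)) := by
      rw [← StP_adj hg, StP_bf_ev]
      rfl
    rw [h3, StP_ev_bf]
    show 2 * g⁻¹ (ev 5) 0 = 0
    rw [q50, mul_zero]
  have a3 : g (ev 0) 3 = 0 := by
    have h3 : (g (ev 0)) 3 = bf (ev 0) (g⁻¹ (ev 6)) := by
      rw [← StP_adj hg, StP_bf_ev]
      rfl
    rw [h3, StP_ev_bf]
    show 2 * g⁻¹ (ev 6) 0 = 0
    rw [q60, mul_zero]
  have a0 : ∀ i, i ≠ 1 → g (ev 1) i = 0 := by
    intro i hi
    rw [h]
    show c * (ev 1 : V K) i = 0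
    rw [StP_ev, if_neg hi, mul_zero]
  apply PD_of hg
  intro i j hij
  fin_cases j <;> fin_cases i <;> first
    | (exfalso; revert hij; decide)
    | exact a0 _ (by decide)
    | exact a1 _ (by decide)
    | assumption

theorem ln_PD (h2 : (2 : K) ≠ 0) {g : EE K} (hg : g ∈ GG K)
    (h1 : ∀ i, i ≠ 1 → i ≠ 5 → g (ev 1) i = 0) (h5 : ∀ i, i ≠ 1 → i ≠ 5 → g (ev 5) i = 0) :
    g ∈ PD K (1, -1) := by
  set a := g (ev 1) 1 with ha
  set b := g (ev 1) 5 with hb
  set c := g (ev 5) 1 with hc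
  set d := g (ev 5) 5 with hd
  have e1 : g (ev 1) = a • ev 1 + b • ev 5 := by
    funext i
    show g (ev 1) i = a * (ev 1 : V K) i + b * (ev 5 : V K) i
    rw [StP_ev, StP_ev]
    by_cases hi1 : i = 1
    · subst hi1
      simp [ha]
    · by_cases hi5 : i = 5
      · subst hi5
        simp [hb]
      · rw [h1 i hi1 hi5, if_neg hi1, if_neg hi5]
        ring
  have e5 : g (ev 5) = c • ev 1 + d • ev 5 := by
    funext i
    show g (ev 5) i = c * (ev 1 : V K) i + d * (ev 5 : V K) i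
    rw [StP_ev, StP_ev]
    by_cases hi1 : i = 1
    · subst hi1
      simp [hc]
    · by_cases hi5 : i = 5
      · subst hi5
        simp [hd]
      · rw [h5 i hi1 hi5, if_neg hi1, if_neg hi5]
        ring
  set D := a * d - b * c with hD
  have f1 : g (d • ev 1 - b • ev 5) = D • ev 1 := by
    rw [map_sub, map_smul, map_smul, e1, e5, hD]
    module
  have f5 : g (a • ev 5 - c • ev 1) = D • ev 5 := by
    rw [map_sub, map_smul, map_smul, e1, e5, hD]
    module
  have hD0 : D ≠ 0 := by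
    intro h0
    rw [h0, zero_smul] at f1 f5
    have g1 := (map_eq_zero_iff g g.injective).1 f1
    have g5 := (map_eq_zero_iff g g.injective).1 f5
    have hb0 : b = 0 := by
      have := congrFun g1 5
      simpa [ev] using this
    have ha0 : a = 0 := by
      have := congrFun g5 5
      simpa [ev] using this
    rw [ha0, hb0, zero_smul, zero_smul, add_zero] at e1
    have h3 := congrFun ((map_eq_zero_iff g g.injective).1 e1) 1
    simp [ev] at h3
  have key : ∀ x : V K, x 4 = 0 → x 2 = 0 → g x 4 = 0 ∧ g x 2 = 0 := by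
    intro x hx4 hx2
    constructor
    · have h3 : bf (g x) (D • ev 1) = bf x (d • ev 1 - b • ev 5) := by
        rw [← f1, hg.2]
      have h4 : bf (g x) (D • ev 1) = D * g x 4 := by
        simp [bf, ev]
        ring
      have h6 : bf x (d • ev 1 - b • ev 5) = 0 := by
        simp [bf, ev, hx4, hx2]
      rw [h4, h6] at h3
      exact (mul_eq_zero.1 h3).resolve_left hD0
    · have h3 : bf (g x) (D • ev 5) = bf x (a • ev 5 - c • ev 1) := by
        rw [← f5, hg.2]
      have h4 : bf (g x) (D • ev 5) = D * g x 2 := by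
        simp [bf, ev]
        ring
      have h6 : bf x (a • ev 5 - c • ev 1) = 0 := by
        simp [bf, ev, hx4, hx2]
      rw [h4, h6] at h3
      exact (mul_eq_zero.1 h3).resolve_left hD0
  have k0 := key (ev 0) (by simp [ev]) (by simp [ev])
  have k3 := key (ev 3) (by simp [ev]) (by simp [ev])
  have k6 := key (ev 6) (by simp [ev]) (by simp [ev])
  apply PD_of hg
  intro i j hij
  fin_cases j <;> fin_cases i <;> first
    | (exfalso; revert hij; decide)
    | exact h1 _ (by decide) (by decide)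
    | exact h5 _ (by decide) (by decide)
    | exact k0.1
    | exact k0.2
    | exact k3.1
    | exact k3.2
    | exact k6.1
    | exact k6.2

end Pool.Agent.H40.GT
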