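import Pool.Agent.H40.GT.PG
import Pool.Agent.H40.GT.Lev
import Pool.Agent.H40.GT.StP
import Pool.Agent.H40.GT.LvP
import Pool.Agent.H40.GT.LvL

/-!
# Part StP1 (of StP1, StP2); GT-17 overgroups fixing a coordinate point or a special coordinate line

`Std_PD1`, `Std_PD2`: `f ∈ F`, `f = u * l` (`Fil_dec`), `u, l ∈ F` (`Lev_u`, `Lev_l`), `u ∈ GS K (SF F)`
(`PG_F`), `l = c * n` (`lvP`, `lvL`).
`Std_pt`: move the coordinate `j` to the coordinate `1` by an element of `NN` (`NN_coord`,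
`Std_cj`) and apply `pt_PD`.  `Std_ln`: move the long root `r` to `0` (`NN_long`); the range of
`Nl 0` is `⟨e_1, e_-2⟩`; `Mon.mX` shows that `n` maps the range of `Nl r` onto the range of
`Nl (τ r)`: compare `n * X r s * n⁻¹ = X (τ r) (d s)` (`s = 1`; `(X r 1 - 1) = Nl r` for long `r`).
-/

namespace Pool.Agent.H40.GT

variable {K : Type} [Field K]

private theorem StP1_aux (hK : Ok K) {d : ℤ × ℤ} (hd6 : ∀ i j, |dg d i - dg d j| < 6)
    (hlev : ∀ {F : Subgroup (EE K)}, Ov F → ∀ {l : EE K}, l ∈ F → l ∈ Dg K d →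
      ∃ c ∈ GS K (SF F), c⁻¹ * l ∈ NN K)
    {F : Subgroup (EE K)} (hF : Ov F) (h : F ≤ PD K d) : Std F := by
  intro f hf
  obtain ⟨u, hu, l, hl, hful, -⟩ := Fil_dec (h hf)
  rw [hful] at hf
  have huF : u ∈ F := Lev_u hK hd6 hF hu hl hf
  have hlF : l ∈ F := Lev_l hK hd6 hF hu hl hf
  have huG : u ∈ GS K (SF F) := PG_F hK hF ⟨huF, hu⟩
  obtain ⟨c, hc, hn⟩ := hlev hF hlF hl
  refine ⟨u * c, mul_mem huG hc, ?_⟩
  have e : (u * c)⁻¹ * f = c⁻¹ * l := by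
    rw [hful]
    group
  rw [e]
  exact hn

theorem Std_PD1 (hK : Ok K) {F : Subgroup (EE K)} (hF : Ov F) (h : F ≤ PD K (2, -1)) :
    Std F :=
  StP1_aux hK (by decide) (fun hF' _ hlF hl => lvP hK hF' hlF hl) hF h

theorem Std_PD2 (hK : Ok K) {F : Subgroup (EE K)} (hF : Ov F) (h : F ≤ PD K (1, -1)) :
    Std F :=
  StP1_aux hK (by decide) (fun hF' _ hlF hl => lvL hK hF' hlF hl) hF h

end Pool.Agent.H40.GT
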