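import Pool.Agent.H40.GT.StP1

/-!
# Part StP2 (of StP1, StP2); GT-17 overgroups fixing a coordinate point or a special coordinate line

`Std_PD1`, `Std_PD2`: `f ∈ F`, `f = u * l` (`Fil_dec`), `u, l ∈ F` (`Lev_u`, `Lev_l`), `u ∈ GS K (SF F)`
(`PG_F`), `l = c * n` (`lvP`, `lvL`).
`Std_pt`: move the coordinate `j` to the coordinate `1` by an element of `NN` (`NN_coord`,
`Std_cj`) and apply `pt_PD`.  `Std_ln`: move the long root `r` to `0` (`NN_long`); the range of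
`Nl 0` is `⟨e_1, e_-2⟩`; `Mon.mX` shows that `n` maps the range of `Nl r` onto the range of
`Nl (τ r)`: compare `n * X r s * n⁻¹ = X (τ r) (d s)` (`s = 1`; `(X r 1 - 1) = Nl r` for long `r`).
-/

namespace Pool.Agent.H40.GT

variable {K : Type} [Field K]

theorem Std_pt (hK : Ok K) {F : Subgroup (EE K)} (hF : Ov F) {j : Fin 7} (hj : j ≠ 0)
    (h : ∀ f ∈ F, ∃ c : K, f (ev j) = c • ev j) : Std F := by
  have h2 := ok_two hK
  obtain ⟨n, hn, w, σ, τ, hM, hs⟩ := NN_coord h2 j 1 hj (by decide)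
  apply Std_cj h2 hn hF
  apply Std_PD1 hK (Ov_cj h2 hn hF)
  intro x hx
  have hxG := (Ov_cj h2 hn hF).2 hx
  rw [mem_cj] at hx
  obtain ⟨c, hc⟩ := h _ hx
  obtain ⟨d, hd, h1⟩ := hM.mev j
  rw [hs] at h1
  apply pt_PD h2 hxG (c := c)
  rw [LinearEquiv.mul_apply, LinearEquiv.mul_apply, h1] at hc
  have h3 : x (d • ev 1) = n (c • ev j) := by
    rw [← hc]
    exact (StP_inv n _).symm
  rw [map_smul, map_smul, h1, smul_smul, mul_comm c d, ← smul_smul] at h3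
  have h4 := congrArg (fun v : V K => d⁻¹ • v) h3
  simp only [smul_smul, inv_mul_cancel₀ hd, one_smul] at h4
  rw [h4, ← mul_assoc, inv_mul_cancel₀ hd, one_mul]

/-- the special line of a long root -/
def ln (r : Rt) : Submodule K (V K) := LinearMap.range (Nl r)

theorem StP2_X {r : Rt} (hr : r.val < 6) (s : K) (x : V K) : X r s x = x + s • Nl r x := by
  have h1 : ∀ r : Rt, r.val < 6 → ∀ i, qc r i = 0 := by decide
  funext i
  rw [X_apply, h1 r hr i, Int.cast_zero, zero_mul, mul_zero, add_zero]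
  rfl

theorem StP2_n {n : EE K} {w : (ℤ × ℤ) ≃+ (ℤ × ℤ)} {σ : Equiv.Perm (Fin 7)}
    {τ : Equiv.Perm Rt} (hM : Mon n w σ τ) {r : Rt} (hr : r.val < 6) (hr' : (τ r).val < 6) :
    ∃ d : K, d ≠ 0 ∧ ∀ z : V K, n (Nl r z) = d • Nl (τ r) (n z) := by
  obtain ⟨d, hd, h1⟩ := hM.mX r
  refine ⟨d, hd, fun z => ?_⟩
  have h3 := congrArg (fun g : EE K => g (n z)) (h1 1)
  have h4 : n (X r 1 (n⁻¹ (n z))) = X (τ r) (d * 1) (n z) := h3
  have h5 : n⁻¹ (n z) = z := n.symm_apply_apply z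
  rw [h5, StP2_X hr, StP2_X hr', one_smul, mul_one, map_add] at h4
  exact add_left_cancel h4

theorem StP2_0 {v : V K} (hv : v ∈ (ln 0 : Submodule K (V K))) (i : Fin 7) (h1 : i ≠ 1)
    (h5 : i ≠ 5) : v i = 0 := by
  obtain ⟨y, rfl⟩ := hv
  have h3 : ∀ i : Fin 7, i ≠ 1 → i ≠ 5 → cc 0 i = 0 := by decide
  rw [Nl_apply, h3 i h1 h5, Int.cast_zero, zero_mul]

theorem StP2_1 : (ev 1 : V K) ∈ (ln 0 : Submodule K (V K)) := by
  refine ⟨ev 2, ?_⟩
  funext i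
  rw [Nl_apply, StP_ev, StP_ev]
  fin_cases i <;> simp [cc, sc]

theorem StP2_5 : (ev 5 : V K) ∈ (ln 0 : Submodule K (V K)) := by
  refine ⟨-ev 4, ?_⟩
  funext i
  rw [Nl_apply, Pi.neg_apply, StP_ev, StP_ev]
  fin_cases i <;> simp [cc, sc]

theorem Std_ln (hK : Ok K) {F : Subgroup (EE K)} (hF : Ov F) {r : Rt} (hr : r.val < 6)
    (h : ∀ f ∈ F, ∀ x ∈ (ln r : Submodule K (V K)), f x ∈ (ln r : Submodule K (V K))) :
    Std F := by
  have h2 := ok_two hK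
  obtain ⟨n, hn, w, σ, τ, hM, hs⟩ := NN_long h2 r 0 hr (by decide)
  apply Std_cj h2 hn hF
  apply Std_PD2 hK (Ov_cj h2 hn hF)
  intro x hx
  have hxG := (Ov_cj h2 hn hF).2 hx
  rw [mem_cj] at hx
  obtain ⟨d, hd, h1⟩ := StP2_n hM hr (by rw [hs]; decide)
  rw [hs] at h1
  have key : ∀ v ∈ (ln 0 : Submodule K (V K)), x v ∈ (ln 0 : Submodule K (V K)) := by
    rintro v ⟨y, rfl⟩
    have h3 : Nl 0 y = n (Nl r (d⁻¹ • n⁻¹ y)) := by
      rw [h1, map_smul, StP_inv, map_smul, smul_smul, mul_inv_cancel₀ hd, one_smul]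
    obtain ⟨z, hz⟩ := h _ hx (Nl r (d⁻¹ • n⁻¹ y)) ⟨_, rfl⟩
    rw [LinearEquiv.mul_apply, LinearEquiv.mul_apply, ← h3] at hz
    have h4 : x (Nl 0 y) = n (Nl r z) := by
      rw [hz]
      exact (StP_inv n _).symm
    rw [h4, h1]
    exact Submodule.smul_mem _ _ ⟨_, rfl⟩
  exact ln_PD h2 hxG (fun i hi hi' => StP2_0 (key _ StP2_1) i hi hi')
    (fun i hi hi' => StP2_0 (key _ StP2_5) i hi hi')

end Pool.Agent.H40.GT
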