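import Mathlib

/-!
# GT-23 the finite check for `SL_3(7)`

`nf k l a` (`a` stands for the parameter `a + 1`): with `(i,j,k)`, `(i',j',l)` cyclic, the matrix `f` with
`f (e_i - e_j) = (a+1)⁻¹ e_l`, `f (e_i + e_j) = e_i' - e_j'`, `f e_k = (a+1) (e_i' + e_j')`.
For each of the 27 matrices the word `f t_1 f t_2 ... t_n f` (the `t_i` diagonal of determinant 1)
is a matrix with exactly one nonzero off-diagonal entry.
-/

namespace Pool.Agent.H40.GT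

/-- a matrix as a function -/
abbrev M7 : Type := Matrix (Fin 3) (Fin 3) (ZMod 7)

/-- the normal forms -/
def nf (k l a : Fin 3) : M7 := fun r c =>
  if c = k then (if r = l then 0 else (![1, 2, 3] a : ZMod 7))
  else if r = l then (if c = k + 1 then ![4, 2, 6] a else ![3, 5, 1] a)
  else if r = l + 1 then 4 else 3

/-- the words -/
def wd : Fin 3 → Fin 3 → Fin 3 → List (ZMod 7 × ZMod 7 × ZMod 7) :=
  ![
![![[(3, 1, 5), (1, 2, 4), (1, 2, 4), (3, 1, 5), (1, 2, 4), (1, 3, 5), (3, 2, 6)],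
      [(3, 1, 5), (1, 2, 4), (1, 2, 4), (3, 1, 5), (1, 2, 4), (1, 3, 5), (3, 2, 6)],
      [(3, 1, 5), (1, 2, 4), (1, 2, 4), (3, 1, 5), (1, 2, 4), (1, 3, 5), (3, 2, 6)]],
    ![[(1, 5, 3), (1, 1, 1), (1, 3, 5), (1, 3, 5)],
      [(1, 6, 6), (1, 2, 4), (1, 3, 5), (1, 3, 5)],
      [(1, 1, 1), (1, 6, 6), (1, 2, 4), (1, 3, 5)]],
    ![[(1, 4, 2), (1, 5, 3), (1, 1, 1), (1, 1, 1)],
      [(1, 1, 1), (1, 3, 5), (1, 2, 4), (1, 2, 4)],
      [(1, 1, 1), (1, 1, 1), (3, 5, 1), (1, 2, 4)]]],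
   ![![[(1, 4, 2), (1, 5, 3), (1, 1, 1), (1, 6, 6)],
      [(1, 1, 1), (1, 3, 5), (1, 2, 4), (1, 5, 3)],
      [(1, 1, 1), (1, 1, 1), (1, 3, 5), (1, 2, 4)]],
    ![[(1, 3, 5), (1, 2, 4), (1, 2, 4), (1, 3, 5), (1, 4, 2), (1, 2, 4), (3, 5, 1)],
      [(1, 3, 5), (1, 2, 4), (1, 2, 4), (1, 3, 5), (1, 4, 2), (1, 2, 4), (3, 5, 1)],
      [(1, 3, 5), (1, 2, 4), (1, 2, 4), (1, 3, 5), (1, 4, 2), (1, 2, 4), (3, 5, 1)]],
    ![[(1, 3, 5), (3, 5, 1), (1, 6, 6), (3, 6, 2)],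
      [(1, 3, 5), (3, 5, 1), (1, 5, 3), (3, 3, 4)],
      [(1, 1, 1), (3, 4, 3), (1, 2, 4), (3, 2, 6)]]],
   ![![[(1, 3, 5), (1, 3, 5), (1, 1, 1), (1, 5, 3)],
      [(1, 3, 5), (1, 3, 5), (1, 2, 4), (1, 6, 6)],
      [(1, 1, 1), (3, 3, 4), (1, 2, 4), (3, 5, 1)]],
    ![[(1, 4, 2), (3, 1, 5), (1, 1, 1), (3, 4, 3)],
      [(1, 1, 1), (3, 1, 5), (1, 4, 2), (3, 2, 6)],
      [(1, 1, 1), (1, 1, 1), (3, 2, 6), (1, 2, 4)]],
    ![[(1, 3, 5), (1, 2, 4), (1, 2, 4), (1, 3, 5), (1, 2, 4), (1, 4, 2), (1, 3, 5)],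
      [(1, 3, 5), (1, 2, 4), (1, 2, 4), (1, 3, 5), (1, 2, 4), (1, 4, 2), (1, 3, 5)],
      [(1, 3, 5), (1, 2, 4), (1, 2, 4), (1, 3, 5), (1, 2, 4), (1, 4, 2), (1, 3, 5)]]]]

/-- diagonal matrices -/
def dm (t : ZMod 7 × ZMod 7 × ZMod 7) : M7 := Matrix.diagonal ![t.1, t.2.1, t.2.2]

/-- the product of a word -/
def wp (f : M7) (l : List (ZMod 7 × ZMod 7 × ZMod 7)) : M7 := l.foldl (fun A t => A * dm t * f) f

/-- the entry function of `A * dm t * f`, written out -/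
def st (f : Fin 3 → Fin 3 → ZMod 7) (A : Fin 3 → Fin 3 → ZMod 7) (t : ZMod 7 × ZMod 7 × ZMod 7) :
    Fin 3 → Fin 3 → ZMod 7 := fun r c =>
  A r 0 * t.1 * f 0 c + A r 1 * t.2.1 * f 1 c + A r 2 * t.2.2 * f 2 c

/-- exactly one nonzero off-diagonal entry -/
def one1 (A : Fin 3 → Fin 3 → ZMod 7) : Prop :=
  ∃ i j : Fin 3, i ≠ j ∧ A i j ≠ 0 ∧ ∀ r c : Fin 3, r ≠ c → (r ≠ i ∨ c ≠ j) → A r c = 0

instance (A : Fin 3 → Fin 3 → ZMod 7) : Decidable (one1 A) := by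
  unfold one1
  infer_instance

/-- the finite check -/
theorem chk : ∀ k l a : Fin 3, one1 ((wd k l a).foldl (st (nf k l a)) (nf k l a)) := by decide

set_option maxRecDepth 100000 in
theorem wd_det : ∀ k l a : Fin 3, ∀ t ∈ wd k l a, t.1 * t.2.1 * t.2.2 = 1 := by decide

/-- a group of matrices of determinant 1 containing the diagonal matrices, in which a matrix with a
column with exactly one nonzero entry is monomial, and without matrices with exactly one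
nonzero off-diagonal entry -/
structure MG (F : Set M7) : Prop where
  mul : ∀ f ∈ F, ∀ g ∈ F, f * g ∈ F
  inv : ∀ f ∈ F, ∃ g ∈ F, f * g = 1 ∧ g * f = 1
  det : ∀ f ∈ F, Matrix.det f = 1
  dia : ∀ a b c : ZMod 7, a * b * c = 1 → dm (a, b, c) ∈ F
  mon : ∀ f ∈ F, ∀ j l, (∀ i, i ≠ l → f i j = 0) → ∀ j', ∃ l', ∀ i, i ≠ l' → f i j' = 0
  one : ∀ f ∈ F, ¬ one1 f

/-- the normal forms are not in `F` -/
theorem nf_not {F : Set M7} (hF : MG F) (k l a : Fin 3) : nf k l a ∉ F := by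
  intro h
  have key : ∀ (w : List (ZMod 7 × ZMod 7 × ZMod 7)), (∀ t ∈ w, t.1 * t.2.1 * t.2.2 = 1) →
      ∀ A ∈ F, (w.foldl (st (nf k l a)) A : M7) ∈ F := by
    intro w
    induction w with
    | nil => intro _ A hA; exact hA
    | cons t w ih =>
      intro hw A hA
      rw [List.foldl_cons]
      apply ih (fun t' ht' => hw t' (List.mem_cons_of_mem _ ht'))
      have h1 : (st (nf k l a) A t : M7) = A * dm t * nf k l a := by
        ext r c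
        simp [st, dm, Matrix.mul_apply, Fin.sum_univ_three, Matrix.diagonal_apply]
      rw [h1]
      exact hF.mul _ (hF.mul _ hA _ (hF.dia _ _ _ (hw t (List.mem_cons_self ..)))) _ h
  exact hF.one _ (key (wd k l a) (wd_det k l a) _ h) (chk k l a)

end Pool.Agent.H40.GT
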