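import Pool.Agent.H40.GT.SzF

/-!
# Part SzA1 (of SzA1, SzA2, SzA3); GT-26 groups centralising `z` without long root groups are in `NN`

`sz_core` (excludes `n = 5, 9`).  Suppose `x⁻¹ t x ∈ NN` for all `x ∈ F`, `t ∈ TT` with `t ^ 3 = 1`.
`K0 = {k ∈ F | ∀ x ∈ F, x⁻¹ k x ∈ NN}` is a normal subgroup of `F`, `K0 ≤ NN`; it contains all
`t ∈ TT` with `t ^ 3 = 1`.  Let `x ∈ F`, `x ∉ NN`, `t = tor (1, ω)`, `d = x⁻¹ t x ∈ K0`.
If `d ∈ TT`: `d ^ 3 = 1`, `d ∉ {1, z, z^2}` (these are central in `F`), so the three eigenvalues of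
`d` on `e_1, e_2, e_3` are different, elements of `F` commuting with `d` have diagonal `m3`, so are
in `NN` (`m3_NN`); `x⁻¹ t' x`, `t' ∈ TT`, commutes with `d`; so `x⁻¹ TT x ≤ NN`, and `lemC` gives
`x ∈ NN`, contradiction.  So `d ∈ NN`, `d ∉ TT`, `d ^ 3 = 1`: `d` permutes the coordinate lines of
`e_1, e_2, e_3` cyclically (it preserves their span), so it permutes the three involutions
of `TT` cyclically; for an involution `e ∈ TT` `(d e d⁻¹) e⁻¹ ∈ K0` is the third involution.  So
`K0` contains the three involutions, and `t = t^4 * (t^3)⁻¹` with `(t^4)^3 = 1`, `(t^3)^2 = 1` shows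
`TT ≤ K0`.  Again `lemC` gives `x ∈ NN`.

`sz_thirteen`: let `|F| = 13 |M|`, `M = F ⊓ NN`.  `M / TT` embeds in the symmetric group of the three
lines, so `|M|` divides `216`.  `P` a Sylow 13-subgroup of `F`; its normaliser contains `P` and
`{1, z, z^2}`, so the number of Sylow 13-subgroups divides `|F| / 39 = |M| / 3`, a divisor of `72`,
and is `1` modulo `13`: it is `1` (divisors of 72: 1,2,3,4,6,8,9,12,18,24,36,72).  So `P` is normal,
cyclic of order 13.  The involutions `e1 = tor (1,-1)`, `e2 = tor (-1,1)` act on `P` as `1` or `-1`,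
so one of `e1, e2, e1 e2` centralises `P`.  The centraliser in `F` of an involution `tor e` is
in `NN`: it is standard (`Std_ce`) and its `SF` is contained in `SF F`; `SF F` has no long root by
hypothesis and no short root (`X r 1`, `r` short, does not commute with `z`), so it is empty,
`GS K ∅ = TT K`.  So `P ≤ M`, but `13` does not divide `|M|`.

`sz_all`: from `sz_frames`, `n = 1` means `F ≤ NN`.

`cent_BF`: `F' = C_F(t)` contains `TT` (`TT_comm`), `cen_cases`: (1) `F'` fixes a coordinate line: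
`Std_pt`, `Std_le_BF`; (2) `F'` commutes with an involution: `Std_ce`, `Std_le_BF`; (3) `t = z`:
`sz_all` for `F'` (`SF F' ⊆ SF F`), `NN_le_BF`.
-/

namespace Pool.Agent.H40.GT

variable {K : Type} [Field K]

/-- the largest normal subgroup of `F` all of whose elements are in `NN` -/
def SzA1_K (F : Subgroup (EE K)) : Subgroup (EE K) where
  carrier := {k | k ∈ F ∧ ∀ y ∈ F, y⁻¹ * k * y ∈ NN K}
  one_mem' := ⟨F.one_mem, fun y _ => by
    have : y⁻¹ * 1 * y = 1 := by group
    rw [this]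
    exact one_mem _⟩
  mul_mem' := by
    rintro a b ⟨ha, ha'⟩ ⟨hb, hb'⟩
    refine ⟨F.mul_mem ha hb, fun y hy => ?_⟩
    have : y⁻¹ * (a * b) * y = (y⁻¹ * a * y) * (y⁻¹ * b * y) := by group
    rw [this]
    exact mul_mem (ha' y hy) (hb' y hy)
  inv_mem' := by
    rintro a ⟨ha, ha'⟩
    refine ⟨F.inv_mem ha, fun y hy => ?_⟩
    have : y⁻¹ * a⁻¹ * y = (y⁻¹ * a * y)⁻¹ := by group
    rw [this]
    exact inv_mem (ha' y hy)

theorem SzA1_conj {F : Subgroup (EE K)} {k x : EE K} (hk : k ∈ SzA1_K F) (hx : x ∈ F) :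
    x⁻¹ * k * x ∈ SzA1_K F := by
  refine ⟨F.mul_mem (F.mul_mem (F.inv_mem hx) hk.1) hx, fun y hy => ?_⟩
  have : y⁻¹ * (x⁻¹ * k * x) * y = (x * y)⁻¹ * k * (x * y) := by group
  rw [this]
  exact hk.2 _ (F.mul_mem hx hy)

theorem SzA1_cyc : ∀ π : Equiv.Perm (Fin 3), π * π * π = 1 → π ≠ 1 →
    (∀ j, LC2_Sg (π, 1) j = ![0, 2, 3, 1, 5, 6, 4] j) ∨
      (∀ j, LC2_Sg (π, 1) j = ![0, 3, 1, 2, 6, 4, 5] j) := by
  decide

/-- conjugation of torus elements by a 3-cycle -/
theorem SzA1_W {d : EE K} {q : Equiv.Perm (Fin 3) × ℤˣ} (hd : LC2_P d q) (h3 : q ^ 3 = 1)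
    (h1 : q ≠ 1) :
    (∀ s : Kˣ × Kˣ, d * tor s * d⁻¹ = tor ((s.1 * s.2)⁻¹, s.1)) ∨
      (∀ s : Kˣ × Kˣ, d * tor s * d⁻¹ = tor (s.2, (s.1 * s.2)⁻¹)) := by
  obtain ⟨π, rfl, e1, e2⟩ := LC2_eps q h3 h1
  have key : ∀ s s' : Kˣ × Kˣ, (∀ j, ch (wt (LC2_Sg (π, 1) j)) s' = ch (wt j) s) →
      d * tor s * d⁻¹ = tor s' := by
    intro s s' h
    rw [mul_inv_eq_iff_eq_mul]
    apply EE_ext
    intro j
    obtain ⟨c, -, hc⟩ := hd j
    rw [LinearEquiv.mul_apply, LinearEquiv.mul_apply, tor_ev, map_smul, hc, map_smul, tor_ev,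
      smul_smul, smul_smul, h j, mul_comm]
  rcases SzA1_cyc π e1 e2 with h | h
  · left
    intro s
    apply key
    intro j
    rw [h j]
    obtain ⟨a, b⟩ := s
    fin_cases j <;> simp [ch, wt]
    exact mul_comm _ _
  · right
    intro s
    apply key
    intro j
    rw [h j]
    obtain ⟨a, b⟩ := s
    fin_cases j <;> simp [ch, wt]
    exact mul_comm _ _

theorem sz_core (hK : Ok K) {ω : Kˣ} (h3 : ω ^ 3 = 1) (h1 : ω ≠ 1) {F : Subgroup (EE K)}
    (hF : Ov F) (hZ : CZ ω F) (hS : ∀ r ∈ SF F, 6 ≤ r.val)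
    (h : ∀ x ∈ F, x ∉ NN K → ∀ t ∈ TT K, t ^ 3 = 1 → x⁻¹ * t * x ∈ NN K) : F ≤ NN K := by
  intro x hx
  by_contra hxN
  have h2 := ok_two hK
  -- the 3-torsion of the torus is in `K0`
  have hT3 : ∀ t ∈ TT K, t ^ 3 = 1 → t ∈ SzA1_K F := by
    intro t ht ht3
    refine ⟨hF.1 ht, fun y hy => ?_⟩
    by_cases hyN : y ∈ NN K
    · exact mul_mem (mul_mem (inv_mem hyN) (TT_le_NN ht)) hyN
    · exact h y hy hyN t ht ht3
  -- it is enough to have the torus in `K0`
  have hfin : (∀ t ∈ TT K, x⁻¹ * t * x ∈ NN K) → False := by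
    intro hall
    apply hxN
    have h4 : x⁻¹ ∈ NN K := by
      apply lemC hK (inv_mem (hF.2 hx))
      intro t ht
      rw [inv_inv]
      exact hall t ht
    have h5 := inv_mem h4
    rwa [inv_inv] at h5
  obtain ⟨t, htdef⟩ : ∃ t : EE K, t = tor (1, ω) := ⟨_, rfl⟩
  have htT : t ∈ TT K := by rw [htdef]; exact tor_mem_TT _
  have ht3 : t ^ 3 = 1 := by
    rw [htdef, ← map_pow, Prod.pow_mk, one_pow, h3]
    exact map_one _
  obtain ⟨d, hddef⟩ : ∃ d : EE K, d = x⁻¹ * t * x := ⟨_, rfl⟩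
  have hdK : d ∈ SzA1_K F := by rw [hddef]; exact SzA1_conj (hT3 t htT ht3) hx
  have hdN : d ∈ NN K := by
    have := hdK.2 1 F.one_mem
    simpa using this
  have hdF : d ∈ F := hdK.1
  have hd3 : d ^ 3 = 1 := by
    have : d = x⁻¹ * t * x⁻¹⁻¹ := by rw [hddef, inv_inv]
    rw [this, conj_pow, ht3]
    group
  have htd : t = x * d * x⁻¹ := by rw [hddef]; group
  by_cases hdT : d ∈ TT K
  · -- `d` in the torus
    obtain ⟨s, hs⟩ := hdT
    have hs3 : s ^ 3 = 1 := by
      apply tor_inj (K := K)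
      rw [map_pow, hs, hd3, map_one]
    have hs1 : s.1 ^ 3 = 1 := congrArg Prod.fst hs3
    have hs2 : s.2 ^ 3 = 1 := congrArg Prod.snd hs3
    have hne : s.1 ≠ s.2 := by
      intro he
      -- `s.1` is a power of `ω`
      have h4 : tor s * x = x * tor s := by
        have hz : ∃ m : ℕ, s = (ω, ω) ^ m := by
          have h5 : (s.1 : K) = 1 ∨ (s.1 : K) = ω ∨ (s.1 : K) = ω ^ 2 := by
            have h6 : ((s.1 : K) - 1) * ((s.1 : K) - ω) * ((s.1 : K) - ω ^ 2) = 0 := by
              have h7 : (s.1 : K) ^ 3 = 1 := by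
                rw [← Units.val_pow_eq_pow_val, hs1, Units.val_one]
              have h8 : (ω : K) ^ 3 = 1 := by
                rw [← Units.val_pow_eq_pow_val, h3, Units.val_one]
              have h9 : (ω : K) ≠ 1 := fun h10 => h1 (Units.ext h10)
              have h10 : (ω : K) ^ 2 + ω + 1 = 0 := by
                have h11 : ((ω : K) - 1) * ((ω : K) ^ 2 + ω + 1) = 0 := by
                  linear_combination h8
                exact (mul_eq_zero.1 h11).resolve_left (sub_ne_zero.2 h9)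
              linear_combination h7 - h8 - (s.1 : K) ^ 2 * h10 + (s.1 : K) * ω * h10
            rcases mul_eq_zero.1 h6 with h7 | h7
            · rcases mul_eq_zero.1 h7 with h8 | h8
              · exact Or.inl (sub_eq_zero.1 h8)
              · exact Or.inr (Or.inl (sub_eq_zero.1 h8))
            · exact Or.inr (Or.inr (sub_eq_zero.1 h7))
          rcases h5 with h5 | h5 | h5
          · refine ⟨0, ?_⟩
            have h6 : s.1 = 1 := Units.ext h5
            refine Prod.ext ?_ ?_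
            · rw [pow_zero]; exact h6
            · rw [pow_zero, ← he]; exact h6
          · refine ⟨1, ?_⟩
            have h6 : s.1 = ω := Units.ext h5
            refine Prod.ext ?_ ?_
            · rw [pow_one]; exact h6
            · rw [pow_one, ← he]; exact h6
          · refine ⟨2, ?_⟩
            have h6 : s.1 = ω ^ 2 := Units.ext h5
            refine Prod.ext ?_ ?_
            · rw [Prod.pow_mk]; exact h6
            · rw [Prod.pow_mk, ← he]; exact h6
        obtain ⟨m, hm⟩ := hz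
        rw [hm, map_pow]
        have h5 : Commute x (tor (ω, ω)) := hZ x hx
        exact (h5.pow_right m).symm
      have h5 : t = d := by
        rw [htd, ← hs, ← h4]
        group
      rw [htdef, ← hs] at h5
      have h6 := tor_inj h5
      apply h1
      have h7 : s.1 = 1 := (congrArg Prod.fst h6).symm
      have h8 : s.2 = ω := (congrArg Prod.snd h6).symm
      rw [← h8, ← he, h7]
    -- elements of `F` commuting with `d`
    have hcomm : ∀ f ∈ F, f * d = d * f → f ∈ NN K := by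
      intro f hf hfd
      apply m3_NN hK h3 h1 (hF.2 hf) (hZ f hf)
      intro j
      refine ⟨j, fun i hij => ?_⟩
      show f (ev (ix j)) (ix i) = 0
      rw [← hs] at hfd
      apply Cen_eig hfd
      obtain ⟨a, b⟩ := s
      have ha : a ^ 3 = 1 := hs1
      have hb : b ^ 3 = 1 := hs2
      have hab : a ≠ b := hne
      have e1 : a ≠ (a * b)⁻¹ := by
        intro h4
        apply hab
        have h5 : a * (a * b) = 1 := by
          nth_rewrite 1 [h4]
          exact inv_mul_cancel _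
        calc a = a ^ 3 * a := by rw [ha, one_mul]
          _ = a * a * (a * (a * b)) * b⁻¹ := by
            rw [pow_three]
            group
          _ = b ^ 3 * a * a * b⁻¹ := by rw [h5, hb]; group
          _ = b ^ 3 * (a * (a * b)) * b⁻¹ * b⁻¹ := by group
          _ = b := by rw [h5, pow_three]; group
      have e2 : b ≠ (a * b)⁻¹ := by
        intro h4
        apply hab
        have h5 : b * (a * b) = 1 := by
          nth_rewrite 1 [h4]
          exact inv_mul_cancel _
        have h6 : b * b = a⁻¹ := by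
          rw [eq_inv_iff_mul_eq_one, mul_assoc, mul_comm b a]
          exact h5
        have h7 : b * b * b = 1 := by rw [← hb, pow_three, mul_assoc]
        rw [h6] at h7
        exact (inv_mul_eq_one.1 h7)
      have e1' : ¬ a = a⁻¹ * b⁻¹ := by rw [← mul_inv]; exact e1
      have e2' : ¬ b = a⁻¹ * b⁻¹ := by rw [← mul_inv]; exact e2
      have e1'' : ¬ a⁻¹ * b⁻¹ = a := fun h4 => e1' h4.symm
      have e2'' : ¬ a⁻¹ * b⁻¹ = b := fun h4 => e2' h4.symm
      fin_cases i <;> fin_cases j <;>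
        first
        | exact absurd rfl hij
        | simpa [ch, wt, ix] using hab
        | simpa [ch, wt, ix] using hab.symm
        | simpa [ch, wt, ix] using e1'
        | simpa [ch, wt, ix] using e1''
        | simpa [ch, wt, ix] using e2'
        | simpa [ch, wt, ix] using e2''
    apply hfin
    intro u hu
    apply hcomm
    · exact F.mul_mem (F.mul_mem (F.inv_mem hx) (hF.1 hu)) hx
    · have h4 := TT_comm u t hu htT
      rw [hddef]
      calc x⁻¹ * u * x * (x⁻¹ * t * x) = x⁻¹ * (u * t) * x := by group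
        _ = x⁻¹ * (t * u) * x := by rw [h4]
        _ = x⁻¹ * t * x * (x⁻¹ * u * x) := by group
  · -- `d` permutes the coordinate lines
    obtain ⟨q, hq⟩ := LC2_ex h2 hdN
    have hq3 : q ^ 3 = 1 := by
      have h4 := LC2_P_pow hq 3
      rw [hd3] at h4
      exact LC2_P_unique h4 LC2_P_one
    have hq1 : q ≠ 1 := by
      rintro rfl
      apply hdT
      apply diag_mem_TT h2 (hF.2 hdF)
      intro j
      obtain ⟨c, -, hc⟩ := hq j
      rw [LC2_Sg_one] at hc
      exact ⟨c, hc⟩
    have hinv : ∀ s : Kˣ × Kˣ, s ^ 2 = 1 → tor s ∈ SzA1_K F := by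
      intro s hs
      have hs1 : s.1 * s.1 = 1 := by rw [← pow_two]; exact congrArg Prod.fst hs
      have hs2 : s.2 * s.2 = 1 := by rw [← pow_two]; exact congrArg Prod.snd hs
      -- commutators
      have hcm : ∀ u : Kˣ × Kˣ, d * tor u * d⁻¹ * (tor u)⁻¹ ∈ SzA1_K F := by
        intro u
        have h4 : d * tor u * d⁻¹ * (tor u)⁻¹ = d * ((tor u)⁻¹⁻¹ * d⁻¹ * (tor u)⁻¹) := by group
        rw [h4]
        exact (SzA1_K F).mul_mem hdK
          (SzA1_conj ((SzA1_K F).inv_mem hdK) (F.inv_mem (hF.1 (tor_mem_TT u))))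
      obtain ⟨a, b⟩ := s
      have ha : a * a = 1 := hs1
      have hb : b * b = 1 := hs2
      rcases SzA1_W hq hq3 hq1 with hW | hW
      · have h4 := hcm ((a * b)⁻¹, a)
        rw [hW, ← map_inv, ← map_mul] at h4
        have h5 : ((((a * b)⁻¹, a) : Kˣ × Kˣ).1 * (((a * b)⁻¹, a) : Kˣ × Kˣ).2)⁻¹ = b := by
          show ((a * b)⁻¹ * a)⁻¹ = b
          rw [mul_inv, inv_inv, mul_comm, ← mul_assoc, inv_mul_cancel, one_mul]
        rw [h5] at h4
        have h6 : ((b, (((a * b)⁻¹, a) : Kˣ × Kˣ).1) : Kˣ × Kˣ) * (((a * b)⁻¹, a) : Kˣ × Kˣ)⁻¹ = (a, b) := by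
          refine Prod.ext ?_ ?_
          · show b * ((a * b)⁻¹)⁻¹ = a
            rw [inv_inv, mul_comm a b, ← mul_assoc, hb, one_mul]
          · show (a * b)⁻¹ * a⁻¹ = b
            rw [← mul_inv, mul_comm a b, mul_assoc, ha, mul_one]
            exact (eq_inv_of_mul_eq_one_left hb).symm
        rw [h6] at h4
        exact h4
      · have h4 := hcm (b, (a * b)⁻¹)
        rw [hW, ← map_inv, ← map_mul] at h4
        have h6 : (((((b, (a * b)⁻¹) : Kˣ × Kˣ).2, ((((b, (a * b)⁻¹) : Kˣ × Kˣ).1 * ((b, (a * b)⁻¹) : Kˣ × Kˣ).2))⁻¹) : Kˣ × Kˣ) * ((b, (a * b)⁻¹) : Kˣ × Kˣ)⁻¹) = (a, b) := by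
          refine Prod.ext ?_ ?_
          · show (a * b)⁻¹ * b⁻¹ = a
            rw [← mul_inv, mul_assoc, hb, mul_one]
            exact (eq_inv_of_mul_eq_one_left ha).symm
          · show (b * (a * b)⁻¹)⁻¹ * ((a * b)⁻¹)⁻¹ = b
            rw [mul_inv, inv_inv, mul_comm a b, mul_assoc, mul_assoc, ← mul_assoc a b a,
              mul_comm a b, mul_assoc b a a, ha, mul_one, inv_mul_cancel_left]
        rw [h6] at h4
        exact h4
    apply hfin
    intro u hu
    obtain ⟨s, rfl⟩ := hu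
    have h7 := cz_seven hK h3 h1
    have hfinK : Finite K := Nat.finite_of_card_ne_zero (by rw [h7]; norm_num)
    have hu6 : ∀ v : Kˣ, v ^ 6 = 1 := by
      intro v
      have h8 : Nat.card Kˣ = 6 := by
        rw [Nat.card_units, h7]
      rw [← h8]
      exact pow_card_eq_one'
    have hs6 : s ^ 6 = 1 := Prod.ext (hu6 s.1) (hu6 s.2)
    have h8 : s = s ^ 4 * (s ^ 3)⁻¹ := by
      rw [eq_mul_inv_iff_mul_eq, ← pow_succ']
    have h9 : tor s ∈ SzA1_K F := by
      rw [h8, map_mul]
      apply (SzA1_K F).mul_mem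
      · apply hT3 _ (tor_mem_TT _)
        rw [← map_pow, ← pow_mul]
        have : s ^ (4 * 3) = (s ^ 6) ^ 2 := by rw [← pow_mul]
        rw [this, hs6, one_pow, map_one]
      · apply hinv
        rw [inv_pow, ← pow_mul]
        have : s ^ (3 * 2) = s ^ 6 := rfl
        rw [this, hs6, inv_one]
    exact h9.2 x hx

end Pool.Agent.H40.GT
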