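import Pool.Agent.H40.GT.SzA1

/-!
# Part SzA2 (of SzA1, SzA2, SzA3); GT-26 groups centralising `z` without long root groups are in `NN`

`sz_core` (excludes `n = 5, 9`).  Suppose `x⁻¹ t x ∈ NN` for all `x ∈ F`, `t ∈ TT` with `t ^ 3 = 1`.
`K0 = {k ∈ F | ∀ x ∈ F, x⁻¹ k x ∈ NN}` is a normal subgroup of `F`, `K0 ≤ NN`; it contains all
`t ∈ TT` with `t ^ 3 = 1`.  Let `x ∈ F`, `x ∉ NN`, `t = tor (1, ω)`, `d = x⁻¹ t x ∈ K0`.
If `d ∈ TT`: `d ^ 3 = 1`, `d ∉ {1, z, z^2}` (these are central in `F`), so the three eigenvalues of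
`d` on `e_1, e_2, e_3` are different, elements of `F` commuting with `d` have diagonal `m3`, so are
in `NN` (`m3_NN`); `x⁻¹ t' x`, `t' ∈ TT`, commutes with `d`; so `x⁻¹ TT x ≤ NN`, and `lemC` gives
`x ∈ NN`, contradiction.  So `d ∈ NN`, `d ∉ TT`, `d ^ 3 = 1`: `d` permutes the coordinate lines of
`e_1, e_2, e_3` cyclically (it preserves their span), so it permutes the three involutions
of `TT` cyclically; for an involution `e ∈ TT` `(d e d⁻¹) e⁻¹ ∈ K0` is the third involution.  So
`K0` contains the three involutions, and `t = t^4 * (t^3)⁻¹` with `(t^4)^3 = 1`, `(t^3)^2 = 1` shows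
`TT ≤ K0`.  Again `lemC` gives `x ∈ NN`.

`sz_thirteen`: let `|F| = 13 |M|`, `M = F ⊓ NN`.  `M / TT` embeds in the symmetric group of the three
lines, so `|M|` divides `216`.  `P` a Sylow 13-subgroup of `F`; its normaliser contains `P` and
`{1, z, z^2}`, so the number of Sylow 13-subgroups divides `|F| / 39 = |M| / 3`, a divisor of `72`,
and is `1` modulo `13`: it is `1` (divisors of 72: 1,2,3,4,6,8,9,12,18,24,36,72).  So `P` is normal,
cyclic of order 13.  The involutions `e1 = tor (1,-1)`, `e2 = tor (-1,1)` act on `P` as `1` or `-1`,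
so one of `e1, e2, e1 e2` centralises `P`.  The centraliser in `F` of an involution `tor e` is
in `NN`: it is standard (`Std_ce`) and its `SF` is contained in `SF F`; `SF F` has no long root by
hypothesis and no short root (`X r 1`, `r` short, does not commute with `z`), so it is empty,
`GS K ∅ = TT K`.  So `P ≤ M`, but `13` does not divide `|M|`.

`sz_all`: from `sz_frames`, `n = 1` means `F ≤ NN`.

`cent_BF`: `F' = C_F(t)` contains `TT` (`TT_comm`), `cen_cases`: (1) `F'` fixes a coordinate line: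
`Std_pt`, `Std_le_BF`; (2) `F'` commutes with an involution: `Std_ce`, `Std_le_BF`; (3) `t = z`:
`sz_all` for `F'` (`SF F' ⊆ SF F`), `NN_le_BF`.
-/

namespace Pool.Agent.H40.GT

variable {K : Type} [Field K]

theorem SzA2_div : ∀ n ∈ Nat.divisors 72, n % 13 = 1 → n = 1 := by
  decide

theorem SzA2_grp {G : Type} [Group G] [Finite G] {m : ℕ} (hm : m ∣ 216)
    (hG : Nat.card G = 13 * m) (z : G) (hz : ∀ g, g * z = z * g) (hz3 : orderOf z = 3)
    (a b : G) (ha : a * a = 1) (hb : b * b = 1) :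
    ∃ g : G, orderOf g = 13 ∧ (g * a = a * g ∨ g * b = b * g ∨ g * (a * b) = (a * b) * g) := by
  have hp : Fact (Nat.Prime 13) := ⟨by norm_num⟩
  obtain ⟨P⟩ := (inferInstance : Nonempty (Sylow 13 G))
  have h1 : 13 ∣ Nat.card P := P.dvd_card_of_dvd_card (by rw [hG]; exact dvd_mul_right _ _)
  have hcP : Nat.card P = 13 := by
    obtain ⟨k, hk⟩ := IsPGroup.iff_card.mp P.2
    have h2 : Nat.card P ∣ Nat.card G := Subgroup.card_subgroup_dvd_card _
    rw [hG] at h2
    have h3 : 13 ^ k ∣ 13 * 216 := by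
      rw [← hk]
      exact h2.trans (mul_dvd_mul_left _ hm)
    have hk1 : k < 2 := by
      by_contra hk2
      have h4 : 13 ^ 2 ∣ 13 ^ k := pow_dvd_pow _ (by omega)
      have h5 := h4.trans h3
      norm_num at h5
    have hk0 : k ≠ 0 := by
      rintro rfl
      rw [hk] at h1
      norm_num at h1
    have hk' : k = 1 := by omega
    rw [hk, hk', pow_one]
  have h2 : Nat.card (Sylow 13 G) = (Subgroup.normalizer ((P : Subgroup G) : Set G)).index :=
    P.card_eq_index_normalizer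
  have h3 := card_sylow_modEq_one 13 G
  rw [h2] at h3
  set N := Subgroup.normalizer ((P : Subgroup G) : Set G) with hN
  have hPN : (P : Subgroup G) ≤ N := Subgroup.le_normalizer
  have hzN : z ∈ N := by
    rw [hN, Subgroup.mem_normalizer_iff]
    intro h
    rw [← hz h, mul_inv_cancel_right]
  have h4 : N.index * Nat.card N = 13 * m := by
    rw [Subgroup.index_mul_card, hG]
  have h5 : 13 ∣ Nat.card N := by
    have h6 := Subgroup.card_dvd_of_le hPN
    exact h1.trans h6
  have h6 : 3 ∣ Nat.card N := by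
    rw [← hz3]
    exact Subgroup.orderOf_dvd_natCard N hzN
  have h7 : 39 ∣ Nat.card N := Nat.Coprime.mul_dvd_of_dvd_of_dvd (by norm_num : Nat.Coprime 13 3) h5 h6
  have h8 : N.index = 1 := by
    apply SzA2_div
    · rw [Nat.mem_divisors]
      refine ⟨?_, by norm_num⟩
      obtain ⟨c, hc⟩ := h7
      obtain ⟨e, he⟩ := hm
      rw [hc] at h4
      refine ⟨c * e, ?_⟩
      have h9 : N.index * (39 * c) * e = 13 * (m * e) := by rw [h4]; ring
      rw [← he] at h9
      have h10 : 39 * (N.index * (c * e)) = 39 * 72 := by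
        calc 39 * (N.index * (c * e)) = N.index * (39 * c) * e := by ring
          _ = 13 * 216 := h9
          _ = 39 * 72 := by norm_num
      exact (Nat.eq_of_mul_eq_mul_left (by norm_num) h10).symm
    · exact h3
  have h9 : N = ⊤ := Subgroup.index_eq_one.1 h8
  have hcy : IsCyclic P := isCyclic_of_prime_card hcP
  obtain ⟨g, hg⟩ := hcy.exists_generator
  have hog : orderOf (g : G) = 13 := by
    rw [Subgroup.orderOf_coe, orderOf_eq_card_of_forall_mem_zpowers hg, hcP]
  have key : ∀ e : G, e * e = 1 → e * g * e⁻¹ = g ∨ e * g * e⁻¹ = (g : G)⁻¹ := by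
    intro e he
    have h10 : e * g * e⁻¹ ∈ (P : Subgroup G) := by
      have h11 : e ∈ N := by rw [h9]; exact Subgroup.mem_top e
      exact (Subgroup.mem_normalizer_iff.1 h11 g).1 g.2
    obtain ⟨k, hk⟩ := Subgroup.mem_zpowers_iff.1 (hg ⟨_, h10⟩)
    have h11 : (g : G) ^ k = e * g * e⁻¹ := congrArg Subtype.val hk
    have h12 : (g : G) ^ (k * k) = g := by
      rw [zpow_mul, h11, conj_zpow, h11]
      have h13 : e⁻¹ = e := inv_eq_of_mul_eq_one_right he
      rw [h13]
      calc e * (e * g * e) * e = (e * e) * g * (e * e) := by group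
        _ = g := by rw [he]; group
    have h13 : (g : G) ^ (k * k - 1) = 1 := by
      rw [zpow_sub, h12, zpow_one, mul_inv_cancel]
    have h14 := orderOf_dvd_iff_zpow_eq_one.2 h13
    rw [hog] at h14
    have h15 : (13 : ℤ) ∣ (k - 1) * (k + 1) := by
      have h16 : (k - 1) * (k + 1) = k * k - 1 := by ring
      rw [h16]
      exact h14
    have hpz : Prime (13 : ℤ) := by
      have := Nat.prime_iff_prime_int.1 hp.1
      exact_mod_cast this
    rcases hpz.dvd_or_dvd h15 with h16 | h16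
    · left
      have h17 : (g : G) ^ (k - 1) = 1 := by
        apply orderOf_dvd_iff_zpow_eq_one.1
        rw [hog]
        exact h16
      rw [zpow_sub, zpow_one, mul_inv_eq_one] at h17
      rw [← h11, h17]
    · right
      have h17 : (g : G) ^ (k + 1) = 1 := by
        apply orderOf_dvd_iff_zpow_eq_one.1
        rw [hog]
        exact h16
      rw [zpow_add, zpow_one] at h17
      rw [← h11]
      exact eq_inv_of_mul_eq_one_left h17
  refine ⟨g, hog, ?_⟩
  rcases key a ha with h10 | h10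
  · left
    rw [mul_inv_eq_iff_eq_mul] at h10
    exact h10.symm
  · rcases key b hb with h11 | h11
    · right
      left
      rw [mul_inv_eq_iff_eq_mul] at h11
      exact h11.symm
    · right
      right
      have h12 : (a * b) * g * (a * b)⁻¹ = g := by
        calc (a * b) * g * (a * b)⁻¹ = a * (b * g * b⁻¹) * a⁻¹ := by group
          _ = a * (g : G)⁻¹ * a⁻¹ := by rw [h11]
          _ = (a * g * a⁻¹)⁻¹ := by group
          _ = g := by rw [h10, inv_inv]
      rw [mul_inv_eq_iff_eq_mul] at h12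
      exact h12.symm

private theorem SzA2_Sg : ∀ q : Equiv.Perm (Fin 3) × ℤˣ, q.2 ≠ 1 → ∀ l, LC2_Sg q 1 ≠ ix l := by
  decide

theorem SzA2_card (hK : Ok K) {ω : Kˣ} (h3 : ω ^ 3 = 1) (h1 : ω ≠ 1) {F : Subgroup (EE K)}
    (hF : Ov F) (hZ : CZ ω F) : Nat.card (F ⊓ NN K : Subgroup (EE K)) ∣ 216 := by
  classical
  have h2 := ok_two hK
  have hfin := ok_EE_finite hK
  choose q hq using fun f : (F ⊓ NN K : Subgroup (EE K)) => LC2_ex h2 (Subgroup.mem_inf.1 f.2).2
  have hmul : ∀ f g, q (f * g) = q f * q g := by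
    intro f g
    apply LC2_P_unique (hq (f * g))
    exact LC2_P_mul (hq f) (hq g)
  have hsgn : ∀ f, (q f).2 = 1 := by
    intro f
    by_contra h4
    obtain ⟨c, hc, e1⟩ := hq f 1
    have hfF : (f : EE K) ∈ F := (Subgroup.mem_inf.1 f.2).1
    have h5 := m3_sup hK h3 h1 (hF.2 hfF) (hZ _ hfF) 0 (LC2_Sg (q f) 1) (SzA2_Sg _ h4)
    have h6 : (f : EE K) (ev (ix 0)) = c • ev (LC2_Sg (q f) 1) := e1
    rw [h6, Pi.smul_apply, ev_same, smul_eq_mul, mul_one] at h5
    exact hc h5
  let Q : (F ⊓ NN K : Subgroup (EE K)) →* Equiv.Perm (Fin 3) × ℤˣ := MonoidHom.mk' q hmul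
  let ψ : (F ⊓ NN K : Subgroup (EE K)) →* Equiv.Perm (Fin 3) := (MonoidHom.fst _ _).comp Q
  have hψ : ∀ f, ψ f = (q f).1 := fun f => rfl
  have hker : ψ.ker.map (F ⊓ NN K : Subgroup (EE K)).subtype = TT K := by
    ext x
    rw [Subgroup.mem_map]
    constructor
    · rintro ⟨f, hf, rfl⟩
      rw [MonoidHom.mem_ker, hψ] at hf
      have h4 : q f = 1 := Prod.ext hf (hsgn f)
      apply diag_mem_TT h2 (hF.2 (Subgroup.mem_inf.1 f.2).1)
      intro j
      obtain ⟨c, hc, e1⟩ := hq f j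
      rw [h4, LC2_Sg_one] at e1
      exact ⟨c, e1⟩
    · intro hx
      have hxM : x ∈ F ⊓ NN K := Subgroup.mem_inf.2 ⟨hF.1 hx, TT_le_NN hx⟩
      refine ⟨⟨x, hxM⟩, ?_, rfl⟩
      rw [MonoidHom.mem_ker, hψ]
      have h4 : q ⟨x, hxM⟩ = 1 := by
        apply LC2_P_unique (hq ⟨x, hxM⟩)
        intro j
        obtain ⟨t, rfl⟩ := hx
        exact ⟨_, Units.ne_zero _, by rw [LC2_Sg_one]; exact tor_ev t j⟩
      rw [h4]
      rfl
  have hk : Nat.card ψ.ker = 36 := by
    rw [← Subgroup.card_map_of_injective (F ⊓ NN K : Subgroup (EE K)).subtype_injective, hker,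
      ok_TT_card hK, cz_seven hK h3 h1]
    norm_num
  have hr : Nat.card ψ.range ∣ 6 := by
    have h4 : Nat.card ψ.range ∣ Nat.card (Equiv.Perm (Fin 3)) := Subgroup.card_subgroup_dvd_card _
    have h5 : Nat.card (Equiv.Perm (Fin 3)) = 6 := by
      rw [Nat.card_eq_fintype_card, Fintype.card_perm]
      rfl
    rwa [h5] at h4
  rw [← Subgroup.card_mul_index ψ.ker, Subgroup.index_ker, hk]
  exact mul_dvd_mul_left 36 hr

theorem SzA2_cent (hK : Ok K) {ω : Kˣ} (h3 : ω ^ 3 = 1) (h1 : ω ≠ 1) {F : Subgroup (EE K)}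
    (hF : Ov F) (hZ : CZ ω F) (hS : ∀ r ∈ SF F, 6 ≤ r.val) {e : Kˣ × Kˣ} (he : e ≠ 1)
    (he2 : e ^ 2 = 1) {f : EE K} (hf : f ∈ F) (hfe : f * tor e = tor e * f) : f ∈ NN K := by
  let F' : Subgroup (EE K) := F ⊓ Subgroup.centralizer {tor e}
  have hle : F' ≤ F := inf_le_left
  have hOv : Ov F' := by
    refine ⟨fun t ht => Subgroup.mem_inf.2 ⟨hF.1 ht, ?_⟩, hle.trans hF.2⟩
    rw [Subgroup.mem_centralizer_singleton_iff]
    exact TT_comm _ _ ht (tor_mem_TT e)
  have hSt : Std F' := by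
    apply Std_ce hK hOv he he2
    intro g hg
    have h4 := (Subgroup.mem_inf.1 hg).2
    rw [Subgroup.mem_centralizer_singleton_iff] at h4
    exact h4
  have hE : SF F' = ∅ := by
    apply Set.eq_empty_of_forall_notMem
    intro r hr
    have h4 : r ∈ SF F := fun s => hle (hr s)
    rw [SzC1_SF h3 h1 hZ hS] at h4
    exact h4
  have hfF' : f ∈ F' := Subgroup.mem_inf.2 ⟨hf, by
    rw [Subgroup.mem_centralizer_singleton_iff]
    exact hfe⟩
  obtain ⟨c, hc, hm⟩ := hSt f hfF'
  rw [hE, GS_empty] at hc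
  have h4 : f = c * (c⁻¹ * f) := by group
  rw [h4]
  exact mul_mem (TT_le_NN hc) hm

theorem sz_thirteen (hK : Ok K) {ω : Kˣ} (h3 : ω ^ 3 = 1) (h1 : ω ≠ 1) {F : Subgroup (EE K)}
    (hF : Ov F) (hZ : CZ ω F) (hS : ∀ r ∈ SF F, 6 ≤ r.val)
    (h : Nat.card F = 13 * Nat.card (F ⊓ NN K : Subgroup (EE K))) : False := by
  have h2 := ok_two hK
  have hfin := ok_EE_finite hK
  have hm1 : (-1 : Kˣ) ≠ 1 := by
    intro h4
    have h5 := congrArg Units.val h4
    rw [Units.val_neg, Units.val_one] at h5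
    exact h2 (by linear_combination -h5)
  have hcard := SzA2_card hK h3 h1 hF hZ
  have hzz : orderOf (⟨tor (ω, ω), hF.1 (tor_mem_TT _)⟩ : F) = 3 := by
    have hp3 : Fact (Nat.Prime 3) := ⟨by norm_num⟩
    apply orderOf_eq_prime
    · apply Subtype.ext
      show tor (ω, ω) ^ 3 = 1
      rw [← map_pow, Prod.pow_mk, h3]
      exact map_one _
    · intro h4
      have h5 : tor (ω, ω) = (1 : EE K) := congrArg Subtype.val h4
      rw [← map_one tor] at h5
      have h6 := tor_inj h5
      exact h1 (congrArg Prod.fst h6)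
  obtain ⟨g, hg, hgc⟩ := SzA2_grp hcard h ⟨tor (ω, ω), hF.1 (tor_mem_TT _)⟩
    (fun g => Subtype.ext (hZ g g.2)) hzz ⟨tor (1, -1), hF.1 (tor_mem_TT _)⟩
    ⟨tor (-1, 1), hF.1 (tor_mem_TT _)⟩
    (by
      apply Subtype.ext
      show tor (1, -1) * tor (1, -1) = (1 : EE K)
      rw [← map_mul, Prod.mk_mul_mk]
      simp only [mul_neg, neg_neg, mul_one]
      exact map_one _)
    (by
      apply Subtype.ext
      show tor (-1, 1) * tor (-1, 1) = (1 : EE K)
      rw [← map_mul, Prod.mk_mul_mk]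
      simp only [mul_neg, neg_neg, mul_one]
      exact map_one _)
  have hgN : (g : EE K) ∈ NN K := by
    rcases hgc with h4 | h4 | h4
    · refine SzA2_cent hK h3 h1 hF hZ hS (e := (1, -1)) ?_ ?_ g.2 (congrArg Subtype.val h4)
      · intro h5
        exact hm1 (congrArg Prod.snd h5)
      · rw [Prod.pow_mk]
        simp
    · refine SzA2_cent hK h3 h1 hF hZ hS (e := (-1, 1)) ?_ ?_ g.2 (congrArg Subtype.val h4)
      · intro h5
        exact hm1 (congrArg Prod.fst h5)
      · rw [Prod.pow_mk]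
        simp
    · refine SzA2_cent hK h3 h1 hF hZ hS (e := (-1, -1)) ?_ ?_ g.2 ?_
      · intro h5
        exact hm1 (congrArg Prod.fst h5)
      · rw [Prod.pow_mk]
        simp
      · have h5 : (g : EE K) * (tor (1, -1) * tor (-1, 1)) =
            (tor (1, -1) * tor (-1, 1)) * (g : EE K) :=
          congrArg Subtype.val h4
        rw [← map_mul, Prod.mk_mul_mk] at h5
        simp only [mul_one, one_mul] at h5
        exact h5
  have h5 : orderOf (g : EE K) ∣ Nat.card (F ⊓ NN K : Subgroup (EE K)) :=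
    Subgroup.orderOf_dvd_natCard _ (Subgroup.mem_inf.2 ⟨g.2, hgN⟩)
  rw [Subgroup.orderOf_coe, hg] at h5
  have h6 := h5.trans hcard
  norm_num at h6

end Pool.Agent.H40.GT
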