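import Pool.Agent.H40.GT.SzA2

/-!
# Part SzA3 (of SzA1, SzA2, SzA3); GT-26 groups centralising `z` without long root groups are in `NN`

`sz_core` (excludes `n = 5, 9`).  Suppose `x⁻¹ t x ∈ NN` for all `x ∈ F`, `t ∈ TT` with `t ^ 3 = 1`.
`K0 = {k ∈ F | ∀ x ∈ F, x⁻¹ k x ∈ NN}` is a normal subgroup of `F`, `K0 ≤ NN`; it contains all
`t ∈ TT` with `t ^ 3 = 1`.  Let `x ∈ F`, `x ∉ NN`, `t = tor (1, ω)`, `d = x⁻¹ t x ∈ K0`.
If `d ∈ TT`: `d ^ 3 = 1`, `d ∉ {1, z, z^2}` (these are central in `F`), so the three eigenvalues of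
`d` on `e_1, e_2, e_3` are different, elements of `F` commuting with `d` have diagonal `m3`, so are
in `NN` (`m3_NN`); `x⁻¹ t' x`, `t' ∈ TT`, commutes with `d`; so `x⁻¹ TT x ≤ NN`, and `lemC` gives
`x ∈ NN`, contradiction.  So `d ∈ NN`, `d ∉ TT`, `d ^ 3 = 1`: `d` permutes the coordinate lines of
`e_1, e_2, e_3` cyclically (it preserves their span), so it permutes the three involutions
of `TT` cyclically; for an involution `e ∈ TT` `(d e d⁻¹) e⁻¹ ∈ K0` is the third involution.  So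
`K0` contains the three involutions, and `t = t^4 * (t^3)⁻¹` with `(t^4)^3 = 1`, `(t^3)^2 = 1` shows
`TT ≤ K0`.  Again `lemC` gives `x ∈ NN`.

`sz_thirteen`: let `|F| = 13 |M|`, `M = F ⊓ NN`.  `M / TT` embeds in the symmetric group of the three
lines, so `|M|` divides `216`.  `P` a Sylow 13-subgroup of `F`; its normaliser contains `P` and
`{1, z, z^2}`, so the number of Sylow 13-subgroups divides `|F| / 39 = |M| / 3`, a divisor of `72`,
and is `1` modulo `13`: it is `1` (divisors of 72: 1,2,3,4,6,8,9,12,18,24,36,72).  So `P` is normal,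
cyclic of order 13.  The involutions `e1 = tor (1,-1)`, `e2 = tor (-1,1)` act on `P` as `1` or `-1`,
so one of `e1, e2, e1 e2` centralises `P`.  The centraliser in `F` of an involution `tor e` is
in `NN`: it is standard (`Std_ce`) and its `SF` is contained in `SF F`; `SF F` has no long root by
hypothesis and no short root (`X r 1`, `r` short, does not commute with `z`), so it is empty,
`GS K ∅ = TT K`.  So `P ≤ M`, but `13` does not divide `|M|`.

`sz_all`: from `sz_frames`, `n = 1` means `F ≤ NN`.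

`cent_BF`: `F' = C_F(t)` contains `TT` (`TT_comm`), `cen_cases`: (1) `F'` fixes a coordinate line:
`Std_pt`, `Std_le_BF`; (2) `F'` commutes with an involution: `Std_ce`, `Std_le_BF`; (3) `t = z`:
`sz_all` for `F'` (`SF F' ⊆ SF F`), `NN_le_BF`.
-/

namespace Pool.Agent.H40.GT

variable {K : Type} [Field K]

theorem sz_all (hK : Ok K) {ω : Kˣ} (h3 : ω ^ 3 = 1) (h1 : ω ≠ 1) {F : Subgroup (EE K)}
    (hF : Ov F) (hZ : CZ ω F) (hS : ∀ r ∈ SF F, 6 ≤ r.val) : F ≤ NN K := by
  have := ok_EE_finite hK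
  obtain ⟨n, hn, hc, h5⟩ := sz_frames hK h3 h1 hF hZ hS
  rcases hc with rfl | rfl | rfl | rfl
  · rw [one_mul] at hn
    have h : (F ⊓ NN K : Subgroup (EE K)) = F :=
      Subgroup.eq_of_le_of_card_ge inf_le_left hn.le
    rw [← h]
    exact inf_le_right
  · exact sz_core hK h3 h1 hF hZ hS (h5 (Or.inl rfl))
  · exact sz_core hK h3 h1 hF hZ hS (h5 (Or.inr rfl))
  · exact (sz_thirteen hK h3 h1 hF hZ hS hn).elim

/-- the centraliser in `F` of an element `t ≠ 1` of the torus is in the standard part of `F`, if `F`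
contains no long root group -/
theorem cent_BF (hK : Ok K) {F : Subgroup (EE K)} (hF : Ov F) (hS : ∀ r ∈ SF F, 6 ≤ r.val)
    {t : EE K} (ht : t ∈ TT K) (h1 : t ≠ 1) {f : EE K} (hf : f ∈ F) (hc : f * t = t * f) :
    f ∈ BF (ok_two hK) F := by
  obtain ⟨t, rfl⟩ := ht
  have ht1 : t ≠ 1 := by
    rintro rfl
    exact h1 (map_one _)
  let F' : Subgroup (EE K) := F ⊓ Subgroup.centralizer {tor t}
  have hmem : ∀ x : EE K, x ∈ F' ↔ x ∈ F ∧ x * tor t = tor t * x := by
    intro x
    rw [Subgroup.mem_inf, Subgroup.mem_centralizer_singleton_iff]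
  have hF' : Ov F' := by
    constructor
    · intro x hx
      exact (hmem x).2 ⟨hF.1 hx, TT_comm _ _ hx (tor_mem_TT t)⟩
    · exact le_trans inf_le_left hF.2
  have hle : F' ≤ F := inf_le_left
  have hfF : f ∈ F' := (hmem f).2 ⟨hf, hc⟩
  rcases cen_cases hK ht1 with ⟨j, hj, h⟩ | ⟨e, he, he2, h⟩ | ⟨ω, hω3, hω1, rfl⟩
  · exact Std_le_BF (ok_two hK) hF hF' hle
      (Std_pt hK hF' hj fun x hx => h x (hF'.2 hx) ((hmem x).1 hx).2) hfF
  · exact Std_le_BF (ok_two hK) hF hF' hle
      (Std_ce hK hF' he he2 fun x hx => h x (hF'.2 hx) ((hmem x).1 hx).2) hfF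
  · have h2 := sz_all hK hω3 hω1 hF' (fun x hx => ((hmem x).1 hx).2)
      (fun r hr => hS r fun s => hle (hr s)) hfF
    exact NN_le_BF (ok_two hK) hF ⟨h2, hf⟩

end Pool.Agent.H40.GT
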