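import Pool.Agent.H40.GT.StdE
import Pool.Agent.H40.GT.LemC
import Pool.Agent.H40.GT.Mn

/-!
# Part SzB1 (of SzB1, SzB2, SzC1, SzC2); GT-21 groups centralising `z = tor (ω, ω)`, `ω ^ 3 = 1`: three by three matrices

Let `ω ^ 3 = 1`, `ω ≠ 1` (so `|K| = 7`), `f ∈ GG` commuting with `z = tor (ω, ω)`; `z` acts as `ω` on
`e_1, e_2, e_3`, as `ω⁻¹` on `e_-1, e_-2, e_-3`, as `1` on `e_0`.
`m3 f` = the matrix of `f` on `⟨e_1, e_2, e_3⟩`.
* `m3_sup`: `f` preserves the three eigenspaces of `z`.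
* `m3_zero`: `f e_0 = e_0`: `f e_0 = ± e_0` by `bf`, and `br e_0 e_1 = 2 e_1`.
* `m3_inj`: the matrix on `⟨e_-1, e_-2, e_-3⟩` is the inverse transpose (`bf`).
* `m3_det`: `br e_1 e_2 = 2 e_-3` and `bf`: `det = 1`.
* `m3_X`: the matrices of the long root elements `X r s`, `r = 0..5` are `1 + s E_ij` with `(i,j)`
  (indices in `Fin 3`) `= (0,1), (1,0), (0,2), (2,0), (1,2), (2,1)`; so a matrix `m3 f` with exactly
  one nonzero off-diagonal entry is `m3 (tor t * X r s)`, `s ≠ 0`, and `f = tor t * X r s`.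
* `m3_NN`: if every column of `m3 f` has exactly one nonzero entry (`f` invertible), `f ∈ NN`.
* `sz_mon`: let `F` commute with `z`, `Ov F`, `SF F ∩ {long} = ∅`; `f ∈ F` with
  `f e_j ∈ K e_l` (`j, l ∈ {1,2,3}`): then `f ∈ NN`.  If `j = l`: the stabiliser `F'` of the
  line of `e_j` in `F` is standard (`Std_pt`), `SF F' ⊆ SF F`; all roots in `SF F` are long
  (`X r 1`, `r` short, does not commute with `z`: `X_comm_tor`), so `SF F = ∅`, `GS K ∅ = TT K` and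
  `F' ≤ NN`.  In general: for `t ∈ TT` `f⁻¹ t f` fixes the line of `e_j`, so it is in `NN`; by `lemC`
  (for `g = f⁻¹`) `f⁻¹ ∈ NN`.
* `sz_two`: no column of `m3 f`, `f ∈ F`, has exactly one zero entry: let `ρ : K ≃+* ZMod 7`
  (a field with 7 elements; e.g. `ZMod.ringEquivOfPrime` or `FiniteField.algEquivOfCardEq`),
  the set of the matrices `(m3 f).map ρ`, `f ∈ F`, is an `MG`; `mg_two`.
-/

namespace Pool.Agent.H40.GT

variable {K : Type} [Field K]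

/-- the indices of `e_1, e_2, e_3` -/
def ix : Fin 3 → Fin 7 := ![1, 2, 3]

/-- the matrix on `⟨e_1, e_2, e_3⟩` -/
def m3 (f : EE K) : Matrix (Fin 3) (Fin 3) K := fun i j => f (ev (ix j)) (ix i)

/-- `F` centralises `z` -/
def CZ (ω : Kˣ) (F : Subgroup (EE K)) : Prop := ∀ f ∈ F, f * tor (ω, ω) = tor (ω, ω) * f

theorem cz_seven (hK : Ok K) {ω : Kˣ} (h3 : ω ^ 3 = 1) (h1 : ω ≠ 1) : Nat.card K = 7 := by
  rcases hK with h | h
  · exact h
  · exfalso
    apply h1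
    have h2 : ω ^ Nat.card Kˣ = 1 := pow_card_eq_one'
    have h4 : Nat.card Kˣ = 10 := by
      rw [ok_units (Or.inr h), h]
    rw [h4] at h2
    calc ω = ω ^ 10 * ((ω ^ 3) ^ 3)⁻¹ := by group
      _ = 1 := by rw [h2, h3, one_pow, inv_one, mul_one]

/-- the characters of `z` -/
theorem SzB1_ch {ω : Kˣ} (h3 : ω ^ 3 = 1) (i : Fin 7) :
    ch (wt i) (ω, ω) = (![1, ω, ω, ω, ω ^ 2, ω ^ 2, ω ^ 2] : Fin 7 → Kˣ) i := by
  have e1 : ω⁻¹ = ω ^ 2 := by
    rw [inv_eq_iff_mul_eq_one, ← pow_succ']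
    exact h3
  have e2 : ω ^ 2 * ω ^ 2 = ω := by
    calc ω ^ 2 * ω ^ 2 = ω ^ 3 * ω := by group
      _ = ω := by rw [h3, one_mul]
  fin_cases i
  · simp [ch, wt]
  · simp [ch, wt]
  · simp [ch, wt]
  · simp [ch, wt, e1, e2]
  · simp [ch, wt, e1]
  · simp [ch, wt, e1]
  · simp [ch, wt, pow_two]

theorem SzB1_ne {ω : Kˣ} (h3 : ω ^ 3 = 1) (h1 : ω ≠ 1) :
    (ω : K) ≠ 1 ∧ ((ω ^ 2 : Kˣ) : K) ≠ 1 ∧ ((ω ^ 2 : Kˣ) : K) ≠ ω := by
  refine ⟨fun h => h1 (Units.ext h), fun h => ?_, fun h => ?_⟩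
  · have h2 : ω ^ 2 = 1 := Units.ext h
    apply h1
    rw [pow_succ, h2, one_mul] at h3
    exact h3
  · have h2 : ω ^ 2 = ω := Units.ext h
    apply h1
    rw [pow_two] at h2
    exact mul_left_cancel (h2.trans (mul_one ω).symm)

section
variable {ω : Kˣ} {f g : EE K}

theorem SzB1_comm (hz : f * tor (ω, ω) = tor (ω, ω) * f) (j i : Fin 7)
    (hij : (ch (wt i) (ω, ω) : K) ≠ ch (wt j) (ω, ω)) : f (ev j) i = 0 := by
  have h := congrFun (congrArg (fun e : EE K => e (ev j)) hz) i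
  have h2 : (f * tor (ω, ω)) (ev j) i = (ch (wt j) (ω, ω) : K) * f (ev j) i := by
    rw [LinearEquiv.mul_apply, tor_ev, map_smul, Pi.smul_apply, smul_eq_mul]
  have h4 : (tor (ω, ω) * f) (ev j) i = (ch (wt i) (ω, ω) : K) * f (ev j) i := by
    rw [LinearEquiv.mul_apply, tor_apply]
  have h5 : (ch (wt j) (ω, ω) : K) * f (ev j) i = (ch (wt i) (ω, ω) : K) * f (ev j) i := by
    rw [← h2, ← h4]
    exact h
  have h6 : ((ch (wt i) (ω, ω) : K) - ch (wt j) (ω, ω)) * f (ev j) i = 0 := by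
    rw [sub_mul, h5, sub_self]
  exact (mul_eq_zero.1 h6).resolve_left (sub_ne_zero.2 hij)

theorem m3_sup (hK : Ok K) (h3 : ω ^ 3 = 1) (h1 : ω ≠ 1) (hf : f ∈ GG K)
    (hz : f * tor (ω, ω) = tor (ω, ω) * f) (j : Fin 3) (i : Fin 7)
    (hi : ∀ l, i ≠ ix l) : f (ev (ix j)) i = 0 := by
  obtain ⟨n1, n2, n3⟩ := SzB1_ne h3 h1
  apply SzB1_comm hz
  rw [SzB1_ch h3, SzB1_ch h3]
  have hj : (![1, ω, ω, ω, ω ^ 2, ω ^ 2, ω ^ 2] : Fin 7 → Kˣ) (ix j) = ω := by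
    fin_cases j <;> rfl
  rw [hj]
  fin_cases i
  · exact n1.symm
  · exact absurd rfl (hi 0)
  · exact absurd rfl (hi 1)
  · exact absurd rfl (hi 2)
  · exact n3
  · exact n3
  · exact n3

theorem SzB1_sup0 (h3 : ω ^ 3 = 1) (h1 : ω ≠ 1)
    (hz : f * tor (ω, ω) = tor (ω, ω) * f) (i : Fin 7) (hi : i ≠ 0) : f (ev 0) i = 0 := by
  obtain ⟨n1, n2, n3⟩ := SzB1_ne h3 h1
  apply SzB1_comm hz
  rw [SzB1_ch h3, SzB1_ch h3]
  fin_cases i
  · exact absurd rfl hi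
  · exact n1
  · exact n1
  · exact n1
  · exact n2
  · exact n2
  · exact n2

theorem SzB1_br0 (v : V K) (h0 : v 0 = 0) (h4 : v 4 = 0) (h5 : v 5 = 0) (h6 : v 6 = 0) (a : K) :
    br (a • ev 0) v = (2 * a) • v := by
  funext i
  fin_cases i <;> simp [br, ev, h0, h4, h5, h6] <;> ring

theorem m3_zero (hK : Ok K) (h3 : ω ^ 3 = 1) (h1 : ω ≠ 1) (hf : f ∈ GG K)
    (hz : f * tor (ω, ω) = tor (ω, ω) * f) : f (ev 0) = ev 0 := by
  have h2 := ok_two hK
  have e0 : f (ev 0) = f (ev 0) 0 • ev 0 := by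
    funext i
    rw [Pi.smul_apply, smul_eq_mul]
    by_cases hi : i = 0
    · rw [hi, ev_same, mul_one]
    · rw [ev_ne hi, mul_zero, SzB1_sup0 h3 h1 hz i hi]
  obtain ⟨a, ha⟩ : ∃ a, a = f (ev 0) 0 := ⟨_, rfl⟩
  rw [← ha] at e0
  have hs := fun i hi => m3_sup hK h3 h1 hf hz 0 i hi
  have e1 : br (f (ev 0)) (f (ev 1)) = (2 * a) • f (ev 1) := by
    rw [e0]
    apply SzB1_br0
    · exact hs 0 (by decide)
    · exact hs 4 (by decide)
    · exact hs 5 (by decide)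
    · exact hs 6 (by decide)
  have e2 : br (ev 0 : V K) (ev 1) = (2 : K) • ev 1 := by
    have := SzB1_br0 (ev 1 : V K) (ev_ne (by decide)) (ev_ne (by decide)) (ev_ne (by decide))
      (ev_ne (by decide)) 1
    rw [one_smul, mul_one] at this
    exact this
  rw [← hf.1, e2, map_smul] at e1
  have hne : f (ev 1) ≠ 0 := by
    intro h
    have h4 : (ev 1 : V K) = 0 := by
      apply f.injective
      rw [h, map_zero]
    have h5 := congrFun h4 1
    rw [ev_same] at h5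
    exact one_ne_zero h5
  have e3 : (2 * (a - 1)) • f (ev 1) = 0 := by
    have : (2 * (a - 1)) • f (ev 1) = (2 * a) • f (ev 1) - (2 : K) • f (ev 1) := by
      rw [← sub_smul]
      congr 1
      ring
    rw [this, ← e1, sub_self]
  have e4 := (smul_eq_zero.1 e3).resolve_right hne
  have e5 : a = 1 := sub_eq_zero.1 ((mul_eq_zero.1 e4).resolve_left h2)
  rw [e0, e5, one_smul]

theorem SzB1_exp (hK : Ok K) (h3 : ω ^ 3 = 1) (h1 : ω ≠ 1) (hg : g ∈ GG K)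
    (hz : g * tor (ω, ω) = tor (ω, ω) * g) (j : Fin 3) :
    g (ev (ix j)) = ∑ l, m3 g l j • ev (ix l) := by
  funext i
  rw [Finset.sum_apply, Fin.sum_univ_three]
  simp only [Pi.smul_apply, smul_eq_mul]
  show g (ev (ix j)) i = g (ev (ix j)) (ix 0) * (ev (ix 0) : V K) i +
    g (ev (ix j)) (ix 1) * (ev (ix 1) : V K) i + g (ev (ix j)) (ix 2) * (ev (ix 2) : V K) i
  by_cases hi : ∀ l, i ≠ ix l
  · rw [m3_sup hK h3 h1 hg hz j i hi, ev_ne (hi 0), ev_ne (hi 1), ev_ne (hi 2)]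
    ring
  · push Not at hi
    obtain ⟨l, rfl⟩ := hi
    fin_cases l
    · show g (ev (ix j)) (ix 0) = g (ev (ix j)) (ix 0) * (ev (ix 0) : V K) (ix 0) +
        g (ev (ix j)) (ix 1) * (ev (ix 1) : V K) (ix 0) +
        g (ev (ix j)) (ix 2) * (ev (ix 2) : V K) (ix 0)
      rw [ev_same, ev_ne (i := ix 0) (j := ix 1) (by decide),
        ev_ne (i := ix 0) (j := ix 2) (by decide)]
      ring
    · show g (ev (ix j)) (ix 1) = g (ev (ix j)) (ix 0) * (ev (ix 0) : V K) (ix 1) +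
        g (ev (ix j)) (ix 1) * (ev (ix 1) : V K) (ix 1) +
        g (ev (ix j)) (ix 2) * (ev (ix 2) : V K) (ix 1)
      rw [ev_same, ev_ne (i := ix 1) (j := ix 0) (by decide),
        ev_ne (i := ix 1) (j := ix 2) (by decide)]
      ring
    · show g (ev (ix j)) (ix 2) = g (ev (ix j)) (ix 0) * (ev (ix 0) : V K) (ix 2) +
        g (ev (ix j)) (ix 1) * (ev (ix 1) : V K) (ix 2) +
        g (ev (ix j)) (ix 2) * (ev (ix 2) : V K) (ix 2)
      rw [ev_same, ev_ne (i := ix 2) (j := ix 0) (by decide),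
        ev_ne (i := ix 2) (j := ix 1) (by decide)]
      ring

theorem m3_mul (hK : Ok K) (h3 : ω ^ 3 = 1) (h1 : ω ≠ 1) (hg : g ∈ GG K)
    (hz : g * tor (ω, ω) = tor (ω, ω) * g) : m3 (f * g) = m3 f * m3 g := by
  ext i j
  show (f * g) (ev (ix j)) (ix i) = _
  rw [LinearEquiv.mul_apply, SzB1_exp hK h3 h1 hg hz j, map_sum, Finset.sum_apply,
    Matrix.mul_apply]
  refine Finset.sum_congr rfl fun l _ => ?_
  rw [map_smul, Pi.smul_apply, smul_eq_mul, mul_comm]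
  rfl

theorem SzB1_br6 : br (ev 1 : V K) (ev 2) = (2 : K) • ev 6 := by
  funext i
  fin_cases i <;> simp [br, ev]

theorem SzB1_br4 : br (ev 2 : V K) (ev 3) = (2 : K) • ev 4 := by
  funext i
  fin_cases i <;> simp [br, ev]

theorem SzB1_br5 : br (ev 3 : V K) (ev 1) = (2 : K) • ev 5 := by
  funext i
  fin_cases i <;> simp [br, ev]

theorem m3_inj (hK : Ok K) (h3 : ω ^ 3 = 1) (h1 : ω ≠ 1) (hf : f ∈ GG K)
    (hz : f * tor (ω, ω) = tor (ω, ω) * f) (hg : g ∈ GG K)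
    (hz' : g * tor (ω, ω) = tor (ω, ω) * g) (h : m3 f = m3 g) : f = g := by
  have h2 := ok_two hK
  have key : ∀ j : Fin 3, f (ev (ix j)) = g (ev (ix j)) := by
    intro j
    rw [SzB1_exp hK h3 h1 hf hz j, SzB1_exp hK h3 h1 hg hz' j, h]
  have k1 : f (ev 1) = g (ev 1) := key 0
  have k2 : f (ev 2) = g (ev 2) := key 1
  have k3 : f (ev 3) = g (ev 3) := key 2
  have k0 : f (ev 0) = g (ev 0) := by
    rw [m3_zero hK h3 h1 hf hz, m3_zero hK h3 h1 hg hz']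
  have aux : ∀ a b c : Fin 7, br (ev a : V K) (ev b) = (2 : K) • ev c →
      f (ev a) = g (ev a) → f (ev b) = g (ev b) → f (ev c) = g (ev c) := by
    intro a b c hbr ha hb
    have e1 : (2 : K) • f (ev c) = (2 : K) • g (ev c) := by
      rw [← map_smul, ← map_smul, ← hbr, hf.1, hg.1, ha, hb]
    have e2 : (2 : K) • (f (ev c) - g (ev c)) = 0 := by
      rw [smul_sub, e1, sub_self]
    exact sub_eq_zero.1 ((smul_eq_zero.1 e2).resolve_left h2)
  apply EE_ext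
  intro j
  fin_cases j
  · exact k0
  · exact k1
  · exact k2
  · exact k3
  · exact aux 2 3 4 SzB1_br4 k2 k3
  · exact aux 3 1 5 SzB1_br5 k3 k1
  · exact aux 1 2 6 SzB1_br6 k1 k2

end

end Pool.Agent.H40.GT
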