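import Pool.Agent.H40.GT.SzB1

/-!
# Part SzB2 (of SzB1, SzB2, SzC1, SzC2); GT-21 groups centralising `z = tor (ω, ω)`, `ω ^ 3 = 1`: three by three matrices

Let `ω ^ 3 = 1`, `ω ≠ 1` (so `|K| = 7`), `f ∈ GG` commuting with `z = tor (ω, ω)`; `z` acts as `ω` on
`e_1, e_2, e_3`, as `ω⁻¹` on `e_-1, e_-2, e_-3`, as `1` on `e_0`.
`m3 f` = the matrix of `f` on `⟨e_1, e_2, e_3⟩`.
* `m3_sup`: `f` preserves the three eigenspaces of `z`.
* `m3_zero`: `f e_0 = e_0`: `f e_0 = ± e_0` by `bf`, and `br e_0 e_1 = 2 e_1`.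
* `m3_inj`: the matrix on `⟨e_-1, e_-2, e_-3⟩` is the inverse transpose (`bf`).
* `m3_det`: `br e_1 e_2 = 2 e_-3` and `bf`: `det = 1`.
* `m3_X`: the matrices of the long root elements `X r s`, `r = 0..5` are `1 + s E_ij` with `(i,j)`
  (indices in `Fin 3`) `= (0,1), (1,0), (0,2), (2,0), (1,2), (2,1)`; so a matrix `m3 f` with exactly
  one nonzero off-diagonal entry is `m3 (tor t * X r s)`, `s ≠ 0`, and `f = tor t * X r s`.
* `m3_NN`: if every column of `m3 f` has exactly one nonzero entry (`f` invertible), `f ∈ NN`.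
* `sz_mon`: let `F` commute with `z`, `Ov F`, `SF F ∩ {long} = ∅`; `f ∈ F` with
  `f e_j ∈ K e_l` (`j, l ∈ {1,2,3}`): then `f ∈ NN`.  If `j = l`: the stabiliser `F'` of the
  line of `e_j` in `F` is standard (`Std_pt`), `SF F' ⊆ SF F`; all roots in `SF F` are long
  (`X r 1`, `r` short, does not commute with `z`: `X_comm_tor`), so `SF F = ∅`, `GS K ∅ = TT K` and
  `F' ≤ NN`.  In general: for `t ∈ TT` `f⁻¹ t f` fixes the line of `e_j`, so it is in `NN`; by `lemC`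
  (for `g = f⁻¹`) `f⁻¹ ∈ NN`.
* `sz_two`: no column of `m3 f`, `f ∈ F`, has exactly one zero entry: let `ρ : K ≃+* ZMod 7`
  (a field with 7 elements; e.g. `ZMod.ringEquivOfPrime` or `FiniteField.algEquivOfCardEq`),
  the set of the matrices `(m3 f).map ρ`, `f ∈ F`, is an `MG`; `mg_two`.
-/

namespace Pool.Agent.H40.GT

variable {K : Type} [Field K]

theorem SzB2_sq {ω : Kˣ} (h3 : ω ^ 3 = 1) (h1 : ω ≠ 1) : ω ^ 2 ≠ 1 := by
  intro h2
  apply h1
  have h4 : ω ^ 3 = ω ^ 2 * ω := pow_succ ω 2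
  rw [h3, h2, one_mul] at h4
  exact h4.symm

theorem SzB2_ev (j : Fin 7) : (ev j : V K) ≠ 0 := by
  intro h0
  have h1 := congrFun h0 j
  rw [ev_same] at h1
  exact one_ne_zero h1

theorem SzB2_ne {f : EE K} {a b : Fin 7} {c : K} (h : f (ev a) = c • ev b) : c ≠ 0 := by
  intro h0
  rw [h0, zero_smul] at h
  exact SzB2_ev a (f.map_eq_zero_iff.1 h)

theorem SzB2_inj {f : EE K} {a a' b : Fin 7} {c c' : K} (h : f (ev a) = c • ev b)
    (h' : f (ev a') = c' • ev b) : a = a' := by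
  by_contra hne'
  have hc := SzB2_ne h
  have hc' := SzB2_ne h'
  have h1 : f (c⁻¹ • ev a) = f (c'⁻¹ • ev a') := by
    rw [map_smul, map_smul, h, h', smul_smul, smul_smul, inv_mul_cancel₀ hc,
      inv_mul_cancel₀ hc']
  have h2 := congrFun (f.injective h1) a
  rw [Pi.smul_apply, Pi.smul_apply, ev_same, ev_ne hne', smul_zero, smul_eq_mul, mul_one] at h2
  exact inv_ne_zero hc h2

/-- the eigenvalues of `z` -/
theorem SzB2_chi {ω : Kˣ} (h3 : ω ^ 3 = 1) (i : Fin 7) :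
    ch (wt i) (ω, ω) = ![1, ω, ω, ω, ω ^ 2, ω ^ 2, ω ^ 2] i := by
  have h4 : ω⁻¹ = ω ^ 2 := by
    rw [inv_eq_iff_mul_eq_one, ← pow_succ', h3]
  have h5 : ω ^ 2 * ω ^ 2 = ω := by
    rw [← pow_add]
    show ω ^ (3 + 1) = ω
    rw [pow_add, h3, one_mul, pow_one]
  fin_cases i
  · simp [ch, wt]
  · simp [ch, wt]
  · simp [ch, wt]
  · show ω ^ (-1 : ℤ) * ω ^ (-1 : ℤ) = ω
    rw [zpow_neg_one, h4, h5]
  · show ω ^ (-1 : ℤ) * ω ^ (0 : ℤ) = ω ^ 2
    rw [zpow_neg_one, h4, zpow_zero, mul_one]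
  · show ω ^ (0 : ℤ) * ω ^ (-1 : ℤ) = ω ^ 2
    rw [zpow_neg_one, h4, zpow_zero, one_mul]
  · show ω ^ (1 : ℤ) * ω ^ (1 : ℤ) = ω ^ 2
    rw [zpow_one, sq]

/-- the indices of `e_-1, e_-2, e_-3` -/
def SzB2_iy : Fin 3 → Fin 7 := ![4, 5, 6]

theorem SzB2_bf (x : V K) (j : Fin 3) : bf x (ev (ix j)) = x (SzB2_iy j) := by
  fin_cases j <;> simp [bf, ev, Pi.single_apply, ix, SzB2_iy]

theorem SzB2_bf_smul (x y : V K) (c : K) : bf x (c • y) = c * bf x y := by
  simp only [bf, Pi.smul_apply, smul_eq_mul]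
  ring

theorem SzB2_co1 (x : V K) (j : Fin 7) (h : ∀ i, i ≠ j → x i = 0) : x = x j • ev j := by
  ext i
  rw [Pi.smul_apply, smul_eq_mul]
  by_cases h5 : i = j
  · subst h5
    rw [ev_same, mul_one]
  · rw [h i h5, ev_ne h5, mul_zero]

/-- monomial elements of `GG` are in `NN` -/
theorem SzB2_NN {f : EE K} (hf : f ∈ GG K) (h : ∀ j, ∃ i, ∃ c : K, f (ev j) = c • ev i) :
    f ∈ NN K := by
  have hev : ∀ j : Fin 7, (ev j : V K) ≠ 0 := by
    intro j h0
    have h1 := congrFun h0 j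
    rw [ev_same] at h1
    exact one_ne_zero h1
  choose σ c hc using h
  have hne : ∀ j, c j ≠ 0 := by
    intro j h0
    have h1 := hc j
    rw [h0, zero_smul] at h1
    exact hev j (f.map_eq_zero_iff.1 h1)
  have hinj : Function.Injective σ := by
    intro i j hij
    by_contra hne'
    have h1 : f ((c i)⁻¹ • ev i) = f ((c j)⁻¹ • ev j) := by
      rw [map_smul, map_smul, hc, hc, smul_smul, smul_smul, inv_mul_cancel₀ (hne i),
        inv_mul_cancel₀ (hne j), hij]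
    have h2 := congrFun (f.injective h1) i
    rw [Pi.smul_apply, Pi.smul_apply, ev_same, ev_ne hne', smul_zero, smul_eq_mul, mul_one] at h2
    exact inv_ne_zero (hne i) h2
  have hsurj : Function.Surjective σ := Finite.surjective_of_injective hinj
  refine ⟨hf, fun j => ⟨σ j, c j, hc j⟩, fun j => ?_⟩
  obtain ⟨i, rfl⟩ := hsurj j
  refine ⟨i, (c i)⁻¹, ?_⟩
  have h1 : f ((c i)⁻¹ • ev i) = ev (σ i) := by
    rw [map_smul, hc, smul_smul, inv_mul_cancel₀ (hne i), one_smul]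
  rw [← h1]
  exact f.symm_apply_apply _

theorem SzB2_br : br (ev 1 : V K) (ev 2) = (2 : K) • ev 6 := by
  ext i
  fin_cases i <;> simp [br, ev, Pi.single_apply]

section
variable {ω : Kˣ} {f g : EE K}

theorem m3_det (hK : Ok K) (h3 : ω ^ 3 = 1) (h1 : ω ≠ 1) (hf : f ∈ GG K)
    (hz : f * tor (ω, ω) = tor (ω, ω) * f) : Matrix.det (m3 f) = 1 := by
  have hs : ∀ (j : Fin 3) (i : Fin 7), (∀ l, i ≠ ix l) → f (ev (ix j)) i = 0 :=
    fun j i hi => m3_sup hK h3 h1 hf hz j i hi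
  have e1 : bf (f (ev 3)) (br (f (ev 1)) (f (ev 2))) = 2 := by
    rw [← hf.1, hf.2, SzB2_br]
    simp [bf, ev, Pi.single_apply]
  have z0 : ∀ l : Fin 3, (0 : Fin 7) ≠ ix l := by decide
  have z4 : ∀ l : Fin 3, (4 : Fin 7) ≠ ix l := by decide
  have z5 : ∀ l : Fin 3, (5 : Fin 7) ≠ ix l := by decide
  have z6 : ∀ l : Fin 3, (6 : Fin 7) ≠ ix l := by decide
  have a0 : f (ev 1) 0 = 0 := hs 0 0 z0
  have a4 : f (ev 1) 4 = 0 := hs 0 4 z4
  have a5 : f (ev 1) 5 = 0 := hs 0 5 z5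
  have a6 : f (ev 1) 6 = 0 := hs 0 6 z6
  have b0 : f (ev 2) 0 = 0 := hs 1 0 z0
  have b4 : f (ev 2) 4 = 0 := hs 1 4 z4
  have b5 : f (ev 2) 5 = 0 := hs 1 5 z5
  have b6 : f (ev 2) 6 = 0 := hs 1 6 z6
  have c0 : f (ev 3) 0 = 0 := hs 2 0 z0
  have c4 : f (ev 3) 4 = 0 := hs 2 4 z4
  have c5 : f (ev 3) 5 = 0 := hs 2 5 z5
  have c6 : f (ev 3) 6 = 0 := hs 2 6 z6
  have e2 : bf (f (ev 3)) (br (f (ev 1)) (f (ev 2))) = 2 * Matrix.det (m3 f) := by
    rw [Matrix.det_fin_three]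
    show _ = 2 * (f (ev 1) 1 * f (ev 2) 2 * f (ev 3) 3 - f (ev 1) 1 * f (ev 3) 2 * f (ev 2) 3 -
      f (ev 2) 1 * f (ev 1) 2 * f (ev 3) 3 + f (ev 2) 1 * f (ev 3) 2 * f (ev 1) 3 +
      f (ev 3) 1 * f (ev 1) 2 * f (ev 2) 3 - f (ev 3) 1 * f (ev 2) 2 * f (ev 1) 3)
    simp only [bf, br, Matrix.cons_val]
    rw [a0, a4, a5, a6, b0, b4, b5, b6, c0, c4, c5, c6]
    ring
  rw [e1] at e2
  have h2 := ok_two hK
  exact (mul_left_cancel₀ h2 (by rw [mul_one]; exact e2)).symm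

theorem m3_one : m3 (1 : EE K) = 1 := by
  ext i j
  show (ev (ix j) : V K) (ix i) = (1 : Matrix (Fin 3) (Fin 3) K) i j
  fin_cases i <;> fin_cases j <;> simp [ix, ev, Pi.single_apply]

theorem m3_tor (t : Kˣ × Kˣ) : m3 (tor t) =
    Matrix.diagonal ![(t.1 : K), (t.2 : K), ((t.1 * t.2)⁻¹ : Kˣ)] := by
  ext i j
  show tor t (ev (ix j) : V K) (ix i) = _
  rw [tor_apply]
  fin_cases i <;> fin_cases j <;> simp [ix, ev, Pi.single_apply, ch, wt, mul_comm]

theorem m3_NN (hK : Ok K) (h3 : ω ^ 3 = 1) (h1 : ω ≠ 1) (hf : f ∈ GG K)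
    (hz : f * tor (ω, ω) = tor (ω, ω) * f) (h : ∀ j, ∃ l, ∀ i, i ≠ l → m3 f i j = 0) :
    f ∈ NN K := by
  choose σ hσ using h
  have hx : ∀ j, f (ev (ix j)) = f (ev (ix j)) (ix (σ j)) • ev (ix (σ j)) := by
    intro j
    apply SzB2_co1
    intro i hi
    by_cases hl : ∃ l, i = ix l
    · obtain ⟨l, rfl⟩ := hl
      exact hσ j l (fun h4 => hi (by rw [h4]))
    · push Not at hl
      exact m3_sup hK h3 h1 hf hz j i hl
  have hinj : Function.Injective σ := by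
    intro a b hab
    have ha := hx a
    have hb := hx b
    rw [← hab] at hb
    have h4 := SzB2_inj ha hb
    revert h4
    have : ∀ a b : Fin 3, ix a = ix b → a = b := by decide
    exact this a b
  have hsurj : Function.Surjective σ := Finite.surjective_of_injective hinj
  have h2 := SzB2_sq h3 h1
  have h21 : ω ^ 2 ≠ ω := by
    intro h4
    apply h1
    rw [sq] at h4
    exact mul_eq_left.1 h4
  have hy : ∀ j, f (ev (SzB2_iy j)) = f (ev (SzB2_iy j)) (SzB2_iy (σ j)) •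
      ev (SzB2_iy (σ j)) := by
    intro j
    apply SzB2_co1
    intro i hi
    have tab : ∀ i : Fin 7, i = 0 ∨ (∃ l, i = ix l) ∨ ∃ l, i = SzB2_iy l := by decide
    have ey : ∀ j : Fin 3, ch (wt (SzB2_iy j)) (ω, ω) = ω ^ 2 := by
      intro j
      rw [SzB2_chi h3]
      fin_cases j <;> rfl
    have ex : ∀ j : Fin 3, ch (wt (ix j)) (ω, ω) = ω := by
      intro j
      rw [SzB2_chi h3]
      fin_cases j <;> rfl
    rcases tab i with h4 | ⟨l, h4⟩ | ⟨l, h4⟩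
    · apply Cen_eig hz
      rw [ey, h4, SzB2_chi h3]
      exact h2.symm
    · apply Cen_eig hz
      rw [ey, h4, ex]
      exact h21.symm
    · obtain ⟨k, rfl⟩ := hsurj l
      subst h4
      have hkj : k ≠ j := fun h5 => hi (by rw [h5])
      have e1 : bf (f (ev (SzB2_iy j))) (f (ev (ix k))) = 0 := by
        rw [hf.2, SzB2_bf]
        apply ev_ne
        intro h5
        apply hkj
        revert h5
        have : ∀ a b : Fin 3, SzB2_iy a = SzB2_iy b → a = b := by decide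
        exact this k j
      have e3 := SzB2_ne (hx k)
      rw [hx k, SzB2_bf_smul, SzB2_bf] at e1
      exact (mul_eq_zero.1 e1).resolve_left e3
  apply SzB2_NN hf
  intro j
  have tab : ∀ i : Fin 7, i = 0 ∨ (∃ l, i = ix l) ∨ ∃ l, i = SzB2_iy l := by decide
  rcases tab j with h4 | ⟨l, h4⟩ | ⟨l, h4⟩
  · subst h4
    exact ⟨0, 1, by rw [one_smul]; exact m3_zero hK h3 h1 hf hz⟩
  · subst h4
    exact ⟨_, _, hx l⟩
  · subst h4
    exact ⟨_, _, hy l⟩

/-- the root with matrix unit `E_ij` -/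
def SzB2_r : Fin 3 → Fin 3 → Rt := ![![0, 0, 2], ![1, 0, 4], ![3, 5, 0]]

theorem SzB2_X {i j : Fin 3} (hij : i ≠ j) (s : K) (r c : Fin 3) :
    m3 (X (SzB2_r i j) s) r c = (if r = c then 1 else 0) + if r = i ∧ c = j then s else 0 := by
  show X (SzB2_r i j) s (ev (ix c) : V K) (ix r) = _
  rw [X_apply]
  fin_cases i <;> fin_cases j <;> first | (exact absurd rfl hij) |
    (fin_cases r <;> fin_cases c <;> simp [SzB2_r, ix, ev, Pi.single_apply, cc, sc, qc, qs])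

theorem SzB2_XGG (h3 : ω ^ 3 = 1) (i j : Fin 3) (s : K) :
    X (SzB2_r i j) s * tor (ω, ω) = tor (ω, ω) * X (SzB2_r i j) s := by
  by_cases hs : s = 0
  · rw [hs, X_zero, one_mul, mul_one]
  rw [X_comm_tor _ _ _ hs]
  have h4 : ω⁻¹ = ω ^ 2 := by
    rw [inv_eq_iff_mul_eq_one, ← pow_succ', h3]
  have h5 : ω ^ 2 * ω = 1 := by
    rw [← pow_succ, h3]
  have h6 : ω * ω ^ 2 = 1 := by
    rw [← pow_succ', h3]
  have h7 : (ω ^ 2)⁻¹ * ω⁻¹ = 1 := by
    rw [← mul_inv_rev, h6, inv_one]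
  have h8 : ω⁻¹ * (ω ^ 2)⁻¹ = 1 := by
    rw [← mul_inv_rev, h5, inv_one]
  fin_cases i <;> fin_cases j <;>
    simp [SzB2_r, ch, rt, zpow_neg]
  all_goals first | exact h5 | exact h6 | exact h7 | exact h8

theorem m3_X (hK : Ok K) (h3 : ω ^ 3 = 1) (h1 : ω ≠ 1) (hf : f ∈ GG K)
    (hz : f * tor (ω, ω) = tor (ω, ω) * f) {i j : Fin 3} (hij : i ≠ j) (hn : m3 f i j ≠ 0)
    (h : ∀ r c, r ≠ c → (r ≠ i ∨ c ≠ j) → m3 f r c = 0) :
    ∃ t, ∃ r : Rt, r.val < 6 ∧ ∃ s : K, s ≠ 0 ∧ f = tor t * X r s := by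
  have hzz : ∀ r c r' c' : Fin 3, r ≠ c → r' ≠ c' → (r ≠ r' ∨ c ≠ c') →
      m3 f r c * m3 f r' c' = 0 := by
    intro r c r' c' hr hr' hd
    by_cases h5 : r ≠ i ∨ c ≠ j
    · rw [h r c hr h5, zero_mul]
    · push Not at h5
      rw [h r' c' hr' (by
        rcases hd with h6 | h6
        · left
          intro h7
          exact h6 (h5.1.trans h7.symm)
        · right
          intro h7
          exact h6 (h5.2.trans h7.symm)), mul_zero]
  have hdet := m3_det hK h3 h1 hf hz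
  rw [Matrix.det_fin_three] at hdet
  have hkey : m3 f 0 0 * m3 f 1 1 * m3 f 2 2 = 1 := by
    linear_combination hdet + m3 f 0 0 * hzz 1 2 2 1 (by decide) (by decide) (by decide) +
      m3 f 2 2 * hzz 0 1 1 0 (by decide) (by decide) (by decide) -
      m3 f 2 0 * hzz 0 1 1 2 (by decide) (by decide) (by decide) -
      m3 f 2 1 * hzz 0 2 1 0 (by decide) (by decide) (by decide) +
      m3 f 1 1 * hzz 0 2 2 0 (by decide) (by decide) (by decide)
  have h0 : m3 f 0 0 ≠ 0 := by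
    intro h4
    rw [h4, zero_mul, zero_mul] at hkey
    exact zero_ne_one hkey
  have h11 : m3 f 1 1 ≠ 0 := by
    intro h4
    rw [h4, mul_zero, zero_mul] at hkey
    exact zero_ne_one hkey
  have h22 : m3 f 2 2 ≠ 0 := by
    intro h4
    rw [h4, mul_zero] at hkey
    exact zero_ne_one hkey
  have hii : m3 f i i ≠ 0 := by
    fin_cases i
    · exact h0
    · exact h11
    · exact h22
  refine ⟨(Units.mk0 _ h0, Units.mk0 _ h11), SzB2_r i j, ?_, m3 f i j / m3 f i i,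
    div_ne_zero hn hii, ?_⟩
  · revert hij
    clear * -
    revert i j
    decide
  · have hX := SzB2_XGG h3 i j (m3 f i j / m3 f i i)
    apply m3_inj hK h3 h1 hf hz (mul_mem (tor_mem_GG _) (X_mem_GG _ _))
    · rw [mul_assoc, hX, ← mul_assoc, ← mul_assoc,
        TT_comm _ _ (tor_mem_TT _) (tor_mem_TT _)]
    · rw [m3_mul hK h3 h1 (X_mem_GG _ _) hX, m3_tor]
      ext a b
      rw [Matrix.diagonal_mul, SzB2_X hij]
      have hd : (![((Units.mk0 _ h0 : Kˣ) : K), ((Units.mk0 _ h11 : Kˣ) : K),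
          (((Units.mk0 _ h0 * Units.mk0 _ h11)⁻¹ : Kˣ) : K)] : Fin 3 → K) a = m3 f a a := by
        fin_cases a
        · rfl
        · rfl
        · show (((Units.mk0 _ h0 * Units.mk0 _ h11)⁻¹ : Kˣ) : K) = m3 f 2 2
          rw [Units.val_inv_eq_inv_val, Units.val_mul, Units.val_mk0, Units.val_mk0]
          exact inv_eq_of_mul_eq_one_right hkey
      rw [hd]
      by_cases hab : a = b
      · subst hab
        have h6 : ¬ (a = i ∧ a = j) := fun h7 => hij (h7.1.symm.trans h7.2)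
        rw [if_pos rfl, if_neg h6, add_zero, mul_one]
      · rw [if_neg hab, zero_add]
        by_cases h7 : a = i ∧ b = j
        · rw [if_pos h7, h7.1, h7.2, mul_div_cancel₀ _ hii]
        · rw [if_neg h7, mul_zero]
          apply h a b hab
          by_contra h8
          push Not at h8
          exact h7 h8

end

end Pool.Agent.H40.GT
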