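import Pool.Agent.H40.GT.SzB2

/-!
# Part SzC1 (of SzB1, SzB2, SzC1, SzC2); GT-21 groups centralising `z = tor (ω, ω)`, `ω ^ 3 = 1`: three by three matrices

Let `ω ^ 3 = 1`, `ω ≠ 1` (so `|K| = 7`), `f ∈ GG` commuting with `z = tor (ω, ω)`; `z` acts as `ω` on
`e_1, e_2, e_3`, as `ω⁻¹` on `e_-1, e_-2, e_-3`, as `1` on `e_0`.
`m3 f` = the matrix of `f` on `⟨e_1, e_2, e_3⟩`.
* `m3_sup`: `f` preserves the three eigenspaces of `z`.
* `m3_zero`: `f e_0 = e_0`: `f e_0 = ± e_0` by `bf`, and `br e_0 e_1 = 2 e_1`.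
* `m3_inj`: the matrix on `⟨e_-1, e_-2, e_-3⟩` is the inverse transpose (`bf`).
* `m3_det`: `br e_1 e_2 = 2 e_-3` and `bf`: `det = 1`.
* `m3_X`: the matrices of the long root elements `X r s`, `r = 0..5` are `1 + s E_ij` with `(i,j)`
  (indices in `Fin 3`) `= (0,1), (1,0), (0,2), (2,0), (1,2), (2,1)`; so a matrix `m3 f` with exactly
  one nonzero off-diagonal entry is `m3 (tor t * X r s)`, `s ≠ 0`, and `f = tor t * X r s`.
* `m3_NN`: if every column of `m3 f` has exactly one nonzero entry (`f` invertible), `f ∈ NN`.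
* `sz_mon`: let `F` commute with `z`, `Ov F`, `SF F ∩ {long} = ∅`; `f ∈ F` with
  `f e_j ∈ K e_l` (`j, l ∈ {1,2,3}`): then `f ∈ NN`.  If `j = l`: the stabiliser `F'` of the
  line of `e_j` in `F` is standard (`Std_pt`), `SF F' ⊆ SF F`; all roots in `SF F` are long
  (`X r 1`, `r` short, does not commute with `z`: `X_comm_tor`), so `SF F = ∅`, `GS K ∅ = TT K` and
  `F' ≤ NN`.  In general: for `t ∈ TT` `f⁻¹ t f` fixes the line of `e_j`, so it is in `NN`; by `lemC`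
  (for `g = f⁻¹`) `f⁻¹ ∈ NN`.
* `sz_two`: no column of `m3 f`, `f ∈ F`, has exactly one zero entry: let `ρ : K ≃+* ZMod 7`
  (a field with 7 elements; e.g. `ZMod.ringEquivOfPrime` or `FiniteField.algEquivOfCardEq`),
  the set of the matrices `(m3 f).map ρ`, `f ∈ F`, is an `MG`; `mg_two`.
-/

namespace Pool.Agent.H40.GT

variable {K : Type} [Field K]

private theorem SzC1_tab : ∀ r : Rt, 6 ≤ r.val → ¬ (3 : ℤ) ∣ (rt r).1 + (rt r).2 := by
  decide

private theorem SzC1_ix : ∀ j : Fin 3, ix j ≠ 0 := by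
  decide

/-- a group centralising `z` without long root groups contains no root groups -/
theorem SzC1_SF {ω : Kˣ} (h3 : ω ^ 3 = 1) (h1 : ω ≠ 1) {F : Subgroup (EE K)}
    (hZ : CZ ω F) (hS : ∀ r ∈ SF F, 6 ≤ r.val) : SF F = ∅ := by
  apply Set.eq_empty_of_forall_notMem
  intro r hr
  have h4 := hZ _ (hr 1)
  rw [X_comm_tor _ _ _ one_ne_zero] at h4
  have h5 : ω ^ ((rt r).1 + (rt r).2) = 1 := by
    rw [zpow_add]
    exact h4
  have h6 : orderOf ω = 3 := orderOf_eq_prime h3 h1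
  have h7 := orderOf_dvd_iff_zpow_eq_one.2 h5
  rw [h6] at h7
  exact SzC1_tab r (hS r hr) h7

/-- the elements of `F` fixing the coordinate line `j` -/
def SzC1_st (F : Subgroup (EE K)) (j : Fin 7) : Subgroup (EE K) where
  carrier := {f | f ∈ F ∧ ∃ c : K, c ≠ 0 ∧ f (ev j) = c • ev j}
  one_mem' := ⟨one_mem _, 1, one_ne_zero, by rw [one_smul]; rfl⟩
  mul_mem' := by
    rintro a b ⟨ha, c, hc, h1⟩ ⟨hb, d, hd, h2⟩
    refine ⟨mul_mem ha hb, d * c, mul_ne_zero hd hc, ?_⟩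
    rw [LinearEquiv.mul_apply, h2, map_smul, h1, smul_smul]
  inv_mem' := by
    rintro a ⟨ha, c, hc, h1⟩
    refine ⟨inv_mem ha, c⁻¹, inv_ne_zero hc, ?_⟩
    apply a.injective
    have h2 : a (a⁻¹ (ev j)) = ev j := a.apply_symm_apply _
    rw [h2, map_smul, h1, smul_smul, inv_mul_cancel₀ hc, one_smul]

theorem SzC1_st_NN (hK : Ok K) {ω : Kˣ} (h3 : ω ^ 3 = 1) (h1 : ω ≠ 1) {F : Subgroup (EE K)}
    (hF : Ov F) (hZ : CZ ω F) (hS : ∀ r ∈ SF F, 6 ≤ r.val) {j : Fin 7} (hj : j ≠ 0) :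
    SzC1_st F j ≤ NN K := by
  have hle : SzC1_st F j ≤ F := fun f hf => hf.1
  have hOv : Ov (SzC1_st F j) := by
    refine ⟨?_, hle.trans hF.2⟩
    rintro _ ⟨t, rfl⟩
    exact ⟨hF.1 ⟨t, rfl⟩, _, Units.ne_zero _, tor_ev t j⟩
  have hStd : Std (SzC1_st F j) := by
    apply Std_pt hK hOv hj
    rintro f ⟨-, c, -, hc⟩
    exact ⟨c, hc⟩
  have hE : SF (SzC1_st F j) = ∅ := by
    apply Set.eq_empty_of_forall_notMem
    intro r hr
    have h4 : r ∈ SF F := fun s => hle (hr s)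
    rw [SzC1_SF h3 h1 hZ hS] at h4
    exact h4
  intro f hf
  obtain ⟨c, hc, hm⟩ := hStd f hf
  rw [hE, GS_empty] at hc
  have h4 : f = c * (c⁻¹ * f) := by group
  rw [h4]
  exact mul_mem (TT_le_NN hc) hm

theorem sz_mon (hK : Ok K) {ω : Kˣ} (h3 : ω ^ 3 = 1) (h1 : ω ≠ 1) {F : Subgroup (EE K)}
    (hF : Ov F) (hZ : CZ ω F) (hS : ∀ r ∈ SF F, 6 ≤ r.val) {f : EE K} (hf : f ∈ F)
    {j l : Fin 3} (h : ∀ i, i ≠ l → m3 f i j = 0) : f ∈ NN K := by
  have e1 : f (ev (ix j)) = m3 f l j • ev (ix l) := by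
    funext i
    rw [Pi.smul_apply, smul_eq_mul]
    by_cases hi : i = ix l
    · rw [hi, ev_same, mul_one]
      rfl
    · rw [ev_ne hi, mul_zero]
      by_cases hi2 : ∃ k, i = ix k
      · obtain ⟨k, rfl⟩ := hi2
        exact h k (fun hk => hi (by rw [hk]))
      · push Not at hi2
        exact m3_sup hK h3 h1 (hF.2 hf) (hZ f hf) j i hi2
  have hc : m3 f l j ≠ 0 := by
    intro h4
    rw [h4, zero_smul] at e1
    have h5 := congrFun ((map_eq_zero_iff f f.injective).1 e1) (ix j)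
    rw [ev_same] at h5
    exact one_ne_zero h5
  have h6 : f⁻¹ ∈ NN K := by
    apply lemC hK (inv_mem (hF.2 hf))
    intro t ht
    obtain ⟨p, rfl⟩ := ht
    apply SzC1_st_NN hK h3 h1 hF hZ hS (SzC1_ix j)
    refine ⟨mul_mem (mul_mem (inv_mem hf) (hF.1 (tor_mem_TT p))) (inv_mem (inv_mem hf)),
      (ch (wt (ix l)) p : K), Units.ne_zero _, ?_⟩
    rw [inv_inv, LinearEquiv.mul_apply, LinearEquiv.mul_apply, e1, map_smul, tor_ev, map_smul,
      map_smul, smul_comm, ← map_smul f⁻¹, ← e1]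
    have h7 : f⁻¹ (f (ev (ix j))) = ev (ix j) := f.symm_apply_apply _
    rw [h7]
  rw [← inv_inv f]
  exact inv_mem h6

end Pool.Agent.H40.GT
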