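import Pool.Agent.H40.GT.SzC1

/-!
# Part SzC2 (of SzB1, SzB2, SzC1, SzC2); GT-21 groups centralising `z = tor (ω, ω)`, `ω ^ 3 = 1`: three by three matrices

Let `ω ^ 3 = 1`, `ω ≠ 1` (so `|K| = 7`), `f ∈ GG` commuting with `z = tor (ω, ω)`; `z` acts as `ω` on
`e_1, e_2, e_3`, as `ω⁻¹` on `e_-1, e_-2, e_-3`, as `1` on `e_0`.
`m3 f` = the matrix of `f` on `⟨e_1, e_2, e_3⟩`.
* `m3_sup`: `f` preserves the three eigenspaces of `z`.
* `m3_zero`: `f e_0 = e_0`: `f e_0 = ± e_0` by `bf`, and `br e_0 e_1 = 2 e_1`.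
* `m3_inj`: the matrix on `⟨e_-1, e_-2, e_-3⟩` is the inverse transpose (`bf`).
* `m3_det`: `br e_1 e_2 = 2 e_-3` and `bf`: `det = 1`.
* `m3_X`: the matrices of the long root elements `X r s`, `r = 0..5` are `1 + s E_ij` with `(i,j)`
  (indices in `Fin 3`) `= (0,1), (1,0), (0,2), (2,0), (1,2), (2,1)`; so a matrix `m3 f` with exactly
  one nonzero off-diagonal entry is `m3 (tor t * X r s)`, `s ≠ 0`, and `f = tor t * X r s`.
* `m3_NN`: if every column of `m3 f` has exactly one nonzero entry (`f` invertible), `f ∈ NN`.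
* `sz_mon`: let `F` commute with `z`, `Ov F`, `SF F ∩ {long} = ∅`; `f ∈ F` with
  `f e_j ∈ K e_l` (`j, l ∈ {1,2,3}`): then `f ∈ NN`.  If `j = l`: the stabiliser `F'` of the
  line of `e_j` in `F` is standard (`Std_pt`), `SF F' ⊆ SF F`; all roots in `SF F` are long
  (`X r 1`, `r` short, does not commute with `z`: `X_comm_tor`), so `SF F = ∅`, `GS K ∅ = TT K` and
  `F' ≤ NN`.  In general: for `t ∈ TT` `f⁻¹ t f` fixes the line of `e_j`, so it is in `NN`; by `lemC`
  (for `g = f⁻¹`) `f⁻¹ ∈ NN`.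
* `sz_two`: no column of `m3 f`, `f ∈ F`, has exactly one zero entry: let `ρ : K ≃+* ZMod 7`
  (a field with 7 elements; e.g. `ZMod.ringEquivOfPrime` or `FiniteField.algEquivOfCardEq`),
  the set of the matrices `(m3 f).map ρ`, `f ∈ F`, is an `MG`; `mg_two`.
-/

namespace Pool.Agent.H40.GT

variable {K : Type} [Field K]

private theorem SzC2_hom {n : ℕ} (ρ : K ≃+* ZMod 7) (A B : Matrix (Fin n) (Fin n) K) :
    (A * B).map ρ = A.map ρ * B.map ρ := Matrix.map_mul

private theorem SzC2_ix : ∀ i j : Fin 3, ix i = ix j → i = j := by decide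

private theorem SzC2_pow (r : Rt) (s : K) (n : ℕ) : X r s ^ n = X r (n * s) := by
  induction n with
  | zero => rw [pow_zero, Nat.cast_zero, zero_mul, X_zero]
  | succ n ih => rw [pow_succ, ih, X_mul, Nat.cast_succ, add_mul, one_mul]

theorem sz_two (hK : Ok K) {ω : Kˣ} (h3 : ω ^ 3 = 1) (h1 : ω ≠ 1) {F : Subgroup (EE K)}
    (hF : Ov F) (hZ : CZ ω F) (hS : ∀ r ∈ SF F, 6 ≤ r.val) {f : EE K} (hf : f ∈ F)
    (k l : Fin 3) (h0 : m3 f l k = 0) (h5 : ∀ i, i ≠ l → m3 f i k ≠ 0) : False := by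
  have h7 : Nat.card K = 7 := cz_seven hK h3 h1
  have : Finite K := Nat.finite_of_card_ne_zero (by rw [h7]; norm_num)
  have : Fintype K := Fintype.ofFinite K
  have : Fact (Nat.Prime 7) := ⟨by norm_num⟩
  let ρ : K ≃+* ZMod 7 := (ZMod.ringEquivOfPrime K (by norm_num : Nat.Prime 7) (by
    rw [← Nat.card_eq_fintype_card, h7])).symm
  have hmul : ∀ a ∈ F, ∀ b ∈ F, (m3 (a * b)).map ρ = (m3 a).map ρ * (m3 b).map ρ := by
    intro a _ b hb
    rw [m3_mul hK h3 h1 (hF.2 hb) (hZ b hb), SzC2_hom]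
  have hone : (1 : Matrix (Fin 3) (Fin 3) K).map ρ = 1 := by
    exact Matrix.map_one ρ (map_zero ρ) (map_one ρ)
  have hMG : MG {A : M7 | ∃ g ∈ F, A = (m3 g).map ρ} := by
    constructor
    · rintro _ ⟨a, ha, rfl⟩ _ ⟨b, hb, rfl⟩
      exact ⟨a * b, mul_mem ha hb, (hmul a ha b hb).symm⟩
    · rintro _ ⟨a, ha, rfl⟩
      refine ⟨(m3 a⁻¹).map ρ, ⟨a⁻¹, inv_mem ha, rfl⟩, ?_, ?_⟩
      · rw [← hmul a ha _ (inv_mem ha), mul_inv_cancel, m3_one, hone]
      · rw [← hmul _ (inv_mem ha) a ha, inv_mul_cancel, m3_one, hone]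
    · rintro _ ⟨a, ha, rfl⟩
      have h := m3_det hK h3 h1 (hF.2 ha) (hZ a ha)
      have h' : Matrix.det ((m3 a).map ρ) = ρ (Matrix.det (m3 a)) := by
        rw [RingEquiv.map_det]
        rfl
      rw [h', h, map_one]
    · intro a b c habc
      have ha : a ≠ 0 := by
        rintro rfl
        simp at habc
      have hb : b ≠ 0 := by
        rintro rfl
        simp at habc
      have ha' : ρ.symm a ≠ 0 := by simpa using ha
      have hb' : ρ.symm b ≠ 0 := by simpa using hb
      refine ⟨tor (Units.mk0 _ ha', Units.mk0 _ hb'), hF.1 (tor_mem_TT _), ?_⟩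
      rw [m3_tor]
      have hc : c = b⁻¹ * a⁻¹ := by
        rw [← mul_inv]
        exact eq_inv_of_mul_eq_one_left (by rw [← habc]; ring)
      ext i j
      fin_cases i <;> fin_cases j <;> simp [dm]
      exact hc
    · rintro _ ⟨a, ha, rfl⟩ j l hj j'
      have hN : a ∈ NN K := sz_mon hK h3 h1 hF hZ hS ha (j := j) (l := l) (by
        intro i hi
        have := hj i hi
        simpa using this)
      obtain ⟨i, c, hc⟩ := hN.2.1 (ix j')
      by_cases hi : ∃ l', i = ix l'
      · obtain ⟨l', rfl⟩ := hi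
        refine ⟨l', fun i' hi' => ?_⟩
        have hne : ix i' ≠ ix l' := by
          intro h
          exact hi' (SzC2_ix i' l' h)
        show ρ (m3 a i' j') = 0
        unfold m3
        rw [hc, Pi.smul_apply, ev_ne hne, smul_zero, map_zero]
      · refine ⟨0, fun i' _ => ?_⟩
        have hne : i ≠ ix i' := fun h => hi ⟨i', h⟩
        show ρ (m3 a i' j') = 0
        unfold m3
        rw [hc, Pi.smul_apply, ev_ne hne.symm, smul_zero, map_zero]
    · rintro _ ⟨a, ha, rfl⟩ ⟨i, j, hij, hn, h⟩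
      obtain ⟨t, r, hr, s, hs, hfe⟩ := m3_X hK h3 h1 (hF.2 ha) (hZ a ha) hij (by
        intro h'
        apply hn
        show ρ (m3 a i j) = 0
        rw [h', map_zero]) (by
        intro r c hrc hor
        have : ρ (m3 a r c) = 0 := h r c hrc hor
        simpa using this)
      have hX : X r s ∈ F := by
        have : X r s = (tor t)⁻¹ * a := by rw [hfe]; group
        rw [this]
        exact mul_mem (inv_mem (hF.1 (tor_mem_TT _))) ha
      have hSF : r ∈ SF F := by
        intro s'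
        have h8 : s' = ((ρ (s' / s)).val : K) * s := by
          have : (((ρ (s' / s)).val : ℕ) : K) = s' / s := by
            apply ρ.injective
            rw [map_natCast, ZMod.natCast_zmod_val]
          rw [this, div_mul_cancel₀ _ hs]
        rw [h8, ← SzC2_pow]
        exact pow_mem hX _
      have := hS r hSF
      omega
  refine mg_two hMG (f := (m3 f).map ρ) ⟨f, hf, rfl⟩ k l ?_ ?_
  · show ρ (m3 f l k) = 0
    rw [h0, map_zero]
  · intro i hi h
    apply h5 i hi
    have : ρ (m3 f i k) = 0 := h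
    simpa using this

end Pool.Agent.H40.GT
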