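import Pool.Agent.H40.GT.Sz
import Pool.Agent.H40.GT.Fr

/-!
# GT-25 the frames for a group centralising `z`

Apply `frames` to `G = F` (as a type), `φ = lact` restricted, `Y = Submodule K (V K)`,
`T = (TT K).subgroupOf F`, `M = (NN K).subgroupOf F`, `Z = {1, z, z^2}` (`z = tor (ω, ω)`),
`V = {sp e_1, sp e_2, sp e_3}`, `I` = the 36 lines `sp (e_1 + a e_2 + b e_3)`, `a, b ≠ 0`.
`|K| = 7` (`cz_seven`), `|TT| = 36` (`ok_TT_card`).  `M` preserves `V`: an element of `NN` commuting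
with `z` permutes the coordinate lines of `⟨e_1,e_2,e_3⟩` (`m3_sup`).  `hout`: for `x ∈ F`, `x ∉ NN`,
`j ∈ {1,2,3}` the column `j` of `m3 x` has no zero entry: it is not zero, it has not exactly one
nonzero entry (`sz_mon`) and not exactly one zero entry (`sz_two`).  `hfree`: `tor (a, b)` fixes
`sp (e_1 + x e_2 + y e_3)`, `x, y ≠ 0`, iff `a = b = (a b)⁻¹`, i.e. `b = a`, `a ^ 3 = 1`, `a ∈ {1, ω, ω^2}`.
-/

namespace Pool.Agent.H40.GT

variable {K : Type} [Field K]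

theorem SzF_sp_eq {x y : V K} : sp x = sp y ↔ ∃ c : Kˣ, c • x = y :=
  Submodule.span_singleton_eq_span_singleton

theorem SzF_lact (g : EE K) (x : V K) : lact g (sp x) = sp (g x) := by
  rw [lact_apply, Submodule.map_span, Set.image_singleton]
  rfl

/-- the vector `e_1 + a e_2 + b e_3` -/
def SzF_u (p : Kˣ × Kˣ) : V K := ![0, 1, p.1, p.2, 0, 0, 0]

theorem SzF_ix (i : Fin 7) (h : i ≠ 1) (h2 : i ≠ 2) (h3 : i ≠ 3) : ∀ l, i ≠ ix l := by
  intro l
  fin_cases l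
  · exact h
  · exact h2
  · exact h3

theorem SzF_ixinj : Function.Injective ix := by
  decide

theorem SzF_line {y : V K} (h : ∀ i, (∀ l, i ≠ ix l) → y i = 0) (h1 : ∀ l, y (ix l) ≠ 0) :
    ∃ p, sp y = sp (SzF_u p) := by
  have e1 : y 1 ≠ 0 := h1 0
  have e2 : y 2 ≠ 0 := h1 1
  have e3 : y 3 ≠ 0 := h1 2
  refine ⟨((Units.mk0 _ e1)⁻¹ * Units.mk0 _ e2, (Units.mk0 _ e1)⁻¹ * Units.mk0 _ e3), ?_⟩
  rw [SzF_sp_eq]
  refine ⟨(Units.mk0 _ e1)⁻¹, ?_⟩
  funext i
  rw [Pi.smul_apply, Units.smul_def, smul_eq_mul, Units.val_inv_eq_inv_val, Units.val_mk0]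
  fin_cases i
  · show (y 1)⁻¹ * y 0 = 0
    rw [h 0 (SzF_ix 0 (by decide) (by decide) (by decide)), mul_zero]
  · show (y 1)⁻¹ * y 1 = 1
    exact inv_mul_cancel₀ e1
  · show (y 1)⁻¹ * y 2 = (((Units.mk0 _ e1)⁻¹ * Units.mk0 _ e2 : Kˣ) : K)
    rw [Units.val_mul, Units.val_inv_eq_inv_val, Units.val_mk0, Units.val_mk0]
  · show (y 1)⁻¹ * y 3 = (((Units.mk0 _ e1)⁻¹ * Units.mk0 _ e3 : Kˣ) : K)
    rw [Units.val_mul, Units.val_inv_eq_inv_val, Units.val_mk0, Units.val_mk0]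
  · show (y 1)⁻¹ * y 4 = 0
    rw [h 4 (SzF_ix 4 (by decide) (by decide) (by decide)), mul_zero]
  · show (y 1)⁻¹ * y 5 = 0
    rw [h 5 (SzF_ix 5 (by decide) (by decide) (by decide)), mul_zero]
  · show (y 1)⁻¹ * y 6 = 0
    rw [h 6 (SzF_ix 6 (by decide) (by decide) (by decide)), mul_zero]

theorem SzF_uinj : Function.Injective (fun p : Kˣ × Kˣ => sp (SzF_u p)) := by
  rintro ⟨a, b⟩ ⟨a', b'⟩ h
  obtain ⟨c, hc⟩ := SzF_sp_eq.1 h
  have h1 : (c : K) * 1 = 1 := congrFun hc 1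
  have h2 : (c : K) * a = a' := congrFun hc 2
  have h3 : (c : K) * b = b' := congrFun hc 3
  rw [mul_one] at h1
  rw [h1, one_mul] at h2 h3
  rw [Units.ext h2, Units.ext h3]

theorem SzF_evinj : Function.Injective (fun j : Fin 3 => sp (ev (ix j) : V K)) := by
  intro j l h
  obtain ⟨c, hc⟩ := SzF_sp_eq.1 h
  by_contra hne
  have h1 : (c : K) * (ev (ix j) : V K) (ix j) = (ev (ix l) : V K) (ix j) := congrFun hc (ix j)
  rw [ev_same, mul_one, ev_ne (fun h => hne (SzF_ixinj h))] at h1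
  exact c.ne_zero h1

theorem SzF_disj (j : Fin 3) (p : Kˣ × Kˣ) : sp (ev (ix j) : V K) ≠ sp (SzF_u p) := by
  intro h
  obtain ⟨c, hc⟩ := SzF_sp_eq.1 h
  obtain ⟨l, hl⟩ : ∃ l, l ≠ j := exists_ne j
  have h1 : (c : K) * (ev (ix j) : V K) (ix l) = SzF_u p (ix l) := congrFun hc (ix l)
  rw [ev_ne (fun h => hl (SzF_ixinj h)), mul_zero] at h1
  have h2 : SzF_u p (ix l) ≠ 0 := by
    fin_cases l
    · exact one_ne_zero
    · exact p.1.ne_zero
    · exact p.2.ne_zero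
  exact h2 h1.symm

theorem SzF_ch1 (t : Kˣ × Kˣ) : ch (wt 1) t = t.1 := by
  simp [ch, wt]

theorem SzF_ch2 (t : Kˣ × Kˣ) : ch (wt 2) t = t.2 := by
  simp [ch, wt]

theorem SzF_ch3 (t : Kˣ × Kˣ) : ch (wt 3) t = (t.1 * t.2)⁻¹ := by
  simp [ch, wt, mul_comm]

theorem SzF_tor (t : Kˣ × Kˣ) (p : Kˣ × Kˣ) : ∃ q, sp (tor t (SzF_u p)) = sp (SzF_u q) := by
  apply SzF_line
  · intro i hi
    rw [tor_apply]
    have h1 : SzF_u p i = 0 := by
      fin_cases i
      · rfl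
      · exact absurd rfl (hi 0)
      · exact absurd rfl (hi 1)
      · exact absurd rfl (hi 2)
      · rfl
      · rfl
      · rfl
    rw [h1, mul_zero]
  · intro l
    rw [tor_apply]
    apply mul_ne_zero (Units.ne_zero _)
    fin_cases l
    · exact one_ne_zero
    · exact p.1.ne_zero
    · exact p.2.ne_zero

theorem SzF_free (t : Kˣ × Kˣ) (p : Kˣ × Kˣ) :
    sp (tor t (SzF_u p)) = sp (SzF_u p) ↔ t.2 = t.1 ∧ t.1 ^ 3 = 1 := by
  rw [SzF_sp_eq]
  constructor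
  · rintro ⟨c, hc⟩
    have h1 : (c : K) * ((ch (wt 1) t : K) * 1) = 1 := congrFun hc 1
    have h2 : (c : K) * ((ch (wt 2) t : K) * p.1) = p.1 := congrFun hc 2
    have h3 : (c : K) * ((ch (wt 3) t : K) * p.2) = p.2 := congrFun hc 3
    rw [SzF_ch1] at h1
    rw [SzF_ch2] at h2
    rw [SzF_ch3] at h3
    have g1 : c * t.1 = 1 := Units.ext (by rw [Units.val_mul, Units.val_one, ← h1]; ring)
    have g2 : c * t.2 = 1 := by
      have h4 : c * t.2 * p.1 = 1 * p.1 := Units.ext (by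
        rw [Units.val_mul, Units.val_mul, one_mul, mul_assoc]
        exact h2)
      exact mul_right_cancel h4
    have g3 : c * (t.1 * t.2)⁻¹ = 1 := by
      have h4 : c * (t.1 * t.2)⁻¹ * p.2 = 1 * p.2 := Units.ext (by
        rw [Units.val_mul, Units.val_mul, one_mul, mul_assoc]
        exact h3)
      exact mul_right_cancel h4
    have g4 : t.2 = t.1 := mul_left_cancel (g2.trans g1.symm)
    refine ⟨g4, ?_⟩
    rw [mul_inv_eq_one, g4] at g3
    rw [g3] at g1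
    rw [← g1, pow_succ, pow_two]
  · rintro ⟨h1, h2⟩
    refine ⟨t.1⁻¹, ?_⟩
    have h4 : (t.1 * t.2)⁻¹ = t.1 := by
      rw [h1, inv_eq_iff_mul_eq_one, ← h2, pow_succ, pow_two]
    have e : ((t.1⁻¹ : Kˣ) : K) * (t.1 : K) = 1 := by
      rw [← Units.val_mul, inv_mul_cancel, Units.val_one]
    funext i
    fin_cases i
    · show ((t.1⁻¹ : Kˣ) : K) * ((ch (wt 0) t : K) * 0) = 0
      ring
    · show ((t.1⁻¹ : Kˣ) : K) * ((ch (wt 1) t : K) * 1) = 1
      rw [SzF_ch1, mul_one, e]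
    · show ((t.1⁻¹ : Kˣ) : K) * ((ch (wt 2) t : K) * p.1) = p.1
      rw [SzF_ch2, h1, ← mul_assoc, e, one_mul]
    · show ((t.1⁻¹ : Kˣ) : K) * ((ch (wt 3) t : K) * p.2) = p.2
      rw [SzF_ch3, h4, ← mul_assoc, e, one_mul]
    · show ((t.1⁻¹ : Kˣ) : K) * ((ch (wt 4) t : K) * 0) = 0
      ring
    · show ((t.1⁻¹ : Kˣ) : K) * ((ch (wt 5) t : K) * 0) = 0
      ring
    · show ((t.1⁻¹ : Kˣ) : K) * ((ch (wt 6) t : K) * 0) = 0
      ring

theorem SzF_notin (i : Fin 7) (h : ¬ ∃ l, i = ix l) : ∀ l, i ≠ ix l := fun l hl => h ⟨l, hl⟩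

theorem SzF_ne (hK : Ok K) {ω : Kˣ} (h3 : ω ^ 3 = 1) (h1 : ω ≠ 1) {F : Subgroup (EE K)}
    (hF : Ov F) (hZ : CZ ω F) (hS : ∀ r ∈ SF F, 6 ≤ r.val) {f : EE K} (hf : f ∈ F)
    (hN : f ∉ NN K) (l j : Fin 3) : m3 f l j ≠ 0 := by
  intro h0
  have key : ∀ l l1 l2 : Fin 3, l ≠ l1 → l ≠ l2 → l1 ≠ l2 → ∀ i, i = l ∨ i = l1 ∨ i = l2 := by
    decide
  have hex : ∀ l : Fin 3, ∃ l1 l2 : Fin 3, l ≠ l1 ∧ l ≠ l2 ∧ l1 ≠ l2 := by
    decide
  obtain ⟨l1, l2, e1, e2, e3⟩ := hex l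
  have hk := key l l1 l2 e1 e2 e3
  by_cases g1 : m3 f l1 j = 0
  · apply hN
    apply sz_mon hK h3 h1 hF hZ hS hf (j := j) (l := l2)
    intro i hi
    rcases hk i with h | h | h
    · rw [h, h0]
    · rw [h, g1]
    · exact absurd h hi
  · by_cases g2 : m3 f l2 j = 0
    · apply hN
      apply sz_mon hK h3 h1 hF hZ hS hf (j := j) (l := l1)
      intro i hi
      rcases hk i with h | h | h
      · rw [h, h0]
      · exact absurd h hi
      · rw [h, g2]
    · apply sz_two hK h3 h1 hF hZ hS hf j l h0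
      intro i hi
      rcases hk i with h | h | h
      · exact absurd h hi
      · rw [h]
        exact g1
      · rw [h]
        exact g2

theorem sz_frames (hK : Ok K) {ω : Kˣ} (h3 : ω ^ 3 = 1) (h1 : ω ≠ 1) {F : Subgroup (EE K)}
    (hF : Ov F) (hZ : CZ ω F) (hS : ∀ r ∈ SF F, 6 ≤ r.val) :
    ∃ n, Nat.card F = n * Nat.card (F ⊓ NN K : Subgroup (EE K)) ∧
      (n = 1 ∨ n = 5 ∨ n = 9 ∨ n = 13) ∧
      ((n = 5 ∨ n = 9) → ∀ x ∈ F, x ∉ NN K → ∀ t ∈ TT K, t ^ 3 = 1 → x⁻¹ * t * x ∈ NN K) := by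
  have h7 := cz_seven hK h3 h1
  haveI := ok_EE_finite hK
  have hzF : tor (ω, ω) ∈ F := hF.1 (tor_mem_TT _)
  have hz0 : ∀ k : ℕ, (tor (ω, ω) : EE K) ^ k = tor (ω ^ k, ω ^ k) := by
    intro k
    rw [← map_pow]
    rfl
  have hinj : ∀ s t : Kˣ × Kˣ, (tor s : EE K) = tor t → s = t := by
    intro s t h
    have e1 : (ch (wt 1) s : K) * (ev 1 : V K) 1 = (ch (wt 1) t : K) * (ev 1 : V K) 1 :=
      congrFun (LinearEquiv.congr_fun h (ev 1)) 1
    have e2 : (ch (wt 2) s : K) * (ev 2 : V K) 2 = (ch (wt 2) t : K) * (ev 2 : V K) 2 :=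
      congrFun (LinearEquiv.congr_fun h (ev 2)) 2
    rw [ev_same, mul_one, mul_one, SzF_ch1, SzF_ch1] at e1
    rw [ev_same, mul_one, mul_one, SzF_ch2, SzF_ch2] at e2
    exact Prod.ext (Units.ext e1) (Units.ext e2)
  have hzord : orderOf (⟨tor (ω, ω), hzF⟩ : F) = 3 := by
    apply orderOf_eq_prime
    · apply Subtype.ext
      show (tor (ω, ω) : EE K) ^ 3 = 1
      rw [hz0, h3]
      exact map_one tor
    · intro h
      have h4 : (tor (ω, ω) : EE K) = tor 1 := by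
        rw [map_one]
        exact congrArg Subtype.val h
      exact h1 (congrArg Prod.fst (hinj _ _ h4))
  have hact : ∀ (x : F) (y : V K), (lact.comp F.subtype) x (sp y) = sp ((x : EE K) y) := by
    intro x y
    exact SzF_lact _ _
  have hprim : IsPrimitiveRoot (ω : K) 3 := by
    rw [IsPrimitiveRoot.coe_units_iff, IsPrimitiveRoot.iff_orderOf]
    exact orderOf_eq_prime h3 h1
  have hcardN : Nat.card ((NN K).subgroupOf F) = Nat.card (F ⊓ NN K : Subgroup (EE K)) := by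
    rw [inf_comm, ← Subgroup.subgroupOf_map_subtype]
    exact Nat.card_congr (((NN K).subgroupOf F).equivMapOfInjective F.subtype
      F.subtype_injective).toEquiv
  obtain ⟨n, g1, g2, g3⟩ := frames (G := F) (lact.comp F.subtype) ((TT K).subgroupOf F)
    ((NN K).subgroupOf F) (Subgroup.zpowers ⟨tor (ω, ω), hzF⟩)
    (Set.range (fun j : Fin 3 => sp (ev (ix j) : V K)))
    (Set.range (fun p : Kˣ × Kˣ => sp (SzF_u p)))
    (by
      rw [← Nat.card_coe_set_eq, Nat.card_range_of_injective SzF_evinj]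
      simp)
    (by
      rw [← Nat.card_coe_set_eq, Nat.card_range_of_injective SzF_uinj, Nat.card_prod,
        ok_units hK, h7])
    (by
      rintro _ ⟨j, rfl⟩ ⟨p, hp⟩
      exact SzF_disj j p hp.symm)
    (by
      intro x hx
      exact TT_le_NN hx)
    (by
      intro s hs t ht
      exact Subtype.ext (TT_comm _ _ hs ht))
    (by
      rw [Nat.card_congr (Subgroup.subgroupOfEquivOfLe hF.1).toEquiv, ok_TT_card hK, h7]
      norm_num)
    (by rw [Nat.card_zpowers, hzord])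
    (by
      rw [Subgroup.zpowers_le]
      exact tor_mem_TT _)
    (by
      rintro t ht _ ⟨j, rfl⟩
      obtain ⟨s, hs⟩ : ∃ s, tor s = (t : EE K) := ht
      show (lact.comp F.subtype) t (sp (ev (ix j))) = sp (ev (ix j))
      rw [hact, ← hs, tor_ev]
      exact (SzF_sp_eq.2 ⟨ch (wt (ix j)) s, rfl⟩).symm)
    (by
      rintro x hx _ ⟨j, rfl⟩
      show (lact.comp F.subtype) x (sp (ev (ix j))) ∈ _
      rw [hact]
      obtain ⟨i, c, hc⟩ := hx.2.1 (ix j)
      have hc' : (x : EE K) (ev (ix j)) = c • ev i := hc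
      have hc0 : c ≠ 0 := by
        rintro rfl
        rw [zero_smul] at hc'
        have h4 : (ev (ix j) : V K) = 0 := by
          apply (x : EE K).injective
          rw [hc', map_zero]
        have h5 := congrFun h4 (ix j)
        rw [ev_same] at h5
        exact one_ne_zero h5
      by_cases hl : ∃ l, i = ix l
      · obtain ⟨l, rfl⟩ := hl
        refine ⟨l, ?_⟩
        rw [hc']
        exact SzF_sp_eq.2 ⟨Units.mk0 c hc0, rfl⟩
      · exfalso
        have h4 := m3_sup hK h3 h1 (hF.2 x.2) (hZ _ x.2) j i (SzF_notin i hl)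
        rw [hc', Pi.smul_apply, ev_same, smul_eq_mul, mul_one] at h4
        exact hc0 h4)
    (by
      rintro x hx _ ⟨j, rfl⟩
      show (lact.comp F.subtype) x (sp (ev (ix j))) ∈ _
      rw [hact]
      obtain ⟨p, hp⟩ := SzF_line (y := (x : EE K) (ev (ix j)))
        (fun i hi => m3_sup hK h3 h1 (hF.2 x.2) (hZ _ x.2) j i hi)
        (fun l => SzF_ne hK h3 h1 hF hZ hS x.2 hx l j)
      exact ⟨p, hp.symm⟩)
    (by
      rintro t ht _ ⟨p, rfl⟩
      obtain ⟨s, hs⟩ : ∃ s, tor s = (t : EE K) := ht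
      show (lact.comp F.subtype) t (sp (SzF_u p)) ∈ _
      rw [hact, ← hs]
      obtain ⟨q, hq⟩ := SzF_tor s p
      exact ⟨q, hq.symm⟩)
    (by
      rintro t ht _ ⟨p, rfl⟩
      obtain ⟨s, hs⟩ : ∃ s, tor s = (t : EE K) := ht
      show (lact.comp F.subtype) t (sp (SzF_u p)) = sp (SzF_u p) ↔ _
      rw [hact, ← hs, SzF_free, Subgroup.mem_zpowers_iff]
      constructor
      · rintro ⟨e1, e2⟩
        have e3 : (s.1 : K) ^ 3 = 1 := by
          rw [← Units.val_pow_eq_pow_val, e2, Units.val_one]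
        obtain ⟨i, -, hi⟩ := hprim.eq_pow_of_pow_eq_one e3
        refine ⟨i, ?_⟩
        rw [zpow_natCast]
        apply Subtype.ext
        show (tor (ω, ω) : EE K) ^ i = t
        rw [hz0, ← hs]
        have e4 : ω ^ i = s.1 := Units.ext (by rw [Units.val_pow_eq_pow_val, hi])
        rw [e4]
        congr 1
        exact Prod.ext rfl e1.symm
      · rintro ⟨k, hk⟩
        have h4 : (tor (ω, ω) : EE K) ^ k = t := congrArg Subtype.val hk
        rw [← map_zpow, ← hs] at h4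
        have h5 := hinj _ _ h4
        rw [← h5]
        refine ⟨rfl, ?_⟩
        show (ω ^ k) ^ 3 = 1
        rw [← zpow_natCast, zpow_comm, zpow_natCast, h3, one_zpow])
  refine ⟨n, ?_, g2, ?_⟩
  · rw [← hcardN]
    exact g1
  · intro hn x hx hxN t ht ht3
    exact g3 hn ⟨x, hx⟩ hxN ⟨t, hF.1 ht⟩ ht (Subtype.ext ht3)

end Pool.Agent.H40.GT
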