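import Pool.Agent.H40.GT.Der
import Pool.Agent.H40.GT.Cj

/-!
# Part Un1 (of Un1, Un2); GT-70 uniqueness of the closed set

`hS S` = the derivations all of whose components of weight `rt r`, `r ∉ S`, vanish.
* `hS_conj`: `S` closed, `g ∈ GS K S`, `D ∈ hS S`: `g D g⁻¹ ∈ hS S`.  By induction on the closure it
  is enough to take `g = tor t` (`wc` commutes with conjugation by `tor t` up to a scalar) and
  `g = X a s`, `a ∈ S`.  `D` is the sum of its components `wc v D`; by `IsD_weight` `v = 0` or `v = rt r`, `r ∈ S`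
  (a subspace, so take `D` homogeneous of weight `v`).
  `X_a(s) D X_a(-s) = (1 + s N + s^2 Q) D (1 - s N + s^2 Q)`, where `N = Nl a`, `Q = Ql a` have weights `rt a`,
  `2 rt a`: it is a derivation (conjugation by an element of `GG`) whose components have weights
  `v + k rt a`, `k = 0, ..., 4`.  If `rt r' = v + k rt a`: finite check on root strings: if `v = 0` then
  `k = 1`, `r' = a ∈ S`; if `v = rt r`, then `r' ∈ S`: all `rt r + j rt a`, `0 ≤ j ≤ k`, are roots (closedness step by step)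
  or `rt r + rt a = 0` and `r' = a` or `r' = r`.
* `GS_roots`: `X r s ∈ GS K S`, `s ≠ 0`, `r ∉ S`: let `H_1 = diag((wt j).1)`, `H_2 = diag((wt j).2)`: derivations of
  weight `0`, in `hS S`.  The component of weight `rt r` of `X_r(s) H_i X_r(-s)` is
  `s (N H_i - H_i N) = - s (rt r)_i N`, nonzero for one `i` (the entries of `rt r` are at most 2 in absolute
  value).  Contradiction to `hS_conj`.
* `SF_unique`: `S` closed, `GS K S ≤ F ≤ normaliser of GS K S`: `S = SF F`.  `⊆`: clear.  Let `r ∈ SF F`: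
  choose `t` with `ch (rt r) t ≠ 1`; `X r 1 * tor t * (X r 1)⁻¹ ∈ GS K S`, so
  `X r 1 * tor t * (X r 1)⁻¹ * (tor t)⁻¹ = X r (1 - ch (rt r) t) ∈ GS K S` (`tor_X`), so `r ∈ S`.
-/

namespace Pool.Agent.H40.GT

variable {K : Type} [Field K]

/-- the Lie algebra of `S` -/
def hS (K : Type) [Field K] (S : Set Rt) : Set (V K →ₗ[K] V K) :=
  {D | IsD D ∧ ∀ r, r ∉ S → wc (rt r) D = 0}

theorem Un1_comp (A B : V K →ₗ[K] V K) (i j : Fin 7) (h : A (B (ev j)) i ≠ 0) :
    ∃ k, A (ev k) i ≠ 0 ∧ B (ev j) k ≠ 0 := by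
  by_contra hc
  push Not at hc
  apply h
  have e : A (B (ev j)) i = ∑ k, (B (ev j)) k * A (ev k) i := by
    conv_lhs => rw [V_sum (B (ev j))]
    rw [map_sum, Finset.sum_apply]
    apply Finset.sum_congr rfl
    intro k _
    rw [map_smul, Pi.smul_apply, smul_eq_mul]
  rw [e]
  apply Finset.sum_eq_zero
  intro k _
  by_cases hk : A (ev k) i = 0
  · rw [hk, mul_zero]
  · rw [hc k hk, zero_mul]

theorem Un1_X (a : Rt) (s : K) (i j : Fin 7) (h : X a s (ev j) i ≠ 0) :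
    ∃ k : ℕ, k ≤ 2 ∧ wt i = wt j + k • rt a := by
  by_contra hc
  push Not at hc
  apply h
  have e : X a s (ev j) i = (ev j : V K) i + s * Nl a (ev j : V K) i + s ^ 2 * Ql a (ev j : V K) i :=
    rfl
  have h0 := hc 0 (by norm_num)
  have h1 := hc 1 (by norm_num)
  have h2 := hc 2 (by norm_num)
  rw [zero_smul, add_zero] at h0
  rw [one_smul] at h1
  rw [two_smul, ← add_assoc] at h2
  have hij : i ≠ j := fun h => h0 (by rw [h])
  rw [e, ev_ne hij, Nl_ev a j i h1, Ql_ev a j i h2]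
  ring

theorem Un1_supp (h2 : (2 : K) ≠ 0) {S : Set Rt} {D : V K →ₗ[K] V K} (hD : D ∈ hS K S)
    (i j : Fin 7) (h : D (ev j) i ≠ 0) : wt i = wt j ∨ ∃ r ∈ S, wt i = wt j + rt r := by
  by_cases hv : wt i - wt j = 0
  · left
    exact sub_eq_zero.mp hv
  · right
    have e := wc_ev (wt i - wt j) D i j
    rw [if_pos (by abel)] at e
    rcases IsD_weight h2 hD.1 hv with h0 | ⟨r, hr, -⟩
    · exfalso
      apply h
      rw [← e, h0]
      rfl
    · refine ⟨r, ?_, by rw [hr]; abel⟩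
      by_contra hS
      apply h
      rw [← e, ← hr, hD.2 r hS]
      rfl

theorem Un1_fin : ∀ a r r' : Rt, ∀ k : Fin 5, rt r' = (k.val : ℕ) • rt a + rt r → k = 0 ∨
    rt r + rt a = 0 ∨ ∃ r1, rt r + rt a = rt r1 := by
  decide +kernel

theorem Un1_fin0 : ∀ a r' : Rt, ∀ k : Fin 5, rt r' = (k.val : ℕ) • rt a → r' = a := by
  decide +kernel

theorem Un1_chain {S : Set Rt} (hS' : Cl S) {a : Rt} (ha : a ∈ S) : ∀ k : ℕ, k ≤ 4 →
    ∀ r ∈ S, ∀ r', rt r' = k • rt a + rt r → r' ∈ S := by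
  intro k
  induction k with
  | zero =>
    intro _ r hr r' h
    rw [zero_smul, zero_add] at h
    rw [rt_inj h]
    exact hr
  | succ k ih =>
    intro hk r hr r' h
    rcases Un1_fin a r r' ⟨k + 1, by omega⟩ h with h0 | h0 | ⟨r1, h0⟩
    · exact absurd (congrArg Fin.val h0) (by simp)
    · have h3 : rt r' = k • rt a := by
        rw [h, succ_nsmul]
        calc k • rt a + rt a + rt r = k • rt a + (rt r + rt a) := by abel
          _ = k • rt a := by rw [h0, add_zero]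
      rw [Un1_fin0 a r' ⟨k, by omega⟩ h3]
      exact ha
    · apply ih (by omega) r1 (hS' r hr a ha r1 h0) r'
      rw [h, succ_nsmul, ← h0]
      abel

theorem Un1_mem {S : Set Rt} {D : V K →ₗ[K] V K} (hD : IsD D)
    (h : ∀ r, r ∉ S → ∀ i j, wt i = wt j + rt r → D (ev j) i = 0) : D ∈ hS K S := by
  refine ⟨hD, fun r hr => ?_⟩
  apply LinearMap.ext
  intro x
  ext i
  rw [wc_apply]
  apply Finset.sum_eq_zero
  intro j _
  split_ifs with hij
  · rw [h r hr i j hij, zero_mul]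
  · rfl

theorem Un1_IsD {g : EE K} (hg : g ∈ GG K) {D : V K →ₗ[K] V K} (hD : IsD D) :
    IsD ((g : V K →ₗ[K] V K) ∘ₗ D ∘ₗ ((g⁻¹ : EE K) : V K →ₗ[K] V K)) := by
  have hi := inv_mem hg
  have e1 : ∀ x, g (g⁻¹ x) = x := fun x => g.apply_symm_apply x
  constructor
  · intro x y
    show g (D (g⁻¹ (br x y))) = br (g (D (g⁻¹ x))) y + br x (g (D (g⁻¹ y)))
    rw [hi.1, hD.1, map_add, hg.1, hg.1, e1, e1]
  · intro x y
    show bf (g (D (g⁻¹ x))) y + bf x (g (D (g⁻¹ y))) = 0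
    have h1 := hg.2 (D (g⁻¹ x)) (g⁻¹ y)
    have h3 := hg.2 (g⁻¹ x) (D (g⁻¹ y))
    rw [e1] at h1 h3
    rw [h1, h3]
    exact hD.2 _ _

theorem Un1_gen (h2 : (2 : K) ≠ 0) {S : Set Rt} (hS' : Cl S) {a : Rt} (ha : a ∈ S) (s : K)
    {D : V K →ₗ[K] V K} (hD : D ∈ hS K S) :
    ((X a s : EE K) : V K →ₗ[K] V K) ∘ₗ D ∘ₗ (((X a s)⁻¹ : EE K) : V K →ₗ[K] V K) ∈ hS K S := by
  apply Un1_mem (Un1_IsD (X_mem_GG a s) hD.1)
  intro r hr i j hij
  by_contra hne
  obtain ⟨k, hk, hk'⟩ := Un1_comp ((X a s : EE K) : V K →ₗ[K] V K)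
    (D ∘ₗ (((X a s)⁻¹ : EE K) : V K →ₗ[K] V K)) i j hne
  obtain ⟨l, hl, hl'⟩ := Un1_comp D (((X a s)⁻¹ : EE K) : V K →ₗ[K] V K) k j hk'
  rw [X_inv] at hl'
  obtain ⟨m, hm, em⟩ := Un1_X a s i k hk
  obtain ⟨n, hn, en⟩ := Un1_X a (-s) l j hl'
  apply hr
  rcases Un1_supp h2 hD k l hl with e | ⟨r1, hr1, e⟩
  · have h3 : rt r = (m + n) • rt a := by
      have h4 : wt j + rt r = wt j + (m + n) • rt a := by
        rw [← hij, em, e, en, add_smul]
        abel
      exact add_left_cancel h4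
    rw [Un1_fin0 a r ⟨m + n, by omega⟩ h3]
    exact ha
  · apply Un1_chain hS' ha (m + n) (by omega) r1 hr1
    have h4 : wt j + rt r = wt j + ((m + n) • rt a + rt r1) := by
      rw [← hij, em, e, en, add_smul]
      abel
    exact add_left_cancel h4

theorem Un1_tor {S : Set Rt} (t : Kˣ × Kˣ)
    {D : V K →ₗ[K] V K} (hD : D ∈ hS K S) :
    ((tor t : EE K) : V K →ₗ[K] V K) ∘ₗ D ∘ₗ (((tor t)⁻¹ : EE K) : V K →ₗ[K] V K) ∈ hS K S := by
  apply Un1_mem (Un1_IsD (tor_mem_GG t) hD.1)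
  intro r hr i j hij
  have e0 : ((tor t)⁻¹ : EE K) = tor t⁻¹ := by rw [map_inv]
  show tor t (D ((tor t)⁻¹ (ev j))) i = 0
  rw [e0, tor_ev, map_smul, map_smul, Pi.smul_apply, tor_apply]
  have h3 : D (ev j) i = 0 := by
    by_contra hne
    have e := wc_ev (rt r) D i j
    rw [if_pos hij, hD.2 r hr] at e
    exact hne e.symm
  rw [h3, mul_zero, smul_zero]

theorem hS_conj (h2 : (2 : K) ≠ 0) {S : Set Rt} (hS' : Cl S) {g : EE K} (hg : g ∈ GS K S)
    {D : V K →ₗ[K] V K} (hD : D ∈ hS K S) :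
    (g : V K →ₗ[K] V K) ∘ₗ D ∘ₗ ((g⁻¹ : EE K) : V K →ₗ[K] V K) ∈ hS K S := by
  have key : ∀ g ∈ GS K S,
      (∀ D ∈ hS K S, (g : V K →ₗ[K] V K) ∘ₗ D ∘ₗ ((g⁻¹ : EE K) : V K →ₗ[K] V K) ∈ hS K S) ∧
      (∀ D ∈ hS K S, ((g⁻¹ : EE K) : V K →ₗ[K] V K) ∘ₗ D ∘ₗ (g : V K →ₗ[K] V K) ∈ hS K S) := by
    intro g hg
    induction hg using Subgroup.closure_induction with
    | mem x hx =>
      rcases hx with ⟨t, rfl⟩ | ⟨a, ha, s, rfl⟩
      · refine ⟨fun D hD => Un1_tor t hD, fun D hD => ?_⟩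
        have h3 := Un1_tor t⁻¹ hD
        rw [map_inv, inv_inv] at h3
        exact h3
      · refine ⟨fun D hD => Un1_gen h2 hS' ha s hD, fun D hD => ?_⟩
        have h3 := Un1_gen h2 hS' ha (-s) hD
        rw [← X_inv, inv_inv] at h3
        exact h3
    | one =>
      refine ⟨fun D hD => ?_, fun D hD => ?_⟩
      · rw [inv_one]
        exact hD
      · rw [inv_one]
        exact hD
    | mul x y _ _ h3 h4 =>
      refine ⟨fun D hD => ?_, fun D hD => ?_⟩
      · have := h3.1 _ (h4.1 D hD)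
        rw [mul_inv_rev]
        exact this
      · have := h4.2 _ (h3.2 D hD)
        rw [mul_inv_rev]
        exact this
    | inv x _ h3 =>
      refine ⟨fun D hD => ?_, fun D hD => ?_⟩
      · rw [inv_inv]
        exact h3.2 D hD
      · rw [inv_inv]
        exact h3.1 D hD
  exact (key g hg).1 D hD

end Pool.Agent.H40.GT
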