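import Pool.Agent.H40.GT.Un1

/-!
# Part Un2 (of Un1, Un2); GT-70 uniqueness of the closed set

`hS S` = the derivations all of whose components of weight `rt r`, `r ∉ S`, vanish.
* `hS_conj`: `S` closed, `g ∈ GS K S`, `D ∈ hS S`: `g D g⁻¹ ∈ hS S`.  By induction on the closure it
  is enough to take `g = tor t` (`wc` commutes with conjugation by `tor t` up to a scalar) and
  `g = X a s`, `a ∈ S`.  `D` is the sum of its components `wc v D`; by `IsD_weight` `v = 0` or `v = rt r`, `r ∈ S`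
  (a subspace, so take `D` homogeneous of weight `v`).
  `X_a(s) D X_a(-s) = (1 + s N + s^2 Q) D (1 - s N + s^2 Q)`, where `N = Nl a`, `Q = Ql a` have weights `rt a`,
  `2 rt a`: it is a derivation (conjugation by an element of `GG`) whose components have weights
  `v + k rt a`, `k = 0, ..., 4`.  If `rt r' = v + k rt a`: finite check on root strings: if `v = 0` then
  `k = 1`, `r' = a ∈ S`; if `v = rt r`, then `r' ∈ S`: all `rt r + j rt a`, `0 ≤ j ≤ k`, are roots (closedness step by step)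
  or `rt r + rt a = 0` and `r' = a` or `r' = r`.
* `GS_roots`: `X r s ∈ GS K S`, `s ≠ 0`, `r ∉ S`: let `H_1 = diag((wt j).1)`, `H_2 = diag((wt j).2)`: derivations of
  weight `0`, in `hS S`.  The component of weight `rt r` of `X_r(s) H_i X_r(-s)` is
  `s (N H_i - H_i N) = - s (rt r)_i N`, nonzero for one `i` (the entries of `rt r` are at most 2 in absolute
  value).  Contradiction to `hS_conj`.
* `SF_unique`: `S` closed, `GS K S ≤ F ≤ normaliser of GS K S`: `S = SF F`.  `⊆`: clear.  Let `r ∈ SF F`: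
  choose `t` with `ch (rt r) t ≠ 1`; `X r 1 * tor t * (X r 1)⁻¹ ∈ GS K S`, so
  `X r 1 * tor t * (X r 1)⁻¹ * (tor t)⁻¹ = X r (1 - ch (rt r) t) ∈ GS K S` (`tor_X`), so `r ∈ S`.
-/

namespace Pool.Agent.H40.GT

variable {K : Type} [Field K]

/-- diagonal derivations -/
def Un2_H (a b : K) : V K →ₗ[K] V K where
  toFun x := ![0, a * x 1, b * x 2, -(a + b) * x 3, -a * x 4, -b * x 5, (a + b) * x 6]
  map_add' := by
    intro x y
    ext i
    fin_cases i <;> simp <;> ring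
  map_smul' := by
    intro c x
    ext i
    fin_cases i <;> simp <;> ring

theorem Un2_H_apply (a b : K) (x : V K) : Un2_H a b x =
    ![0, a * x 1, b * x 2, -(a + b) * x 3, -a * x 4, -b * x 5, (a + b) * x 6] := rfl

theorem Un2_H_IsD (a b : K) : IsD (Un2_H a b) := by
  constructor
  · intro x y
    ext i
    rw [Un2_H_apply, Un2_H_apply, Un2_H_apply]
    fin_cases i <;> simp [-mul_eq_mul_left_iff, br] <;> ring
  · intro x y
    rw [Un2_H_apply, Un2_H_apply]
    simp [bf]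
    ring

theorem Un2_H_i (a b : K) (x : V K) (i : Fin 7) :
    Un2_H a b x i = (((wt i).1 : K) * a + ((wt i).2 : K) * b) * x i := by
  rw [Un2_H_apply]
  fin_cases i
  · show (0 : K) = (((0 : ℤ) : K) * a + ((0 : ℤ) : K) * b) * x 0
    push_cast
    ring
  · show a * x 1 = (((1 : ℤ) : K) * a + ((0 : ℤ) : K) * b) * x 1
    push_cast
    ring
  · show b * x 2 = (((0 : ℤ) : K) * a + ((1 : ℤ) : K) * b) * x 2
    push_cast
    ring
  · show -(a + b) * x 3 = (((-1 : ℤ) : K) * a + ((-1 : ℤ) : K) * b) * x 3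
    push_cast
    ring
  · show -a * x 4 = (((-1 : ℤ) : K) * a + ((0 : ℤ) : K) * b) * x 4
    push_cast
    ring
  · show -b * x 5 = (((0 : ℤ) : K) * a + ((-1 : ℤ) : K) * b) * x 5
    push_cast
    ring
  · show (a + b) * x 6 = (((1 : ℤ) : K) * a + ((1 : ℤ) : K) * b) * x 6
    push_cast
    ring

theorem Un2_H_ev (a b : K) {i j : Fin 7} (h : i ≠ j) : Un2_H a b (ev j) i = 0 := by
  rw [Un2_H_i, ev_ne h, mul_zero]

theorem Un2_rt0 : ∀ r : Rt, rt r ≠ 0 := by
  decide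

theorem Un2_H_mem (a b : K) (S : Set Rt) : Un2_H a b ∈ hS K S := by
  refine ⟨Un2_H_IsD a b, fun r _ => ?_⟩
  apply LinearMap.ext
  intro x
  ext i
  rw [wc_apply, LinearMap.zero_apply, Pi.zero_apply]
  apply Finset.sum_eq_zero
  intro j _
  by_cases h : wt i = wt j + rt r
  · rw [if_pos h]
    have hij : i ≠ j := by
      rintro rfl
      exact Un2_rt0 r (left_eq_add.mp h)
    rw [Un2_H_ev a b hij, zero_mul]
  · rw [if_neg h]

theorem Un2_tab : ∀ r : Rt, ∃ i : Fin 7, (cc r i = 1 ∨ cc r i = -1) ∧ qc r i = 0 ∧ sc r i ≠ i ∧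
    cc r (sc r i) = 0 ∧ qc r (sc r i) = 0 ∧ wt i = wt (sc r i) + rt r := by
  decide

theorem Un2_tab2 : ∀ r : Rt, ((rt r).1 = 1 ∨ (rt r).1 = -1) ∨ ((rt r).2 = 1 ∨ (rt r).2 = -1) := by
  decide

theorem Un2_ab (r : Rt) : ∃ a b : K, ((rt r).1 : K) * a + ((rt r).2 : K) * b ≠ 0 := by
  rcases Un2_tab2 r with (h | h) | (h | h)
  · refine ⟨1, 0, ?_⟩
    rw [h]
    simp
  · refine ⟨1, 0, ?_⟩
    rw [h]
    simp
  · refine ⟨0, 1, ?_⟩
    rw [h]
    simp
  · refine ⟨0, 1, ?_⟩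
    rw [h]
    simp

theorem Un2_key (r : Rt) : ∃ (a b : K) (i j : Fin 7), wt i = wt j + rt r ∧
    ∀ s : K, s ≠ 0 → X r s (Un2_H a b (X r (-s) (ev j))) i ≠ 0 := by
  obtain ⟨i, h1, h2, h3, h4, h5, h6⟩ := Un2_tab r
  obtain ⟨a, b, hab⟩ := Un2_ab (K := K) r
  refine ⟨a, b, i, sc r i, h6, fun s hs => ?_⟩
  have e1 : X r (-s) (ev (sc r i) : V K) i = -s * (cc r i : K) := by
    rw [X_apply, h2, ev_ne (Ne.symm h3), ev_same]
    push_cast
    ring
  have e2 : X r (-s) (ev (sc r i) : V K) (sc r i) = 1 := by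
    rw [X_apply, h4, h5, ev_same]
    push_cast
    ring
  have e3 : ((wt i).1 : K) = (wt (sc r i)).1 + (rt r).1 := by
    rw [h6]
    exact Int.cast_add _ _
  have e4 : ((wt i).2 : K) = (wt (sc r i)).2 + (rt r).2 := by
    rw [h6]
    exact Int.cast_add _ _
  have e5 : X r s (Un2_H a b (X r (-s) (ev (sc r i)))) i =
      -(s * ((cc r i : K) * (((rt r).1 : K) * a + ((rt r).2 : K) * b))) := by
    rw [X_apply, h2, Un2_H_i, Un2_H_i, e1, e2, e3, e4]
    push_cast
    ring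
  rw [e5, neg_ne_zero]
  refine mul_ne_zero hs (mul_ne_zero ?_ hab)
  rcases h1 with h | h
  · rw [h]
    simp
  · rw [h]
    simp

theorem GS_roots (hK : Ok K) {S : Set Rt} (hS' : Cl S) {r : Rt} {s : K} (hs : s ≠ 0)
    (h : X r s ∈ GS K S) : r ∈ S := by
  by_contra hr
  obtain ⟨a, b, i, j, hij, h1⟩ := Un2_key (K := K) r
  have h2 := (hS_conj (ok_two hK) hS' h (Un2_H_mem a b S)).2 r hr
  have h3 := wc_ev (rt r) ((X r s : V K →ₗ[K] V K) ∘ₗ Un2_H a b ∘ₗ
    (((X r s)⁻¹ : EE K) : V K →ₗ[K] V K)) i j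
  rw [h2, if_pos hij] at h3
  apply h1 s hs
  rw [← X_inv]
  exact h3.symm

theorem SF_unique (hK : Ok K) {S : Set Rt} (hS' : Cl S) {F : Subgroup (EE K)} (hF : Ov F)
    (h1 : GS K S ≤ F) (h2 : ∀ f ∈ F, ∀ g ∈ GS K S, f * g * f⁻¹ ∈ GS K S) : S = SF F := by
  apply Set.Subset.antisymm
  · intro r hr s
    exact h1 (Subgroup.subset_closure (Or.inr ⟨r, hr, s, rfl⟩))
  · intro r hr
    obtain ⟨t, ht⟩ := ok_rt_onto r (Units.mk0 (2 : K) (ok_two hK))
    have h3 : tor t ∈ GS K S := Subgroup.subset_closure (Or.inl ⟨t, rfl⟩)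
    have h4 := mul_mem (h2 (X r 1) (hr 1) (tor t) h3) (inv_mem h3)
    have h5 : X r 1 * tor t * (X r 1)⁻¹ * (tor t)⁻¹ = X r (-1) := by
      rw [X_inv, mul_assoc (X r 1), mul_assoc (X r 1), tor_X, X_mul, ht]
      congr 1
      show (1 : K) + 2 * (-1) = -1
      ring
    rw [h5] at h4
    exact GS_roots hK hS' (neg_ne_zero.mpr one_ne_zero) h4

end Pool.Agent.H40.GT
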