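import Pool.Agent.H40.GT.ZoD
import Pool.Agent.H40.GT.Bas

/-!
# GT-81 octonions and the seven dimensional module

`io x = (x_0, -x_0, (x_1,x_2,x_3), (x_4,x_5,x_6))`, `zone = (1, 1, 0, 0)` the unit.  `2 ≠ 0`.
* `io_mul`: `io x * io y = (bf x y / 2) zone + (1/2) io (br x y)` (compute).
* `zo_dec`: every octonion is `c zone + io v` in a unique way.
* `G2_res`: `g ∈ G2`: `g zone = zone` (`zone` is the only two-sided unit, `g` is bijective).  Let
  `g (io x) = c zone + io y`.  Squares: `(io x)^2 = (bf x x / 2) zone` is mapped to itself, and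
  `(c zone + io y)^2 = (c^2 + bf y y / 2) zone + 2 c io y`; so `2 c io y = 0`.  If `c ≠ 0` then `y = 0`,
  `g (io x) = g (c zone)`, `io x = c zone`, which is impossible.  So `c = 0`.  Let `h x = y`: linear, invertible
  (the same for `g⁻¹`), and comparing `g (io x * io y)` with `g (io x) * g (io y)`: `h ∈ GG`.
* `G2_ext`: for `h ∈ GG` the map `c zone + io v ↦ c zone + io (h v)` is in `G2`.
* `G2_uniq`: `g` is determined by `h`.
-/

namespace Pool.Agent.H40.GT

variable {K : Type} [Field K]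

/-- the inclusion of the trace zero octonions -/
def io : V K →ₗ[K] Zo K where
  toFun x := (x 0, -x 0, ![x 1, x 2, x 3], ![x 4, x 5, x 6])
  map_add' := by
    intro x y
    refine Prod.ext rfl (Prod.ext (neg_add _ _) (Prod.ext ?_ ?_))
    · ext i
      fin_cases i <;> simp
    · ext i
      fin_cases i <;> simp
  map_smul' := by
    intro c x
    refine Prod.ext rfl (Prod.ext (by simp) (Prod.ext ?_ ?_))
    · ext i
      fin_cases i <;> simp
    · ext i
      fin_cases i <;> simp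

theorem io_apply (x : V K) : io x = (x 0, -x 0, ![x 1, x 2, x 3], ![x 4, x 5, x 6]) := rfl

/-- the unit -/
def zone (K : Type) [Field K] : Zo K := (1, 1, 0, 0)

/-- the projection to the trace zero octonions -/
def ZoA_pr : Zo K →ₗ[K] V K where
  toFun x := ![2⁻¹ * (x.1 - x.2.1), x.2.2.1 0, x.2.2.1 1, x.2.2.1 2, x.2.2.2 0, x.2.2.2 1, x.2.2.2 2]
  map_add' := by
    intro x y
    ext i
    fin_cases i <;> simp
    ring
  map_smul' := by
    intro c x
    ext i
    fin_cases i <;> simp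
    ring

/-- half the trace -/
def ZoA_tr : Zo K →ₗ[K] K where
  toFun x := 2⁻¹ * (x.1 + x.2.1)
  map_add' := by
    intro x y
    simp
    ring
  map_smul' := by
    intro c x
    simp
    ring

theorem ZoA_pr_apply (x : Zo K) : ZoA_pr x =
    ![2⁻¹ * (x.1 - x.2.1), x.2.2.1 0, x.2.2.1 1, x.2.2.1 2, x.2.2.2 0, x.2.2.2 1, x.2.2.2 2] := rfl

theorem ZoA_tr_apply (x : Zo K) : ZoA_tr x = 2⁻¹ * (x.1 + x.2.1) := rfl

theorem ZoA_pr_io (h2 : (2 : K) ≠ 0) (v : V K) : ZoA_pr (io v) = v := by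
  rw [ZoA_pr_apply, io_apply]
  ext i
  fin_cases i <;> simp
  field_simp
  ring

theorem ZoA_tr_io (v : V K) : ZoA_tr (io v) = 0 := by
  rw [ZoA_tr_apply, io_apply]
  simp

theorem ZoA_pr_zone : ZoA_pr (zone K) = 0 := by
  rw [ZoA_pr_apply]
  ext i
  fin_cases i <;> simp [zone]

theorem ZoA_tr_zone (h2 : (2 : K) ≠ 0) : ZoA_tr (zone K) = 1 := by
  rw [ZoA_tr_apply]
  show 2⁻¹ * ((1 : K) + 1) = 1
  rw [one_add_one_eq_two, inv_mul_cancel₀ h2]

theorem ZoA_dec (h2 : (2 : K) ≠ 0) (x : Zo K) : x = ZoA_tr x • zone K + io (ZoA_pr x) := by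
  rw [io_apply, ZoA_tr_apply, ZoA_pr_apply]
  refine Prod.ext ?_ (Prod.ext ?_ (Prod.ext ?_ ?_))
  · simp [zone]
    field_simp
    ring
  · simp [zone]
    field_simp
    ring
  · ext i
    fin_cases i <;> simp [zone]
  · ext i
    fin_cases i <;> simp [zone]

theorem io_inj (h2 : (2 : K) ≠ 0) {c c' : K} {v v' : V K}
    (h : c • zone K + io v = c' • zone K + io v') : c = c' ∧ v = v' := by
  constructor
  · have h1 := congrArg ZoA_tr h
    simpa [ZoA_tr_io, ZoA_tr_zone h2] using h1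
  · have h1 := congrArg ZoA_pr h
    simpa [ZoA_pr_io h2, ZoA_pr_zone] using h1

theorem zo_dec (h2 : (2 : K) ≠ 0) (x : Zo K) : ∃ (c : K) (v : V K), x = c • zone K + io v :=
  ⟨_, _, ZoA_dec h2 x⟩

theorem zone_mul (x : Zo K) : zmul (zone K) x = x ∧ zmul x (zone K) = x := by
  constructor
  · refine Prod.ext ?_ (Prod.ext ?_ (Prod.ext ?_ ?_))
    · simp [zmul, zone, dt]
    · simp [zmul, zone, dt]
    · ext i
      fin_cases i <;> simp [zmul, zone, cr] <;> rfl
    · ext i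
      fin_cases i <;> simp [zmul, zone, cr] <;> rfl
  · refine Prod.ext ?_ (Prod.ext ?_ (Prod.ext ?_ ?_))
    · simp [zmul, zone, dt]
    · simp [zmul, zone, dt]
    · ext i
      fin_cases i <;> simp [zmul, zone, cr] <;> rfl
    · ext i
      fin_cases i <;> simp [zmul, zone, cr] <;> rfl

theorem io_mul (h2 : (2 : K) ≠ 0) (x y : V K) :
    zmul (io x) (io y) = (2⁻¹ * bf x y) • zone K + (2⁻¹ : K) • io (br x y) := by
  refine Prod.ext ?_ (Prod.ext ?_ (Prod.ext ?_ ?_))
  · simp [zmul, zone, dt, io_apply, bf, br]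
    field_simp
    ring
  · simp [zmul, zone, dt, io_apply, bf, br]
    field_simp
    ring
  · ext i
    fin_cases i <;> simp [zmul, zone, cr, io_apply, br] <;> field_simp <;> ring
  · ext i
    fin_cases i <;> simp [zmul, zone, cr, io_apply, br] <;> field_simp <;> ring

theorem ZoA_mul (h2 : (2 : K) ≠ 0) (c c' : K) (v v' : V K) :
    zmul (c • zone K + io v) (c' • zone K + io v') =
      (c * c' + 2⁻¹ * bf v v') • zone K + io (c • v' + c' • v + (2⁻¹ : K) • br v v') := by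
  have h1 : zmul (c • zone K + io v) (c' • zone K + io v') =
      (c * c') • zone K + c • io v' + c' • io v + zmul (io v) (io v') := by
    refine Prod.ext ?_ (Prod.ext ?_ (Prod.ext ?_ ?_))
    · simp [zmul, zone, dt, io_apply]
      ring
    · simp [zmul, zone, dt, io_apply]
      ring
    · ext i
      fin_cases i <;> simp [zmul, zone, cr, io_apply] <;> ring
    · ext i
      fin_cases i <;> simp [zmul, zone, cr, io_apply] <;> ring
  rw [h1, io_mul h2, map_add, map_add, map_smul, map_smul, map_smul]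
  module

theorem ZoA_br_self (x : V K) : br x x = 0 := by
  ext i
  fin_cases i
  · show x 1 * x 4 + x 2 * x 5 + x 3 * x 6 - x 4 * x 1 - x 5 * x 2 - x 6 * x 3 = 0
    ring
  · show 2 * (x 0 * x 1 - x 0 * x 1 - (x 5 * x 6 - x 6 * x 5)) = 0
    ring
  · show 2 * (x 0 * x 2 - x 0 * x 2 - (x 6 * x 4 - x 4 * x 6)) = 0
    ring
  · show 2 * (x 0 * x 3 - x 0 * x 3 - (x 4 * x 5 - x 5 * x 4)) = 0
    ring
  · show 2 * (x 0 * x 4 - x 0 * x 4 + (x 2 * x 3 - x 3 * x 2)) = 0
    ring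
  · show 2 * (x 0 * x 5 - x 0 * x 5 + (x 3 * x 1 - x 1 * x 3)) = 0
    ring
  · show 2 * (x 0 * x 6 - x 0 * x 6 + (x 1 * x 2 - x 2 * x 1)) = 0
    ring

theorem ZoA_zone (g : Zo K ≃ₗ[K] Zo K) (hg : g ∈ G2 K) : g (zone K) = zone K := by
  have h1 : g (g⁻¹ (zone K)) = zone K := g.apply_symm_apply _
  have h2 := hg (zone K) (g⁻¹ (zone K))
  rw [(zone_mul _).1, h1, (zone_mul _).2] at h2
  exact h2.symm

theorem ZoA_io (h2 : (2 : K) ≠ 0) (g : Zo K ≃ₗ[K] Zo K) (hg : g ∈ G2 K) (x : V K) :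
    g (io x) = io (ZoA_pr (g (io x))) := by
  obtain ⟨c, y, hy⟩ := zo_dec h2 (g (io x))
  have h3 := hg (io x) (io x)
  rw [io_mul h2, ZoA_br_self, map_zero, smul_zero, add_zero, map_smul, ZoA_zone g hg, hy,
    ZoA_mul h2, ZoA_br_self, smul_zero, add_zero] at h3
  have h4 : (2⁻¹ * bf x x) • zone K + io (0 : V K) =
      (c * c + 2⁻¹ * bf y y) • zone K + io (c • y + c • y) := by
    rw [map_zero, add_zero]
    exact h3
  have h5 := (io_inj h2 h4).2
  have h6 : (2 * c) • y = 0 := by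
    rw [two_mul, add_smul]
    exact h5.symm
  by_cases hc : c = 0
  · rw [hy, hc, zero_smul, zero_add, ZoA_pr_io h2]
  · exfalso
    have h7 : y = 0 := (smul_eq_zero.mp h6).resolve_left (mul_ne_zero h2 hc)
    rw [h7, map_zero, add_zero] at hy
    have h8 : g (io x) = g (c • zone K) := by
      rw [hy, map_smul, ZoA_zone g hg]
    have h9 := g.injective h8
    have h10 : (0 : K) • zone K + io x = c • zone K + io 0 := by
      rw [zero_smul, zero_add, map_zero, add_zero]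
      exact h9
    exact hc (io_inj h2 h10).1.symm

theorem G2_res (h2 : (2 : K) ≠ 0) {g : Zo K ≃ₗ[K] Zo K} (hg : g ∈ G2 K) :
    g (zone K) = zone K ∧ ∃ h ∈ GG K, ∀ x, g (io x) = io (h x) := by
  refine ⟨ZoA_zone g hg, ?_⟩
  have hg' : g⁻¹ ∈ G2 K := inv_mem hg
  let a : V K →ₗ[K] V K := ZoA_pr ∘ₗ (g : Zo K →ₗ[K] Zo K) ∘ₗ io
  let b : V K →ₗ[K] V K := ZoA_pr ∘ₗ ((g⁻¹ : Zo K ≃ₗ[K] Zo K) : Zo K →ₗ[K] Zo K) ∘ₗ io
  have ha : ∀ x, g (io x) = io (a x) := fun x => ZoA_io h2 g hg x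
  have hb : ∀ x, g⁻¹ (io x) = io (b x) := fun x => ZoA_io h2 g⁻¹ hg' x
  have hgi : ∀ x, g (g⁻¹ x) = x := fun x => g.apply_symm_apply x
  have hig : ∀ x, g⁻¹ (g x) = x := fun x => g.symm_apply_apply x
  have hio : ∀ x y : V K, io x = io y → x = y := by
    intro x y h
    rw [← ZoA_pr_io h2 x, h, ZoA_pr_io h2]
  let h : EE K := LinearEquiv.ofLinearMap a b
    (by
      apply LinearMap.ext
      intro x
      apply hio
      show io (a (b x)) = io x
      rw [← ha, ← hb, hgi])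
    (by
      apply LinearMap.ext
      intro x
      apply hio
      show io (b (a x)) = io x
      rw [← hb, ← ha, hig])
  have hh : ∀ x, g (io x) = io (h x) := ha
  have key : ∀ x y, bf (h x) (h y) = bf x y ∧ h (br x y) = br (h x) (h y) := by
    intro x y
    have h3 := hg (io x) (io y)
    rw [io_mul h2, map_add, map_smul, map_smul, ZoA_zone g hg, hh, hh, hh, io_mul h2] at h3
    have h3' : (2⁻¹ * bf x y) • zone K + io ((2⁻¹ : K) • h (br x y)) =
        (2⁻¹ * bf (h x) (h y)) • zone K + io ((2⁻¹ : K) • br (h x) (h y)) := by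
      rw [map_smul, map_smul]
      exact h3
    obtain ⟨h4, h5⟩ := io_inj h2 h3'
    have h6 : (2⁻¹ : K) ≠ 0 := inv_ne_zero h2
    refine ⟨(mul_left_cancel₀ h6 h4).symm, ?_⟩
    exact smul_right_injective (V K) h6 h5
  exact ⟨h, ⟨fun x y => (key x y).2, fun x y => (key x y).1⟩, hh⟩

theorem G2_ext (h2 : (2 : K) ≠ 0) {h : EE K} (hh : h ∈ GG K) :
    ∃ g ∈ G2 K, g (zone K) = zone K ∧ ∀ x, g (io x) = io (h x) := by
  let E : EE K → (Zo K →ₗ[K] Zo K) := fun h =>
    LinearMap.smulRight ZoA_tr (zone K) + io ∘ₗ (h : V K →ₗ[K] V K) ∘ₗ ZoA_pr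
  have hE : ∀ (h : EE K) (x : Zo K), E h x = ZoA_tr x • zone K + io (h (ZoA_pr x)) := fun _ _ => rfl
  have hEE : ∀ (h k : EE K) (x : Zo K), E h (E k x) = E (h * k) x := by
    intro h k x
    rw [hE h, hE k, hE (h * k)]
    rw [map_add, map_add, map_smul, map_smul, ZoA_tr_zone h2, ZoA_pr_zone, ZoA_tr_io,
      ZoA_pr_io h2, smul_zero, zero_add, add_zero, smul_eq_mul, mul_one]
    rfl
  have hE1 : ∀ x : Zo K, E 1 x = x := fun x => (ZoA_dec h2 x).symm
  let g : Zo K ≃ₗ[K] Zo K := LinearEquiv.ofLinearMap (E h) (E h⁻¹)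
    (by
      apply LinearMap.ext
      intro x
      show E h (E h⁻¹ x) = x
      rw [hEE, mul_inv_cancel, hE1])
    (by
      apply LinearMap.ext
      intro x
      show E h⁻¹ (E h x) = x
      rw [hEE, inv_mul_cancel, hE1])
  have hg : ∀ x, g x = ZoA_tr x • zone K + io (h (ZoA_pr x)) := fun _ => rfl
  have hgc : ∀ (c : K) (v : V K), g (c • zone K + io v) = c • zone K + io (h v) := by
    intro c v
    rw [hg]
    rw [map_add, map_add, map_smul, map_smul, ZoA_tr_zone h2, ZoA_pr_zone, ZoA_tr_io,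
      ZoA_pr_io h2, smul_zero, zero_add, add_zero, smul_eq_mul, mul_one]
  refine ⟨g, ?_, ?_, ?_⟩
  · intro x y
    obtain ⟨c, v, rfl⟩ := zo_dec h2 x
    obtain ⟨c', v', rfl⟩ := zo_dec h2 y
    rw [ZoA_mul h2, hgc, hgc, hgc, ZoA_mul h2, hh.2]
    have h3 : h (c • v' + c' • v + (2⁻¹ : K) • br v v') =
        c • h v' + c' • h v + (2⁻¹ : K) • br (h v) (h v') := by
      rw [LinearEquiv.map_add, LinearEquiv.map_add, LinearEquiv.map_smul, LinearEquiv.map_smul,
        LinearEquiv.map_smul, hh.1]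
    rw [h3]
  · have h3 := hgc 1 0
    rw [map_zero, map_zero, map_zero, add_zero, one_smul] at h3
    exact h3
  · intro x
    have h3 := hgc 0 x
    rw [zero_smul, zero_add, zero_add] at h3
    exact h3

theorem G2_uniq (h2 : (2 : K) ≠ 0) {g g' : Zo K ≃ₗ[K] Zo K} (h : g (zone K) = g' (zone K))
    (h' : ∀ x, g (io x) = g' (io x)) : g = g' := by
  apply LinearEquiv.ext
  intro x
  obtain ⟨c, v, rfl⟩ := zo_dec h2 x
  rw [map_add, map_add, map_smul, map_smul, h, h']

end Pool.Agent.H40.GT
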