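import Pool.Agent.H40.GT.ZoA

/-!
# GT-82 the isomorphism `G_2(K) ≅ GG K` and the root elements

`psi : GG K →* (Zo K ≃ₗ Zo K)` (choose by `G2_ext`; unique by `G2_uniq`), injective with range `G2 K`
(`G2_res`).  `psi (tor t)` is the torus element with `t_1 = t.1, t_2 = t.2, t_3 = (t.1 t.2)⁻¹`;
`psi (X r s)` is the map `zr r s` (check on `zone` and on `io (ev j)`, i.e. compute `zr r s (c zone + io v)`
for `r = 0, ..., 11`; `zr r s (zone) = zone`, `zr r s (io v) = io (X r s v)`; `zr r s` is additive).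
So for subgroups of `GG K`: `psi` maps `TT K` onto `TZ K`, `{X r s}` onto `XZ K r`, and `GS K S` onto `GZ K S`.
-/

namespace Pool.Agent.H40.GT

variable {K : Type} [Field K]

theorem ZoB_s0 (a : K) : (Pi.single 0 a : Fin 3 → K) = ![a, 0, 0] := by
  ext i
  fin_cases i <;> rfl

theorem ZoB_s1 (a : K) : (Pi.single 1 a : Fin 3 → K) = ![0, a, 0] := by
  ext i
  fin_cases i <;> rfl

theorem ZoB_s2 (a : K) : (Pi.single 2 a : Fin 3 → K) = ![0, 0, a] := by
  ext i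
  fin_cases i <;> rfl

theorem ZoB_r0 (s c : K) (v : V K) :
    zr 0 s (c • zone K + io v) = c • zone K + io (X 0 s v) := by
  have hx : ∀ i, X 0 s v i = v i + s * ((cc 0 i : K) * v (sc 0 i)) +
      s ^ 2 * ((qc 0 i : K) * v (qs 0 i)) := X_apply 0 s v
  refine Prod.ext ?_ (Prod.ext ?_ (Prod.ext ?_ ?_))
  · simp [zr, zl, zp, zm, zone, io_apply, hx, cc, sc, qc, qs, ZoB_s0, ZoB_s1, ZoB_s2]
    try ring
  · simp [zr, zl, zp, zm, zone, io_apply, hx, cc, sc, qc, qs, ZoB_s0, ZoB_s1, ZoB_s2]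
    try ring
  · ext i
    fin_cases i
    all_goals simp [zr, zl, zp, zm, zone, io_apply, hx, cc, sc, qc, qs, cr, ZoB_s0, ZoB_s1, ZoB_s2]
    all_goals try ring
  · ext i
    fin_cases i
    all_goals simp [zr, zl, zp, zm, zone, io_apply, hx, cc, sc, qc, qs, cr, ZoB_s0, ZoB_s1, ZoB_s2]
    all_goals try ring

theorem ZoB_r1 (s c : K) (v : V K) :
    zr 1 s (c • zone K + io v) = c • zone K + io (X 1 s v) := by
  have hx : ∀ i, X 1 s v i = v i + s * ((cc 1 i : K) * v (sc 1 i)) +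
      s ^ 2 * ((qc 1 i : K) * v (qs 1 i)) := X_apply 1 s v
  refine Prod.ext ?_ (Prod.ext ?_ (Prod.ext ?_ ?_))
  · simp [zr, zl, zp, zm, zone, io_apply, hx, cc, sc, qc, qs, ZoB_s0, ZoB_s1, ZoB_s2]
    try ring
  · simp [zr, zl, zp, zm, zone, io_apply, hx, cc, sc, qc, qs, ZoB_s0, ZoB_s1, ZoB_s2]
    try ring
  · ext i
    fin_cases i
    all_goals simp [zr, zl, zp, zm, zone, io_apply, hx, cc, sc, qc, qs, cr, ZoB_s0, ZoB_s1, ZoB_s2]
    all_goals try ring
  · ext i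
    fin_cases i
    all_goals simp [zr, zl, zp, zm, zone, io_apply, hx, cc, sc, qc, qs, cr, ZoB_s0, ZoB_s1, ZoB_s2]
    all_goals try ring

theorem ZoB_r2 (s c : K) (v : V K) :
    zr 2 s (c • zone K + io v) = c • zone K + io (X 2 s v) := by
  have hx : ∀ i, X 2 s v i = v i + s * ((cc 2 i : K) * v (sc 2 i)) +
      s ^ 2 * ((qc 2 i : K) * v (qs 2 i)) := X_apply 2 s v
  refine Prod.ext ?_ (Prod.ext ?_ (Prod.ext ?_ ?_))
  · simp [zr, zl, zp, zm, zone, io_apply, hx, cc, sc, qc, qs, ZoB_s0, ZoB_s1, ZoB_s2]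
    try ring
  · simp [zr, zl, zp, zm, zone, io_apply, hx, cc, sc, qc, qs, ZoB_s0, ZoB_s1, ZoB_s2]
    try ring
  · ext i
    fin_cases i
    all_goals simp [zr, zl, zp, zm, zone, io_apply, hx, cc, sc, qc, qs, cr, ZoB_s0, ZoB_s1, ZoB_s2]
    all_goals try ring
  · ext i
    fin_cases i
    all_goals simp [zr, zl, zp, zm, zone, io_apply, hx, cc, sc, qc, qs, cr, ZoB_s0, ZoB_s1, ZoB_s2]
    all_goals try ring

theorem ZoB_r3 (s c : K) (v : V K) :
    zr 3 s (c • zone K + io v) = c • zone K + io (X 3 s v) := by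
  have hx : ∀ i, X 3 s v i = v i + s * ((cc 3 i : K) * v (sc 3 i)) +
      s ^ 2 * ((qc 3 i : K) * v (qs 3 i)) := X_apply 3 s v
  refine Prod.ext ?_ (Prod.ext ?_ (Prod.ext ?_ ?_))
  · simp [zr, zl, zp, zm, zone, io_apply, hx, cc, sc, qc, qs, ZoB_s0, ZoB_s1, ZoB_s2]
    try ring
  · simp [zr, zl, zp, zm, zone, io_apply, hx, cc, sc, qc, qs, ZoB_s0, ZoB_s1, ZoB_s2]
    try ring
  · ext i
    fin_cases i
    all_goals simp [zr, zl, zp, zm, zone, io_apply, hx, cc, sc, qc, qs, cr, ZoB_s0, ZoB_s1, ZoB_s2]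
    all_goals try ring
  · ext i
    fin_cases i
    all_goals simp [zr, zl, zp, zm, zone, io_apply, hx, cc, sc, qc, qs, cr, ZoB_s0, ZoB_s1, ZoB_s2]
    all_goals try ring

theorem ZoB_r4 (s c : K) (v : V K) :
    zr 4 s (c • zone K + io v) = c • zone K + io (X 4 s v) := by
  have hx : ∀ i, X 4 s v i = v i + s * ((cc 4 i : K) * v (sc 4 i)) +
      s ^ 2 * ((qc 4 i : K) * v (qs 4 i)) := X_apply 4 s v
  refine Prod.ext ?_ (Prod.ext ?_ (Prod.ext ?_ ?_))
  · simp [zr, zl, zp, zm, zone, io_apply, hx, cc, sc, qc, qs, ZoB_s0, ZoB_s1, ZoB_s2]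
    try ring
  · simp [zr, zl, zp, zm, zone, io_apply, hx, cc, sc, qc, qs, ZoB_s0, ZoB_s1, ZoB_s2]
    try ring
  · ext i
    fin_cases i
    all_goals simp [zr, zl, zp, zm, zone, io_apply, hx, cc, sc, qc, qs, cr, ZoB_s0, ZoB_s1, ZoB_s2]
    all_goals try ring
  · ext i
    fin_cases i
    all_goals simp [zr, zl, zp, zm, zone, io_apply, hx, cc, sc, qc, qs, cr, ZoB_s0, ZoB_s1, ZoB_s2]
    all_goals try ring

theorem ZoB_r5 (s c : K) (v : V K) :
    zr 5 s (c • zone K + io v) = c • zone K + io (X 5 s v) := by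
  have hx : ∀ i, X 5 s v i = v i + s * ((cc 5 i : K) * v (sc 5 i)) +
      s ^ 2 * ((qc 5 i : K) * v (qs 5 i)) := X_apply 5 s v
  refine Prod.ext ?_ (Prod.ext ?_ (Prod.ext ?_ ?_))
  · simp [zr, zl, zp, zm, zone, io_apply, hx, cc, sc, qc, qs, ZoB_s0, ZoB_s1, ZoB_s2]
    try ring
  · simp [zr, zl, zp, zm, zone, io_apply, hx, cc, sc, qc, qs, ZoB_s0, ZoB_s1, ZoB_s2]
    try ring
  · ext i
    fin_cases i
    all_goals simp [zr, zl, zp, zm, zone, io_apply, hx, cc, sc, qc, qs, cr, ZoB_s0, ZoB_s1, ZoB_s2]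
    all_goals try ring
  · ext i
    fin_cases i
    all_goals simp [zr, zl, zp, zm, zone, io_apply, hx, cc, sc, qc, qs, cr, ZoB_s0, ZoB_s1, ZoB_s2]
    all_goals try ring

theorem ZoB_r6 (s c : K) (v : V K) :
    zr 6 s (c • zone K + io v) = c • zone K + io (X 6 s v) := by
  have hx : ∀ i, X 6 s v i = v i + s * ((cc 6 i : K) * v (sc 6 i)) +
      s ^ 2 * ((qc 6 i : K) * v (qs 6 i)) := X_apply 6 s v
  refine Prod.ext ?_ (Prod.ext ?_ (Prod.ext ?_ ?_))
  · simp [zr, zl, zp, zm, zone, io_apply, hx, cc, sc, qc, qs, ZoB_s0, ZoB_s1, ZoB_s2]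
    try ring
  · simp [zr, zl, zp, zm, zone, io_apply, hx, cc, sc, qc, qs, ZoB_s0, ZoB_s1, ZoB_s2]
    try ring
  · ext i
    fin_cases i
    all_goals simp [zr, zl, zp, zm, zone, io_apply, hx, cc, sc, qc, qs, cr, ZoB_s0, ZoB_s1, ZoB_s2]
    all_goals try ring
  · ext i
    fin_cases i
    all_goals simp [zr, zl, zp, zm, zone, io_apply, hx, cc, sc, qc, qs, cr, ZoB_s0, ZoB_s1, ZoB_s2]
    all_goals try ring

theorem ZoB_r7 (s c : K) (v : V K) :
    zr 7 s (c • zone K + io v) = c • zone K + io (X 7 s v) := by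
  have hx : ∀ i, X 7 s v i = v i + s * ((cc 7 i : K) * v (sc 7 i)) +
      s ^ 2 * ((qc 7 i : K) * v (qs 7 i)) := X_apply 7 s v
  refine Prod.ext ?_ (Prod.ext ?_ (Prod.ext ?_ ?_))
  · simp [zr, zl, zp, zm, zone, io_apply, hx, cc, sc, qc, qs, ZoB_s0, ZoB_s1, ZoB_s2]
    try ring
  · simp [zr, zl, zp, zm, zone, io_apply, hx, cc, sc, qc, qs, ZoB_s0, ZoB_s1, ZoB_s2]
    try ring
  · ext i
    fin_cases i
    all_goals simp [zr, zl, zp, zm, zone, io_apply, hx, cc, sc, qc, qs, cr, ZoB_s0, ZoB_s1, ZoB_s2]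
    all_goals try ring
  · ext i
    fin_cases i
    all_goals simp [zr, zl, zp, zm, zone, io_apply, hx, cc, sc, qc, qs, cr, ZoB_s0, ZoB_s1, ZoB_s2]
    all_goals try ring

theorem ZoB_r8 (s c : K) (v : V K) :
    zr 8 s (c • zone K + io v) = c • zone K + io (X 8 s v) := by
  have hx : ∀ i, X 8 s v i = v i + s * ((cc 8 i : K) * v (sc 8 i)) +
      s ^ 2 * ((qc 8 i : K) * v (qs 8 i)) := X_apply 8 s v
  refine Prod.ext ?_ (Prod.ext ?_ (Prod.ext ?_ ?_))
  · simp [zr, zl, zp, zm, zone, io_apply, hx, cc, sc, qc, qs, ZoB_s0, ZoB_s1, ZoB_s2]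
    try ring
  · simp [zr, zl, zp, zm, zone, io_apply, hx, cc, sc, qc, qs, ZoB_s0, ZoB_s1, ZoB_s2]
    try ring
  · ext i
    fin_cases i
    all_goals simp [zr, zl, zp, zm, zone, io_apply, hx, cc, sc, qc, qs, cr, ZoB_s0, ZoB_s1, ZoB_s2]
    all_goals try ring
  · ext i
    fin_cases i
    all_goals simp [zr, zl, zp, zm, zone, io_apply, hx, cc, sc, qc, qs, cr, ZoB_s0, ZoB_s1, ZoB_s2]
    all_goals try ring

theorem ZoB_r9 (s c : K) (v : V K) :
    zr 9 s (c • zone K + io v) = c • zone K + io (X 9 s v) := by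
  have hx : ∀ i, X 9 s v i = v i + s * ((cc 9 i : K) * v (sc 9 i)) +
      s ^ 2 * ((qc 9 i : K) * v (qs 9 i)) := X_apply 9 s v
  refine Prod.ext ?_ (Prod.ext ?_ (Prod.ext ?_ ?_))
  · simp [zr, zl, zp, zm, zone, io_apply, hx, cc, sc, qc, qs, ZoB_s0, ZoB_s1, ZoB_s2]
    try ring
  · simp [zr, zl, zp, zm, zone, io_apply, hx, cc, sc, qc, qs, ZoB_s0, ZoB_s1, ZoB_s2]
    try ring
  · ext i
    fin_cases i
    all_goals simp [zr, zl, zp, zm, zone, io_apply, hx, cc, sc, qc, qs, cr, ZoB_s0, ZoB_s1, ZoB_s2]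
    all_goals try ring
  · ext i
    fin_cases i
    all_goals simp [zr, zl, zp, zm, zone, io_apply, hx, cc, sc, qc, qs, cr, ZoB_s0, ZoB_s1, ZoB_s2]
    all_goals try ring

theorem ZoB_r10 (s c : K) (v : V K) :
    zr 10 s (c • zone K + io v) = c • zone K + io (X 10 s v) := by
  have hx : ∀ i, X 10 s v i = v i + s * ((cc 10 i : K) * v (sc 10 i)) +
      s ^ 2 * ((qc 10 i : K) * v (qs 10 i)) := X_apply 10 s v
  refine Prod.ext ?_ (Prod.ext ?_ (Prod.ext ?_ ?_))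
  · simp [zr, zl, zp, zm, zone, io_apply, hx, cc, sc, qc, qs, ZoB_s0, ZoB_s1, ZoB_s2]
    try ring
  · simp [zr, zl, zp, zm, zone, io_apply, hx, cc, sc, qc, qs, ZoB_s0, ZoB_s1, ZoB_s2]
    try ring
  · ext i
    fin_cases i
    all_goals simp [zr, zl, zp, zm, zone, io_apply, hx, cc, sc, qc, qs, cr, ZoB_s0, ZoB_s1, ZoB_s2]
    all_goals try ring
  · ext i
    fin_cases i
    all_goals simp [zr, zl, zp, zm, zone, io_apply, hx, cc, sc, qc, qs, cr, ZoB_s0, ZoB_s1, ZoB_s2]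
    all_goals try ring

theorem ZoB_r11 (s c : K) (v : V K) :
    zr 11 s (c • zone K + io v) = c • zone K + io (X 11 s v) := by
  have hx : ∀ i, X 11 s v i = v i + s * ((cc 11 i : K) * v (sc 11 i)) +
      s ^ 2 * ((qc 11 i : K) * v (qs 11 i)) := X_apply 11 s v
  refine Prod.ext ?_ (Prod.ext ?_ (Prod.ext ?_ ?_))
  · simp [zr, zl, zp, zm, zone, io_apply, hx, cc, sc, qc, qs, ZoB_s0, ZoB_s1, ZoB_s2]
    try ring
  · simp [zr, zl, zp, zm, zone, io_apply, hx, cc, sc, qc, qs, ZoB_s0, ZoB_s1, ZoB_s2]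
    try ring
  · ext i
    fin_cases i
    all_goals simp [zr, zl, zp, zm, zone, io_apply, hx, cc, sc, qc, qs, cr, ZoB_s0, ZoB_s1, ZoB_s2]
    all_goals try ring
  · ext i
    fin_cases i
    all_goals simp [zr, zl, zp, zm, zone, io_apply, hx, cc, sc, qc, qs, cr, ZoB_s0, ZoB_s1, ZoB_s2]
    all_goals try ring

theorem zr_zone (r : RtZ) (s c : K) (v : V K) :
    zr r s (c • zone K + io v) = c • zone K + io (X r s v) := by
  fin_cases r
  · exact ZoB_r0 s c v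
  · exact ZoB_r1 s c v
  · exact ZoB_r2 s c v
  · exact ZoB_r3 s c v
  · exact ZoB_r4 s c v
  · exact ZoB_r5 s c v
  · exact ZoB_r6 s c v
  · exact ZoB_r7 s c v
  · exact ZoB_r8 s c v
  · exact ZoB_r9 s c v
  · exact ZoB_r10 s c v
  · exact ZoB_r11 s c v

theorem zr_io (r : RtZ) (s : K) (v : V K) : zr r s (io v) = io (X r s v) := by
  have h := zr_zone r s 0 v
  rwa [zero_smul, zero_add, zero_add] at h

theorem psi_ex (h2 : (2 : K) ≠ 0) : ∃ ψ : GG K →* (Zo K ≃ₗ[K] Zo K),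
    Function.Injective ψ ∧ (∀ g, g ∈ G2 K ↔ ∃ h, ψ h = g) ∧
    (∀ h : GG K, ψ h (zone K) = zone K) ∧ (∀ (h : GG K) (x : V K), ψ h (io x) = io ((h : EE K) x)) := by
  have h1 : ∀ h : GG K, ∃ g : Zo K ≃ₗ[K] Zo K, g ∈ G2 K ∧ g (zone K) = zone K ∧
      ∀ x, g (io x) = io ((h : EE K) x) := by
    intro h
    obtain ⟨g, hg, h3, h4⟩ := G2_ext h2 h.2
    exact ⟨g, hg, h3, h4⟩
  choose φ hφ1 hφ2 hφ3 using h1
  let ψ : GG K →* (Zo K ≃ₗ[K] Zo K) :=
    { toFun := φ
      map_one' := by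
        apply G2_uniq h2
        · rw [hφ2]
          rfl
        · intro x
          rw [hφ3]
          rfl
      map_mul' := by
        intro a b
        apply G2_uniq h2
        · rw [hφ2, LinearEquiv.mul_apply, hφ2, hφ2]
        · intro x
          rw [hφ3, LinearEquiv.mul_apply, hφ3, hφ3]
          rfl }
  refine ⟨ψ, ?_, ?_, hφ2, hφ3⟩
  · intro a b hab
    apply Subtype.ext
    apply LinearEquiv.ext
    intro x
    have h3 : io ((a : EE K) x) = io ((b : EE K) x) := by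
      rw [← hφ3, ← hφ3]
      have : φ a = φ b := hab
      rw [this]
    have h4 := io_inj h2 (c := 0) (c' := 0) (v := (a : EE K) x) (v' := (b : EE K) x)
      (by rw [zero_smul, zero_add, zero_add, h3])
    exact h4.2
  · intro g
    constructor
    · intro hg
      obtain ⟨h3, h, hh, h4⟩ := G2_res h2 hg
      refine ⟨⟨h, hh⟩, ?_⟩
      apply G2_uniq h2
      · rw [h3]
        exact hφ2 _
      · intro x
        rw [h4]
        exact hφ3 _ _
    · rintro ⟨h, rfl⟩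
      exact hφ1 h

theorem ZoB_tor (t : Kˣ × Kˣ) (x : V K) : io (tor t x) =
    ((io x).1, (io x).2.1, (fun i => ((![t.1, t.2, (t.1 * t.2)⁻¹] : Fin 3 → Kˣ) i : K) * (io x).2.2.1 i),
      fun i => ((((![t.1, t.2, (t.1 * t.2)⁻¹] : Fin 3 → Kˣ) i)⁻¹ : Kˣ) : K) * (io x).2.2.2 i) := by
  refine Prod.ext ?_ (Prod.ext ?_ (Prod.ext ?_ ?_))
  · simp [io_apply, tor_apply, ch, wt]
  · simp [io_apply, tor_apply, ch, wt]
  · ext i
    fin_cases i
    · simp [io_apply, tor_apply, ch, wt]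
    · simp [io_apply, tor_apply, ch, wt]
    · simp [io_apply, tor_apply, ch, wt]
      left
      rw [mul_comm]
  · ext i
    fin_cases i
    all_goals simp [io_apply, tor_apply, ch, wt]
    all_goals try ring

theorem psi_TT (h2 : (2 : K) ≠ 0) (ψ : GG K →* (Zo K ≃ₗ[K] Zo K))
    (h1 : ∀ h : GG K, ψ h (zone K) = zone K)
    (h3 : ∀ (h : GG K) (x : V K), ψ h (io x) = io ((h : EE K) x)) :
    TZ K = ((TT K).subgroupOf (GG K)).map ψ := by
  apply le_antisymm
  · unfold TZ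
    rw [Subgroup.closure_le]
    rintro g ⟨t, ht, hg⟩
    refine ⟨⟨tor (t 0, t 1), tor_mem_GG _⟩, ?_, ?_⟩
    · show _ ∈ (TT K).subgroupOf (GG K)
      rw [Subgroup.mem_subgroupOf]
      exact tor_mem_TT _
    · apply G2_uniq h2
      · rw [h1, hg]
        unfold zone
        refine Prod.ext rfl (Prod.ext rfl (Prod.ext ?_ ?_))
        · ext i
          simp
        · ext i
          simp
      · intro x
        rw [h3, hg, ZoB_tor]
        have e : (![t 0, t 1, (t 0 * t 1)⁻¹] : Fin 3 → Kˣ) = t := by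
          ext i
          fin_cases i
          · rfl
          · rfl
          · have : t 2 = (t 0 * t 1)⁻¹ := eq_inv_of_mul_eq_one_right ht
            exact congrArg Units.val this.symm
        show ((io x).1, (io x).2.1, (fun i => ((![t 0, t 1, (t 0 * t 1)⁻¹] : Fin 3 → Kˣ) i : K) *
          (io x).2.2.1 i), fun i => ((((![t 0, t 1, (t 0 * t 1)⁻¹] : Fin 3 → Kˣ) i)⁻¹ : Kˣ) : K) *
          (io x).2.2.2 i) = _
        rw [e]
  · rintro g ⟨h, hh, rfl⟩
    have hh' : (h : EE K) ∈ TT K := hh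
    obtain ⟨t, ht⟩ := hh'
    apply Subgroup.subset_closure
    refine ⟨![t.1, t.2, (t.1 * t.2)⁻¹], ?_, ?_⟩
    · show t.1 * t.2 * (t.1 * t.2)⁻¹ = 1
      exact mul_inv_cancel _
    · intro x
      obtain ⟨c, v, rfl⟩ := zo_dec h2 x
      rw [map_add, map_smul, h1, h3, ← ht, ZoB_tor]
      refine Prod.ext ?_ (Prod.ext ?_ (Prod.ext ?_ ?_))
      · rfl
      · rfl
      · ext i
        show (c • zone K).2.2.1 i + _ = _ * ((c • zone K).2.2.1 i + _)
        have e : (c • zone K).2.2.1 i = 0 := by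
          simp [zone]
        rw [e, zero_add, zero_add]
      · ext i
        show (c • zone K).2.2.2 i + _ = _ * ((c • zone K).2.2.2 i + _)
        have e : (c • zone K).2.2.2 i = 0 := by
          simp [zone]
        rw [e, zero_add, zero_add]

theorem psi_X (h2 : (2 : K) ≠ 0) (ψ : GG K →* (Zo K ≃ₗ[K] Zo K))
    (h1 : ∀ h : GG K, ψ h (zone K) = zone K)
    (h3 : ∀ (h : GG K) (x : V K), ψ h (io x) = io ((h : EE K) x)) (r : RtZ) (s : K) (x : Zo K) :
    ψ ⟨X r s, X_mem_GG r s⟩ x = zr r s x := by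
  obtain ⟨c, v, rfl⟩ := zo_dec h2 x
  rw [map_add, map_smul, h1, h3, zr_zone]

theorem psi_GS (h2 : (2 : K) ≠ 0) (ψ : GG K →* (Zo K ≃ₗ[K] Zo K))
    (h1 : ∀ h : GG K, ψ h (zone K) = zone K)
    (h3 : ∀ (h : GG K) (x : V K), ψ h (io x) = io ((h : EE K) x)) (S : Set Rt) :
    GZ K S = ((GS K S).subgroupOf (GG K)).map ψ := by
  apply le_antisymm
  · unfold GZ
    refine sup_le ?_ (iSup_le fun r => iSup_le fun hr => ?_)
    · rw [psi_TT h2 ψ h1 h3]
      apply Subgroup.map_mono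
      intro h hh
      rw [Subgroup.mem_subgroupOf] at hh ⊢
      exact TT_le_GS S hh
    · unfold XZ
      rw [Subgroup.closure_le]
      rintro g ⟨s, hg⟩
      refine ⟨⟨X r s, X_mem_GG r s⟩, ?_, ?_⟩
      · show _ ∈ (GS K S).subgroupOf (GG K)
        rw [Subgroup.mem_subgroupOf]
        exact X_mem_GS hr s
      · apply LinearEquiv.ext
        intro x
        rw [psi_X h2 ψ h1 h3, hg]
  · have key : GS K S ≤ ((GZ K S).comap ψ).map (GG K).subtype := by
      unfold GS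
      rw [Subgroup.closure_le]
      rintro g (hg | ⟨r, hr, s, rfl⟩)
      · refine ⟨⟨g, TT_le_GG hg⟩, ?_, rfl⟩
        show ψ ⟨g, TT_le_GG hg⟩ ∈ GZ K S
        have h4 : ψ ⟨g, TT_le_GG hg⟩ ∈ TZ K := by
          rw [psi_TT h2 ψ h1 h3]
          exact ⟨_, hg, rfl⟩
        exact (le_sup_left : TZ K ≤ GZ K S) h4
      · refine ⟨⟨X r s, X_mem_GG r s⟩, ?_, rfl⟩
        show ψ ⟨X r s, X_mem_GG r s⟩ ∈ GZ K S
        have h4 : ψ ⟨X r s, X_mem_GG r s⟩ ∈ XZ K r :=
          Subgroup.subset_closure ⟨s, fun x => psi_X h2 ψ h1 h3 r s x⟩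
        have h5 : XZ K r ≤ GZ K S := by
          unfold GZ
          refine le_trans ?_ le_sup_right
          exact le_iSup₂_of_le r hr le_rfl
        exact h5 h4
    rintro g ⟨h, hh, rfl⟩
    have hh' : (h : EE K) ∈ GS K S := hh
    obtain ⟨k, hk, hkh⟩ := key hh'
    have : k = h := Subtype.ext hkh
    rw [← this]
    exact hk

end Pool.Agent.H40.GT
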