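import Pool.Agent.H40.GT.ZoP

/-!
# Working definitions: the group `G_2(K)` inside the group of linear automorphisms of the octonions
-/

namespace Pool.Agent.H40.GT

variable {K : Type} [Field K]

/-- the group `G_2(K)`: the linear automorphisms of the split octonion algebra -/
def G2 (K : Type) [Field K] : Subgroup (Zo K ≃ₗ[K] Zo K) where
  carrier := {g | ∀ x y, g (zmul x y) = zmul (g x) (g y)}
  one_mem' := fun _ _ => rfl
  mul_mem' := by
    intro a b ha hb x y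
    rw [LinearEquiv.mul_apply, LinearEquiv.mul_apply, LinearEquiv.mul_apply, hb, ha]
  inv_mem' := by
    intro a ha x y
    have e1 : ∀ x, a (a⁻¹ x) = x := fun x => a.apply_symm_apply x
    apply a.injective
    rw [e1, ha, e1, e1]

/-- the split maximal torus: `(a, b, u, v) ↦ (a, b, (t_i u_i), (t_i⁻¹ v_i))`, `t_1 t_2 t_3 = 1` -/
def TZ (K : Type) [Field K] : Subgroup (Zo K ≃ₗ[K] Zo K) :=
  Subgroup.closure {g | ∃ t : Fin 3 → Kˣ, t 0 * t 1 * t 2 = 1 ∧
    ∀ x, g x = (x.1, x.2.1, fun i => (t i : K) * x.2.2.1 i, fun i => ((t i)⁻¹ : Kˣ) * x.2.2.2 i)}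

/-- the root subgroup -/
def XZ (K : Type) [Field K] (r : RtZ) : Subgroup (Zo K ≃ₗ[K] Zo K) :=
  Subgroup.closure {g | ∃ s : K, ∀ x, g x = zr r s x}

/-- the group `G(S)` generated by the torus and the root subgroups of `S` -/
def GZ (K : Type) [Field K] (S : Set RtZ) : Subgroup (Zo K ≃ₗ[K] Zo K) :=
  TZ K ⊔ ⨆ r ∈ S, XZ K r

/-- `G(S) ≤ F ≤ N(S)` for exactly one closed `S` -/
def StdZ (F : Subgroup (Zo K ≃ₗ[K] Zo K)) : Prop :=
  ∃! S : Set RtZ, ClosedZ S ∧ GZ K S ≤ F ∧ ∀ f ∈ F, ∀ x, x ∈ GZ K S ↔ f * x * f⁻¹ ∈ GZ K S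

end Pool.Agent.H40.GT
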