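import Pool.Agent.H40.GT.ZoB
import Pool.Agent.H40.GT.Main

/-!
# GT-83 final packaging

`F` with `TZ K ≤ F ≤ G2 K`.  `F' = ((F.comap ψ).map (GG K).subtype)`: `TT K ≤ F' ≤ GG K` (`psi_TT`).
`GT_main` for `F'`; transport by `psi_GS`: `GZ K S ≤ F ↔ GS K S ≤ F'`, and the normalising condition.
(`ClosedZ = Cl` by definition.)  The equivalence `x ∈ GZ K S ↔ f x f⁻¹ ∈ GZ K S` follows from the one
direction for `f` and `f⁻¹`.
-/

namespace Pool.Agent.H40.GT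

variable {K : Type} [Field K]

theorem ZoE_cl (S : Set Rt) : ClosedZ S ↔ Cl S := Iff.rfl

theorem zo_main (hK : Nat.card K = 7 ∨ Nat.card K = 11) (F : Subgroup (Zo K ≃ₗ[K] Zo K))
    (h1 : TZ K ≤ F) (h2 : F ≤ G2 K) : StdZ F := by
  have hok : Ok K := hK
  have h22 : (2 : K) ≠ 0 := ok_two hok
  obtain ⟨ψ, hinj, hran, hone, hio⟩ := psi_ex h22
  obtain ⟨F', hF'⟩ : ∃ F' : Subgroup (EE K), F' = (F.comap ψ).map (GG K).subtype := ⟨_, rfl⟩
  have memF : ∀ h : GG K, (h : EE K) ∈ F' ↔ ψ h ∈ F := by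
    intro h
    rw [hF']
    constructor
    · rintro ⟨k, hk, hkh⟩
      have e : k = h := Subtype.ext hkh
      rw [← e]
      exact hk
    · intro hh
      exact ⟨h, hh, rfl⟩
  have memS : ∀ (S : Set Rt) (h : GG K), (h : EE K) ∈ GS K S ↔ ψ h ∈ GZ K S := by
    intro S h
    rw [psi_GS h22 ψ hone hio]
    constructor
    · intro hh
      exact ⟨h, Subgroup.mem_subgroupOf.mpr hh, rfl⟩
    · rintro ⟨k, hk, hkh⟩
      have e : k = h := hinj hkh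
      rw [← e]
      exact Subgroup.mem_subgroupOf.mp hk
  have hF'G : F' ≤ GG K := by
    rw [hF']
    rintro _ ⟨k, -, rfl⟩
    exact k.2
  have hTF' : TT K ≤ F' := by
    intro t ht
    apply (memF ⟨t, TT_le_GG ht⟩).mpr
    apply h1
    rw [psi_TT h22 ψ hone hio]
    exact ⟨⟨t, TT_le_GG ht⟩, Subgroup.mem_subgroupOf.mpr ht, rfl⟩
  have memZ : ∀ (S : Set Rt) (x : Zo K ≃ₗ[K] Zo K), x ∈ GZ K S → ∃ h : GG K, ψ h = x := by
    intro S x hx
    rw [psi_GS h22 ψ hone hio] at hx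
    obtain ⟨k, -, hk⟩ := hx
    exact ⟨k, hk⟩
  have hle : ∀ S : Set Rt, GZ K S ≤ F ↔ GS K S ≤ F' := by
    intro S
    constructor
    · intro h g hg
      have hgG := GS_le_GG S hg
      exact (memF ⟨g, hgG⟩).mpr (h ((memS S ⟨g, hgG⟩).mp hg))
    · intro h x hx
      obtain ⟨k, rfl⟩ := memZ S x hx
      exact (memF k).mp (h ((memS S k).mpr hx))
  have hnor : ∀ S : Set Rt, (∀ f ∈ F, ∀ x, x ∈ GZ K S ↔ f * x * f⁻¹ ∈ GZ K S) ↔
      (∀ f ∈ F', ∀ g ∈ GS K S, f * g * f⁻¹ ∈ GS K S) := by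
    intro S
    constructor
    · intro h f hf g hg
      have hfG := hF'G hf
      have hgG := GS_le_GG S hg
      have h3 := (h (ψ ⟨f, hfG⟩) ((memF ⟨f, hfG⟩).mp hf) (ψ ⟨g, hgG⟩)).mp ((memS S ⟨g, hgG⟩).mp hg)
      rw [← map_inv, ← map_mul, ← map_mul] at h3
      exact (memS S (⟨f, hfG⟩ * ⟨g, hgG⟩ * (⟨f, hfG⟩)⁻¹)).mpr h3
    · intro h
      have key : ∀ f ∈ F, ∀ x ∈ GZ K S, f * x * f⁻¹ ∈ GZ K S := by
        intro f hf x hx
        obtain ⟨k, rfl⟩ := (hran f).mp (h2 hf)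
        obtain ⟨l, rfl⟩ := memZ S x hx
        rw [← map_inv, ← map_mul, ← map_mul]
        apply (memS S (k * l * k⁻¹)).mp
        exact h k ((memF k).mpr hf) l ((memS S l).mpr hx)
      intro f hf x
      constructor
      · exact key f hf x
      · intro hx
        have h3 := key f⁻¹ (F.inv_mem hf) _ hx
        have e : f⁻¹ * (f * x * f⁻¹) * f⁻¹⁻¹ = x := by group
        rw [e] at h3
        exact h3
  obtain ⟨S, ⟨hS1, hS2, hS3⟩, hS4⟩ := GT_main hok F' hTF' hF'G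
  refine ⟨S, ⟨hS1, (hle S).mpr hS2, (hnor S).mpr hS3⟩, ?_⟩
  rintro S' ⟨h3, h4, h5⟩
  exact hS4 S' ⟨h3, (hle S').mp h4, (hnor S').mp h5⟩

end Pool.Agent.H40.GT
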