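import Pool.Agent.H40.GT.ZoE

/-!
# The final statement inside the group of permutations of the octonions
-/

namespace Pool.Agent.H40.GT

variable {K : Type} [Field K]

/-- a linear automorphism as a permutation -/
def iotaP (K : Type) [Field K] : (Zo K ≃ₗ[K] Zo K) →* Equiv.Perm (Zo K) where
  toFun g := g.toEquiv
  map_one' := rfl
  map_mul' _ _ := rfl

theorem iotaP_apply (g : Zo K ≃ₗ[K] Zo K) (x : Zo K) : iotaP K g x = g x := rfl

theorem iotaP_inj : Function.Injective (iotaP K) := by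
  intro a b h
  apply LinearEquiv.ext
  intro x
  rw [← iotaP_apply, ← iotaP_apply, h]

theorem iotaP_aut {g : Equiv.Perm (Zo K)} (hg : IsAutZ g) : ∃ h : Zo K ≃ₗ[K] Zo K, iotaP K h = g :=
  ⟨g.toLinearEquiv ⟨hg.1, hg.2.1⟩, Equiv.ext fun _ => rfl⟩

theorem zt_lin (t : Fin 3 → Kˣ) : ∃ h : Zo K ≃ₗ[K] Zo K, ∀ x, h x = zt t x := by
  have e : ∀ i, ((t i)⁻¹ : Kˣ) * (t i : K) = 1 := fun i => Units.inv_mul _
  have e' : ∀ i, (t i : K) * ((t i)⁻¹ : Kˣ) = 1 := fun i => Units.mul_inv _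
  let f : Equiv.Perm (Zo K) :=
    { toFun := zt t
      invFun := zt fun i => (t i)⁻¹
      left_inv := by
        intro x
        refine Prod.ext rfl (Prod.ext rfl (Prod.ext ?_ ?_))
        · ext i
          show ((t i)⁻¹ : Kˣ) * ((t i : K) * x.2.2.1 i) = x.2.2.1 i
          rw [← mul_assoc, e, one_mul]
        · ext i
          show (((t i)⁻¹)⁻¹ : Kˣ) * (((t i)⁻¹ : Kˣ) * x.2.2.2 i) = x.2.2.2 i
          rw [inv_inv, ← mul_assoc, e', one_mul]
      right_inv := by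
        intro x
        refine Prod.ext rfl (Prod.ext rfl (Prod.ext ?_ ?_))
        · ext i
          show (t i : K) * (((t i)⁻¹ : Kˣ) * x.2.2.1 i) = x.2.2.1 i
          rw [← mul_assoc, e', one_mul]
        · ext i
          show ((t i)⁻¹ : Kˣ) * ((((t i)⁻¹)⁻¹ : Kˣ) * x.2.2.2 i) = x.2.2.2 i
          rw [inv_inv, ← mul_assoc, e, one_mul] }
  refine ⟨f.toLinearEquiv ⟨?_, ?_⟩, fun x => rfl⟩
  · intro x y
    refine Prod.ext rfl (Prod.ext rfl (Prod.ext ?_ ?_))
    · ext i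
      exact mul_add _ _ _
    · ext i
      exact mul_add _ _ _
  · intro c x
    refine Prod.ext rfl (Prod.ext rfl (Prod.ext ?_ ?_))
    · ext i
      exact mul_left_comm _ _ _
    · ext i
      exact mul_left_comm _ _ _

theorem zr_lin (h2 : (2 : K) ≠ 0) (r : RtZ) (s : K) : ∃ h : Zo K ≃ₗ[K] Zo K, ∀ x, h x = zr r s x := by
  obtain ⟨ψ, -, -, hone, hio⟩ := psi_ex h2
  exact ⟨ψ ⟨X r s, X_mem_GG r s⟩, fun x => psi_X h2 ψ hone hio r s x⟩

theorem TP_eq : TP K = (TZ K).map (iotaP K) := by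
  apply le_antisymm
  · unfold TP
    rw [Subgroup.closure_le]
    rintro g ⟨t, ht, hg⟩
    obtain ⟨h, hh⟩ := zt_lin t
    refine ⟨h, Subgroup.subset_closure ⟨t, ht, hh⟩, ?_⟩
    apply Equiv.ext
    intro x
    rw [iotaP_apply, hg, hh]
  · rw [Subgroup.map_le_iff_le_comap]
    unfold TZ
    rw [Subgroup.closure_le]
    rintro g ⟨t, ht, hg⟩
    exact Subgroup.subset_closure ⟨t, ht, hg⟩

theorem XP_eq (h2 : (2 : K) ≠ 0) (r : RtZ) : XP K r = (XZ K r).map (iotaP K) := by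
  apply le_antisymm
  · unfold XP
    rw [Subgroup.closure_le]
    rintro g ⟨s, hg⟩
    obtain ⟨h, hh⟩ := zr_lin h2 r s
    refine ⟨h, Subgroup.subset_closure ⟨s, hh⟩, ?_⟩
    apply Equiv.ext
    intro x
    rw [iotaP_apply, hg, hh]
  · rw [Subgroup.map_le_iff_le_comap]
    unfold XZ
    rw [Subgroup.closure_le]
    rintro g ⟨s, hg⟩
    exact Subgroup.subset_closure ⟨s, hg⟩

theorem GSP_eq (h2 : (2 : K) ≠ 0) (S : Set RtZ) : GSP K S = (GZ K S).map (iotaP K) := by
  unfold GSP GZ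
  rw [Subgroup.map_sup, Subgroup.map_iSup, TP_eq]
  congr 1
  apply iSup_congr
  intro r
  rw [Subgroup.map_iSup]
  apply iSup_congr
  intro _
  exact XP_eq h2 r

/-- the main theorem: type `G_2` over the fields with 7 and 11 elements -/
theorem zp_main (hK : Nat.card K = 7 ∨ Nat.card K = 11) (F : Subgroup (Equiv.Perm (Zo K)))
    (h1 : TP K ≤ F) (h2 : F ≤ GP K) : StdP F := by
  have h22 : (2 : K) ≠ 0 := ok_two hK
  have hinj := iotaP_inj (K := K)
  have hT : TZ K ≤ F.comap (iotaP K) := by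
    rw [← Subgroup.map_le_iff_le_comap, ← TP_eq]
    exact h1
  have hG : F.comap (iotaP K) ≤ G2 K := by
    intro g hg x y
    exact (h2 hg).2.2 x y
  have hmem : ∀ (S : Set RtZ) (x : Zo K ≃ₗ[K] Zo K), iotaP K x ∈ GSP K S ↔ x ∈ GZ K S := by
    intro S x
    rw [GSP_eq h22]
    exact Subgroup.mem_map_iff_mem hinj
  have hsub : ∀ (S : Set RtZ) (x : Equiv.Perm (Zo K)), x ∈ GSP K S → ∃ y, iotaP K y = x := by
    intro S x hx
    rw [GSP_eq h22] at hx
    obtain ⟨y, -, hy⟩ := hx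
    exact ⟨y, hy⟩
  have hle : ∀ S : Set RtZ, GSP K S ≤ F ↔ GZ K S ≤ F.comap (iotaP K) := by
    intro S
    rw [GSP_eq h22, Subgroup.map_le_iff_le_comap]
  have hnor : ∀ S : Set RtZ, F ≤ Subgroup.normalizer (GSP K S : Set (Equiv.Perm (Zo K))) ↔
      ∀ f ∈ F.comap (iotaP K), ∀ x, x ∈ GZ K S ↔ f * x * f⁻¹ ∈ GZ K S := by
    intro S
    constructor
    · intro h f hf x
      have h3 := Subgroup.mem_normalizer_iff.mp (h hf) (iotaP K x)
      rw [← map_inv, ← map_mul, ← map_mul, hmem, hmem] at h3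
      exact h3
    · intro h f hf
      obtain ⟨f', rfl⟩ := iotaP_aut (h2 hf)
      rw [Subgroup.mem_normalizer_iff]
      intro x
      constructor
      · intro hx
        obtain ⟨x', rfl⟩ := hsub S x hx
        rw [← map_inv, ← map_mul, ← map_mul, hmem]
        exact (h f' hf x').mp ((hmem S x').mp hx)
      · intro hx
        obtain ⟨y, hy⟩ := hsub S _ hx
        have e : x = iotaP K (f'⁻¹ * y * f') := by
          rw [map_mul, map_mul, map_inv, hy]
          group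
        rw [← hy, hmem] at hx
        rw [e, hmem, h f' hf]
        have e2 : f' * (f'⁻¹ * y * f') * f'⁻¹ = y := by group
        rw [e2]
        exact hx
  obtain ⟨S, ⟨hS1, hS2, hS3⟩, hS4⟩ := zo_main hK (F.comap (iotaP K)) hT hG
  refine ⟨S, ⟨hS1, (hle S).mpr hS2, (hnor S).mpr hS3⟩, ?_⟩
  rintro S' ⟨h3, h4, h5⟩
  exact hS4 S' ⟨h3, (hle S').mp h4, (hnor S').mp h5⟩

end Pool.Agent.H40.GT
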