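import Mathlib

/-!
# The group `G_2(K)` as automorphism group of the split octonions: definitions

Everything is stated inside the group `Equiv.Perm (Zo K)` of the permutations of the split octonion
algebra `Zo K`.
-/

namespace Pool.Agent.H40.GT

/-- Zorn's vector matrices: `(a, b, u, v)` is the matrix with diagonal entries `a, b` and
off-diagonal vectors `u` (upper right), `v` (lower left) -/
abbrev Zo (K : Type) : Type := K × K × (Fin 3 → K) × (Fin 3 → K)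

/-- the names of the twelve roots -/
abbrev RtZ : Type := Fin 12

/-- the roots of `G_2` in the weight lattice; with `ε_1 = (1,0)`, `ε_2 = (0,1)`, `ε_3 = (-1,-1)`: the long
roots `ε_1 - ε_2, ε_2 - ε_1, ε_1 - ε_3, ε_3 - ε_1, ε_2 - ε_3, ε_3 - ε_2` and the short roots
`ε_1, -ε_1, ε_2, -ε_2, ε_3, -ε_3` -/
def rtZ : RtZ → ℤ × ℤ :=
  ![(1, -1), (-1, 1), (2, 1), (-2, -1), (1, 2), (-1, -2),
    (1, 0), (-1, 0), (0, 1), (0, -1), (-1, -1), (1, 1)]

variable {K : Type} [Field K]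

/-- scalar product -/
def dt (u v : Fin 3 → K) : K := u 0 * v 0 + u 1 * v 1 + u 2 * v 2

/-- vector product -/
def cr (u v : Fin 3 → K) : Fin 3 → K :=
  ![u 1 * v 2 - u 2 * v 1, u 2 * v 0 - u 0 * v 2, u 0 * v 1 - u 1 * v 0]

/-- the multiplication of the split octonion algebra -/
def zmul (x y : Zo K) : Zo K :=
  (x.1 * y.1 + dt x.2.2.1 y.2.2.2, x.2.1 * y.2.1 + dt x.2.2.2 y.2.2.1,
    x.1 • y.2.2.1 + y.2.1 • x.2.2.1 - cr x.2.2.2 y.2.2.2,
    y.1 • x.2.2.2 + x.2.1 • y.2.2.2 + cr x.2.2.1 y.2.2.1)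

/-- the long root element for `ε_i - ε_j` -/
def zl (i j : Fin 3) (s : K) (x : Zo K) : Zo K :=
  (x.1, x.2.1, x.2.2.1 + Pi.single i (s * x.2.2.1 j), x.2.2.2 - Pi.single j (s * x.2.2.2 i))

/-- the short root element for `ε_i` -/
def zp (i : Fin 3) (s : K) (x : Zo K) : Zo K :=
  (x.1 + s * x.2.2.2 i, x.2.1 - s * x.2.2.2 i,
    x.2.2.1 + Pi.single i (s * (x.2.1 - x.1) - s ^ 2 * x.2.2.2 i),
    x.2.2.2 - s • cr (Pi.single i 1) x.2.2.1)

/-- the short root element for `-ε_i` -/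
def zm (i : Fin 3) (s : K) (x : Zo K) : Zo K :=
  (x.1 + s * x.2.2.1 i, x.2.1 - s * x.2.2.1 i,
    x.2.2.1 - s • cr (Pi.single i 1) x.2.2.2,
    x.2.2.2 + Pi.single i (s * (x.2.1 - x.1) - s ^ 2 * x.2.2.1 i))

/-- the root elements, in the order of `rtZ` -/
def zr (r : RtZ) (s : K) : Zo K → Zo K :=
  ![zl 0 1 s, zl 1 0 s, zl 0 2 s, zl 2 0 s, zl 1 2 s, zl 2 1 s,
    zp 0 s, zm 0 s, zp 1 s, zm 1 s, zp 2 s, zm 2 s] r

/-- the element of the torus with the entries `t_i`: `(a, b, u, v) ↦ (a, b, (t_i u_i), (t_i⁻¹ v_i))` -/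
def zt (t : Fin 3 → Kˣ) (x : Zo K) : Zo K :=
  (x.1, x.2.1, fun i => (t i : K) * x.2.2.1 i, fun i => ((t i)⁻¹ : Kˣ) * x.2.2.2 i)

/-- closed sets of roots -/
def ClosedZ (S : Set RtZ) : Prop := ∀ a ∈ S, ∀ b ∈ S, ∀ c : RtZ, rtZ a + rtZ b = rtZ c → c ∈ S

/-- `g` is an automorphism of the split octonion algebra: additive, compatible with scalars and
multiplicative -/
def IsAutZ (g : Zo K → Zo K) : Prop :=
  (∀ x y, g (x + y) = g x + g y) ∧ (∀ (c : K) (x : Zo K), g (c • x) = c • g x) ∧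
    ∀ x y, g (zmul x y) = zmul (g x) (g y)

/-- the group `G_2(K)`: the automorphisms of the split octonion algebra -/
def GP (K : Type) [Field K] : Subgroup (Equiv.Perm (Zo K)) where
  carrier := {g | IsAutZ g}
  one_mem' := ⟨fun _ _ => rfl, fun _ _ => rfl, fun _ _ => rfl⟩
  mul_mem' := by
    rintro a b ⟨ha, ha', ha''⟩ ⟨hb, hb', hb''⟩
    refine ⟨fun x y => ?_, fun c x => ?_, fun x y => ?_⟩
    · rw [Equiv.Perm.mul_apply, Equiv.Perm.mul_apply, Equiv.Perm.mul_apply, hb, ha]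
    · rw [Equiv.Perm.mul_apply, Equiv.Perm.mul_apply, hb', ha']
    · rw [Equiv.Perm.mul_apply, Equiv.Perm.mul_apply, Equiv.Perm.mul_apply, hb'', ha'']
  inv_mem' := by
    rintro a ⟨ha, ha', ha''⟩
    have e : ∀ x, a (a⁻¹ x) = x := fun x => a.apply_symm_apply x
    refine ⟨fun x y => ?_, fun c x => ?_, fun x y => ?_⟩
    · apply a.injective
      rw [ha, e, e, e]
    · apply a.injective
      rw [ha', e, e]
    · apply a.injective
      rw [ha'', e, e, e]

/-- the split maximal torus: the maps `zt t` with `t_1 t_2 t_3 = 1` -/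
def TP (K : Type) [Field K] : Subgroup (Equiv.Perm (Zo K)) :=
  Subgroup.closure {g | ∃ t : Fin 3 → Kˣ, t 0 * t 1 * t 2 = 1 ∧ ∀ x, g x = zt t x}

/-- the root subgroup -/
def XP (K : Type) [Field K] (r : RtZ) : Subgroup (Equiv.Perm (Zo K)) :=
  Subgroup.closure {g | ∃ s : K, ∀ x, g x = zr r s x}

/-- the group `G(S)` generated by the torus and the root subgroups of `S` -/
def GSP (K : Type) [Field K] (S : Set RtZ) : Subgroup (Equiv.Perm (Zo K)) :=
  TP K ⊔ ⨆ r ∈ S, XP K r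

/-- `G(S) ≤ F ≤ N(G(S))` for exactly one closed `S` -/
def StdP (F : Subgroup (Equiv.Perm (Zo K))) : Prop :=
  ∃! S : Set RtZ, ClosedZ S ∧ GSP K S ≤ F ∧ F ≤ Subgroup.normalizer (GSP K S : Set (Equiv.Perm (Zo K)))

end Pool.Agent.H40.GT
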